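import Pool.Agent.Lib.MP_aafd8a_gt.B.SpecP

/-!
# MP_aafd8a_gt, block (B): assembly
-/

set_option autoImplicit false

open Topology RealInnerProductSpace

open scoped Classical

namespace Pool.Agent.MPaafd8aB

open Pool.Agent.MPaafd8a

namespace BBAux

theorem cst_eq : cst = cs := by
  unfold cst cs
  have h2 : √2 * √2 = (2 : ℝ) := Real.mul_self_sqrt (by norm_num)
  have h0 : (0 : ℝ) < √2 := Real.sqrt_pos.2 (by norm_num)
  have h : 1 / √2 = √2 / 2 := by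
    rw [div_eq_div_iff h0.ne' (by norm_num)]
    linarith
  rw [h]

theorem cs_lt : cs < 1 := by
  unfold cs
  have h0 : (0 : ℝ) < √2 := Real.sqrt_pos.2 (by norm_num)
  linarith

theorem sum17 (x : Fin 17 → ℝ) :
    ∑ i, |x i| = (∑ i, |pr (D := 15) x i|) + |lst (D := 15) (ini x)| + |lst (D := 16) x| := by
  rw [Fin.sum_univ_castSucc, Fin.sum_univ_castSucc]
  rfl

/-- The number `‖pr x‖ + lst (ini x)`. -/
noncomputable def nn (x : Fin 17 → ℝ) : ℝ := ‖pr (D := 15) x‖ + lst (D := 15) (ini x)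

/-- The point of the ball. -/
noncomputable def zv (x : Fin 17 → ℝ) : Fin 15 → ℝ := (nn x)⁻¹ • pr (D := 15) x

theorem norm_le_sum (y : Fin 15 → ℝ) : ‖y‖ ≤ ∑ i, |y i| := by
  rw [pi_norm_le_iff_of_nonneg (Finset.sum_nonneg fun i _ => abs_nonneg _)]
  intro i
  rw [Real.norm_eq_abs]
  exact Finset.single_le_sum (f := fun i => |y i|) (fun i _ => abs_nonneg _) (Finset.mem_univ i)

theorem sum_le_norm (y : Fin 15 → ℝ) : ∑ i, |y i| ≤ 15 * ‖y‖ := by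
  have h : ∑ i, |y i| ≤ ∑ _i : Fin 15, ‖y‖ := by
    refine Finset.sum_le_sum fun i _ => ?_
    rw [← Real.norm_eq_abs]
    exact norm_le_pi_norm y i
  rw [Finset.sum_const, Finset.card_univ, Fintype.card_fin, nsmul_eq_mul] at h
  exact_mod_cast h

theorem bot_sum {x : Fin 17 → ℝ} (h : Bot (D := 15) x) :
    (∑ i, |pr (D := 15) x i|) + lst (D := 15) (ini x) = 1 := by
  obtain ⟨h1, h2, h3⟩ := h
  rw [sum17, h2, abs_zero, add_zero, abs_of_nonneg h3] at h1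
  exact h1

theorem nn_pos {x : Fin 17 → ℝ} (h : Bot (D := 15) x) : 0 < nn x := by
  have h1 := bot_sum h
  have h2 := sum_le_norm (pr (D := 15) x)
  have h3 : 0 ≤ lst (D := 15) (ini x) := h.2.2
  have h4 := norm_nonneg (pr (D := 15) x)
  unfold nn
  by_contra h5
  have h6 : ‖pr (D := 15) x‖ = 0 := by linarith
  have h7 : lst (D := 15) (ini x) = 0 := by linarith
  rw [h6] at h2
  linarith

theorem nn_le {x : Fin 17 → ℝ} (h : Bot (D := 15) x) : nn x ≤ 1 := by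
  have h1 := bot_sum h
  have h2 := norm_le_sum (pr (D := 15) x)
  unfold nn
  linarith

theorem zv_norm {x : Fin 17 → ℝ} (h : Bot (D := 15) x) : ‖zv x‖ = (nn x)⁻¹ * ‖pr (D := 15) x‖ := by
  unfold zv
  rw [norm_smul, Real.norm_eq_abs, abs_of_pos (inv_pos.2 (nn_pos h))]

theorem zv_le {x : Fin 17 → ℝ} (h : Bot (D := 15) x) : ‖zv x‖ ≤ 1 := by
  rw [zv_norm h, inv_mul_le_iff₀ (nn_pos h), mul_one]
  have h3 : 0 ≤ lst (D := 15) (ini x) := h.2.2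
  unfold nn
  linarith

theorem pr_eq {x : Fin 17 → ℝ} (h : Bot (D := 15) x) : pr (D := 15) x = nn x • zv x := by
  unfold zv
  rw [smul_smul, mul_inv_cancel₀ (nn_pos h).ne', one_smul]

theorem le_zv {x : Fin 17 → ℝ} (h : Bot (D := 15) x) : ‖pr (D := 15) x‖ ≤ ‖zv x‖ := by
  rw [zv_norm h]
  have h1 : 1 ≤ (nn x)⁻¹ := (one_le_inv₀ (nn_pos h)).2 (nn_le h)
  nlinarith [norm_nonneg (pr (D := 15) x)]

theorem zv_small {x : Fin 17 → ℝ} (h : Bot (D := 15) x) {a : ℝ} (ha : ‖pr (D := 15) x‖ ≤ a)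
    (ha' : a ≤ 1 / 30) : ‖zv x‖ ≤ 2 * a := by
  have h1 := bot_sum h
  have h2 := sum_le_norm (pr (D := 15) x)
  have h3 : 1 / 2 ≤ nn x := by
    unfold nn
    linarith [norm_nonneg (pr (D := 15) x)]
  rw [zv_norm h, inv_mul_le_iff₀ (nn_pos h)]
  have h4 : 0 ≤ a := (norm_nonneg _).trans ha
  nlinarith

theorem pr_cont : Continuous fun x : Fin 17 → ℝ => pr (D := 15) x :=
  continuous_pi fun i => continuous_apply (i.castSucc.castSucc : Fin 17)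

theorem lst_cont : Continuous fun x : Fin 17 → ℝ => lst (D := 16) x :=
  continuous_apply (Fin.last 16)

theorem lsti_cont : Continuous fun x : Fin 17 → ℝ => lst (D := 15) (ini x) :=
  continuous_apply ((Fin.last 15).castSucc : Fin 17)

theorem nn_cont : Continuous nn := by
  unfold nn
  exact pr_cont.norm.add lsti_cont

theorem zv_cont : ContinuousOn zv {x | Bot (D := 15) x} := by
  unfold zv
  exact (nn_cont.continuousOn.inv₀ fun x hx => (nn_pos hx).ne').smul pr_cont.continuousOn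

/-- The point of the ball, a total function. -/
noncomputable def yb (x : Fin 17 → ℝ) : Ball 15 :=
  if h : Bot (D := 15) x then ⟨zv x, mem_closedBall_zero_iff.2 (zv_le h)⟩
  else ⟨0, mem_closedBall_zero_iff.2 (by rw [norm_zero]; exact zero_le_one)⟩

theorem yb_eq {x : Fin 17 → ℝ} (h : Bot (D := 15) x) : (yb x).1 = zv x := by
  unfold yb
  rw [dif_pos h]

theorem yb_cont : ContinuousOn yb {x | Bot (D := 15) x} := by
  rw [continuousOn_iff_continuous_domRestrict]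
  have h : Continuous fun x : {x : Fin 17 → ℝ | Bot (D := 15) x} => zv x.1 :=
    continuousOn_iff_continuous_domRestrict.1 zv_cont
  refine Continuous.congr (f := fun x : {x : Fin 17 → ℝ | Bot (D := 15) x} =>
    (⟨zv x.1, mem_closedBall_zero_iff.2 (zv_le x.2)⟩ : Ball 15)) (h.subtype_mk _) fun x => ?_
  apply Subtype.ext
  exact (yb_eq x.2).symm

/-- The domain. -/
abbrev Dm : Type := {x : Fin 17 → ℝ // ∑ i, |x i| = 1 ∧ 0 ≤ lst x}

instance : CompactSpace Dm := by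
  have h : IsCompact {x : Fin 17 → ℝ | ∑ i, |x i| = 1 ∧ 0 ≤ lst (D := 16) x} := by
    apply Metric.isCompact_of_isClosed_isBounded
    · refine IsClosed.inter (isClosed_eq ?_ continuous_const) (isClosed_le continuous_const lst_cont)
      exact continuous_finsetSum _ fun i _ => (continuous_apply i).abs
    · refine (Metric.isBounded_closedBall (x := (0 : Fin 17 → ℝ)) (r := 1)).subset fun x hx => ?_
      rw [mem_closedBall_zero_iff, pi_norm_le_iff_of_nonneg zero_le_one]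
      intro i
      rw [Real.norm_eq_abs, ← hx.1]
      exact Finset.single_le_sum (f := fun i => |x i|) (fun i _ => abs_nonneg _) (Finset.mem_univ i)
  exact isCompact_iff_compactSpace.1 h

end BBAux

open BBAux in
theorem pBB (h1 : SPar) (h2 : SRel) (h3 : SLip) (h4 : SPers) (h5 : SLow8) (h6 : SG0) (h7 : SPhi)
    (h8 : STop) (h9 : SUC) : SBB := by
  intro c₁ hc₁
  rw [cst_eq] at hc₁ ⊢
  obtain ⟨r4, r40, r41, R4⟩ := h4
  obtain ⟨r5, r50, r51, R5⟩ := h5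
  set r := min r4 r5 with hr
  have hr0 : 0 < r := lt_min r40 r50
  have hr4 : r ≤ r4 := min_le_left _ _
  have hr5 : r ≤ r5 := min_le_right _ _
  have hr1 : r ≤ 1 / 100 := hr4.trans r41
  obtain ⟨η₁, ε₁, d₁, hη, hε, hd, HP⟩ := R4 r hr0 hr4
  set a₀ := min (η₁ / 40) (1 / 300 : ℝ) with ha
  have ha0 : 0 < a₀ := lt_min (by linarith) (by norm_num)
  have ha1 : a₀ ≤ η₁ / 40 := min_le_left _ _
  have ha2 : a₀ ≤ 1 / 300 := min_le_right _ _
  obtain ⟨cm, cp, hp, q1, q2, q3, q4, q5, Φp, Φq, kΦ, P1, P2, P3, P4, P5, P6, P7⟩ :=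
    h7 r η₁ a₀ c₁ (min (cs + ε₁) 1) hr0 hr1 hη ha0 (by linarith) ha2 hc₁
      (lt_min (by linarith) cs_lt)
  have q6 : cp < cs + ε₁ := q5.trans_le (min_le_left _ _)
  have q7 : cp < 1 := q5.trans_le (min_le_right _ _)
  refine ⟨cm, cp, by linarith, hp, q1, q3, q4, q7, ?_⟩
  rintro ⟨hc14, hc15⟩
  obtain ⟨Hp, Hq, T1, T2, T3⟩ := h8 cm cp (by linarith) hp (by linarith) hc14 hc15 Φp Φq P1 P2
  obtain ⟨γ, G1, G2, G3⟩ := h2
  obtain ⟨ν, hν, N1⟩ := R5 r cm hr0 hr5 q3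
  obtain ⟨δp, hδp, Dp⟩ := h9 _ _ Dm Hp d₁ hd
  obtain ⟨δq, hδq, Dq⟩ := h9 _ _ Dm Hq d₁ hd
  -- the data
  let Fr : (Fin (15 + 2) → ℝ) → Iso3 → Prop := fun x g =>
    ∃ h : Hem x, Frm r g (Hp ⟨x, h⟩).1 (Hq ⟨x, h⟩).1
  let kap : (Fin (15 + 2) → ℝ) → Iso3 → Fin 15 → ℝ := fun x g =>
    if h : Hem x then kp r g (Hp ⟨x, h⟩).1 (Hq ⟨x, h⟩).1 else 0
  let g₀ : Iso3 := LinearIsometryEquiv.refl ℝ (Eu 3)
  have kap_eq : ∀ (x : Fin (15 + 2) → ℝ) (g : Iso3) (h : Hem x),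
      kap x g = kp r g (Hp ⟨x, h⟩).1 (Hq ⟨x, h⟩).1 := fun x g h => dif_pos h
  have pwp : ∀ x, Pw (Hp x).1 := fun x => pw_of_geo _
  have pwq : ∀ x, Pw (Hq x).1 := fun x => pw_of_geo _
  -- the values on the bottom
  have bot : ∀ (x : Fin (15 + 2) → ℝ) (hb : Bot x) (h : Hem x),
      Hp ⟨x, h⟩ = Φp (yb x) ∧ Hq ⟨x, h⟩ = Φq (yb x) := by
    intro x hb h
    refine T2 ⟨x, h⟩ (yb x) hb.2.1 hb.2.2 ?_
    rw [yb_eq hb]
    exact pr_eq hb
  have hem : ∀ x : Fin (15 + 2) → ℝ, Bot x → Hem x := fun x hb => ⟨hb.1, hb.2.1.ge⟩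
  refine h1 15 (by norm_num) Iso3 Fr kap γ g₀ (fun x => kΦ (yb x)) η₁ (min δp δq) a₀ ν hη
    (lt_min hδp hδq) ha0 ?_ hν G1 ?_ ?_ ?_ ?_ ?_ ?_ ?_ ?_ ?_
  · have : (1 : ℝ) / ((15 : ℕ) : ℝ) = 1 / 15 := by norm_num
    rw [this]
    linarith
  · -- H1
    rintro x g g' ⟨h, hg⟩ ⟨h', hg'⟩
    rw [kap_eq x g h, kap_eq x g' h]
    exact G2 r g g' _ _ hr0 hr1 (pwp _) (pwq _) hg hg'
  · -- H2
    rintro x g g' g'' ⟨h, hg⟩ ⟨h', hg'⟩ ⟨h'', hg''⟩ v
    exact G3 r g g' g'' _ _ hr0 hr1 (pwp _) (pwq _) hg hg' hg'' v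
  · -- H3
    intro ε hε
    obtain ⟨δ, hδ, E1⟩ := h9 _ _ Dm Hp (ε / 4000) (by linarith)
    obtain ⟨δ', hδ', E2⟩ := h9 _ _ Dm Hq (ε / 4000) (by linarith)
    refine ⟨min δ δ', lt_min hδ hδ', ?_⟩
    rintro x y g hx hy hxy ⟨h, hg⟩ ⟨h', hg'⟩
    rw [kap_eq x g h, kap_eq y g h', pi_norm_lt_iff hε]
    intro k
    have e1 : dl (Hp ⟨x, h⟩).1 (Hp ⟨y, h'⟩).1 < ε / 4000 :=
      E1 ⟨x, h⟩ ⟨y, h'⟩ (lt_of_lt_of_le hxy (min_le_left _ _))
    have e2 : dl (Hq ⟨x, h⟩).1 (Hq ⟨y, h'⟩).1 < ε / 4000 :=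
      E2 ⟨x, h⟩ ⟨y, h'⟩ (lt_of_lt_of_le hxy (min_le_right _ _))
    have e3 := h3 r g _ _ _ _ (pwp ⟨x, h⟩) (pwq ⟨x, h⟩) (pwp ⟨y, h'⟩) (pwq ⟨y, h'⟩) hg hg' k
    rw [Pi.sub_apply, Real.norm_eq_abs]
    linarith
  · -- H4
    rintro x g hx ⟨h, hg⟩ hk
    have hc : Cpt2 (cs + ε₁) (Hp ⟨x, h⟩).1 (Hq ⟨x, h⟩).1 := fun v w hv hw =>
      (T1 ⟨x, h⟩ v w hv hw).trans q6
    obtain ⟨g', hg'⟩ := HP g _ _ (pwp ⟨x, h⟩) (pwq ⟨x, h⟩) hc hg fun k => by
      rw [kap_eq x g h] at hk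
      rw [← Real.norm_eq_abs]
      exact (norm_le_pi_norm _ k).trans_lt hk
    refine ⟨g', fun y hy hxy => ⟨hy, ?_⟩⟩
    refine hg' _ _ (pwp _) (pwq _) (fun v w hv hw => (T1 ⟨y, hy⟩ v w hv hw).trans q6) ?_ ?_
    · exact Dp ⟨x, h⟩ ⟨y, hy⟩ (lt_of_lt_of_le hxy (min_le_left _ _))
    · exact Dq ⟨x, h⟩ ⟨y, hy⟩ (lt_of_lt_of_le hxy (min_le_right _ _))
  · -- continuity
    exact kΦ.continuous.comp_continuousOn yb_cont
  · -- H5
    rintro x g hb ⟨h, hg⟩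
    obtain ⟨b1, b2⟩ := bot x hb h
    have hf : Frm r g₀ (Φp (yb x)).1 (Φq (yb x)).1 := by
      rw [b1, b2] at hg
      exact h6 r g _ _ hr0 hr1 (pw_of_geo _) (pw_of_geo _) (P3 _) (P4 _) hg
    refine ⟨⟨h, ?_⟩, ?_⟩
    · rw [b1, b2]
      exact hf
    · rw [kap_eq x g₀ h, b1, b2]
      exact P5 _ hf
  · -- H6
    intro x hb hx
    obtain ⟨b1, b2⟩ := bot x hb (hem x hb)
    have hn : ‖(yb x).1‖ ≤ 2 * a₀ := by
      rw [yb_eq hb]
      exact zv_small hb hx (by linarith)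
    obtain ⟨hf, hk⟩ := P6 (yb x) hn
    refine ⟨⟨hem x hb, ?_⟩, ?_⟩
    · rw [b1, b2]
      exact hf
    · rw [pi_norm_lt_iff hη]
      intro k
      rw [Real.norm_eq_abs]
      exact hk k
  · -- H7
    have real7 : ∀ (x : Fin (15 + 2) → ℝ) (s : ℝ), Bot x → a₀ ≤ ‖pr x‖ → 0 ≤ s →
        kΦ (yb x) ≠ -(s • pr x) := by
      intro x s hb hx hs he
      have hn : a₀ ≤ ‖(yb x).1‖ := by
        rw [yb_eq hb]
        exact hx.trans (le_zv hb)
      refine P7 (yb x) (s * nn x) hn (mul_nonneg hs (nn_pos hb).le) ?_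
      have e1 : s • pr (D := 15) x = (s * nn x) • (yb x).1 := by
        rw [yb_eq hb, mul_smul, ← pr_eq hb]
      rw [← e1]
      exact he
    intro x s hb hx hs
    first
      | exact real7 x s hb hx hs
      | exact fun he => real7 x (s : ℝ) hb hx (by positivity) (by
          rw [Nat.cast_smul_eq_nsmul]
          exact he)
  · -- H8
    rintro x g hl ⟨h, hg⟩
    obtain ⟨k, hk⟩ := N1 g _ _ (pwp ⟨x, h⟩) (pwq ⟨x, h⟩) (T3 ⟨x, h⟩ hl.2.1 hl.2.2) hg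
    rw [kap_eq x g h]
    refine hk.trans ?_
    rw [← Real.norm_eq_abs]
    exact norm_le_pi_norm _ k

end Pool.Agent.MPaafd8aB
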