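import Pool.Agent.Lib.MP_aafd8a_gt.B.SpecP

/-!
# MP_aafd8a_gt, block (B): clusters
-/

set_option autoImplicit false

open Topology RealInnerProductSpace

open scoped Classical

namespace Pool.Agent.MPaafd8aB

open Pool.Agent.MPaafd8a

namespace CluAux

theorem sum_gen {A : Type} [Fintype A] {M : Type} [AddCommGroup M] [Module ℝ M] (p : Sph 3 →₀ ℝ)
    (w : A → ℝ) (u : A → Sph 3) (hp : ∀ v, p v = ∑ a, if u a = v then w a else 0) (g : Sph 3 → M) :
    ∑ v ∈ p.support, p v • g v = ∑ a, w a • g (u a) := by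
  have h1 : p.support ⊆ Finset.univ.image u := by
    intro v hv
    by_contra hn
    apply Finsupp.mem_support_iff.1 hv
    rw [hp]
    refine Finset.sum_eq_zero fun a _ => if_neg ?_
    rintro rfl
    exact hn (Finset.mem_image_of_mem _ (Finset.mem_univ a))
  rw [Finset.sum_subset h1 (fun v _ hv => by rw [Finsupp.notMem_support_iff.1 hv, zero_smul])]
  have h2 : ∀ v ∈ Finset.univ.image u, p v • g v = ∑ a, if u a = v then w a • g (u a) else 0 := by
    intro v _
    rw [hp, Finset.sum_smul]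
    refine Finset.sum_congr rfl fun a _ => ?_
    split_ifs with h
    · rw [h]
    · rw [zero_smul]
  rw [Finset.sum_congr rfl h2, Finset.sum_comm]
  refine Finset.sum_congr rfl fun a _ => ?_
  rw [Finset.sum_ite_eq, if_pos (Finset.mem_image_of_mem _ (Finset.mem_univ a))]

theorem pos_pos {a b : ℝ} (ha : 0 ≤ a) (hb : 0 ≤ b) (h : 0 < a * b) : 0 < a ∧ 0 < b := by
  refine ⟨lt_of_le_of_ne ha fun h1 => ?_, lt_of_le_of_ne hb fun h1 => ?_⟩
  · rw [← h1, zero_mul] at h
    exact lt_irrefl _ h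
  · rw [← h1, mul_zero] at h
    exact lt_irrefl _ h

end CluAux

open CluAux

/-- Clusters. -/
theorem pClu (h1 : SMkE) (h2 : SNet) : SClu := by
  intro r θ c hc lb cc hθ hlb X _ Xf μ hXf hμ hμ0 hμ1 hd hy
  obtain ⟨B, _, u, χ, hχc, hχ0, hχ1, hχd⟩ := h2 3 θ hθ
  -- the weights
  have hw0 : ∀ (a : Fin 6 × B) x, 0 ≤ μ a.1 x * χ a.2 (Xf a.1 x) := fun a x =>
    mul_nonneg (hμ0 _ _) (hχ0 _ _)
  have hsum : ∀ x, ∑ a : Fin 6 × B, μ a.1 x * χ a.2 (Xf a.1 x) = 1 := by
    intro x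
    rw [Fintype.sum_prod_type, ← hμ1 x]
    refine Finset.sum_congr rfl fun i _ => ?_
    change ∑ b, μ i x * χ b (Xf i x) = μ i x
    rw [← Finset.mul_sum, hχ1, mul_one]
  have hface : ∀ x (σ : Finset (Sph 3)), σ.Nonempty →
      (∀ v ∈ σ, ∃ a : Fin 6 × B, 0 < μ a.1 x * χ a.2 (Xf a.1 x) ∧ u a.2 = v) →
      σ ∈ capK 3 c hc := by
    intro x σ hσ hv
    obtain ⟨y, hy'⟩ := hy x
    refine ⟨hσ, y, fun v hvσ => ?_⟩
    obtain ⟨⟨i, b⟩, hpos, rfl⟩ := hv v hvσ
    obtain ⟨p1, p2⟩ := pos_pos (hμ0 i x) (hχ0 b _) hpos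
    have h3 := hy' i p1
    have h4 : dist ((u b : Sph 3) : Eu 3) (Xf i x : Eu 3) < θ := hχd b _ p2
    have h5 : ⟪((u b : Sph 3) : Eu 3), (y : Eu 3)⟫ =
        ⟪(Xf i x : Eu 3), (y : Eu 3)⟫ + ⟪((u b : Sph 3) : Eu 3) - (Xf i x : Eu 3), (y : Eu 3)⟫ := by
      rw [← inner_add_left]
      congr 1
      abel
    have h6 : ⟪((u b : Sph 3) : Eu 3) - (Xf i x : Eu 3), (y : Eu 3)⟫ ≤
        dist ((u b : Sph 3) : Eu 3) (Xf i x : Eu 3) := by
      have h7 := real_inner_le_norm (((u b : Sph 3) : Eu 3) - (Xf i x : Eu 3)) (y : Eu 3)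
      have h8 : ‖(y : Eu 3)‖ = 1 := mem_sphere_zero_iff_norm.1 y.2
      rw [h8, mul_one] at h7
      rw [dist_eq_norm]
      exact h7
    change ⟪((u b : Sph 3) : Eu 3), (y : Eu 3)⟫ < c
    linarith
  obtain ⟨F, hF⟩ := h1 (Sph 3) (capK 3 c hc) X (Fin 6 × B)
    (fun a x => μ a.1 x * χ a.2 (Xf a.1 x)) (fun a => u a.2)
    (fun a => (hμ a.1).mul ((hχc a.2).comp (hXf a.1))) hw0 hsum hface
  have hF' : ∀ x v, (F x).1 v = ∑ a : Fin 6 × B,
      if u a.2 = v then μ a.1 x * χ a.2 (Xf a.1 x) else 0 := by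
    intro x v
    rw [hF x v]
    exact Finset.sum_congr rfl fun a _ => by split_ifs <;> rfl
  -- labels of the active vertices
  have hact : ∀ x i b, 0 < μ i x * χ b (Xf i x) → lb (u b) = i := by
    intro x i b hpos
    obtain ⟨-, p2⟩ := pos_pos (hμ0 i x) (hχ0 b _) hpos
    apply hlb
    have h4 : dist ((u b : Sph 3) : Eu 3) (Xf i x : Eu 3) < θ := hχd b _ p2
    have h5 := dist_triangle ((u b : Sph 3) : Eu 3) (Xf i x : Eu 3) (cc i)
    have h6 := hd i x
    linarith
  -- the general sum over a cluster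
  have hgen : ∀ (M : Type) [AddCommGroup M] [Module ℝ M] (g : Sph 3 → M) x i,
      (∑ v ∈ (F x).1.support, if lb v = i then (F x).1 v • g v else 0) =
        ∑ b, (μ i x * χ b (Xf i x)) • g (u b) := by
    intro M _ _ g x i
    have e1 : (∑ v ∈ (F x).1.support, if lb v = i then (F x).1 v • g v else 0) =
        ∑ v ∈ (F x).1.support, (F x).1 v • (if lb v = i then g v else 0) := by
      refine Finset.sum_congr rfl fun v _ => ?_
      split_ifs
      · rfl
      · rw [smul_zero]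
    rw [e1, sum_gen (F x).1 (fun a : Fin 6 × B => μ a.1 x * χ a.2 (Xf a.1 x))
      (fun a => u a.2) (hF' x) (fun v => if lb v = i then g v else 0), Fintype.sum_prod_type]
    change ∑ k, ∑ b, (μ k x * χ b (Xf k x)) • (if lb (u b) = i then g (u b) else 0) = _
    have e2 : ∀ k b, (μ k x * χ b (Xf k x)) • (if lb (u b) = i then g (u b) else 0) =
        if k = i then (μ k x * χ b (Xf k x)) • g (u b) else 0 := by
      intro k b
      rcases (hw0 (k, b) x).eq_or_lt with h0 | h0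
      · have h0' : μ k x * χ b (Xf k x) = 0 := h0.symm
        rw [h0', zero_smul, zero_smul, ite_self]
      · rw [hact x k b h0]
        split_ifs
        · rfl
        · rw [smul_zero]
    have e3 : ∀ k, (∑ b, (μ k x * χ b (Xf k x)) • (if lb (u b) = i then g (u b) else 0)) =
        if k = i then ∑ b, (μ k x * χ b (Xf k x)) • g (u b) else 0 := by
      intro k
      rw [Finset.sum_congr rfl fun b _ => e2 k b]
      split_ifs
      · rfl
      · exact Finset.sum_const_zero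
    rw [Finset.sum_congr rfl fun k _ => e3 k, Finset.sum_ite_eq', if_pos (Finset.mem_univ i)]
  have hms : ∀ x i, ms lb (F x).1 i = μ i x := by
    intro x i
    have h3 := hgen ℝ (fun _ => (1 : ℝ)) x i
    simp only [smul_eq_mul, mul_one] at h3
    rw [ms, h3, ← Finset.mul_sum, hχ1, mul_one]
  refine ⟨F, fun i x => ∑ b, χ b (Xf i x) • ((u b : Sph 3) : Eu 3), ?_, ?_, ?_, hms, ?_⟩
  · intro i
    exact continuous_finsetSum _ fun b _ => ((hχc b).comp (hXf i)).smul continuous_const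
  · intro i x
    have e1 : (Xf i x : Eu 3) = ∑ b, χ b (Xf i x) • (Xf i x : Eu 3) := by
      rw [← Finset.sum_smul, hχ1, one_smul]
    rw [dist_eq_norm]
    have e2 : (∑ b, χ b (Xf i x) • ((u b : Sph 3) : Eu 3)) - (Xf i x : Eu 3) =
        ∑ b, χ b (Xf i x) • (((u b : Sph 3) : Eu 3) - (Xf i x : Eu 3)) := by
      rw [Finset.sum_congr rfl fun b _ => smul_sub (χ b (Xf i x)) ((u b : Sph 3) : Eu 3) (Xf i x : Eu 3),
        Finset.sum_sub_distrib, ← e1]
    rw [e2]
    have e3 : ∀ b ∈ Finset.univ, ‖χ b (Xf i x) • (((u b : Sph 3) : Eu 3) - (Xf i x : Eu 3))‖ ≤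
        χ b (Xf i x) * θ := by
      intro b _
      rw [norm_smul, Real.norm_of_nonneg (hχ0 b _)]
      rcases (hχ0 b (Xf i x)).eq_or_lt with h0 | h0
      · rw [← h0, zero_mul, zero_mul]
      · refine mul_le_mul_of_nonneg_left ?_ h0.le
        have h4 : dist ((u b : Sph 3) : Eu 3) (Xf i x : Eu 3) < θ := hχd b _ h0
        rw [← dist_eq_norm]
        exact h4.le
    refine (norm_sum_le_of_le _ e3).trans ?_
    rw [← Finset.sum_mul, hχ1, one_mul]
  · intro x v hv
    by_contra hcon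
    push Not at hcon
    refine absurd hv (not_lt.2 ?_)
    rw [hF' x v]
    refine Finset.sum_nonpos fun a _ => ?_
    split_ifs with h3
    · by_contra hpos
      obtain ⟨p1, p2⟩ := pos_pos (hμ0 a.1 x) (hχ0 a.2 _) (not_le.1 hpos)
      have h4 : dist ((u a.2 : Sph 3) : Eu 3) (Xf a.1 x : Eu 3) < θ := hχd a.2 _ p2
      rw [h3] at h4
      exact absurd h4 (not_lt.2 (hcon a.1 p1))
    · exact le_refl _
  · intro x i hpos
    have h3 := hgen (Eu 3) (fun v => (v : Eu 3)) x i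
    rw [bc, hms, h3, Finset.smul_sum]
    refine Finset.sum_congr rfl fun b _ => ?_
    rw [smul_smul, ← mul_assoc, inv_mul_cancel₀ hpos.ne', one_mul]

end Pool.Agent.MPaafd8aB
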