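import Pool.Agent.Lib.MP_aafd8a_gt.B.SpecT

/-!
# MP_aafd8a_gt, block (B): odd on the equator implies odd count
-/

set_option autoImplicit false

open scoped Classical

namespace Pool.Agent.MPaafd8aB

attribute [-instance] Fintype.decidablePiFintype

namespace DegOAux

/-- Two linear maps which agree on the basis elements with `P` agree on `Sp P`. -/
theorem eqB {X N : Type} [AddCommMonoid N] [Module (ZMod 2) N] {P : Finset X → Prop}
    (F G : BU.Ch X →ₗ[ZMod 2] N)
    (h : ∀ S, P S → F (Finsupp.single S (1 : ZMod 2)) = G (Finsupp.single S (1 : ZMod 2)))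
    {c : BU.Ch X} (hc : c ∈ BU.Sp P) : F c = G c := by
  have h1 : BU.Sp P = Submodule.span (ZMod 2)
      ((fun S : Finset X => Finsupp.single S (1 : ZMod 2)) '' {S | P S}) :=
    Finsupp.supported_eq_span_single (ZMod 2) {S | P S}
  rw [h1] at hc
  refine LinearMap.eqOn_span ?_ hc
  rintro _ ⟨S, hS, rfl⟩
  exact h S hS

theorem ng_inj {M : ℕ} : Function.Injective (BU.ng : (Fin M → ℝ) → (Fin M → ℝ)) := by
  intro x y h
  have h1 : -x = -y := h
  exact neg_injective h1

theorem ng_ng {M : ℕ} (x : Fin M → ℝ) : BU.ng (BU.ng x) = x := neg_neg x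

/-- Reflection of a set. -/
theorem hs_neg {M D : ℕ} (w : (Fin M → ℝ) → Fin D → ℝ) (S : Finset (Fin M → ℝ)) (j : ℕ) (e : ℝ)
    (hodd : ∀ x ∈ S, w (-x) = -w x) : HitS j w (S.image BU.ng) e ↔ HitS j w S (-e) := by
  have hsum : ∀ (l : (Fin M → ℝ) → ℝ) (i : Fin D),
      ∑ s ∈ S.image BU.ng, l s * w s i = -∑ s ∈ S, l (BU.ng s) * w s i := by
    intro l i
    rw [Finset.sum_image fun a _ b _ h => ng_inj h, ← Finset.sum_neg_distrib]
    refine Finset.sum_congr rfl fun s hs => ?_
    have h1 : w (BU.ng s) i = -w s i := congrFun (hodd s hs) i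
    rw [h1, mul_neg]
  have hsum1 : ∀ l : (Fin M → ℝ) → ℝ, ∑ s ∈ S.image BU.ng, l s = ∑ s ∈ S, l (BU.ng s) :=
    fun l => Finset.sum_image fun a _ b _ h => ng_inj h
  constructor
  · rintro ⟨l, h0, h1, h2, h3⟩
    refine ⟨fun s => l (BU.ng s), fun s hs => h0 _ (Finset.mem_image_of_mem _ hs), ?_, ?_, ?_⟩
    · rw [← hsum1, h1]
    · intro i hi
      have := h2 i hi
      rw [hsum] at this
      exact neg_eq_zero.1 this
    · intro i hi
      have := h3 i hi
      rw [hsum] at this
      simp only
      linarith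
  · rintro ⟨l, h0, h1, h2, h3⟩
    have hl : ∀ s, (fun s => l (BU.ng s)) (BU.ng s) = l s := fun s => by
      simp only [ng_ng]
    refine ⟨fun s => l (BU.ng s), ?_, ?_, ?_, ?_⟩
    · intro s hs
      obtain ⟨s', hs', rfl⟩ := Finset.mem_image.1 hs
      rw [hl]
      exact h0 s' hs'
    · rw [hsum1]
      simp only [ng_ng]
      exact h1
    · intro i hi
      rw [hsum]
      simp only [ng_ng]
      rw [h2 i hi, neg_zero]
    · intro i hi
      have := h3 i hi
      rw [hsum]
      simp only [ng_ng]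
      linarith

/-- The two signs. -/
theorem split {X : Type} {D j : ℕ} (h1 : SUni) (w : X → Fin D → ℝ) (S : Finset X) (hj : j < D)
    (hcard : S.card = j + 1) (hG : GenH j w S) (hG' : GenH (j + 1) w S) :
    (if Hit j w S then (1 : ZMod 2) else 0) =
      (if HitS j w S 1 then 1 else 0) + (if HitS j w S (-1) then 1 else 0) := by
  by_cases hh : Hit j w S
  · rw [if_pos hh]
    obtain ⟨l, hl0, hl1, hl2⟩ := hh
    have huni : ∀ l' : X → ℝ, (∀ s ∈ S, 0 ≤ l' s) → ∑ s ∈ S, l' s = 1 →
        (∀ i : Fin D, (i : ℕ) < j → ∑ s ∈ S, l' s * w s i = 0) →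
        ∑ s ∈ S, l' s * w s ⟨j, hj⟩ = ∑ s ∈ S, l s * w s ⟨j, hj⟩ := by
      intro l' a b c
      have := h1 X D j w S hcard hG l l' hl0 hl1 hl2 a b c
      exact Finset.sum_congr rfl fun s hs => by rw [this s hs]
    have hy : ∑ s ∈ S, l s * w s ⟨j, hj⟩ ≠ 0 := by
      intro h0
      refine hG' S (Finset.Subset.refl _) hcard.le ⟨l, hl0, hl1, fun i hi => ?_⟩
      rcases Nat.lt_succ_iff_lt_or_eq.1 hi with hi | hi
      · exact hl2 i hi
      · have : i = ⟨j, hj⟩ := Fin.ext hi
        rw [this, h0]
    rcases lt_or_gt_of_ne hy with hy | hy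
    · have hn : ¬ HitS j w S 1 := by
        rintro ⟨l', a, b, c, d⟩
        have := d ⟨j, hj⟩ rfl
        rw [huni l' a b c] at this
        linarith
      have hp : HitS j w S (-1) := by
        refine ⟨l, hl0, hl1, hl2, fun i hi => ?_⟩
        have : i = ⟨j, hj⟩ := Fin.ext hi
        rw [this]
        linarith
      rw [if_neg hn, if_pos hp, zero_add]
    · have hn : ¬ HitS j w S (-1) := by
        rintro ⟨l', a, b, c, d⟩
        have := d ⟨j, hj⟩ rfl
        rw [huni l' a b c] at this
        linarith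
      have hp : HitS j w S 1 := by
        refine ⟨l, hl0, hl1, hl2, fun i hi => ?_⟩
        have : i = ⟨j, hj⟩ := Fin.ext hi
        rw [this]
        linarith
      rw [if_neg hn, if_pos hp, add_zero]
  · have hn : ∀ e : ℝ, ¬ HitS j w S e := by
      rintro e ⟨l, a, b, c, -⟩
      exact hh ⟨l, a, b, c⟩
    rw [if_neg hh, if_neg (hn 1), if_neg (hn (-1)), add_zero]

end DegOAux

open DegOAux

theorem pDegO (h1 : SUni) (h2 : SHitStep) : SDegO := by
  intro M D P φ w hφ hP h0 hbd hG hodd
  have key : ∀ j, j ≤ D → cnt (fun S => S.card = j + 1 ∧ Hit j w S) (φ j) = 1 := by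
    intro j
    induction j with
    | zero =>
      intro _
      let ev : BU.Ch (Fin M → ℝ) →ₗ[ZMod 2] ZMod 2 := (Finsupp.lapply ∅).comp BU.bd
      have hev : ∀ c, ev c = (BU.bd c) ∅ := fun c => rfl
      have h : cnt (fun S => S.card = 0 + 1 ∧ Hit 0 w S) (φ 0) = ev (φ 0) := by
        refine eqB _ _ (fun S hS => ?_) (hφ 0 (Nat.zero_le _))
        have hc := hP 0 S hS
        have hH : Hit 0 w S := ⟨fun _ => 1, fun _ _ => zero_le_one, by simp [hc],
          fun i hi => absurd hi (Nat.not_lt_zero _)⟩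
        rw [cnt_single, if_pos ⟨hc, hH⟩, hev, BU.bd_single]
        obtain ⟨x, rfl⟩ := Finset.card_eq_one.1 hc
        simp
      rw [h, hev, h0]
      simp
    | succ j ih =>
      intro hj
      have hjD : j < D := hj
      have ea : cnt (fun S => S.card = j + 1 + 1 ∧ Hit (j + 1) w S) (φ (j + 1)) =
          cnt (fun S => S.card = j + 1 ∧ HitS j w S 1) (BU.bd (φ (j + 1))) := by
        have := eqB (cnt (fun S => S.card = j + 1 + 1 ∧ Hit (j + 1) w S))
          ((cnt (fun S => S.card = j + 1 ∧ HitS j w S 1)).comp BU.bd) (fun S hS => ?_) (hφ (j + 1) hj)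
        · exact this
        have hc := hP (j + 1) S hS
        rw [cnt_single, LinearMap.comp_apply, BU.bd_single, map_sum]
        have e1 : ∑ a ∈ S, cnt (fun S => S.card = j + 1 ∧ HitS j w S 1)
            (Finsupp.single (S.erase a) (1 : ZMod 2)) =
            ∑ a ∈ S, (if HitS j w (S.erase a) 1 then (1 : ZMod 2) else 0) := by
          refine Finset.sum_congr rfl fun a ha => ?_
          rw [cnt_single]
          have hca : (S.erase a).card = j + 1 := by
            rw [Finset.card_erase_of_mem ha, hc]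
            rfl
          by_cases h : HitS j w (S.erase a) 1
          · rw [if_pos ⟨hca, h⟩, if_pos h]
          · rw [if_neg fun h' => h h'.2, if_neg h]
        rw [e1, h2 _ D j w S hjD hc (hG (j + 1) hj S hS j hjD.le) (hG (j + 1) hj S hS (j + 1) hj)]
        by_cases h : Hit (j + 1) w S
        · rw [if_pos ⟨hc, h⟩, if_pos h]
        · rw [if_neg fun h' => h h'.2, if_neg h]
      have eb : cnt (fun S => S.card = j + 1 ∧ HitS j w S 1) (BU.push BU.ng (φ j)) =
          cnt (fun S => S.card = j + 1 ∧ HitS j w S (-1)) (φ j) := by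
        have := eqB ((cnt (fun S => S.card = j + 1 ∧ HitS j w S 1)).comp (BU.push BU.ng))
          (cnt (fun S => S.card = j + 1 ∧ HitS j w S (-1))) (fun S hS => ?_) (hφ j hjD.le)
        · exact this
        have hc := hP j S hS
        have hci : (S.image BU.ng).card = S.card := Finset.card_image_of_injective S ng_inj
        rw [LinearMap.comp_apply, BU.push_single, if_pos hci, cnt_single, cnt_single]
        have hiff := hs_neg w S j 1 (hodd j hjD S hS)
        by_cases h : HitS j w S (-1)
        · rw [if_pos ⟨hci.trans hc, hiff.2 h⟩, if_pos ⟨hc, h⟩]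
        · rw [if_neg fun h' => h (hiff.1 h'.2), if_neg fun h' => h h'.2]
      have ec : cnt (fun S => S.card = j + 1 ∧ Hit j w S) (φ j) =
          cnt (fun S => S.card = j + 1 ∧ HitS j w S 1) (φ j) +
            cnt (fun S => S.card = j + 1 ∧ HitS j w S (-1)) (φ j) := by
        have := eqB (cnt (fun S => S.card = j + 1 ∧ Hit j w S))
          (cnt (fun S => S.card = j + 1 ∧ HitS j w S 1) +
            cnt (fun S => S.card = j + 1 ∧ HitS j w S (-1))) (fun S hS => ?_) (hφ j hjD.le)
        · exact this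
        have hc := hP j S hS
        have hs := split h1 w S hjD hc (hG j hjD.le S hS j hjD.le) (hG j hjD.le S hS (j + 1) hj)
        have hu : ∀ (Q : Prop) (d1 : Decidable (S.card = j + 1 ∧ Q)),
            (@ite (ZMod 2) (S.card = j + 1 ∧ Q) d1 1 0) = if Q then 1 else 0 := by
          intro Q d1
          by_cases h : Q
          · rw [if_pos ⟨hc, h⟩, if_pos h]
          · rw [if_neg fun h' => h h'.2, if_neg h]
        rw [LinearMap.add_apply, cnt_single, cnt_single, cnt_single, hu, hu, hu]
        exact hs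
      rw [ea, hbd j hjD, map_add, eb, ← ec]
      exact ih hjD.le
  exact key D le_rfl

end Pool.Agent.MPaafd8aB
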