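import Pool.Agent.Lib.MP_aafd8a_gt.B.SpecP

/-!
# MP_aafd8a_gt, block (B): expansion of a contact
-/

set_option autoImplicit false

open Topology RealInnerProductSpace

open scoped Classical

namespace Pool.Agent.MPaafd8aB

open Pool.Agent.MPaafd8a

namespace ExpAux

theorem ib (x y : Eu 3) (M : ℝ) (hM : 0 ≤ M) (hx : ‖x‖ ≤ M) (hy : ‖y‖ ≤ M) : |⟪x, y⟫| ≤ M ^ 2 := by
  have h1 := abs_real_inner_le_norm x y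
  have h2 : ‖x‖ * ‖y‖ ≤ M * M := mul_le_mul hx hy (norm_nonneg _) hM
  nlinarith

theorem powb (r : ℝ) (hr : 0 < r) (hr1 : r ≤ 1) (n : ℕ) : r ^ (4 + n) ≤ r ^ 4 ∧ 0 < r ^ (4 + n) :=
  ⟨pow_le_pow_of_le_one hr.le hr1 (by omega), by positivity⟩

theorem scal (r t K : ℝ) (hr : 0 < r) (hr1 : r ≤ 1) (hK : |t| ≤ K) (n : ℕ) : |r ^ (4 + n) * t| ≤ r ^ 4 * K := by
  obtain ⟨h1, h2⟩ := powb r hr hr1 n
  rw [abs_mul, abs_of_pos h2]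
  exact mul_le_mul h1 hK (abs_nonneg _) (by positivity)

/-- The bilinear expansion. -/
theorem bil (x1 x2 x3 y1 y2 y3 : Eu 3) (r M : ℝ) (hM : 0 ≤ M) (hr : 0 < r) (hr1 : r ≤ 1)
    (hx1 : ‖x1‖ ≤ M) (hx2 : ‖x2‖ ≤ M) (hx3 : ‖x3‖ ≤ M) (hy1 : ‖y1‖ ≤ M) (hy2 : ‖y2‖ ≤ M) (hy3 : ‖y3‖ ≤ M) :
    |⟪r • x1 + r ^ 2 • x2 + r ^ 3 • x3, r • y1 + r ^ 2 • y2 + r ^ 3 • y3⟫ - r ^ 2 * ⟪x1, y1⟫ -
      r ^ 3 * (⟪x1, y2⟫ + ⟪x2, y1⟫)| ≤ 6 * M ^ 2 * r ^ 4 := by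
  have key : ⟪r • x1 + r ^ 2 • x2 + r ^ 3 • x3, r • y1 + r ^ 2 • y2 + r ^ 3 • y3⟫ - r ^ 2 * ⟪x1, y1⟫ -
      r ^ 3 * (⟪x1, y2⟫ + ⟪x2, y1⟫) =
      r ^ (4 + 0) * ⟪x2, y2⟫ + r ^ (4 + 0) * ⟪x1, y3⟫ + r ^ (4 + 0) * ⟪x3, y1⟫ + r ^ (4 + 1) * ⟪x2, y3⟫ +
        r ^ (4 + 1) * ⟪x3, y2⟫ + r ^ (4 + 2) * ⟪x3, y3⟫ := by
    simp only [inner_add_left, inner_add_right, real_inner_smul_left, real_inner_smul_right]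
    ring
  rw [key]
  have b1 := scal r _ _ hr hr1 (ib x2 y2 M hM hx2 hy2) 0
  have b2 := scal r _ _ hr hr1 (ib x1 y3 M hM hx1 hy3) 0
  have b3 := scal r _ _ hr hr1 (ib x3 y1 M hM hx3 hy1) 0
  have b4 := scal r _ _ hr hr1 (ib x2 y3 M hM hx2 hy3) 1
  have b5 := scal r _ _ hr hr1 (ib x3 y2 M hM hx3 hy2) 1
  have b6 := scal r _ _ hr hr1 (ib x3 y3 M hM hx3 hy3) 2
  have t1 := abs_add_le (r ^ (4 + 0) * ⟪x2, y2⟫ + r ^ (4 + 0) * ⟪x1, y3⟫ + r ^ (4 + 0) * ⟪x3, y1⟫ +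
    r ^ (4 + 1) * ⟪x2, y3⟫ + r ^ (4 + 1) * ⟪x3, y2⟫) (r ^ (4 + 2) * ⟪x3, y3⟫)
  have t2 := abs_add_le (r ^ (4 + 0) * ⟪x2, y2⟫ + r ^ (4 + 0) * ⟪x1, y3⟫ + r ^ (4 + 0) * ⟪x3, y1⟫ +
    r ^ (4 + 1) * ⟪x2, y3⟫) (r ^ (4 + 1) * ⟪x3, y2⟫)
  have t3 := abs_add_le (r ^ (4 + 0) * ⟪x2, y2⟫ + r ^ (4 + 0) * ⟪x1, y3⟫ + r ^ (4 + 0) * ⟪x3, y1⟫)
    (r ^ (4 + 1) * ⟪x2, y3⟫)
  have t4 := abs_add_le (r ^ (4 + 0) * ⟪x2, y2⟫ + r ^ (4 + 0) * ⟪x1, y3⟫) (r ^ (4 + 0) * ⟪x3, y1⟫)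
  have t5 := abs_add_le (r ^ (4 + 0) * ⟪x2, y2⟫) (r ^ (4 + 0) * ⟪x1, y3⟫)
  linarith

/-- The norm of the displacement. -/
theorem nb (x1 x2 x3 : Eu 3) (r M : ℝ) (hr : 0 < r) (hr1 : r ≤ 1)
    (hx1 : ‖x1‖ ≤ M) (hx2 : ‖x2‖ ≤ M) (hx3 : ‖x3‖ ≤ M) :
    ‖r • x1 + r ^ 2 • x2 + r ^ 3 • x3‖ ≤ 3 * M * r := by
  have h1 := norm_add_le (r • x1 + r ^ 2 • x2) (r ^ 3 • x3)
  have h2 := norm_add_le (r • x1) (r ^ 2 • x2)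
  rw [norm_smul, Real.norm_eq_abs, abs_of_pos hr, norm_smul, Real.norm_eq_abs,
    abs_of_pos (by positivity : (0 : ℝ) < r ^ 2)] at h2
  rw [norm_smul (r ^ 3), Real.norm_eq_abs, abs_of_pos (by positivity : (0 : ℝ) < r ^ 3)] at h1
  have p2 : r ^ 2 ≤ r := by nlinarith
  have p3 : r ^ 3 ≤ r := by
    have : r ^ 3 = r * r ^ 2 := by ring
    nlinarith
  have c1 : r * ‖x1‖ ≤ r * M := mul_le_mul_of_nonneg_left hx1 hr.le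
  have c2 : r ^ 2 * ‖x2‖ ≤ r * M := mul_le_mul p2 hx2 (norm_nonneg _) hr.le
  have c3 : r ^ 3 * ‖x3‖ ≤ r * M := mul_le_mul p3 hx3 (norm_nonneg _) hr.le
  linarith

theorem nrm_eq (a u : Eu 3) (ha : ‖a‖ = 1) (hau : ⟪a, u⟫ = 0) :
    ∃ t : ℝ, 0 < t ∧ (nrm (a + u) : Eu 3) = t • (a + u) := by
  have h0 : ‖a + u‖ ^ 2 = 1 + ‖u‖ ^ 2 := by
    rw [norm_add_sq_real, ha, hau]
    ring
  have h1 : a + u ≠ 0 := by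
    intro h
    rw [h, norm_zero] at h0
    nlinarith [sq_nonneg ‖u‖]
  refine ⟨‖a + u‖⁻¹, inv_pos.2 (norm_pos_iff.2 h1), ?_⟩
  unfold nrm
  rw [dif_neg h1]

/-- The first variation. -/
theorem lin (a b x1 x2 x3 y1 y2 y3 : Eu 3) (r : ℝ) :
    ⟪r • x1 + r ^ 2 • x2 + r ^ 3 • x3, b⟫ + ⟪a, r • y1 + r ^ 2 • y2 + r ^ 3 • y3⟫ =
      r * (⟪x1, b⟫ + ⟪a, y1⟫) + r ^ 2 * (⟪x2, b⟫ + ⟪a, y2⟫) + r ^ 3 * (⟪x3, b⟫ + ⟪a, y3⟫) := by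
  simp only [inner_add_left, inner_add_right, real_inner_smul_left, real_inner_smul_right]
  ring

theorem orth (a x1 x2 x3 : Eu 3) (r : ℝ) (h1 : ⟪a, x1⟫ = 0) (h2 : ⟪a, x2⟫ = 0) (h3 : ⟪a, x3⟫ = 0) :
    ⟪a, r • x1 + r ^ 2 • x2 + r ^ 3 • x3⟫ = 0 := by
  simp only [inner_add_right, real_inner_smul_right, h1, h2, h3]
  ring

/-- The final computation with real numbers: `c` the critical inner product, `l` the first variation, `w` the inner product of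
the displacements, `U, V` their squared norms. -/
theorem fin (M r z c A B l w U V p11 p12 p21 s1 s2 m1 m2 : ℝ) (hM : 1 ≤ M) (hr : 0 < r) (hr1 : r ≤ 1)
    (hz : 0 ≤ z) (hc0 : 0 ≤ c) (hc1 : c ≤ 1) (hA : |A| ≤ M) (hB : |B| ≤ M)
    (hl : l = r ^ 2 * (A - (p11 - c * (s1 + s2) / 2)) - r ^ 3 * B)
    (hw : |w - r ^ 2 * p11 - r ^ 3 * (p12 + p21)| ≤ 6 * M ^ 2 * r ^ 4)
    (hU : |U - r ^ 2 * s1 - r ^ 3 * (m1 + m1)| ≤ 6 * M ^ 2 * r ^ 4)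
    (hV : |V - r ^ 2 * s2 - r ^ 3 * (m2 + m2)| ≤ 6 * M ^ 2 * r ^ 4)
    (h11 : |p11| ≤ M ^ 2) (h12 : |p12| ≤ M ^ 2 * z ^ 3) (h21 : |p21| ≤ M ^ 2 * z ^ 3)
    (hs1 : 0 ≤ s1) (hs1' : s1 ≤ M ^ 2) (hs2 : 0 ≤ s2) (hs2' : s2 ≤ M ^ 2)
    (hm1 : |m1| ≤ M ^ 2 * z ^ 3) (hm2 : |m2| ≤ M ^ 2 * z ^ 3)
    (hU0 : 0 ≤ U) (hV0 : 0 ≤ V) (hUM : U ≤ 9 * M ^ 2 * r ^ 2) (hVM : V ≤ 9 * M ^ 2 * r ^ 2)
    (hwM : |w| ≤ 9 * M ^ 2 * r ^ 2) :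
    c + l + w - c * (U + V) / 2 + (|l| + |w|) * (U + V) + 3 * (U + V) ^ 2 ≤
      c + r ^ 2 * A - r ^ 3 * B + 2000 * M ^ 4 * (r ^ 3 * z ^ 3 + r ^ 4) := by
  have hMM : M ≤ M ^ 2 := by nlinarith
  have hM2 : 1 ≤ M ^ 2 := by nlinarith
  have hM4 : M ^ 2 ≤ M ^ 4 := by nlinarith [sq_nonneg (M ^ 2)]
  have r2 : 0 < r ^ 2 := by positivity
  have r3 : 0 < r ^ 3 := by positivity
  have r4 : 0 < r ^ 4 := by positivity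
  have r32 : r ^ 3 ≤ r ^ 2 := by nlinarith
  have z3 : 0 ≤ z ^ 3 := by positivity
  rw [abs_le] at h11 h12 h21 hm1 hm2 hA hB hw hU hV
  -- the bound of `l`
  have cs1 : c * (s1 + s2) / 2 ≤ M ^ 2 := by nlinarith
  have cs0 : 0 ≤ c * (s1 + s2) / 2 := by positivity
  have q1 : |A - (p11 - c * (s1 + s2) / 2)| ≤ 3 * M ^ 2 := by
    rw [abs_le]
    constructor <;> linarith
  have hlb : |l| ≤ 4 * M ^ 2 * r ^ 2 := by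
    rw [hl]
    have t1 := abs_sub (r ^ 2 * (A - (p11 - c * (s1 + s2) / 2))) (r ^ 3 * B)
    rw [abs_mul, abs_mul, abs_of_pos r2, abs_of_pos r3] at t1
    have t2 : r ^ 2 * |A - (p11 - c * (s1 + s2) / 2)| ≤ r ^ 2 * (3 * M ^ 2) :=
      mul_le_mul_of_nonneg_left q1 r2.le
    have t3 : r ^ 3 * |B| ≤ r ^ 2 * M ^ 2 :=
      mul_le_mul r32 ((abs_le.2 hB).trans hMM) (abs_nonneg _) r2.le
    linarith
  have hS : U + V ≤ 18 * M ^ 2 * r ^ 2 := by linarith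
  have hS0 : 0 ≤ U + V := by linarith
  have e1 : (|l| + |w|) * (U + V) ≤ (13 * M ^ 2 * r ^ 2) * (18 * M ^ 2 * r ^ 2) :=
    mul_le_mul (by linarith) hS hS0 (by positivity)
  have e2 : (U + V) ^ 2 ≤ (18 * M ^ 2 * r ^ 2) ^ 2 := pow_le_pow_left₀ hS0 hS 2
  have e1' : (13 * M ^ 2 * r ^ 2) * (18 * M ^ 2 * r ^ 2) = 234 * (M ^ 4 * r ^ 4) := by ring
  have e2' : (18 * M ^ 2 * r ^ 2) ^ 2 = 324 * (M ^ 4 * r ^ 4) := by ring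
  -- the main part
  have w1 : w ≤ r ^ 2 * p11 + r ^ 3 * (p12 + p21) + 6 * M ^ 2 * r ^ 4 := by linarith
  have U1 : -(c * U / 2) ≤ -(c * (r ^ 2 * s1) / 2) + M ^ 2 * r ^ 3 * z ^ 3 + 3 * M ^ 2 * r ^ 4 := by
    have g1 : r ^ 2 * s1 - 2 * (M ^ 2 * r ^ 3 * z ^ 3) - 6 * M ^ 2 * r ^ 4 ≤ U := by
      have g2 : r ^ 3 * (m1 + m1) ≥ -(2 * (M ^ 2 * r ^ 3 * z ^ 3)) := by
        have : r ^ 3 * (m1 + m1) ≥ r ^ 3 * (-(2 * (M ^ 2 * z ^ 3))) :=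
          mul_le_mul_of_nonneg_left (by linarith) r3.le
        linarith
      linarith
    have g3 : c * (r ^ 2 * s1 - 2 * (M ^ 2 * r ^ 3 * z ^ 3) - 6 * M ^ 2 * r ^ 4) ≤ c * U :=
      mul_le_mul_of_nonneg_left g1 hc0
    have g4 : c * (2 * (M ^ 2 * r ^ 3 * z ^ 3) + 6 * M ^ 2 * r ^ 4) ≤
        1 * (2 * (M ^ 2 * r ^ 3 * z ^ 3) + 6 * M ^ 2 * r ^ 4) :=
      mul_le_mul_of_nonneg_right hc1 (by positivity)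
    linarith
  have V1 : -(c * V / 2) ≤ -(c * (r ^ 2 * s2) / 2) + M ^ 2 * r ^ 3 * z ^ 3 + 3 * M ^ 2 * r ^ 4 := by
    have g1 : r ^ 2 * s2 - 2 * (M ^ 2 * r ^ 3 * z ^ 3) - 6 * M ^ 2 * r ^ 4 ≤ V := by
      have g2 : r ^ 3 * (m2 + m2) ≥ -(2 * (M ^ 2 * r ^ 3 * z ^ 3)) := by
        have : r ^ 3 * (m2 + m2) ≥ r ^ 3 * (-(2 * (M ^ 2 * z ^ 3))) :=
          mul_le_mul_of_nonneg_left (by linarith) r3.le
        linarith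
      linarith
    have g3 : c * (r ^ 2 * s2 - 2 * (M ^ 2 * r ^ 3 * z ^ 3) - 6 * M ^ 2 * r ^ 4) ≤ c * V :=
      mul_le_mul_of_nonneg_left g1 hc0
    have g4 : c * (2 * (M ^ 2 * r ^ 3 * z ^ 3) + 6 * M ^ 2 * r ^ 4) ≤
        1 * (2 * (M ^ 2 * r ^ 3 * z ^ 3) + 6 * M ^ 2 * r ^ 4) :=
      mul_le_mul_of_nonneg_right hc1 (by positivity)
    linarith
  have w2 : r ^ 3 * (p12 + p21) ≤ 2 * (M ^ 2 * r ^ 3 * z ^ 3) := by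
    have : r ^ 3 * (p12 + p21) ≤ r ^ 3 * (2 * (M ^ 2 * z ^ 3)) :=
      mul_le_mul_of_nonneg_left (by linarith) r3.le
    linarith
  have main : c + l + w - c * (U + V) / 2 ≤
      c + r ^ 2 * A - r ^ 3 * B + 4 * (M ^ 2 * r ^ 3 * z ^ 3) + 12 * (M ^ 2 * r ^ 4) := by
    rw [hl]
    linarith
  have f1 : M ^ 2 * r ^ 3 * z ^ 3 ≤ M ^ 4 * (r ^ 3 * z ^ 3) := by
    have := mul_le_mul_of_nonneg_right hM4 (by positivity : (0 : ℝ) ≤ r ^ 3 * z ^ 3)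
    linarith
  have f2 : M ^ 2 * r ^ 4 ≤ M ^ 4 * r ^ 4 := mul_le_mul_of_nonneg_right hM4 r4.le
  have f3 : 0 ≤ M ^ 4 * (r ^ 3 * z ^ 3) := by positivity
  have f4 : 0 ≤ M ^ 4 * r ^ 4 := by positivity
  linarith

end ExpAux

theorem pExp (h1 : STay) : SExp := by
  intro M hM
  have hM0 : 0 ≤ M := by linarith
  have hMp : 0 < M := by linarith
  refine ⟨2000 * M ^ 4, 1 / (6 * M), ?_, by positivity, ?_⟩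
  · have : 1 ≤ M ^ 4 := one_le_pow₀ hM
    linarith
  intro a b u1 u2 u3 v1 v2 v3 r z A B hr hr1 hz hz1 ha hb hab au1 au2 au3 bv1 bv2 bv3 nu1 nv1 nu2 nv2 nu3 nv3 hA hB
    l1 l2 l3
  have hMr : 6 * M * r ≤ 1 := by
    rw [le_div_iff₀ (by positivity)] at hr1
    linarith
  have hr1' : r ≤ 1 := by nlinarith
  have hz2 : z ^ 2 ≤ 1 := by nlinarith
  have z20 : 0 ≤ z ^ 2 := by positivity
  have mu1 : ‖u1‖ ≤ M := by nlinarith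
  have mv1 : ‖v1‖ ≤ M := by nlinarith
  have mu2 : ‖u2‖ ≤ M := by nlinarith
  have mv2 : ‖v2‖ ≤ M := by nlinarith
  have hc1 : ⟪a, b⟫ ≤ 1 := by
    have := real_inner_le_norm a b
    rw [ha, hb] at this
    linarith
  set u : Eu 3 := r • u1 + r ^ 2 • u2 + r ^ 3 • u3 with hu
  set v : Eu 3 := r • v1 + r ^ 2 • v2 + r ^ 3 • v3 with hv
  have au : ⟪a, u⟫ = 0 := ExpAux.orth a u1 u2 u3 r au1 au2 au3
  have bv : ⟪b, v⟫ = 0 := ExpAux.orth b v1 v2 v3 r bv1 bv2 bv3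
  have nu : ‖u‖ ≤ 3 * M * r := ExpAux.nb u1 u2 u3 r M hr hr1' mu1 mu2 nu3
  have nv : ‖v‖ ≤ 3 * M * r := ExpAux.nb v1 v2 v3 r M hr hr1' mv1 mv2 nv3
  have nu' : ‖u‖ ≤ 1 / 2 := by linarith
  have nv' : ‖v‖ ≤ 1 / 2 := by linarith
  by_cases hN : 0 ≤ ⟪a, b⟫ + (⟪u, b⟫ + ⟪a, v⟫) + ⟪u, v⟫
  · refine le_max_of_le_right ?_
    refine (h1 a b u v ha hb au bv nu' nv' hab hN).trans ?_
    have hl : ⟪u, b⟫ + ⟪a, v⟫ =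
        r ^ 2 * (A - (⟪u1, v1⟫ - ⟪a, b⟫ * (‖u1‖ ^ 2 + ‖v1‖ ^ 2) / 2)) - r ^ 3 * B := by
      rw [hu, hv, ExpAux.lin, l1, l2, l3]
      ring
    have cube : ∀ x y : Eu 3, ‖x‖ ≤ M * z → ‖y‖ ≤ M * z ^ 2 → |⟪x, y⟫| ≤ M ^ 2 * z ^ 3 := by
      intro x y hx hy
      have h2 := abs_real_inner_le_norm x y
      have h3 : ‖x‖ * ‖y‖ ≤ (M * z) * (M * z ^ 2) := mul_le_mul hx hy (norm_nonneg _) (by positivity)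
      have h4 : (M * z) * (M * z ^ 2) = M ^ 2 * z ^ 3 := by ring
      linarith
    have sqb : ∀ x : Eu 3, ‖x‖ ≤ 3 * M * r → ‖x‖ ^ 2 ≤ 9 * M ^ 2 * r ^ 2 := by
      intro x hx
      have h2 := pow_le_pow_left₀ (norm_nonneg x) hx 2
      have h3 : (3 * M * r) ^ 2 = 9 * M ^ 2 * r ^ 2 := by ring
      linarith
    have hw := ExpAux.bil u1 u2 u3 v1 v2 v3 r M hM0 hr hr1' mu1 mu2 nu3 mv1 mv2 nv3
    have hU := ExpAux.bil u1 u2 u3 u1 u2 u3 r M hM0 hr hr1' mu1 mu2 nu3 mu1 mu2 nu3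
    have hV := ExpAux.bil v1 v2 v3 v1 v2 v3 r M hM0 hr hr1' mv1 mv2 nv3 mv1 mv2 nv3
    rw [← hu, ← hv] at hw
    rw [← hu, real_inner_self_eq_norm_sq, real_inner_self_eq_norm_sq, real_inner_comm u1 u2] at hU
    rw [← hv, real_inner_self_eq_norm_sq, real_inner_self_eq_norm_sq, real_inner_comm v1 v2] at hV
    refine ExpAux.fin M r z ⟪a, b⟫ A B (⟪u, b⟫ + ⟪a, v⟫) ⟪u, v⟫ (‖u‖ ^ 2) (‖v‖ ^ 2) ⟪u1, v1⟫ ⟪u1, v2⟫ ⟪u2, v1⟫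
      (‖u1‖ ^ 2) (‖v1‖ ^ 2) ⟪u1, u2⟫ ⟪v1, v2⟫ hM hr hr1' hz hab hc1 hA hB hl hw hU hV
      (ExpAux.ib u1 v1 M hM0 mu1 mv1) (cube u1 v2 nu1 nv2) ?_ (by positivity)
      (pow_le_pow_left₀ (norm_nonneg _) mu1 2) (by positivity) (pow_le_pow_left₀ (norm_nonneg _) mv1 2)
      ?_ ?_ (by positivity) (by positivity) (sqb u nu) (sqb v nv) ?_
    · rw [real_inner_comm]
      exact cube v1 u2 nv1 nu2
    · exact cube u1 u2 nu1 nu2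
    · exact cube v1 v2 nv1 nv2
    · have h2 := ExpAux.ib u v (3 * M * r) (by positivity) nu nv
      have h3 : (3 * M * r) ^ 2 = 9 * M ^ 2 * r ^ 2 := by ring
      linarith
  · refine le_max_of_le_left ?_
    push Not at hN
    obtain ⟨s, hs, es⟩ := ExpAux.nrm_eq a u ha au
    obtain ⟨t, ht, et⟩ := ExpAux.nrm_eq b v hb bv
    rw [es, et, real_inner_smul_left, real_inner_smul_right]
    have h2 : ⟪a + u, b + v⟫ = ⟪a, b⟫ + (⟪u, b⟫ + ⟪a, v⟫) + ⟪u, v⟫ := by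
      simp only [inner_add_left, inner_add_right]
      ring
    rw [h2]
    have h3 : t * (⟪a, b⟫ + (⟪u, b⟫ + ⟪a, v⟫) + ⟪u, v⟫) ≤ 0 :=
      mul_nonpos_of_nonneg_of_nonpos ht.le hN.le
    exact mul_nonpos_of_nonneg_of_nonpos hs.le h3

end Pool.Agent.MPaafd8aB
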