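import Pool.Agent.Lib.MP_aafd8a_gt.B.SpecP

/-!
# MP_aafd8a_gt, block (B): the family
-/

set_option autoImplicit false

open Topology RealInnerProductSpace

open scoped Classical

namespace Pool.Agent.MPaafd8aB

open Pool.Agent.MPaafd8a

namespace FamAux

/-! ## Normalisation -/

theorem nrm_coe {a : Eu 3} (h : a ≠ 0) : (nrm a : Eu 3) = ‖a‖⁻¹ • a := by
  unfold nrm
  rw [dif_neg h]

theorem norm_add_sq_tan {a u : Eu 3} (ha : ‖a‖ = 1) (hu : ⟪a, u⟫ = 0) : ‖a + u‖ ^ 2 = 1 + ‖u‖ ^ 2 := by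
  rw [norm_add_sq_real, ha, hu]; ring

theorem one_le_norm_add {a u : Eu 3} (ha : ‖a‖ = 1) (hu : ⟪a, u⟫ = 0) : 1 ≤ ‖a + u‖ := by
  have h := norm_add_sq_tan ha hu
  by_contra hc
  rw [not_le] at hc
  nlinarith [norm_nonneg (a + u), sq_nonneg ‖u‖]

theorem norm_add_le_tan {a u : Eu 3} (ha : ‖a‖ = 1) (hu : ⟪a, u⟫ = 0) : ‖a + u‖ - 1 ≤ ‖u‖ ^ 2 := by
  have h := norm_add_sq_tan ha hu
  have h1 := one_le_norm_add ha hu
  nlinarith [norm_nonneg (a + u), sq_nonneg ‖u‖]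

theorem add_ne_zero {a u : Eu 3} (ha : ‖a‖ = 1) (hu : ⟪a, u⟫ = 0) : a + u ≠ 0 := by
  intro h
  have h1 := one_le_norm_add ha hu
  rw [h, norm_zero] at h1
  linarith

theorem nrm_sub_self {b : Eu 3} (h : 1 ≤ ‖b‖) : ‖(nrm b : Eu 3) - b‖ = ‖b‖ - 1 := by
  have hb : b ≠ 0 := by
    intro h0
    rw [h0, norm_zero] at h
    linarith
  rw [nrm_coe hb]
  have e : ‖b‖⁻¹ • b - b = (‖b‖⁻¹ - 1) • b := by rw [sub_smul, one_smul]
  rw [e, norm_smul, Real.norm_eq_abs]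
  have hp : 0 < ‖b‖ := by linarith
  have h2 : ‖b‖⁻¹ - 1 ≤ 0 := by
    have := inv_le_one_of_one_le₀ h
    linarith
  rw [abs_of_nonpos h2]
  field_simp
  ring

theorem nrm_add_sub {a u : Eu 3} (ha : ‖a‖ = 1) (hu : ⟪a, u⟫ = 0) : ‖(nrm (a + u) : Eu 3) - (a + u)‖ ≤ ‖u‖ ^ 2 := by
  rw [nrm_sub_self (one_le_norm_add ha hu)]
  exact norm_add_le_tan ha hu

theorem nrm_add_dist {a u : Eu 3} (ha : ‖a‖ = 1) (hu : ⟪a, u⟫ = 0) : dist (nrm (a + u) : Eu 3) a ≤ 2 * ‖u‖ := by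
  rw [dist_eq_norm]
  have h1 : ‖(nrm (a + u) : Eu 3) - (a + u)‖ ≤ ‖u‖ := by
    rw [nrm_sub_self (one_le_norm_add ha hu)]
    have := norm_add_le a u
    rw [ha] at this
    linarith
  have e : (nrm (a + u) : Eu 3) - a = ((nrm (a + u) : Eu 3) - (a + u)) + u := by abel
  rw [e]
  calc ‖((nrm (a + u) : Eu 3) - (a + u)) + u‖ ≤ ‖(nrm (a + u) : Eu 3) - (a + u)‖ + ‖u‖ := norm_add_le _ _
    _ ≤ 2 * ‖u‖ := by linarith

theorem continuous_nrm {X : Type} [TopologicalSpace X] {g : X → Eu 3} (hg : Continuous g) (h0 : ∀ x, g x ≠ 0) :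
    Continuous fun x => nrm (g x) := by
  have e : (fun x => nrm (g x)) = fun x => (⟨‖g x‖⁻¹ • g x, by
      rw [mem_sphere_zero_iff_norm, norm_smul, norm_inv, norm_norm, inv_mul_cancel₀ (norm_ne_zero_iff.2 (h0 x))]⟩ : Sph 3) := by
    funext x
    apply Subtype.ext
    exact nrm_coe (h0 x)
  rw [e]
  apply Continuous.subtype_mk
  exact (hg.norm.inv₀ fun x => norm_ne_zero_iff.2 (h0 x)).smul hg

/-! ## Bounds of linear maps -/

theorem exists_bound {E F : Type} [NormedAddCommGroup E] [NormedSpace ℝ E] [FiniteDimensional ℝ E] [NormedAddCommGroup F]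
    [NormedSpace ℝ F] (f : E →ₗ[ℝ] F) : ∃ K : ℝ, 0 < K ∧ ∀ x, ‖f x‖ ≤ K * ‖x‖ := by
  refine ⟨‖LinearMap.toContinuousLinearMap f‖ + 1, by positivity, fun x => ?_⟩
  have h := (LinearMap.toContinuousLinearMap f).le_opNorm x
  have e : (LinearMap.toContinuousLinearMap f) x = f x := rfl
  rw [e] at h
  nlinarith [norm_nonneg x]

theorem fst_le {p : (Fin 6 → Eu 3) × (Fin 6 → Eu 3)} (i : Fin 6) : ‖p.1 i‖ ≤ ‖p‖ :=
  (norm_le_pi_norm p.1 i).trans (norm_fst_le p)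

theorem snd_le {p : (Fin 6 → Eu 3) × (Fin 6 → Eu 3)} (i : Fin 6) : ‖p.2 i‖ ≤ ‖p‖ :=
  (norm_le_pi_norm p.2 i).trans (norm_snd_le p)

theorem mat_le {t : Fin 6 → Fin 6 → ℝ} {T : ℝ} (h : ∀ i j, |t i j| ≤ T) : ‖t‖ ≤ T := by
  have hT : 0 ≤ T := (abs_nonneg _).trans (h 0 0)
  rw [pi_norm_le_iff_of_nonneg hT]
  intro i
  rw [pi_norm_le_iff_of_nonneg hT]
  intro j
  rw [Real.norm_eq_abs]
  exact h i j

theorem wsum_le (hw : ∀ i j, 0 ≤ ww i j ∧ ww i j ≤ 1) {t : Fin 6 → Fin 6 → ℝ} {T : ℝ} (h : ∀ i j, |t i j| ≤ T) :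
    |∑ i, ∑ j, ww i j * t i j| ≤ 36 * T := by
  have h1 : ∀ i j, |ww i j * t i j| ≤ T := by
    intro i j
    rw [abs_mul, abs_of_nonneg (hw i j).1]
    have h2 := h i j
    have h3 := abs_nonneg (t i j)
    nlinarith [(hw i j).1, (hw i j).2]
  calc |∑ i, ∑ j, ww i j * t i j| ≤ ∑ i, |∑ j, ww i j * t i j| := Finset.abs_sum_le_sum_abs _ _
    _ ≤ ∑ i : Fin 6, ∑ j : Fin 6, |ww i j * t i j| := Finset.sum_le_sum fun i _ => Finset.abs_sum_le_sum_abs _ _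
    _ ≤ ∑ i : Fin 6, ∑ j : Fin 6, T := Finset.sum_le_sum fun i _ => Finset.sum_le_sum fun j _ => h1 i j
    _ = 36 * T := by simp; ring

/-! ## The correctors -/

/-- The total weight of the stress. -/
noncomputable def Ws : ℝ := ∑ i, ∑ j, ww i j

theorem wsum_sub (A : ℝ) (q : Fin 6 → Fin 6 → ℝ) :
    ∑ i, ∑ j, ww i j * (A - q i j) = Ws * A - ∑ i, ∑ j, ww i j * q i j := by
  unfold Ws
  simp only [mul_sub, Finset.sum_sub_distrib, Finset.sum_mul]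

theorem wsum_smul (A : ℝ) (f : Fin 6 → Fin 6 → ℝ) (B : ℝ) :
    ∑ i, ∑ j, ww i j * (A * f i j - B) = A * (∑ i, ∑ j, ww i j * f i j) - Ws * B := by
  unfold Ws
  simp only [mul_sub, Finset.sum_sub_distrib, Finset.sum_mul, Finset.mul_sum]
  congr 1
  refine Finset.sum_congr rfl fun i _ => Finset.sum_congr rfl fun j _ => ?_
  ring

theorem Ws_le (hw : ∀ i j, 0 ≤ ww i j ∧ ww i j ≤ 1) : Ws ≤ 36 := by
  have h := wsum_le hw (t := fun _ _ => 1) (T := 1) (fun _ _ => by simp)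
  simp only [mul_one] at h
  exact (le_abs_self _).trans h

theorem ww_le_Ws (hw : ∀ i j, 0 ≤ ww i j ∧ ww i j ≤ 1) (f : Fin 6 → Fin 6 → ℝ) (hf : ∀ i j, 0 ≤ f i j) (i₀ j₀ : Fin 6) :
    ww i₀ j₀ * f i₀ j₀ ≤ ∑ i, ∑ j, ww i j * f i j := by
  have h0 : ∀ i j, 0 ≤ ww i j * f i j := fun i j => mul_nonneg (hw i j).1 (hf i j)
  calc ww i₀ j₀ * f i₀ j₀ ≤ ∑ j, ww i₀ j * f i₀ j :=
        Finset.single_le_sum (f := fun j => ww i₀ j * f i₀ j) (fun j _ => h0 i₀ j) (Finset.mem_univ j₀)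
    _ ≤ ∑ i, ∑ j, ww i j * f i j :=
        Finset.single_le_sum (f := fun i => ∑ j, ww i j * f i j) (fun i _ => Finset.sum_nonneg fun j _ => h0 i j)
          (Finset.mem_univ i₀)

/-- The mean of the second order form. -/
noncomputable def Am (u v : Fin 6 → Eu 3) : ℝ := (∑ i, ∑ j, ww i j * Qc u v i j) / Ws

/-- The penalties. -/
noncomputable def ff (P Q : Fin 6 → ℝ) (i j : Fin 6) : ℝ := max 0 (1 / 12 - P i) + max 0 (1 / 12 - Q j)

/-- The total penalty. -/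
noncomputable def FF (P Q : Fin 6 → ℝ) : ℝ := ∑ i, ∑ j, ww i j * ff P Q i j

theorem ff_nonneg (P Q : Fin 6 → ℝ) (i j : Fin 6) : 0 ≤ ff P Q i j :=
  add_nonneg (le_max_left _ _) (le_max_left _ _)

theorem ff_le {P Q : Fin 6 → ℝ} (hP : ∀ i, |P i| ≤ 6) (hQ : ∀ i, |Q i| ≤ 6) (i j : Fin 6) : |ff P Q i j| ≤ 13 := by
  rw [abs_of_nonneg (ff_nonneg P Q i j)]
  unfold ff
  have h1 : max 0 (1 / 12 - P i) ≤ 13 / 2 := max_le (by norm_num) (by linarith [(abs_le.1 (hP i)).1])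
  have h2 : max 0 (1 / 12 - Q j) ≤ 13 / 2 := max_le (by norm_num) (by linarith [(abs_le.1 (hQ j)).1])
  linarith

theorem Qc_le {u v : Fin 6 → Eu 3} {m : ℝ} (hm : 0 ≤ m) (hu : ∀ i, ‖u i‖ ≤ m) (hv : ∀ i, ‖v i‖ ≤ m) (h0 : 0 ≤ cs) (h1 : cs ≤ 1)
    (i j : Fin 6) : |Qc u v i j| ≤ 2 * m ^ 2 := by
  unfold Qc
  have h2 : |⟪u i, v j⟫| ≤ m * m :=
    (abs_real_inner_le_norm _ _).trans (mul_le_mul (hu i) (hv j) (norm_nonneg _) hm)
  have h3 : ‖u i‖ ^ 2 ≤ m ^ 2 := pow_le_pow_left₀ (norm_nonneg _) (hu i) 2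
  have h4 : ‖v j‖ ^ 2 ≤ m ^ 2 := pow_le_pow_left₀ (norm_nonneg _) (hv j) 2
  rw [abs_le] at h2 ⊢
  have h5 := sq_nonneg ‖u i‖
  have h6 := sq_nonneg ‖v j‖
  constructor <;> nlinarith [h2.1, h2.2, mul_nonneg h0 h5, mul_nonneg h0 h6]

theorem six_abs {y : Fin 5 → ℝ} (hy : ∀ i, |y i| ≤ 1) (k : Fin 6) : |six y k| ≤ 6 := by
  refine Fin.lastCases ?_ (fun i => ?_) k
  · unfold six
    rw [Fin.snoc_last]
    have h : |∑ i, y i| ≤ 5 := by
      calc |∑ i, y i| ≤ ∑ i, |y i| := Finset.abs_sum_le_sum_abs _ _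
        _ ≤ ∑ i : Fin 5, (1 : ℝ) := Finset.sum_le_sum fun i _ => hy i
        _ = 5 := by simp
    rw [abs_le] at h ⊢
    constructor <;> linarith [h.1, h.2]
  · unfold six
    rw [Fin.snoc_castSucc]
    have h := hy i
    rw [abs_le] at h ⊢
    constructor <;> linarith [h.1, h.2]

/-! ## Coordinates of the ball -/

theorem ball_abs (x : Ball 15) (k : Fin 15) : |x.1 k| ≤ 1 := by
  have h : ‖x.1‖ ≤ 1 := mem_closedBall_zero_iff.1 x.2
  exact (norm_le_pi_norm x.1 k).trans h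

theorem xZ_norm_le (x : Ball 15) : ‖xZ x.1‖ ≤ 1 := by
  rw [pi_norm_le_iff_of_nonneg zero_le_one]
  intro i
  exact ball_abs x _

theorem continuous_xP : Continuous fun x : Ball 15 => xP x.1 :=
  continuous_pi fun _ => (continuous_apply _).comp continuous_subtype_val

theorem continuous_xQ : Continuous fun x : Ball 15 => xQ x.1 :=
  continuous_pi fun _ => (continuous_apply _).comp continuous_subtype_val

theorem continuous_xZ : Continuous fun x : Ball 15 => xZ x.1 :=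
  continuous_pi fun _ => (continuous_apply _).comp continuous_subtype_val

theorem continuous_six (k : Fin 6) : Continuous fun y : Fin 5 → ℝ => six y k := by
  refine Fin.lastCases ?_ (fun i => ?_) k
  · unfold six
    simp only [Fin.snoc_last]
    exact continuous_const.sub (continuous_finsetSum _ fun i _ => continuous_apply i)
  · unfold six
    simp only [Fin.snoc_castSucc]
    exact continuous_const.add (continuous_apply i)

theorem continuous_Qc {X : Type} [TopologicalSpace X] {u v : X → Fin 6 → Eu 3} (hu : Continuous u) (hv : Continuous v)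
    (i j : Fin 6) : Continuous fun x => Qc (u x) (v x) i j := by
  unfold Qc
  have h1 : Continuous fun x => u x i := (continuous_apply i).comp hu
  have h2 : Continuous fun x => v x j := (continuous_apply j).comp hv
  exact (h1.inner h2).sub ((continuous_const.mul ((h1.norm.pow 2).add (h2.norm.pow 2))).div_const _)

abbrev Pr6 : Type := (Fin 6 → Eu 3) × (Fin 6 → Eu 3)

abbrev Mt6 : Type := Fin 6 → Fin 6 → ℝ

/-- Second order corrector. -/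
noncomputable def c2 (R : Mt6 →ₗ[ℝ] Pr6) (u v : Fin 6 → Eu 3) : Pr6 := R fun i j => Am u v - Qc u v i j

/-- Third order corrector. -/
noncomputable def c3 (R : Mt6 →ₗ[ℝ] Pr6) (P Q : Fin 6 → ℝ) : Pr6 := R fun i j => Ws * ff P Q i j - FF P Q

/-- The displacement. -/
noncomputable def dsp (R : Mt6 →ₗ[ℝ] Pr6) (sh : (Fin 5 → ℝ) →ₗ[ℝ] Pr6) (r : ℝ) (x : Fin 15 → ℝ) : Pr6 :=
  r • sh (xZ x) + r ^ 2 • c2 R (sh (xZ x)).1 (sh (xZ x)).2 + r ^ 3 • c3 R (six (xP x)) (six (xQ x))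

theorem continuous_R (R : Mt6 →ₗ[ℝ] Pr6) {X : Type} [TopologicalSpace X] {g : X → Mt6} (hg : Continuous g) :
    Continuous fun x => R (g x) :=
  (LinearMap.continuous_of_finiteDimensional R).comp hg

theorem continuous_c3 (R : Mt6 →ₗ[ℝ] Pr6) {X : Type} [TopologicalSpace X] {P Q : X → Fin 6 → ℝ}
    (h5 : ∀ i j, Continuous fun x => ff (P x) (Q x) i j) : Continuous fun x => c3 R (P x) (Q x) := by
  have h6 : Continuous fun x => FF (P x) (Q x) := by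
    unfold FF
    exact continuous_finsetSum _ fun i _ => continuous_finsetSum _ fun j _ => continuous_const.mul (h5 i j)
  have h8 : ∀ i j, Continuous fun x => Ws * ff (P x) (Q x) i j - FF (P x) (Q x) := by
    intro i j
    exact (continuous_const.mul (h5 i j)).sub h6
  unfold c3
  exact continuous_R R (continuous_pi fun i => continuous_pi fun j => h8 i j)

theorem continuous_three {X E : Type} [TopologicalSpace X] [NormedAddCommGroup E] [NormedSpace ℝ E] {f g h : X → E} (r : ℝ)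
    (hf : Continuous f) (hg : Continuous g) (hh : Continuous h) : Continuous fun x => r • f x + r ^ 2 • g x + r ^ 3 • h x :=
  ((hf.const_smul r).add (hg.const_smul (r ^ 2))).add (hh.const_smul (r ^ 3))

theorem continuous_dsp (R : Mt6 →ₗ[ℝ] Pr6) (sh : (Fin 5 → ℝ) →ₗ[ℝ] Pr6) (r : ℝ) :
    Continuous fun x : Ball 15 => dsp R sh r x.1 := by
  have hsh : Continuous sh := LinearMap.continuous_of_finiteDimensional sh
  have h1 : Continuous fun x : Ball 15 => sh (xZ x.1) := hsh.comp continuous_xZ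
  have h2 : ∀ i j, Continuous fun x : Ball 15 => Qc (sh (xZ x.1)).1 (sh (xZ x.1)).2 i j := fun i j =>
    continuous_Qc (continuous_fst.comp h1) (continuous_snd.comp h1) i j
  have h3 : Continuous fun x : Ball 15 => Am (sh (xZ x.1)).1 (sh (xZ x.1)).2 := by
    unfold Am
    exact (continuous_finsetSum _ fun i _ => continuous_finsetSum _ fun j _ => continuous_const.mul (h2 i j)).div_const _
  have h4 : Continuous fun x : Ball 15 => c2 R (sh (xZ x.1)).1 (sh (xZ x.1)).2 :=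
    continuous_R R (continuous_pi fun i => continuous_pi fun j => h3.sub (h2 i j))
  have h5 : ∀ i j, Continuous fun x : Ball 15 => ff (six (xP x.1)) (six (xQ x.1)) i j := by
    intro i j
    unfold ff
    exact (continuous_const.max (continuous_const.sub ((continuous_six i).comp continuous_xP))).add
      (continuous_const.max (continuous_const.sub ((continuous_six j).comp continuous_xQ)))
  have h7 : Continuous fun x : Ball 15 => c3 R (six (xP x.1)) (six (xQ x.1)) := continuous_c3 R h5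
  exact continuous_three r h1 h4 h7

theorem dsp_fst (R : Mt6 →ₗ[ℝ] Pr6) (sh : (Fin 5 → ℝ) →ₗ[ℝ] Pr6) (r : ℝ) (x : Fin 15 → ℝ) (i : Fin 6) :
    (dsp R sh r x).1 i = r • (sh (xZ x)).1 i + r ^ 2 • (c2 R (sh (xZ x)).1 (sh (xZ x)).2).1 i +
      r ^ 3 • (c3 R (six (xP x)) (six (xQ x))).1 i := rfl

theorem dsp_snd (R : Mt6 →ₗ[ℝ] Pr6) (sh : (Fin 5 → ℝ) →ₗ[ℝ] Pr6) (r : ℝ) (x : Fin 15 → ℝ) (i : Fin 6) :
    (dsp R sh r x).2 i = r • (sh (xZ x)).2 i + r ^ 2 • (c2 R (sh (xZ x)).1 (sh (xZ x)).2).2 i +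
      r ^ 3 • (c3 R (six (xP x)) (six (xQ x))).2 i := rfl

theorem inner_three {a u1 u2 u3 : Eu 3} (h1 : ⟪a, u1⟫ = 0) (h2 : ⟪a, u2⟫ = 0) (h3 : ⟪a, u3⟫ = 0) (r : ℝ) :
    ⟪a, r • u1 + r ^ 2 • u2 + r ^ 3 • u3⟫ = 0 := by
  rw [inner_add_right, inner_add_right, inner_smul_right, inner_smul_right, inner_smul_right, h1, h2, h3]
  ring

theorem norm_three {u1 u2 u3 : Eu 3} {M r : ℝ} (h1 : ‖u1‖ ≤ M) (h2 : ‖u2‖ ≤ M) (h3 : ‖u3‖ ≤ M) (hr : 0 < r) (hr1 : r ≤ 1) :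
    ‖r • u1 + r ^ 2 • u2 + r ^ 3 • u3‖ ≤ 3 * M * r := by
  have hM : 0 ≤ M := (norm_nonneg _).trans h1
  have e1 : ‖r • u1‖ ≤ r * M := by
    rw [norm_smul, Real.norm_eq_abs, abs_of_pos hr]
    exact mul_le_mul_of_nonneg_left h1 hr.le
  have e2 : ‖r ^ 2 • u2‖ ≤ r * M := by
    rw [norm_smul, Real.norm_eq_abs, abs_of_pos (by positivity)]
    have : r ^ 2 ≤ r := by nlinarith
    exact mul_le_mul this h2 (norm_nonneg _) hr.le
  have e3 : ‖r ^ 3 • u3‖ ≤ r * M := by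
    rw [norm_smul, Real.norm_eq_abs, abs_of_pos (by positivity)]
    have h4 : r ^ 2 ≤ 1 := by nlinarith
    have : r ^ 3 ≤ r := by nlinarith
    exact mul_le_mul this h3 (norm_nonneg _) hr.le
  calc ‖r • u1 + r ^ 2 • u2 + r ^ 3 • u3‖ ≤ ‖r • u1 + r ^ 2 • u2‖ + ‖r ^ 3 • u3‖ := norm_add_le _ _
    _ ≤ ‖r • u1‖ + ‖r ^ 2 • u2‖ + ‖r ^ 3 • u3‖ := by linarith [norm_add_le (r • u1) (r ^ 2 • u2)]
    _ ≤ 3 * M * r := by linarith

theorem norm_two {u2 u3 : Eu 3} {M r : ℝ} (h2 : ‖u2‖ ≤ M) (h3 : ‖u3‖ ≤ M) (hr : 0 < r) (hr1 : r ≤ 1) :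
    ‖r ^ 2 • u2 + r ^ 3 • u3‖ ≤ 2 * M * r ^ 2 := by
  have hM : 0 ≤ M := (norm_nonneg _).trans h2
  have e2 : ‖r ^ 2 • u2‖ ≤ r ^ 2 * M := by
    rw [norm_smul, Real.norm_eq_abs, abs_of_pos (by positivity)]
    exact mul_le_mul_of_nonneg_left h2 (by positivity)
  have e3 : ‖r ^ 3 • u3‖ ≤ r ^ 2 * M := by
    rw [norm_smul, Real.norm_eq_abs, abs_of_pos (by positivity)]
    have : r ^ 3 ≤ r ^ 2 := by nlinarith [sq_nonneg r]
    exact mul_le_mul this h3 (norm_nonneg _) (by positivity)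
  calc ‖r ^ 2 • u2 + r ^ 3 • u3‖ ≤ ‖r ^ 2 • u2‖ + ‖r ^ 3 • u3‖ := norm_add_le _ _
    _ ≤ 2 * M * r ^ 2 := by linarith

/-! ## Bounds of the correctors -/

theorem Ws_ge (hw : ∀ i j, 0 ≤ ww i j ∧ ww i j ≤ 1) (hw4 : ∀ i j, ct i j = true → 1 / 4 ≤ ww i j) : 1 / 4 ≤ Ws := by
  have h := ww_le_Ws hw (fun _ _ => 1) (fun _ _ => zero_le_one) 0 0
  simp only [mul_one] at h
  exact (hw4 0 0 rfl).trans h

theorem Am_abs (hw : ∀ i j, 0 ≤ ww i j ∧ ww i j ≤ 1) (hW : 1 / 4 ≤ Ws) {u v : Fin 6 → Eu 3} {T : ℝ}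
    (h : ∀ i j, |Qc u v i j| ≤ T) : |Am u v| ≤ 144 * T := by
  unfold Am
  have hT : 0 ≤ T := (abs_nonneg _).trans (h 0 0)
  have hW0 : 0 < Ws := by linarith
  rw [abs_div, abs_of_pos hW0, div_le_iff₀ hW0]
  have := wsum_le hw h
  nlinarith

theorem c2_norm {R : Mt6 →ₗ[ℝ] Pr6} {K : ℝ} (hK : 1 ≤ K) (hR : ∀ x, ‖R x‖ ≤ K * ‖x‖)
    (hw : ∀ i j, 0 ≤ ww i j ∧ ww i j ≤ 1) (hW : 1 / 4 ≤ Ws) {u v : Fin 6 → Eu 3} {T : ℝ}
    (h : ∀ i j, |Qc u v i j| ≤ T) : ‖c2 R u v‖ ≤ K * (145 * T) := by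
  have hA := Am_abs hw hW h
  unfold c2
  refine (hR _).trans (mul_le_mul_of_nonneg_left (mat_le fun i j => ?_) (by linarith))
  have h1 := h i j
  calc |Am u v - Qc u v i j| ≤ |Am u v| + |Qc u v i j| := abs_sub _ _
    _ ≤ 145 * T := by linarith

theorem FF_nonneg (hw : ∀ i j, 0 ≤ ww i j ∧ ww i j ≤ 1) (P Q : Fin 6 → ℝ) : 0 ≤ FF P Q :=
  Finset.sum_nonneg fun i _ => Finset.sum_nonneg fun j _ => mul_nonneg (hw i j).1 (ff_nonneg P Q i j)

theorem FF_abs (hw : ∀ i j, 0 ≤ ww i j ∧ ww i j ≤ 1) {P Q : Fin 6 → ℝ} (hP : ∀ i, |P i| ≤ 6) (hQ : ∀ i, |Q i| ≤ 6) :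
    |FF P Q| ≤ 468 := by
  have := wsum_le hw (ff_le hP hQ)
  unfold FF
  linarith

theorem c3_norm {R : Mt6 →ₗ[ℝ] Pr6} {K : ℝ} (hK : 1 ≤ K) (hR : ∀ x, ‖R x‖ ≤ K * ‖x‖)
    (hw : ∀ i j, 0 ≤ ww i j ∧ ww i j ≤ 1) (hW : 1 / 4 ≤ Ws) {P Q : Fin 6 → ℝ} (hP : ∀ i, |P i| ≤ 6) (hQ : ∀ i, |Q i| ≤ 6) :
    ‖c3 R P Q‖ ≤ K * 936 := by
  have hF := FF_abs hw hP hQ
  have hW2 := Ws_le hw
  unfold c3
  refine (hR _).trans (mul_le_mul_of_nonneg_left (mat_le fun i j => ?_) (by linarith))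
  have h1 := ff_le hP hQ i j
  have h2 : |Ws * ff P Q i j| ≤ 36 * 13 := by
    rw [abs_mul, abs_of_nonneg (by linarith : (0 : ℝ) ≤ Ws)]
    exact mul_le_mul hW2 h1 (abs_nonneg _) (by norm_num)
  calc |Ws * ff P Q i j - FF P Q| ≤ |Ws * ff P Q i j| + |FF P Q| := abs_sub _ _
    _ ≤ 936 := by linarith

theorem c2_Lc {R : Mt6 →ₗ[ℝ] Pr6} (hRL : ∀ ρ : Fin 6 → Fin 6 → ℝ, ∑ i, ∑ j, ww i j * ρ i j = 0 →
    ∀ i j, ct i j = true → Lc (R ρ).1 (R ρ).2 i j = ρ i j) (hW : 1 / 4 ≤ Ws) (u v : Fin 6 → Eu 3) {i j : Fin 6}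
    (h : ct i j = true) : Lc (c2 R u v).1 (c2 R u v).2 i j = Am u v - Qc u v i j := by
  refine hRL (fun i j => Am u v - Qc u v i j) ?_ i j h
  rw [wsum_sub]
  unfold Am
  rw [mul_div_cancel₀ _ (by linarith : Ws ≠ 0)]
  ring

theorem c3_Lc {R : Mt6 →ₗ[ℝ] Pr6} (hRL : ∀ ρ : Fin 6 → Fin 6 → ℝ, ∑ i, ∑ j, ww i j * ρ i j = 0 →
    ∀ i j, ct i j = true → Lc (R ρ).1 (R ρ).2 i j = ρ i j) (P Q : Fin 6 → ℝ) {i j : Fin 6}
    (h : ct i j = true) : Lc (c3 R P Q).1 (c3 R P Q).2 i j = Ws * ff P Q i j - FF P Q := by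
  refine hRL (fun i j => Ws * ff P Q i j - FF P Q) ?_ i j h
  rw [wsum_smul]
  unfold FF
  ring

/-! ## Arithmetic -/

theorem est1 {c A F C r z : ℝ} (hA : A ≤ -(z ^ 2 / 360)) (hC : 1 ≤ C) (hr : 0 < r)
    (hCr : C * r ≤ 1 / 720) (hz : 0 ≤ z) (hz1 : z ≤ 1) :
    max 0 (c + r ^ 2 * A - r ^ 3 * F + C * (r ^ 3 * z ^ 3 + r ^ 4)) ≤ max 0 (c - r ^ 2 * z ^ 2 / 720 - r ^ 3 * F + C * r ^ 4) := by
  refine max_le_max le_rfl ?_
  have h1 : r ^ 2 * A ≤ r ^ 2 * (-(z ^ 2 / 360)) := mul_le_mul_of_nonneg_left hA (sq_nonneg r)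
  have h2 : C * (r ^ 3 * z ^ 3) ≤ r ^ 2 * z ^ 2 / 720 := by
    have e : C * (r ^ 3 * z ^ 3) = (C * r) * (r ^ 2 * z ^ 2) * z := by ring
    rw [e]
    have h3 : 0 ≤ r ^ 2 * z ^ 2 := by positivity
    have h4 : (C * r) * (r ^ 2 * z ^ 2) ≤ 1 / 720 * (r ^ 2 * z ^ 2) := mul_le_mul_of_nonneg_right hCr h3
    have h5 : 0 ≤ (C * r) * (r ^ 2 * z ^ 2) := by positivity
    nlinarith
  nlinarith

theorem est2 {c F C r z : ℝ} (hc : 0 < c) (hF : 0 ≤ F) (hC : 1 ≤ C) (hr : 0 < r) :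
    max 0 (c - r ^ 2 * z ^ 2 / 720 - r ^ 3 * F + C * r ^ 4) ≤ c + C * r ^ 4 := by
  refine max_le (by positivity) ?_
  have h1 : 0 ≤ r ^ 3 * F := by positivity
  have h2 : 0 ≤ r ^ 2 * z ^ 2 := by positivity
  linarith

theorem est3 {c F C r z : ℝ} (hc : 1 / 4 < c) (hF : 0 ≤ F) (hC : 1 ≤ C) (hr : 0 < r) (hCr : C * r ≤ 1 / 720)
    (h : z = 1 ∨ 1 / 48 ≤ F) :
    max 0 (c - r ^ 2 * z ^ 2 / 720 - r ^ 3 * F + C * r ^ 4) ≤ c - 1 / 96 * r ^ 3 := by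
  have hr1 : r ≤ 1 / 720 := by nlinarith
  have hr3 : r ^ 3 ≤ 1 := pow_le_one₀ hr.le (by linarith)
  have e : C * r ^ 4 = (C * r) * r ^ 3 := by ring
  have h4 : C * r ^ 4 ≤ 1 / 720 * r ^ 3 := by
    rw [e]
    exact mul_le_mul_of_nonneg_right hCr (by positivity)
  have h3 : r ^ 3 ≤ 1 / 720 * r ^ 2 := by
    have e3 : r ^ 3 = r * r ^ 2 := by ring
    rw [e3]
    exact mul_le_mul_of_nonneg_right hr1 (by positivity)
  have hp : 0 < r ^ 3 := by positivity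
  have hp2 : 0 < r ^ 2 := by positivity
  refine max_le (by linarith) ?_
  have h1 : 0 ≤ r ^ 3 * F := by positivity
  have h2 : 0 ≤ r ^ 2 * z ^ 2 := by positivity
  rcases h with h | h
  · rw [h]
    rw [h] at h2
    nlinarith
  · have h5 : r ^ 3 * (1 / 48) ≤ r ^ 3 * F := mul_le_mul_of_nonneg_left h hp.le
    nlinarith

theorem sq_norm_le_sum (ζ : Fin 5 → ℝ) : ‖ζ‖ ^ 2 ≤ ∑ k, ζ k ^ 2 := by
  obtain ⟨k, -, hk⟩ := Finset.exists_mem_eq_sup' (Finset.univ_nonempty (α := Fin 5)) fun k => |ζ k|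
  have hz : ‖ζ‖ ≤ |ζ k| := by
    rw [pi_norm_le_iff_of_nonneg (abs_nonneg _)]
    intro i
    rw [← hk, Real.norm_eq_abs]
    exact Finset.le_sup' (fun k => |ζ k|) (Finset.mem_univ i)
  calc ‖ζ‖ ^ 2 ≤ |ζ k| ^ 2 := pow_le_pow_left₀ (norm_nonneg _) hz 2
    _ = ζ k ^ 2 := sq_abs _
    _ ≤ ∑ k, ζ k ^ 2 := Finset.single_le_sum (f := fun k => ζ k ^ 2) (fun i _ => sq_nonneg _) (Finset.mem_univ k)

theorem Am_le (hw : ∀ i j, 0 ≤ ww i j ∧ ww i j ≤ 1) (hW : 1 / 4 ≤ Ws) {u v : Fin 6 → Eu 3} {ζ : Fin 5 → ℝ}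
    (h : ∑ i, ∑ j, ww i j * Qc u v i j ≤ -(1 / 10 * ∑ k, ζ k ^ 2)) : Am u v ≤ -(‖ζ‖ ^ 2 / 360) := by
  have h1 := sq_norm_le_sum ζ
  have hW0 : 0 < Ws := by linarith
  have hW2 := Ws_le hw
  unfold Am
  rw [div_le_iff₀ hW0]
  have h2 : 0 ≤ ‖ζ‖ ^ 2 := by positivity
  nlinarith

theorem exists_coord (x : Ball 15) (hx : ‖x.1‖ = 1) :
    ‖xZ x.1‖ = 1 ∨ (∃ i, |xP x.1 i| = 1) ∨ ∃ i, |xQ x.1 i| = 1 := by
  obtain ⟨k, -, hk⟩ := Finset.exists_mem_eq_sup' (Finset.univ_nonempty (α := Fin 15)) fun k => |x.1 k|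
  have hz : ‖x.1‖ ≤ |x.1 k| := by
    rw [pi_norm_le_iff_of_nonneg (abs_nonneg _)]
    intro i
    rw [← hk, Real.norm_eq_abs]
    exact Finset.le_sup' (fun k => |x.1 k|) (Finset.mem_univ i)
  have h1 : |x.1 k| = 1 := le_antisymm (ball_abs x k) (by linarith)
  by_cases h5 : (k : ℕ) < 5
  · right; left
    refine ⟨⟨k, h5⟩, ?_⟩
    exact h1
  · by_cases h10 : (k : ℕ) < 10
    · right; right
      refine ⟨⟨(k : ℕ) - 5, by omega⟩, ?_⟩
      unfold xQ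
      have e : (⟨5 + ((k : ℕ) - 5), by omega⟩ : Fin 15) = k := Fin.ext (by simp; omega)
      rw [e]
      exact h1
    · left
      refine le_antisymm (xZ_norm_le x) ?_
      have h2 := norm_le_pi_norm (xZ x.1) ⟨(k : ℕ) - 10, by omega⟩
      unfold xZ at h2 ⊢
      have e : (⟨10 + ((k : ℕ) - 10), by omega⟩ : Fin 15) = k := Fin.ext (by simp; omega)
      simp only [e, Real.norm_eq_abs] at h2
      rw [h1] at h2
      exact h2

theorem exists_ct (i : Fin 6) : ∃ j, ct i j = true := by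
  revert i
  decide

theorem exists_ct' (j : Fin 6) : ∃ i, ct i j = true := by
  revert j
  decide

theorem FF_ge (hw : ∀ i j, 0 ≤ ww i j ∧ ww i j ≤ 1) (hw4 : ∀ i j, ct i j = true → 1 / 4 ≤ ww i j) {P Q : Fin 6 → ℝ}
    (h : (∃ k, P k < 0) ∨ ∃ k, Q k < 0) : 1 / 48 ≤ FF P Q := by
  obtain ⟨i, j, hij, hf⟩ : ∃ i j, ct i j = true ∧ 1 / 12 ≤ ff P Q i j := by
    rcases h with ⟨k, hk⟩ | ⟨k, hk⟩
    · obtain ⟨j, hj⟩ := exists_ct k
      refine ⟨k, j, hj, ?_⟩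
      unfold ff
      have h1 : 1 / 12 - P k ≤ max 0 (1 / 12 - P k) := le_max_right _ _
      have h2 : 0 ≤ max 0 (1 / 12 - Q j) := le_max_left _ _
      linarith
    · obtain ⟨i, hi⟩ := exists_ct' k
      refine ⟨i, k, hi, ?_⟩
      unfold ff
      have h1 : 1 / 12 - Q k ≤ max 0 (1 / 12 - Q k) := le_max_right _ _
      have h2 : 0 ≤ max 0 (1 / 12 - P i) := le_max_left _ _
      linarith
  have h1 := ww_le_Ws hw (ff P Q) (ff_nonneg P Q) i j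
  have h2 := hw4 i j hij
  unfold FF
  nlinarith

theorem inner_near {X Y a b : Eu 3} (hX : ‖X‖ = 1) (hb : ‖b‖ = 1) {e : ℝ} (h1 : dist X a ≤ e) (h2 : dist Y b ≤ e)
    : ⟪X, Y⟫ ≤ ⟪a, b⟫ + 2 * e := by
  have e1 : ⟪X, Y⟫ = ⟪a, b⟫ + ⟪X - a, b⟫ + ⟪X, Y - b⟫ := by
    rw [inner_sub_left, inner_sub_right]; ring
  have e2 : ⟪X - a, b⟫ ≤ e := by
    refine (real_inner_le_norm _ _).trans ?_
    rw [hb, mul_one, ← dist_eq_norm]
    exact h1
  have e3 : ⟪X, Y - b⟫ ≤ e := by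
    refine (real_inner_le_norm _ _).trans ?_
    rw [hX, one_mul, ← dist_eq_norm]
    exact h2
  linarith

end FamAux

open FamAux in
/-- **THE FAMILY.** -/
theorem pFam (h1 : SGram) (h2 : SStress) (h3 : SSur) (h4 : SShp) (h5 : STru) (h6 : SExp) (h7 : SZz) : SFam := by
  obtain ⟨hna, hnb, hct, hnct, -, -, -, hc4, hc3, -⟩ := h1
  obtain ⟨-, -, -, -, hw4, -, hw, -⟩ := h2
  obtain ⟨R, hRT, hRL⟩ := h3
  obtain ⟨sh, hsT, hsL, hsz, hsQ⟩ := h4
  obtain ⟨-, -, -, ht4, -, -, ht7⟩ := h5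
  obtain ⟨K1, hK1, hR1⟩ := exists_bound R
  obtain ⟨K2, hK2, hR2⟩ := exists_bound sh
  obtain ⟨K, hK, hR, hS⟩ : ∃ K : ℝ, 1 ≤ K ∧ (∀ x, ‖R x‖ ≤ K * ‖x‖) ∧ ∀ x, ‖sh x‖ ≤ K * ‖x‖ := by
    refine ⟨K1 + K2 + 1, by linarith, fun x => ?_, fun x => ?_⟩
    · refine (hR1 x).trans (mul_le_mul_of_nonneg_right (by linarith) (norm_nonneg _))
    · refine (hR2 x).trans (mul_le_mul_of_nonneg_right (by linarith) (norm_nonneg _))
  have hW := Ws_ge hw hw4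
  obtain ⟨M, hM⟩ : ∃ M : ℝ, M = 1000 * K ^ 3 := ⟨_, rfl⟩
  have hK2' : 1 ≤ K ^ 2 := one_le_pow₀ hK
  have hK3' : 1 ≤ K ^ 3 := one_le_pow₀ hK
  have hKK : K ≤ K ^ 3 := by
    have : K ^ 3 = K * K ^ 2 := by ring
    rw [this]; nlinarith
  have hKK2 : K ^ 2 ≤ K ^ 3 := by
    have : K ^ 3 = K * K ^ 2 := by ring
    rw [this]; nlinarith
  have hM1 : 1 ≤ M := by rw [hM]; linarith
  -- bounds at a point
  have bz : ∀ x : Ball 15, 0 ≤ ‖xZ x.1‖ ∧ ‖xZ x.1‖ ≤ 1 := fun x => ⟨norm_nonneg _, xZ_norm_le x⟩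
  have bu : ∀ x : Ball 15, ‖sh (xZ x.1)‖ ≤ K * ‖xZ x.1‖ := fun x => hS _
  have bq : ∀ (x : Ball 15) i j, |Qc (sh (xZ x.1)).1 (sh (xZ x.1)).2 i j| ≤ 2 * (K * ‖xZ x.1‖) ^ 2 := by
    intro x i j
    refine Qc_le (mul_nonneg (by linarith) (bz x).1) (fun i => (fst_le i).trans (bu x)) (fun i => (snd_le i).trans (bu x))
      (by linarith) (by linarith) i j
  have bA : ∀ x : Ball 15, |Am (sh (xZ x.1)).1 (sh (xZ x.1)).2| ≤ M := by
    intro x
    have h := Am_abs hw hW (bq x)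
    have h8 := bz x
    have h9 : ‖xZ x.1‖ ^ 2 ≤ 1 := pow_le_one₀ h8.1 h8.2
    have h10 : (K * ‖xZ x.1‖) ^ 2 ≤ K ^ 2 := by
      rw [mul_pow]; nlinarith
    rw [hM]; nlinarith
  have b2 : ∀ x : Ball 15, ‖c2 R (sh (xZ x.1)).1 (sh (xZ x.1)).2‖ ≤ M * ‖xZ x.1‖ ^ 2 := by
    intro x
    refine (c2_norm hK hR hw hW (bq x)).trans ?_
    rw [hM]
    have h8 : 0 ≤ K ^ 3 * ‖xZ x.1‖ ^ 2 := by positivity
    nlinarith
  have b3 : ∀ x : Ball 15, ‖c3 R (six (xP x.1)) (six (xQ x.1))‖ ≤ M := by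
    intro x
    refine (c3_norm hK hR hw hW (six_abs fun i => ball_abs x _) (six_abs fun i => ball_abs x _)).trans ?_
    rw [hM]
    nlinarith
  have bF : ∀ x : Ball 15, |FF (six (xP x.1)) (six (xQ x.1))| ≤ M := by
    intro x
    refine (FF_abs hw (six_abs fun i => ball_abs x _) (six_abs fun i => ball_abs x _)).trans ?_
    rw [hM]
    nlinarith
  have bu' : ∀ x : Ball 15, ‖sh (xZ x.1)‖ ≤ M * ‖xZ x.1‖ := by
    intro x
    refine (bu x).trans (mul_le_mul_of_nonneg_right ?_ (bz x).1)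
    rw [hM]; linarith
  have bu1 : ∀ x : Ball 15, ‖sh (xZ x.1)‖ ≤ M := by
    intro x
    have h8 := bz x
    refine (bu' x).trans ?_
    nlinarith
  have b21 : ∀ x : Ball 15, ‖c2 R (sh (xZ x.1)).1 (sh (xZ x.1)).2‖ ≤ M := by
    intro x
    have h8 := bz x
    have h9 : ‖xZ x.1‖ ^ 2 ≤ 1 := pow_le_one₀ h8.1 h8.2
    refine (b2 x).trans ?_
    nlinarith
  -- constants
  obtain ⟨C1, r1, hC1, hr1, hexp⟩ := h6 M hM1
  obtain ⟨C2, hC2, hz2⟩ := h7 (11 * M ^ 2) (by nlinarith)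
  have hM0 : 0 < M := by linarith
  refine ⟨C1 + C2 + 6 * M, 1 / 96, min (min r1 (1 / (720 * C1))) (1 / (24 * M)), by linarith, by norm_num, ?_, ?_, ?_⟩
  · exact lt_min (lt_min hr1 (by positivity)) (by positivity)
  · refine (min_le_right _ _).trans ?_
    rw [div_le_one (by positivity)]
    linarith
  intro r hr hrr
  have hrr1 : r ≤ r1 := hrr.trans ((min_le_left _ _).trans (min_le_left _ _))
  have hrC : C1 * r ≤ 1 / 720 := by
    have h8 : r ≤ 1 / (720 * C1) := hrr.trans ((min_le_left _ _).trans (min_le_right _ _))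
    rw [le_div_iff₀ (by positivity)] at h8
    linarith
  have hrM : M * r ≤ 1 / 24 := by
    have h8 : r ≤ 1 / (24 * M) := hrr.trans (min_le_right _ _)
    rw [le_div_iff₀ (by positivity)] at h8
    linarith
  have hr01 : r ≤ 1 := by nlinarith
  -- tangency
  have ta : ∀ (x : Ball 15) i, ⟪aa i, (dsp R sh r x.1).1 i⟫ = 0 := by
    intro x i
    rw [dsp_fst]
    exact inner_three ((hsT _).1 i) ((hRT _).1 i) ((hRT _).1 i) r
  have tb : ∀ (x : Ball 15) i, ⟪bb i, (dsp R sh r x.1).2 i⟫ = 0 := by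
    intro x i
    rw [dsp_snd]
    exact inner_three ((hsT _).2 i) ((hRT _).2 i) ((hRT _).2 i) r
  have na : ∀ (x : Ball 15) i, ‖(dsp R sh r x.1).1 i‖ ≤ 3 * M * r := by
    intro x i
    rw [dsp_fst]
    exact norm_three ((fst_le i).trans (bu1 x)) ((fst_le i).trans (b21 x)) ((fst_le i).trans (b3 x)) hr hr01
  have nb : ∀ (x : Ball 15) i, ‖(dsp R sh r x.1).2 i‖ ≤ 3 * M * r := by
    intro x i
    rw [dsp_snd]
    exact norm_three ((snd_le i).trans (bu1 x)) ((snd_le i).trans (b21 x)) ((snd_le i).trans (b3 x)) hr hr01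
  have da : ∀ (i : Fin 6) (x : Ball 15), dist (nrm (aa i + (dsp R sh r x.1).1 i) : Eu 3) (aa i) ≤ 6 * M * r := by
    intro i x
    refine (nrm_add_dist (hna i) (ta x i)).trans ?_
    linarith [na x i]
  have db : ∀ (i : Fin 6) (x : Ball 15), dist (nrm (bb i + (dsp R sh r x.1).2 i) : Eu 3) (bb i) ≤ 6 * M * r := by
    intro i x
    refine (nrm_add_dist (hnb i) (tb x i)).trans ?_
    linarith [nb x i]
  -- the contacts
  have key : ∀ (x : Ball 15) i j, 0 < tru (six (xP x.1)) i → 0 < tru (six (xQ x.1)) j →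
      ⟪(nrm (aa i + (dsp R sh r x.1).1 i) : Eu 3), (nrm (bb j + (dsp R sh r x.1).2 j) : Eu 3)⟫ ≤
        max 0 (cs - r ^ 2 * ‖xZ x.1‖ ^ 2 / 720 - r ^ 3 * FF (six (xP x.1)) (six (xQ x.1)) + C1 * r ^ 4) := by
    intro x i j hi hj
    by_cases hc : ct i j = true
    · have hPi := ht4 _ _ hi
      have hQj := ht4 _ _ hj
      have hf : ff (six (xP x.1)) (six (xQ x.1)) i j = 0 := by
        unfold ff
        rw [max_eq_left (by linarith), max_eq_left (by linarith)]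
        ring
      have e2 := c2_Lc hRL hW (sh (xZ x.1)).1 (sh (xZ x.1)).2 hc
      have e3 := c3_Lc hRL (six (xP x.1)) (six (xQ x.1)) hc
      rw [hf, mul_zero, zero_sub] at e3
      have e1 := hsL (xZ x.1) i j hc
      unfold Lc at e1 e2 e3
      unfold Qc at e2
      rw [← hct i j hc] at e2
      have hmain := hexp (aa i) (bb j) ((sh (xZ x.1)).1 i) ((c2 R (sh (xZ x.1)).1 (sh (xZ x.1)).2).1 i)
        ((c3 R (six (xP x.1)) (six (xQ x.1))).1 i) ((sh (xZ x.1)).2 j) ((c2 R (sh (xZ x.1)).1 (sh (xZ x.1)).2).2 j)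
        ((c3 R (six (xP x.1)) (six (xQ x.1))).2 j) r ‖xZ x.1‖ (Am (sh (xZ x.1)).1 (sh (xZ x.1)).2)
        (FF (six (xP x.1)) (six (xQ x.1))) hr hrr1 (bz x).1 (bz x).2 (hna i) (hnb j) (by rw [hct i j hc]; linarith)
        ((hsT _).1 i) ((hRT _).1 i) ((hRT _).1 i) ((hsT _).2 j) ((hRT _).2 j) ((hRT _).2 j)
        ((fst_le i).trans (bu' x)) ((snd_le j).trans (bu' x)) ((fst_le i).trans (b2 x)) ((snd_le j).trans (b2 x))
        ((fst_le i).trans (b3 x)) ((snd_le j).trans (b3 x)) (bA x) (bF x) e1 e2 e3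
      rw [hct i j hc, ← dsp_fst, ← dsp_snd] at hmain
      refine hmain.trans ?_
      exact est1 (Am_le hw hW (hsQ _)) hC1 hr hrC (bz x).1 (bz x).2
    · have hc' : ct i j = false := by simpa using hc
      have h8 := inner_near (X := (nrm (aa i + (dsp R sh r x.1).1 i) : Eu 3)) (Y := (nrm (bb j + (dsp R sh r x.1).2 j) : Eu 3))
        (mem_sphere_zero_iff_norm.1 (nrm _).2) (hnb j) (da i x) (db j x)
      have h9 := hnct i j hc'
      refine le_max_of_le_left ?_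
      linarith
  refine ⟨fun i x => nrm (aa i + (dsp R sh r x.1).1 i), fun i x => nrm (bb i + (dsp R sh r x.1).2 i), ?_, ?_, ?_, ?_, ?_, ?_, ?_⟩
  · intro i
    refine continuous_nrm (continuous_const.add ?_) fun x => add_ne_zero (hna i) (ta x i)
    exact (continuous_apply i).comp (continuous_fst.comp (continuous_dsp R sh r))
  · intro i
    refine continuous_nrm (continuous_const.add ?_) fun x => add_ne_zero (hnb i) (tb x i)
    exact (continuous_apply i).comp (continuous_snd.comp (continuous_dsp R sh r))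
  · intro i x
    refine (da i x).trans (mul_le_mul_of_nonneg_right (by linarith) hr.le)
  · intro i x
    refine (db i x).trans (mul_le_mul_of_nonneg_right (by linarith) hr.le)
  · intro x i j hi hj
    refine (key x i j hi hj).trans ((est2 (by linarith) (FF_nonneg hw _ _) hC1 hr).trans ?_)
    have : C1 * r ^ 4 ≤ (C1 + C2 + 6 * M) * r ^ 4 := mul_le_mul_of_nonneg_right (by linarith) (by positivity)
    linarith
  · intro x i j hx hi hj
    refine (key x i j hi hj).trans (est3 hc4 (FF_nonneg hw _ _) hC1 hr hrC ?_)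
    rcases exists_coord x hx with h | ⟨k, hk⟩ | ⟨k, hk⟩
    · exact Or.inl h
    · exact Or.inr (FF_ge hw hw4 (Or.inl (ht7 _ k hk)))
    · exact Or.inr (FF_ge hw hw4 (Or.inr (ht7 _ k hk)))
  · intro x k
    have h8 := hz2 r (fun i => (nrm (aa i + (dsp R sh r x.1).1 i) : Eu 3)) (sh (xZ x.1)).1 hr hr01 ?_ ?_ k
    · rw [hsz] at h8
      refine h8.trans (mul_le_mul_of_nonneg_right (by linarith) (by positivity))
    · intro i
      refine ((fst_le i).trans (bu1 x)).trans ?_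
      nlinarith
    · intro i
      have e : (nrm (aa i + (dsp R sh r x.1).1 i) : Eu 3) - aa i - r • (sh (xZ x.1)).1 i =
          ((nrm (aa i + (dsp R sh r x.1).1 i) : Eu 3) - (aa i + (dsp R sh r x.1).1 i)) +
            (r ^ 2 • (c2 R (sh (xZ x.1)).1 (sh (xZ x.1)).2).1 i + r ^ 3 • (c3 R (six (xP x.1)) (six (xQ x.1))).1 i) := by
        have := dsp_fst R sh r x.1 i
        rw [this]
        abel
      rw [e]
      have h9 := nrm_add_sub (hna i) (ta x i)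
      have h10 := norm_two ((fst_le i).trans (b21 x)) ((fst_le i).trans (b3 x)) hr hr01
      have h11 : ‖(dsp R sh r x.1).1 i‖ ^ 2 ≤ (3 * M * r) ^ 2 := pow_le_pow_left₀ (norm_nonneg _) (na x i) 2
      refine (norm_add_le _ _).trans ?_
      have h12 : 2 * M * r ^ 2 ≤ 2 * M ^ 2 * r ^ 2 := by
        have h13 : M ≤ M ^ 2 := by nlinarith
        have h14 : 0 ≤ r ^ 2 := sq_nonneg r
        nlinarith
      have h13 : (3 * M * r) ^ 2 = 9 * M ^ 2 * r ^ 2 := by ring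
      rw [h13] at h11
      linarith

end Pool.Agent.MPaafd8aB
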