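import Pool.Agent.Lib.MP_aafd8a_gt.B.SpecA

/-!
# MP_aafd8a_gt, block (B): the standard frame
-/

set_option autoImplicit false

open Topology RealInnerProductSpace

open scoped Classical

namespace Pool.Agent.MPaafd8aB

open Pool.Agent.MPaafd8a

/-- The label for a family of six points. -/
private noncomputable def lbG (r : ℝ) (f : Fin 6 → Eu 3) (v : Sph 3) : Fin 6 :=
  if h : ∃ i, dist (v : Eu 3) (f i) < r then h.choose else 0

private theorem lbG_spec {r : ℝ} {f : Fin 6 → Eu 3} {v : Sph 3}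
    (h : ∃ i, dist (v : Eu 3) (f i) < r) : dist (v : Eu 3) (f (lbG r f v)) < r := by
  unfold lbG
  rw [dif_pos h]
  exact h.choose_spec

/-- Points with the same label for `f` have the same label for `f'`. -/
private theorem lbG_same {r : ℝ} {f f' : Fin 6 → Eu 3} (hr : r ≤ 1 / 100)
    (hf' : ∀ i k, i ≠ k → 1 < dist (f' i) (f' k)) {v w : Sph 3}
    (hv : ∃ i, dist (v : Eu 3) (f i) < r) (hw : ∃ i, dist (w : Eu 3) (f i) < r)
    (hv' : ∃ i, dist (v : Eu 3) (f' i) < r) (hw' : ∃ i, dist (w : Eu 3) (f' i) < r)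
    (h : lbG r f v = lbG r f w) : lbG r f' v = lbG r f' w := by
  by_contra hne
  have h1 := lbG_spec hv
  have h2 := lbG_spec hw
  have h3 := lbG_spec hv'
  have h4 := lbG_spec hw'
  rw [← h] at h2
  have h5 := hf' _ _ hne
  have h6 : dist (v : Eu 3) (w : Eu 3) < 2 * r := by
    have := dist_triangle_right (v : Eu 3) (w : Eu 3) (f (lbG r f v))
    linarith
  have h7 : dist (f' (lbG r f' v)) (f' (lbG r f' w)) ≤
      dist (v : Eu 3) (f' (lbG r f' v)) + dist (v : Eu 3) (w : Eu 3) +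
        dist (w : Eu 3) (f' (lbG r f' w)) := by
    have h8 := dist_triangle (f' (lbG r f' v)) (v : Eu 3) (f' (lbG r f' w))
    have h9 := dist_triangle (v : Eu 3) (w : Eu 3) (f' (lbG r f' w))
    rw [dist_comm (f' (lbG r f' v)) (v : Eu 3)] at h8
    linarith
  linarith

private theorem key {r : ℝ} {f f' : Fin 6 → Eu 3} (hr : r ≤ 1 / 100)
    (hf : ∀ i k, i ≠ k → 1 < dist (f i) (f k)) (hf' : ∀ i k, i ≠ k → 1 < dist (f' i) (f' k))
    (p : Sph 3 →₀ ℝ) (hp : ∀ v, 0 ≤ p v) (h1 : ∀ v, 0 < p v → ∃ i, dist (v : Eu 3) (f i) < r)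
    (h2 : ∀ v, 0 < p v → ∃ i, dist (v : Eu 3) (f' i) < r)
    (h3 : ∀ i, |ms (lbG r f) p i - 1 / 6| < 1 / 12) (k : Fin 6) :
    |ms (lbG r f') p k - 1 / 6| < 1 / 12 := by
  have hpos : ∀ v ∈ p.support, 0 < p v := fun v hv =>
    lt_of_le_of_ne (hp v) (Ne.symm (Finsupp.mem_support_iff.1 hv))
  -- all clusters are nonempty
  have hne : ∀ i, ∃ v ∈ p.support, lbG r f v = i := by
    intro i
    by_contra hcon
    push Not at hcon
    have : ms (lbG r f) p i = 0 := by
      unfold ms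
      refine Finset.sum_eq_zero (fun v hv => ?_)
      rw [if_neg (hcon v hv)]
    have h4 := h3 i
    rw [this, abs_lt] at h4
    linarith [h4.1]
  choose w hw hwi using hne
  have hchar : ∀ i, ∀ v ∈ p.support, lbG r f' v = lbG r f' (w i) ↔ lbG r f v = i := by
    intro i v hv
    have a1 := h1 v (hpos v hv)
    have a2 := h2 v (hpos v hv)
    have b1 := h1 (w i) (hpos _ (hw i))
    have b2 := h2 (w i) (hpos _ (hw i))
    constructor
    · intro h
      rw [lbG_same hr hf a2 b2 a1 b1 h, hwi]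
    · intro h
      exact lbG_same hr hf' a1 b1 a2 b2 (h.trans (hwi i).symm)
  have hinj : Function.Injective (fun i => lbG r f' (w i)) := by
    intro i k hik
    have := (hchar k (w i) (hw i)).1 hik
    rw [hwi] at this
    exact this
  obtain ⟨i, hi⟩ := (Finite.injective_iff_surjective.1 hinj) k
  simp only at hi
  have hms : ms (lbG r f') p k = ms (lbG r f) p i := by
    unfold ms
    refine Finset.sum_congr rfl (fun v hv => ?_)
    rw [← hi]
    by_cases h : lbG r f v = i
    · rw [if_pos h, if_pos ((hchar i v hv).2 h)]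
    · rw [if_neg h, if_neg (fun h' => h ((hchar i v hv).1 h'))]
  rw [hms]
  exact h3 i

theorem pG0 (h1 : SGram) : SG0 := by
  obtain ⟨-, -, -, -, -, ha, hb, -⟩ := h1
  intro r g p q hr hr1 hp hq hpa hqb hF
  obtain ⟨f1, f2, f3, f4⟩ := hF
  have hga : ∀ i k, i ≠ k → 1 < dist (g (aa i)) (g (aa k)) := fun i k hik => by
    rw [g.dist_map]
    exact ha i k hik
  have hgb : ∀ i k, i ≠ k → 1 < dist (g (bb i)) (g (bb k)) := fun i k hik => by
    rw [g.dist_map]
    exact hb i k hik
  refine ⟨hpa, hqb, ?_, ?_⟩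
  · exact key (f := fun i => g (aa i)) (f' := aa) hr1 hga ha p hp.1 f1 hpa f3
  · exact key (f := fun i => g (bb i)) (f' := bb) hr1 hgb hb q hq.1 f2 hqb f4

end Pool.Agent.MPaafd8aB
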