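import Pool.Agent.Lib.MP_aafd8a_gt.B.SpecT

/-!
# MP_aafd8a_gt, block (B), module GenG: generic values with a finite group of linear maps
-/

set_option autoImplicit false

open MeasureTheory

namespace Pool.Agent.MPaafd8aB

namespace GenGM

/-- a point in a ball outside finitely many proper subspaces -/
theorem exists_avoid {D : ℕ} (F : Finset (Submodule ℝ (Fin D → ℝ))) (hF : ∀ p ∈ F, p ≠ ⊤)
    (x : Fin D → ℝ) {δ : ℝ} (hδ : 0 < δ) : ∃ y, dist y x < δ ∧ ∀ p ∈ F, y ∉ p := by
  by_contra hcon
  push Not at hcon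
  have h1 : Metric.ball x δ ⊆ ⋃ p ∈ F, ((p : Submodule ℝ (Fin D → ℝ)) : Set (Fin D → ℝ)) := by
    intro y hy
    obtain ⟨p, hp, hyp⟩ := hcon y hy
    exact Set.mem_iUnion₂.mpr ⟨p, hp, hyp⟩
  have h2 : (volume : Measure (Fin D → ℝ))
      (⋃ p ∈ F, ((p : Submodule ℝ (Fin D → ℝ)) : Set (Fin D → ℝ))) = 0 :=
    (measure_biUnion_null_iff F.countable_toSet).mpr
      (fun p hp => Measure.addHaar_submodule volume p (hF p hp))
  have h3 : 0 < (volume : Measure (Fin D → ℝ)) (Metric.ball x δ) :=
    Metric.measure_ball_pos volume x hδ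
  exact h3.ne' (measure_mono_null h1 h2)

/-- first `j` coordinates -/
def tr {D : ℕ} (j : Fin (D + 1)) : (Fin D → ℝ) →ₗ[ℝ] (Fin (j : ℕ) → ℝ) :=
  LinearMap.funLeft ℝ ℝ (Fin.castLE j.is_le)

theorem tr_surj {D : ℕ} (j : Fin (D + 1)) : Function.Surjective (tr j) :=
  LinearMap.funLeft_surjective_of_injective ℝ ℝ _ (Fin.castLE_injective j.is_le)

/-- the subspace of the forbidden vectors -/
noncomputable def pp {D : ℕ} (A : Finset (Fin D → ℝ)) (γ : (Fin D → ℝ) ≃ₗ[ℝ] (Fin D → ℝ))
    (j : Fin (D + 1)) : Submodule ℝ (Fin D → ℝ) :=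
  (Submodule.span ℝ (tr j '' (A : Set (Fin D → ℝ)))).comap ((tr j).comp γ.toLinearMap)

theorem pp_ne_top {D : ℕ} (A : Finset (Fin D → ℝ)) (γ : (Fin D → ℝ) ≃ₗ[ℝ] (Fin D → ℝ))
    (j : Fin (D + 1)) (hA : A.card < j) : pp A γ j ≠ ⊤ := by
  classical
  intro htop
  have hspan : Submodule.span ℝ (tr j '' (A : Set (Fin D → ℝ))) = ⊤ := by
    rw [eq_top_iff]
    rintro v -
    obtain ⟨u, hu⟩ := tr_surj j v
    have h1 : γ.symm u ∈ pp A γ j := by
      rw [htop]
      trivial
    have h2 : tr j (γ (γ.symm u)) ∈ Submodule.span ℝ (tr j '' (A : Set (Fin D → ℝ))) := h1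
    rwa [LinearEquiv.apply_symm_apply, hu] at h2
  have h1 : Module.finrank ℝ (Submodule.span ℝ ((A.image (tr j) : Finset (Fin (j : ℕ) → ℝ)) :
      Set (Fin (j : ℕ) → ℝ))) ≤ (A.image (tr j)).card := finrank_span_finset_le_card _
  rw [Finset.coe_image, hspan, finrank_top, Module.finrank_fin_fun] at h1
  have h2 : (A.image (tr j)).card ≤ A.card := Finset.card_image_le
  omega

/-- the induction -/
theorem main {D : ℕ} {ι : Type} [DecidableEq ι] (Γ : Finset ((Fin D → ℝ) ≃ₗ[ℝ] (Fin D → ℝ)))
    (h : ι → Fin D → ℝ) {δ : ℝ} (hδ : 0 < δ) (T : Finset ι) :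
    ∃ w : ι → Fin D → ℝ, (∀ i, dist (w i) (h i) < δ) ∧
      ∀ (S : Finset ι) (c : ι → ((Fin D → ℝ) ≃ₗ[ℝ] (Fin D → ℝ))), S ⊆ T →
        (∀ x ∈ S, c x ∈ Γ) → ∀ j : Fin (D + 1), S.card ≤ j →
        LinearIndepOn ℝ (fun x => tr j (c x (w x))) (S : Set ι) := by
  classical
  induction T using Finset.induction_on with
  | empty =>
    refine ⟨h, fun i => by rw [dist_self]; exact hδ, fun S c hS _ j _ => ?_⟩
    rw [Finset.subset_empty.mp hS, Finset.coe_empty]
    exact linearIndepOn_empty ℝ _
  | insert a T ha ih =>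
    obtain ⟨w, hw, hlin⟩ := ih
    obtain ⟨W, hW⟩ : ∃ W : Finset (Fin D → ℝ), W = (T ×ˢ Γ).image (fun q => q.2 (w q.1)) :=
      ⟨_, rfl⟩
    obtain ⟨y, hy, hyp⟩ := exists_avoid
      (((W.powerset ×ˢ (Γ ×ˢ (Finset.univ : Finset (Fin (D + 1))))).filter
        (fun q => q.1.card < (q.2.2 : ℕ))).image (fun q => pp q.1 q.2.1 q.2.2))
      (fun p hp => by
        obtain ⟨q, hq, rfl⟩ := Finset.mem_image.mp hp
        exact pp_ne_top _ _ _ (Finset.mem_filter.mp hq).2) (h a) hδ
    refine ⟨Function.update w a y, fun i => ?_, fun S c hS hcΓ j hcard => ?_⟩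
    · by_cases hia : i = a
      · subst hia
        rw [Function.update_self]
        exact hy
      · rw [Function.update_of_ne hia]
        exact hw i
    · have hcongr : ∀ S' : Finset ι, a ∉ S' → ∀ i ∈ (S' : Set ι),
          tr j (c i (Function.update w a y i)) = tr j (c i (w i)) := by
        intro S' hS' i hi
        have hne : i ≠ a := by
          rintro rfl
          exact hS' (Finset.mem_coe.mp hi)
        rw [Function.update_of_ne hne]
      by_cases haS : a ∈ S
      · have hins : S = insert a (S.erase a) := (Finset.insert_erase haS).symm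
        have hnot : a ∉ S.erase a := Finset.notMem_erase a S
        have hsub : S.erase a ⊆ T := by
          intro i hi
          have h1 := Finset.mem_erase.mp hi
          rcases Finset.mem_insert.mp (hS h1.2) with h2 | h2
          · exact absurd h2 h1.1
          · exact h2
        have hcΓ' : ∀ x ∈ S.erase a, c x ∈ Γ := fun x hx => hcΓ x (Finset.mem_of_mem_erase hx)
        have hc : (S.erase a).card < (j : ℕ) := by
          have h1 := Finset.card_erase_of_mem haS
          have h2 : 0 < S.card := Finset.card_pos.mpr ⟨a, haS⟩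
          omega
        have hlin' : LinearIndepOn ℝ (fun x => tr j (c x (Function.update w a y x)))
            ((S.erase a : Finset ι) : Set ι) :=
          (linearIndepOn_congr (fun i hi => hcongr _ hnot i hi)).mpr (hlin _ c hsub hcΓ' j hc.le)
        have himg : (fun x => tr j (c x (Function.update w a y x))) ''
            ((S.erase a : Finset ι) : Set ι) =
            tr j '' (((S.erase a).image (fun x => c x (w x)) : Finset (Fin D → ℝ)) :
              Set (Fin D → ℝ)) := by
          rw [Finset.coe_image, Set.image_image]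
          exact Set.image_congr (fun i hi => hcongr _ hnot i hi)
        have hAW : (S.erase a).image (fun x => c x (w x)) ⊆ W := by
          intro v hv
          obtain ⟨x, hx, rfl⟩ := Finset.mem_image.mp hv
          rw [hW]
          exact Finset.mem_image.mpr ⟨(x, c x), Finset.mem_product.mpr ⟨hsub hx, hcΓ' x hx⟩, rfl⟩
        have hAc : ((S.erase a).image (fun x => c x (w x))).card < (j : ℕ) :=
          lt_of_le_of_lt Finset.card_image_le hc
        rw [hins, Finset.coe_insert]
        refine (linearIndepOn_insert (by exact_mod_cast hnot)).mpr ⟨hlin', ?_⟩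
        rw [himg]
        have h3 := hyp (pp ((S.erase a).image (fun x => c x (w x))) (c a) j)
          (Finset.mem_image.mpr ⟨((S.erase a).image (fun x => c x (w x)), (c a, j)),
            Finset.mem_filter.mpr ⟨Finset.mem_product.mpr ⟨Finset.mem_powerset.mpr hAW,
              Finset.mem_product.mpr ⟨hcΓ a haS, Finset.mem_univ _⟩⟩, hAc⟩, rfl⟩)
        intro h4
        apply h3
        simp only [Function.update_self] at h4
        exact h4
      · have hsub : S ⊆ T := by
          intro i hi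
          rcases Finset.mem_insert.mp (hS hi) with h2 | h2
          · exact absurd (h2 ▸ hi) haS
          · exact h2
        exact (linearIndepOn_congr (fun i hi => hcongr _ haS i hi)).mpr
          (hlin _ c hsub hcΓ j hcard)

/-- the first nonzero coordinate is positive -/
def Ps {M : ℕ} (x : Fin M → ℝ) : Prop := ∃ i, (∀ j < i, x j = 0) ∧ 0 < x i

theorem ps_or {M : ℕ} {x : Fin M → ℝ} (hx : x ≠ 0) : Ps x ∨ Ps (-x) := by
  classical
  have hne : (Finset.univ.filter fun i : Fin M => x i ≠ 0).Nonempty := by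
    by_contra h
    apply hx
    funext i
    by_contra hi
    exact h ⟨i, Finset.mem_filter.mpr ⟨Finset.mem_univ _, hi⟩⟩
  have h1 : x ((Finset.univ.filter fun i : Fin M => x i ≠ 0).min' hne) ≠ 0 :=
    (Finset.mem_filter.mp (Finset.min'_mem _ hne)).2
  have h2 : ∀ j < (Finset.univ.filter fun i : Fin M => x i ≠ 0).min' hne, x j = 0 := by
    intro j hj
    by_contra h
    exact absurd (Finset.min'_le _ j (Finset.mem_filter.mpr ⟨Finset.mem_univ _, h⟩))
      (not_le.mpr hj)
  rcases lt_or_gt_of_ne h1 with h | h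
  · right
    refine ⟨(Finset.univ.filter fun i : Fin M => x i ≠ 0).min' hne, fun j hj => ?_, ?_⟩
    · rw [Pi.neg_apply, h2 j hj, neg_zero]
    · rw [Pi.neg_apply]
      linarith
  · left
    exact ⟨_, h2, h⟩

theorem ps_not {M : ℕ} {x : Fin M → ℝ} (h : Ps x) : ¬ Ps (-x) := by
  rintro ⟨k, h3, h4⟩
  obtain ⟨i, h1, h2⟩ := h
  rw [Pi.neg_apply] at h4
  rcases lt_trichotomy i k with hik | hik | hik
  · have := h3 i hik
    rw [Pi.neg_apply] at this
    linarith
  · subst hik
    linarith
  · have := h1 k hik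
    linarith

end GenGM

open GenGM in
theorem pGenG : SGenG := by
  intro M D V Γ t ε hε hV0 hVE
  classical
  obtain ⟨w₀, hw₀, hlin⟩ := main (insert (LinearEquiv.refl ℝ (Fin D → ℝ)) Γ) t hε
    (V ∪ V.image (fun x => -x))
  obtain ⟨fl, hfl⟩ : ∃ fl : (Fin M → ℝ) → Prop,
      ∀ x, fl x ↔ ((∀ i : Fin M, D ≤ (i : ℕ) → x i = 0) ∧ ¬ Ps x) :=
    ⟨fun x => (∀ i : Fin M, D ≤ (i : ℕ) → x i = 0) ∧ ¬ Ps x, fun x => Iff.rfl⟩
  have hneg : ∀ x : Fin M → ℝ, (∀ i : Fin M, D ≤ (i : ℕ) → x i = 0) →
      ∀ i : Fin M, D ≤ (i : ℕ) → (-x) i = 0 := by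
    intro x hx i hi
    rw [Pi.neg_apply, hx i hi, neg_zero]
  refine ⟨fun x => if fl x then -w₀ (-x) else w₀ x, ?_, ?_, ?_⟩
  · intro x hx
    by_cases hf : fl x
    · have h1 := (hfl x).1 hf
      have h2 := (hVE x hx h1.1).2
      have h3 := hw₀ (-x)
      simp only [if_pos hf]
      rw [dist_eq_norm, h2] at h3
      rw [← norm_neg]
      have h4 : -(-w₀ (-x) - t x) = w₀ (-x) - -t x := by abel
      rw [h4]
      exact h3
    · simp only [if_neg hf]
      rw [← dist_eq_norm]
      exact hw₀ x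
  · intro x hx hE
    rcases ps_or (hV0 x hx) with hp | hp
    · have h1 : ¬ fl x := fun h => ((hfl x).1 h).2 hp
      have h2 : fl (-x) := (hfl _).2 ⟨hneg x hE, ps_not hp⟩
      simp only [if_neg h1, if_pos h2, neg_neg]
    · have h1 : fl x := (hfl _).2 ⟨hE, fun h => ps_not h hp⟩
      have h2 : ¬ fl (-x) := fun h => ((hfl _).1 h).2 hp
      simp only [if_pos h1, if_neg h2, neg_neg]
  · intro S c hSV hpair hc j hj T hTS hTj hHit
    obtain ⟨l, hl0, hl1, hl2⟩ := hHit
    obtain ⟨f, hf⟩ : ∃ f : (Fin M → ℝ) → (Fin M → ℝ), ∀ x, f x = if fl x then -x else x :=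
      ⟨_, fun _ => rfl⟩
    obtain ⟨σ, hσ⟩ : ∃ σ : (Fin M → ℝ) → ℝ, ∀ x, σ x = if fl x then -1 else 1 :=
      ⟨_, fun _ => rfl⟩
    have hσ0 : ∀ x, σ x ≠ 0 := by
      intro x
      rw [hσ]
      split_ifs <;> norm_num
    have hwf : ∀ x, (if fl x then -w₀ (-x) else w₀ x) = σ x • w₀ (f x) := by
      intro x
      rw [hσ, hf]
      split_ifs with h
      · rw [neg_one_smul]
      · rw [one_smul]
    have hinj : Set.InjOn f (T : Set (Fin M → ℝ)) := by
      intro x hx x' hx' hxx
      have hxS : x ∈ S := hTS hx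
      have hxS' : x' ∈ S := hTS hx'
      rw [hf, hf] at hxx
      split_ifs at hxx with h1 h2 h2
      · exact neg_injective hxx
      · exact absurd (hxx ▸ hxS') (hpair x hxS)
      · exact absurd (hxx ▸ hxS) (hpair x' hxS')
      · exact hxx
    have hinv : ∀ x ∈ T, Function.invFunOn f (T : Set (Fin M → ℝ)) (f x) = x := fun x hx =>
      hinj.leftInvOn_invFunOn hx
    have hsub : T.image f ⊆ V ∪ V.image (fun x => -x) := by
      intro y hy
      obtain ⟨x, hx, rfl⟩ := Finset.mem_image.mp hy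
      have hxV : x ∈ V := hSV (hTS hx)
      rw [hf]
      split_ifs
      · exact Finset.mem_union_right _ (Finset.mem_image_of_mem _ hxV)
      · exact Finset.mem_union_left _ hxV
    have hcΓ : ∀ y ∈ T.image f, c (Function.invFunOn f (T : Set (Fin M → ℝ)) y) ∈
        insert (LinearEquiv.refl ℝ (Fin D → ℝ)) Γ := by
      intro y hy
      obtain ⟨x, hx, rfl⟩ := Finset.mem_image.mp hy
      rw [hinv x hx, Finset.mem_insert]
      exact (hc x (hTS hx)).symm
    have hind := hlin (T.image f) (fun y => c (Function.invFunOn f (T : Set (Fin M → ℝ)) y)) hsub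
      hcΓ ⟨j, by omega⟩ (Finset.card_image_le.trans hTj)
    rw [linearIndepOn_finset_iff] at hind
    have hzero := hind (fun y => l (Function.invFunOn f (T : Set (Fin M → ℝ)) y) *
      σ (Function.invFunOn f (T : Set (Fin M → ℝ)) y)) (by
        rw [Finset.sum_image hinj]
        have h1 : ∑ x ∈ T, (l (Function.invFunOn f (T : Set (Fin M → ℝ)) (f x)) *
            σ (Function.invFunOn f (T : Set (Fin M → ℝ)) (f x))) •
            (tr (⟨j, by omega⟩ : Fin (D + 1)))
              (c (Function.invFunOn f (T : Set (Fin M → ℝ)) (f x)) (w₀ (f x))) =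
            ∑ x ∈ T, l x • (tr (⟨j, by omega⟩ : Fin (D + 1)))
              (c x (if fl x then -w₀ (-x) else w₀ x)) := by
          refine Finset.sum_congr rfl fun x hx => ?_
          rw [hinv x hx, hwf, map_smul, map_smul, mul_smul]
        rw [h1]
        funext i
        rw [Finset.sum_apply]
        exact hl2 (Fin.castLE hj i) i.2)
    have hl : ∀ x ∈ T, l x = 0 := by
      intro x hx
      have h1 := hzero (f x) (Finset.mem_image_of_mem f hx)
      simp only [hinv x hx] at h1
      exact (mul_eq_zero.mp h1).resolve_right (hσ0 x)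
    rw [Finset.sum_eq_zero hl] at hl1
    exact zero_ne_one hl1

end Pool.Agent.MPaafd8aB
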