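import Pool.Agent.Lib.MP_aafd8a_gt.B.SpecP

/-!
# MP_aafd8a_gt, block (B), module Gl1: a ball and a homotopy give a sphere
-/

set_option autoImplicit false

open Topology RealInnerProductSpace

open scoped Classical

namespace Pool.Agent.MPaafd8aB

open Pool.Agent.MPaafd8a

namespace Gl1Aux

variable {d : ℕ}

/-- a point of the sphere -/
private noncomputable def pt0 (d : ℕ) : CSph (d + 1) := ⟨fun _ => 1, by
  rw [mem_sphere_zero_iff_norm, pi_norm_const, norm_one]⟩

/-- the direction of a vector -/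
private noncomputable def dir (w : Fin (d + 1) → ℝ) : CSph (d + 1) :=
  if h : w = 0 then pt0 d else ⟨‖w‖⁻¹ • w, by
    rw [mem_sphere_zero_iff_norm, norm_smul, norm_inv, norm_norm,
      inv_mul_cancel₀ (norm_ne_zero_iff.2 h)]⟩

private theorem dir_coe {w : Fin (d + 1) → ℝ} (h : w ≠ 0) : (dir w : Fin (d + 1) → ℝ) = ‖w‖⁻¹ • w := by
  unfold dir
  rw [dif_neg h]

private theorem continuous_ini {D : ℕ} : Continuous (fun x : CSph (D + 1) => ini x.1) :=
  continuous_pi fun i => (continuous_apply i.castSucc).comp continuous_subtype_val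

private theorem continuous_lst {D : ℕ} : Continuous (fun x : CSph (D + 1) => lst x.1) :=
  (continuous_apply (Fin.last D)).comp continuous_subtype_val

/-- the number `n x` -/
private noncomputable def nn {D : ℕ} (x : CSph (D + 1)) : ℝ := ‖ini x.1‖ + |lst x.1|

private theorem one_le_nn {D : ℕ} (x : CSph (D + 1)) : 1 ≤ nn x := by
  have h1 : ‖x.1‖ ≤ nn x := by
    refine (pi_norm_le_iff_of_nonneg (add_nonneg (norm_nonneg _) (abs_nonneg _))).2 fun i => ?_
    refine Fin.lastCases ?_ (fun j => ?_) i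
    · have : ‖x.1 (Fin.last D)‖ = |lst x.1| := rfl
      rw [this]
      exact le_add_of_nonneg_left (norm_nonneg _)
    · have h2 : ‖x.1 j.castSucc‖ ≤ ‖ini x.1‖ := norm_le_pi_norm (ini x.1) j
      exact h2.trans (le_add_of_nonneg_right (abs_nonneg _))
  rwa [mem_sphere_zero_iff_norm.1 x.2] at h1

private theorem nn_pos {D : ℕ} (x : CSph (D + 1)) : 0 < nn x := lt_of_lt_of_le one_pos (one_le_nn x)

private theorem continuous_nn {D : ℕ} : Continuous (nn : CSph (D + 1) → ℝ) :=
  continuous_ini.norm.add continuous_lst.abs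

/-- the point `y x` of the ball -/
private noncomputable def yb {D : ℕ} (x : CSph (D + 1)) : Ball D :=
  ⟨(nn x)⁻¹ • ini x.1, by
    rw [mem_closedBall_zero_iff, norm_smul, norm_inv, Real.norm_of_nonneg (nn_pos x).le,
      inv_mul_le_one₀ (nn_pos x)]
    exact le_add_of_nonneg_right (abs_nonneg _)⟩

private theorem continuous_yb {D : ℕ} : Continuous (yb : CSph (D + 1) → Ball D) :=
  ((continuous_nn.inv₀ fun x => (nn_pos x).ne').smul continuous_ini).subtype_mk _

private theorem norm_yb_le {D : ℕ} (x : CSph (D + 1)) : ‖(yb x).1‖ ≤ 1 := mem_closedBall_zero_iff.1 (yb x).2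

/-- The parameter of the homotopy. -/
private noncomputable def tt {D : ℕ} (x : CSph (D + 1)) : unitInterval :=
  Set.projIcc (0 : ℝ) 1 zero_le_one (2 - 2 * ‖(yb x).1‖)

private theorem continuous_tt {D : ℕ} : Continuous (tt : CSph (D + 1) → unitInterval) := by
  refine continuous_projIcc.comp ?_
  exact continuous_const.sub (continuous_const.mul (continuous_subtype_val.comp continuous_yb).norm)

variable {Y : Type} [TopologicalSpace Y]

/-- the map on the lower hemisphere -/
private noncomputable def fn (F : C(unitInterval × CSph (d + 1), Y)) (a : Y) (x : CSph (d + 1 + 1)) : Y :=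
  if (1 / 2 : ℝ) ≤ ‖(yb x).1‖ then F (tt x, dir (yb x).1) else a

private theorem yb_ne {x : CSph (d + 1 + 1)} (h : (1 / 2 : ℝ) ≤ ‖(yb x).1‖) : (yb x).1 ≠ 0 := by
  intro h0
  rw [h0, norm_zero] at h
  linarith

private theorem continuous_fn (F : C(unitInterval × CSph (d + 1), Y)) (a : Y) (hF : ∀ s, F (1, s) = a) :
    Continuous (fn F a) := by
  unfold fn
  have hy : Continuous (fun x : CSph (d + 1 + 1) => (yb x).1) := continuous_subtype_val.comp continuous_yb
  refine continuous_if_le continuous_const hy.norm ?_ continuousOn_const (fun x hx => ?_)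
  · refine F.continuous.comp_continuousOn (ContinuousOn.prodMk continuous_tt.continuousOn ?_)
    rw [IsInducing.subtypeVal.continuousOn_iff]
    have h1 : ContinuousOn (fun x : CSph (d + 1 + 1) => ‖(yb x).1‖⁻¹ • (yb x).1)
        {x | (1 / 2 : ℝ) ≤ ‖(yb x).1‖} := by
      refine ContinuousOn.smul (hy.norm.continuousOn.inv₀ fun x hx => ?_) hy.continuousOn
      exact norm_ne_zero_iff.2 (yb_ne hx)
    exact h1.congr fun x hx => dir_coe (yb_ne hx)
  · rw [← hF (dir (yb x).1)]
    congr 2
    apply Subtype.ext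
    unfold tt
    rw [← hx, Set.coe_projIcc]
    norm_num

private theorem fn_zero (F : C(unitInterval × CSph (d + 1), Y)) (Φ : C(Ball (d + 1), Y)) (a : Y)
    (hF : ∀ (s : CSph (d + 1)) (y : Ball (d + 1)), s.1 = y.1 → F (0, s) = Φ y) {x : CSph (d + 1 + 1)}
    (h : lst x.1 = 0) : Φ (yb x) = fn F a x := by
  have h1 : ‖ini x.1‖ = 1 := by
    refine le_antisymm ?_ ?_
    · refine (pi_norm_le_iff_of_nonneg zero_le_one).2 fun i => ?_
      have := norm_le_pi_norm x.1 i.castSucc
      rwa [mem_sphere_zero_iff_norm.1 x.2] at this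
    · have := one_le_nn x
      unfold nn at this
      rwa [h, abs_zero, add_zero] at this
  have h2 : nn x = 1 := by
    unfold nn
    rw [h, h1, abs_zero, add_zero]
  have h3 : (yb x).1 = ini x.1 := by
    change (nn x)⁻¹ • ini x.1 = ini x.1
    rw [h2, inv_one, one_smul]
  have h4 : ‖(yb x).1‖ = 1 := by rw [h3, h1]
  have h5 : (1 / 2 : ℝ) ≤ ‖(yb x).1‖ := by
    rw [h4]
    norm_num
  unfold fn
  rw [if_pos h5]
  have h6 : tt x = 0 := by
    apply Subtype.ext
    unfold tt
    rw [h4, Set.coe_projIcc]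
    norm_num
  rw [h6]
  refine (hF _ _ ?_).symm
  rw [dir_coe (yb_ne h5), h4, inv_one, one_smul]

end Gl1Aux

open Gl1Aux in
/-- **A ball and a homotopy give a sphere.** -/
theorem pGl1 : SGl1 := by
  intro Y _ D Φ F a hD hF0 hF1
  obtain ⟨d, rfl⟩ : ∃ d, D = d + 1 := ⟨D - 1, by omega⟩
  let P : C(CSph (d + 1 + 1), Y) :=
    ⟨fun x => if 0 ≤ lst x.1 then Φ (yb x) else fn F a x,
      Continuous.if_le (Φ.continuous.comp continuous_yb) (continuous_fn F a hF1) continuous_const continuous_lst
        fun x hx => fn_zero F Φ a hF0 hx.symm⟩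
  have hP1 : ∀ x, 0 ≤ lst x.1 → P x = Φ (yb x) := fun x hx => if_pos hx
  have hP2 : ∀ x, lst x.1 ≤ 0 → P x = fn F a x := by
    intro x hx
    by_cases h : 0 ≤ lst x.1
    · rw [hP1 x h]
      exact fn_zero F Φ a hF0 (le_antisymm hx h)
    · exact if_neg h
  refine ⟨P, fun x y hx hxy => ?_, fun x hx => ?_⟩
  · rw [hP1 x hx]
    congr 1
    apply Subtype.ext
    change (nn x)⁻¹ • ini x.1 = y.1
    have h1 : nn x = ‖ini x.1‖ + lst x.1 := by
      unfold nn
      rw [abs_of_nonneg hx]
    rw [← h1] at hxy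
    rw [hxy, inv_smul_smul₀ (nn_pos x).ne']
  · rw [hP2 x hx]
    unfold fn
    split_ifs with h
    · exact ⟨_, _, rfl⟩
    · exact ⟨1, pt0 d, (hF1 _).symm⟩

end Pool.Agent.MPaafd8aB
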