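import Pool.Agent.Lib.MP_aafd8a_gt.B.SpecP

/-!
# MP_aafd8a_gt, block (B): a null homotopy gives a map of the hemisphere
-/

set_option autoImplicit false

open Topology RealInnerProductSpace

open scoped Classical

namespace Pool.Agent.MPaafd8aB

open Pool.Agent.MPaafd8a

namespace Gl2Aux

theorem continuous_ini {D : ℕ} : Continuous (ini : (Fin (D + 1) → ℝ) → (Fin D → ℝ)) :=
  continuous_pi fun i => continuous_apply (i.castSucc)

theorem continuous_lst {D : ℕ} : Continuous (lst : (Fin (D + 1) → ℝ) → ℝ) := continuous_apply (Fin.last D)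

/-- a point of the boundary of the cube -/
def p0 (D : ℕ) (hD : 1 ≤ D) : CSph D :=
  ⟨fun _ => 1, by
    haveI : Nonempty (Fin D) := ⟨⟨0, hD⟩⟩
    rw [mem_sphere_zero_iff_norm, pi_norm_const, norm_one]⟩

/-- the direction -/
noncomputable def dirv {D : ℕ} (hD : 1 ≤ D) (v : Fin D → ℝ) : CSph D :=
  if h : v = 0 then p0 D hD
  else ⟨‖v‖⁻¹ • v, by
    rw [mem_sphere_zero_iff_norm, norm_smul, norm_inv, norm_norm, inv_mul_cancel₀ (norm_ne_zero_iff.2 h)]⟩

theorem dirv_coe {D : ℕ} (hD : 1 ≤ D) {v : Fin D → ℝ} (h : v ≠ 0) : (dirv hD v).1 = ‖v‖⁻¹ • v := by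
  unfold dirv
  rw [dif_neg h]

theorem sum_pos {D : ℕ} {x : Fin (D + 1) → ℝ} (h1 : ∑ i, |x i| = 1) (h2 : 0 ≤ lst x) : 0 < ‖ini x‖ + lst x := by
  rcases lt_or_eq_of_le (add_nonneg (norm_nonneg (ini x)) h2) with h | h
  · exact h
  · exfalso
    have h3 : ‖ini x‖ = 0 := by linarith [norm_nonneg (ini x)]
    have h4 : lst x = 0 := by linarith [norm_nonneg (ini x)]
    have h5 : ini x = 0 := norm_eq_zero.1 h3
    have h6 : ∀ i : Fin D, x i.castSucc = 0 := fun i => congrFun h5 i
    have h7 : x (Fin.last D) = 0 := h4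
    rw [Fin.sum_univ_castSucc, h7, abs_zero, add_zero, Finset.sum_eq_zero (fun i _ => by rw [h6 i, abs_zero])] at h1
    exact zero_ne_one h1

end Gl2Aux

open Gl2Aux in
theorem pGl2 : SGl2 := by
  intro Y _ D G a hD hG
  let X : Type := {x : Fin (D + 1) → ℝ // ∑ i, |x i| = 1 ∧ 0 ≤ lst x}
  let ρ : X → ℝ := fun x => ‖ini x.1‖ / (‖ini x.1‖ + lst x.1)
  have hn : ∀ x : X, 0 < ‖ini x.1‖ + lst x.1 := fun x => sum_pos x.2.1 x.2.2
  have hini : Continuous fun x : X => ini x.1 := continuous_ini.comp continuous_subtype_val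
  have hlst : Continuous fun x : X => lst x.1 := continuous_lst.comp continuous_subtype_val
  have hρ : Continuous ρ := hini.norm.div (hini.norm.add hlst) fun x => (hn x).ne'
  let t : X → unitInterval := fun x => Set.projIcc 0 1 zero_le_one (2 - 2 * ρ x)
  have ht : Continuous t := continuous_projIcc.comp (continuous_const.sub (continuous_const.mul hρ))
  let H : X → Y := fun x => G (t x, dirv hD (ini x.1))
  have hA : ContinuousOn H {x : X | 1 / 2 ≤ ρ x} := by
    rw [continuousOn_iff_continuous_restrict]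
    have h0 : ∀ x : {x : X | 1 / 2 ≤ ρ x}, ini x.1.1 ≠ 0 := by
      intro x h
      have hx : 1 / 2 ≤ ρ x.1 := x.2
      have : ρ x.1 = 0 := by
        show ‖ini x.1.1‖ / (‖ini x.1.1‖ + lst x.1.1) = 0
        rw [h, norm_zero, zero_div]
      linarith
    have h1 : Continuous fun x : {x : X | 1 / 2 ≤ ρ x} => dirv hD (ini x.1.1) := by
      refine continuous_induced_rng.2 ?_
      have h2 : (Subtype.val ∘ fun x : {x : X | 1 / 2 ≤ ρ x} => dirv hD (ini x.1.1)) =
          fun x : {x : X | 1 / 2 ≤ ρ x} => ‖ini x.1.1‖⁻¹ • ini x.1.1 := by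
        funext x
        exact dirv_coe hD (h0 x)
      rw [h2]
      have h3 : Continuous fun x : {x : X | 1 / 2 ≤ ρ x} => ini x.1.1 := hini.comp continuous_subtype_val
      exact (h3.norm.inv₀ fun x => norm_ne_zero_iff.2 (h0 x)).smul h3
    exact G.continuous.comp ((ht.comp continuous_subtype_val).prodMk h1)
  have hB : ContinuousOn H {x : X | ρ x ≤ 1 / 2} := by
    refine (continuousOn_const (c := a)).congr ?_
    intro x hx
    have hx' : ρ x ≤ 1 / 2 := hx
    have h1 : t x = 1 := Set.projIcc_of_right_le (zero_le_one (α := ℝ)) (by linarith)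
    show G (t x, dirv hD (ini x.1)) = a
    rw [h1]
    exact hG _
  have hH : Continuous H := by
    rw [← continuousOn_univ]
    have h1 := hA.union_of_isClosed hB (isClosed_le continuous_const hρ) (isClosed_le hρ continuous_const)
    have h2 : {x : X | 1 / 2 ≤ ρ x} ∪ {x : X | ρ x ≤ 1 / 2} = Set.univ := by
      ext x
      simp only [Set.mem_union, Set.mem_setOf_eq, Set.mem_univ, iff_true]
      exact le_total _ _
    rwa [h2] at h1
  refine ⟨⟨H, hH⟩, ?_, fun x => ⟨t x, dirv hD (ini x.1), rfl⟩⟩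
  intro x s hl hs
  have h1 : 0 < ‖ini x.1‖ := by
    have h := hn x
    rw [hl, add_zero] at h
    exact h
  have h2 : ρ x = 1 := by
    show ‖ini x.1‖ / (‖ini x.1‖ + lst x.1) = 1
    rw [hl, add_zero, div_self h1.ne']
  have h3 : t x = 0 := Set.projIcc_of_le_left (zero_le_one (α := ℝ)) (by rw [h2]; norm_num)
  have h4 : dirv hD (ini x.1) = s := by
    apply Subtype.ext
    rw [dirv_coe hD (norm_pos_iff.1 h1)]
    have h5 : ‖ini x.1‖⁻¹ • ini x.1 = ‖ini x.1‖⁻¹ • (‖ini x.1‖ • s.1) := by rw [← hs]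
    rw [h5, smul_smul, inv_mul_cancel₀ h1.ne', one_smul]
  show G (t x, dirv hD (ini x.1)) = G (0, s)
  rw [h3, h4]

end Pool.Agent.MPaafd8aB
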