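import Pool.Agent.Lib.MP_aafd8a_gt.B.SpecD

/-!
# MP_aafd8a_gt, block (B), module Gram: Gram matrices of the critical configuration
-/

set_option autoImplicit false

open Topology RealInnerProductSpace

namespace Pool.Agent.MPaafd8aB

open Pool.Agent.MPaafd8a

namespace GramM

/-- coordinates of `aa` -/
noncomputable def ca : Fin 6 → Fin 4 → ℝ :=
  ![![1, 0, 2 * √2 - 2, 0], ![0, 1, 2 * √2 - 2, 0], ![-1, 0, 2 * √2 - 2, 0],
    ![0, -1, 2 * √2 - 2, 0], ![0, 0, -1, 1], ![0, 0, -1, -1]]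

/-- coordinates of `bb` -/
noncomputable def cb : Fin 6 → Fin 4 → ℝ :=
  ![![√2 / 2, √2 / 2, 2 - 2 * √2, 0], ![-(√2 / 2), √2 / 2, 2 - 2 * √2, 0],
    ![-(√2 / 2), -(√2 / 2), 2 - 2 * √2, 0], ![√2 / 2, -(√2 / 2), 2 - 2 * √2, 0],
    ![0, 0, 1, -1], ![0, 0, 1, 1]]

theorem aa_eq (i : Fin 6) : aa i = vv (ca i 0) (ca i 1) (ca i 2) (ca i 3) := by
  fin_cases i <;> rfl

theorem bb_eq (i : Fin 6) : bb i = vv (cb i 0) (cb i 1) (cb i 2) (cb i 3) := by
  fin_cases i <;> rfl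

/-- the inner product in coordinates -/
noncomputable def ff (x y : Fin 4 → ℝ) : ℝ :=
  (5 - 3 * √2) * (x 0 * y 0 + x 1 * y 1) + √2 / 4 * (x 2 * y 2) + (1 - √2 / 4) * (x 3 * y 3)

theorem iaa (h : SVv) (i k : Fin 6) : ⟪aa i, aa k⟫ = ff (ca i) (ca k) := by
  rw [aa_eq, aa_eq, h.1]
  rfl

theorem ibb (h : SVv) (i k : Fin 6) : ⟪bb i, bb k⟫ = ff (cb i) (cb k) := by
  rw [bb_eq, bb_eq, h.1]
  rfl

theorem iab (h : SVv) (i k : Fin 6) : ⟪aa i, bb k⟫ = ff (ca i) (cb k) := by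
  rw [aa_eq, bb_eq, h.1]
  rfl

theorem s2 : √2 ^ 2 = (2 : ℝ) := Real.sq_sqrt (by norm_num)

theorem s3 : √2 ^ 3 = 2 * √2 := by
  rw [pow_succ, s2]

theorem slo : (1.414 : ℝ) < √2 := Real.lt_sqrt_of_sq_lt (by norm_num)

theorem shi : √2 < (1.415 : ℝ) := by
  rw [Real.sqrt_lt' (by norm_num)]
  norm_num

theorem dist_gt {a b : Eu 3} (ha : ‖a‖ = 1) (hb : ‖b‖ = 1) (h : ⟪a, b⟫ < 1 / 2) :
    1 < dist a b := by
  have h1 : dist a b ^ 2 = 2 - 2 * ⟪a, b⟫ := by
    rw [dist_eq_norm, norm_sub_sq_real, ha, hb]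
    ring
  have h2 : 0 ≤ dist a b := dist_nonneg
  nlinarith

theorem norm_one {a : Eu 3} (h : ⟪a, a⟫ = 1) : ‖a‖ = 1 := by
  rw [real_inner_self_eq_norm_sq] at h
  have h2 : 0 ≤ ‖a‖ := norm_nonneg _
  nlinarith

theorem faa (i : Fin 6) : ff (ca i) (ca i) = 1 := by
  have e2 := s2
  have e3 := s3
  fin_cases i <;> simp [ff, ca] <;> linarith

theorem fbb (i : Fin 6) : ff (cb i) (cb i) = 1 := by
  have e2 := s2
  have e3 := s3
  fin_cases i <;> simp [ff, cb] <;> linarith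

theorem faa_lt (i k : Fin 6) (h : i ≠ k) : ff (ca i) (ca k) < 1 / 2 := by
  have e2 := s2
  have e3 := s3
  have l := slo
  have u := shi
  fin_cases i <;> fin_cases k <;>
    first
    | exact absurd rfl h
    | (simp [ff, ca]
       nlinarith)

theorem fbb_lt (i k : Fin 6) (h : i ≠ k) : ff (cb i) (cb k) < 1 / 2 := by
  have e2 := s2
  have e3 := s3
  have l := slo
  have u := shi
  fin_cases i <;> fin_cases k <;>
    first
    | exact absurd rfl h
    | (simp [ff, cb]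
       nlinarith)

theorem fab_ct (i j : Fin 6) (h : ct i j = true) : ff (ca i) (cb j) = cs := by
  have e2 := s2
  have e3 := s3
  unfold cs
  fin_cases i <;> fin_cases j <;>
    first
    | exact absurd h (by decide)
    | (simp [ff, ca, cb]
       linarith)

theorem fab_no (i j : Fin 6) (h : ct i j = false) : ff (ca i) (cb j) ≤ -(1 / 2) := by
  have e2 := s2
  have e3 := s3
  have l := slo
  have u := shi
  fin_cases i <;> fin_cases j <;>
    first
    | exact absurd h (by decide)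
    | (simp [ff, ca, cb]
       nlinarith)

theorem faa_sp (i k : Fin 6) (h : (i : ℕ) < k) (h4 : 4 ≤ (k : ℕ)) :
    ff (ca i) (ca k) = -cs := by
  have e2 := s2
  have e3 := s3
  unfold cs
  fin_cases i <;> fin_cases k <;>
    first
    | exact absurd h (by decide)
    | exact absurd h4 (by decide)
    | (simp [ff, ca]
       linarith)

theorem nb (i k : Fin 6) (h : (i, k) ∈ ([(0, 1), (1, 2), (2, 3), (0, 3)] : List (Fin 6 × Fin 6))) :
    ff (ca i) (ca k) = 3 * √2 - 4 := by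
  have e2 := s2
  have e3 := s3
  simp only [List.mem_cons, Prod.mk.injEq, List.not_mem_nil, or_false] at h
  rcases h with ⟨rfl, rfl⟩ | ⟨rfl, rfl⟩ | ⟨rfl, rfl⟩ | ⟨rfl, rfl⟩ <;>
  · simp [ff, ca]
    linarith

theorem op (i k : Fin 6) (h : (i, k) ∈ ([(0, 2), (1, 3)] : List (Fin 6 × Fin 6))) :
    ff (ca i) (ca k) = 6 * √2 - 9 := by
  have e2 := s2
  have e3 := s3
  simp only [List.mem_cons, Prod.mk.injEq, List.not_mem_nil, or_false] at h
  rcases h with ⟨rfl, rfl⟩ | ⟨rfl, rfl⟩ <;>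
  · simp [ff, ca]
    linarith

end GramM

open GramM in
theorem pGram (h1 : SVv) : SGram := by
  have hna : ∀ i, ‖aa i‖ = 1 := fun i => norm_one (by rw [iaa h1, faa])
  have hnb : ∀ i, ‖bb i‖ = 1 := fun i => norm_one (by rw [ibb h1, fbb])
  have hsp : ∀ i k : Fin 6, (i : ℕ) < k → 4 ≤ (k : ℕ) → ⟪aa i, aa k⟫ = -cs := fun i k h h4 => by
    rw [iaa h1, faa_sp i k h h4]
  have hsp' : ∀ i k : Fin 6, (i : ℕ) < k → 4 ≤ (k : ℕ) → ⟪aa k, aa i⟫ = -cs := fun i k h h4 => by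
    rw [real_inner_comm, hsp i k h h4]
  refine ⟨hna, hnb, ?_, ?_, ?_, ?_, ?_, ?_, ?_, ⟨?_, ?_, ?_, ?_⟩, ⟨?_, ?_⟩, hsp⟩
  · intro i j h
    rw [iab h1, fab_ct i j h]
  · intro i j h
    rw [iab h1]
    exact fab_no i j h
  · have q40 := hsp' 0 4 (by decide) (by decide)
    have q41 := hsp' 1 4 (by decide) (by decide)
    have q42 := hsp' 2 4 (by decide) (by decide)
    have q43 := hsp' 3 4 (by decide) (by decide)
    have q50 := hsp' 0 5 (by decide) (by decide)
    have q51 := hsp' 1 5 (by decide) (by decide)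
    have q52 := hsp' 2 5 (by decide) (by decide)
    have q53 := hsp' 3 5 (by decide) (by decide)
    have q45 := hsp 4 5 (by decide) (by decide)
    funext k
    fin_cases k
    · change ⟪aa 4, aa 5⟫ + cs = 0
      rw [q45]
      ring
    · change ⟪aa 4 + aa 5, aa 0 - aa 2⟫ = 0
      rw [inner_sub_right, inner_add_left, inner_add_left, q40, q42, q50, q52]
      ring
    · change ⟪aa 4 + aa 5, aa 1 - aa 3⟫ = 0
      rw [inner_sub_right, inner_add_left, inner_add_left, q41, q43, q51, q53]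
      ring
    · change ⟪aa 4 - aa 5, aa 0 - aa 2⟫ = 0
      rw [inner_sub_right, inner_sub_left, inner_sub_left, q40, q42, q50, q52]
      ring
    · change ⟪aa 4 - aa 5, aa 1 - aa 3⟫ = 0
      rw [inner_sub_right, inner_sub_left, inner_sub_left, q41, q43, q51, q53]
      ring
  · intro i k h
    exact dist_gt (hna i) (hna k) (by rw [iaa h1]; exact faa_lt i k h)
  · intro i k h
    exact dist_gt (hnb i) (hnb k) (by rw [ibb h1]; exact fbb_lt i k h)
  · unfold cs
    have := shi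
    linarith
  · unfold cs
    have := slo
    linarith
  · rw [iaa h1, nb 0 1 (by decide)]
  · rw [iaa h1, nb 1 2 (by decide)]
  · rw [iaa h1, nb 2 3 (by decide)]
  · rw [iaa h1, nb 0 3 (by decide)]
  · rw [iaa h1, op 0 2 (by decide)]
  · rw [iaa h1, op 1 3 (by decide)]

end Pool.Agent.MPaafd8aB
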