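import Pool.Agent.Lib.MP_aafd8a_gt.B.SpecT

/-!
# Parity step
-/

set_option autoImplicit false

open scoped Classical

namespace Pool.Agent.MPaafd8aB

namespace HitStepAux

private theorem ext_sum {X : Type} {S : Finset X} {a : X} (ha : a ∈ S) (l f : X → ℝ) :
    ∑ s ∈ S, (if s = a then 0 else l s) * f s = ∑ s ∈ S.erase a, l s * f s := by
  rw [← Finset.add_sum_erase S _ ha, if_pos rfl, zero_mul, zero_add]
  refine Finset.sum_congr rfl fun s hs => ?_
  rw [if_neg (Finset.ne_of_mem_erase hs)]

private theorem ext_sum1 {X : Type} {S : Finset X} {a : X} (ha : a ∈ S) (l : X → ℝ) :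
    ∑ s ∈ S, (if s = a then 0 else l s) = ∑ s ∈ S.erase a, l s := by
  have h := ext_sum ha l (fun _ => 1)
  simpa using h

end HitStepAux

open HitStepAux in
theorem pHitStep (h1 : SSeg) : SHitStep := by
  intro X D j w S hj hS hG hG1
  have hext : ∀ a ∈ S, ∀ l : X → ℝ, (∀ s ∈ S.erase a, 0 ≤ l s) → ∑ s ∈ S.erase a, l s = 1 →
      (∀ i : Fin D, (i : ℕ) < j → ∑ s ∈ S.erase a, l s * w s i = 0) →
      (∀ s ∈ S, 0 ≤ (if s = a then 0 else l s)) ∧ ∑ s ∈ S, (if s = a then 0 else l s) = 1 ∧
      ∀ i : Fin D, (i : ℕ) < j → ∑ s ∈ S, (if s = a then 0 else l s) * w s i = 0 := by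
    intro a ha l hl0 hl1 hl2
    refine ⟨fun s hs => ?_, ?_, fun i hi => ?_⟩
    · split_ifs with h
      · exact le_rfl
      · exact hl0 s (Finset.mem_erase.2 ⟨h, hs⟩)
    · rw [ext_sum1 ha, hl1]
    · rw [ext_sum ha l (fun s => w s i), hl2 i hi]
  by_cases hH : Hit j w S
  · obtain ⟨lp, lm, ap, am, hap, ham, hne, hp0, hm0, hp, hm, sp, sm, wp, wm, hseg⟩ :=
      h1 X D j w S hj.le hS hG hH
    obtain ⟨y, hy⟩ : ∃ y : (X → ℝ) → ℝ, ∀ l, y l = ∑ s ∈ S, l s * w s ⟨j, hj⟩ := ⟨_, fun _ => rfl⟩
    have hij : ∀ i : Fin D, (i : ℕ) = j → i = ⟨j, hj⟩ := fun i hi => Fin.ext hi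
    -- the end points are not hits of order `j + 1`
    have hnz : ∀ (l : X → ℝ) (a : X), a ∈ S → l a = 0 → (∀ s ∈ S, s ≠ a → 0 < l s) →
        ∑ s ∈ S, l s = 1 → (∀ i : Fin D, (i : ℕ) < j → ∑ s ∈ S, l s * w s i = 0) → y l ≠ 0 := by
      intro l a ha hla hl0 hl1 hl2 hyl
      refine hG1 (S.erase a) (Finset.erase_subset _ _) ?_ ⟨l, fun s hs => ?_, ?_, fun i hi => ?_⟩
      · rw [Finset.card_erase_of_mem ha, hS]
        omega
      · exact (hl0 s (Finset.mem_of_mem_erase hs) (Finset.ne_of_mem_erase hs)).le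
      · rw [Finset.sum_erase _ hla, hl1]
      · rw [Finset.sum_erase _ (by rw [hla, zero_mul])]
        rcases Nat.lt_succ_iff_lt_or_eq.1 hi with h | h
        · exact hl2 i h
        · rw [hij i h, ← hy, hyl]
    have yp := hnz lp ap hap hp0 hp sp wp
    have ym := hnz lm am ham hm0 hm sm wm
    have hiff : ∀ a ∈ S, HitS j w (S.erase a) 1 ↔ (a = ap ∧ 0 < y lp) ∨ (a = am ∧ 0 < y lm) := by
      intro a ha
      constructor
      · rintro ⟨l, hl0, hl1, hl2, hl3⟩
        have hl3' := hl3 ⟨j, hj⟩ rfl
        rw [one_mul, ← ext_sum ha l (fun s => w s ⟨j, hj⟩)] at hl3'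
        obtain ⟨e0, e1, e2⟩ := hext a ha l hl0 hl1 hl2
        obtain ⟨t, ht0, ht1, ht⟩ := hseg _ e0 e1 e2
        have h2 := ht a ha
        rw [if_pos rfl] at h2
        have hyl : 0 < (1 - t) * y lm + t * y lp := by
          have h3 : ∑ s ∈ S, (if s = a then 0 else l s) * w s ⟨j, hj⟩ =
              (1 - t) * y lm + t * y lp := by
            rw [hy, hy, Finset.mul_sum, Finset.mul_sum, ← Finset.sum_add_distrib]
            refine Finset.sum_congr rfl fun s hs => ?_
            rw [ht s hs]
            ring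
          rw [← h3]
          exact hl3'
        by_cases h3 : a = ap
        · left
          refine ⟨h3, ?_⟩
          have h4 : 0 < lm a := hm a ha (by rw [h3]; exact hne)
          rw [h3, hp0, mul_zero, add_zero] at h2
          rw [h3] at h4
          have h5 : 1 - t = 0 := (mul_eq_zero.1 h2.symm).resolve_right h4.ne'
          rw [h5, zero_mul, zero_add] at hyl
          have h6 : t = 1 := by linarith
          rwa [h6, one_mul] at hyl
        · by_cases h3' : a = am
          · right
            refine ⟨h3', ?_⟩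
            have h4 : 0 < lp a := hp a ha h3
            rw [h3', hm0, mul_zero, zero_add] at h2
            rw [h3'] at h4
            have h5 : t = 0 := (mul_eq_zero.1 h2.symm).resolve_right h4.ne'
            rw [h5] at hyl
            linarith
          · exfalso
            have h4 := hp a ha h3
            have h5 := hm a ha h3'
            rcases ht0.eq_or_lt with h6 | h6
            · rw [← h6] at h2
              linarith
            · have h7 : 0 ≤ (1 - t) * lm a := mul_nonneg (by linarith) h5.le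
              have h8 : 0 < t * lp a := mul_pos h6 h4
              linarith
      · rintro (⟨rfl, hpos⟩ | ⟨rfl, hpos⟩)
        · refine ⟨lp, fun s hs => ?_, ?_, fun i hi => ?_, fun i hi => ?_⟩
          · exact (hp s (Finset.mem_of_mem_erase hs) (Finset.ne_of_mem_erase hs)).le
          · rw [Finset.sum_erase _ hp0, sp]
          · rw [Finset.sum_erase _ (by rw [hp0, zero_mul]), wp i hi]
          · rw [Finset.sum_erase _ (by rw [hp0, zero_mul]), hij i hi, ← hy, one_mul]
            exact hpos
        · refine ⟨lm, fun s hs => ?_, ?_, fun i hi => ?_, fun i hi => ?_⟩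
          · exact (hm s (Finset.mem_of_mem_erase hs) (Finset.ne_of_mem_erase hs)).le
          · rw [Finset.sum_erase _ hm0, sm]
          · rw [Finset.sum_erase _ (by rw [hm0, zero_mul]), wm i hi]
          · rw [Finset.sum_erase _ (by rw [hm0, zero_mul]), hij i hi, ← hy, one_mul]
            exact hpos
    have hterm : ∀ a ∈ S, (if HitS j w (S.erase a) 1 then (1 : ZMod 2) else 0) =
        (if a = ap then (if 0 < y lp then 1 else 0) else 0) +
          (if a = am then (if 0 < y lm then 1 else 0) else 0) := by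
      intro a ha
      by_cases h2 : a = ap
      · have h3 : a ≠ am := fun h => hne (h2 ▸ h)
        rw [if_pos h2, if_neg h3, add_zero]
        by_cases h4 : 0 < y lp
        · rw [if_pos ((hiff a ha).2 (Or.inl ⟨h2, h4⟩)), if_pos h4]
        · rw [if_neg h4, if_neg]
          intro h
          rcases (hiff a ha).1 h with h5 | h5
          · exact h4 h5.2
          · exact h3 h5.1
      · by_cases h3 : a = am
        · rw [if_neg h2, if_pos h3, zero_add]
          by_cases h4 : 0 < y lm
          · rw [if_pos ((hiff a ha).2 (Or.inr ⟨h3, h4⟩)), if_pos h4]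
          · rw [if_neg h4, if_neg]
            intro h
            rcases (hiff a ha).1 h with h5 | h5
            · exact h2 h5.1
            · exact h4 h5.2
        · rw [if_neg h2, if_neg h3, add_zero, if_neg]
          intro h
          rcases (hiff a ha).1 h with h5 | h5
          · exact h2 h5.1
          · exact h3 h5.1
    rw [Finset.sum_congr rfl hterm, Finset.sum_add_distrib, Finset.sum_ite_eq', Finset.sum_ite_eq',
      if_pos hap, if_pos ham]
    -- the right side
    have hno : ∀ l : X → ℝ, (∀ s ∈ S, 0 ≤ l s) → ∑ s ∈ S, l s = 1 →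
        (∀ i : Fin D, (i : ℕ) < j + 1 → ∑ s ∈ S, l s * w s i = 0) →
        ∃ t : ℝ, 0 ≤ t ∧ t ≤ 1 ∧ (1 - t) * y lm + t * y lp = 0 := by
      intro l hl0 hl1 hl2
      obtain ⟨t, ht0, ht1, ht⟩ := hseg l hl0 hl1 fun i hi => hl2 i (by omega)
      refine ⟨t, ht0, ht1, ?_⟩
      rw [← hl2 ⟨j, hj⟩ (Nat.lt_succ_self j), hy, hy, Finset.mul_sum, Finset.mul_sum,
        ← Finset.sum_add_distrib]
      refine Finset.sum_congr rfl fun s hs => ?_
      rw [ht s hs]
      ring
    have hyes : ∀ t : ℝ, 0 ≤ t → t ≤ 1 → (1 - t) * y lm + t * y lp = 0 → Hit (j + 1) w S := by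
      intro t ht0 ht1 ht
      have hlin : ∀ i : Fin D, ∑ s ∈ S, ((1 - t) * lm s + t * lp s) * w s i =
          (1 - t) * (∑ s ∈ S, lm s * w s i) + t * ∑ s ∈ S, lp s * w s i := by
        intro i
        rw [Finset.mul_sum, Finset.mul_sum, ← Finset.sum_add_distrib]
        exact Finset.sum_congr rfl fun s _ => by ring
      refine ⟨fun s => (1 - t) * lm s + t * lp s, fun s hs => ?_, ?_, fun i hi => ?_⟩
      · have h2 : 0 ≤ lm s := by
          by_cases h : s = am
          · rw [h, hm0]
          · exact (hm s hs h).le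
        have h3 : 0 ≤ lp s := by
          by_cases h : s = ap
          · rw [h, hp0]
          · exact (hp s hs h).le
        exact add_nonneg (mul_nonneg (by linarith) h2) (mul_nonneg ht0 h3)
      · rw [Finset.sum_add_distrib, ← Finset.mul_sum, ← Finset.mul_sum, sm, sp]
        ring
      · rw [hlin]
        rcases Nat.lt_succ_iff_lt_or_eq.1 hi with h | h
        · rw [wm i h, wp i h, mul_zero, mul_zero, add_zero]
        · rw [hij i h, ← hy, ← hy, ht]
    rcases lt_or_gt_of_ne yp with h2 | h2 <;> rcases lt_or_gt_of_ne ym with h3 | h3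
    · rw [if_neg (not_lt.2 h2.le), if_neg (not_lt.2 h3.le), if_neg, add_zero]
      rintro ⟨l, hl0, hl1, hl2⟩
      obtain ⟨t, ht0, ht1, ht⟩ := hno l hl0 hl1 hl2
      rcases ht0.eq_or_lt with h4 | h4
      · rw [← h4] at ht
        linarith
      · have h5 : (1 - t) * y lm ≤ 0 := mul_nonpos_of_nonneg_of_nonpos (by linarith) h3.le
        have h6 : t * y lp < 0 := mul_neg_of_pos_of_neg h4 h2
        linarith
    · rw [if_neg (not_lt.2 h2.le), if_pos h3, if_pos, zero_add]
      have h4 : 0 < y lm - y lp := by linarith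
      refine hyes (y lm / (y lm - y lp)) (div_nonneg h3.le h4.le) ?_ ?_
      · rw [div_le_one h4]
        linarith
      · field_simp
        ring
    · rw [if_pos h2, if_neg (not_lt.2 h3.le), if_pos, add_zero]
      have h4 : 0 < y lp - y lm := by linarith
      refine hyes (-y lm / (y lp - y lm)) (div_nonneg (by linarith) h4.le) ?_ ?_
      · rw [div_le_one h4]
        linarith
      · field_simp
        ring
    · rw [if_pos h2, if_pos h3, if_neg]
      · decide
      rintro ⟨l, hl0, hl1, hl2⟩
      obtain ⟨t, ht0, ht1, ht⟩ := hno l hl0 hl1 hl2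
      rcases ht0.eq_or_lt with h4 | h4
      · rw [← h4] at ht
        linarith
      · have h5 : 0 ≤ (1 - t) * y lm := mul_nonneg (by linarith) h3.le
        have h6 : 0 < t * y lp := mul_pos h4 h2
        linarith
  · rw [if_neg]
    · refine Finset.sum_eq_zero fun a ha => ?_
      rw [if_neg]
      rintro ⟨l, hl0, hl1, hl2, -⟩
      obtain ⟨e0, e1, e2⟩ := hext a ha l hl0 hl1 hl2
      exact hH ⟨_, e0, e1, e2⟩
    · rintro ⟨l, hl0, hl1, hl2⟩
      exact hH ⟨l, hl0, hl1, fun i hi => hl2 i (by omega)⟩

end Pool.Agent.MPaafd8aB
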