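import Pool.Agent.Lib.MP_aafd8a_gt.B.SpecT

/-!
# Parity at the top
-/

set_option autoImplicit false

open scoped Classical

namespace Pool.Agent.MPaafd8aB

namespace HitTopAux

private theorem ext_sum {X : Type} {S : Finset X} {a : X} (ha : a ∈ S) (l f : X → ℝ) :
    ∑ s ∈ S, (if s = a then 0 else l s) * f s = ∑ s ∈ S.erase a, l s * f s := by
  rw [← Finset.add_sum_erase S _ ha, if_pos rfl, zero_mul, zero_add]
  refine Finset.sum_congr rfl fun s hs => ?_
  rw [if_neg (Finset.ne_of_mem_erase hs)]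

private theorem ext_sum1 {X : Type} {S : Finset X} {a : X} (ha : a ∈ S) (l : X → ℝ) :
    ∑ s ∈ S, (if s = a then 0 else l s) = ∑ s ∈ S.erase a, l s := by
  have h := ext_sum ha l (fun _ => 1)
  simpa using h

end HitTopAux

open HitTopAux in
theorem pHitTop (h1 : SSeg) : SHitTop := by
  intro X D w S hS hG
  have hext : ∀ a ∈ S, ∀ l : X → ℝ, (∀ s ∈ S.erase a, 0 ≤ l s) → ∑ s ∈ S.erase a, l s = 1 →
      (∀ i : Fin D, (i : ℕ) < D → ∑ s ∈ S.erase a, l s * w s i = 0) →
      (∀ s ∈ S, 0 ≤ (if s = a then 0 else l s)) ∧ ∑ s ∈ S, (if s = a then 0 else l s) = 1 ∧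
      ∀ i : Fin D, (i : ℕ) < D → ∑ s ∈ S, (if s = a then 0 else l s) * w s i = 0 := by
    intro a ha l hl0 hl1 hl2
    refine ⟨fun s hs => ?_, ?_, fun i hi => ?_⟩
    · split_ifs with h
      · exact le_rfl
      · exact hl0 s (Finset.mem_erase.2 ⟨h, hs⟩)
    · rw [ext_sum1 ha, hl1]
    · rw [ext_sum ha l (fun s => w s i), hl2 i hi]
  by_cases hH : Hit D w S
  · obtain ⟨lp, lm, ap, am, hap, ham, hne, hp0, hm0, hp, hm, sp, sm, wp, wm, hseg⟩ :=
      h1 X D D w S le_rfl hS hG hH
    have hiff : ∀ a ∈ S, Hit D w (S.erase a) ↔ a = ap ∨ a = am := by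
      intro a ha
      constructor
      · rintro ⟨l, hl0, hl1, hl2⟩
        obtain ⟨e0, e1, e2⟩ := hext a ha l hl0 hl1 hl2
        obtain ⟨t, ht0, ht1, ht⟩ := hseg _ e0 e1 e2
        by_contra hcon
        rw [not_or] at hcon
        have h2 := ht a ha
        rw [if_pos rfl] at h2
        have h3 := hp a ha hcon.1
        have h4 := hm a ha hcon.2
        rcases ht0.eq_or_lt with h5 | h5
        · rw [← h5] at h2
          linarith
        · have h6 : 0 ≤ (1 - t) * lm a := mul_nonneg (by linarith) h4.le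
          have h7 : 0 < t * lp a := mul_pos h5 h3
          linarith
      · rintro (rfl | rfl)
        · refine ⟨lp, fun s hs => ?_, ?_, fun i hi => ?_⟩
          · exact (hp s (Finset.mem_of_mem_erase hs) (Finset.ne_of_mem_erase hs)).le
          · rw [Finset.sum_erase _ hp0, sp]
          · rw [Finset.sum_erase _ (by rw [hp0, zero_mul]), wp i hi]
        · refine ⟨lm, fun s hs => ?_, ?_, fun i hi => ?_⟩
          · exact (hm s (Finset.mem_of_mem_erase hs) (Finset.ne_of_mem_erase hs)).le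
          · rw [Finset.sum_erase _ hm0, sm]
          · rw [Finset.sum_erase _ (by rw [hm0, zero_mul]), wm i hi]
    have hterm : ∀ a ∈ S, (if Hit D w (S.erase a) then (1 : ZMod 2) else 0) =
        (if a = ap then 1 else 0) + (if a = am then 1 else 0) := by
      intro a ha
      by_cases h2 : a = ap
      · rw [if_pos ((hiff a ha).2 (Or.inl h2)), if_pos h2, if_neg (fun h => hne (h2 ▸ h)), add_zero]
      · by_cases h3 : a = am
        · rw [if_pos ((hiff a ha).2 (Or.inr h3)), if_neg h2, if_pos h3, zero_add]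
        · rw [if_neg (fun h => ((hiff a ha).1 h).elim h2 h3), if_neg h2, if_neg h3, add_zero]
    rw [Finset.sum_congr rfl hterm, Finset.sum_add_distrib, Finset.sum_ite_eq', Finset.sum_ite_eq',
      if_pos hap, if_pos ham]
    decide
  · refine Finset.sum_eq_zero fun a ha => ?_
    rw [if_neg]
    rintro ⟨l, hl0, hl1, hl2⟩
    obtain ⟨e0, e1, e2⟩ := hext a ha l hl0 hl1 hl2
    exact hH ⟨_, e0, e1, e2⟩

end Pool.Agent.MPaafd8aB
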