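import Pool.Agent.Lib.MP_aafd8a_gt.B.SpecA

/-!
# MP_aafd8a_gt, block (B): quantitative rigidity
-/

set_option autoImplicit false

open Topology RealInnerProductSpace

open scoped Classical

namespace Pool.Agent.MPaafd8aB

open Pool.Agent.MPaafd8a

namespace LAAux

theorem lc_add (u v u' v' : Fin 6 → Eu 3) (i j : Fin 6) :
    Lc (u + u') (v + v') i j = Lc u v i j + Lc u' v' i j := by
  simp only [Lc, Pi.add_apply, inner_add_left, inner_add_right]
  ring

theorem lc_smul (c : ℝ) (u v : Fin 6 → Eu 3) (i j : Fin 6) :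
    Lc (c • u) (c • v) i j = c * Lc u v i j := by
  simp only [Lc, Pi.smul_apply, real_inner_smul_left, real_inner_smul_right]
  ring

theorem dz_add (u u' : Fin 6 → Eu 3) : dz (u + u') = dz u + dz u' := by
  funext k
  fin_cases k <;>
    simp only [dz, Pi.add_apply, inner_add_left, inner_add_right, inner_sub_left, inner_sub_right,
      Matrix.cons_val, Fin.zero_eta, Fin.mk_one, Fin.reduceFinMk, Fin.isValue] <;> ring

theorem dz_smul (c : ℝ) (u : Fin 6 → Eu 3) : dz (c • u) = c • dz u := by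
  funext k
  fin_cases k <;>
    simp only [dz, Pi.smul_apply, smul_eq_mul, inner_add_left, inner_add_right, inner_sub_left,
      inner_sub_right, real_inner_smul_left, real_inner_smul_right,
      Matrix.cons_val, Fin.zero_eta, Fin.mk_one, Fin.reduceFinMk, Fin.isValue] <;> ring

/-- The linear map. -/
noncomputable def f1 : ((Fin 6 → Eu 3) × (Fin 6 → Eu 3)) →ₗ[ℝ]
    (Fin 6 → ℝ) × (Fin 6 → ℝ) × (Fin 6 → Fin 6 → ℝ) × (Fin 5 → ℝ) where
  toFun x := (fun i => ⟪aa i, x.1 i⟫, fun j => ⟪bb j, x.2 j⟫,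
    fun i j => if ct i j = true then Lc x.1 x.2 i j else 0, dz x.1)
  map_add' := by
    intro x y
    refine Prod.ext ?_ (Prod.ext ?_ (Prod.ext ?_ ?_))
    · funext i
      exact inner_add_right _ _ _
    · funext j
      exact inner_add_right _ _ _
    · funext i j
      change (if ct i j = true then Lc (x.1 + y.1) (x.2 + y.2) i j else 0) =
        (if ct i j = true then Lc x.1 x.2 i j else 0) + (if ct i j = true then Lc y.1 y.2 i j else 0)
      split_ifs
      · exact lc_add _ _ _ _ _ _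
      · rw [add_zero]
    · exact dz_add _ _
  map_smul' := by
    intro c x
    refine Prod.ext ?_ (Prod.ext ?_ (Prod.ext ?_ ?_))
    · funext i
      exact real_inner_smul_right _ _ _
    · funext j
      exact real_inner_smul_right _ _ _
    · funext i j
      change (if ct i j = true then Lc (c • x.1) (c • x.2) i j else 0) =
        c * (if ct i j = true then Lc x.1 x.2 i j else 0)
      split_ifs
      · exact lc_smul _ _ _ _ _
      · rw [mul_zero]
    · exact dz_smul _ _

/-- The evaluation at the vertices. -/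
noncomputable def f2 : (Eu 3 →L[ℝ] Eu 3) →ₗ[ℝ] (Fin 6 → Eu 3) where
  toFun K := fun i => K (aa i)
  map_add' := fun _ _ => rfl
  map_smul' := fun _ _ => rfl

theorem f2_inj (h3 : SSpn) (k : Eu 3 →L[ℝ] Eu 3) (hk : f2 k = 0) : k = 0 := by
  have h : ∀ i, k (aa i) = 0 := fun i => congrFun hk i
  ext1 x
  have h1 : ∀ y, ContinuousLinearMap.adjoint k y = 0 := by
    intro y
    refine h3.2 0 _ fun i _ => ?_
    rw [ContinuousLinearMap.adjoint_inner_left, h i, inner_zero_right]
  have h2 : ⟪k x, k x⟫ = 0 := by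
    rw [← ContinuousLinearMap.adjoint_inner_right, h1, inner_zero_right]
  exact inner_self_eq_zero.1 h2

end LAAux

open LAAux

/-- Quantitative rigidity. -/
theorem pLA (h1 : SLinC) (_h2 : SGram) (h3 : SSpn) (h4 : SKer) : SLA := by
  obtain ⟨C1, hC1, hf1⟩ := h1 _ _ f1
  obtain ⟨C2, hC2, hf2⟩ := h1 _ _ f2
  refine ⟨1 + C1 + C2 + C2 * C1, by nlinarith [mul_pos hC1 hC2], ?_⟩
  intro u v m t ht hu hv hau hbv hL hd
  have hm : 0 ≤ m := (norm_nonneg _).trans (hu 0)
  obtain ⟨⟨u', v'⟩, hk0, hkd⟩ := hf1 (u, v)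
  have hft : ‖f1 (u, v)‖ ≤ t := by
    refine max_le ?_ (max_le ?_ (max_le ?_ ?_))
    · exact (pi_norm_le_iff_of_nonneg ht).2 fun i => hau i
    · exact (pi_norm_le_iff_of_nonneg ht).2 fun j => hbv j
    · refine (pi_norm_le_iff_of_nonneg ht).2 fun i => (pi_norm_le_iff_of_nonneg ht).2 fun j => ?_
      change ‖(if ct i j = true then Lc u v i j else 0 : ℝ)‖ ≤ t
      split_ifs with hc
      · exact hL i j hc
      · rw [norm_zero]
        exact ht
    · exact (pi_norm_le_iff_of_nonneg ht).2 fun k => hd k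
  have hkd' : ‖(u, v) - (u', v')‖ ≤ C1 * t := hkd.trans (mul_le_mul_of_nonneg_left hft hC1.le)
  have e1 : ‖u - u'‖ ≤ C1 * t := (le_max_left _ _).trans hkd'
  have e2 : ‖v - v'‖ ≤ C1 * t := (le_max_right _ _).trans hkd'
  have e1' : ∀ i, ‖u i - u' i‖ ≤ C1 * t := fun i => (norm_le_pi_norm (u - u') i).trans e1
  have e2' : ∀ j, ‖v j - v' j‖ ≤ C1 * t := fun j => (norm_le_pi_norm (v - v') j).trans e2
  -- the kernel
  have k1 : (fun i => ⟪aa i, u' i⟫) = (0 : Fin 6 → ℝ) := congrArg Prod.fst hk0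
  have k2 : (fun j => ⟪bb j, v' j⟫) = (0 : Fin 6 → ℝ) := congrArg (fun x => x.2.1) hk0
  have k3 : (fun i j => if ct i j = true then Lc u' v' i j else 0) = (0 : Fin 6 → Fin 6 → ℝ) :=
    congrArg (fun x => x.2.2.1) hk0
  have k4 : dz u' = 0 := congrArg (fun x => x.2.2.2) hk0
  obtain ⟨K, hK, hKa, hKb⟩ := h4 u' v' ⟨fun i => congrFun k1 i, fun j => congrFun k2 j⟩
    (fun i j hc => by
      have h5 := congrFun (congrFun k3 i) j
      simp only [if_pos hc] at h5
      exact h5) k4
  obtain ⟨k, hk, hKk⟩ := hf2 K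
  rw [f2_inj h3 k hk, sub_zero] at hKk
  have hK2 : ‖f2 K‖ ≤ m + C1 * t := by
    refine (pi_norm_le_iff_of_nonneg (by positivity)).2 fun i => ?_
    change ‖K (aa i)‖ ≤ _
    rw [← hKa i]
    have h5 : u' i = u i - (u i - u' i) := by abel
    rw [h5]
    exact (norm_sub_le _ _).trans (add_le_add (hu i) (e1' i))
  refine ⟨K, hK, ?_, ?_, ?_⟩
  · have h5 : ‖K‖ ≤ C2 * (m + C1 * t) := hKk.trans (mul_le_mul_of_nonneg_left hK2 hC2.le)
    have h6 : 0 ≤ C1 * m := by positivity
    have h7 : 0 ≤ C1 * t := by positivity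
    have h8 : 0 ≤ C2 * t := by positivity
    have h9 : 0 ≤ C2 * C1 * m := by positivity
    nlinarith
  · intro i
    rw [← hKa i]
    have h6 : 0 ≤ C2 * t := by positivity
    have h7 : 0 ≤ C2 * C1 * t := by positivity
    have h8 := e1' i
    nlinarith
  · intro j
    rw [← hKb j]
    have h6 : 0 ≤ C2 * t := by positivity
    have h7 : 0 ≤ C2 * C1 * t := by positivity
    have h8 := e2' j
    nlinarith

end Pool.Agent.MPaafd8aB
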