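import Pool.Agent.Lib.MP_aafd8a_gt.B.SpecP

/-!
# Labels
-/

set_option autoImplicit false

open Topology RealInnerProductSpace

open scoped Classical

namespace Pool.Agent.MPaafd8aB

open Pool.Agent.MPaafd8a

private theorem lb_aux (c : Fin 6 → Eu 3) (hc : ∀ i k, i ≠ k → 1 < dist (c i) (c k)) (r : ℝ)
    (g : Iso3) (v : Eu 3) (hr : r ≤ 1 / 100) (i k : Fin 6) (hi : dist v (g (c i)) < r)
    (hk : dist v (g (c k)) < r) : k = i := by
  by_contra hne
  have h1 := hc i k (fun h => hne h.symm)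
  rw [← g.dist_map] at h1
  have h2 := dist_triangle_left (g (c i)) (g (c k)) v
  linarith

theorem pLb (h1 : SGram) : SLb := by
  obtain ⟨-, -, -, -, -, ha, hb, -⟩ := h1
  intro r g v hr
  constructor
  · intro i hi
    have h : ∃ i, dist (v : Eu 3) (g (aa i)) < r := ⟨i, hi⟩
    unfold lbA
    rw [dif_pos h]
    exact lb_aux aa ha r g v hr i _ hi h.choose_spec
  · intro i hi
    have h : ∃ i, dist (v : Eu 3) (g (bb i)) < r := ⟨i, hi⟩
    unfold lbB
    rw [dif_pos h]
    exact lb_aux bb hb r g v hr i _ hi h.choose_spec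

end Pool.Agent.MPaafd8aB
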