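import Pool.Agent.Lib.MP_aafd8a_gt.B.SpecA

/-!
# MP_aafd8a_gt, block (B): distance to the kernel
-/

set_option autoImplicit false

open Topology RealInnerProductSpace

open scoped Classical

namespace Pool.Agent.MPaafd8aB

open Pool.Agent.MPaafd8a

theorem pLinC : SLinC := by
  intro E F _ _ _ _ _ f
  obtain ⟨s, hs⟩ := f.rangeRestrict.exists_rightInverse_of_surjective f.range_rangeRestrict
  let s' : LinearMap.range f →L[ℝ] E := LinearMap.toContinuousLinearMap s
  have hs' : ∀ y, s' y = s y := fun y => rfl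
  refine ⟨‖s'‖ + 1, by positivity, fun x => ?_⟩
  have h1 : f.rangeRestrict (s (f.rangeRestrict x)) = f.rangeRestrict x :=
    LinearMap.congr_fun hs _
  have h2 : f (s (f.rangeRestrict x)) = f x := congrArg Subtype.val h1
  refine ⟨x - s (f.rangeRestrict x), ?_, ?_⟩
  · rw [map_sub, h2, sub_self]
  · rw [sub_sub_cancel, ← hs']
    have h3 : ‖s' (f.rangeRestrict x)‖ ≤ ‖s'‖ * ‖f.rangeRestrict x‖ := s'.le_opNorm _
    have h4 : ‖f.rangeRestrict x‖ = ‖f x‖ := rfl
    rw [h4] at h3
    refine h3.trans ?_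
    have := norm_nonneg (f x)
    nlinarith

end Pool.Agent.MPaafd8aB
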