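import Pool.Agent.Lib.MP_aafd8a_gt.B.SpecA

/-!
# MP_aafd8a_gt, block (B): the Lipschitz estimate of `kp`
-/

set_option autoImplicit false

open Topology RealInnerProductSpace

open scoped Classical

namespace Pool.Agent.MPaafd8aB

open Pool.Agent.MPaafd8a

private theorem Lip_dl_nonneg (p p' : Sph 3 →₀ ℝ) : 0 ≤ dl p p' := by
  unfold dl
  exact Finset.sum_nonneg fun _ _ => abs_nonneg _

private theorem Lip_sum {E : Type*} [NormedAddCommGroup E] [NormedSpace ℝ E] (φ : Sph 3 → E)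
    (hφ : ∀ v, ‖φ v‖ ≤ 1) (α : Sph 3 → Fin 6) (i : Fin 6) (p p' : Sph 3 →₀ ℝ) :
    ‖(∑ v ∈ p.support, if α v = i then p v • φ v else 0) -
      (∑ v ∈ p'.support, if α v = i then p' v • φ v else 0)‖ ≤ dl p p' := by
  have h1 : (∑ v ∈ p.support, if α v = i then p v • φ v else 0) =
      ∑ v ∈ p.support ∪ p'.support, if α v = i then p v • φ v else 0 := by
    refine Finset.sum_subset Finset.subset_union_left fun v _ hv => ?_
    rw [Finsupp.notMem_support_iff.1 hv, zero_smul, ite_self]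
  have h2 : (∑ v ∈ p'.support, if α v = i then p' v • φ v else 0) =
      ∑ v ∈ p.support ∪ p'.support, if α v = i then p' v • φ v else 0 := by
    refine Finset.sum_subset Finset.subset_union_right fun v _ hv => ?_
    rw [Finsupp.notMem_support_iff.1 hv, zero_smul, ite_self]
  have h3 : dl p p' = ∑ v ∈ p.support ∪ p'.support, |(p - p') v| := by
    unfold dl
    exact Finsupp.sum_of_support_subset _ (Finsupp.support_sub) _ fun _ _ => abs_zero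
  rw [h1, h2, h3, ← Finset.sum_sub_distrib]
  refine (norm_sum_le _ _).trans (Finset.sum_le_sum fun v _ => ?_)
  by_cases hv : α v = i
  · rw [if_pos hv, if_pos hv, ← sub_smul, norm_smul, Real.norm_eq_abs]
    calc |p v - p' v| * ‖φ v‖ ≤ |p v - p' v| * 1 :=
          mul_le_mul_of_nonneg_left (hφ v) (abs_nonneg _)
      _ = |(p - p') v| := by rw [mul_one]; rfl
  · rw [if_neg hv, if_neg hv, sub_zero, norm_zero]
    exact abs_nonneg _

private theorem Lip_ms (α : Sph 3 → Fin 6) (i : Fin 6) (p p' : Sph 3 →₀ ℝ) :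
    |ms α p i - ms α p' i| ≤ dl p p' := by
  have h := Lip_sum (fun _ : Sph 3 => (1 : ℝ)) (fun _ => by rw [norm_one]) α i p p'
  simp only [smul_eq_mul, mul_one] at h
  exact h

/-- the sum of the cluster -/
private noncomputable def Lip_S (α : Sph 3 → Fin 6) (i : Fin 6) (p : Sph 3 →₀ ℝ) : Eu 3 :=
  ∑ v ∈ p.support, if α v = i then p v • (v : Eu 3) else 0

private theorem Lip_norm (v : Sph 3) : ‖(v : Eu 3)‖ ≤ 1 := (mem_sphere_zero_iff_norm.1 v.2).le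

private theorem Lip_S_sub (α : Sph 3 → Fin 6) (i : Fin 6) (p p' : Sph 3 →₀ ℝ) :
    ‖Lip_S α i p - Lip_S α i p'‖ ≤ dl p p' :=
  Lip_sum (fun v : Sph 3 => (v : Eu 3)) Lip_norm α i p p'

private theorem Lip_S_le (α : Sph 3 → Fin 6) (i : Fin 6) (p : Sph 3 →₀ ℝ) (hp : Pw p) :
    ‖Lip_S α i p‖ ≤ ms α p i := by
  unfold Lip_S ms
  refine (norm_sum_le _ _).trans (Finset.sum_le_sum fun v _ => ?_)
  by_cases hv : α v = i
  · rw [if_pos hv, if_pos hv, norm_smul, Real.norm_eq_abs, abs_of_nonneg (hp.1 v)]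
    calc p v * ‖(v : Eu 3)‖ ≤ p v * 1 := mul_le_mul_of_nonneg_left (Lip_norm v) (hp.1 v)
      _ = p v := mul_one _
  · rw [if_neg hv, if_neg hv, norm_zero]

private theorem Lip_bc_eq (α : Sph 3 → Fin 6) (i : Fin 6) (p : Sph 3 →₀ ℝ) :
    bc α p i = (ms α p i)⁻¹ • Lip_S α i p := rfl

private theorem Lip_bc_le (α : Sph 3 → Fin 6) (i : Fin 6) (p : Sph 3 →₀ ℝ) (hp : Pw p)
    (hm : 1 / 12 < ms α p i) : ‖bc α p i‖ ≤ 1 := by
  have hm0 : 0 < ms α p i := by linarith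
  rw [Lip_bc_eq, norm_smul, norm_inv, Real.norm_eq_abs, abs_of_pos hm0]
  rw [inv_mul_le_iff₀ hm0, mul_one]
  exact Lip_S_le α i p hp

private theorem Lip_bc_sub (α : Sph 3 → Fin 6) (i : Fin 6) (p p' : Sph 3 →₀ ℝ) (hp' : Pw p')
    (hm : 1 / 12 < ms α p i) (hm' : 1 / 12 < ms α p' i) :
    ‖bc α p i - bc α p' i‖ ≤ 24 * dl p p' := by
  have hm0 : 0 < ms α p i := by linarith
  have hm0' : 0 < ms α p' i := by linarith
  have hd := Lip_dl_nonneg p p'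
  have h1 : bc α p i - bc α p' i = (ms α p i)⁻¹ • (Lip_S α i p - Lip_S α i p') +
      ((ms α p i)⁻¹ - (ms α p' i)⁻¹) • Lip_S α i p' := by
    rw [Lip_bc_eq, Lip_bc_eq, smul_sub, sub_smul]
    abel
  have h2 : ‖(ms α p i)⁻¹ • (Lip_S α i p - Lip_S α i p')‖ ≤ 12 * dl p p' := by
    rw [norm_smul, norm_inv, Real.norm_eq_abs, abs_of_pos hm0]
    have h3 : (ms α p i)⁻¹ ≤ 12 := by
      rw [inv_le_comm₀ hm0 (by norm_num)]
      linarith
    exact mul_le_mul h3 (Lip_S_sub α i p p') (norm_nonneg _) (by norm_num)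
  have h4 : ‖((ms α p i)⁻¹ - (ms α p' i)⁻¹) • Lip_S α i p'‖ ≤ 12 * dl p p' := by
    rw [norm_smul, Real.norm_eq_abs]
    have h5 : (ms α p i)⁻¹ - (ms α p' i)⁻¹ = (ms α p' i - ms α p i) * (ms α p i)⁻¹ *
        (ms α p' i)⁻¹ := by
      field_simp
    have h6 : |(ms α p i)⁻¹ - (ms α p' i)⁻¹| * ms α p' i = |ms α p' i - ms α p i| * (ms α p i)⁻¹ := by
      rw [h5, abs_mul, abs_mul, abs_of_pos (inv_pos.2 hm0), abs_of_pos (inv_pos.2 hm0'), mul_assoc,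
        inv_mul_cancel₀ hm0'.ne', mul_one]
    have h3 : (ms α p i)⁻¹ ≤ 12 := by
      rw [inv_le_comm₀ hm0 (by norm_num)]
      linarith
    have h7 : |ms α p' i - ms α p i| ≤ dl p p' := by
      rw [abs_sub_comm]
      exact Lip_ms α i p p'
    calc |(ms α p i)⁻¹ - (ms α p' i)⁻¹| * ‖Lip_S α i p'‖
        ≤ |(ms α p i)⁻¹ - (ms α p' i)⁻¹| * ms α p' i :=
          mul_le_mul_of_nonneg_left (Lip_S_le α i p' hp') (abs_nonneg _)
      _ = |ms α p' i - ms α p i| * (ms α p i)⁻¹ := h6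
      _ ≤ dl p p' * 12 := mul_le_mul h7 h3 (inv_pos.2 hm0).le hd
      _ = 12 * dl p p' := mul_comm _ _
  rw [h1]
  refine (norm_add_le _ _).trans ?_
  linarith

private theorem Lip_inner (a b a' b' : Eu 3) (m δ : ℝ) (hb : ‖b‖ ≤ m) (ha' : ‖a'‖ ≤ m)
    (h1 : ‖a - a'‖ ≤ δ) (h2 : ‖b - b'‖ ≤ δ) : |⟪a, b⟫ - ⟪a', b'⟫| ≤ 2 * m * δ := by
  have h3 : ⟪a, b⟫ - ⟪a', b'⟫ = ⟪a - a', b⟫ + ⟪a', b - b'⟫ := by
    rw [inner_sub_left, inner_sub_right]
    ring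
  have hm : 0 ≤ m := (norm_nonneg _).trans hb
  have hδ : 0 ≤ δ := (norm_nonneg _).trans h1
  have h4 : |⟪a - a', b⟫| ≤ δ * m :=
    (abs_real_inner_le_norm _ _).trans (mul_le_mul h1 hb (norm_nonneg _) hδ)
  have h5 : |⟪a', b - b'⟫| ≤ m * δ :=
    (abs_real_inner_le_norm _ _).trans (mul_le_mul ha' h2 (norm_nonneg _) hm)
  rw [h3]
  refine (abs_add_le _ _).trans ?_
  linarith

private theorem Lip_zz (v v' : Fin 6 → Eu 3) (δ : ℝ) (hv : ∀ i, ‖v i‖ ≤ 1) (hv' : ∀ i, ‖v' i‖ ≤ 1)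
    (h : ∀ i, ‖v i - v' i‖ ≤ δ) (k : Fin 5) : |zz v k - zz v' k| ≤ 8 * δ := by
  have hδ : 0 ≤ δ := (norm_nonneg _).trans (h 0)
  have hadd : ∀ (w : Fin 6 → Eu 3), (∀ i, ‖w i‖ ≤ 1) → ∀ i j, ‖w i + w j‖ ≤ 2 := by
    intro w hw i j
    refine (norm_add_le _ _).trans ?_
    have := hw i
    have := hw j
    linarith
  have hsub : ∀ (w : Fin 6 → Eu 3), (∀ i, ‖w i‖ ≤ 1) → ∀ i j, ‖w i - w j‖ ≤ 2 := by
    intro w hw i j
    refine (norm_sub_le _ _).trans ?_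
    have := hw i
    have := hw j
    linarith
  have hadd' : ∀ i j, ‖(v i + v j) - (v' i + v' j)‖ ≤ 2 * δ := by
    intro i j
    have h1 : (v i + v j) - (v' i + v' j) = (v i - v' i) + (v j - v' j) := by abel
    rw [h1]
    refine (norm_add_le _ _).trans ?_
    have := h i
    have := h j
    linarith
  have hsub' : ∀ i j, ‖(v i - v j) - (v' i - v' j)‖ ≤ 2 * δ := by
    intro i j
    have h1 : (v i - v j) - (v' i - v' j) = (v i - v' i) - (v j - v' j) := by abel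
    rw [h1]
    refine (norm_sub_le _ _).trans ?_
    have := h i
    have := h j
    linarith
  fin_cases k
  · have h0 := Lip_inner (v 4) (v 5) (v' 4) (v' 5) 1 δ (hv 5) (hv' 4) (h 4) (h 5)
    change |(⟪v 4, v 5⟫ + cs) - (⟪v' 4, v' 5⟫ + cs)| ≤ 8 * δ
    have h1 : (⟪v 4, v 5⟫ + cs) - (⟪v' 4, v' 5⟫ + cs) = ⟪v 4, v 5⟫ - ⟪v' 4, v' 5⟫ := by ring
    rw [h1]
    linarith
  · have h0 := Lip_inner _ _ _ _ 2 (2 * δ) (hsub v hv 0 2) (hadd v' hv' 4 5) (hadd' 4 5) (hsub' 0 2)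
    change |⟪v 4 + v 5, v 0 - v 2⟫ - ⟪v' 4 + v' 5, v' 0 - v' 2⟫| ≤ 8 * δ
    linarith
  · have h0 := Lip_inner _ _ _ _ 2 (2 * δ) (hsub v hv 1 3) (hadd v' hv' 4 5) (hadd' 4 5) (hsub' 1 3)
    change |⟪v 4 + v 5, v 1 - v 3⟫ - ⟪v' 4 + v' 5, v' 1 - v' 3⟫| ≤ 8 * δ
    linarith
  · have h0 := Lip_inner _ _ _ _ 2 (2 * δ) (hsub v hv 0 2) (hsub v' hv' 4 5) (hsub' 4 5) (hsub' 0 2)
    change |⟪v 4 - v 5, v 0 - v 2⟫ - ⟪v' 4 - v' 5, v' 0 - v' 2⟫| ≤ 8 * δ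
    linarith
  · have h0 := Lip_inner _ _ _ _ 2 (2 * δ) (hsub v hv 1 3) (hsub v' hv' 4 5) (hsub' 4 5) (hsub' 1 3)
    change |⟪v 4 - v 5, v 1 - v 3⟫ - ⟪v' 4 - v' 5, v' 1 - v' 3⟫| ≤ 8 * δ
    linarith

theorem pLip : SLip := by
  intro r g p q p' q' hp _ hp' _ hF hF' k
  have hd := Lip_dl_nonneg p p'
  have hd' := Lip_dl_nonneg q q'
  have hm : ∀ i, 1 / 12 < ms (lbA r g) p i := by
    intro i
    have := (abs_lt.1 (hF.2.2.1 i)).1
    linarith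
  have hm' : ∀ i, 1 / 12 < ms (lbA r g) p' i := by
    intro i
    have := (abs_lt.1 (hF'.2.2.1 i)).1
    linarith
  unfold kp mk15
  by_cases h5 : (k : ℕ) < 5
  · rw [dif_pos h5, dif_pos h5]
    have h1 := Lip_ms (lbA r g) (Fin.castSucc ⟨(k : ℕ), h5⟩) p p'
    have h2 : (ms (lbA r g) p (Fin.castSucc ⟨(k : ℕ), h5⟩) - 1 / 6) -
        (ms (lbA r g) p' (Fin.castSucc ⟨(k : ℕ), h5⟩) - 1 / 6) =
        ms (lbA r g) p (Fin.castSucc ⟨(k : ℕ), h5⟩) - ms (lbA r g) p' (Fin.castSucc ⟨(k : ℕ), h5⟩) := by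
      ring
    rw [h2]
    linarith
  · by_cases h10 : (k : ℕ) < 10
    · rw [dif_neg h5, dif_pos h10, dif_neg h5, dif_pos h10]
      have h1 := Lip_ms (lbB r g) (Fin.castSucc ⟨(k : ℕ) - 5, by omega⟩) q q'
      have h2 : (ms (lbB r g) q (Fin.castSucc ⟨(k : ℕ) - 5, by omega⟩) - 1 / 6) -
          (ms (lbB r g) q' (Fin.castSucc ⟨(k : ℕ) - 5, by omega⟩) - 1 / 6) =
          ms (lbB r g) q (Fin.castSucc ⟨(k : ℕ) - 5, by omega⟩) -
            ms (lbB r g) q' (Fin.castSucc ⟨(k : ℕ) - 5, by omega⟩) := by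
        ring
      rw [h2]
      linarith
    · rw [dif_neg h5, dif_neg h10, dif_neg h5, dif_neg h10]
      have h1 := Lip_zz (bc (lbA r g) p) (bc (lbA r g) p') (24 * dl p p')
        (fun i => Lip_bc_le _ i p hp (hm i)) (fun i => Lip_bc_le _ i p' hp' (hm' i))
        (fun i => Lip_bc_sub _ i p p' hp' (hm i) (hm' i)) ⟨(k : ℕ) - 10, by omega⟩
      linarith

end Pool.Agent.MPaafd8aB
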