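import Pool.Agent.Lib.MP_aafd8a_gt.B.SpecA

/-!
# MP_aafd8a_gt, block (B): no zeros below the critical value
-/

set_option autoImplicit false

open Topology RealInnerProductSpace

open scoped Classical

namespace Pool.Agent.MPaafd8aB

open Pool.Agent.MPaafd8a

namespace Low8Aux

theorem lbA_near {r : ℝ} {g : Iso3} {v : Sph 3} (h : ∃ i, dist (v : Eu 3) (g (aa i)) < r) :
    dist (v : Eu 3) (g (aa (lbA r g v))) < r := by
  unfold lbA
  rw [dif_pos h]
  exact h.choose_spec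

theorem lbB_near {r : ℝ} {g : Iso3} {v : Sph 3} (h : ∃ i, dist (v : Eu 3) (g (bb i)) < r) :
    dist (v : Eu 3) (g (bb (lbB r g v))) < r := by
  unfold lbB
  rw [dif_pos h]
  exact h.choose_spec

theorem ex_of_ms {α : Sph 3 → Fin 6} {p : Sph 3 →₀ ℝ} {i : Fin 6} (h : 0 < ms α p i) :
    ∃ v, α v = i ∧ 0 < p v := by
  unfold ms at h
  by_contra hcon
  push Not at hcon
  refine absurd h (not_lt.2 (Finset.sum_nonpos fun v _ => ?_))
  by_cases hv : α v = i
  · rw [if_pos hv]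
    exact hcon v hv
  · rw [if_neg hv]

theorem kp_zz (r : ℝ) (g : Iso3) (p q : Sph 3 →₀ ℝ) (k : Fin 5) :
    kp r g p q ⟨10 + k, by omega⟩ = zz (bc (lbA r g) p) k := by
  unfold kp mk15
  have h1 : ¬ (10 + (k : ℕ) < 5) := by omega
  have h2 : ¬ (10 + (k : ℕ) < 10) := by omega
  rw [dif_neg h1, dif_neg h2]
  congr 1
  apply Fin.ext
  change 10 + (k : ℕ) - 10 = k
  omega

theorem inner_near {x y a b : Eu 3} {s : ℝ} (hy : ‖y‖ = 1) (ha : ‖a‖ = 1) (h1 : dist x a ≤ s)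
    (h2 : dist y b ≤ s) : ⟪a, b⟫ - 2 * s ≤ ⟪x, y⟫ := by
  rw [dist_eq_norm] at h1 h2
  have e : ⟪x, y⟫ = ⟪a, b⟫ + ⟪a, y - b⟫ + ⟪x - a, y⟫ := by
    rw [inner_sub_right, inner_sub_left]
    ring
  have k1 : |⟪a, y - b⟫| ≤ s := by
    refine (abs_real_inner_le_norm _ _).trans ?_
    rw [ha, one_mul]
    exact h2
  have k2 : |⟪x - a, y⟫| ≤ s := by
    refine (abs_real_inner_le_norm _ _).trans ?_
    rw [hy, mul_one]
    exact h1
  have k3 := abs_le.1 k1
  have k4 := abs_le.1 k2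
  rw [e]
  linarith [k3.1, k4.1]

end Low8Aux

open Low8Aux

theorem pLow8 (h1 : SGram) (h2 : SQ2) : SLow8 := by
  obtain ⟨hna, hnb, hct, -⟩ := h1
  obtain ⟨C, hC, ρ₀, hρ₀, H⟩ := h2
  have hC0 : 0 < C := by linarith
  refine ⟨min ρ₀ (1 / 100), lt_min hρ₀ (by norm_num), min_le_right _ _, ?_⟩
  intro r c hr hr0 hc
  refine ⟨min (ρ₀ / (2 * C)) ((cs - c) / (4 * C)), lt_min (by positivity)
    (div_pos (by linarith) (by positivity)), ?_⟩
  set ν : ℝ := min (ρ₀ / (2 * C)) ((cs - c) / (4 * C)) with hν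
  have hν0 : 0 < ν := lt_min (by positivity) (div_pos (by linarith) (by positivity))
  have hν1 : ν * (2 * C) ≤ ρ₀ := (le_div_iff₀ (by positivity)).1 (min_le_left _ _)
  have hν2 : ν * (4 * C) ≤ cs - c := (le_div_iff₀ (by positivity)).1 (min_le_right _ _)
  intro g p q hp hq hcpt hF
  by_contra hcon
  push Not at hcon
  obtain ⟨hFa, hFb, hma, hmb⟩ := hF
  have hrρ : r ≤ ρ₀ := hr0.trans (min_le_left _ _)
  have hpa : ∀ i, 0 < ms (lbA r g) p i := fun i => by
    have := (abs_lt.1 (hma i)).1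
    linarith
  have hpb : ∀ i, 0 < ms (lbB r g) q i := fun i => by
    have := (abs_lt.1 (hmb i)).1
    linarith
  obtain ⟨g', hg1, hg2⟩ := H (lbA r g) (lbB r g) g p q ν ν hp hq hν0 hν0.le (by linarith)
    (fun v hv => (lbA_near (hFa v hv)).le.trans hrρ) (fun v hv => (lbB_near (hFb v hv)).le.trans hrρ)
    hpa hpb (fun v w hv hw => (hcpt v w hv hw).trans (by linarith)) (fun k => by
      rw [← kp_zz r g p q k]
      exact (hcon _).le)
  obtain ⟨v, hv0, hv⟩ := ex_of_ms (hpa 0)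
  obtain ⟨y, hy0, hy⟩ := ex_of_ms (hpb 0)
  have k1 := hg1 v hv
  have k2 := hg2 y hy
  rw [hv0] at k1
  rw [hy0] at k2
  have k3 := inner_near (s := C * (ν + ν)) (by simpa using mem_sphere_zero_iff_norm.1 y.2)
    (by rw [LinearIsometryEquiv.norm_map, hna]) k1 k2
  rw [LinearIsometryEquiv.inner_map_map, hct 0 0 rfl] at k3
  have k4 := hcpt v y hv hy
  linarith

end Pool.Agent.MPaafd8aB
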