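import Pool.Agent.Lib.MP_aafd8a_gt.B.SpecA

/-!
# Isometries near the identity (Cayley transform)
-/

set_option autoImplicit false

open Topology RealInnerProductSpace

open scoped Classical

namespace Pool.Agent.MPaafd8aB

open Pool.Agent.MPaafd8a

theorem pOrt : SOrt := by
  intro K hK
  have hKK : ∀ y, ⟪K y, y⟫ = 0 := by
    intro y
    have h := hK y y
    rw [real_inner_comm] at h
    have h2 : ⟪y, K y⟫ = ⟪K y, y⟫ := real_inner_comm _ _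
    linarith
  set A : Eu 3 →ₗ[ℝ] Eu 3 := (1 / 2 : ℝ) • (K : Eu 3 →ₗ[ℝ] Eu 3) with hA
  have hAy : ∀ y, A y = (1 / 2 : ℝ) • K y := fun y => rfl
  set P : Eu 3 →ₗ[ℝ] Eu 3 := LinearMap.id - A with hP
  set Q : Eu 3 →ₗ[ℝ] Eu 3 := LinearMap.id + A with hQ
  have hPy : ∀ y, P y = y - A y := fun y => rfl
  have hQy : ∀ y, Q y = y + A y := fun y => rfl
  have hort : ∀ y, ⟪y, A y⟫ = 0 := by
    intro y
    rw [hAy, inner_smul_right, real_inner_comm, hKK, mul_zero]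
  have nP : ∀ y, ‖P y‖ ^ 2 = ‖y‖ ^ 2 + ‖A y‖ ^ 2 := by
    intro y
    rw [hPy, norm_sub_sq_real, hort]
    ring
  have nQ : ∀ y, ‖Q y‖ ^ 2 = ‖y‖ ^ 2 + ‖A y‖ ^ 2 := by
    intro y
    rw [hQy, norm_add_sq_real, hort]
    ring
  have yP : ∀ y, ‖y‖ ≤ ‖P y‖ := by
    intro y
    apply le_of_sq_le_sq _ (norm_nonneg _)
    rw [nP]
    nlinarith [sq_nonneg ‖A y‖]
  have yQ : ∀ y, ‖y‖ ≤ ‖Q y‖ := by
    intro y
    apply le_of_sq_le_sq _ (norm_nonneg _)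
    rw [nQ]
    nlinarith [sq_nonneg ‖A y‖]
  have iP : Function.Injective P := by
    rw [← LinearMap.ker_eq_bot, LinearMap.ker_eq_bot']
    intro y hy
    have h := yP y
    rw [hy, norm_zero] at h
    exact norm_le_zero_iff.mp h
  have iQ : Function.Injective Q := by
    rw [← LinearMap.ker_eq_bot, LinearMap.ker_eq_bot']
    intro y hy
    have h := yQ y
    rw [hy, norm_zero] at h
    exact norm_le_zero_iff.mp h
  set eP : Eu 3 ≃ₗ[ℝ] Eu 3 := LinearEquiv.ofInjectiveEndo P iP with heP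
  set eQ : Eu 3 ≃ₗ[ℝ] Eu 3 := LinearEquiv.ofInjectiveEndo Q iQ with heQ
  have heP' : ∀ y, eP y = P y := fun y => rfl
  have heQ' : ∀ y, eQ y = Q y := fun y => rfl
  refine ⟨⟨eP.symm.trans eQ, ?_⟩, ?_⟩
  · intro x
    obtain ⟨y, rfl⟩ := eP.surjective x
    show ‖eQ (eP.symm (eP y))‖ = ‖eP y‖
    rw [LinearEquiv.symm_apply_apply, heQ', heP']
    have h : ‖Q y‖ ^ 2 = ‖P y‖ ^ 2 := by rw [nP, nQ]
    exact (pow_left_inj₀ (norm_nonneg _) (norm_nonneg _) two_ne_zero).mp h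
  · intro x
    obtain ⟨y, rfl⟩ := eP.surjective x
    show ‖eQ (eP.symm (eP y)) - (eP y + K (eP y))‖ ≤ ‖K‖ ^ 2 * ‖eP y‖
    rw [LinearEquiv.symm_apply_apply, heQ', heP']
    have h1 : Q y - (P y + K (P y)) = K (A y) := by
      rw [hQy, hPy, map_sub]
      have h2 : K y = A y + A y := by
        rw [hAy, ← add_smul]
        norm_num
      rw [h2]
      abel
    rw [h1]
    have h3 : ‖K (A y)‖ ≤ ‖K‖ * ‖A y‖ := K.le_opNorm _
    have h4 : ‖A y‖ ≤ 1 / 2 * (‖K‖ * ‖y‖) := by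
      rw [hAy, norm_smul]
      have h5 : ‖(1 / 2 : ℝ)‖ = 1 / 2 := by norm_num
      rw [h5]
      exact mul_le_mul_of_nonneg_left (K.le_opNorm _) (by norm_num)
    have h6 := yP y
    have h7 : 0 ≤ ‖K‖ := norm_nonneg _
    have h8 : 0 ≤ ‖y‖ := norm_nonneg _
    calc ‖K (A y)‖ ≤ ‖K‖ * ‖A y‖ := h3
      _ ≤ ‖K‖ * (1 / 2 * (‖K‖ * ‖y‖)) := mul_le_mul_of_nonneg_left h4 h7
      _ = 1 / 2 * (‖K‖ ^ 2 * ‖y‖) := by ring
      _ ≤ ‖K‖ ^ 2 * ‖y‖ := by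
          have : 0 ≤ ‖K‖ ^ 2 * ‖y‖ := by positivity
          linarith
      _ ≤ ‖K‖ ^ 2 * ‖P y‖ := mul_le_mul_of_nonneg_left h6 (by positivity)

end Pool.Agent.MPaafd8aB
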