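import Pool.Agent.Lib.MP_aafd8a_gt.B.SpecT

/-!
# MP_aafd8a_gt, block (B): the parity theorem
-/

set_option autoImplicit false

open scoped Classical

attribute [-instance] Fintype.decidablePiFintype

namespace Pool.Agent.MPaafd8aB

namespace ParAux

/-- Two linear functionals which agree on the basis agree. -/
theorem eqs {X : Type} {P : Finset X → Prop} (F G : BU.Ch X →ₗ[ZMod 2] ZMod 2)
    (h : ∀ S, P S → F (Finsupp.single S (1 : ZMod 2)) = G (Finsupp.single S (1 : ZMod 2)))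
    {c : BU.Ch X} (hc : c ∈ BU.Sp P) : F c = G c := by
  have h1 : BU.Sp P = Submodule.span (ZMod 2)
      ((fun S : Finset X => Finsupp.single S (1 : ZMod 2)) '' {S | P S}) :=
    Finsupp.supported_eq_span_single (ZMod 2) {S | P S}
  rw [h1] at hc
  refine LinearMap.eqOn_span (f := F) (g := G) ?_ hc
  rintro _ ⟨S, hS, rfl⟩
  exact h S hS

/-- Finitely many linear equivalences are bounded together with their inverses. -/
theorem bound {D : ℕ} (Γ : Set ((Fin D → ℝ) ≃ₗ[ℝ] (Fin D → ℝ))) (h : Γ.Finite) :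
    ∃ C : ℝ, 1 ≤ C ∧ ∀ e ∈ Γ, ∀ v, ‖e v‖ ≤ C * ‖v‖ ∧ ‖v‖ ≤ C * ‖e v‖ := by
  induction Γ, h using Set.Finite.induction_on with
  | empty => exact ⟨1, le_rfl, fun e he => absurd he (Set.notMem_empty _)⟩
  | @insert a s _ _ ih =>
    obtain ⟨C, hC1, hC⟩ := ih
    set f := LinearMap.toContinuousLinearMap (a : (Fin D → ℝ) →ₗ[ℝ] (Fin D → ℝ)) with hf
    set f' := LinearMap.toContinuousLinearMap (a.symm : (Fin D → ℝ) →ₗ[ℝ] (Fin D → ℝ)) with hf'
    have e1 : ∀ v, ‖a v‖ ≤ ‖f‖ * ‖v‖ := fun v => f.le_opNorm v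
    have e2 : ∀ v, ‖v‖ ≤ ‖f'‖ * ‖a v‖ := by
      intro v
      have := f'.le_opNorm (a v)
      have h2 : f' (a v) = v := a.symm_apply_apply v
      rwa [h2] at this
    refine ⟨C + ‖f‖ + ‖f'‖, by have := norm_nonneg f; have := norm_nonneg f'; linarith, ?_⟩
    intro e he v
    have n1 := norm_nonneg f
    have n2 := norm_nonneg f'
    have n3 := norm_nonneg v
    have n4 := norm_nonneg (e v)
    rcases Set.mem_insert_iff.mp he with rfl | he
    · constructor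
      · refine (e1 v).trans ?_
        apply mul_le_mul_of_nonneg_right _ n3
        linarith
      · refine (e2 v).trans ?_
        apply mul_le_mul_of_nonneg_right _ n4
        linarith
    · obtain ⟨h1, h2⟩ := hC e he v
      constructor
      · refine h1.trans ?_
        apply mul_le_mul_of_nonneg_right _ n3
        linarith
      · refine h2.trans ?_
        apply mul_le_mul_of_nonneg_right _ n4
        linarith

theorem hitD_iff {X : Type} {D : ℕ} (w : X → Fin D → ℝ) (S : Finset X) :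
    Hit D w S ↔ ∃ l : X → ℝ, (∀ s ∈ S, 0 ≤ l s) ∧ ∑ s ∈ S, l s = 1 ∧
      ∑ s ∈ S, l s • w s = 0 := by
  constructor
  · rintro ⟨l, h1, h2, h3⟩
    refine ⟨l, h1, h2, ?_⟩
    funext i
    have := h3 i i.2
    simpa [Finset.sum_apply] using this
  · rintro ⟨l, h1, h2, h3⟩
    refine ⟨l, h1, h2, fun i _ => ?_⟩
    have := congrFun h3 i
    simpa [Finset.sum_apply] using this

theorem hit_map {X : Type} {D : ℕ} (w w' : X → Fin D → ℝ) (S : Finset X)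
    (e : (Fin D → ℝ) →ₗ[ℝ] (Fin D → ℝ)) (h : ∀ s ∈ S, w' s = e (w s)) (hw : Hit D w S) :
    Hit D w' S := by
  rw [hitD_iff] at hw ⊢
  obtain ⟨l, h1, h2, h3⟩ := hw
  refine ⟨l, h1, h2, ?_⟩
  have h4 : ∑ s ∈ S, l s • w' s = e (∑ s ∈ S, l s • w s) := by
    rw [map_sum]
    exact Finset.sum_congr rfl fun s hs => by rw [map_smul, h s hs]
  rw [h4, h3, map_zero]

theorem conv_le {X E : Type} [NormedAddCommGroup E] [NormedSpace ℝ E] (S : Finset X) (l : X → ℝ)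
    (w c : X → E) (B : ℝ) (h1 : ∀ s ∈ S, 0 ≤ l s) (h2 : ∑ s ∈ S, l s = 1)
    (h3 : ∑ s ∈ S, l s • w s = 0) (h4 : ∀ s ∈ S, ‖c s - w s‖ ≤ B) :
    ‖∑ s ∈ S, l s • c s‖ ≤ B := by
  have h5 : ∑ s ∈ S, l s • c s = ∑ s ∈ S, l s • (c s - w s) := by
    simp only [smul_sub, Finset.sum_sub_distrib, h3, sub_zero]
  rw [h5]
  refine (norm_sum_le _ _).trans ?_
  calc ∑ s ∈ S, ‖l s • (c s - w s)‖ ≤ ∑ s ∈ S, l s * B := by
        refine Finset.sum_le_sum fun s hs => ?_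
        rw [norm_smul, Real.norm_of_nonneg (h1 s hs)]
        exact mul_le_mul_of_nonneg_left (h4 s hs) (h1 s hs)
    _ = B := by rw [← Finset.sum_mul, h2, one_mul]

section pts

variable {D : ℕ}

theorem pr_apply (x : Fin (D + 2) → ℝ) (i : Fin D) : pr x i = x i.castSucc.castSucc := rfl

theorem pr_neg (x : Fin (D + 2) → ℝ) : pr (-x) = -pr x := rfl

theorem lst_neg {n : ℕ} (x : Fin (n + 1) → ℝ) : lst (-x) = -lst x := rfl

theorem ini_neg {n : ℕ} (x : Fin (n + 1) → ℝ) : ini (-x) = -ini x := rfl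

theorem continuous_pr : Continuous (pr : (Fin (D + 2) → ℝ) → Fin D → ℝ) :=
  continuous_pi fun i => continuous_apply _

theorem pr_dist (x y : Fin (D + 2) → ℝ) : ‖pr x - pr y‖ ≤ dist x y := by
  rw [pi_norm_le_iff_of_nonneg dist_nonneg]
  intro i
  rw [dist_eq_norm]
  exact norm_le_pi_norm (x - y) i.castSucc.castSucc

theorem Bot.hem {x : Fin (D + 2) → ℝ} (h : Bot x) : Hem x := ⟨h.1, h.2.1.symm.le⟩

theorem Low.hem {x : Fin (D + 2) → ℝ} (h : Low x) : Hem x := ⟨h.1, h.2.1.symm.le⟩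

theorem isCompact_Bot : IsCompact {x : Fin (D + 2) → ℝ | Bot x} := by
  apply Metric.isCompact_of_isClosed_isBounded
  · have h1 : IsClosed {x : Fin (D + 2) → ℝ | ∑ i, |x i| = 1} :=
      isClosed_eq (continuous_finsetSum _ fun i _ => (continuous_apply i).abs) continuous_const
    have h2 : IsClosed {x : Fin (D + 2) → ℝ | lst x = 0} :=
      isClosed_eq (continuous_apply _) continuous_const
    have h3 : IsClosed {x : Fin (D + 2) → ℝ | 0 ≤ lst (ini x)} :=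
      isClosed_le continuous_const (continuous_apply _)
    exact h1.inter (h2.inter h3)
  · refine (Metric.isBounded_closedBall (x := (0 : Fin (D + 2) → ℝ)) (r := 1)).subset ?_
    intro x hx
    rw [Metric.mem_closedBall, dist_zero_right, pi_norm_le_iff_of_nonneg zero_le_one]
    intro i
    rw [Real.norm_eq_abs, ← hx.1]
    exact Finset.single_le_sum (f := fun i => |x i|) (fun _ _ => abs_nonneg _) (Finset.mem_univ i)

theorem nu2 (kB : (Fin (D + 2) → ℝ) → Fin D → ℝ) (a₀ : ℝ) (ha : 0 < a₀)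
    (hc : ContinuousOn kB {x | Bot x})
    (h7 : ∀ x (s : ℝ), Bot x → a₀ ≤ ‖pr x‖ → 0 ≤ s → kB x ≠ -(s • pr x)) :
    ∃ ν₂ > 0, ∀ x (t : ℝ), Bot x → a₀ ≤ ‖pr x‖ → 0 ≤ t → t ≤ 1 →
      ν₂ ≤ ‖(1 - t) • pr x + t • kB x‖ := by
  set K : Set ((Fin (D + 2) → ℝ) × ℝ) :=
    ({x | Bot x} ×ˢ Set.Icc (0 : ℝ) 1) ∩ {p | a₀ ≤ ‖pr p.1‖} with hK
  have hKc : IsCompact K := by
    apply (isCompact_Bot.prod isCompact_Icc).inter_right
    exact isClosed_le continuous_const (continuous_pr.comp continuous_fst).norm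
  have hf : ContinuousOn (fun p : (Fin (D + 2) → ℝ) × ℝ =>
      ‖(1 - p.2) • pr p.1 + p.2 • kB p.1‖) K := by
    apply ContinuousOn.norm
    apply ContinuousOn.add
    · exact ((continuous_const.sub continuous_snd).smul
        (continuous_pr.comp continuous_fst)).continuousOn
    · apply ContinuousOn.smul continuous_snd.continuousOn
      exact hc.comp continuous_fst.continuousOn (fun p hp => hp.1.1)
  rcases K.eq_empty_or_nonempty with he | hne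
  · refine ⟨1, one_pos, fun x t h1 h2 h3 h4 => ?_⟩
    have : (x, t) ∈ K := ⟨⟨h1, h3, h4⟩, h2⟩
    rw [he] at this
    exact absurd this (Set.notMem_empty _)
  · obtain ⟨p, hp, hmin⟩ := hKc.exists_isMinOn hne hf
    refine ⟨_, ?_, fun x t h1 h2 h3 h4 => hmin (show (x, t) ∈ K from ⟨⟨h1, h3, h4⟩, h2⟩)⟩
    obtain ⟨⟨hb, ht0, ht1⟩, hpa⟩ := hp
    simp only [gt_iff_lt, norm_pos_iff]
    intro h0
    rcases ht0.lt_or_eq with ht | ht
    · apply h7 p.1 ((1 - p.2) / p.2) hb hpa (div_nonneg (by linarith) ht.le)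
      have h8 : p.2 • kB p.1 = -((1 - p.2) • pr p.1) := by
        rw [eq_neg_iff_add_eq_zero, add_comm]; exact h0
      have h9 : kB p.1 = p.2⁻¹ • (p.2 • kB p.1) := by
        rw [smul_smul, inv_mul_cancel₀ ht.ne', one_smul]
      rw [h9, h8, smul_neg, smul_smul]
      congr 2
      field_simp
    · rw [← ht, sub_zero, one_smul, zero_smul, add_zero] at h0
      have h1 : a₀ ≤ ‖pr p.1‖ := hpa
      rw [h0, norm_zero] at h1
      linarith

theorem Good.sum_abs {M : ℕ} {δ : ℝ} {k : ℕ} {S : Finset (Fin M → ℝ)} (h : BU.Good M δ k S)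
    {x : Fin M → ℝ} (hx : x ∈ S) : ∑ i, |x i| = 1 := by
  obtain ⟨-, -, e, he, h2⟩ := h
  obtain ⟨h3, h4⟩ := h2 x hx
  rw [← h4]
  refine Finset.sum_congr rfl fun i _ => ?_
  have h5 := h3 i
  rcases he i with h | h
  · rw [h, one_mul] at h5 ⊢
    exact abs_of_nonneg h5
  · rw [h, neg_one_mul] at h5 ⊢
    exact abs_of_nonpos (by linarith)

theorem Good.no_pair {M : ℕ} {δ : ℝ} {k : ℕ} {S : Finset (Fin M → ℝ)} (h : BU.Good M δ k S) :
    ∀ x ∈ S, -x ∉ S := by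
  intro x hx hnx
  obtain ⟨-, -, e, he, h2⟩ := h
  obtain ⟨h3, h4⟩ := h2 x hx
  obtain ⟨h5, h6⟩ := h2 (-x) hnx
  have h7 : ∑ i, e i * (-x) i = -∑ i, e i * x i := by
    rw [← Finset.sum_neg_distrib]
    exact Finset.sum_congr rfl fun i _ => by simp
  rw [h7, h4] at h6
  norm_num at h6

theorem Fine.hem {δ : ℝ} {S : Finset (Fin (D + 2) → ℝ)} (h : Fine (D + 2) δ (D + 1) S)
    {x : Fin (D + 2) → ℝ} (hx : x ∈ S) : Hem x :=
  ⟨Good.sum_abs h.1 hx, (h.2 x hx).2 (Fin.last (D + 1)) (by simp)⟩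

theorem Fine.bot {δ : ℝ} {k : ℕ} (hk : k ≤ D) {S : Finset (Fin (D + 2) → ℝ)}
    (h : Fine (D + 2) δ k S) {x : Fin (D + 2) → ℝ} (hx : x ∈ S) : Bot x := by
  refine ⟨Good.sum_abs h.1 hx, ?_, ?_⟩
  · exact (h.2 x hx).1 (Fin.last (D + 1)) (by simp; omega)
  · change 0 ≤ x (Fin.castSucc (Fin.last D))
    rcases hk.lt_or_eq with hlt | heq
    · exact ((h.2 x hx).1 (Fin.castSucc (Fin.last D)) (by simpa using hlt)).symm.le
    · exact (h.2 x hx).2 (Fin.castSucc (Fin.last D)) (by simp [heq])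

theorem equ_bot {x : Fin (D + 2) → ℝ} (h1 : ∑ i, |x i| = 1)
    (h2 : ∀ i : Fin (D + 2), D ≤ (i : ℕ) → x i = 0) : Bot x := by
  refine ⟨h1, h2 (Fin.last (D + 1)) (by simp), ?_⟩
  exact (h2 (Fin.castSucc (Fin.last D)) (by simp)).symm.le

/-- What a hit means for the vectors `kap` and `pr`. -/
theorem keyK {G : Type} {Fr : (Fin (D + 2) → ℝ) → G → Prop}
    {kap : (Fin (D + 2) → ℝ) → G → Fin D → ℝ} {γ : G → G → ((Fin D → ℝ) ≃ₗ[ℝ] (Fin D → ℝ))} {g₀ : G}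
    {kB : (Fin (D + 2) → ℝ) → Fin D → ℝ} {a₀ ε Cγ ν₂ δ δ₃ : ℝ}
    (gx : (Fin (D + 2) → ℝ) → G) (w : (Fin (D + 2) → ℝ) → Fin D → ℝ)
    (hC1 : 1 ≤ Cγ) (hC : ∀ g g' v, ‖γ g g' v‖ ≤ Cγ * ‖v‖ ∧ ‖v‖ ≤ Cγ * ‖γ g g' v‖)
    (H1 : ∀ x g g', Fr x g → Fr x g' → kap x g' = γ g g' (kap x g))
    (H3 : ∀ x y g, Hem x → Hem y → dist x y < δ₃ → Fr x g → Fr y g → ‖kap x g - kap y g‖ < ε)
    (H5 : ∀ x g, Bot x → Fr x g → Fr x g₀ ∧ kap x g₀ = kB x)
    (hν : ∀ x (t : ℝ), Bot x → a₀ ≤ ‖pr x‖ → 0 ≤ t → t ≤ 1 → ν₂ ≤ ‖(1 - t) • pr x + t • kB x‖)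
    (hδ3 : δ < δ₃) (hδε : δ ≤ ε) (hε : 0 < ε) (he2 : Cγ * (2 * Cγ * ε + ε) < ν₂)
    (hgB : ∀ x, Bot x → gx x = g₀) (hgF : ∀ x g, Fr x g → Fr x (gx x))
    {S : Finset (Fin (D + 2) → ℝ)} (hwB : ∀ x ∈ S, Bot x → ‖w x - pr x‖ < ε)
    (hwN : ∀ x ∈ S, ¬ Bot x → Fr x (gx x) → ‖w x - kap x (gx x)‖ < ε)
    (hS1 : ∀ x ∈ S, Hem x) (hS2 : ∀ x ∈ S, ∀ y ∈ S, dist x y ≤ δ) {g : G}
    (hg : ∀ x ∈ S, Fr x g) (hit : Hit D (fun x => γ (gx x) g (w x)) S) :
    ((∀ x ∈ S, ¬ Bot x) → ∀ x₀ ∈ S, ‖kap x₀ g‖ ≤ ε + Cγ * ε) ∧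
      ∀ x₀ ∈ S, Bot x₀ → ‖pr x₀‖ < a₀ := by
  rw [hitD_iff] at hit
  obtain ⟨l, h1, h2, h3⟩ := hit
  have hN : ∀ x₀ ∈ S, ∀ x ∈ S, ¬ Bot x → ‖kap x₀ g - γ (gx x) g (w x)‖ ≤ ε + Cγ * ε := by
    intro x₀ hx₀ x hx hb
    have e1 : ‖kap x₀ g - kap x g‖ < ε :=
      H3 x₀ x g (hS1 _ hx₀) (hS1 _ hx) ((hS2 _ hx₀ _ hx).trans_lt hδ3) (hg _ hx₀) (hg _ hx)
    have e2 : Fr x (gx x) := hgF x g (hg x hx)
    have e3 : kap x g - γ (gx x) g (w x) = γ (gx x) g (kap x (gx x) - w x) := by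
      rw [map_sub, ← H1 x (gx x) g e2 (hg x hx)]
    have e4 : ‖kap x g - γ (gx x) g (w x)‖ ≤ Cγ * ε := by
      rw [e3]
      refine ((hC _ _ _).1).trans ?_
      apply mul_le_mul_of_nonneg_left _ (by linarith)
      rw [norm_sub_rev]
      exact (hwN x hx hb e2).le
    calc ‖kap x₀ g - γ (gx x) g (w x)‖
        = ‖(kap x₀ g - kap x g) + (kap x g - γ (gx x) g (w x))‖ := by congr 1; abel
      _ ≤ ‖kap x₀ g - kap x g‖ + ‖kap x g - γ (gx x) g (w x)‖ := norm_add_le _ _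
      _ ≤ ε + Cγ * ε := by linarith
  constructor
  · intro hb x₀ hx₀
    have := conv_le S l (fun x => γ (gx x) g (w x)) (fun _ => kap x₀ g) (ε + Cγ * ε) h1 h2 h3
      (fun x hx => hN x₀ hx₀ x hx (hb x hx))
    rwa [← Finset.sum_smul, h2, one_smul] at this
  · intro x₀ hx₀ hb₀
    by_contra hcon
    rw [not_lt] at hcon
    obtain ⟨f1, f2⟩ := H5 x₀ g hb₀ (hg x₀ hx₀)
    have f3 : kap x₀ g = γ g₀ g (kB x₀) := by rw [H1 x₀ g₀ g f1 (hg x₀ hx₀), f2]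
    have hB : ∀ x ∈ S, ‖(if Bot x then γ g₀ g (pr x₀) else γ g₀ g (kB x₀)) -
        γ (gx x) g (w x)‖ ≤ 2 * Cγ * ε + ε := by
      intro x hx
      have hCε : 0 ≤ Cγ * ε := mul_nonneg (by linarith) hε.le
      split_ifs with hb
      · rw [hgB x hb, ← map_sub]
        refine ((hC _ _ _).1).trans ?_
        have e1 : ‖pr x₀ - w x‖ ≤ 2 * ε := by
          have e2 : ‖pr x₀ - pr x‖ ≤ ε := (pr_dist x₀ x).trans ((hS2 _ hx₀ _ hx).trans hδε)
          have e3 := hwB x hx hb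
          rw [norm_sub_rev] at e3
          calc ‖pr x₀ - w x‖ = ‖(pr x₀ - pr x) + (pr x - w x)‖ := by congr 1; abel
            _ ≤ ‖pr x₀ - pr x‖ + ‖pr x - w x‖ := norm_add_le _ _
            _ ≤ 2 * ε := by linarith
        calc Cγ * ‖pr x₀ - w x‖ ≤ Cγ * (2 * ε) := mul_le_mul_of_nonneg_left e1 (by linarith)
          _ ≤ 2 * Cγ * ε + ε := by linarith
      · rw [← f3]
        refine (hN x₀ hx₀ x hx hb).trans ?_
        linarith
    have h5 := conv_le S l (fun x => γ (gx x) g (w x))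
      (fun x => if Bot x then γ g₀ g (pr x₀) else γ g₀ g (kB x₀)) _ h1 h2 h3 hB
    set τ : ℝ := ∑ x ∈ S, if Bot x then 0 else l x with hτ
    have hτ0 : 0 ≤ τ := Finset.sum_nonneg fun x hx => by
      split_ifs
      · exact le_rfl
      · exact h1 x hx
    have hτ1 : τ ≤ 1 := by
      rw [← h2]
      refine Finset.sum_le_sum fun x hx => ?_
      split_ifs
      · exact h1 x hx
      · exact le_rfl
    have hτ2 : 1 - τ = ∑ x ∈ S, if Bot x then l x else 0 := by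
      rw [← h2, hτ, ← Finset.sum_sub_distrib]
      refine Finset.sum_congr rfl fun x _ => ?_
      split_ifs <;> simp
    have h6 : ∑ x ∈ S, l x • (if Bot x then γ g₀ g (pr x₀) else γ g₀ g (kB x₀)) =
        γ g₀ g ((1 - τ) • pr x₀ + τ • kB x₀) := by
      rw [map_add, map_smul, map_smul, hτ2, hτ, Finset.sum_smul, Finset.sum_smul,
        ← Finset.sum_add_distrib]
      refine Finset.sum_congr rfl fun x _ => ?_
      split_ifs <;> simp
    rw [h6] at h5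
    have h7 := (hC g₀ g ((1 - τ) • pr x₀ + τ • kB x₀)).2
    have h8 := hν x₀ τ hb₀ hcon hτ0 hτ1
    have h9 : Cγ * ‖γ g₀ g ((1 - τ) • pr x₀ + τ • kB x₀)‖ ≤ Cγ * (2 * Cγ * ε + ε) :=
      mul_le_mul_of_nonneg_left h5 (by linarith)
    linarith

theorem sum_abs_equ {x : Fin (D + 2) → ℝ} (h1 : ∑ i, |x i| = 1) (h2 : lst x = 0)
    (h3 : lst (ini x) = 0) : 1 ≤ D * ‖pr x‖ := by
  rw [Fin.sum_univ_castSucc, Fin.sum_univ_castSucc] at h1
  have e1 : x (Fin.last (D + 1)) = 0 := h2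
  have e2 : x (Fin.castSucc (Fin.last D)) = 0 := h3
  rw [e1, e2, abs_zero, add_zero, add_zero] at h1
  rw [← h1]
  calc ∑ i : Fin D, |x i.castSucc.castSucc| ≤ ∑ _i : Fin D, ‖pr x‖ :=
        Finset.sum_le_sum fun i _ => norm_le_pi_norm (pr x) i
    _ = D * ‖pr x‖ := by simp

end pts

/-- Linear functionals which vanish on the basis vanish. -/
theorem eqz {X : Type} {P : Finset X → Prop} (F : BU.Ch X →ₗ[ZMod 2] ZMod 2)
    (h : ∀ S, P S → F (Finsupp.single S (1 : ZMod 2)) = 0) {c : BU.Ch X} (hc : c ∈ BU.Sp P) :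
    F c = 0 := by
  have := eqs F 0 (fun S hS => by rw [h S hS]; rfl) hc
  simpa using this

/-- A finite set containing all points of finitely many chains, closed under negation. -/
theorem exV {M : ℕ} (φ : ℕ → BU.Ch (Fin M → ℝ)) (N : ℕ) :
    ∃ V : Finset (Fin M → ℝ), (∀ x ∈ V, -x ∈ V) ∧ (∀ k ≤ N, ∀ S ∈ (φ k).support, S ⊆ V) ∧
      ∀ x ∈ V, ∃ k ≤ N, ∃ S ∈ (φ k).support, x ∈ S ∨ -x ∈ S := by
  set V₀ : Finset (Fin M → ℝ) :=
    (Finset.range (N + 1)).biUnion fun k => (φ k).support.biUnion id with hV₀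
  have hm : ∀ x, x ∈ V₀ ↔ ∃ k ≤ N, ∃ S ∈ (φ k).support, x ∈ S := by
    intro x
    simp only [hV₀, Finset.mem_biUnion, Finset.mem_range, id, Nat.lt_succ_iff]
  refine ⟨V₀ ∪ V₀.image (fun x => -x), ?_, ?_, ?_⟩
  · intro x hx
    rcases Finset.mem_union.mp hx with h | h
    · exact Finset.mem_union_right _ (Finset.mem_image_of_mem _ h)
    · obtain ⟨y, hy, rfl⟩ := Finset.mem_image.mp h
      rw [neg_neg]
      exact Finset.mem_union_left _ hy
  · intro k hk S hS x hx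
    exact Finset.mem_union_left _ ((hm x).2 ⟨k, hk, S, hS, hx⟩)
  · intro x hx
    rcases Finset.mem_union.mp hx with h | h
    · obtain ⟨k, hk, S, hS, hxS⟩ := (hm x).1 h
      exact ⟨k, hk, S, hS, Or.inl hxS⟩
    · obtain ⟨y, hy, rfl⟩ := Finset.mem_image.mp h
      obtain ⟨k, hk, S, hS, hxS⟩ := (hm y).1 hy
      exact ⟨k, hk, S, hS, Or.inr (by rwa [neg_neg])⟩

end ParAux

open ParAux

/-- The parity theorem, with real coefficients in the last hypothesis but one. -/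
theorem par_core (h1 : SSm) (h2 : SHitTop) (h3 : SDegO) (h4 : SGenG) (D : ℕ) (hD : 1 ≤ D)
    (G : Type) (Fr : (Fin (D + 2) → ℝ) → G → Prop) (kap : (Fin (D + 2) → ℝ) → G → Fin D → ℝ)
    (γ : G → G → ((Fin D → ℝ) ≃ₗ[ℝ] (Fin D → ℝ))) (g₀ : G) (kB : (Fin (D + 2) → ℝ) → Fin D → ℝ)
    (η₁ δ₁ a₀ ν : ℝ) (hη₁ : 0 < η₁) (hδ₁ : 0 < δ₁) (ha₀ : 0 < a₀) (haD : a₀ < 1 / D) (hν : 0 < ν)
    (hfin : (Set.range fun p : G × G => γ p.1 p.2).Finite)
    (H1 : ∀ x g g', Fr x g → Fr x g' → kap x g' = γ g g' (kap x g))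
    (H2 : ∀ x g g' g'', Fr x g → Fr x g' → Fr x g'' → ∀ v, γ g' g'' (γ g g' v) = γ g g'' v)
    (H3 : ∀ ε > 0, ∃ δ > 0, ∀ x y g, Hem x → Hem y → dist x y < δ → Fr x g → Fr y g →
      ‖kap x g - kap y g‖ < ε)
    (H4 : ∀ x g, Hem x → Fr x g → ‖kap x g‖ < η₁ → ∃ g', ∀ y, Hem y → dist x y < δ₁ → Fr y g')
    (H5c : ContinuousOn kB {x | Bot x})
    (H5 : ∀ x g, Bot x → Fr x g → Fr x g₀ ∧ kap x g₀ = kB x)
    (H6 : ∀ x, Bot x → ‖pr x‖ ≤ a₀ → Fr x g₀ ∧ ‖kB x‖ < η₁)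
    (H7 : ∀ x (s : ℝ), Bot x → a₀ ≤ ‖pr x‖ → 0 ≤ s → kB x ≠ -(s • pr x))
    (H8 : ∀ x g, Low x → Fr x g → ν ≤ ‖kap x g‖) : False := by
  obtain ⟨Cγ, hC1, hC⟩ := bound _ hfin
  have hC' : ∀ g g' v, ‖γ g g' v‖ ≤ Cγ * ‖v‖ ∧ ‖v‖ ≤ Cγ * ‖γ g g' v‖ :=
    fun g g' v => hC _ ⟨(g, g'), rfl⟩ v
  obtain ⟨ν₂, hν₂, hν₂'⟩ := nu2 kB a₀ ha₀ H5c H7
  -- the choice of ε
  obtain ⟨ε, hε, he1, he2, he3, he4⟩ : ∃ ε > 0, ε + Cγ * ε < η₁ ∧
      Cγ * (2 * Cγ * ε + ε) < ν₂ ∧ ε + Cγ * ε < ν ∧ 2 * ε < a₀ := by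
    have p1 : 0 < 1 + Cγ := by linarith
    have p2 : 0 < Cγ * (2 * Cγ + 1) := by positivity
    set m := min (min (η₁ / (1 + Cγ)) (ν₂ / (Cγ * (2 * Cγ + 1)))) (min (ν / (1 + Cγ)) (a₀ / 2))
      with hm
    have hmp : 0 < m := by
      refine lt_min (lt_min (div_pos hη₁ p1) (div_pos hν₂ p2))
        (lt_min (div_pos hν p1) (by linarith))
    refine ⟨m / 2, by linarith, ?_, ?_, ?_, ?_⟩
    · have : m / 2 < η₁ / (1 + Cγ) :=
        (half_lt_self hmp).trans_le ((min_le_left _ _).trans (min_le_left _ _))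
      rw [lt_div_iff₀ p1] at this
      linarith
    · have : m / 2 < ν₂ / (Cγ * (2 * Cγ + 1)) :=
        (half_lt_self hmp).trans_le ((min_le_left _ _).trans (min_le_right _ _))
      rw [lt_div_iff₀ p2] at this
      linarith
    · have : m / 2 < ν / (1 + Cγ) :=
        (half_lt_self hmp).trans_le ((min_le_right _ _).trans (min_le_left _ _))
      rw [lt_div_iff₀ p1] at this
      linarith
    · have : m / 2 < a₀ / 2 :=
        (half_lt_self hmp).trans_le ((min_le_right _ _).trans (min_le_right _ _))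
      linarith
  obtain ⟨δ₃, hδ₃, H3'⟩ := H3 ε hε
  obtain ⟨δ, hδ, hδ3, hδ1, hδε⟩ : ∃ δ > 0, δ < δ₃ ∧ δ < δ₁ ∧ δ ≤ ε := by
    refine ⟨min (min δ₃ δ₁) ε / 2, ?_, ?_, ?_, ?_⟩
    · have := lt_min (lt_min hδ₃ hδ₁) hε
      linarith
    · exact (half_lt_self (lt_min (lt_min hδ₃ hδ₁) hε)).trans_le
        ((min_le_left _ _).trans (min_le_left _ _))
    · exact (half_lt_self (lt_min (lt_min hδ₃ hδ₁) hε)).trans_le
        ((min_le_left _ _).trans (min_le_right _ _))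
    · exact (half_lt_self (lt_min (lt_min hδ₃ hδ₁) hε)).le.trans (min_le_right _ _)
  obtain ⟨φ, hφ1, hφ2, hφ3⟩ := h1 (D + 2) δ hδ
  obtain ⟨V, hVn, hVs, hVm⟩ := exV φ (D + 1)
  have hVabs : ∀ x ∈ V, ∑ i, |x i| = 1 := by
    intro x hx
    obtain ⟨k, hk, S, hS, hxS⟩ := hVm x hx
    have hF : Fine (D + 2) δ k S := (Finsupp.mem_supported _ _).1 (hφ1 k (by omega)) hS
    rcases hxS with h | h
    · exact Good.sum_abs hF.1 h
    · have := Good.sum_abs hF.1 h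
      simpa using this
  -- base frames and targets
  set gx : (Fin (D + 2) → ℝ) → G := fun x =>
    if Bot x then g₀ else if h : ∃ g, Fr x g then h.choose else g₀ with hgx
  set tt : (Fin (D + 2) → ℝ) → Fin D → ℝ := fun x =>
    if Bot x then pr x else if ∃ g, Fr x g then kap x (gx x) else 0 with htt
  have hgB : ∀ x, Bot x → gx x = g₀ := fun x hb => by simp only [hgx, if_pos hb]
  have hgF : ∀ x g, Fr x g → Fr x (gx x) := by
    intro x g hg
    by_cases hb : Bot x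
    · rw [hgB x hb]
      exact (H5 x g hb hg).1
    · have h : ∃ g, Fr x g := ⟨g, hg⟩
      simp only [hgx, if_neg hb, dif_pos h]
      exact h.choose_spec
  have hequ : ∀ x ∈ V, (∀ i : Fin (D + 2), D ≤ (i : ℕ) → x i = 0) → Bot x ∧ Bot (-x) := by
    intro x hx h
    refine ⟨equ_bot (hVabs x hx) h, equ_bot (by simpa using hVabs x hx) ?_⟩
    intro i hi
    rw [Pi.neg_apply, h i hi, neg_zero]
  obtain ⟨w, hw1, hw2, hw3⟩ := h4 (D + 2) D V hfin.toFinset tt ε hε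
    (by
      rintro x hx rfl
      have := hVabs 0 hx
      simp at this)
    (by
      intro x hx h
      refine ⟨hVn x hx, ?_⟩
      obtain ⟨e1, e2⟩ := hequ x hx h
      simp only [htt, if_pos e1, if_pos e2]
      exact pr_neg x)
  have hwB : ∀ x ∈ V, Bot x → ‖w x - pr x‖ < ε := by
    intro x hx hb
    have := hw1 x hx
    simpa only [htt, if_pos hb] using this
  have hwN : ∀ x ∈ V, ¬ Bot x → Fr x (gx x) → ‖w x - kap x (gx x)‖ < ε := by
    intro x hx hb hf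
    have := hw1 x hx
    have h : ∃ g, Fr x g := ⟨_, hf⟩
    simpa only [htt, if_neg hb, if_pos h] using this
  -- the property
  obtain ⟨NF, hNF⟩ : ∃ NF : Finset (Fin (D + 2) → ℝ) → Prop, ∀ S, NF S ↔
      (S.card = D + 1 ∧ ∃ g, (∀ x ∈ S, Fr x g) ∧ Hit D (fun x => γ (gx x) g (w x)) S) :=
    ⟨_, fun _ => Iff.rfl⟩
  have hK : ∀ S : Finset (Fin (D + 2) → ℝ), S ⊆ V → (∀ x ∈ S, Hem x) →
      (∀ x ∈ S, ∀ y ∈ S, dist x y ≤ δ) → ∀ g, (∀ x ∈ S, Fr x g) →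
      Hit D (fun x => γ (gx x) g (w x)) S →
      ((∀ x ∈ S, ¬ Bot x) → ∀ x₀ ∈ S, ‖kap x₀ g‖ ≤ ε + Cγ * ε) ∧
      ∀ x₀ ∈ S, Bot x₀ → ‖pr x₀‖ < a₀ := fun S hSV hS1 hS2 g hg hit =>
    keyK gx w hC1 hC' H1 H3' H5 hν₂' hδ3 hδε hε he2 hgB hgF (fun x hx => hwB x (hSV hx))
      (fun x hx => hwN x (hSV hx)) hS1 hS2 hg hit
  -- (C)
  have hCc : ∀ S : Finset (Fin (D + 2) → ℝ), S ⊆ V → (∀ x ∈ S, Hem x) →
      (∀ x ∈ S, ∀ y ∈ S, dist x y ≤ δ) → NF S →
      ∃ x₀ ∈ S, ∃ g', ∀ y, Hem y → dist x₀ y < δ₁ → Fr y g' := by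
    intro S hSV hS1 hS2 hn
    obtain ⟨hc, g, hg, hit⟩ := (hNF S).1 hn
    obtain ⟨k1, k2⟩ := hK S hSV hS1 hS2 g hg hit
    by_cases hb : ∃ x₀ ∈ S, Bot x₀
    · obtain ⟨x₀, hx₀, hb₀⟩ := hb
      obtain ⟨f1, f2⟩ := H6 x₀ hb₀ (k2 x₀ hx₀ hb₀).le
      rw [← (H5 x₀ g₀ hb₀ f1).2] at f2
      exact ⟨x₀, hx₀, H4 x₀ g₀ (hS1 x₀ hx₀) f1 f2⟩
    · push Not at hb
      obtain ⟨x₀, hx₀⟩ : S.Nonempty := by
        rw [← Finset.card_pos, hc]; omega
      exact ⟨x₀, hx₀, H4 x₀ g (hS1 x₀ hx₀) (hg x₀ hx₀) ((k1 hb x₀ hx₀).trans_lt he1)⟩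
  -- (B)
  have hBc : ∀ (S : Finset (Fin (D + 2) → ℝ)) (g g' : G), (∀ x ∈ S, Fr x g) → (∀ x ∈ S, Fr x g') →
      Hit D (fun x => γ (gx x) g (w x)) S → Hit D (fun x => γ (gx x) g' (w x)) S := by
    intro S g g' hg hg' hit
    refine hit_map _ _ S (γ g g' : (Fin D → ℝ) →ₗ[ℝ] (Fin D → ℝ)) (fun x hx => ?_) hit
    exact (H2 x (gx x) g g' (hgF x g (hg x hx)) (hg x hx) (hg' x hx) (w x)).symm
  set P : ℕ → Finset (Fin (D + 2) → ℝ) → Prop := fun k S => Fine (D + 2) δ k S ∧ S ⊆ V with hP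
  have hPφ : ∀ k ≤ D + 1, φ k ∈ BU.Sp (P k) := by
    intro k hk
    refine (Finsupp.mem_supported _ _).2 ?_
    intro S hS
    exact ⟨(Finsupp.mem_supported _ _).1 (hφ1 k (by omega)) hS, hVs k hk S hS⟩
  -- (D)
  have hDd : cnt NF (BU.bd (φ (D + 1))) = 0 := by
    refine eqz (P := P (D + 1)) (cnt NF ∘ₗ BU.bd) ?_ (hPφ (D + 1) le_rfl)
    rintro S ⟨hF, hSV⟩
    rw [LinearMap.comp_apply, BU.bd_single, map_sum]
    simp only [cnt_single]
    have hcard : S.card = D + 2 := hF.1.1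
    have hH : ∀ x ∈ S, Hem x := fun x hx => Fine.hem hF hx
    by_cases hg : ∃ g, ∀ x ∈ S, Fr x g
    · obtain ⟨g, hg⟩ := hg
      have e1 : ∀ a ∈ S, (if NF (S.erase a) then (1 : ZMod 2) else 0) =
          if Hit D (fun x => γ (gx x) g (w x)) (S.erase a) then 1 else 0 := by
        intro a ha
        have : NF (S.erase a) ↔ Hit D (fun x => γ (gx x) g (w x)) (S.erase a) := by
          rw [hNF]
          constructor
          · rintro ⟨-, g', hg', hit⟩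
            exact hBc (S.erase a) g' g hg' (fun x hx => hg x (Finset.mem_of_mem_erase hx)) hit
          · intro hit
            refine ⟨by rw [Finset.card_erase_of_mem ha, hcard]; rfl, g,
              fun x hx => hg x (Finset.mem_of_mem_erase hx), hit⟩
        simp only [this]
      rw [Finset.sum_congr rfl e1]
      refine h2 _ D _ S hcard ?_
      exact hw3 S (fun x => γ (gx x) g) hSV (Good.no_pair hF.1)
        (fun x _ => Or.inl (hfin.mem_toFinset.2 ⟨(gx x, g), rfl⟩)) D le_rfl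
    · refine Finset.sum_eq_zero fun a ha => ?_
      rw [if_neg]
      intro hn
      obtain ⟨x₀, hx₀, g', hg'⟩ := hCc (S.erase a) ((Finset.erase_subset _ _).trans hSV)
        (fun x hx => hH x (Finset.mem_of_mem_erase hx))
        (fun x hx y hy => hF.1.2.1 x (Finset.mem_of_mem_erase hx) y (Finset.mem_of_mem_erase hy))
        hn
      exact hg ⟨g', fun x hx => hg' x (hH x hx)
        ((hF.1.2.1 x₀ (Finset.mem_of_mem_erase hx₀) x hx).trans_lt hδ1)⟩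
  -- (E)
  have hEe : cnt NF (φ D) = 1 := by
    have e1 : cnt NF (φ D) = cnt (fun S => S.card = D + 1 ∧ Hit D w S) (φ D) := by
      refine eqs (P := P D) _ _ ?_ (hPφ D (by omega))
      rintro S ⟨hF, hSV⟩
      have hb : ∀ x ∈ S, Bot x := fun x hx => Fine.bot le_rfl hF hx
      have hcard : S.card = D + 1 := hF.1.1
      rw [cnt_single, cnt_single]
      have : NF S ↔ (S.card = D + 1 ∧ Hit D w S) := by
        rw [hNF]
        constructor
        · rintro ⟨-, g, hg, hit⟩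
          refine ⟨hcard, hit_map _ _ S ((γ g₀ g).symm : (Fin D → ℝ) →ₗ[ℝ] (Fin D → ℝ))
            (fun x hx => ?_) hit⟩
          rw [hgB x (hb x hx)]
          exact ((γ g₀ g).symm_apply_apply (w x)).symm
        · rintro ⟨-, hit⟩
          obtain ⟨x₀, hx₀⟩ : S.Nonempty := by
            rw [← Finset.card_pos, hcard]; omega
          obtain ⟨l, q1, q2, q3⟩ := (hitD_iff _ _).1 hit
          have q4 := conv_le S l w (fun _ => pr x₀) (2 * ε) q1 q2 q3 (fun x hx => by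
            have e2 : ‖pr x₀ - pr x‖ ≤ ε := (pr_dist x₀ x).trans ((hF.1.2.1 _ hx₀ _ hx).trans hδε)
            have e3 := hwB x (hSV hx) (hb x hx)
            rw [norm_sub_rev] at e3
            calc ‖pr x₀ - w x‖ = ‖(pr x₀ - pr x) + (pr x - w x)‖ := by congr 1; abel
              _ ≤ ‖pr x₀ - pr x‖ + ‖pr x - w x‖ := norm_add_le _ _
              _ ≤ 2 * ε := by linarith)
          rw [← Finset.sum_smul, q2, one_smul] at q4
          obtain ⟨f1, f2⟩ := H6 x₀ (hb x₀ hx₀) (by linarith)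
          rw [← (H5 x₀ g₀ (hb x₀ hx₀) f1).2] at f2
          obtain ⟨g', hg'⟩ := H4 x₀ g₀ (Bot.hem (hb x₀ hx₀)) f1 f2
          refine ⟨hcard, g', fun x hx => hg' x (Bot.hem (hb x hx))
            ((hF.1.2.1 _ hx₀ _ hx).trans_lt hδ1), ?_⟩
          refine hit_map _ _ S (γ g₀ g' : (Fin D → ℝ) →ₗ[ℝ] (Fin D → ℝ)) (fun x hx => ?_) hit
          rw [hgB x (hb x hx)]
          rfl
      by_cases hn : NF S
      · rw [if_pos hn, if_pos (this.1 hn)]
      · rw [if_neg hn, if_neg (fun h => hn (this.2 h))]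
    rw [e1]
    refine h3 (D + 2) D P φ w (fun k hk => hPφ k (by omega)) (fun k S hS => hS.1.1.1)
      (hφ2 (by omega)) (fun k hk => hφ3 k (by omega)) ?_ ?_
    · rintro k hk S ⟨hF, hSV⟩ j hj
      exact hw3 S (fun _ => LinearEquiv.refl ℝ _) hSV (Good.no_pair hF.1)
        (fun _ _ => Or.inr rfl) j hj
    · rintro k hk S ⟨hF, hSV⟩ x hx
      exact hw2 x (hSV hx) fun i hi => (hF.2 x hx).1 i (by omega)
  -- (F)
  have hFf : cnt NF (BU.push BU.ng (φ D)) = 0 := by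
    refine eqz (P := P D) (cnt NF ∘ₗ BU.push BU.ng) ?_ (hPφ D (by omega))
    rintro S₀ ⟨hF, hSV⟩
    rw [LinearMap.comp_apply, BU.push_single]
    split_ifs
    swap
    · exact map_zero _
    rw [cnt_single, if_neg]
    rw [hNF]
    rintro ⟨hc, g, hg, hit⟩
    have hmem : ∀ x ∈ S₀.image BU.ng, -x ∈ S₀ := by
      intro x hx
      obtain ⟨y, hy, rfl⟩ := Finset.mem_image.mp hx
      simpa [BU.ng] using hy
    have hlow : ∀ x ∈ S₀.image BU.ng, Low x := by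
      intro x hx
      have hb : Bot (-x) := Fine.bot le_rfl hF (hmem x hx)
      refine ⟨by simpa using hb.1, ?_, ?_⟩
      · have := hb.2.1
        rw [lst_neg] at this
        linarith
      · have := hb.2.2
        rw [ini_neg, lst_neg] at this
        linarith
    obtain ⟨k1, k2⟩ := hK (S₀.image BU.ng)
      (fun x hx => by
        have := hVn _ (hSV (hmem x hx))
        rwa [neg_neg] at this)
      (fun x hx => Low.hem (hlow x hx))
      (fun x hx y hy => by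
        have := hF.1.2.1 _ (hmem x hx) _ (hmem y hy)
        rwa [dist_neg_neg] at this) g hg hit
    by_cases hb : ∃ x₀ ∈ S₀.image BU.ng, Bot x₀
    · obtain ⟨x₀, hx₀, hb₀⟩ := hb
      have e1 := k2 x₀ hx₀ hb₀
      have e2 := sum_abs_equ hb₀.1 hb₀.2.1 (le_antisymm (hlow x₀ hx₀).2.2 hb₀.2.2)
      have hDp : (0 : ℝ) < D := by exact_mod_cast hD
      rw [lt_div_iff₀ hDp] at haD
      nlinarith
    · push Not at hb
      obtain ⟨x₀, hx₀⟩ : (S₀.image BU.ng).Nonempty := by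
        rw [← Finset.card_pos, hc]; omega
      have := k1 hb x₀ hx₀
      have := H8 x₀ g (hlow x₀ hx₀) (hg x₀ hx₀)
      linarith
  rw [hφ3 D (by omega), map_add, hEe, hFf, add_zero] at hDd
  exact one_ne_zero hDd

/-- **The parity theorem.** -/
theorem pPar (h1 : SSm) (h2 : SHitTop) (h3 : SDegO) (h4 : SGenG) : SPar := by
  intro D hD G Fr kap γ g₀ kB η₁ δ₁ a₀ ν hη₁ hδ₁ ha₀ haD hν hfin H1 H2 H3 H4 H5c H5 H6 H7 H8
  exact par_core h1 h2 h3 h4 D hD G Fr kap γ g₀ kB η₁ δ₁ a₀ ν hη₁ hδ₁ ha₀ haD hν hfin H1 H2 H3 H4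
    H5c H5 H6 H7 H8

end Pool.Agent.MPaafd8aB
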