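import Pool.Agent.Lib.MP_aafd8a_gt.B.SpecA

/-!
# MP_aafd8a_gt, block (B): persistence of frames
-/

set_option autoImplicit false

open Topology RealInnerProductSpace

open scoped Classical

namespace Pool.Agent.MPaafd8aB

open Pool.Agent.MPaafd8a

namespace PersAux

theorem mk15_P (P Q Z : Fin 5 → ℝ) (i : Fin 5) : mk15 P Q Z ⟨i, by omega⟩ = P i := by
  unfold mk15
  have h : (i : ℕ) < 5 := i.2
  simp only [h, dif_pos]

theorem mk15_Q (P Q Z : Fin 5 → ℝ) (i : Fin 5) : mk15 P Q Z ⟨5 + i, by omega⟩ = Q i := by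
  unfold mk15
  have h : ¬ (5 + (i : ℕ) < 5) := by omega
  have h' : 5 + (i : ℕ) < 10 := by omega
  simp only [h, dif_neg, not_false_eq_true, h', dif_pos]
  congr 1
  apply Fin.ext
  simp

theorem mk15_Z (P Q Z : Fin 5 → ℝ) (i : Fin 5) : mk15 P Q Z ⟨10 + i, by omega⟩ = Z i := by
  unfold mk15
  have h : ¬ (10 + (i : ℕ) < 5) := by omega
  have h' : ¬ (10 + (i : ℕ) < 10) := by omega
  simp only [h, dif_neg, not_false_eq_true, h']
  congr 1
  apply Fin.ext
  simp

/-- The mass as a sum over a larger set. -/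
theorem ms_eq (α : Sph 3 → Fin 6) (p : Sph 3 →₀ ℝ) (i : Fin 6) (S : Finset (Sph 3)) (hS : p.support ⊆ S) :
    ms α p i = ∑ v ∈ S, if α v = i then p v else 0 := by
  unfold ms
  apply Finset.sum_subset hS
  intro v _ hv
  rw [Finsupp.notMem_support_iff.1 hv, ite_self]

theorem dl_eq (p p' : Sph 3 →₀ ℝ) (S : Finset (Sph 3)) (hS : p.support ⊆ S) (hS' : p'.support ⊆ S) :
    dl p p' = ∑ v ∈ S, |p v - p' v| := by
  unfold dl
  rw [Finsupp.sum_of_support_subset (p - p') (s := S) ?_ _ (by simp)]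
  · rfl
  · refine (Finsupp.support_sub).trans ?_
    exact Finset.union_subset hS hS'

theorem ms_lip (α : Sph 3 → Fin 6) (p p' : Sph 3 →₀ ℝ) (i : Fin 6) : |ms α p' i - ms α p i| ≤ dl p p' := by
  have h1 : p.support ⊆ p.support ∪ p'.support := Finset.subset_union_left
  have h2 : p'.support ⊆ p.support ∪ p'.support := Finset.subset_union_right
  rw [ms_eq α p' i _ h2, ms_eq α p i _ h1, dl_eq p p' _ h1 h2, ← Finset.sum_sub_distrib]
  refine (Finset.abs_sum_le_sum_abs _ _).trans (Finset.sum_le_sum fun v _ => ?_)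
  split_ifs
  · rw [abs_sub_comm]
  · simp

theorem ms_sum (α : Sph 3 → Fin 6) (p : Sph 3 →₀ ℝ) (hp : Pw p) : ∑ i, ms α p i = 1 := by
  unfold ms
  rw [Finset.sum_comm]
  have h : ∀ v ∈ p.support, (∑ i : Fin 6, if α v = i then p v else 0) = p v := fun v _ => by simp
  rw [Finset.sum_congr rfl h]
  exact hp.2

theorem ms_congr (α α' : Sph 3 → Fin 6) (p : Sph 3 →₀ ℝ) (hp : Pw p) (h : ∀ v, 0 < p v → α v = α' v) (i : Fin 6) :
    ms α p i = ms α' p i := by
  unfold ms
  refine Finset.sum_congr rfl fun v hv => ?_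
  rw [h v (lt_of_le_of_ne (hp.1 v) (Ne.symm (Finsupp.mem_support_iff.1 hv)))]

/-- A common point of a cluster of two near weights. -/
theorem common (β : Sph 3 → Fin 6) (q q' : Sph 3 →₀ ℝ) (hq : Pw q) (hq' : Pw q') (j : Fin 6)
    (h : dl q q' < ms β q j) : ∃ y, β y = j ∧ 0 < q y ∧ 0 < q' y := by
  by_contra hne
  push Not at hne
  have h1 : q.support ⊆ q.support ∪ q'.support := Finset.subset_union_left
  have h2 : q'.support ⊆ q.support ∪ q'.support := Finset.subset_union_right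
  rw [ms_eq β q j _ h1, dl_eq q q' _ h1 h2] at h
  refine absurd h (not_lt.2 (Finset.sum_le_sum fun v _ => ?_))
  split_ifs with hv
  · rcases (hq.1 v).eq_or_lt with h0 | h0
    · rw [← h0]
      exact abs_nonneg _
    · have h3 := hne v hv h0
      have h4 : q' v = 0 := le_antisymm h3 (hq'.1 v)
      rw [h4, sub_zero]
      exact le_abs_self _
  · exact abs_nonneg _

theorem lbA_spec (r : ℝ) (g : Iso3) (v : Sph 3) (h : ∃ i, dist (v : Eu 3) (g (aa i)) < r) :
    dist (v : Eu 3) (g (aa (lbA r g v))) < r := by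
  unfold lbA
  rw [dif_pos h]
  exact h.choose_spec

theorem lbB_spec (r : ℝ) (g : Iso3) (v : Sph 3) (h : ∃ i, dist (v : Eu 3) (g (bb i)) < r) :
    dist (v : Eu 3) (g (bb (lbB r g v))) < r := by
  unfold lbB
  rw [dif_pos h]
  exact h.choose_spec

theorem lbA_uniq (hG : SGram) (r : ℝ) (hr : r ≤ 1 / 100) (g : Iso3) (v : Sph 3) (i : Fin 6)
    (h : dist (v : Eu 3) (g (aa i)) < r) : lbA r g v = i := by
  by_contra hne
  have h1 := lbA_spec r g v ⟨i, h⟩
  have h2 : dist (aa (lbA r g v)) (aa i) < 2 * r := by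
    rw [← g.dist_map (aa (lbA r g v)) (aa i)]
    calc dist (g (aa (lbA r g v))) (g (aa i)) ≤ dist (g (aa (lbA r g v))) (v : Eu 3) + dist (v : Eu 3) (g (aa i)) :=
          dist_triangle _ _ _
      _ < 2 * r := by rw [dist_comm (g (aa (lbA r g v)))]; linarith
  have h3 := hG.2.2.2.2.2.1 _ _ hne
  linarith

theorem lbB_uniq (hG : SGram) (r : ℝ) (hr : r ≤ 1 / 100) (g : Iso3) (v : Sph 3) (i : Fin 6)
    (h : dist (v : Eu 3) (g (bb i)) < r) : lbB r g v = i := by
  by_contra hne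
  have h1 := lbB_spec r g v ⟨i, h⟩
  have h2 : dist (bb (lbB r g v)) (bb i) < 2 * r := by
    rw [← g.dist_map (bb (lbB r g v)) (bb i)]
    calc dist (g (bb (lbB r g v))) (g (bb i)) ≤ dist (g (bb (lbB r g v))) (v : Eu 3) + dist (v : Eu 3) (g (bb i)) :=
          dist_triangle _ _ _
      _ < 2 * r := by rw [dist_comm (g (bb (lbB r g v)))]; linarith
  have h3 := hG.2.2.2.2.2.2.1 _ _ hne
  linarith

/-- A bound for all six masses from a bound for five of them. -/
theorem six_bd (m : Fin 6 → ℝ) (η : ℝ) (hη : 0 < η) (hm : ∑ i, m i = 1) (h : ∀ i : Fin 5, |m i.castSucc - 1 / 6| < η)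
    (i : Fin 6) : |m i - 1 / 6| ≤ 5 * η := by
  induction i using Fin.lastCases with
  | last =>
    rw [Fin.sum_univ_castSucc] at hm
    have h0 : ∑ i : Fin 5, (m i.castSucc - 1 / 6) = ∑ i : Fin 5, m i.castSucc - 5 * (1 / 6) := by
      rw [Finset.sum_sub_distrib, Finset.sum_const, Finset.card_univ, Fintype.card_fin, nsmul_eq_mul]
      norm_num
    have h1 : m (Fin.last 5) - 1 / 6 = -∑ i : Fin 5, (m i.castSucc - 1 / 6) := by
      rw [h0]
      linarith
    rw [h1, abs_neg]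
    refine (Finset.abs_sum_le_sum_abs _ _).trans ?_
    calc ∑ i : Fin 5, |m i.castSucc - 1 / 6| ≤ ∑ _i : Fin 5, η := Finset.sum_le_sum fun i _ => (h i).le
      _ = 5 * η := by simp
  | cast i => linarith [h i]

/-- The inner product with a near vector. -/
theorem inner_near (v : Sph 3) (x y : Eu 3) (a b : ℝ) (h : ⟪(v : Eu 3), x⟫ < a) (hd : dist x y ≤ b) :
    ⟪(v : Eu 3), y⟫ < a + b := by
  have h1 : ⟪(v : Eu 3), y⟫ = ⟪(v : Eu 3), x⟫ + ⟪(v : Eu 3), y - x⟫ := by rw [inner_sub_right]; ring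
  have h2 : ⟪(v : Eu 3), y - x⟫ ≤ ‖(v : Eu 3)‖ * ‖y - x‖ := real_inner_le_norm _ _
  have h3 : ‖(v : Eu 3)‖ = 1 := mem_sphere_zero_iff_norm.1 v.2
  rw [h3, one_mul, ← dist_eq_norm, dist_comm] at h2
  linarith

/-- The point `g⁻¹ v`. -/
noncomputable def pull (g : Iso3) (v : Sph 3) : Sph 3 :=
  ⟨g.symm v, by
    rw [mem_sphere_zero_iff_norm, LinearIsometryEquiv.norm_map]
    exact mem_sphere_zero_iff_norm.1 v.2⟩

theorem pull_inner (g : Iso3) (v : Sph 3) (x : Eu 3) : ⟪(pull g v : Eu 3), x⟫ = ⟪(v : Eu 3), g x⟫ := by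
  have h := g.inner_map_map (g.symm v) x
  rw [LinearIsometryEquiv.apply_symm_apply] at h
  exact h.symm

theorem pull_dist (g : Iso3) (v : Sph 3) (x : Eu 3) : dist (pull g v : Eu 3) x = dist (v : Eu 3) (g x) := by
  have h := g.dist_map (g.symm v) x
  rw [LinearIsometryEquiv.apply_symm_apply] at h
  exact h.symm

end PersAux

open PersAux in
theorem pPers (h1 : SGram) (h2 : SQ2) (h3 : SStar) : SPers := by
  obtain ⟨C, hC, ρ₀, hρ₀, hQ⟩ := h2
  refine ⟨min ρ₀ (1 / 100), lt_min hρ₀ (by norm_num), min_le_right _ _, ?_⟩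
  intro r hr hrr
  have hrρ : r ≤ ρ₀ := hrr.trans (min_le_left _ _)
  have hr1 : r ≤ 1 / 100 := hrr.trans (min_le_right _ _)
  obtain ⟨τ, hτ, hS1, hS2⟩ := h3 r hr
  have hC0 : 0 < C := by linarith
  obtain ⟨e, he, he1, he2, he3, he4, he5⟩ : ∃ e : ℝ, 0 < e ∧ C * (e + e) ≤ ρ₀ ∧ C * (e + e) ≤ τ / 4 ∧
      C * (e + e) ≤ r / 2 ∧ e ≤ τ / 4 ∧ e ≤ 1 / 120 := by
    have hm : 0 < min ρ₀ (min (τ / 4) (r / 2)) := lt_min hρ₀ (lt_min (by linarith) (by linarith))
    refine ⟨min (min ρ₀ (min (τ / 4) (r / 2)) / (2 * C)) (min (τ / 4) (1 / 120)),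
      lt_min (div_pos hm (by linarith)) (lt_min (by linarith) (by norm_num)), ?_⟩
    have h4 : C * (min (min ρ₀ (min (τ / 4) (r / 2)) / (2 * C)) (min (τ / 4) (1 / 120)) +
        min (min ρ₀ (min (τ / 4) (r / 2)) / (2 * C)) (min (τ / 4) (1 / 120))) ≤ min ρ₀ (min (τ / 4) (r / 2)) := by
      have h5 := min_le_left (min ρ₀ (min (τ / 4) (r / 2)) / (2 * C)) (min (τ / 4) (1 / 120))
      calc C * (min (min ρ₀ (min (τ / 4) (r / 2)) / (2 * C)) (min (τ / 4) (1 / 120)) +
            min (min ρ₀ (min (τ / 4) (r / 2)) / (2 * C)) (min (τ / 4) (1 / 120)))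
          ≤ C * (min ρ₀ (min (τ / 4) (r / 2)) / (2 * C) + min ρ₀ (min (τ / 4) (r / 2)) / (2 * C)) := by gcongr
        _ = min ρ₀ (min (τ / 4) (r / 2)) := by field_simp; ring
    exact ⟨h4.trans (min_le_left _ _), h4.trans ((min_le_right _ _).trans (min_le_left _ _)),
      h4.trans ((min_le_right _ _).trans (min_le_right _ _)), (min_le_right _ _).trans (min_le_left _ _),
      (min_le_right _ _).trans (min_le_right _ _)⟩
  refine ⟨e, e, 1 / 30, he, he, by norm_num, ?_⟩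
  intro g p q hp hq hpq hF hk
  obtain ⟨hF1, hF2, hF3, hF4⟩ := hF
  obtain ⟨g', hg1, hg2⟩ := hQ (lbA r g) (lbB r g) g p q e e hp hq he he.le he1
    (fun v hv => (lbA_spec r g v (hF1 v hv)).le.trans hrρ) (fun v hv => (lbB_spec r g v (hF2 v hv)).le.trans hrρ)
    (fun i => by have := (abs_lt.1 (hF3 i)).1; linarith) (fun j => by have := (abs_lt.1 (hF4 j)).1; linarith)
    hpq (fun k => by
      have h := hk ⟨10 + k, by omega⟩
      unfold kp at h
      rw [mk15_Z] at h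
      exact h.le)
  -- the labels agree
  have hlA : ∀ v, 0 < p v → lbA r g v = lbA r g' v := fun v hv =>
    (lbA_uniq h1 r hr1 g' v _ (lt_of_le_of_lt (hg1 v hv) (by linarith))).symm
  have hlB : ∀ v, 0 < q v → lbB r g v = lbB r g' v := fun v hv =>
    (lbB_uniq h1 r hr1 g' v _ (lt_of_le_of_lt (hg2 v hv) (by linarith))).symm
  have hmA : ∀ i, |ms (lbA r g') p i - 1 / 6| ≤ 5 * e := by
    intro i
    rw [← ms_congr _ _ p hp hlA]
    refine six_bd _ e he (ms_sum _ p hp) (fun k => ?_) i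
    have h := hk ⟨k, by omega⟩
    unfold kp at h
    rw [mk15_P] at h
    exact h
  have hmB : ∀ i, |ms (lbB r g') q i - 1 / 6| ≤ 5 * e := by
    intro i
    rw [← ms_congr _ _ q hq hlB]
    refine six_bd _ e he (ms_sum _ q hq) (fun k => ?_) i
    have h := hk ⟨5 + k, by omega⟩
    unfold kp at h
    rw [mk15_Q] at h
    exact h
  refine ⟨g', fun p' q' hp' hq' hpq' hd1 hd2 => ?_⟩
  refine ⟨?_, ?_, ?_, ?_⟩
  · intro v hv
    have h4 : ∀ j, ⟪(pull g' v : Eu 3), bb j⟫ ≤ cs + τ := by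
      intro j
      obtain ⟨y, hy1, hy2, hy3⟩ := common (lbB r g') q q' hq hq' j (by
        have := (abs_le.1 (hmB j)).1
        linarith)
      have h5 := hg2 y hy2
      rw [hlB y hy2, hy1] at h5
      rw [pull_inner]
      have h6 := inner_near v y (g' (bb j)) (cs + e) (C * (e + e)) (hpq' v y hv hy3) h5
      linarith
    obtain ⟨i, hi⟩ := hS1 _ h4
    exact ⟨i, by rwa [pull_dist] at hi⟩
  · intro v hv
    have h4 : ∀ j, ⟪(pull g' v : Eu 3), aa j⟫ ≤ cs + τ := by
      intro j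
      obtain ⟨y, hy1, hy2, hy3⟩ := common (lbA r g') p p' hp hp' j (by
        have := (abs_le.1 (hmA j)).1
        linarith)
      have h5 := hg1 y hy2
      rw [hlA y hy2, hy1] at h5
      rw [pull_inner]
      have h7 := hpq' y v hy3 hv
      rw [real_inner_comm] at h7
      have h6 := inner_near v y (g' (aa j)) (cs + e) (C * (e + e)) h7 h5
      linarith
    obtain ⟨i, hi⟩ := hS2 _ h4
    exact ⟨i, by rwa [pull_dist] at hi⟩
  · intro i
    have h4 := ms_lip (lbA r g') p p' i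
    have h5 := hmA i
    rw [abs_le] at h4 h5
    rw [abs_lt]
    constructor <;> linarith
  · intro i
    have h4 := ms_lip (lbB r g') q q' i
    have h5 := hmB i
    rw [abs_le] at h4 h5
    rw [abs_lt]
    constructor <;> linarith

end Pool.Agent.MPaafd8aB
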