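import Pool.Agent.Lib.MP_aafd8a_gt.B.SpecP

/-!
# MP_aafd8a_gt, block (B): the bottom
-/

set_option autoImplicit false

open Topology RealInnerProductSpace

open scoped Classical

namespace Pool.Agent.MPaafd8aB

open Pool.Agent.MPaafd8a

namespace PhiAux

theorem mk15_P (P Q Z : Fin 5 → ℝ) (i : Fin 5) : mk15 P Q Z ⟨i, by omega⟩ = P i := by
  unfold mk15
  have h : (i : ℕ) < 5 := i.2
  simp only [h, dif_pos]

theorem mk15_Q (P Q Z : Fin 5 → ℝ) (i : Fin 5) : mk15 P Q Z ⟨5 + i, by omega⟩ = Q i := by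
  unfold mk15
  have h : ¬ (5 + (i : ℕ) < 5) := by omega
  have h' : 5 + (i : ℕ) < 10 := by omega
  simp only [h, dif_neg, not_false_eq_true, h', dif_pos]
  congr 1
  apply Fin.ext
  simp

theorem mk15_Z (P Q Z : Fin 5 → ℝ) (i : Fin 5) : mk15 P Q Z ⟨10 + i, by omega⟩ = Z i := by
  unfold mk15
  have h : ¬ (10 + (i : ℕ) < 5) := by omega
  have h' : ¬ (10 + (i : ℕ) < 10) := by omega
  simp only [h, dif_neg, not_false_eq_true, h']
  congr 1
  apply Fin.ext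
  simp

/-- Case distinction for an index. -/
theorem idx (k : Fin 15) : (∃ i : Fin 5, k = ⟨i, by omega⟩) ∨ (∃ i : Fin 5, k = ⟨5 + i, by omega⟩) ∨
    ∃ i : Fin 5, k = ⟨10 + i, by omega⟩ := by
  obtain ⟨k, hk⟩ := k
  rcases lt_or_ge k 5 with h | h
  · exact Or.inl ⟨⟨k, h⟩, rfl⟩
  · rcases lt_or_ge k 10 with h' | h'
    · refine Or.inr (Or.inl ⟨⟨k - 5, by omega⟩, ?_⟩)
      apply Fin.ext
      simp only
      omega
    · refine Or.inr (Or.inr ⟨⟨k - 10, by omega⟩, ?_⟩)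
      apply Fin.ext
      simp only
      omega

theorem mk15_cont {X : Type} [TopologicalSpace X] (P Q Z : X → Fin 5 → ℝ) (hP : Continuous P) (hQ : Continuous Q)
    (hZ : Continuous Z) : Continuous fun x => mk15 (P x) (Q x) (Z x) := by
  refine continuous_pi fun k => ?_
  rcases idx k with ⟨i, rfl⟩ | ⟨i, rfl⟩ | ⟨i, rfl⟩
  · simp only [mk15_P]
    exact (continuous_apply i).comp hP
  · simp only [mk15_Q]
    exact (continuous_apply i).comp hQ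
  · simp only [mk15_Z]
    exact (continuous_apply i).comp hZ

theorem mk15_bd (P Q Z : Fin 5 → ℝ) (η : ℝ) (hP : ∀ i, |P i| < η) (hQ : ∀ i, |Q i| < η) (hZ : ∀ i, |Z i| < η)
    (k : Fin 15) : |mk15 P Q Z k| < η := by
  rcases idx k with ⟨i, rfl⟩ | ⟨i, rfl⟩ | ⟨i, rfl⟩
  · rw [mk15_P]; exact hP i
  · rw [mk15_Q]; exact hQ i
  · rw [mk15_Z]; exact hZ i

theorem zz_cont : Continuous (zz : (Fin 6 → Eu 3) → Fin 5 → ℝ) := by
  have h : ∀ i : Fin 6, Continuous fun v : Fin 6 → Eu 3 => v i := fun i => continuous_apply i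
  refine continuous_pi fun k => ?_
  fin_cases k
  · exact ((h 4).inner (h 5)).add continuous_const
  · exact ((h 4).add (h 5)).inner ((h 0).sub (h 2))
  · exact ((h 4).add (h 5)).inner ((h 1).sub (h 3))
  · exact ((h 4).sub (h 5)).inner ((h 0).sub (h 2))
  · exact ((h 4).sub (h 5)).inner ((h 1).sub (h 3))

/-- Difference of two inner products. -/
theorem inner_diff (a b a' b' : Eu 3) (s t m m' : ℝ) (h1 : ‖a' - a‖ ≤ s) (h2 : ‖b' - b‖ ≤ t) (h3 : ‖b'‖ ≤ m)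
    (h4 : ‖a‖ ≤ m') : |⟪a', b'⟫ - ⟪a, b⟫| ≤ s * m + m' * t := by
  have e : ⟪a', b'⟫ - ⟪a, b⟫ = ⟪a' - a, b'⟫ + ⟪a, b' - b⟫ := by
    rw [inner_sub_left, inner_sub_right]; ring
  rw [e]
  refine (abs_add_le _ _).trans (add_le_add ?_ ?_)
  · exact (abs_real_inner_le_norm _ _).trans
      (mul_le_mul h1 h3 (norm_nonneg _) ((norm_nonneg _).trans h1))
  · exact (abs_real_inner_le_norm _ _).trans
      (mul_le_mul h4 h2 (norm_nonneg _) ((norm_nonneg _).trans h4))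

theorem zz_near (v w : Fin 6 → Eu 3) (θ : ℝ) (hθ1 : θ ≤ 1) (hv : ∀ i, ‖v i‖ = 1)
    (hw : ∀ i, ‖w i - v i‖ ≤ θ) (k : Fin 5) : |zz w k - zz v k| ≤ 20 * θ := by
  have hθ : 0 ≤ θ := (norm_nonneg _).trans (hw 0)
  have hw2 : ∀ i, ‖w i‖ ≤ 2 := fun i => by
    have : w i = v i + (w i - v i) := by abel
    rw [this]
    exact (norm_add_le _ _).trans (by rw [hv i]; linarith [hw i])
  have hadd : ∀ i j, ‖(w i + w j) - (v i + v j)‖ ≤ 2 * θ := fun i j => by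
    have : (w i + w j) - (v i + v j) = (w i - v i) + (w j - v j) := by abel
    rw [this]
    exact (norm_add_le _ _).trans (by linarith [hw i, hw j])
  have hsub : ∀ i j, ‖(w i - w j) - (v i - v j)‖ ≤ 2 * θ := fun i j => by
    have : (w i - w j) - (v i - v j) = (w i - v i) - (w j - v j) := by abel
    rw [this]
    exact (norm_sub_le _ _).trans (by linarith [hw i, hw j])
  have hs4 : ∀ i j, ‖w i - w j‖ ≤ 4 := fun i j => (norm_sub_le _ _).trans (by linarith [hw2 i, hw2 j])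
  have hva : ∀ i j, ‖v i + v j‖ ≤ 2 := fun i j => (norm_add_le _ _).trans (by rw [hv i, hv j]; norm_num)
  have hvs : ∀ i j, ‖v i - v j‖ ≤ 2 := fun i j => (norm_sub_le _ _).trans (by rw [hv i, hv j]; norm_num)
  fin_cases k
  · change |(⟪w 4, w 5⟫ + cs) - (⟪v 4, v 5⟫ + cs)| ≤ 20 * θ
    have e : (⟪w 4, w 5⟫ + cs) - (⟪v 4, v 5⟫ + cs) = ⟪w 4, w 5⟫ - ⟪v 4, v 5⟫ := by ring
    rw [e]
    exact (inner_diff (v 4) (v 5) (w 4) (w 5) θ θ 2 1 (hw 4) (hw 5) (hw2 5) (hv 4).le).trans (by linarith)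
  · change |⟪w 4 + w 5, w 0 - w 2⟫ - ⟪v 4 + v 5, v 0 - v 2⟫| ≤ 20 * θ
    exact (inner_diff _ _ _ _ _ _ 4 2 (hadd 4 5) (hsub 0 2) (hs4 0 2) (hva 4 5)).trans (by linarith)
  · change |⟪w 4 + w 5, w 1 - w 3⟫ - ⟪v 4 + v 5, v 1 - v 3⟫| ≤ 20 * θ
    exact (inner_diff _ _ _ _ _ _ 4 2 (hadd 4 5) (hsub 1 3) (hs4 1 3) (hva 4 5)).trans (by linarith)
  · change |⟪w 4 - w 5, w 0 - w 2⟫ - ⟪v 4 - v 5, v 0 - v 2⟫| ≤ 20 * θ
    exact (inner_diff _ _ _ _ _ _ 4 2 (hsub 4 5) (hsub 0 2) (hs4 0 2) (hvs 4 5)).trans (by linarith)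
  · change |⟪w 4 - w 5, w 1 - w 3⟫ - ⟪v 4 - v 5, v 1 - v 3⟫| ≤ 20 * θ
    exact (inner_diff _ _ _ _ _ _ 4 2 (hsub 4 5) (hsub 1 3) (hs4 1 3) (hvs 4 5)).trans (by linarith)

/-- The inner product of two points near two given ones. -/
theorem inner_two (v w x y : Sph 3) (a θ : ℝ) (h : ⟪(x : Eu 3), (y : Eu 3)⟫ ≤ a) (hv : dist (v : Eu 3) x < θ)
    (hw : dist (w : Eu 3) y < θ) : ⟪(v : Eu 3), (w : Eu 3)⟫ < a + 2 * θ := by
  have h1 : ⟪(v : Eu 3), (w : Eu 3)⟫ = ⟪(x : Eu 3), (y : Eu 3)⟫ + (⟪(v : Eu 3) - x, (y : Eu 3)⟫ +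
      ⟪(v : Eu 3), (w : Eu 3) - y⟫) := by
    rw [inner_sub_left, inner_sub_right]; ring
  have hvn : ‖(v : Eu 3)‖ = 1 := mem_sphere_zero_iff_norm.1 v.2
  have hyn : ‖(y : Eu 3)‖ = 1 := mem_sphere_zero_iff_norm.1 y.2
  have h2 := real_inner_le_norm ((v : Eu 3) - x) (y : Eu 3)
  have h3 := real_inner_le_norm (v : Eu 3) ((w : Eu 3) - y)
  rw [hyn, mul_one, ← dist_eq_norm] at h2
  rw [hvn, one_mul, ← dist_eq_norm] at h3
  linarith

theorem xP_cont : Continuous fun x : Ball 15 => xP x.1 :=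
  continuous_pi fun _ => (continuous_apply _).comp continuous_subtype_val

theorem xQ_cont : Continuous fun x : Ball 15 => xQ x.1 :=
  continuous_pi fun _ => (continuous_apply _).comp continuous_subtype_val

/-- A positive mass. -/
theorem pos_mass (m : Fin 6 → ℝ) (h : ∑ i, m i = 1) : ∃ i, 0 < m i := by
  by_contra hne
  push Not at hne
  have : ∑ i, m i ≤ 0 := Finset.sum_nonpos fun i _ => hne i
  linarith

/-- The choice of the small number. -/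
theorem small (C c₀ r₀ r a b c₂ d : ℝ) (hc₀ : 0 < c₀) (hr₀ : 0 < r₀) (hr : 0 < r) (ha : 0 < a) (hb : b < d) (hd : d < c₂) :
    ∃ ρ : ℝ, 0 < ρ ∧ ρ ≤ r₀ ∧ C * ρ + ρ ^ 4 < r ∧ d + (C + 5) * ρ ^ 4 < c₂ ∧ b < d - c₀ * ρ ^ 3 / 2 ∧ 4 * ρ < c₀ ∧
      2 * (C + 100) * ρ < a := by
  have h1 : ∀ᶠ ρ in 𝓝 (0 : ℝ), ρ < r₀ := gt_mem_nhds hr₀
  have h2 : ∀ᶠ ρ in 𝓝 (0 : ℝ), C * ρ + ρ ^ 4 < r :=
    (show ContinuousAt (fun ρ : ℝ => C * ρ + ρ ^ 4) 0 by fun_prop).eventually_lt continuousAt_const (by simpa using hr)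
  have h3 : ∀ᶠ ρ in 𝓝 (0 : ℝ), d + (C + 5) * ρ ^ 4 < c₂ :=
    (show ContinuousAt (fun ρ : ℝ => d + (C + 5) * ρ ^ 4) 0 by fun_prop).eventually_lt continuousAt_const
      (by simpa using hd)
  have h4 : ∀ᶠ ρ in 𝓝 (0 : ℝ), b < d - c₀ * ρ ^ 3 / 2 :=
    continuousAt_const.eventually_lt (show ContinuousAt (fun ρ : ℝ => d - c₀ * ρ ^ 3 / 2) 0 by fun_prop)
      (by simpa using hb)
  have h5 : ∀ᶠ ρ in 𝓝 (0 : ℝ), 4 * ρ < c₀ :=
    (show ContinuousAt (fun ρ : ℝ => 4 * ρ) 0 by fun_prop).eventually_lt continuousAt_const (by simpa using hc₀)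
  have h6 : ∀ᶠ ρ in 𝓝 (0 : ℝ), 2 * (C + 100) * ρ < a :=
    (show ContinuousAt (fun ρ : ℝ => 2 * (C + 100) * ρ) 0 by fun_prop).eventually_lt continuousAt_const
      (by simpa using ha)
  have h7 : ∀ᶠ ρ in 𝓝[>] (0 : ℝ), ρ < r₀ ∧ C * ρ + ρ ^ 4 < r ∧ d + (C + 5) * ρ ^ 4 < c₂ ∧ b < d - c₀ * ρ ^ 3 / 2 ∧
      4 * ρ < c₀ ∧ 2 * (C + 100) * ρ < a :=
    nhdsWithin_le_nhds (h1.and (h2.and (h3.and (h4.and (h5.and h6)))))
  obtain ⟨ρ, hρ, h0⟩ := (h7.and self_mem_nhdsWithin).exists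
  exact ⟨ρ, h0, hρ.1.le, hρ.2⟩

end PhiAux

open PhiAux in
theorem pPhi (h1 : SGram) (h2 : SLb) (h3 : STru) (h4 : SFam) (h5 : SClu) : SPhi := by
  intro r η₁ a₀ c₁ c₂ hr hr1 hη ha hη20 ha3 hc1 hc2
  obtain ⟨T1, T2, T3, T4, T5, T6, -⟩ := h3
  obtain ⟨C, c₀, r₀, hC, hc₀, hr₀, hr₀1, hfam⟩ := h4
  have hcs : 1 / 4 < cs := h1.2.2.2.2.2.2.2.1
  obtain ⟨ρ, hρ, hρr, s1, s2, s3, s4, s5⟩ := small C c₀ r₀ r (min a₀ η₁) (max c₁ 0) c₂ cs hc₀ hr₀ hr (lt_min ha hη)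
    (max_lt hc1 (by linarith)) hc2
  obtain ⟨Xf, Yf, hX, hY, dX, dY, b1, b2, hz⟩ := hfam ρ hρ hρr
  have hρ1 : ρ ≤ 1 := hρr.trans hr₀1
  have hθ : 0 < ρ ^ 4 := by positivity
  have hθ1 : ρ ^ 4 ≤ 1 := pow_le_one₀ hρ.le hρ1
  have hp : -1 < cs + (C + 4) * ρ ^ 4 := by
    have : 0 < (C + 4) * ρ ^ 4 := mul_pos (by linarith) hθ
    linarith
  set μ : Fin 6 → Ball 15 → ℝ := fun i x => tru (six (xP x.1)) i with hμ
  set μ' : Fin 6 → Ball 15 → ℝ := fun i x => tru (six (xQ x.1)) i with hμ'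
  have cμ : ∀ i, Continuous (μ i) := fun i => (T3 i).comp xP_cont
  have cμ' : ∀ i, Continuous (μ' i) := fun i => (T3 i).comp xQ_cont
  obtain ⟨Φp, β, hβ, dβ, sp, mp, bp⟩ := h5 r (ρ ^ 4) (cs + (C + 4) * ρ ^ 4) hp
    (lbA r (LinearIsometryEquiv.refl ℝ (Eu 3))) aa hθ
    (fun v i hv => (h2 r (LinearIsometryEquiv.refl ℝ (Eu 3)) v hr1).1 i hv) (Ball 15) Xf μ hX cμ
    (fun i x => T1 _ i) (fun x => T2 _) (fun i x => by linarith [dX i x]) (fun x => by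
      obtain ⟨j, hj⟩ := pos_mass (fun j => μ' j x) (T2 _)
      exact ⟨Yf j x, fun i hi => (b1 x i j hi hj).trans (by linarith)⟩)
  obtain ⟨Φq, β', hβ', dβ', sq, mq, bq⟩ := h5 r (ρ ^ 4) (cs + (C + 4) * ρ ^ 4) hp
    (lbB r (LinearIsometryEquiv.refl ℝ (Eu 3))) bb hθ
    (fun v i hv => (h2 r (LinearIsometryEquiv.refl ℝ (Eu 3)) v hr1).2 i hv) (Ball 15) Yf μ' hY cμ'
    (fun i x => T1 _ i) (fun x => T2 _) (fun i x => by linarith [dY i x]) (fun x => by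
      obtain ⟨j, hj⟩ := pos_mass (fun j => μ j x) (T2 _)
      refine ⟨Xf j x, fun i hi => ?_⟩
      rw [real_inner_comm]
      exact (b1 x j i hj hi).trans (by linarith))
  have hsP : ∀ x v, 0 < (Φp x).1 v → ∃ i, dist (v : Eu 3) (aa i) < r := by
    intro x v hv
    obtain ⟨i, -, hi⟩ := sp x v hv
    exact ⟨i, (dist_triangle _ (Xf i x : Eu 3) _).trans_lt (by linarith [dX i x])⟩
  have hsQ : ∀ x v, 0 < (Φq x).1 v → ∃ i, dist (v : Eu 3) (bb i) < r := by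
    intro x v hv
    obtain ⟨i, -, hi⟩ := sq x v hv
    exact ⟨i, (dist_triangle _ (Yf i x : Eu 3) _).trans_lt (by linarith [dY i x])⟩
  have hzz : ∀ x k, |zz (fun i => β i x) k - ρ * xZ x.1 k| ≤ C * ρ ^ 2 + 20 * ρ ^ 4 := by
    intro x k
    have e1 := hz x k
    have e2 := zz_near (fun i => (Xf i x : Eu 3)) (fun i => β i x) (ρ ^ 4) hθ1
      (fun i => mem_sphere_zero_iff_norm.1 (Xf i x).2) (fun i => by rw [← dist_eq_norm]; exact dβ i x) k
    have e3 : zz (fun i => β i x) k - ρ * xZ x.1 k = (zz (fun i => β i x) k - zz (fun i => (Xf i x : Eu 3)) k) +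
        (zz (fun i => (Xf i x : Eu 3)) k - ρ * xZ x.1 k) := by ring
    rw [e3]
    exact (abs_add_le _ _).trans (by linarith)
  have hk : Continuous fun x : Ball 15 => mk15 (fun i : Fin 5 => μ i.castSucc x - 1 / 6)
      (fun i : Fin 5 => μ' i.castSucc x - 1 / 6) (zz fun i => β i x) := by
    refine mk15_cont _ _ _ ?_ ?_ ?_
    · exact continuous_pi fun i => (cμ _).sub continuous_const
    · exact continuous_pi fun i => (cμ' _).sub continuous_const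
    · exact zz_cont.comp (continuous_pi fun i => hβ i)
  have s5a : 2 * (C + 100) * ρ < a₀ := s5.trans_le (min_le_left _ _)
  have s5b : 2 * (C + 100) * ρ < η₁ := s5.trans_le (min_le_right _ _)
  have hρ2 : ρ ^ 2 ≤ ρ := by nlinarith
  have hρ4 : ρ ^ 4 ≤ ρ ^ 2 := by
    have : ρ ^ 4 = ρ ^ 2 * ρ ^ 2 := by ring
    rw [this]
    have : ρ ^ 2 ≤ 1 := by nlinarith
    nlinarith [sq_nonneg ρ]
  refine ⟨cs - c₀ * ρ ^ 3 / 2, cs + (C + 4) * ρ ^ 4, hp, (le_max_left _ _).trans_lt s3, (le_max_right _ _).trans_lt s3,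
    ?_, ?_, ?_, Φp, Φq, ⟨_, hk⟩, ?_, ?_, hsP, hsQ, ?_, ?_, ?_⟩
  · have : 0 < c₀ * ρ ^ 3 / 2 := by positivity
    linarith
  · have : 0 < (C + 4) * ρ ^ 4 := mul_pos (by linarith) hθ
    linarith
  · linarith
  · intro x v w hv hw
    obtain ⟨i, hi, di⟩ := sp x v hv
    obtain ⟨j, hj, dj⟩ := sq x w hw
    have e := inner_two v w (Xf i x) (Yf j x) _ _ (b1 x i j hi hj) di dj
    linarith
  · intro x hx v w hv hw
    obtain ⟨i, hi, di⟩ := sp x v hv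
    obtain ⟨j, hj, dj⟩ := sq x w hw
    have e := inner_two v w (Xf i x) (Yf j x) _ _ (b2 x i j hx hi hj) di dj
    have e2 : 2 * ρ ^ 4 ≤ c₀ * ρ ^ 3 / 2 := by
      have : 0 < ρ ^ 3 := by positivity
      nlinarith
    linarith
  · intro x hF
    obtain ⟨-, -, hm, -⟩ := hF
    change kp r (LinearIsometryEquiv.refl ℝ (Eu 3)) (Φp x).1 (Φq x).1 =
      mk15 (fun i : Fin 5 => μ i.castSucc x - 1 / 6) (fun i : Fin 5 => μ' i.castSucc x - 1 / 6) (zz fun i => β i x)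
    unfold kp
    have e1 : (fun i : Fin 5 => ms (lbA r (LinearIsometryEquiv.refl ℝ (Eu 3))) (Φp x).1 i.castSucc - 1 / 6) =
        fun i : Fin 5 => μ i.castSucc x - 1 / 6 := by
      funext i
      rw [mp]
    have e2 : (fun i : Fin 5 => ms (lbB r (LinearIsometryEquiv.refl ℝ (Eu 3))) (Φq x).1 i.castSucc - 1 / 6) =
        fun i : Fin 5 => μ' i.castSucc x - 1 / 6 := by
      funext i
      rw [mq]
    have e3 : bc (lbA r (LinearIsometryEquiv.refl ℝ (Eu 3))) (Φp x).1 = fun i => β i x := by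
      funext i
      refine bp x i ?_
      have h6 := hm i
      rw [mp] at h6
      have := (abs_lt.1 h6).1
      linarith
    rw [e1, e2, e3]
  · intro x hx
    have hx2 : 2 * a₀ ≤ 1 / 100 := by linarith
    have hcoord : ∀ k, |x.1 k| ≤ 2 * a₀ := fun k => (norm_le_pi_norm x.1 k).trans hx
    have hP : ∀ i, |μ i x - 1 / 6| ≤ 20 * a₀ := fun i =>
      (T6 (xP x.1) (2 * a₀) hx2 (fun i => hcoord _) i).trans (by linarith)
    have hQ : ∀ i, |μ' i x - 1 / 6| ≤ 20 * a₀ := fun i =>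
      (T6 (xQ x.1) (2 * a₀) hx2 (fun i => hcoord _) i).trans (by linarith)
    refine ⟨⟨fun v hv => hsP x v hv, fun v hv => hsQ x v hv, ?_, ?_⟩, ?_⟩
    · intro i
      rw [mp]
      exact (hP i).trans_lt (by linarith)
    · intro i
      rw [mq]
      exact (hQ i).trans_lt (by linarith)
    · intro k
      refine mk15_bd _ _ _ η₁ (fun i => (hP _).trans_lt hη20) (fun i => (hQ _).trans_lt hη20) (fun i => ?_) k
      have e1 := hzz x i
      have e2 : |xZ x.1 i| ≤ 1 := by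
        have := hcoord ⟨10 + i, by omega⟩
        change |x.1 ⟨10 + i, by omega⟩| ≤ 1
        linarith
      rw [abs_le] at e1 e2
      have e3 : ρ * xZ x.1 i ≤ ρ := by nlinarith
      have e4 : -ρ ≤ ρ * xZ x.1 i := by nlinarith
      have e5 : C * ρ ^ 2 ≤ C * ρ := by nlinarith
      have e6 : ρ ^ 4 ≤ ρ := hρ4.trans hρ2
      have e7 : 0 ≤ C * ρ := mul_nonneg (by linarith) hρ.le
      rw [abs_lt]
      constructor <;> linarith
  · intro x s hx hs hkx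
    have hkx' : mk15 (fun i : Fin 5 => μ i.castSucc x - 1 / 6) (fun i : Fin 5 => μ' i.castSucc x - 1 / 6)
        (zz fun i => β i x) = -(s • x.1) := hkx
    have hxP : xP x.1 = 0 := by
      refine T5 (xP x.1) s hs fun i => ?_
      have := congrFun hkx' ⟨i, by omega⟩
      rw [mk15_P] at this
      exact this
    have hxQ : xQ x.1 = 0 := by
      refine T5 (xQ x.1) s hs fun i => ?_
      have := congrFun hkx' ⟨5 + i, by omega⟩
      rw [mk15_Q] at this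
      exact this
    obtain ⟨k, hk1⟩ : ∃ k, a₀ ≤ |x.1 k| := by
      by_contra hne
      push Not at hne
      exact absurd hx (not_le.2 ((pi_norm_lt_iff ha).2 hne))
    rcases idx k with ⟨i, rfl⟩ | ⟨i, rfl⟩ | ⟨i, rfl⟩
    · have : x.1 ⟨i, by omega⟩ = 0 := congrFun hxP i
      rw [this, abs_zero] at hk1
      linarith
    · have : x.1 ⟨5 + i, by omega⟩ = 0 := congrFun hxQ i
      rw [this, abs_zero] at hk1
      linarith
    · have e1 := congrFun hkx' ⟨10 + i, by omega⟩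
      rw [mk15_Z] at e1
      have e2 : zz (fun i => β i x) i = -(s * xZ x.1 i) := e1
      have e3 := hzz x i
      rw [e2] at e3
      have e4 : -(s * xZ x.1 i) - ρ * xZ x.1 i = -((s + ρ) * xZ x.1 i) := by ring
      have e5 : a₀ ≤ |xZ x.1 i| := hk1
      rw [e4, abs_neg, abs_mul, abs_of_nonneg (by linarith : 0 ≤ s + ρ)] at e3
      have e6 : ρ * a₀ ≤ (s + ρ) * |xZ x.1 i| := mul_le_mul (by linarith) e5 ha.le (by linarith)
      have e7 : ρ * a₀ ≤ ρ * ((C + 20) * ρ) := by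
        have e9 : ρ * ((C + 20) * ρ) = C * ρ ^ 2 + 20 * ρ ^ 2 := by ring
        rw [e9]
        linarith
      have e8 : a₀ ≤ (C + 20) * ρ := le_of_mul_le_mul_left e7 hρ
      have e10 : (C + 20) * ρ ≤ 2 * (C + 100) * ρ := by gcongr; linarith
      linarith

end Pool.Agent.MPaafd8aB
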