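import Pool.Agent.Lib.MP_aafd8a_gt.B.SpecD

/-!
# MP_aafd8a_gt, block (B): the duality of the two configurations

`pPol (h1 : SVv) : SPol`.  In weighted coordinates the linear constraints bound `1 = ‖v‖ ^ 2` by a quadratic polynomial in
the third coordinate which is `≤ 1` between its two zeros `-1` and `2 √2 - 2` (up to sign), so all inequalities are equalities.
-/

set_option autoImplicit false

open Topology RealInnerProductSpace

open scoped Classical

namespace Pool.Agent.MPaafd8aB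

open Pool.Agent.MPaafd8a

/-- The quadratic polynomial. -/
private lemma pol_core {s t a b : ℝ} (hs : s ^ 2 = 2) (h1 : 1.41 < s) (h2 : s < 1.42)
    (ha : (5 - 3 * s) ^ 2 * a ≤ 2 * (1 - s / 2) ^ 2 * (1 + t) ^ 2)
    (hb : (1 - s / 4) ^ 2 * b ≤ ((1 - s / 2) - s / 4 * t) ^ 2)
    (hn : (5 - 3 * s) * a + s / 4 * t ^ 2 + (1 - s / 4) * b = 1) (ht1 : -1 ≤ t) (ht2 : t ≤ 2 * s - 2) :
    t = -1 ∨ t = 2 * s - 2 := by
  have hα : 0 < 5 - 3 * s := by linarith
  have hγ : 0 < 1 - s / 4 := by linarith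
  have e1 := mul_le_mul_of_nonneg_left ha hγ.le
  have e2 := mul_le_mul_of_nonneg_left hb hα.le
  have e3 : (5 - 3 * s) / 2 * ((t + 1) * (t - (2 * s - 2))) =
      (1 - s / 4) * (2 * (1 - s / 2) ^ 2 * (1 + t) ^ 2) + (5 - 3 * s) * (((1 - s / 2) - s / 4 * t) ^ 2) +
        (5 - 3 * s) * (s / 4) * (1 - s / 4) * t ^ 2 - (5 - 3 * s) * (1 - s / 4) := by
    linear_combination (-3 / 2 - 7 / 4 * t - 1 / 4 * t ^ 2 + 7 / 8 * s + s * t + 1 / 8 * s * t ^ 2) * hs
  have e4 : (5 - 3 * s) * (1 - s / 4) * ((5 - 3 * s) * a + s / 4 * t ^ 2 + (1 - s / 4) * b) =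
      (5 - 3 * s) * (1 - s / 4) := by rw [hn, mul_one]
  have e5 : 0 ≤ (5 - 3 * s) / 2 * ((t + 1) * (t - (2 * s - 2))) := by
    rw [e3]; linarith
  have e6 : 0 ≤ (t + 1) * (t - (2 * s - 2)) := nonneg_of_mul_nonneg_right e5 (by linarith)
  have e7 : (t + 1) * (t - (2 * s - 2)) ≤ 0 := mul_nonpos_of_nonneg_of_nonpos (by linarith) (by linarith)
  rcases mul_eq_zero.1 (le_antisymm e7 e6) with h | h
  · left; linarith
  · right; linarith

/-- First part in coordinates. -/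
private lemma pol_one {s x0 x1 x2 x3 : ℝ} (hs : s ^ 2 = 2) (h1 : 1.41 < s) (h2 : s < 1.42)
    (n : (5 - 3 * s) * (x0 * x0 + x1 * x1) + s / 4 * (x2 * x2) + (1 - s / 4) * (x3 * x3) = 1)
    (hA : (5 - 3 * s) * (s / 2) * (|x0| + |x1|) ≤ (1 - s / 2) * (1 + x2))
    (hB : (1 - s / 4) * |x3| ≤ (1 - s / 2) - s / 4 * x2) :
    (x2 = -1 ∧ x0 = 0 ∧ x1 = 0 ∧ (x3 = 1 ∨ x3 = -1)) ∨
    (x2 = 2 * s - 2 ∧ x3 = 0 ∧ ((x0 = 0 ∧ (x1 = 1 ∨ x1 = -1)) ∨ (x1 = 0 ∧ (x0 = 1 ∨ x0 = -1)))) := by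
  have hα : 0 < 5 - 3 * s := by linarith
  have hγ : 0 < 1 - s / 4 := by linarith
  have hc : 0 < 1 - s / 2 := by linarith
  have hs0 : 0 < s := by linarith
  have a0 := abs_nonneg x0
  have a1 := abs_nonneg x1
  have a3 := abs_nonneg x3
  have hP : 0 ≤ (5 - 3 * s) * (s / 2) * (|x0| + |x1|) := by positivity
  have hQ : 0 ≤ (1 - s / 4) * |x3| := by positivity
  have ht1 : -1 ≤ x2 := by
    have := nonneg_of_mul_nonneg_right (hP.trans hA) hc
    linarith
  have hcc : s / 4 * (2 * s - 2) = 1 - s / 2 := by linear_combination (1 / 2) * hs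
  have ht2 : x2 ≤ 2 * s - 2 := by
    have h3 : 0 ≤ s / 4 * ((2 * s - 2) - x2) := by rw [mul_sub, hcc]; exact hQ.trans hB
    have := nonneg_of_mul_nonneg_right h3 (by linarith)
    linarith
  have e1 := pow_le_pow_left₀ hP hA 2
  have e2 := pow_le_pow_left₀ hQ hB 2
  have hA2 : x0 * x0 + x1 * x1 ≤ (|x0| + |x1|) ^ 2 := by
    have := mul_nonneg a0 a1
    have q0 := abs_mul_abs_self x0
    have q1 := abs_mul_abs_self x1
    nlinarith
  have ha : (5 - 3 * s) ^ 2 * (x0 * x0 + x1 * x1) ≤ 2 * (1 - s / 2) ^ 2 * (1 + x2) ^ 2 := by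
    have e3 := mul_le_mul_of_nonneg_left hA2 (sq_nonneg (5 - 3 * s))
    have e4 : (5 - 3 * s) ^ 2 * (|x0| + |x1|) ^ 2 = 2 * ((5 - 3 * s) * (s / 2) * (|x0| + |x1|)) ^ 2 := by
      linear_combination (-((5 - 3 * s) ^ 2 * (|x0| + |x1|) ^ 2) / 2) * hs
    rw [e4] at e3
    rw [mul_pow (1 - s / 2)] at e1
    linarith
  have hb : (1 - s / 4) ^ 2 * (x3 * x3) ≤ ((1 - s / 2) - s / 4 * x2) ^ 2 := by
    rw [mul_pow, sq_abs, sq x3] at e2
    exact e2
  rcases pol_core hs h1 h2 ha hb (by rw [sq x2]; exact n) ht1 ht2 with rfl | rfl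
  · left
    have h3 : (5 - 3 * s) * (s / 2) * (|x0| + |x1|) ≤ 0 := by linarith
    have h4 : |x0| + |x1| ≤ 0 := by
      by_contra hlt
      push Not at hlt
      have : 0 < (5 - 3 * s) * (s / 2) * (|x0| + |x1|) := by positivity
      linarith
    have hx0 : x0 = 0 := abs_eq_zero.1 (by linarith)
    have hx1 : x1 = 0 := abs_eq_zero.1 (by linarith)
    refine ⟨rfl, hx0, hx1, ?_⟩
    subst hx0 hx1
    have h5 : (1 - s / 4) * (x3 * x3 - 1) = 0 := by linarith
    rcases mul_eq_zero.1 h5 with h | h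
    · linarith
    · exact mul_self_eq_one_iff.1 (by linarith)
  · right
    have h3 : (1 - s / 4) * |x3| ≤ 0 := by rw [hcc] at hB; linarith
    have hx3 : x3 = 0 := by
      have : |x3| ≤ 0 := by
        by_contra hlt
        push Not at hlt
        have : 0 < (1 - s / 4) * |x3| := by positivity
        linarith
      exact abs_eq_zero.1 (by linarith)
    refine ⟨rfl, hx3, ?_⟩
    subst hx3
    have h4 : (5 - 3 * s) * (x0 * x0 + x1 * x1 - 1) = 0 := by
      linear_combination n + (-s + 2) * hs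
    have h5 : x0 * x0 + x1 * x1 = 1 := by
      rcases mul_eq_zero.1 h4 with h | h <;> linarith
    have h6 : (5 - 3 * s) * (s / 2) * (|x0| + |x1|) ≤ (5 - 3 * s) * (s / 2) * 1 := by
      refine hA.trans (le_of_eq ?_)
      linear_combination (1 / 2) * hs
    have h7 : |x0| + |x1| ≤ 1 := le_of_mul_le_mul_left h6 (by positivity)
    have h8 : |x0| * |x1| ≤ 0 := by
      have q0 := abs_mul_abs_self x0
      have q1 := abs_mul_abs_self x1
      nlinarith
    have h9 : |x0| * |x1| = 0 := le_antisymm h8 (mul_nonneg a0 a1)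
    rcases mul_eq_zero.1 h9 with h | h
    · have hx0 := abs_eq_zero.1 h
      subst hx0
      exact Or.inl ⟨rfl, mul_self_eq_one_iff.1 (by linarith)⟩
    · have hx1 := abs_eq_zero.1 h
      subst hx1
      exact Or.inr ⟨rfl, mul_self_eq_one_iff.1 (by linarith)⟩

/-- Second part in coordinates. -/
private lemma pol_two {s x0 x1 x2 x3 : ℝ} (hs : s ^ 2 = 2) (h1 : 1.41 < s) (h2 : s < 1.42)
    (n : (5 - 3 * s) * (x0 * x0 + x1 * x1) + s / 4 * (x2 * x2) + (1 - s / 4) * (x3 * x3) = 1)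
    (hA0 : (5 - 3 * s) * |x0| ≤ (1 - s / 2) * (1 - x2)) (hA1 : (5 - 3 * s) * |x1| ≤ (1 - s / 2) * (1 - x2))
    (hB : (1 - s / 4) * |x3| ≤ (1 - s / 2) + s / 4 * x2) :
    (x2 = 1 ∧ x0 = 0 ∧ x1 = 0 ∧ (x3 = 1 ∨ x3 = -1)) ∨
    (x2 = 2 - 2 * s ∧ x3 = 0 ∧ (x0 = s / 2 ∨ x0 = -(s / 2)) ∧ (x1 = s / 2 ∨ x1 = -(s / 2))) := by
  have hα : 0 < 5 - 3 * s := by linarith
  have hγ : 0 < 1 - s / 4 := by linarith
  have hc : 0 < 1 - s / 2 := by linarith
  have hs0 : 0 < s := by linarith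
  have a0 := abs_nonneg x0
  have a1 := abs_nonneg x1
  have a3 := abs_nonneg x3
  have hP0 : 0 ≤ (5 - 3 * s) * |x0| := by positivity
  have hP1 : 0 ≤ (5 - 3 * s) * |x1| := by positivity
  have hQ : 0 ≤ (1 - s / 4) * |x3| := by positivity
  have ht1 : -1 ≤ -x2 := by
    have := nonneg_of_mul_nonneg_right (hP0.trans hA0) hc
    linarith
  have hcc : s / 4 * (2 * s - 2) = 1 - s / 2 := by linear_combination (1 / 2) * hs
  have ht2 : -x2 ≤ 2 * s - 2 := by
    have h3 : 0 ≤ s / 4 * ((2 * s - 2) + x2) := by rw [mul_add, hcc]; exact hQ.trans hB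
    have := nonneg_of_mul_nonneg_right h3 (by linarith)
    linarith
  have e0 := pow_le_pow_left₀ hP0 hA0 2
  have e1 := pow_le_pow_left₀ hP1 hA1 2
  have e2 := pow_le_pow_left₀ hQ hB 2
  have ha : (5 - 3 * s) ^ 2 * (x0 * x0 + x1 * x1) ≤ 2 * (1 - s / 2) ^ 2 * (1 + -x2) ^ 2 := by
    rw [mul_pow, sq_abs, sq x0, mul_pow (1 - s / 2)] at e0
    rw [mul_pow, sq_abs, sq x1, mul_pow (1 - s / 2)] at e1
    rw [← sub_eq_add_neg]
    linarith
  have hb : (1 - s / 4) ^ 2 * (x3 * x3) ≤ ((1 - s / 2) - s / 4 * -x2) ^ 2 := by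
    rw [mul_pow, sq_abs, sq x3] at e2
    rw [mul_neg, sub_neg_eq_add]
    exact e2
  rcases pol_core hs h1 h2 ha hb (by rw [neg_sq, sq x2]; exact n) ht1 ht2 with h | h
  · left
    have hx2 : x2 = 1 := by linarith
    subst hx2
    have hx0 : x0 = 0 := by
      have : |x0| ≤ 0 := by
        by_contra hlt
        push Not at hlt
        have : 0 < (5 - 3 * s) * |x0| := by positivity
        linarith
      exact abs_eq_zero.1 (by linarith)
    have hx1 : x1 = 0 := by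
      have : |x1| ≤ 0 := by
        by_contra hlt
        push Not at hlt
        have : 0 < (5 - 3 * s) * |x1| := by positivity
        linarith
      exact abs_eq_zero.1 (by linarith)
    refine ⟨rfl, hx0, hx1, ?_⟩
    subst hx0 hx1
    have h5 : (1 - s / 4) * (x3 * x3 - 1) = 0 := by linarith
    rcases mul_eq_zero.1 h5 with h | h
    · linarith
    · exact mul_self_eq_one_iff.1 (by linarith)
  · right
    have hx2 : x2 = 2 - 2 * s := by linarith
    subst hx2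
    have h3 : (1 - s / 4) * |x3| ≤ 0 := by
      refine hB.trans (le_of_eq ?_)
      linear_combination -(1 / 2) * hs
    have hx3 : x3 = 0 := by
      have : |x3| ≤ 0 := by
        by_contra hlt
        push Not at hlt
        have : 0 < (1 - s / 4) * |x3| := by positivity
        linarith
      exact abs_eq_zero.1 (by linarith)
    refine ⟨rfl, hx3, ?_⟩
    subst hx3
    have h4 : (5 - 3 * s) * (x0 * x0 + x1 * x1 - 1) = 0 := by
      linear_combination n + (-s + 2) * hs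
    have h5 : x0 * x0 + x1 * x1 = 1 := by
      rcases mul_eq_zero.1 h4 with h | h <;> linarith
    have hr : (1 - s / 2) * (1 - (2 - 2 * s)) = (5 - 3 * s) * (s / 2) := by
      linear_combination (1 / 2) * hs
    rw [hr] at hA0 hA1
    have h6 : |x0| ≤ s / 2 := le_of_mul_le_mul_left hA0 hα
    have h7 : |x1| ≤ s / 2 := le_of_mul_le_mul_left hA1 hα
    have q0 := abs_mul_abs_self x0
    have q1 := abs_mul_abs_self x1
    have h8 : |x0| * |x0| ≤ s / 2 * (s / 2) := mul_self_le_mul_self a0 h6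
    have h9 : |x1| * |x1| ≤ s / 2 * (s / 2) := mul_self_le_mul_self a1 h7
    have hss : s / 2 * (s / 2) = 1 / 2 := by linear_combination (1 / 4) * hs
    constructor
    · exact mul_self_eq_mul_self_iff.1 (by linarith)
    · exact mul_self_eq_mul_self_iff.1 (by linarith)

theorem pPol (h1 : SVv) : SPol := by
  obtain ⟨hin, hex, -, -⟩ := h1
  have hs : √2 ^ 2 = (2 : ℝ) := Real.sq_sqrt (by norm_num)
  have hlo : (1.41 : ℝ) < √2 := by rw [Real.lt_sqrt (by norm_num)]; norm_num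
  have hhi : √2 < (1.42 : ℝ) := by rw [Real.sqrt_lt' (by norm_num)]; norm_num
  constructor
  · intro v hv hb
    obtain ⟨x0, x1, x2, x3, rfl⟩ := hex v
    have n : (5 - 3 * √2) * (x0 * x0 + x1 * x1) + √2 / 4 * (x2 * x2) + (1 - √2 / 4) * (x3 * x3) = 1 := by
      rw [← hin, real_inner_self_eq_norm_sq, hv]; norm_num
    have b0 := hb 0
    have b1 := hb 1
    have b2 := hb 2
    have b3 := hb 3
    have b4 := hb 4
    have b5 := hb 5
    rw [show bb 0 = vv (√2 / 2) (√2 / 2) (2 - 2 * √2) 0 from rfl, hin, cs] at b0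
    rw [show bb 1 = vv (-(√2 / 2)) (√2 / 2) (2 - 2 * √2) 0 from rfl, hin, cs] at b1
    rw [show bb 2 = vv (-(√2 / 2)) (-(√2 / 2)) (2 - 2 * √2) 0 from rfl, hin, cs] at b2
    rw [show bb 3 = vv (√2 / 2) (-(√2 / 2)) (2 - 2 * √2) 0 from rfl, hin, cs] at b3
    rw [show bb 4 = vv 0 0 1 (-1) from rfl, hin, cs] at b4
    rw [show bb 5 = vv 0 0 1 1 from rfl, hin, cs] at b5
    have hA : (5 - 3 * √2) * (√2 / 2) * (|x0| + |x1|) ≤ (1 - √2 / 2) * (1 + x2) := by
      rcases abs_cases x0 with ⟨h, _⟩ | ⟨h, _⟩ <;> rcases abs_cases x1 with ⟨h', _⟩ | ⟨h', _⟩ <;> rw [h, h']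
      · linear_combination b0 + x2 / 2 * hs
      · linear_combination b3 + x2 / 2 * hs
      · linear_combination b1 + x2 / 2 * hs
      · linear_combination b2 + x2 / 2 * hs
    have hB : (1 - √2 / 4) * |x3| ≤ (1 - √2 / 2) - √2 / 4 * x2 := by
      rcases abs_cases x3 with ⟨h, _⟩ | ⟨h, _⟩ <;> rw [h]
      · linear_combination b5
      · linear_combination b4
    rcases pol_one hs hlo hhi n hA hB with ⟨rfl, rfl, rfl, rfl | rfl⟩ | ⟨rfl, rfl, h⟩
    · exact ⟨4, rfl⟩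
    · exact ⟨5, rfl⟩
    · rcases h with ⟨rfl, rfl | rfl⟩ | ⟨rfl, rfl | rfl⟩
      · exact ⟨1, rfl⟩
      · exact ⟨3, rfl⟩
      · exact ⟨0, rfl⟩
      · exact ⟨2, rfl⟩
  · intro v hv ha
    obtain ⟨x0, x1, x2, x3, rfl⟩ := hex v
    have n : (5 - 3 * √2) * (x0 * x0 + x1 * x1) + √2 / 4 * (x2 * x2) + (1 - √2 / 4) * (x3 * x3) = 1 := by
      rw [← hin, real_inner_self_eq_norm_sq, hv]; norm_num
    have a0 := ha 0
    have a1 := ha 1
    have a2 := ha 2
    have a3 := ha 3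
    have a4 := ha 4
    have a5 := ha 5
    rw [show aa 0 = vv 1 0 (2 * √2 - 2) 0 from rfl, hin, cs] at a0
    rw [show aa 1 = vv 0 1 (2 * √2 - 2) 0 from rfl, hin, cs] at a1
    rw [show aa 2 = vv (-1) 0 (2 * √2 - 2) 0 from rfl, hin, cs] at a2
    rw [show aa 3 = vv 0 (-1) (2 * √2 - 2) 0 from rfl, hin, cs] at a3
    rw [show aa 4 = vv 0 0 (-1) 1 from rfl, hin, cs] at a4
    rw [show aa 5 = vv 0 0 (-1) (-1) from rfl, hin, cs] at a5
    have hA0 : (5 - 3 * √2) * |x0| ≤ (1 - √2 / 2) * (1 - x2) := by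
      rcases abs_cases x0 with ⟨h, _⟩ | ⟨h, _⟩ <;> rw [h]
      · linear_combination a0 - x2 / 2 * hs
      · linear_combination a2 - x2 / 2 * hs
    have hA1 : (5 - 3 * √2) * |x1| ≤ (1 - √2 / 2) * (1 - x2) := by
      rcases abs_cases x1 with ⟨h, _⟩ | ⟨h, _⟩ <;> rw [h]
      · linear_combination a1 - x2 / 2 * hs
      · linear_combination a3 - x2 / 2 * hs
    have hB : (1 - √2 / 4) * |x3| ≤ (1 - √2 / 2) + √2 / 4 * x2 := by
      rcases abs_cases x3 with ⟨h, _⟩ | ⟨h, _⟩ <;> rw [h]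
      · linear_combination a4
      · linear_combination a5
    rcases pol_two hs hlo hhi n hA0 hA1 hB with ⟨rfl, rfl, rfl, rfl | rfl⟩ | ⟨rfl, rfl, h, h'⟩
    · exact ⟨5, rfl⟩
    · exact ⟨4, rfl⟩
    · rcases h with rfl | rfl <;> rcases h' with rfl | rfl
      · exact ⟨0, rfl⟩
      · exact ⟨3, rfl⟩
      · exact ⟨1, rfl⟩
      · exact ⟨2, rfl⟩

end Pool.Agent.MPaafd8aB
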