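import Pool.Agent.Lib.MP_aafd8a_gt.B.SpecA

/-!
# MP_aafd8a_gt, block (B): one improvement step
-/

set_option autoImplicit false

open Topology RealInnerProductSpace

open scoped Classical

namespace Pool.Agent.MPaafd8aB

open Pool.Agent.MPaafd8a

namespace Q1Aux

theorem zz_map (h : Iso3) (v : Fin 6 → Eu 3) : zz (fun i => h (v i)) = zz v := by
  simp only [zz, ← map_add, ← map_sub, LinearIsometryEquiv.inner_map_map]

/-- The displacement. -/
noncomputable def Ud (cc : Fin 6 → Eu 3) (α : Sph 3 → Fin 6) (g : Iso3) (v : Sph 3) : Eu 3 :=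
  g.symm (v : Eu 3) - cc (α v)

/-- The relative weight. -/
noncomputable def aw (α : Sph 3 → Fin 6) (p : Sph 3 →₀ ℝ) (v : Sph 3) : ℝ := p v / ms α p (α v)

theorem ud_norm {cc : Fin 6 → Eu 3} {α : Sph 3 → Fin 6} {g : Iso3} (v : Sph 3) :
    ‖Ud cc α g v‖ = dist (v : Eu 3) (g (cc (α v))) := by
  rw [← g.norm_map, Ud, map_sub, g.apply_symm_apply, dist_eq_norm]

theorem ud_add {cc : Fin 6 → Eu 3} {α : Sph 3 → Fin 6} {g : Iso3} (v : Sph 3) :
    cc (α v) + Ud cc α g v = g.symm (v : Eu 3) := by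
  rw [Ud]
  abel

theorem symm_norm (g : Iso3) (v : Sph 3) : ‖g.symm (v : Eu 3)‖ = 1 := by
  rw [g.symm.norm_map]
  exact mem_sphere_zero_iff_norm.1 v.2

theorem aw_sum {α : Sph 3 → Fin 6} {p : Sph 3 →₀ ℝ} (hm : ∀ i, 0 < ms α p i) (i : Fin 6) :
    (∑ x : p.support, if α x = i then aw α p x else 0) = 1 := by
  rw [Finset.sum_coe_sort p.support (fun v => if α v = i then aw α p v else 0)]
  have h1 : ∀ v ∈ p.support, (if α v = i then aw α p v else 0) =
      (if α v = i then p v else 0) * (ms α p i)⁻¹ := by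
    intro v _
    split_ifs with h
    · rw [aw, h, div_eq_mul_inv]
    · rw [zero_mul]
  rw [Finset.sum_congr rfl h1, ← Finset.sum_mul]
  exact mul_inv_cancel₀ (hm i).ne'

theorem bc_eq {cc : Fin 6 → Eu 3} {α : Sph 3 → Fin 6} {p : Sph 3 →₀ ℝ} {g : Iso3}
    (hm : ∀ i, 0 < ms α p i) (i : Fin 6) :
    (cc i + ∑ x : p.support, if α x = i then aw α p x • Ud cc α g x else 0) =
      g.symm (bc α p i) := by
  have h0 : cc i = ∑ x : p.support, (if α x = i then aw α p x else 0) • cc i := by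
    rw [← Finset.sum_smul, aw_sum hm i, one_smul]
  have h1 : (cc i + ∑ x : p.support, if α x = i then aw α p x • Ud cc α g x else 0) =
      ∑ x : p.support, if α x = i then aw α p x • g.symm (x : Eu 3) else 0 := by
    calc (cc i + ∑ x : p.support, if α x = i then aw α p x • Ud cc α g x else 0)
        = (∑ x : p.support, (if α x = i then aw α p x else 0) • cc i) +
            ∑ x : p.support, if α x = i then aw α p x • Ud cc α g x else 0 := by rw [← h0]
      _ = _ := by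
          rw [← Finset.sum_add_distrib]
          refine Finset.sum_congr rfl fun x _ => ?_
          split_ifs with h
          · rw [← smul_add, ← h, ud_add]
          · rw [zero_smul, add_zero]
  rw [h1, Finset.sum_coe_sort p.support (fun v => if α v = i then aw α p v • g.symm (v : Eu 3) else 0),
    bc, map_smul, map_sum, Finset.smul_sum]
  refine Finset.sum_congr rfl fun v _ => ?_
  split_ifs with h
  · rw [map_smul, smul_smul, aw, h, div_eq_mul_inv, mul_comm]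
  · rw [map_zero, smul_zero]

theorem fin_dist {cc : Fin 6 → Eu 3} {α : Sph 3 → Fin 6} {g g1 : Iso3} {K : Eu 3 →L[ℝ] Eu 3}
    {C ρ ε η : ℝ} (hC : 1 ≤ C) (hρ : 0 ≤ ρ) (hρ1 : ρ ≤ 1) (hε : 0 ≤ ε) (hε1 : ε ≤ 1) (hη : 0 ≤ η)
    (hη1 : η ≤ 1) (hg1 : ∀ x, ‖g1 x - (x + K x)‖ ≤ ‖K‖ ^ 2 * ‖x‖) (hK : ‖K‖ ≤ C * (ρ + ε + η))
    (v : Sph 3) (hd : dist (v : Eu 3) (g (cc (α v))) ≤ ρ)
    (hU : ‖Ud cc α g v - K (cc (α v))‖ ≤ C * (η + ε + ρ ^ 2)) :
    dist (v : Eu 3) ((g1.trans g) (cc (α v))) ≤ (C + 6 * C ^ 2) * (η + ε + ρ ^ 2) := by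
  have e1 : dist (v : Eu 3) ((g1.trans g) (cc (α v))) = ‖g.symm (v : Eu 3) - g1 (cc (α v))‖ := by
    rw [dist_eq_norm, ← g.symm.norm_map, map_sub, LinearIsometryEquiv.trans_apply,
      g.symm_apply_apply]
  have e2 : g.symm (v : Eu 3) - g1 (cc (α v)) = (Ud cc α g v - K (cc (α v))) -
      (g1 (cc (α v)) - (cc (α v) + K (cc (α v)))) := by
    rw [← ud_add (cc := cc) (α := α) (g := g) v]
    abel
  have e3 : ‖cc (α v)‖ ≤ 2 := by
    have h1 : cc (α v) = g.symm (v : Eu 3) - Ud cc α g v := by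
      rw [← ud_add (cc := cc) (α := α) (g := g) v]
      abel
    have h2 := norm_sub_le (g.symm (v : Eu 3)) (Ud cc α g v)
    rw [← h1, symm_norm, ud_norm] at h2
    linarith
  have e4 : ‖g1 (cc (α v)) - (cc (α v) + K (cc (α v)))‖ ≤ ‖K‖ ^ 2 * 2 :=
    (hg1 _).trans (mul_le_mul_of_nonneg_left e3 (sq_nonneg _))
  have e5 : ‖K‖ ^ 2 ≤ C ^ 2 * (ρ + ε + η) ^ 2 := by
    rw [← mul_pow]
    exact pow_le_pow_left₀ (norm_nonneg _) hK 2
  have e6 : (ρ + ε + η) ^ 2 ≤ 3 * (η + ε + ρ ^ 2) := by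
    nlinarith [sq_nonneg (ρ - ε), sq_nonneg (ρ - η), sq_nonneg (ε - η), mul_nonneg hε (sub_nonneg.2 hε1),
      mul_nonneg hη (sub_nonneg.2 hη1)]
  have e7 : C ^ 2 * (ρ + ε + η) ^ 2 ≤ C ^ 2 * (3 * (η + ε + ρ ^ 2)) :=
    mul_le_mul_of_nonneg_left e6 (sq_nonneg _)
  rw [e1, e2]
  refine (norm_sub_le _ _).trans ?_
  have e8 := add_le_add hU e4
  refine e8.trans ?_
  nlinarith

end Q1Aux

open Q1Aux

/-- One improvement step. -/
theorem pQ1 (h1 : SQa) (h2 : SOrt) : SQ1 := by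
  obtain ⟨C, hC, ρ0, hρ0, hQ⟩ := h1
  refine ⟨C + 6 * C ^ 2, by nlinarith, min ρ0 1, lt_min hρ0 one_pos, ?_⟩
  intro α β g p q ρ ε η hp hq hρ hρ1 hε hε1 hη hη1 hda hdb hma hmb hcpt hzz
  have hpp : ∀ x : p.support, 0 < p x := fun x =>
    lt_of_le_of_ne (hp.1 _) (Ne.symm (Finsupp.mem_support_iff.1 x.2))
  have hqp : ∀ x : q.support, 0 < q x := fun x =>
    lt_of_le_of_ne (hq.1 _) (Ne.symm (Finsupp.mem_support_iff.1 x.2))
  obtain ⟨K, hKs, hKn, hKa, hKb⟩ := hQ p.support q.support (fun x => α x) (fun y => β y)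
    (fun x => Ud aa α g x) (fun y => Ud bb β g y) (fun x => aw α p x) (fun y => aw β q y) ρ ε η hρ
    (hρ1.trans (min_le_left _ _)) hε hη
    (fun x => by rw [ud_norm]; exact hda x (hpp x))
    (fun y => by rw [ud_norm]; exact hdb y (hqp y))
    (fun x => by rw [ud_add]; exact symm_norm g x)
    (fun y => by rw [ud_add]; exact symm_norm g y)
    (fun x => div_nonneg (hp.1 _) (hma _).le) (fun y => div_nonneg (hq.1 _) (hmb _).le)
    (fun i => aw_sum hma i) (fun j => aw_sum hmb j)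
    (fun x y => by
      rw [ud_add, ud_add, g.symm.inner_map_map]
      exact (hcpt x y (hpp x) (hqp y)).le)
    (fun k => by
      have h3 : (fun i => aa i + ∑ x : p.support, if α x = i then aw α p x • Ud aa α g x else 0) =
          fun i => g.symm (bc α p i) := by
        funext i
        exact bc_eq hma i
      rw [h3, zz_map]
      exact hzz k)
  obtain ⟨g1, hg1⟩ := h2 K hKs
  refine ⟨g1.trans g, ?_, ?_⟩
  · intro v hv
    exact fin_dist hC hρ (hρ1.trans (min_le_right _ _)) hε hε1 hη hη1 hg1 hKn v (hda v hv)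
      (hKa ⟨v, Finsupp.mem_support_iff.2 hv.ne'⟩)
  · intro v hv
    exact fin_dist hC hρ (hρ1.trans (min_le_right _ _)) hε hε1 hη hη1 hg1 hKn v (hdb v hv)
      (hKb ⟨v, Finsupp.mem_support_iff.2 hv.ne'⟩)

end Pool.Agent.MPaafd8aB
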