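import Pool.Agent.Lib.MP_aafd8a_gt.B.SpecA

/-!
# MP_aafd8a_gt, block (B): first estimate near the critical configuration
-/

set_option autoImplicit false

open Topology RealInnerProductSpace

open scoped Classical

namespace Pool.Agent.MPaafd8aB

open Pool.Agent.MPaafd8a

namespace Qa

theorem mean_abs {X : Type} [Fintype X] (w f : X → ℝ) (c : ℝ) (hw : ∀ x, 0 ≤ w x)
    (h1 : ∑ x, w x = 1) (hf : ∀ x, w x ≠ 0 → |f x| ≤ c) : |∑ x, w x * f x| ≤ c := by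
  calc |∑ x, w x * f x| ≤ ∑ x, |w x * f x| := Finset.abs_sum_le_sum_abs _ _
    _ ≤ ∑ x, w x * c := by
        refine Finset.sum_le_sum fun x _ => ?_
        rw [abs_mul, abs_of_nonneg (hw x)]
        by_cases h : w x = 0
        · rw [h]; simp
        · exact mul_le_mul_of_nonneg_left (hf x h) (hw x)
    _ = c := by rw [← Finset.sum_mul, h1, one_mul]

theorem mean_norm {X : Type} [Fintype X] (w : X → ℝ) (U : X → Eu 3) (c : ℝ) (hw : ∀ x, 0 ≤ w x)
    (h1 : ∑ x, w x = 1) (hf : ∀ x, ‖U x‖ ≤ c) : ‖∑ x, w x • U x‖ ≤ c := by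
  calc ‖∑ x, w x • U x‖ ≤ ∑ x, ‖w x • U x‖ := norm_sum_le _ _
    _ ≤ ∑ x, w x * c := by
        refine Finset.sum_le_sum fun x _ => ?_
        rw [norm_smul, Real.norm_eq_abs, abs_of_nonneg (hw x)]
        exact mul_le_mul_of_nonneg_left (hf x) (hw x)
    _ = c := by rw [← Finset.sum_mul, h1, one_mul]

/-- the mean of a cluster -/
noncomputable def mn {X : Type} [Fintype X] (α : X → Fin 6) (a : X → ℝ) (U : X → Eu 3) (i : Fin 6) : Eu 3 :=
  ∑ x, if α x = i then a x • U x else 0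

theorem mn_eq {X : Type} [Fintype X] (α : X → Fin 6) (a : X → ℝ) (U : X → Eu 3) (i : Fin 6) :
    mn α a U i = ∑ x, (if α x = i then a x else 0) • U x := by
  unfold mn
  refine Finset.sum_congr rfl fun x _ => ?_
  split_ifs <;> simp

section

variable {X Y : Type} [Fintype X] [Fintype Y] (α : X → Fin 6) (β : Y → Fin 6) (U : X → Eu 3) (T : Y → Eu 3)
  (a : X → ℝ) (b : Y → ℝ)

theorem mn_norm (ρ : ℝ) (ha : ∀ x, 0 ≤ a x) (hA : ∀ i, ∑ x, (if α x = i then a x else 0) = 1)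
    (hU : ∀ x, ‖U x‖ ≤ ρ) (i : Fin 6) : ‖mn α a U i‖ ≤ ρ := by
  rw [mn_eq]
  refine mean_norm _ _ _ (fun x => ?_) (hA i) hU
  split_ifs
  · exact ha x
  · exact le_rfl

theorem mn_inner (D : ℝ) (ha : ∀ x, 0 ≤ a x) (hA : ∀ i, ∑ x, (if α x = i then a x else 0) = 1)
    (i : Fin 6) (z : Eu 3) (s : ℝ) (hz : ∀ x, α x = i → |⟪z, U x⟫ + s| ≤ D) :
    |⟪z, mn α a U i⟫ + s| ≤ D := by
  have h1 : ⟪z, mn α a U i⟫ + s = ∑ x, (if α x = i then a x else 0) * (⟪z, U x⟫ + s) := by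
    rw [mn_eq, inner_sum]
    simp only [inner_smul_right, mul_add, Finset.sum_add_distrib]
    rw [← Finset.sum_mul, hA i, one_mul]
  rw [h1]
  refine mean_abs _ _ _ (fun x => ?_) (hA i) (fun x hx => ?_)
  · split_ifs
    · exact ha x
    · exact le_rfl
  · refine hz x ?_
    by_contra h
    exact hx (if_neg h)

/-- Means of the first variations. -/
theorem side (A B : Fin 6 → Eu 3) (c : Fin 6 → Fin 6 → Prop) (D : ℝ)
    (ha : ∀ x, 0 ≤ a x) (hA : ∀ i, ∑ x, (if α x = i then a x else 0) = 1)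
    (hb : ∀ y, 0 ≤ b y) (hB : ∀ j, ∑ y, (if β y = j then b y else 0) = 1)
    (hl : ∀ x y, c (α x) (β y) → |⟪U x, B (β y)⟫ + ⟪A (α x), T y⟫| ≤ D) :
    (∀ i j, c i j → |⟪mn α a U i, B j⟫ + ⟪A i, mn β b T j⟫| ≤ D) ∧
    ∀ x j, c (α x) j → |⟪U x - mn α a U (α x), B j⟫| ≤ 2 * D := by
  have h1 : ∀ x j, c (α x) j → |⟪U x, B j⟫ + ⟪A (α x), mn β b T j⟫| ≤ D := by
    intro x j hc
    rw [add_comm]
    refine mn_inner β T b D hb hB j (A (α x)) _ ?_
    intro y hy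
    subst hy
    rw [add_comm]
    exact hl x y hc
  have h2 : ∀ i j, c i j → |⟪mn α a U i, B j⟫ + ⟪A i, mn β b T j⟫| ≤ D := by
    intro i j hc
    rw [real_inner_comm]
    refine mn_inner α U a D ha hA i (B j) _ ?_
    intro x hx
    subst hx
    rw [real_inner_comm]
    exact h1 x j hc
  refine ⟨h2, ?_⟩
  intro x j hc
  have h3 := h1 x j hc
  have h4 := h2 (α x) j hc
  have h5 : ⟪U x - mn α a U (α x), B j⟫ = (⟪U x, B j⟫ + ⟪A (α x), mn β b T j⟫) -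
      (⟪mn α a U (α x), B j⟫ + ⟪A (α x), mn β b T j⟫) := by
    rw [inner_sub_left]
    ring
  rw [h5]
  refine (abs_sub _ _).trans ?_
  linarith

end

/-- Vectors with small products with spanning vectors. -/
theorem lin (h4 : SLinC) (B : Fin 6 → Eu 3) (S : Fin 6 → Bool)
    (hS : ∀ x : Eu 3, (∀ j, S j = true → ⟪x, B j⟫ = 0) → x = 0) :
    ∃ C : ℝ, 0 < C ∧ ∀ (z : Eu 3) (t : ℝ), 0 ≤ t → (∀ j, S j = true → |⟪z, B j⟫| ≤ t) → ‖z‖ ≤ C * t := by
  let f : Eu 3 →ₗ[ℝ] (Fin 6 → ℝ) :=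
    { toFun := fun z j => if S j = true then ⟪z, B j⟫ else 0
      map_add' := by
        intro x y
        funext j
        simp only [Pi.add_apply]
        split_ifs
        · rw [inner_add_left]
        · simp
      map_smul' := by
        intro c x
        funext j
        simp only [Pi.smul_apply, RingHom.id_apply, smul_eq_mul]
        split_ifs
        · rw [inner_smul_left]
          simp
        · simp }
  obtain ⟨C, hC, h5⟩ := h4 (Eu 3) (Fin 6 → ℝ) f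
  refine ⟨C, hC, ?_⟩
  intro z t ht hz
  obtain ⟨k, hk, h6⟩ := h5 z
  have h7 : k = 0 := by
    refine hS k fun j hj => ?_
    have h8 := congrFun hk j
    simp only [f, LinearMap.coe_mk, AddHom.coe_mk, Pi.zero_apply] at h8
    rwa [if_pos hj] at h8
  rw [h7, sub_zero] at h6
  refine h6.trans (mul_le_mul_of_nonneg_left ?_ hC.le)
  rw [pi_norm_le_iff_of_nonneg ht]
  intro j
  simp only [f, LinearMap.coe_mk, AddHom.coe_mk, Real.norm_eq_abs]
  split_ifs with h9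
  · exact hz j h9
  · simpa using ht

theorem lin6 (h4 : SLinC) (B : Fin 6 → Eu 3) (S : Fin 6 → Fin 6 → Bool)
    (hS : ∀ i (x : Eu 3), (∀ j, S i j = true → ⟪x, B j⟫ = 0) → x = 0) :
    ∃ C : ℝ, 0 < C ∧ ∀ (i : Fin 6) (z : Eu 3) (t : ℝ), 0 ≤ t →
      (∀ j, S i j = true → |⟪z, B j⟫| ≤ t) → ‖z‖ ≤ C * t := by
  choose C hC h5 using fun i => lin h4 B (S i) (hS i)
  refine ⟨∑ i, C i, Finset.sum_pos (fun i _ => hC i) ⟨0, Finset.mem_univ _⟩, ?_⟩
  intro i z t ht hz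
  refine (h5 i z t ht hz).trans (mul_le_mul_of_nonneg_right ?_ ht)
  exact Finset.single_le_sum (f := C) (fun k _ => (hC k).le) (Finset.mem_univ i)

theorem zz_add (u : Fin 6 → Eu 3) (k : Fin 5) : zz (fun i => aa i + u i) k = zz aa k + dz u k +
    (![⟪u 4, u 5⟫, ⟪u 4 + u 5, u 0 - u 2⟫, ⟪u 4 + u 5, u 1 - u 3⟫, ⟪u 4 - u 5, u 0 - u 2⟫,
      ⟪u 4 - u 5, u 1 - u 3⟫] : Fin 5 → ℝ) k := by
  unfold zz dz
  fin_cases k <;>
    simp only [Matrix.cons_val, Fin.isValue, Fin.mk_one, Fin.zero_eta, Fin.reduceFinMk,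
      inner_add_left, inner_add_right, inner_sub_left, inner_sub_right] <;> ring

theorem inner4 (p q : Eu 3) (ρ : ℝ) (hρ : 0 ≤ ρ) (hp : ‖p‖ ≤ 2 * ρ) (hq : ‖q‖ ≤ 2 * ρ) :
    |⟪p, q⟫| ≤ 4 * ρ ^ 2 := by
  refine (abs_real_inner_le_norm p q).trans ?_
  calc ‖p‖ * ‖q‖ ≤ (2 * ρ) * (2 * ρ) := mul_le_mul hp hq (norm_nonneg _) (by positivity)
    _ = 4 * ρ ^ 2 := by ring

theorem dz_le (h1 : SGram) (u : Fin 6 → Eu 3) (ρ η : ℝ) (hρ : 0 ≤ ρ) (hu : ∀ i, ‖u i‖ ≤ ρ)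
    (hz : ∀ k, |zz (fun i => aa i + u i) k| ≤ η) (k : Fin 5) : |dz u k| ≤ η + 4 * ρ ^ 2 := by
  have h2 := zz_add u k
  have h3 : zz aa k = 0 := by
    rw [h1.2.2.2.2.1]
    rfl
  rw [h3, zero_add] at h2
  have hadd : ∀ i j, ‖u i + u j‖ ≤ 2 * ρ := fun i j => (norm_add_le _ _).trans (by linarith [hu i, hu j])
  have hsub : ∀ i j, ‖u i - u j‖ ≤ 2 * ρ := fun i j => (norm_sub_le _ _).trans (by linarith [hu i, hu j])
  have hone : ∀ i, ‖u i‖ ≤ 2 * ρ := fun i => (hu i).trans (by linarith)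
  have h4 : |(![⟪u 4, u 5⟫, ⟪u 4 + u 5, u 0 - u 2⟫, ⟪u 4 + u 5, u 1 - u 3⟫, ⟪u 4 - u 5, u 0 - u 2⟫,
      ⟪u 4 - u 5, u 1 - u 3⟫] : Fin 5 → ℝ) k| ≤ 4 * ρ ^ 2 := by
    fin_cases k
    · exact inner4 _ _ ρ hρ (hone 4) (hone 5)
    · exact inner4 _ _ ρ hρ (hadd 4 5) (hsub 0 2)
    · exact inner4 _ _ ρ hρ (hadd 4 5) (hsub 1 3)
    · exact inner4 _ _ ρ hρ (hsub 4 5) (hsub 0 2)
    · exact inner4 _ _ ρ hρ (hsub 4 5) (hsub 1 3)
  have h5 := hz k
  rw [h2] at h5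
  rw [abs_le] at h4 h5 ⊢
  constructor <;> linarith [h4.1, h4.2, h5.1, h5.2]

/-- The lower bound from the stress. -/
theorem low (h2 : SStress) {X Y : Type} (α : X → Fin 6) (β : Y → Fin 6) (U : X → Eu 3) (T : Y → Eu 3)
    (ρ δ : ℝ) (hne : ∀ i, ∃ x, α x = i) (hne' : ∀ j, ∃ y, β y = j) (hδ : ρ ^ 2 ≤ δ)
    (hU : ∀ x, -(ρ ^ 2 / 2) ≤ ⟪aa (α x), U x⟫) (hT : ∀ y, -(ρ ^ 2 / 2) ≤ ⟪bb (β y), T y⟫)
    (hl : ∀ x y, ct (α x) (β y) = true → ⟪U x, bb (β y)⟫ + ⟪aa (α x), T y⟫ ≤ δ) :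
    ∀ x y, ct (α x) (β y) = true → |⟪U x, bb (β y)⟫ + ⟪aa (α x), T y⟫| ≤ 164 * δ := by
  intro x₀ y₀ hc
  choose f hf using hne
  choose g hg using hne'
  have hδ0 : 0 ≤ δ := (sq_nonneg ρ).trans hδ
  obtain ⟨F, hF, hF0⟩ : ∃ F : Fin 6 → X, (∀ i, α (F i) = i) ∧ F (α x₀) = x₀ := by
    refine ⟨fun i => if i = α x₀ then x₀ else f i, ?_, ?_⟩
    · intro i
      by_cases h : i = α x₀
      · simp only [h]
        simp
      · simp only [if_neg h]
        exact hf i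
    · simp only [if_true]
  obtain ⟨G, hG, hG0⟩ : ∃ G : Fin 6 → Y, (∀ j, β (G j) = j) ∧ G (β y₀) = y₀ := by
    refine ⟨fun j => if j = β y₀ then y₀ else g j, ?_, ?_⟩
    · intro j
      by_cases h : j = β y₀
      · simp only [h]
        simp
      · simp only [if_neg h]
        exact hg j
    · simp only [if_true]
  set t : Fin 6 → Fin 6 → ℝ := fun i j => ww i j * (⟪U (F i), bb j⟫ + ⟪aa i, T (G j)⟫) with ht
  have key : ∑ i, ∑ j, t i j = ∑ i, lam i * ⟪aa i, U (F i)⟫ + ∑ j, lam j * ⟪bb j, T (G j)⟫ := by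
    simp only [ht, mul_add, Finset.sum_add_distrib]
    congr 1
    · refine Finset.sum_congr rfl fun i _ => ?_
      have h3 := congrArg (fun z => ⟪U (F i), z⟫) (h2.1 i)
      simp only [inner_sum, inner_smul_right] at h3
      rw [h3, real_inner_comm]
    · rw [Finset.sum_comm]
      refine Finset.sum_congr rfl fun j _ => ?_
      have h3 := congrArg (fun z => ⟪T (G j), z⟫) (h2.2.1 j)
      simp only [inner_sum, inner_smul_right] at h3
      rw [real_inner_comm (T (G j)) (bb j), ← h3]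
      refine Finset.sum_congr rfl fun i _ => ?_
      rw [real_inner_comm]
  have hlow : ∀ i (s : ℝ), -(ρ ^ 2 / 2) ≤ s → -(ρ ^ 2 / 2) ≤ lam i * s := by
    intro i s hs
    have h3 := h2.2.2.2.2.2.2.2 i
    have h5 : 0 ≤ ρ ^ 2 := sq_nonneg ρ
    nlinarith [h3.1, h3.2]
  have h6 : -(3 * ρ ^ 2) ≤ ∑ i, lam i * ⟪aa i, U (F i)⟫ := by
    have h7 : ∑ i : Fin 6, -(ρ ^ 2 / 2) ≤ ∑ i, lam i * ⟪aa i, U (F i)⟫ := by
      refine Finset.sum_le_sum fun i _ => hlow i _ ?_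
      have h8 := hU (F i)
      rwa [hF i] at h8
    rw [Finset.sum_const, Finset.card_univ, Fintype.card_fin, nsmul_eq_mul] at h7
    push_cast at h7
    linarith
  have h7 : -(3 * ρ ^ 2) ≤ ∑ j, lam j * ⟪bb j, T (G j)⟫ := by
    have h7 : ∑ j : Fin 6, -(ρ ^ 2 / 2) ≤ ∑ j, lam j * ⟪bb j, T (G j)⟫ := by
      refine Finset.sum_le_sum fun j _ => hlow j _ ?_
      have h8 := hT (G j)
      rwa [hG j] at h8
    rw [Finset.sum_const, Finset.card_univ, Fintype.card_fin, nsmul_eq_mul] at h7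
    push_cast at h7
    linarith
  have hte : ∀ i j, t i j ≤ δ := by
    intro i j
    have h8 := h2.2.2.2.2.2.2.1 i j
    simp only [ht]
    by_cases hij : ct i j = true
    · have h9 : ⟪U (F i), bb j⟫ + ⟪aa i, T (G j)⟫ ≤ δ := by
        have h10 := hl (F i) (G j) (by rw [hF i, hG j]; exact hij)
        rwa [hF i, hG j] at h10
      nlinarith [h8.1, h8.2]
    · rw [h2.2.2.2.2.2.1 i j (by simpa using hij), zero_mul]
      exact hδ0
  have h8 : δ - t (α x₀) (β y₀) ≤ ∑ p : Fin 6 × Fin 6, (δ - t p.1 p.2) :=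
    Finset.single_le_sum (f := fun p : Fin 6 × Fin 6 => δ - t p.1 p.2)
      (fun p _ => sub_nonneg.2 (hte p.1 p.2)) (Finset.mem_univ (α x₀, β y₀))
  rw [Finset.sum_sub_distrib, Finset.sum_const, Finset.card_univ, Fintype.card_prod, Fintype.card_fin,
    nsmul_eq_mul, Fintype.sum_prod_type, key] at h8
  push_cast at h8
  have h9 : -(41 * δ) ≤ t (α x₀) (β y₀) := by nlinarith
  simp only [ht, hF0, hG0] at h9
  have h10 := h2.2.2.2.2.1 (α x₀) (β y₀) hc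
  have h11 := hl x₀ y₀ hc
  rw [abs_le]
  refine ⟨?_, by linarith⟩
  by_contra h12
  push Not at h12
  nlinarith

theorem norm_one (p q : Eu 3) (hp : ‖p‖ = 1) (h : ‖p + q‖ = 1) : ⟪p, q⟫ = -(‖q‖ ^ 2 / 2) := by
  have h1 := norm_add_sq_real p q
  rw [h, hp] at h1
  linarith

end Qa

theorem pQa (h1 : SGram) (h2 : SStress) (h3 : SSpn) (h4 : SLinC) (h5 : SLA) : SQa := by
  obtain ⟨CA, hCA1, hCA⟩ := h5
  obtain ⟨C4, hC4, h6⟩ := Qa.lin6 h4 bb ct h3.1
  obtain ⟨C5, hC5, h7⟩ := Qa.lin6 h4 aa (fun j i => ct i j) h3.2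
  refine ⟨165 * CA + 328 * C4 + 328 * C5, by linarith, 1, one_pos, ?_⟩
  intro X Y _ _ α β U T a b ρ ε η hρ0 hρ1 hε hη hU hT hUn hTn ha hb hA hB hI hZ
  have hρ2 : 0 ≤ ρ ^ 2 := sq_nonneg ρ
  have hρρ : ρ ^ 2 ≤ ρ := by nlinarith
  have hUi : ∀ x, ⟪aa (α x), U x⟫ = -(‖U x‖ ^ 2 / 2) := fun x =>
    Qa.norm_one _ _ (h1.1 _) (hUn x)
  have hTi : ∀ y, ⟪bb (β y), T y⟫ = -(‖T y‖ ^ 2 / 2) := fun y =>
    Qa.norm_one _ _ (h1.2.1 _) (hTn y)
  have hU2 : ∀ x, ‖U x‖ ^ 2 ≤ ρ ^ 2 := fun x => pow_le_pow_left₀ (norm_nonneg _) (hU x) 2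
  have hT2 : ∀ y, ‖T y‖ ^ 2 ≤ ρ ^ 2 := fun y => pow_le_pow_left₀ (norm_nonneg _) (hT y) 2
  have hl0 : ∀ x y, ct (α x) (β y) = true → ⟪U x, bb (β y)⟫ + ⟪aa (α x), T y⟫ ≤ ε + ρ ^ 2 := by
    intro x y hc
    have h8 := hI x y
    rw [inner_add_left, inner_add_right, inner_add_right, h1.2.2.1 _ _ hc] at h8
    have h9 : |⟪U x, T y⟫| ≤ ρ ^ 2 := by
      refine (abs_real_inner_le_norm _ _).trans ?_
      rw [pow_two]
      exact mul_le_mul (hU x) (hT y) (norm_nonneg _) hρ0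
    linarith [(abs_le.1 h9).1]
  have hne : ∀ i, ∃ x, α x = i := by
    intro i
    by_contra h8
    push Not at h8
    have h9 := hA i
    rw [Finset.sum_congr rfl fun x _ => if_neg (h8 x), Finset.sum_const_zero] at h9
    exact zero_ne_one h9
  have hne' : ∀ j, ∃ y, β y = j := by
    intro j
    by_contra h8
    push Not at h8
    have h9 := hB j
    rw [Finset.sum_congr rfl fun y _ => if_neg (h8 y), Finset.sum_const_zero] at h9
    exact zero_ne_one h9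
  have hl := Qa.low h2 α β U T ρ (ε + ρ ^ 2) hne hne' (by linarith)
    (fun x => by rw [hUi x]; linarith [hU2 x]) (fun y => by rw [hTi y]; linarith [hT2 y]) hl0
  obtain ⟨s1, s2⟩ := Qa.side α β U T a b aa bb (fun i j => ct i j = true) (164 * (ε + ρ ^ 2))
    ha hA hb hB hl
  obtain ⟨-, s3⟩ := Qa.side β α T U b a bb aa (fun j i => ct i j = true) (164 * (ε + ρ ^ 2))
    hb hB ha hA (fun y x hc => by
      have h8 := hl x y hc
      rwa [add_comm, real_inner_comm, real_inner_comm (bb (β y)) (U x)] at h8)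
  have hmU := Qa.mn_norm α U a ρ ha hA hU
  have hmT := Qa.mn_norm β T b ρ hb hB hT
  obtain ⟨K, hK1, hK2, hK3, hK4⟩ := hCA (Qa.mn α a U) (Qa.mn β b T) ρ (164 * (η + ε + ρ ^ 2))
    (by positivity) hmU hmT
    (fun i => by
      have h8 := Qa.mn_inner α U a (ρ ^ 2) ha hA i (aa i) 0 (fun x hx => by
        subst hx
        rw [add_zero, hUi x, abs_neg, abs_of_nonneg (by positivity)]
        linarith [hU2 x])
      rw [add_zero] at h8
      linarith)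
    (fun j => by
      have h8 := Qa.mn_inner β T b (ρ ^ 2) hb hB j (bb j) 0 (fun y hy => by
        subst hy
        rw [add_zero, hTi y, abs_neg, abs_of_nonneg (by positivity)]
        linarith [hT2 y])
      rw [add_zero] at h8
      linarith)
    (fun i j hc => by
      have h8 := s1 i j hc
      unfold Lc
      linarith)
    (fun k => by
      have h8 := Qa.dz_le h1 (Qa.mn α a U) ρ η hρ0 hmU hZ k
      linarith)
  have hCA0 : 0 ≤ CA := by linarith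
  refine ⟨K, hK1, ?_, ?_, ?_⟩
  · refine hK2.trans ?_
    have h8 : CA * (ρ + 164 * (η + ε + ρ ^ 2)) ≤ CA * (165 * (ρ + ε + η)) :=
      mul_le_mul_of_nonneg_left (by linarith) hCA0
    have h9 : 0 ≤ (328 * C4 + 328 * C5) * (ρ + ε + η) := by positivity
    nlinarith
  · intro x
    have h8 := h6 (α x) (U x - Qa.mn α a U (α x)) (2 * (164 * (ε + ρ ^ 2))) (by positivity)
      (fun j hj => s2 x j hj)
    have h9 := hK3 (α x)
    have h10 : ‖U x - K (aa (α x))‖ ≤ ‖U x - Qa.mn α a U (α x)‖ + ‖Qa.mn α a U (α x) - K (aa (α x))‖ := by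
      have h11 : U x - K (aa (α x)) = (U x - Qa.mn α a U (α x)) + (Qa.mn α a U (α x) - K (aa (α x))) := by
        abel
      rw [h11]
      exact norm_add_le _ _
    have h11 : C4 * (2 * (164 * (ε + ρ ^ 2))) ≤ C4 * (328 * (η + ε + ρ ^ 2)) :=
      mul_le_mul_of_nonneg_left (by linarith) hC4.le
    have h12 : 0 ≤ C5 * (η + ε + ρ ^ 2) := by positivity
    have h13 : 0 ≤ CA * (η + ε + ρ ^ 2) := by positivity
    nlinarith
  · intro y
    have h8 := h7 (β y) (T y - Qa.mn β b T (β y)) (2 * (164 * (ε + ρ ^ 2))) (by positivity)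
      (fun i hi => s3 y i hi)
    have h9 := hK4 (β y)
    have h10 : ‖T y - K (bb (β y))‖ ≤ ‖T y - Qa.mn β b T (β y)‖ + ‖Qa.mn β b T (β y) - K (bb (β y))‖ := by
      have h11 : T y - K (bb (β y)) = (T y - Qa.mn β b T (β y)) + (Qa.mn β b T (β y) - K (bb (β y))) := by
        abel
      rw [h11]
      exact norm_add_le _ _
    have h11 : C5 * (2 * (164 * (ε + ρ ^ 2))) ≤ C5 * (328 * (η + ε + ρ ^ 2)) :=
      mul_le_mul_of_nonneg_left (by linarith) hC5.le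
    have h12 : 0 ≤ C4 * (η + ε + ρ ^ 2) := by positivity
    have h13 : 0 ≤ CA * (η + ε + ρ ^ 2) := by positivity
    nlinarith

end Pool.Agent.MPaafd8aB
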