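import Pool.Agent.Lib.MP_aafd8a_gt.B.SpecA

/-!
# MP_aafd8a_gt, block (B): change of frames

`ext6 P`: six masses with sum zero; `extZ Z`: the ten numbers `⟪v i, v j - v (opp j)⟫`, `i = 4, 5`, `j < 4`, as a function of
the five numbers `Z`. Both are equivariant under relabelling, so the cocycle condition needs no case distinction.
-/

set_option autoImplicit false

open Topology RealInnerProductSpace

open scoped Classical

namespace Pool.Agent.MPaafd8aB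

open Pool.Agent.MPaafd8a

namespace RelAux

/-- the opposite vertex -/
def opp : Fin 6 → Fin 6 := ![2, 3, 0, 1, 5, 4]

/-- permutations of the labels which respect the shape -/
def Gd (σ : Equiv.Perm (Fin 6)) : Prop :=
  (∀ i : Fin 6, ((σ i : Fin 6) : ℕ) < 4 ↔ (i : ℕ) < 4) ∧ ∀ i, σ (opp i) = opp (σ i)

theorem opp_lt : ∀ i : Fin 6, (opp i : ℕ) < 4 ↔ (i : ℕ) < 4 := by decide

theorem Gd.symm {σ : Equiv.Perm (Fin 6)} (h : Gd σ) : Gd σ.symm := by
  constructor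
  · intro i
    have := h.1 (σ.symm i)
    rw [Equiv.apply_symm_apply] at this
    exact this.symm
  · intro i
    rw [Equiv.symm_apply_eq, h.2, Equiv.apply_symm_apply]

/-! ### masses -/

noncomputable def ext6 (P : Fin 5 → ℝ) (i : Fin 6) : ℝ :=
  if h : (i : ℕ) < 5 then P ⟨i, h⟩ else -∑ k, P k

theorem ext6_cs (P : Fin 5 → ℝ) (i : Fin 5) : ext6 P i.castSucc = P i := by
  unfold ext6
  rw [dif_pos (show ((i.castSucc : Fin 6) : ℕ) < 5 from i.2)]
  rfl

theorem ext6_last (P : Fin 5 → ℝ) : ext6 P (Fin.last 5) = -∑ k, P k := by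
  unfold ext6
  rw [dif_neg (by simp)]

theorem ext6_sum (P : Fin 5 → ℝ) : ∑ i, ext6 P i = 0 := by
  rw [Fin.sum_univ_castSucc, ext6_last]
  simp only [ext6_cs]
  ring

theorem ext6_eq (P : Fin 5 → ℝ) (f : Fin 6 → ℝ) (h : ∀ i : Fin 5, P i = f i.castSucc)
    (hs : ∑ i, f i = 0) : ext6 P = f := by
  funext i
  refine Fin.lastCases ?_ (fun i => ?_) i
  · rw [ext6_last]
    rw [Fin.sum_univ_castSucc] at hs
    have : ∑ k, P k = ∑ k : Fin 5, f k.castSucc := Finset.sum_congr rfl fun k _ => h k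
    rw [this]
    linarith
  · rw [ext6_cs, h]

noncomputable def Lm (σ : Equiv.Perm (Fin 6)) (P : Fin 5 → ℝ) (k : Fin 5) : ℝ := ext6 P (σ k.castSucc)

theorem ext6_Lm (σ : Equiv.Perm (Fin 6)) (P : Fin 5 → ℝ) :
    ext6 (Lm σ P) = fun i => ext6 P (σ i) := by
  apply ext6_eq
  · intro i
    rfl
  · rw [Equiv.sum_comp σ (ext6 P)]
    exact ext6_sum P

theorem Lm_comp (σ τ : Equiv.Perm (Fin 6)) (P : Fin 5 → ℝ) : Lm τ (Lm σ P) = Lm (σ * τ) P := by
  funext k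
  show ext6 (Lm σ P) (τ k.castSucc) = _
  rw [ext6_Lm]
  rfl

theorem Lm_one (P : Fin 5 → ℝ) : Lm 1 P = P := by
  funext k
  exact ext6_cs P k

theorem Lm_add (σ : Equiv.Perm (Fin 6)) (P P' : Fin 5 → ℝ) : Lm σ (P + P') = Lm σ P + Lm σ P' := by
  funext k
  show ext6 (P + P') _ = ext6 P _ + ext6 P' _
  unfold ext6
  split_ifs
  · rfl
  · simp only [Pi.add_apply]
    rw [Finset.sum_add_distrib]
    ring

theorem Lm_smul (σ : Equiv.Perm (Fin 6)) (c : ℝ) (P : Fin 5 → ℝ) : Lm σ (c • P) = c • Lm σ P := by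
  funext k
  show ext6 (c • P) _ = c * ext6 P _
  unfold ext6
  split_ifs
  · rfl
  · simp only [Pi.smul_apply, smul_eq_mul]
    rw [← Finset.mul_sum]
    ring

/-! ### the shape functions -/

noncomputable def extZ (Z : Fin 5 → ℝ) (i j : Fin 6) : ℝ :=
  ![![0, 0, 0, 0, 0, 0], ![0, 0, 0, 0, 0, 0], ![0, 0, 0, 0, 0, 0], ![0, 0, 0, 0, 0, 0],
    ![(Z 1 + Z 3) / 2, (Z 2 + Z 4) / 2, -((Z 1 + Z 3) / 2), -((Z 2 + Z 4) / 2), 0, 0],
    ![(Z 1 - Z 3) / 2, (Z 2 - Z 4) / 2, -((Z 1 - Z 3) / 2), -((Z 2 - Z 4) / 2), 0, 0]] i j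

def back (z : ℝ) (B : Fin 6 → Fin 6 → ℝ) : Fin 5 → ℝ :=
  ![z, B 4 0 + B 5 0, B 4 1 + B 5 1, B 4 0 - B 5 0, B 4 1 - B 5 1]

/-- the symmetries of the ten numbers -/
def Sym (B : Fin 6 → Fin 6 → ℝ) : Prop :=
  (∀ i j : Fin 6, (i : ℕ) < 4 → B i j = 0) ∧ (∀ i j : Fin 6, ¬ (j : ℕ) < 4 → B i j = 0) ∧
    ∀ i j, B i (opp j) = -B i j

theorem sym_ext (Z : Fin 5 → ℝ) : Sym (extZ Z) := by
  refine ⟨?_, ?_, ?_⟩
  · intro i j hi
    fin_cases i <;> fin_cases j <;> simp [extZ] at hi ⊢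
  · intro i j hj
    fin_cases i <;> fin_cases j <;> simp [extZ] at hj ⊢
  · intro i j
    fin_cases i <;> fin_cases j <;> simp [extZ, opp]

theorem ext_back (z : ℝ) (B : Fin 6 → Fin 6 → ℝ) (h : Sym B) : extZ (back z B) = B := by
  obtain ⟨h1, h2, h3⟩ := h
  have h42 : B 4 2 = -B 4 0 := h3 4 0
  have h43 : B 4 3 = -B 4 1 := h3 4 1
  have h52 : B 5 2 = -B 5 0 := h3 5 0
  have h53 : B 5 3 = -B 5 1 := h3 5 1
  have e44 : B 4 4 = 0 := h2 4 4 (by decide)
  have e45 : B 4 5 = 0 := h2 4 5 (by decide)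
  have e54 : B 5 4 = 0 := h2 5 4 (by decide)
  have e55 : B 5 5 = 0 := h2 5 5 (by decide)
  have b1 : back z B 1 = B 4 0 + B 5 0 := rfl
  have b2 : back z B 2 = B 4 1 + B 5 1 := rfl
  have b3 : back z B 3 = B 4 0 - B 5 0 := rfl
  have b4 : back z B 4 = B 4 1 - B 5 1 := rfl
  have r4 : ∀ j, extZ (back z B) 4 j = ![(back z B 1 + back z B 3) / 2, (back z B 2 + back z B 4) / 2,
    -((back z B 1 + back z B 3) / 2), -((back z B 2 + back z B 4) / 2), 0, 0] j := fun j => rfl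
  have r5 : ∀ j, extZ (back z B) 5 j = ![(back z B 1 - back z B 3) / 2, (back z B 2 - back z B 4) / 2,
    -((back z B 1 - back z B 3) / 2), -((back z B 2 - back z B 4) / 2), 0, 0] j := fun j => rfl
  funext i j
  by_cases hi : (i : ℕ) < 4
  · rw [h1 i j hi, (sym_ext _).1 i j hi]
  · have hi' : i = 4 ∨ i = 5 := by
      revert hi
      revert i
      decide
    rcases hi' with rfl | rfl
    · rw [r4, b1, b2, b3, b4]
      fin_cases j
      · show (B 4 0 + B 5 0 + (B 4 0 - B 5 0)) / 2 = B 4 0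
        ring
      · show (B 4 1 + B 5 1 + (B 4 1 - B 5 1)) / 2 = B 4 1
        ring
      · show -((B 4 0 + B 5 0 + (B 4 0 - B 5 0)) / 2) = B 4 2
        rw [h42]
        ring
      · show -((B 4 1 + B 5 1 + (B 4 1 - B 5 1)) / 2) = B 4 3
        rw [h43]
        ring
      · exact e44.symm
      · exact e45.symm
    · rw [r5, b1, b2, b3, b4]
      fin_cases j
      · show (B 4 0 + B 5 0 - (B 4 0 - B 5 0)) / 2 = B 5 0
        ring
      · show (B 4 1 + B 5 1 - (B 4 1 - B 5 1)) / 2 = B 5 1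
        ring
      · show -((B 4 0 + B 5 0 - (B 4 0 - B 5 0)) / 2) = B 5 2
        rw [h52]
        ring
      · show -((B 4 1 + B 5 1 - (B 4 1 - B 5 1)) / 2) = B 5 3
        rw [h53]
        ring
      · exact e54.symm
      · exact e55.symm

theorem sym_perm {σ : Equiv.Perm (Fin 6)} (hσ : Gd σ) (B : Fin 6 → Fin 6 → ℝ) (h : Sym B) :
    Sym (fun i j => B (σ i) (σ j)) := by
  obtain ⟨h1, h2, h3⟩ := h
  refine ⟨?_, ?_, ?_⟩
  · intro i j hi
    exact h1 _ _ ((hσ.1 i).2 hi)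
  · intro i j hj
    exact h2 _ _ (fun h => hj ((hσ.1 j).1 h))
  · intro i j
    show B (σ i) (σ (opp j)) = _
    rw [hσ.2, h3]

noncomputable def LZ (σ : Equiv.Perm (Fin 6)) (Z : Fin 5 → ℝ) : Fin 5 → ℝ :=
  back (Z 0) (fun i j => extZ Z (σ i) (σ j))

theorem LZ_comp {σ : Equiv.Perm (Fin 6)} (hσ : Gd σ) (τ : Equiv.Perm (Fin 6)) (Z : Fin 5 → ℝ) :
    LZ τ (LZ σ Z) = LZ (σ * τ) Z := by
  have e : extZ (LZ σ Z) = fun i j => extZ Z (σ i) (σ j) :=
    ext_back _ _ (sym_perm hσ _ (sym_ext Z))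
  show back (LZ σ Z 0) (fun i j => extZ (LZ σ Z) (τ i) (τ j)) = _
  rw [e]
  rfl

theorem LZ_one (Z : Fin 5 → ℝ) : LZ 1 Z = Z := by
  funext k
  fin_cases k
  · rfl
  · show (Z 1 + Z 3) / 2 + (Z 1 - Z 3) / 2 = Z 1
    ring
  · show (Z 2 + Z 4) / 2 + (Z 2 - Z 4) / 2 = Z 2
    ring
  · show (Z 1 + Z 3) / 2 - (Z 1 - Z 3) / 2 = Z 3
    ring
  · show (Z 2 + Z 4) / 2 - (Z 2 - Z 4) / 2 = Z 4
    ring

theorem extZ_add (Z Z' : Fin 5 → ℝ) (i j : Fin 6) : extZ (Z + Z') i j = extZ Z i j + extZ Z' i j := by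
  fin_cases i <;> fin_cases j <;> simp [extZ] <;> ring

theorem extZ_smul (c : ℝ) (Z : Fin 5 → ℝ) (i j : Fin 6) : extZ (c • Z) i j = c * extZ Z i j := by
  fin_cases i <;> fin_cases j <;> simp [extZ] <;> ring

theorem LZ_add (σ : Equiv.Perm (Fin 6)) (Z Z' : Fin 5 → ℝ) : LZ σ (Z + Z') = LZ σ Z + LZ σ Z' := by
  funext k
  unfold LZ back
  simp only [extZ_add, Pi.add_apply]
  fin_cases k <;> simp <;> ring

theorem LZ_smul (σ : Equiv.Perm (Fin 6)) (c : ℝ) (Z : Fin 5 → ℝ) : LZ σ (c • Z) = c • LZ σ Z := by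
  funext k
  unfold LZ back
  simp only [extZ_smul, Pi.smul_apply, smul_eq_mul]
  fin_cases k <;> simp <;> ring

/-! ### fifteen coordinates -/

theorem xP_mk (P Q Z : Fin 5 → ℝ) : xP (mk15 P Q Z) = P := by
  funext i
  unfold xP mk15
  rw [dif_pos (show ((⟨i, by omega⟩ : Fin 15) : ℕ) < 5 from i.2)]

theorem xQ_mk (P Q Z : Fin 5 → ℝ) : xQ (mk15 P Q Z) = Q := by
  funext i
  have hi := i.2
  unfold xQ mk15
  rw [dif_neg (show ¬ ((⟨5 + i, by omega⟩ : Fin 15) : ℕ) < 5 by simp),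
    dif_pos (show ((⟨5 + i, by omega⟩ : Fin 15) : ℕ) < 10 by simp; omega)]
  congr 1
  apply Fin.ext
  show 5 + (i : ℕ) - 5 = i
  omega

theorem xZ_mk (P Q Z : Fin 5 → ℝ) : xZ (mk15 P Q Z) = Z := by
  funext i
  have hi := i.2
  unfold xZ mk15
  rw [dif_neg (show ¬ ((⟨10 + i, by omega⟩ : Fin 15) : ℕ) < 5 by simp; omega),
    dif_neg (show ¬ ((⟨10 + i, by omega⟩ : Fin 15) : ℕ) < 10 by simp)]
  congr 1
  apply Fin.ext
  show 10 + (i : ℕ) - 10 = i
  omega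

theorem mk_x (x : Fin 15 → ℝ) : mk15 (xP x) (xQ x) (xZ x) = x := by
  funext k
  have hk := k.2
  unfold mk15 xP xQ xZ
  split_ifs with h1 h2
  · rfl
  · congr 1
    apply Fin.ext
    show 5 + ((k : ℕ) - 5) = k
    omega
  · congr 1
    apply Fin.ext
    show 10 + ((k : ℕ) - 10) = k
    omega

theorem mk_add (P Q Z P' Q' Z' : Fin 5 → ℝ) :
    mk15 (P + P') (Q + Q') (Z + Z') = mk15 P Q Z + mk15 P' Q' Z' := by
  funext k
  show mk15 _ _ _ k = mk15 P Q Z k + mk15 P' Q' Z' k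
  unfold mk15
  split_ifs <;> rfl

theorem mk_smul (c : ℝ) (P Q Z : Fin 5 → ℝ) : mk15 (c • P) (c • Q) (c • Z) = c • mk15 P Q Z := by
  funext k
  show mk15 _ _ _ k = c * mk15 P Q Z k
  unfold mk15
  split_ifs <;> rfl

noncomputable def L (σ σ' : Equiv.Perm (Fin 6)) (x : Fin 15 → ℝ) : Fin 15 → ℝ :=
  mk15 (Lm σ (xP x)) (Lm σ' (xQ x)) (LZ σ (xZ x))

theorem L_comp {σ : Equiv.Perm (Fin 6)} (hσ : Gd σ) (σ' τ τ' : Equiv.Perm (Fin 6))
    (x : Fin 15 → ℝ) : L τ τ' (L σ σ' x) = L (σ * τ) (σ' * τ') x := by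
  unfold L
  rw [xP_mk, xQ_mk, xZ_mk, Lm_comp, Lm_comp, LZ_comp hσ]

theorem L_one (x : Fin 15 → ℝ) : L 1 1 x = x := by
  unfold L
  rw [Lm_one, Lm_one, LZ_one, mk_x]

theorem L_add (σ σ' : Equiv.Perm (Fin 6)) (x y : Fin 15 → ℝ) :
    L σ σ' (x + y) = L σ σ' x + L σ σ' y := by
  unfold L
  rw [← mk_add, ← Lm_add, ← Lm_add, ← LZ_add]
  rfl

theorem L_smul (σ σ' : Equiv.Perm (Fin 6)) (c : ℝ) (x : Fin 15 → ℝ) :
    L σ σ' (c • x) = c • L σ σ' x := by
  unfold L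
  rw [← mk_smul, ← Lm_smul, ← Lm_smul, ← LZ_smul]
  rfl

/-- the linear bijection belonging to two permutations -/
noncomputable def Gm (σ σ' : Equiv.Perm (Fin 6)) (h : Gd σ) : (Fin 15 → ℝ) ≃ₗ[ℝ] (Fin 15 → ℝ) where
  toFun := L σ σ'
  map_add' := L_add σ σ'
  map_smul' := L_smul σ σ'
  invFun := L σ.symm σ'.symm
  left_inv := by
    intro x
    rw [L_comp h]
    have e1 : σ * σ.symm = 1 := by
      ext i
      simp
    have e2 : σ' * σ'.symm = 1 := by
      ext i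
      simp
    rw [e1, e2, L_one]
  right_inv := by
    intro x
    rw [L_comp h.symm]
    have e1 : σ.symm * σ = 1 := by
      ext i
      simp
    have e2 : σ'.symm * σ' = 1 := by
      ext i
      simp
    rw [e1, e2, L_one]

noncomputable def Gt (σ σ' : Equiv.Perm (Fin 6)) : (Fin 15 → ℝ) ≃ₗ[ℝ] (Fin 15 → ℝ) :=
  if h : Gd σ then Gm σ σ' h else LinearEquiv.refl ℝ _

theorem Gt_apply {σ : Equiv.Perm (Fin 6)} (h : Gd σ) (σ' : Equiv.Perm (Fin 6)) (x : Fin 15 → ℝ) :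
    Gt σ σ' x = L σ σ' x := by
  unfold Gt
  rw [dif_pos h]
  rfl

/-! ### the relation of two frames -/

def RX (P : Fin 6 → Eu 3) (g g' : Iso3) (σ : Equiv.Perm (Fin 6)) : Prop :=
  ∀ k, dist (g' (P k)) (g (P (σ k))) < 1 / 20

def Sep (P : Fin 6 → Eu 3) : Prop := ∀ i k, i ≠ k → 1 < dist (P i) (P k)

theorem sep_eq {P : Fin 6 → Eu 3} (hP : Sep P) (g : Iso3) {i k : Fin 6}
    (h : dist (g (P i)) (g (P k)) ≤ 1) : i = k := by
  by_contra hne
  have h1 := hP i k hne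
  rw [LinearIsometryEquiv.dist_map] at h
  linarith

theorem RX_unique {P : Fin 6 → Eu 3} (hP : Sep P) {g g' : Iso3} {σ τ : Equiv.Perm (Fin 6)}
    (h1 : RX P g g' σ) (h2 : RX P g g' τ) : σ = τ := by
  ext k
  have e : σ k = τ k := by
    apply sep_eq hP g
    have := dist_triangle_left (g (P (σ k))) (g (P (τ k))) (g' (P k))
    have a := h1 k
    have b := h2 k
    linarith
  rw [e]

theorem RX_comp {P : Fin 6 → Eu 3} (hP : Sep P) {g g' g'' : Iso3} {σ τ ρ : Equiv.Perm (Fin 6)}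
    (h1 : RX P g g' σ) (h2 : RX P g' g'' τ) (h3 : RX P g g'' ρ) : ρ = σ * τ := by
  ext k
  have e : ρ k = σ (τ k) := by
    apply sep_eq hP g
    have t1 := dist_triangle_left (g (P (ρ k))) (g (P (σ (τ k)))) (g'' (P k))
    have t2 := dist_triangle (g'' (P k)) (g' (P (τ k))) (g (P (σ (τ k))))
    have a := h1 (τ k)
    have b := h2 k
    have c := h3 k
    linarith
  rw [e]
  rfl

/-- the label with respect to a family of points -/
noncomputable def lbX (P : Fin 6 → Eu 3) (r : ℝ) (g : Iso3) (v : Sph 3) : Fin 6 :=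
  if h : ∃ i, dist (v : Eu 3) (g (P i)) < r then h.choose else 0

theorem lbX_spec {P : Fin 6 → Eu 3} {r : ℝ} {g : Iso3} {v : Sph 3}
    (h : ∃ i, dist (v : Eu 3) (g (P i)) < r) : dist (v : Eu 3) (g (P (lbX P r g v))) < r := by
  unfold lbX
  rw [dif_pos h]
  exact h.choose_spec

theorem lbX_rel {P : Fin 6 → Eu 3} (hP : Sep P) {r : ℝ} (hr : r ≤ 1 / 100) {g g' : Iso3}
    {p : Sph 3 →₀ ℝ} (h1 : ∀ v, 0 < p v → ∃ i, dist (v : Eu 3) (g (P i)) < r)
    (h2 : ∀ v, 0 < p v → ∃ i, dist (v : Eu 3) (g' (P i)) < r)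
    (hm : ∀ k, ∃ v, 0 < p v ∧ lbX P r g' v = k) :
    ∃ σ : Equiv.Perm (Fin 6), RX P g g' σ ∧ ∀ v, 0 < p v → lbX P r g v = σ (lbX P r g' v) := by
  choose w hw hwk using hm
  have hA : ∀ k, dist (w k : Eu 3) (g' (P k)) < r := by
    intro k
    have := lbX_spec (h2 (w k) (hw k))
    rw [hwk k] at this
    exact this
  have hB : ∀ k, dist (w k : Eu 3) (g (P (lbX P r g (w k)))) < r := fun k =>
    lbX_spec (h1 (w k) (hw k))
  have hD : ∀ k, dist (g' (P k)) (g (P (lbX P r g (w k)))) < 1 / 50 := by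
    intro k
    have t := dist_triangle_left (g' (P k)) (g (P (lbX P r g (w k)))) (w k : Eu 3)
    have a := hA k
    have b := hB k
    linarith
  have hinj : Function.Injective fun k => lbX P r g (w k) := by
    intro k l hkl
    have e : lbX P r g (w k) = lbX P r g (w l) := hkl
    apply sep_eq hP g'
    have a := hD k
    have b := hD l
    rw [← e] at b
    have t := dist_triangle_right (g' (P k)) (g' (P l)) (g (P (lbX P r g (w k))))
    linarith
  refine ⟨Equiv.ofBijective _ (Finite.injective_iff_bijective.1 hinj), ?_, ?_⟩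
  · intro k
    have a := hD k
    show dist (g' (P k)) (g (P (lbX P r g (w k)))) < 1 / 20
    linarith
  · intro v hv
    show lbX P r g v = lbX P r g (w (lbX P r g' v))
    apply sep_eq hP g
    have a := lbX_spec (h1 v hv)
    have b := lbX_spec (h2 v hv)
    have c := hD (lbX P r g' v)
    have t1 := dist_triangle_left (g (P (lbX P r g v))) (g (P (lbX P r g (w (lbX P r g' v)))))
      (v : Eu 3)
    have t2 := dist_triangle (v : Eu 3) (g' (P (lbX P r g' v)))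
      (g (P (lbX P r g (w (lbX P r g' v)))))
    linarith

/-! ### masses and barycenters -/

theorem supp_pos {p : Sph 3 →₀ ℝ} (hp : Pw p) {v : Sph 3} (hv : v ∈ p.support) : 0 < p v :=
  lt_of_le_of_ne (hp.1 v) (Ne.symm (Finsupp.mem_support_iff.1 hv))

theorem ms_sum {p : Sph 3 →₀ ℝ} (hp : Pw p) (α : Sph 3 → Fin 6) : ∑ i, ms α p i = 1 := by
  unfold ms
  rw [Finset.sum_comm]
  have h : ∀ v ∈ p.support, ∑ i, (if α v = i then p v else 0) = p v := by
    intro v _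
    rw [Finset.sum_ite_eq]
    simp
  rw [Finset.sum_congr rfl h]
  exact hp.2

theorem ms_pos {p : Sph 3 →₀ ℝ} (hp : Pw p) (α : Sph 3 → Fin 6) (i : Fin 6) (h : 0 < ms α p i) :
    ∃ v, 0 < p v ∧ α v = i := by
  by_contra hne
  push Not at hne
  have : ms α p i = 0 := by
    unfold ms
    apply Finset.sum_eq_zero
    intro v hv
    rw [if_neg (hne v (supp_pos hp hv))]
  linarith

theorem ms_rel {p : Sph 3 →₀ ℝ} (hp : Pw p) {α α' : Sph 3 → Fin 6} {σ : Equiv.Perm (Fin 6)}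
    (h : ∀ v, 0 < p v → α v = σ (α' v)) (k : Fin 6) : ms α' p k = ms α p (σ k) := by
  unfold ms
  apply Finset.sum_congr rfl
  intro v hv
  rw [h v (supp_pos hp hv)]
  simp only [EmbeddingLike.apply_eq_iff_eq]

theorem bc_rel {p : Sph 3 →₀ ℝ} (hp : Pw p) {α α' : Sph 3 → Fin 6} {σ : Equiv.Perm (Fin 6)}
    (h : ∀ v, 0 < p v → α v = σ (α' v)) (k : Fin 6) : bc α' p k = bc α p (σ k) := by
  unfold bc
  rw [ms_rel hp h]
  congr 1
  apply Finset.sum_congr rfl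
  intro v hv
  rw [h v (supp_pos hp hv)]
  simp only [EmbeddingLike.apply_eq_iff_eq]

/-- the ten numbers of a family of six vectors -/
noncomputable def Bv (v : Fin 6 → Eu 3) (i j : Fin 6) : ℝ :=
  if (i : ℕ) < 4 then 0 else if (j : ℕ) < 4 then ⟪v i, v j - v (opp j)⟫ else 0

theorem Bv_sym (v : Fin 6 → Eu 3) : Sym (Bv v) := by
  refine ⟨?_, ?_, ?_⟩
  · intro i j hi
    unfold Bv
    rw [if_pos hi]
  · intro i j hj
    unfold Bv
    rw [if_neg hj]
    simp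
  · intro i j
    unfold Bv
    have e1 : ((opp j : ℕ) < 4) = ((j : ℕ) < 4) := propext (opp_lt j)
    have e2 : opp (opp j) = j := by
      revert j
      decide
    by_cases hi : (i : ℕ) < 4
    · rw [if_pos hi, if_pos hi]
      simp
    · rw [if_neg hi, if_neg hi]
      by_cases hj : (j : ℕ) < 4
      · rw [if_pos ((opp_lt j).2 hj), if_pos hj, e2, ← neg_sub, inner_neg_right]
      · rw [if_neg (fun h => hj ((opp_lt j).1 h)), if_neg hj]
        simp

theorem zz_back (v : Fin 6 → Eu 3) : zz v = back (⟪v 4, v 5⟫ + cs) (Bv v) := by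
  have b40 : Bv v 4 0 = ⟪v 4, v 0 - v 2⟫ := rfl
  have b50 : Bv v 5 0 = ⟪v 5, v 0 - v 2⟫ := rfl
  have b41 : Bv v 4 1 = ⟪v 4, v 1 - v 3⟫ := rfl
  have b51 : Bv v 5 1 = ⟪v 5, v 1 - v 3⟫ := rfl
  unfold zz back
  rw [b40, b50, b41, b51, inner_add_left, inner_add_left, inner_sub_left, inner_sub_left]

theorem zz_perm {σ : Equiv.Perm (Fin 6)} (hσ : Gd σ) (v : Fin 6 → Eu 3) :
    zz (fun k => v (σ k)) = LZ σ (zz v) := by
  have e1 : extZ (zz v) = Bv v := by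
    rw [zz_back]
    exact ext_back _ _ (Bv_sym v)
  have e0 : zz v 0 = ⟪v 4, v 5⟫ + cs := rfl
  unfold LZ
  rw [e1, e0, zz_back]
  have e2 : ⟪v (σ 4), v (σ 5)⟫ = ⟪v 4, v 5⟫ := by
    have h4 := hσ.1 4
    have h5 := hσ.1 5
    have hne : σ 4 ≠ σ 5 := fun h => by
      have := σ.injective h
      exact absurd this (by decide)
    have key : ∀ a b : Fin 6, ((a : ℕ) < 4 ↔ ((4 : Fin 6) : ℕ) < 4) →
        ((b : ℕ) < 4 ↔ ((5 : Fin 6) : ℕ) < 4) → a ≠ b → (a = 4 ∧ b = 5) ∨ (a = 5 ∧ b = 4) := by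
      decide
    rcases key _ _ h4 h5 hne with ⟨ha, hb⟩ | ⟨ha, hb⟩
    · rw [ha, hb]
    · rw [ha, hb, real_inner_comm]
  have e3 : Bv (fun k => v (σ k)) = fun i j => Bv v (σ i) (σ j) := by
    funext i j
    unfold Bv
    have ei : ((σ i : ℕ) < 4) = ((i : ℕ) < 4) := propext (hσ.1 i)
    have ej : ((σ j : ℕ) < 4) = ((j : ℕ) < 4) := propext (hσ.1 j)
    by_cases hi : (i : ℕ) < 4
    · rw [if_pos hi, if_pos ((hσ.1 i).2 hi)]
    · rw [if_neg hi, if_neg (fun h => hi ((hσ.1 i).1 h))]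
      by_cases hj : (j : ℕ) < 4
      · rw [if_pos hj, if_pos ((hσ.1 j).2 hj)]
        show ⟪v (σ i), v (σ j) - v (σ (opp j))⟫ = _
        rw [hσ.2]
      · rw [if_neg hj, if_neg (fun h => hj ((hσ.1 j).1 h))]
  rw [e3]
  show back (⟪v (σ 4), v (σ 5)⟫ + cs) _ = _
  rw [e2]

/-! ### the shape is respected -/

theorem inner_close {x x' y y' : Eu 3} (hx' : ‖x'‖ = 1) (hy : ‖y‖ = 1) {d : ℝ}
    (h1 : dist x x' < d) (h2 : dist y y' < d) : ⟪x', y'⟫ ≤ ⟪x, y⟫ + 2 * d := by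
  have e : ⟪x', y'⟫ = ⟪x, y⟫ + ⟪x' - x, y⟫ + ⟪x', y' - y⟫ := by
    rw [inner_sub_left, inner_sub_right]
    ring
  have a := real_inner_le_norm (x' - x) y
  have b := real_inner_le_norm x' (y' - y)
  rw [hy, mul_one, ← dist_eq_norm, dist_comm] at a
  rw [hx', one_mul, ← dist_eq_norm, dist_comm] at b
  linarith

theorem gd_of_rel (hG : SGram) {g g' : Iso3} {σ : Equiv.Perm (Fin 6)} (h : RX aa g g' σ) : Gd σ := by
  obtain ⟨hn, _, _, _, _, _, _, hc1, hc2, ⟨h01, h12, h23, h03⟩, ⟨h02, h13⟩, h45⟩ := hG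
  have hs1 : (1.414 : ℝ) < √2 := by
    rw [show (1.414 : ℝ) = √(1.414 ^ 2) by rw [Real.sqrt_sq (by norm_num)]]
    exact Real.sqrt_lt_sqrt (by norm_num) (by norm_num)
  have hs2 : √2 < (1.415 : ℝ) := by
    rw [show (1.415 : ℝ) = √(1.415 ^ 2) by rw [Real.sqrt_sq (by norm_num)]]
    exact Real.sqrt_lt_sqrt (by norm_num) (by norm_num)
  have hself : ∀ i, ⟪aa i, aa i⟫ = 1 := by
    intro i
    rw [real_inner_self_eq_norm_sq, hn i]
    norm_num
  have hlt : ∀ a b : Fin 6, a < b → ⟪aa a, aa b⟫ < -(2 / 5) → (a : ℕ) < 4 ∧ b = opp a := by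
    intro a b hab hv
    by_cases hb : 4 ≤ (b : ℕ)
    · exfalso
      rw [h45 a b hab hb] at hv
      linarith
    · have hcases : (a = 0 ∧ b = 1) ∨ (a = 0 ∧ b = 2) ∨ (a = 0 ∧ b = 3) ∨ (a = 1 ∧ b = 2) ∨
          (a = 1 ∧ b = 3) ∨ (a = 2 ∧ b = 3) := by
        have : ∀ a b : Fin 6, a < b → ¬ 4 ≤ (b : ℕ) → (a = 0 ∧ b = 1) ∨ (a = 0 ∧ b = 2) ∨
          (a = 0 ∧ b = 3) ∨ (a = 1 ∧ b = 2) ∨ (a = 1 ∧ b = 3) ∨ (a = 2 ∧ b = 3) := by decide
        exact this a b hab hb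
      rcases hcases with ⟨rfl, rfl⟩ | ⟨rfl, rfl⟩ | ⟨rfl, rfl⟩ | ⟨rfl, rfl⟩ | ⟨rfl, rfl⟩ | ⟨rfl, rfl⟩
      · exfalso
        rw [h01] at hv
        linarith
      · exact ⟨by decide, rfl⟩
      · exfalso
        rw [h03] at hv
        linarith
      · exfalso
        rw [h12] at hv
        linarith
      · exact ⟨by decide, rfl⟩
      · exfalso
        rw [h23] at hv
        linarith
  have hopp2 : ∀ a : Fin 6, opp (opp a) = a := by decide
  have hopp4 : ∀ a : Fin 6, (a : ℕ) < 4 → (opp a : ℕ) < 4 := by decide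
  have hall : ∀ a b : Fin 6, ⟪aa a, aa b⟫ < -(2 / 5) → (a : ℕ) < 4 ∧ b = opp a := by
    intro a b hv
    rcases lt_trichotomy a b with hab | hab | hab
    · exact hlt a b hab hv
    · exfalso
      rw [hab, hself] at hv
      linarith
    · rw [real_inner_comm] at hv
      obtain ⟨h1, h2⟩ := hlt b a hab hv
      rw [h2]
      exact ⟨hopp4 b h1, (hopp2 b).symm⟩
  have hval : ∀ i : Fin 6, (i : ℕ) < 4 → ⟪aa i, aa (opp i)⟫ = 6 * √2 - 9 := by
    intro i hi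
    have : i = 0 ∨ i = 1 ∨ i = 2 ∨ i = 3 := by
      revert hi
      revert i
      decide
    rcases this with rfl | rfl | rfl | rfl
    · exact h02
    · exact h13
    · rw [real_inner_comm]
      exact h02
    · rw [real_inner_comm]
      exact h13
  have hng : ∀ (g : Iso3) (i : Fin 6), ‖g (aa i)‖ = 1 := fun g i => by
    rw [LinearIsometryEquiv.norm_map, hn]
  have hmain : ∀ i : Fin 6, (i : ℕ) < 4 → ((σ i : Fin 6) : ℕ) < 4 ∧ σ (opp i) = opp (σ i) := by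
    intro i hi
    apply hall
    have c := inner_close (hng g (σ i)) (hng g' (opp i)) (h i) (h (opp i))
    rw [LinearIsometryEquiv.inner_map_map, LinearIsometryEquiv.inner_map_map, hval i hi] at c
    linarith
  obtain ⟨A, hA⟩ : ∃ A : Finset (Fin 6), A = Finset.univ.filter (fun i : Fin 6 => (i : ℕ) < 4) := ⟨_, rfl⟩
  have hmem : ∀ i, i ∈ A ↔ (i : ℕ) < 4 := by
    intro i
    rw [hA]
    simp
  have hAA : A.map σ.toEmbedding = A := by
    apply Finset.eq_of_subset_of_card_le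
    · intro i hi
      obtain ⟨a, ha, rfl⟩ := Finset.mem_map.1 hi
      exact (hmem _).2 (hmain a ((hmem a).1 ha)).1
    · rw [Finset.card_map]
  have hiff : ∀ i : Fin 6, ((σ i : Fin 6) : ℕ) < 4 ↔ (i : ℕ) < 4 := by
    intro i
    constructor
    · intro hi
      have h1 : σ i ∈ A.map σ.toEmbedding := by
        rw [hAA]
        exact (hmem _).2 hi
      obtain ⟨a, ha, hai⟩ := Finset.mem_map.1 h1
      have : a = i := σ.injective hai
      rw [← this]
      exact (hmem a).1 ha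
    · intro hi
      exact (hmain i hi).1
  refine ⟨hiff, ?_⟩
  intro i
  by_cases hi : (i : ℕ) < 4
  · exact (hmain i hi).2
  · have h4 : ¬ ((σ i : Fin 6) : ℕ) < 4 := fun h => hi ((hiff i).1 h)
    have h5 : ¬ ((σ (opp i) : Fin 6) : ℕ) < 4 := fun h => hi ((opp_lt i).1 ((hiff _).1 h))
    have hne : σ (opp i) ≠ σ i := by
      intro h
      have hoi : ∀ i : Fin 6, opp i ≠ i := by decide
      exact hoi i (σ.injective h)
    have key : ∀ a b : Fin 6, ¬ (a : ℕ) < 4 → ¬ (b : ℕ) < 4 → b ≠ a → b = opp a := by decide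
    exact key _ _ h4 h5 hne

end RelAux

open RelAux in
theorem pRel (h1 : SGram) : SRel := by
  have hSa : Sep aa := h1.2.2.2.2.2.1
  have hSb : Sep bb := h1.2.2.2.2.2.2.1
  -- data of two frames
  have hdata : ∀ (r : ℝ) (g g' : Iso3) (p q : Sph 3 →₀ ℝ), r ≤ 1 / 100 → Pw p → Pw q →
      Frm r g p q → Frm r g' p q → ∃ σ σ' : Equiv.Perm (Fin 6), RX aa g g' σ ∧ RX bb g g' σ' ∧
        (∀ v, 0 < p v → lbA r g v = σ (lbA r g' v)) ∧
        ∀ v, 0 < q v → lbB r g v = σ' (lbB r g' v) := by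
    intro r g g' p q hr hp hq hF hF'
    obtain ⟨σ, hσ, hσl⟩ := lbX_rel (P := aa) hSa hr hF.1 hF'.1 (fun k => by
      apply ms_pos hp
      have := hF'.2.2.1 k
      rw [abs_lt] at this
      have e : ms (lbX aa r g') p k = ms (lbA r g') p k := rfl
      rw [e]
      linarith [this.1])
    obtain ⟨σ', hσ', hσl'⟩ := lbX_rel (P := bb) hSb hr hF.2.1 hF'.2.1 (fun k => by
      apply ms_pos hq
      have := hF'.2.2.2 k
      rw [abs_lt] at this
      have e : ms (lbX bb r g') q k = ms (lbB r g') q k := rfl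
      rw [e]
      linarith [this.1])
    exact ⟨σ, σ', hσ, hσ', hσl, hσl'⟩
  obtain ⟨γ, hγ⟩ : ∃ γ : Iso3 → Iso3 → ((Fin 15 → ℝ) ≃ₗ[ℝ] (Fin 15 → ℝ)), γ = fun g g' =>
      if h : ∃ s : Equiv.Perm (Fin 6) × Equiv.Perm (Fin 6), RX aa g g' s.1 ∧ RX bb g g' s.2
      then Gt h.choose.1 h.choose.2 else LinearEquiv.refl ℝ _ := ⟨_, rfl⟩
  have hγv : ∀ (g g' : Iso3) (σ σ' : Equiv.Perm (Fin 6)), RX aa g g' σ → RX bb g g' σ' →
      ∀ x, γ g g' x = L σ σ' x := by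
    intro g g' σ σ' hσ hσ' x
    have hex : ∃ s : Equiv.Perm (Fin 6) × Equiv.Perm (Fin 6), RX aa g g' s.1 ∧ RX bb g g' s.2 :=
      ⟨(σ, σ'), hσ, hσ'⟩
    have e : γ g g' = Gt hex.choose.1 hex.choose.2 := by
      rw [hγ]
      show (if h : ∃ s : Equiv.Perm (Fin 6) × Equiv.Perm (Fin 6), RX aa g g' s.1 ∧ RX bb g g' s.2
      then Gt h.choose.1 h.choose.2 else LinearEquiv.refl ℝ _) = _
      rw [dif_pos hex]
    have e1 : hex.choose.1 = σ := RX_unique hSa hex.choose_spec.1 hσ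
    have e2 : hex.choose.2 = σ' := RX_unique hSb hex.choose_spec.2 hσ'
    rw [e, e1, e2, Gt_apply (gd_of_rel h1 hσ)]
  refine ⟨γ, ?_, ?_, ?_⟩
  · apply Set.Finite.subset ((Set.finite_range
      (fun s : Equiv.Perm (Fin 6) × Equiv.Perm (Fin 6) => Gt s.1 s.2)).union
      (Set.finite_singleton (LinearEquiv.refl ℝ (Fin 15 → ℝ))))
    rintro f ⟨⟨g, g'⟩, rfl⟩
    show γ g g' ∈ _
    rw [hγ]
    show (if h : ∃ s : Equiv.Perm (Fin 6) × Equiv.Perm (Fin 6), RX aa g g' s.1 ∧ RX bb g g' s.2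
      then Gt h.choose.1 h.choose.2 else LinearEquiv.refl ℝ _) ∈ _
    split_ifs with h
    · left
      exact ⟨h.choose, rfl⟩
    · right
      rfl
  · intro r g g' p q _ hr hp hq hF hF'
    obtain ⟨σ, σ', hσ, hσ', hl, hl'⟩ := hdata r g g' p q hr hp hq hF hF'
    rw [hγv g g' σ σ' hσ hσ']
    have hG := gd_of_rel h1 hσ
    unfold L kp
    rw [xP_mk, xQ_mk, xZ_mk]
    have eP : (fun i : Fin 5 => ms (lbA r g') p i.castSucc - 1 / 6) =
        Lm σ (fun i : Fin 5 => ms (lbA r g) p i.castSucc - 1 / 6) := by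
      have e6 : ext6 (fun i : Fin 5 => ms (lbA r g) p i.castSucc - 1 / 6) =
          fun i => ms (lbA r g) p i - 1 / 6 := by
        apply ext6_eq
        · intro i
          rfl
        · rw [Finset.sum_sub_distrib, ms_sum hp]
          simp
      funext k
      show _ = ext6 _ _
      rw [e6]
      show ms (lbA r g') p k.castSucc - 1 / 6 = ms (lbA r g) p (σ k.castSucc) - 1 / 6
      rw [ms_rel hp hl]
    have eQ : (fun i : Fin 5 => ms (lbB r g') q i.castSucc - 1 / 6) =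
        Lm σ' (fun i : Fin 5 => ms (lbB r g) q i.castSucc - 1 / 6) := by
      have e6 : ext6 (fun i : Fin 5 => ms (lbB r g) q i.castSucc - 1 / 6) =
          fun i => ms (lbB r g) q i - 1 / 6 := by
        apply ext6_eq
        · intro i
          rfl
        · rw [Finset.sum_sub_distrib, ms_sum hq]
          simp
      funext k
      show _ = ext6 _ _
      rw [e6]
      show ms (lbB r g') q k.castSucc - 1 / 6 = ms (lbB r g) q (σ' k.castSucc) - 1 / 6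
      rw [ms_rel hq hl']
    have eZ : zz (bc (lbA r g') p) = LZ σ (zz (bc (lbA r g) p)) := by
      rw [← zz_perm hG]
      congr 1
      funext k
      exact bc_rel hp hl k
    rw [eP, eQ, eZ]
  · intro r g g' g'' p q _ hr hp hq hF hF' hF'' v
    obtain ⟨σ, σ', hσ, hσ', -, -⟩ := hdata r g g' p q hr hp hq hF hF'
    obtain ⟨τ, τ', hτ, hτ', -, -⟩ := hdata r g' g'' p q hr hp hq hF' hF''
    obtain ⟨ρ, ρ', hρ, hρ', -, -⟩ := hdata r g g'' p q hr hp hq hF hF''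
    rw [hγv g g' σ σ' hσ hσ', hγv g' g'' τ τ' hτ hτ', hγv g g'' ρ ρ' hρ hρ',
      L_comp (gd_of_rel h1 hσ), RX_comp hSa hσ hτ hρ, RX_comp hSb hσ' hτ' hρ']

end Pool.Agent.MPaafd8aB
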