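import Pool.Agent.Lib.MP_aafd8a_gt.B.SpecT

/-!
# MP_aafd8a_gt, block (B): the solutions form a segment
-/

set_option autoImplicit false

open scoped Classical

namespace Pool.Agent.MPaafd8aB

namespace SegAux

variable {X : Type} {D : ℕ}

/-- the solutions -/
def Zt (j : ℕ) (w : X → Fin D → ℝ) (S : Finset X) (l : X → ℝ) : Prop :=
  (∀ s ∈ S, 0 ≤ l s) ∧ ∑ s ∈ S, l s = 1 ∧ ∀ i : Fin D, (i : ℕ) < j → ∑ s ∈ S, l s * w s i = 0

/-- the homogeneous equations -/
def Hm (j : ℕ) (w : X → Fin D → ℝ) (S : Finset X) (e : X → ℝ) : Prop :=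
  ∑ s ∈ S, e s = 0 ∧ ∀ i : Fin D, (i : ℕ) < j → ∑ s ∈ S, e s * w s i = 0

theorem sum_add_mul {S : Finset X} (l e : X → ℝ) (t : ℝ) :
    ∑ s ∈ S, (l s + t * e s) = ∑ s ∈ S, l s + t * ∑ s ∈ S, e s := by
  rw [Finset.sum_add_distrib, Finset.mul_sum]

theorem sum_add_mul' {S : Finset X} (l e v : X → ℝ) (t : ℝ) :
    ∑ s ∈ S, (l s + t * e s) * v s = ∑ s ∈ S, l s * v s + t * ∑ s ∈ S, e s * v s := by
  rw [Finset.mul_sum, ← Finset.sum_add_distrib]
  exact Finset.sum_congr rfl fun s _ => by ring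

/-- Move to the boundary. -/
theorem bdry {j : ℕ} {w : X → Fin D → ℝ} {S : Finset X} {l e : X → ℝ} (hl : Zt j w S l) (he : Hm j w S e)
    (hn : ∃ s ∈ S, e s < 0) : ∃ t : ℝ, 0 ≤ t ∧ Zt j w S (fun s => l s + t * e s) ∧
      ∃ a ∈ S, e a < 0 ∧ l a + t * e a = 0 := by
  obtain ⟨s0, hs0, hs0n⟩ := hn
  obtain ⟨a, ha, hmin⟩ := Finset.exists_min_image (S.filter fun s => e s < 0) (fun s => l s / (- e s))
    ⟨s0, Finset.mem_filter.2 ⟨hs0, hs0n⟩⟩
  obtain ⟨haS, han⟩ := Finset.mem_filter.1 ha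
  have ht : 0 ≤ l a / (- e a) := div_nonneg (hl.1 a haS) (by linarith)
  refine ⟨l a / (- e a), ht, ⟨?_, ?_, ?_⟩, a, haS, han, ?_⟩
  · intro s hs
    show 0 ≤ l s + l a / (- e a) * e s
    by_cases h : e s < 0
    · have h1 := hmin s (Finset.mem_filter.2 ⟨hs, h⟩)
      have h2 : l a / (- e a) * (- e s) ≤ l s := by
        have h3 := mul_le_mul_of_nonneg_right h1 (show (0 : ℝ) ≤ - e s by linarith)
        rwa [div_mul_cancel₀ (l s) (show - e s ≠ 0 by linarith)] at h3
      linarith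
    · exact add_nonneg (hl.1 s hs) (mul_nonneg ht (not_lt.1 h))
  · show ∑ s ∈ S, (l s + l a / (- e a) * e s) = 1
    rw [sum_add_mul, hl.2.1, he.1]
    ring
  · intro i hi
    show ∑ s ∈ S, (l s + l a / (- e a) * e s) * w s i = 0
    rw [sum_add_mul' l e (fun s => w s i), hl.2.2 i hi, he.2 i hi]
    ring
  · have h : e a ≠ 0 := han.ne
    field_simp
    ring

theorem not_two {j : ℕ} {w : X → Fin D → ℝ} {S : Finset X} (hS : S.card = j + 2) (hG : GenH j w S) {l : X → ℝ}
    (hl : Zt j w S l) {a b : X} (ha : a ∈ S) (hb : b ∈ S) (hab : a ≠ b) (h1 : l a = 0) (h2 : l b = 0) : False := by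
  have hb' : b ∈ S.erase a := Finset.mem_erase.2 ⟨hab.symm, hb⟩
  have hsum : ∀ f : X → ℝ, f a = 0 → f b = 0 → ∑ s ∈ (S.erase a).erase b, f s = ∑ s ∈ S, f s := by
    intro f hfa hfb
    rw [Finset.sum_erase _ hfb, Finset.sum_erase _ hfa]
  refine hG ((S.erase a).erase b) ((Finset.erase_subset _ _).trans (Finset.erase_subset _ _)) ?_
    ⟨l, fun s hs => hl.1 s (Finset.mem_of_mem_erase (Finset.mem_of_mem_erase hs)), ?_, ?_⟩
  · rw [Finset.card_erase_of_mem hb', Finset.card_erase_of_mem ha, hS]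
    omega
  · rw [hsum l h1 h2]
    exact hl.2.1
  · intro i hi
    rw [hsum (fun s => l s * w s i) (by simp [h1]) (by simp [h2])]
    exact hl.2.2 i hi

theorem pos_of {j : ℕ} {w : X → Fin D → ℝ} {S : Finset X} (hS : S.card = j + 2) (hG : GenH j w S) {l : X → ℝ}
    (hl : Zt j w S l) {a : X} (ha : a ∈ S) (h1 : l a = 0) : ∀ s ∈ S, s ≠ a → 0 < l s := by
  intro s hs hsa
  rcases lt_or_eq_of_le (hl.1 s hs) with h | h
  · exact h
  · exact (not_two hS hG hl hs ha hsa h.symm h1).elim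

theorem exists_neg {S : Finset X} {e : X → ℝ} (he : ∑ s ∈ S, e s = 0) (hn : ∃ s ∈ S, e s ≠ 0) : ∃ s ∈ S, e s < 0 := by
  by_contra hcon
  push Not at hcon
  obtain ⟨s, hs, hne⟩ := hn
  exact hne ((Finset.sum_eq_zero_iff_of_nonneg hcon).1 he s hs)

theorem exists_rel (j : ℕ) (w : X → Fin D → ℝ) (S : Finset X) (hj : j ≤ D) (hS : S.card = j + 2) :
    ∃ d : X → ℝ, Hm j w S d ∧ ∃ s ∈ S, d s ≠ 0 := by
  let f : (S → ℝ) →ₗ[ℝ] (Option (Fin j) → ℝ) :=
    { toFun := fun v o => match o with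
        | none => ∑ s : S, v s
        | some i => ∑ s : S, v s * w s.1 (Fin.castLE hj i)
      map_add' := by
        intro u v
        funext o
        cases o with
        | none => simp [Finset.sum_add_distrib]
        | some i => simp [Finset.sum_add_distrib, add_mul]
      map_smul' := by
        intro c v
        funext o
        cases o with
        | none => simp [Finset.mul_sum]
        | some i => simp [Finset.mul_sum, mul_assoc] }
  have hk : LinearMap.ker f ≠ ⊥ := by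
    apply LinearMap.ker_ne_bot_of_finrank_lt
    rw [Module.finrank_fintype_fun_eq_card, Module.finrank_fintype_fun_eq_card, Fintype.card_option, Fintype.card_fin,
      Fintype.card_coe, hS]
    omega
  obtain ⟨v, hv, hv0⟩ := (Submodule.ne_bot_iff _).1 hk
  have hfv : f v = 0 := hv
  have hnone : ∑ s : S, v s = 0 := congrFun hfv none
  have hsome : ∀ i : Fin j, ∑ s : S, v s * w s.1 (Fin.castLE hj i) = 0 := fun i => congrFun hfv (some i)
  have hd : ∀ s : S, (if h : s.1 ∈ S then v ⟨s.1, h⟩ else 0) = v s := by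
    intro s
    rw [dif_pos s.2]
  refine ⟨fun x => if h : x ∈ S then v ⟨x, h⟩ else 0, ⟨?_, ?_⟩, ?_⟩
  · show ∑ s ∈ S, (if h : s ∈ S then v ⟨s, h⟩ else 0) = 0
    rw [← Finset.sum_coe_sort S (fun s => if h : s ∈ S then v ⟨s, h⟩ else 0)]
    refine Eq.trans ?_ hnone
    exact Finset.sum_congr rfl fun s _ => hd s
  · intro i hi
    show ∑ s ∈ S, (if h : s ∈ S then v ⟨s, h⟩ else 0) * w s i = 0
    rw [← Finset.sum_coe_sort S (fun s => (if h : s ∈ S then v ⟨s, h⟩ else 0) * w s i)]
    refine Eq.trans ?_ (hsome ⟨i, hi⟩)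
    refine Finset.sum_congr rfl fun s _ => ?_
    have h1 : Fin.castLE hj ⟨(i : ℕ), hi⟩ = i := Fin.ext rfl
    rw [h1]
    show (if h : s.1 ∈ S then v ⟨s.1, h⟩ else 0) * w s.1 i = v s * w s.1 i
    rw [hd s]
  · by_contra hcon
    push Not at hcon
    apply hv0
    funext s
    have := hcon s.1 s.2
    rw [hd s] at this
    exact this

end SegAux

open SegAux in
theorem pSeg : SSeg := by
  intro X D j w S hj hS hG hH
  obtain ⟨l, hl0, hl1, hl2⟩ := hH
  have hl : Zt j w S l := ⟨hl0, hl1, hl2⟩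
  obtain ⟨d, hd, hdn⟩ := exists_rel j w S hj hS
  have hd' : Hm j w S (fun s => - d s) := by
    refine ⟨?_, ?_⟩
    · rw [Finset.sum_neg_distrib, hd.1, neg_zero]
    · intro i hi
      have h := hd.2 i hi
      have h1 : ∑ s ∈ S, (- d s) * w s i = - ∑ s ∈ S, d s * w s i := by
        rw [← Finset.sum_neg_distrib]
        exact Finset.sum_congr rfl fun s _ => by ring
      rw [h1, h, neg_zero]
  have hneg := exists_neg hd.1 hdn
  have hpos : ∃ s ∈ S, (fun s => - d s) s < 0 := exists_neg hd'.1 (by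
    obtain ⟨s, hs, h⟩ := hdn
    exact ⟨s, hs, neg_ne_zero.2 h⟩)
  obtain ⟨tp, htp, hZp, ap, hap, hapn, hap0⟩ := bdry hl hd hneg
  obtain ⟨tm, htm, hZm, am, ham, hamn, ham0⟩ := bdry hl hd' hpos
  have hamn' : 0 < d am := by
    have : - d am < 0 := hamn
    linarith
  have hne : ap ≠ am := by
    rintro rfl
    linarith
  have hpp := pos_of hS hG hZp hap hap0
  have hpm := pos_of hS hG hZm ham ham0
  have hT : 0 < tp + tm := by
    rcases lt_or_eq_of_le (add_nonneg htp htm) with h | h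
    · exact h
    · exfalso
      have h1 : tp = 0 := by linarith
      have h2 : tm = 0 := by linarith
      refine not_two hS hG hl hap ham hne ?_ ?_
      · rw [h1] at hap0
        linarith
      · rw [h2] at ham0
        linarith
  refine ⟨fun s => l s + tp * d s, fun s => l s + tm * (- d s), ap, am, hap, ham, hne, hap0, ham0, hpp, hpm, hZp.2.1, hZm.2.1,
    hZp.2.2, hZm.2.2, ?_⟩
  intro l' h0' h1' h2'
  have hl' : Zt j w S l' := ⟨h0', h1', h2'⟩
  set c : ℝ := l' ap / d ap with hc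
  have hcd : c * d ap = l' ap := by
    rw [hc, div_mul_cancel₀ _ hapn.ne]
  have hkey : ∀ s ∈ S, l' s = l s + tp * d s + c * d s := by
    by_contra hcon
    push Not at hcon
    obtain ⟨s, hs, hsne⟩ := hcon
    have he : Hm j w S (fun s => l' s - (l s + tp * d s) - c * d s) := by
      refine ⟨?_, ?_⟩
      · show ∑ s ∈ S, (l' s - (l s + tp * d s) - c * d s) = 0
        rw [Finset.sum_sub_distrib, Finset.sum_sub_distrib, h1', hZp.2.1, ← Finset.mul_sum, hd.1]
        ring
      · intro i hi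
        show ∑ s ∈ S, (l' s - (l s + tp * d s) - c * d s) * w s i = 0
        have h3 : ∑ s ∈ S, (l' s - (l s + tp * d s) - c * d s) * w s i =
            ∑ s ∈ S, l' s * w s i - ∑ s ∈ S, (l s + tp * d s) * w s i - c * ∑ s ∈ S, d s * w s i := by
          rw [Finset.mul_sum, ← Finset.sum_sub_distrib, ← Finset.sum_sub_distrib]
          exact Finset.sum_congr rfl fun s _ => by ring
        rw [h3, h2' i hi, hZp.2.2 i hi, hd.2 i hi]
        ring
    have hen : ∃ s ∈ S, (fun s => l' s - (l s + tp * d s) - c * d s) s < 0 := by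
      refine exists_neg he.1 ⟨s, hs, ?_⟩
      intro h
      apply hsne
      have h4 : l' s - (l s + tp * d s) - c * d s = 0 := h
      linarith
    obtain ⟨t, ht, hZ, b, hb, hbn, hb0⟩ := bdry hZp he hen
    have hea : l' ap - (l ap + tp * d ap) - c * d ap = 0 := by
      rw [hap0, hcd]
      ring
    have hbne : ap ≠ b := by
      rintro rfl
      have : l' ap - (l ap + tp * d ap) - c * d ap < 0 := hbn
      linarith
    refine not_two hS hG hZ hap hb hbne ?_ hb0
    show l ap + tp * d ap + t * (l' ap - (l ap + tp * d ap) - c * d ap) = 0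
    rw [hea, hap0]
    ring
  have hform : ∀ s ∈ S, l' s = (1 - (1 + c / (tp + tm))) * (l s + tm * (- d s)) +
      (1 + c / (tp + tm)) * (l s + tp * d s) := by
    intro s hs
    rw [hkey s hs]
    have h5 : (tp + tm) ≠ 0 := hT.ne'
    field_simp
    ring
  refine ⟨1 + c / (tp + tm), ?_, ?_, hform⟩
  · have h6 := hform am ham
    have h7 : l am + tm * (- d am) = 0 := ham0
    rw [h7, mul_zero, zero_add] at h6
    have h8 : 0 < l am + tp * d am := hpp am ham hne.symm
    have h9 : 0 ≤ (1 + c / (tp + tm)) * (l am + tp * d am) := by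
      rw [← h6]
      exact h0' am ham
    exact nonneg_of_mul_nonneg_left h9 h8
  · have h6 := hform ap hap
    have h7 : l ap + tp * d ap = 0 := hap0
    rw [h7, mul_zero, add_zero] at h6
    have h8 : 0 < l ap + tm * (- d ap) := hpm ap hap hne
    have h9 : 0 ≤ (1 - (1 + c / (tp + tm))) * (l ap + tm * (- d ap)) := by
      rw [← h6]
      exact h0' ap hap
    have h10 := nonneg_of_mul_nonneg_left h9 h8
    linarith

end Pool.Agent.MPaafd8aB
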