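import Pool.Agent.Lib.MP_aafd8a_gt.B.SpecD

/-!
# MP_aafd8a_gt, block (B): shape displacements (explicit numbers, generated by a computer algebra script)
-/

set_option autoImplicit false

open Topology RealInnerProductSpace

open scoped Classical

namespace Pool.Agent.MPaafd8aB

open Pool.Agent.MPaafd8a

namespace ShpAux

/-- The displacements of the first pyramid. -/
noncomputable def uS (z : Fin 5 → ℝ) : Fin 6 → Eu 3 :=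
  ![vv ((-3/7) * z 0 + (1/7) * √2 * z 0) ((-3/7) * z 2 + (-5/14) * √2 * z 2) (2 * z 0 + (-1) * √2 * z 0) (0),
    vv ((-3/7) * z 1 + (-5/14) * √2 * z 1) ((-3/7) * z 0 + (1/7) * √2 * z 0) (2 * z 0 + (-1) * √2 * z 0) (0),
    vv ((3/7) * z 0 + (-1/7) * √2 * z 0) ((-3/7) * z 2 + (-5/14) * √2 * z 2) (2 * z 0 + (-1) * √2 * z 0) (0),
    vv ((-3/7) * z 1 + (-5/14) * √2 * z 1) ((3/7) * z 0 + (-1/7) * √2 * z 0) (2 * z 0 + (-1) * √2 * z 0) (0),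
    vv ((5/28) * z 3 + (5/28) * z 1 + (3/28) * √2 * z 3 + (3/28) * √2 * z 1) ((5/28) * z 4 + (5/28) * z 2 + (3/28) * √2 * z 4 + (3/28) * √2 * z 2) ((-1/2) * √2 * z 0) ((-2/7) * z 0 + (-1/14) * √2 * z 0),
    vv ((-5/28) * z 3 + (5/28) * z 1 + (-3/28) * √2 * z 3 + (3/28) * √2 * z 1) ((-5/28) * z 4 + (5/28) * z 2 + (-3/28) * √2 * z 4 + (3/28) * √2 * z 2) ((-1/2) * √2 * z 0) ((2/7) * z 0 + (1/14) * √2 * z 0)]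

/-- The displacements of the second pyramid. -/
noncomputable def vS (z : Fin 5 → ℝ) : Fin 6 → Eu 3 :=
  ![vv ((3/14) * z 2 + (-1/7) * z 1 + (-1/7) * z 0 + (5/28) * √2 * z 2 + (-1/28) * √2 * z 1 + (3/14) * √2 * z 0) ((-1/7) * z 2 + (3/14) * z 1 + (-1/7) * z 0 + (-1/28) * √2 * z 2 + (5/28) * √2 * z 1 + (3/14) * √2 * z 0) ((1/2) * z 2 + (1/2) * z 1 + 2 * z 0 + (-1) * √2 * z 0) ((-1/14) * z 4 + (-1/14) * z 3 + (-1/7) * √2 * z 4 + (-1/7) * √2 * z 3),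
    vv ((-3/14) * z 2 + (-1/7) * z 1 + (1/7) * z 0 + (-5/28) * √2 * z 2 + (-1/28) * √2 * z 1 + (-3/14) * √2 * z 0) ((-1/7) * z 2 + (-3/14) * z 1 + (-1/7) * z 0 + (-1/28) * √2 * z 2 + (-5/28) * √2 * z 1 + (3/14) * √2 * z 0) ((1/2) * z 2 + (-1/2) * z 1 + 2 * z 0 + (-1) * √2 * z 0) ((-1/14) * z 4 + (1/14) * z 3 + (-1/7) * √2 * z 4 + (1/7) * √2 * z 3),
    vv ((3/14) * z 2 + (-1/7) * z 1 + (1/7) * z 0 + (5/28) * √2 * z 2 + (-1/28) * √2 * z 1 + (-3/14) * √2 * z 0) ((-1/7) * z 2 + (3/14) * z 1 + (1/7) * z 0 + (-1/28) * √2 * z 2 + (5/28) * √2 * z 1 + (-3/14) * √2 * z 0) ((-1/2) * z 2 + (-1/2) * z 1 + 2 * z 0 + (-1) * √2 * z 0) ((1/14) * z 4 + (1/14) * z 3 + (1/7) * √2 * z 4 + (1/7) * √2 * z 3),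
    vv ((-3/14) * z 2 + (-1/7) * z 1 + (-1/7) * z 0 + (-5/28) * √2 * z 2 + (-1/28) * √2 * z 1 + (3/14) * √2 * z 0) ((-1/7) * z 2 + (-3/14) * z 1 + (1/7) * z 0 + (-1/28) * √2 * z 2 + (-5/28) * √2 * z 1 + (-3/14) * √2 * z 0) ((-1/2) * z 2 + (1/2) * z 1 + 2 * z 0 + (-1) * √2 * z 0) ((1/14) * z 4 + (-1/14) * z 3 + (1/7) * √2 * z 4 + (-1/7) * √2 * z 3),
    vv (0) (0) ((-1/2) * √2 * z 0) ((-2/7) * z 0 + (-1/14) * √2 * z 0),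
    vv (0) (0) ((-1/2) * √2 * z 0) ((2/7) * z 0 + (1/14) * √2 * z 0)]

theorem hs : √2 ^ 2 = (2 : ℝ) := Real.sq_sqrt (by norm_num)

theorem ta0 (h1 : SVv) (z : Fin 5 → ℝ) : ⟪aa 0, uS z 0⟫ = 0 := by
  show ⟪vv 1 0 (2 * √2 - 2) 0, vv ((-3/7) * z 0 + (1/7) * √2 * z 0) ((-3/7) * z 2 + (-5/14) * √2 * z 2) (2 * z 0 + (-1) * √2 * z 0) (0)⟫ = 0
  rw [h1.1]
  linear_combination ((15/14) * z 0 + (-1/2) * √2 * z 0) * hs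

theorem ta1 (h1 : SVv) (z : Fin 5 → ℝ) : ⟪aa 1, uS z 1⟫ = 0 := by
  show ⟪vv 0 1 (2 * √2 - 2) 0, vv ((-3/7) * z 1 + (-5/14) * √2 * z 1) ((-3/7) * z 0 + (1/7) * √2 * z 0) (2 * z 0 + (-1) * √2 * z 0) (0)⟫ = 0
  rw [h1.1]
  linear_combination ((15/14) * z 0 + (-1/2) * √2 * z 0) * hs

theorem ta2 (h1 : SVv) (z : Fin 5 → ℝ) : ⟪aa 2, uS z 2⟫ = 0 := by
  show ⟪vv (-1) 0 (2 * √2 - 2) 0, vv ((3/7) * z 0 + (-1/7) * √2 * z 0) ((-3/7) * z 2 + (-5/14) * √2 * z 2) (2 * z 0 + (-1) * √2 * z 0) (0)⟫ = 0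
  rw [h1.1]
  linear_combination ((15/14) * z 0 + (-1/2) * √2 * z 0) * hs

theorem ta3 (h1 : SVv) (z : Fin 5 → ℝ) : ⟪aa 3, uS z 3⟫ = 0 := by
  show ⟪vv 0 (-1) (2 * √2 - 2) 0, vv ((-3/7) * z 1 + (-5/14) * √2 * z 1) ((3/7) * z 0 + (-1/7) * √2 * z 0) (2 * z 0 + (-1) * √2 * z 0) (0)⟫ = 0
  rw [h1.1]
  linear_combination ((15/14) * z 0 + (-1/2) * √2 * z 0) * hs

theorem ta4 (h1 : SVv) (z : Fin 5 → ℝ) : ⟪aa 4, uS z 4⟫ = 0 := by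
  show ⟪vv 0 0 (-1) 1, vv ((5/28) * z 3 + (5/28) * z 1 + (3/28) * √2 * z 3 + (3/28) * √2 * z 1) ((5/28) * z 4 + (5/28) * z 2 + (3/28) * √2 * z 4 + (3/28) * √2 * z 2) ((-1/2) * √2 * z 0) ((-2/7) * z 0 + (-1/14) * √2 * z 0)⟫ = 0
  rw [h1.1]
  linear_combination ((1/7) * z 0) * hs

theorem ta5 (h1 : SVv) (z : Fin 5 → ℝ) : ⟪aa 5, uS z 5⟫ = 0 := by
  show ⟪vv 0 0 (-1) (-1), vv ((-5/28) * z 3 + (5/28) * z 1 + (-3/28) * √2 * z 3 + (3/28) * √2 * z 1) ((-5/28) * z 4 + (5/28) * z 2 + (-3/28) * √2 * z 4 + (3/28) * √2 * z 2) ((-1/2) * √2 * z 0) ((2/7) * z 0 + (1/14) * √2 * z 0)⟫ = 0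
  rw [h1.1]
  linear_combination ((1/7) * z 0) * hs

theorem tb0 (h1 : SVv) (z : Fin 5 → ℝ) : ⟪bb 0, vS z 0⟫ = 0 := by
  show ⟪vv (√2 / 2) (√2 / 2) (2 - 2 * √2) 0, vv ((3/14) * z 2 + (-1/7) * z 1 + (-1/7) * z 0 + (5/28) * √2 * z 2 + (-1/28) * √2 * z 1 + (3/14) * √2 * z 0) ((-1/7) * z 2 + (3/14) * z 1 + (-1/7) * z 0 + (-1/28) * √2 * z 2 + (5/28) * √2 * z 1 + (3/14) * √2 * z 0) ((1/2) * z 2 + (1/2) * z 1 + 2 * z 0 + (-1) * √2 * z 0) ((-1/14) * z 4 + (-1/14) * z 3 + (-1/7) * √2 * z 4 + (-1/7) * √2 * z 3)⟫ = 0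
  rw [h1.1]
  linear_combination ((-3/14) * √2 * z 2 + (-3/14) * √2 * z 1 + (-1/7) * √2 * z 0) * hs

theorem tb1 (h1 : SVv) (z : Fin 5 → ℝ) : ⟪bb 1, vS z 1⟫ = 0 := by
  show ⟪vv (-(√2 / 2)) (√2 / 2) (2 - 2 * √2) 0, vv ((-3/14) * z 2 + (-1/7) * z 1 + (1/7) * z 0 + (-5/28) * √2 * z 2 + (-1/28) * √2 * z 1 + (-3/14) * √2 * z 0) ((-1/7) * z 2 + (-3/14) * z 1 + (-1/7) * z 0 + (-1/28) * √2 * z 2 + (-5/28) * √2 * z 1 + (3/14) * √2 * z 0) ((1/2) * z 2 + (-1/2) * z 1 + 2 * z 0 + (-1) * √2 * z 0) ((-1/14) * z 4 + (1/14) * z 3 + (-1/7) * √2 * z 4 + (1/7) * √2 * z 3)⟫ = 0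
  rw [h1.1]
  linear_combination ((-3/14) * √2 * z 2 + (3/14) * √2 * z 1 + (-1/7) * √2 * z 0) * hs

theorem tb2 (h1 : SVv) (z : Fin 5 → ℝ) : ⟪bb 2, vS z 2⟫ = 0 := by
  show ⟪vv (-(√2 / 2)) (-(√2 / 2)) (2 - 2 * √2) 0, vv ((3/14) * z 2 + (-1/7) * z 1 + (1/7) * z 0 + (5/28) * √2 * z 2 + (-1/28) * √2 * z 1 + (-3/14) * √2 * z 0) ((-1/7) * z 2 + (3/14) * z 1 + (1/7) * z 0 + (-1/28) * √2 * z 2 + (5/28) * √2 * z 1 + (-3/14) * √2 * z 0) ((-1/2) * z 2 + (-1/2) * z 1 + 2 * z 0 + (-1) * √2 * z 0) ((1/14) * z 4 + (1/14) * z 3 + (1/7) * √2 * z 4 + (1/7) * √2 * z 3)⟫ = 0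
  rw [h1.1]
  linear_combination ((3/14) * √2 * z 2 + (3/14) * √2 * z 1 + (-1/7) * √2 * z 0) * hs

theorem tb3 (h1 : SVv) (z : Fin 5 → ℝ) : ⟪bb 3, vS z 3⟫ = 0 := by
  show ⟪vv (√2 / 2) (-(√2 / 2)) (2 - 2 * √2) 0, vv ((-3/14) * z 2 + (-1/7) * z 1 + (-1/7) * z 0 + (-5/28) * √2 * z 2 + (-1/28) * √2 * z 1 + (3/14) * √2 * z 0) ((-1/7) * z 2 + (-3/14) * z 1 + (1/7) * z 0 + (-1/28) * √2 * z 2 + (-5/28) * √2 * z 1 + (-3/14) * √2 * z 0) ((-1/2) * z 2 + (1/2) * z 1 + 2 * z 0 + (-1) * √2 * z 0) ((1/14) * z 4 + (-1/14) * z 3 + (1/7) * √2 * z 4 + (-1/7) * √2 * z 3)⟫ = 0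
  rw [h1.1]
  linear_combination ((3/14) * √2 * z 2 + (-3/14) * √2 * z 1 + (-1/7) * √2 * z 0) * hs

theorem tb4 (h1 : SVv) (z : Fin 5 → ℝ) : ⟪bb 4, vS z 4⟫ = 0 := by
  show ⟪vv 0 0 1 (-1), vv (0) (0) ((-1/2) * √2 * z 0) ((-2/7) * z 0 + (-1/14) * √2 * z 0)⟫ = 0
  rw [h1.1]
  linear_combination ((-1/7) * z 0) * hs

theorem tb5 (h1 : SVv) (z : Fin 5 → ℝ) : ⟪bb 5, vS z 5⟫ = 0 := by
  show ⟪vv 0 0 1 1, vv (0) (0) ((-1/2) * √2 * z 0) ((2/7) * z 0 + (1/14) * √2 * z 0)⟫ = 0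
  rw [h1.1]
  linear_combination ((-1/7) * z 0) * hs

theorem lc00 (h1 : SVv) (z : Fin 5 → ℝ) : Lc (uS z) (vS z) 0 0 = 0 := by
  show ⟪vv ((-3/7) * z 0 + (1/7) * √2 * z 0) ((-3/7) * z 2 + (-5/14) * √2 * z 2) (2 * z 0 + (-1) * √2 * z 0) (0), vv (√2 / 2) (√2 / 2) (2 - 2 * √2) 0⟫ + ⟪vv 1 0 (2 * √2 - 2) 0, vv ((3/14) * z 2 + (-1/7) * z 1 + (-1/7) * z 0 + (5/28) * √2 * z 2 + (-1/28) * √2 * z 1 + (3/14) * √2 * z 0) ((-1/7) * z 2 + (3/14) * z 1 + (-1/7) * z 0 + (-1/28) * √2 * z 2 + (5/28) * √2 * z 1 + (3/14) * √2 * z 0) ((1/2) * z 2 + (1/2) * z 1 + 2 * z 0 + (-1) * √2 * z 0) ((-1/14) * z 4 + (-1/14) * z 3 + (-1/7) * √2 * z 4 + (-1/7) * √2 * z 3)⟫ = 0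
  rw [h1.1, h1.1]
  linear_combination ((-15/28) * z 2 + (5/14) * z 1 + (5/14) * z 0 + (15/28) * √2 * z 2 + (-3/14) * √2 * z 0) * hs

theorem lc03 (h1 : SVv) (z : Fin 5 → ℝ) : Lc (uS z) (vS z) 0 3 = 0 := by
  show ⟪vv ((-3/7) * z 0 + (1/7) * √2 * z 0) ((-3/7) * z 2 + (-5/14) * √2 * z 2) (2 * z 0 + (-1) * √2 * z 0) (0), vv (√2 / 2) (-(√2 / 2)) (2 - 2 * √2) 0⟫ + ⟪vv 1 0 (2 * √2 - 2) 0, vv ((-3/14) * z 2 + (-1/7) * z 1 + (-1/7) * z 0 + (-5/28) * √2 * z 2 + (-1/28) * √2 * z 1 + (3/14) * √2 * z 0) ((-1/7) * z 2 + (-3/14) * z 1 + (1/7) * z 0 + (-1/28) * √2 * z 2 + (-5/28) * √2 * z 1 + (-3/14) * √2 * z 0) ((-1/2) * z 2 + (1/2) * z 1 + 2 * z 0 + (-1) * √2 * z 0) ((1/14) * z 4 + (-1/14) * z 3 + (1/7) * √2 * z 4 + (-1/7) * √2 * z 3)⟫ = 0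
  rw [h1.1, h1.1]
  linear_combination ((15/28) * z 2 + (5/14) * z 1 + (5/14) * z 0 + (-15/28) * √2 * z 2 + (-3/14) * √2 * z 0) * hs

theorem lc04 (h1 : SVv) (z : Fin 5 → ℝ) : Lc (uS z) (vS z) 0 4 = 0 := by
  show ⟪vv ((-3/7) * z 0 + (1/7) * √2 * z 0) ((-3/7) * z 2 + (-5/14) * √2 * z 2) (2 * z 0 + (-1) * √2 * z 0) (0), vv 0 0 1 (-1)⟫ + ⟪vv 1 0 (2 * √2 - 2) 0, vv (0) (0) ((-1/2) * √2 * z 0) ((-2/7) * z 0 + (-1/14) * √2 * z 0)⟫ = 0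
  rw [h1.1, h1.1]
  linear_combination ((-1/4) * √2 * z 0) * hs

theorem lc05 (h1 : SVv) (z : Fin 5 → ℝ) : Lc (uS z) (vS z) 0 5 = 0 := by
  show ⟪vv ((-3/7) * z 0 + (1/7) * √2 * z 0) ((-3/7) * z 2 + (-5/14) * √2 * z 2) (2 * z 0 + (-1) * √2 * z 0) (0), vv 0 0 1 1⟫ + ⟪vv 1 0 (2 * √2 - 2) 0, vv (0) (0) ((-1/2) * √2 * z 0) ((2/7) * z 0 + (1/14) * √2 * z 0)⟫ = 0
  rw [h1.1, h1.1]
  linear_combination ((-1/4) * √2 * z 0) * hs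

theorem lc10 (h1 : SVv) (z : Fin 5 → ℝ) : Lc (uS z) (vS z) 1 0 = 0 := by
  show ⟪vv ((-3/7) * z 1 + (-5/14) * √2 * z 1) ((-3/7) * z 0 + (1/7) * √2 * z 0) (2 * z 0 + (-1) * √2 * z 0) (0), vv (√2 / 2) (√2 / 2) (2 - 2 * √2) 0⟫ + ⟪vv 0 1 (2 * √2 - 2) 0, vv ((3/14) * z 2 + (-1/7) * z 1 + (-1/7) * z 0 + (5/28) * √2 * z 2 + (-1/28) * √2 * z 1 + (3/14) * √2 * z 0) ((-1/7) * z 2 + (3/14) * z 1 + (-1/7) * z 0 + (-1/28) * √2 * z 2 + (5/28) * √2 * z 1 + (3/14) * √2 * z 0) ((1/2) * z 2 + (1/2) * z 1 + 2 * z 0 + (-1) * √2 * z 0) ((-1/14) * z 4 + (-1/14) * z 3 + (-1/7) * √2 * z 4 + (-1/7) * √2 * z 3)⟫ = 0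
  rw [h1.1, h1.1]
  linear_combination ((5/14) * z 2 + (-15/28) * z 1 + (5/14) * z 0 + (15/28) * √2 * z 1 + (-3/14) * √2 * z 0) * hs

theorem lc11 (h1 : SVv) (z : Fin 5 → ℝ) : Lc (uS z) (vS z) 1 1 = 0 := by
  show ⟪vv ((-3/7) * z 1 + (-5/14) * √2 * z 1) ((-3/7) * z 0 + (1/7) * √2 * z 0) (2 * z 0 + (-1) * √2 * z 0) (0), vv (-(√2 / 2)) (√2 / 2) (2 - 2 * √2) 0⟫ + ⟪vv 0 1 (2 * √2 - 2) 0, vv ((-3/14) * z 2 + (-1/7) * z 1 + (1/7) * z 0 + (-5/28) * √2 * z 2 + (-1/28) * √2 * z 1 + (-3/14) * √2 * z 0) ((-1/7) * z 2 + (-3/14) * z 1 + (-1/7) * z 0 + (-1/28) * √2 * z 2 + (-5/28) * √2 * z 1 + (3/14) * √2 * z 0) ((1/2) * z 2 + (-1/2) * z 1 + 2 * z 0 + (-1) * √2 * z 0) ((-1/14) * z 4 + (1/14) * z 3 + (-1/7) * √2 * z 4 + (1/7) * √2 * z 3)⟫ = 0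
  rw [h1.1, h1.1]
  linear_combination ((5/14) * z 2 + (15/28) * z 1 + (5/14) * z 0 + (-15/28) * √2 * z 1 + (-3/14) * √2 * z 0) * hs

theorem lc14 (h1 : SVv) (z : Fin 5 → ℝ) : Lc (uS z) (vS z) 1 4 = 0 := by
  show ⟪vv ((-3/7) * z 1 + (-5/14) * √2 * z 1) ((-3/7) * z 0 + (1/7) * √2 * z 0) (2 * z 0 + (-1) * √2 * z 0) (0), vv 0 0 1 (-1)⟫ + ⟪vv 0 1 (2 * √2 - 2) 0, vv (0) (0) ((-1/2) * √2 * z 0) ((-2/7) * z 0 + (-1/14) * √2 * z 0)⟫ = 0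
  rw [h1.1, h1.1]
  linear_combination ((-1/4) * √2 * z 0) * hs

theorem lc15 (h1 : SVv) (z : Fin 5 → ℝ) : Lc (uS z) (vS z) 1 5 = 0 := by
  show ⟪vv ((-3/7) * z 1 + (-5/14) * √2 * z 1) ((-3/7) * z 0 + (1/7) * √2 * z 0) (2 * z 0 + (-1) * √2 * z 0) (0), vv 0 0 1 1⟫ + ⟪vv 0 1 (2 * √2 - 2) 0, vv (0) (0) ((-1/2) * √2 * z 0) ((2/7) * z 0 + (1/14) * √2 * z 0)⟫ = 0
  rw [h1.1, h1.1]
  linear_combination ((-1/4) * √2 * z 0) * hs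

theorem lc21 (h1 : SVv) (z : Fin 5 → ℝ) : Lc (uS z) (vS z) 2 1 = 0 := by
  show ⟪vv ((3/7) * z 0 + (-1/7) * √2 * z 0) ((-3/7) * z 2 + (-5/14) * √2 * z 2) (2 * z 0 + (-1) * √2 * z 0) (0), vv (-(√2 / 2)) (√2 / 2) (2 - 2 * √2) 0⟫ + ⟪vv (-1) 0 (2 * √2 - 2) 0, vv ((-3/14) * z 2 + (-1/7) * z 1 + (1/7) * z 0 + (-5/28) * √2 * z 2 + (-1/28) * √2 * z 1 + (-3/14) * √2 * z 0) ((-1/7) * z 2 + (-3/14) * z 1 + (-1/7) * z 0 + (-1/28) * √2 * z 2 + (-5/28) * √2 * z 1 + (3/14) * √2 * z 0) ((1/2) * z 2 + (-1/2) * z 1 + 2 * z 0 + (-1) * √2 * z 0) ((-1/14) * z 4 + (1/14) * z 3 + (-1/7) * √2 * z 4 + (1/7) * √2 * z 3)⟫ = 0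
  rw [h1.1, h1.1]
  linear_combination ((-15/28) * z 2 + (-5/14) * z 1 + (5/14) * z 0 + (15/28) * √2 * z 2 + (-3/14) * √2 * z 0) * hs

theorem lc22 (h1 : SVv) (z : Fin 5 → ℝ) : Lc (uS z) (vS z) 2 2 = 0 := by
  show ⟪vv ((3/7) * z 0 + (-1/7) * √2 * z 0) ((-3/7) * z 2 + (-5/14) * √2 * z 2) (2 * z 0 + (-1) * √2 * z 0) (0), vv (-(√2 / 2)) (-(√2 / 2)) (2 - 2 * √2) 0⟫ + ⟪vv (-1) 0 (2 * √2 - 2) 0, vv ((3/14) * z 2 + (-1/7) * z 1 + (1/7) * z 0 + (5/28) * √2 * z 2 + (-1/28) * √2 * z 1 + (-3/14) * √2 * z 0) ((-1/7) * z 2 + (3/14) * z 1 + (1/7) * z 0 + (-1/28) * √2 * z 2 + (5/28) * √2 * z 1 + (-3/14) * √2 * z 0) ((-1/2) * z 2 + (-1/2) * z 1 + 2 * z 0 + (-1) * √2 * z 0) ((1/14) * z 4 + (1/14) * z 3 + (1/7) * √2 * z 4 + (1/7) * √2 * z 3)⟫ = 0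
  rw [h1.1, h1.1]
  linear_combination ((15/28) * z 2 + (-5/14) * z 1 + (5/14) * z 0 + (-15/28) * √2 * z 2 + (-3/14) * √2 * z 0) * hs

theorem lc24 (h1 : SVv) (z : Fin 5 → ℝ) : Lc (uS z) (vS z) 2 4 = 0 := by
  show ⟪vv ((3/7) * z 0 + (-1/7) * √2 * z 0) ((-3/7) * z 2 + (-5/14) * √2 * z 2) (2 * z 0 + (-1) * √2 * z 0) (0), vv 0 0 1 (-1)⟫ + ⟪vv (-1) 0 (2 * √2 - 2) 0, vv (0) (0) ((-1/2) * √2 * z 0) ((-2/7) * z 0 + (-1/14) * √2 * z 0)⟫ = 0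
  rw [h1.1, h1.1]
  linear_combination ((-1/4) * √2 * z 0) * hs

theorem lc25 (h1 : SVv) (z : Fin 5 → ℝ) : Lc (uS z) (vS z) 2 5 = 0 := by
  show ⟪vv ((3/7) * z 0 + (-1/7) * √2 * z 0) ((-3/7) * z 2 + (-5/14) * √2 * z 2) (2 * z 0 + (-1) * √2 * z 0) (0), vv 0 0 1 1⟫ + ⟪vv (-1) 0 (2 * √2 - 2) 0, vv (0) (0) ((-1/2) * √2 * z 0) ((2/7) * z 0 + (1/14) * √2 * z 0)⟫ = 0
  rw [h1.1, h1.1]
  linear_combination ((-1/4) * √2 * z 0) * hs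

theorem lc32 (h1 : SVv) (z : Fin 5 → ℝ) : Lc (uS z) (vS z) 3 2 = 0 := by
  show ⟪vv ((-3/7) * z 1 + (-5/14) * √2 * z 1) ((3/7) * z 0 + (-1/7) * √2 * z 0) (2 * z 0 + (-1) * √2 * z 0) (0), vv (-(√2 / 2)) (-(√2 / 2)) (2 - 2 * √2) 0⟫ + ⟪vv 0 (-1) (2 * √2 - 2) 0, vv ((3/14) * z 2 + (-1/7) * z 1 + (1/7) * z 0 + (5/28) * √2 * z 2 + (-1/28) * √2 * z 1 + (-3/14) * √2 * z 0) ((-1/7) * z 2 + (3/14) * z 1 + (1/7) * z 0 + (-1/28) * √2 * z 2 + (5/28) * √2 * z 1 + (-3/14) * √2 * z 0) ((-1/2) * z 2 + (-1/2) * z 1 + 2 * z 0 + (-1) * √2 * z 0) ((1/14) * z 4 + (1/14) * z 3 + (1/7) * √2 * z 4 + (1/7) * √2 * z 3)⟫ = 0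
  rw [h1.1, h1.1]
  linear_combination ((-5/14) * z 2 + (15/28) * z 1 + (5/14) * z 0 + (-15/28) * √2 * z 1 + (-3/14) * √2 * z 0) * hs

theorem lc33 (h1 : SVv) (z : Fin 5 → ℝ) : Lc (uS z) (vS z) 3 3 = 0 := by
  show ⟪vv ((-3/7) * z 1 + (-5/14) * √2 * z 1) ((3/7) * z 0 + (-1/7) * √2 * z 0) (2 * z 0 + (-1) * √2 * z 0) (0), vv (√2 / 2) (-(√2 / 2)) (2 - 2 * √2) 0⟫ + ⟪vv 0 (-1) (2 * √2 - 2) 0, vv ((-3/14) * z 2 + (-1/7) * z 1 + (-1/7) * z 0 + (-5/28) * √2 * z 2 + (-1/28) * √2 * z 1 + (3/14) * √2 * z 0) ((-1/7) * z 2 + (-3/14) * z 1 + (1/7) * z 0 + (-1/28) * √2 * z 2 + (-5/28) * √2 * z 1 + (-3/14) * √2 * z 0) ((-1/2) * z 2 + (1/2) * z 1 + 2 * z 0 + (-1) * √2 * z 0) ((1/14) * z 4 + (-1/14) * z 3 + (1/7) * √2 * z 4 + (-1/7) * √2 * z 3)⟫ = 0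
  rw [h1.1, h1.1]
  linear_combination ((-5/14) * z 2 + (-15/28) * z 1 + (5/14) * z 0 + (15/28) * √2 * z 1 + (-3/14) * √2 * z 0) * hs

theorem lc34 (h1 : SVv) (z : Fin 5 → ℝ) : Lc (uS z) (vS z) 3 4 = 0 := by
  show ⟪vv ((-3/7) * z 1 + (-5/14) * √2 * z 1) ((3/7) * z 0 + (-1/7) * √2 * z 0) (2 * z 0 + (-1) * √2 * z 0) (0), vv 0 0 1 (-1)⟫ + ⟪vv 0 (-1) (2 * √2 - 2) 0, vv (0) (0) ((-1/2) * √2 * z 0) ((-2/7) * z 0 + (-1/14) * √2 * z 0)⟫ = 0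
  rw [h1.1, h1.1]
  linear_combination ((-1/4) * √2 * z 0) * hs

theorem lc35 (h1 : SVv) (z : Fin 5 → ℝ) : Lc (uS z) (vS z) 3 5 = 0 := by
  show ⟪vv ((-3/7) * z 1 + (-5/14) * √2 * z 1) ((3/7) * z 0 + (-1/7) * √2 * z 0) (2 * z 0 + (-1) * √2 * z 0) (0), vv 0 0 1 1⟫ + ⟪vv 0 (-1) (2 * √2 - 2) 0, vv (0) (0) ((-1/2) * √2 * z 0) ((2/7) * z 0 + (1/14) * √2 * z 0)⟫ = 0
  rw [h1.1, h1.1]
  linear_combination ((-1/4) * √2 * z 0) * hs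

theorem lc40 (h1 : SVv) (z : Fin 5 → ℝ) : Lc (uS z) (vS z) 4 0 = 0 := by
  show ⟪vv ((5/28) * z 3 + (5/28) * z 1 + (3/28) * √2 * z 3 + (3/28) * √2 * z 1) ((5/28) * z 4 + (5/28) * z 2 + (3/28) * √2 * z 4 + (3/28) * √2 * z 2) ((-1/2) * √2 * z 0) ((-2/7) * z 0 + (-1/14) * √2 * z 0), vv (√2 / 2) (√2 / 2) (2 - 2 * √2) 0⟫ + ⟪vv 0 0 (-1) 1, vv ((3/14) * z 2 + (-1/7) * z 1 + (-1/7) * z 0 + (5/28) * √2 * z 2 + (-1/28) * √2 * z 1 + (3/14) * √2 * z 0) ((-1/7) * z 2 + (3/14) * z 1 + (-1/7) * z 0 + (-1/28) * √2 * z 2 + (5/28) * √2 * z 1 + (3/14) * √2 * z 0) ((1/2) * z 2 + (1/2) * z 1 + 2 * z 0 + (-1) * √2 * z 0) ((-1/14) * z 4 + (-1/14) * z 3 + (-1/7) * √2 * z 4 + (-1/7) * √2 * z 3)⟫ = 0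
  rw [h1.1, h1.1]
  linear_combination ((1/28) * z 4 + (1/28) * z 3 + (-9/56) * √2 * z 4 + (-9/56) * √2 * z 3 + (-9/56) * √2 * z 2 + (-9/56) * √2 * z 1 + (1/4) * √2 * z 0) * hs

theorem lc41 (h1 : SVv) (z : Fin 5 → ℝ) : Lc (uS z) (vS z) 4 1 = 0 := by
  show ⟪vv ((5/28) * z 3 + (5/28) * z 1 + (3/28) * √2 * z 3 + (3/28) * √2 * z 1) ((5/28) * z 4 + (5/28) * z 2 + (3/28) * √2 * z 4 + (3/28) * √2 * z 2) ((-1/2) * √2 * z 0) ((-2/7) * z 0 + (-1/14) * √2 * z 0), vv (-(√2 / 2)) (√2 / 2) (2 - 2 * √2) 0⟫ + ⟪vv 0 0 (-1) 1, vv ((-3/14) * z 2 + (-1/7) * z 1 + (1/7) * z 0 + (-5/28) * √2 * z 2 + (-1/28) * √2 * z 1 + (-3/14) * √2 * z 0) ((-1/7) * z 2 + (-3/14) * z 1 + (-1/7) * z 0 + (-1/28) * √2 * z 2 + (-5/28) * √2 * z 1 + (3/14) * √2 * z 0) ((1/2) * z 2 + (-1/2) * z 1 + 2 * z 0 + (-1) * √2 * z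 0) ((-1/14) * z 4 + (1/14) * z 3 + (-1/7) * √2 * z 4 + (1/7) * √2 * z 3)⟫ = 0
  rw [h1.1, h1.1]
  linear_combination ((1/28) * z 4 + (-1/28) * z 3 + (-9/56) * √2 * z 4 + (9/56) * √2 * z 3 + (-9/56) * √2 * z 2 + (9/56) * √2 * z 1 + (1/4) * √2 * z 0) * hs

theorem lc42 (h1 : SVv) (z : Fin 5 → ℝ) : Lc (uS z) (vS z) 4 2 = 0 := by
  show ⟪vv ((5/28) * z 3 + (5/28) * z 1 + (3/28) * √2 * z 3 + (3/28) * √2 * z 1) ((5/28) * z 4 + (5/28) * z 2 + (3/28) * √2 * z 4 + (3/28) * √2 * z 2) ((-1/2) * √2 * z 0) ((-2/7) * z 0 + (-1/14) * √2 * z 0), vv (-(√2 / 2)) (-(√2 / 2)) (2 - 2 * √2) 0⟫ + ⟪vv 0 0 (-1) 1, vv ((3/14) * z 2 + (-1/7) * z 1 + (1/7) * z 0 + (5/28) * √2 * z 2 + (-1/28) * √2 * z 1 + (-3/14) * √2 * z 0) ((-1/7) * z 2 + (3/14) * z 1 + (1/7) * z 0 + (-1/28) * √2 * z 2 + (5/28) * √2 * z 1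 + (-3/14) * √2 * z 0) ((-1/2) * z 2 + (-1/2) * z 1 + 2 * z 0 + (-1) * √2 * z 0) ((1/14) * z 4 + (1/14) * z 3 + (1/7) * √2 * z 4 + (1/7) * √2 * z 3)⟫ = 0
  rw [h1.1, h1.1]
  linear_combination ((-1/28) * z 4 + (-1/28) * z 3 + (9/56) * √2 * z 4 + (9/56) * √2 * z 3 + (9/56) * √2 * z 2 + (9/56) * √2 * z 1 + (1/4) * √2 * z 0) * hs

theorem lc43 (h1 : SVv) (z : Fin 5 → ℝ) : Lc (uS z) (vS z) 4 3 = 0 := by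
  show ⟪vv ((5/28) * z 3 + (5/28) * z 1 + (3/28) * √2 * z 3 + (3/28) * √2 * z 1) ((5/28) * z 4 + (5/28) * z 2 + (3/28) * √2 * z 4 + (3/28) * √2 * z 2) ((-1/2) * √2 * z 0) ((-2/7) * z 0 + (-1/14) * √2 * z 0), vv (√2 / 2) (-(√2 / 2)) (2 - 2 * √2) 0⟫ + ⟪vv 0 0 (-1) 1, vv ((-3/14) * z 2 + (-1/7) * z 1 + (-1/7) * z 0 + (-5/28) * √2 * z 2 + (-1/28) * √2 * z 1 + (3/14) * √2 * z 0) ((-1/7) * z 2 + (-3/14) * z 1 + (1/7) * z 0 + (-1/28) * √2 * z 2 + (-5/28) * √2 * z 1 + (-3/14) * √2 * z 0) ((-1/2) * z 2 + (1/2) * z 1 + 2 * z 0 + (-1) * √2 * z 0) ((1/14) * z 4 + (-1/14) * z 3 + (1/7) * √2 * z 4 + (-1/7) * √2 * z 3)⟫ = 0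
  rw [h1.1, h1.1]
  linear_combination ((-1/28) * z 4 + (1/28) * z 3 + (9/56) * √2 * z 4 + (-9/56) * √2 * z 3 + (9/56) * √2 * z 2 + (-9/56) * √2 * z 1 + (1/4) * √2 * z 0) * hs

theorem lc45 (h1 : SVv) (z : Fin 5 → ℝ) : Lc (uS z) (vS z) 4 5 = 0 := by
  show ⟪vv ((5/28) * z 3 + (5/28) * z 1 + (3/28) * √2 * z 3 + (3/28) * √2 * z 1) ((5/28) * z 4 + (5/28) * z 2 + (3/28) * √2 * z 4 + (3/28) * √2 * z 2) ((-1/2) * √2 * z 0) ((-2/7) * z 0 + (-1/14) * √2 * z 0), vv 0 0 1 1⟫ + ⟪vv 0 0 (-1) 1, vv (0) (0) ((-1/2) * √2 * z 0) ((2/7) * z 0 + (1/14) * √2 * z 0)⟫ = 0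
  rw [h1.1, h1.1]
  ring

theorem lc50 (h1 : SVv) (z : Fin 5 → ℝ) : Lc (uS z) (vS z) 5 0 = 0 := by
  show ⟪vv ((-5/28) * z 3 + (5/28) * z 1 + (-3/28) * √2 * z 3 + (3/28) * √2 * z 1) ((-5/28) * z 4 + (5/28) * z 2 + (-3/28) * √2 * z 4 + (3/28) * √2 * z 2) ((-1/2) * √2 * z 0) ((2/7) * z 0 + (1/14) * √2 * z 0), vv (√2 / 2) (√2 / 2) (2 - 2 * √2) 0⟫ + ⟪vv 0 0 (-1) (-1), vv ((3/14) * z 2 + (-1/7) * z 1 + (-1/7) * z 0 + (5/28) * √2 * z 2 + (-1/28) * √2 * z 1 + (3/14) * √2 * z 0) ((-1/7) * z 2 + (3/14) * z 1 + (-1/7) * z 0 + (-1/28) * √2 * z 2 + (5/28) * √2 * z 1 + (3/14) * √2 * z 0) ((1/2) * z 2 + (1/2) * z 1 + 2 * z 0 + (-1) * √2 * z 0) ((-1/14) * z 4 + (-1/14) * z 3 + (-1/7) * √2 * z 4 + (-1/7) * √2 * z 3)⟫ = 0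
  rw [h1.1, h1.1]
  linear_combination ((-1/28) * z 4 + (-1/28) * z 3 + (9/56) * √2 * z 4 + (9/56) * √2 * z 3 + (-9/56) * √2 * z 2 + (-9/56) * √2 * z 1 + (1/4) * √2 * z 0) * hs

theorem lc51 (h1 : SVv) (z : Fin 5 → ℝ) : Lc (uS z) (vS z) 5 1 = 0 := by
  show ⟪vv ((-5/28) * z 3 + (5/28) * z 1 + (-3/28) * √2 * z 3 + (3/28) * √2 * z 1) ((-5/28) * z 4 + (5/28) * z 2 + (-3/28) * √2 * z 4 + (3/28) * √2 * z 2) ((-1/2) * √2 * z 0) ((2/7) * z 0 + (1/14) * √2 * z 0), vv (-(√2 / 2)) (√2 / 2) (2 - 2 * √2) 0⟫ + ⟪vv 0 0 (-1) (-1), vv ((-3/14) * z 2 + (-1/7) * z 1 + (1/7) * z 0 + (-5/28) * √2 * z 2 + (-1/28) * √2 * z 1 + (-3/14) * √2 * z 0) ((-1/7) * z 2 + (-3/14) * z 1 + (-1/7) * z 0 + (-1/28) * √2 * z 2 + (-5/28) * √2 * z 1 + (3/14) * √2 * z 0) ((1/2) * z 2 + (-1/2) * z 1 + 2 * z 0 + (-1) * √2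 * z 0) ((-1/14) * z 4 + (1/14) * z 3 + (-1/7) * √2 * z 4 + (1/7) * √2 * z 3)⟫ = 0
  rw [h1.1, h1.1]
  linear_combination ((-1/28) * z 4 + (1/28) * z 3 + (9/56) * √2 * z 4 + (-9/56) * √2 * z 3 + (-9/56) * √2 * z 2 + (9/56) * √2 * z 1 + (1/4) * √2 * z 0) * hs

theorem lc52 (h1 : SVv) (z : Fin 5 → ℝ) : Lc (uS z) (vS z) 5 2 = 0 := by
  show ⟪vv ((-5/28) * z 3 + (5/28) * z 1 + (-3/28) * √2 * z 3 + (3/28) * √2 * z 1) ((-5/28) * z 4 + (5/28) * z 2 + (-3/28) * √2 * z 4 + (3/28) * √2 * z 2) ((-1/2) * √2 * z 0) ((2/7) * z 0 + (1/14) * √2 * z 0), vv (-(√2 / 2)) (-(√2 / 2)) (2 - 2 * √2) 0⟫ + ⟪vv 0 0 (-1) (-1), vv ((3/14) * z 2 + (-1/7) * z 1 + (1/7) * z 0 + (5/28) * √2 * z 2 + (-1/28) * √2 * z 1 + (-3/14) * √2 * z 0) ((-1/7) * z 2 + (3/14) * z 1 + (1/7) * z 0 + (-1/28) * √2 * z 2 + (5/28) *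 √2 * z 1 + (-3/14) * √2 * z 0) ((-1/2) * z 2 + (-1/2) * z 1 + 2 * z 0 + (-1) * √2 * z 0) ((1/14) * z 4 + (1/14) * z 3 + (1/7) * √2 * z 4 + (1/7) * √2 * z 3)⟫ = 0
  rw [h1.1, h1.1]
  linear_combination ((1/28) * z 4 + (1/28) * z 3 + (-9/56) * √2 * z 4 + (-9/56) * √2 * z 3 + (9/56) * √2 * z 2 + (9/56) * √2 * z 1 + (1/4) * √2 * z 0) * hs

theorem lc53 (h1 : SVv) (z : Fin 5 → ℝ) : Lc (uS z) (vS z) 5 3 = 0 := by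
  show ⟪vv ((-5/28) * z 3 + (5/28) * z 1 + (-3/28) * √2 * z 3 + (3/28) * √2 * z 1) ((-5/28) * z 4 + (5/28) * z 2 + (-3/28) * √2 * z 4 + (3/28) * √2 * z 2) ((-1/2) * √2 * z 0) ((2/7) * z 0 + (1/14) * √2 * z 0), vv (√2 / 2) (-(√2 / 2)) (2 - 2 * √2) 0⟫ + ⟪vv 0 0 (-1) (-1), vv ((-3/14) * z 2 + (-1/7) * z 1 + (-1/7) * z 0 + (-5/28) * √2 * z 2 + (-1/28) * √2 * z 1 + (3/14) * √2 * z 0) ((-1/7) * z 2 + (-3/14) * z 1 + (1/7) * z 0 + (-1/28) * √2 * z 2 + (-5/28) * √2 * z 1 + (-3/14) * √2 * z 0) ((-1/2) * z 2 + (1/2) * z 1 + 2 * z 0 + (-1) * √2 * z 0) ((1/14) * z 4 + (-1/14) * z 3 + (1/7) * √2 * z 4 + (-1/7) * √2 * z 3)⟫ = 0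
  rw [h1.1, h1.1]
  linear_combination ((1/28) * z 4 + (-1/28) * z 3 + (-9/56) * √2 * z 4 + (9/56) * √2 * z 3 + (9/56) * √2 * z 2 + (-9/56) * √2 * z 1 + (1/4) * √2 * z 0) * hs

theorem lc54 (h1 : SVv) (z : Fin 5 → ℝ) : Lc (uS z) (vS z) 5 4 = 0 := by
  show ⟪vv ((-5/28) * z 3 + (5/28) * z 1 + (-3/28) * √2 * z 3 + (3/28) * √2 * z 1) ((-5/28) * z 4 + (5/28) * z 2 + (-3/28) * √2 * z 4 + (3/28) * √2 * z 2) ((-1/2) * √2 * z 0) ((2/7) * z 0 + (1/14) * √2 * z 0), vv 0 0 1 (-1)⟫ + ⟪vv 0 0 (-1) (-1), vv (0) (0) ((-1/2) * √2 * z 0) ((-2/7) * z 0 + (-1/14) * √2 * z 0)⟫ = 0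
  rw [h1.1, h1.1]
  ring

theorem nu0 (h1 : SVv) (z : Fin 5 → ℝ) : ‖uS z 0‖ ^ 2 = (5/14) * z 2 ^ 2 + (-1/7) * z 0 ^ 2 + (3/14) * √2 * z 2 ^ 2 + (3/14) * √2 * z 0 ^ 2 := by
  rw [← real_inner_self_eq_norm_sq]
  show ⟪vv ((-3/7) * z 0 + (1/7) * √2 * z 0) ((-3/7) * z 2 + (-5/14) * √2 * z 2) (2 * z 0 + (-1) * √2 * z 0) (0), vv ((-3/7) * z 0 + (1/7) * √2 * z 0) ((-3/7) * z 2 + (-5/14) * √2 * z 2) (2 * z 0 + (-1) * √2 * z 0) (0)⟫ = _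
  rw [h1.1]
  linear_combination ((-55/196) * z 2 ^ 2 + (-26/49) * z 0 ^ 2 + (-75/196) * √2 * z 2 ^ 2 + (37/196) * √2 * z 0 ^ 2) * hs

theorem nu1 (h1 : SVv) (z : Fin 5 → ℝ) : ‖uS z 1‖ ^ 2 = (5/14) * z 1 ^ 2 + (-1/7) * z 0 ^ 2 + (3/14) * √2 * z 1 ^ 2 + (3/14) * √2 * z 0 ^ 2 := by
  rw [← real_inner_self_eq_norm_sq]
  show ⟪vv ((-3/7) * z 1 + (-5/14) * √2 * z 1) ((-3/7) * z 0 + (1/7) * √2 * z 0) (2 * z 0 + (-1) * √2 * z 0) (0), vv ((-3/7) * z 1 + (-5/14) * √2 * z 1) ((-3/7) * z 0 + (1/7) * √2 * z 0) (2 * z 0 + (-1) * √2 * z 0) (0)⟫ = _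
  rw [h1.1]
  linear_combination ((-55/196) * z 1 ^ 2 + (-26/49) * z 0 ^ 2 + (-75/196) * √2 * z 1 ^ 2 + (37/196) * √2 * z 0 ^ 2) * hs

theorem nu2 (h1 : SVv) (z : Fin 5 → ℝ) : ‖uS z 2‖ ^ 2 = (5/14) * z 2 ^ 2 + (-1/7) * z 0 ^ 2 + (3/14) * √2 * z 2 ^ 2 + (3/14) * √2 * z 0 ^ 2 := by
  rw [← real_inner_self_eq_norm_sq]
  show ⟪vv ((3/7) * z 0 + (-1/7) * √2 * z 0) ((-3/7) * z 2 + (-5/14) * √2 * z 2) (2 * z 0 + (-1) * √2 * z 0) (0), vv ((3/7) * z 0 + (-1/7) * √2 * z 0) ((-3/7) * z 2 + (-5/14) * √2 * z 2) (2 * z 0 + (-1) * √2 * z 0) (0)⟫ = _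
  rw [h1.1]
  linear_combination ((-55/196) * z 2 ^ 2 + (-26/49) * z 0 ^ 2 + (-75/196) * √2 * z 2 ^ 2 + (37/196) * √2 * z 0 ^ 2) * hs

theorem nu3 (h1 : SVv) (z : Fin 5 → ℝ) : ‖uS z 3‖ ^ 2 = (5/14) * z 1 ^ 2 + (-1/7) * z 0 ^ 2 + (3/14) * √2 * z 1 ^ 2 + (3/14) * √2 * z 0 ^ 2 := by
  rw [← real_inner_self_eq_norm_sq]
  show ⟪vv ((-3/7) * z 1 + (-5/14) * √2 * z 1) ((3/7) * z 0 + (-1/7) * √2 * z 0) (2 * z 0 + (-1) * √2 * z 0) (0), vv ((-3/7) * z 1 + (-5/14) * √2 * z 1) ((3/7) * z 0 + (-1/7) * √2 * z 0) (2 * z 0 + (-1) * √2 * z 0) (0)⟫ = _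
  rw [h1.1]
  linear_combination ((-55/196) * z 1 ^ 2 + (-26/49) * z 0 ^ 2 + (-75/196) * √2 * z 1 ^ 2 + (37/196) * √2 * z 0 ^ 2) * hs

theorem nu4 (h1 : SVv) (z : Fin 5 → ℝ) : ‖uS z 4‖ ^ 2 = (5/112) * z 4 ^ 2 + (5/112) * z 3 ^ 2 + (5/56) * z 2 * z 4 + (5/112) * z 2 ^ 2 + (5/56) * z 1 * z 3 + (5/112) * z 1 ^ 2 + (1/14) * z 0 ^ 2 + (3/112) * √2 * z 4 ^ 2 + (3/112) * √2 * z 3 ^ 2 + (3/56) * √2 * z 2 * z 4 + (3/112) * √2 * z 2 ^ 2 + (3/56) * √2 * z 1 * z 3 + (3/112) * √2 * z 1 ^ 2 + (1/7) * √2 * z 0 ^ 2 := by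
  rw [← real_inner_self_eq_norm_sq]
  show ⟪vv ((5/28) * z 3 + (5/28) * z 1 + (3/28) * √2 * z 3 + (3/28) * √2 * z 1) ((5/28) * z 4 + (5/28) * z 2 + (3/28) * √2 * z 4 + (3/28) * √2 * z 2) ((-1/2) * √2 * z 0) ((-2/7) * z 0 + (-1/14) * √2 * z 0), vv ((5/28) * z 3 + (5/28) * z 1 + (3/28) * √2 * z 3 + (3/28) * √2 * z 1) ((5/28) * z 4 + (5/28) * z 2 + (3/28) * √2 * z 4 + (3/28) * √2 * z 2) ((-1/2) * √2 * z 0) ((-2/7) * z 0 + (-1/14) * √2 * z 0)⟫ = _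
  rw [h1.1]
  linear_combination ((-45/784) * z 4 ^ 2 + (-45/784) * z 3 ^ 2 + (-45/392) * z 2 * z 4 + (-45/784) * z 2 ^ 2 + (-45/392) * z 1 * z 3 + (-45/784) * z 1 ^ 2 + (-1/196) * z 0 ^ 2 + (-27/784) * √2 * z 4 ^ 2 + (-27/784) * √2 * z 3 ^ 2 + (-27/392) * √2 * z 2 * z 4 + (-27/784) * √2 * z 2 ^ 2 + (-27/392) * √2 * z 1 * z 3 + (-27/784) * √2 * z 1 ^ 2 + (3/49) * √2 * z 0 ^ 2) * hs

theorem nu5 (h1 : SVv) (z : Fin 5 → ℝ) : ‖uS z 5‖ ^ 2 = (5/112) * z 4 ^ 2 + (5/112) * z 3 ^ 2 + (-5/56) * z 2 * z 4 + (5/112) * z 2 ^ 2 + (-5/56) * z 1 * z 3 + (5/112) * z 1 ^ 2 + (1/14) * z 0 ^ 2 + (3/112) * √2 * z 4 ^ 2 + (3/112) * √2 * z 3 ^ 2 + (-3/56) * √2 * z 2 * z 4 + (3/112) * √2 * z 2 ^ 2 + (-3/56) * √2 * z 1 * z 3 + (3/112) * √2 * z 1 ^ 2 + (1/7) * √2 * z 0 ^ 2 := by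
  rw [← real_inner_self_eq_norm_sq]
  show ⟪vv ((-5/28) * z 3 + (5/28) * z 1 + (-3/28) * √2 * z 3 + (3/28) * √2 * z 1) ((-5/28) * z 4 + (5/28) * z 2 + (-3/28) * √2 * z 4 + (3/28) * √2 * z 2) ((-1/2) * √2 * z 0) ((2/7) * z 0 + (1/14) * √2 * z 0), vv ((-5/28) * z 3 + (5/28) * z 1 + (-3/28) * √2 * z 3 + (3/28) * √2 * z 1) ((-5/28) * z 4 + (5/28) * z 2 + (-3/28) * √2 * z 4 + (3/28) * √2 * z 2) ((-1/2) * √2 * z 0) ((2/7) * z 0 + (1/14) * √2 * z 0)⟫ = _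
  rw [h1.1]
  linear_combination ((-45/784) * z 4 ^ 2 + (-45/784) * z 3 ^ 2 + (45/392) * z 2 * z 4 + (-45/784) * z 2 ^ 2 + (45/392) * z 1 * z 3 + (-45/784) * z 1 ^ 2 + (-1/196) * z 0 ^ 2 + (-27/784) * √2 * z 4 ^ 2 + (-27/784) * √2 * z 3 ^ 2 + (27/392) * √2 * z 2 * z 4 + (-27/784) * √2 * z 2 ^ 2 + (27/392) * √2 * z 1 * z 3 + (-27/784) * √2 * z 1 ^ 2 + (3/49) * √2 * z 0 ^ 2) * hs

theorem nv0 (h1 : SVv) (z : Fin 5 → ℝ) : ‖vS z 0‖ ^ 2 = (1/28) * z 4 ^ 2 + (1/14) * z 3 * z 4 + (1/28) * z 3 ^ 2 + (1/7) * z 2 ^ 2 + (-1/14) * z 1 * z 2 + (1/7) * z 1 ^ 2 + (1/14) * z 0 * z 2 + (1/14) * z 0 * z 1 + (-1/7) * z 0 ^ 2 + (1/112) * √2 * z 4 ^ 2 + (1/56) * √2 * z 3 * z 4 + (1/112) * √2 * z 3 ^ 2 + (11/112) * √2 * z 2 ^ 2 + (-1/56) * √2 * z 1 * z 2 + (11/112) * √2 * z 1 ^ 2 + (1/7) * √2 * z 0 *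 z 2 + (1/7) * √2 * z 0 * z 1 + (3/14) * √2 * z 0 ^ 2 := by
  rw [← real_inner_self_eq_norm_sq]
  show ⟪vv ((3/14) * z 2 + (-1/7) * z 1 + (-1/7) * z 0 + (5/28) * √2 * z 2 + (-1/28) * √2 * z 1 + (3/14) * √2 * z 0) ((-1/7) * z 2 + (3/14) * z 1 + (-1/7) * z 0 + (-1/28) * √2 * z 2 + (5/28) * √2 * z 1 + (3/14) * √2 * z 0) ((1/2) * z 2 + (1/2) * z 1 + 2 * z 0 + (-1) * √2 * z 0) ((-1/14) * z 4 + (-1/14) * z 3 + (-1/7) * √2 * z 4 + (-1/7) * √2 * z 3), vv ((3/14) * z 2 + (-1/7) * z 1 + (-1/7) * z 0 + (5/28) * √2 * z 2 + (-1/28) * √2 * z 1 + (3/14) * √2 * z 0) ((-1/7) * z 2 + (3/14) * z 1 + (-1/7) * z 0 + (-1/28) * √2 * z 2 + (5/28) * √2 * z 1 + (3/14) * √2 * z 0) ((1/2) * z 2 + (1/2) * z 1 + 2 * z 0 + (-1) * √2 * z 0) ((-1/14) * z 4 + (-1/14) * z 3 + (-1/7) * √2 * z 4 + (-1/7) * √2 * z 3)⟫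 = _
  rw [h1.1]
  linear_combination ((3/196) * z 4 ^ 2 + (3/98) * z 3 * z 4 + (3/196) * z 3 ^ 2 + (-37/392) * z 2 ^ 2 + (53/196) * z 1 * z 2 + (-37/392) * z 1 ^ 2 + (17/196) * z 0 * z 2 + (17/196) * z 0 * z 1 + (-17/98) * z 0 ^ 2 + (-1/196) * √2 * z 4 ^ 2 + (-1/98) * √2 * z 3 * z 4 + (-1/196) * √2 * z 3 ^ 2 + (-39/392) * √2 * z 2 ^ 2 + (15/196) * √2 * z 1 * z 2 + (-39/392) * √2 * z 1 ^ 2 + (-9/49) * √2 * z 0 * z 2 + (-9/49) * √2 * z 0 * z 1 + (-5/196) * √2 * z 0 ^ 2) * hs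

theorem nv1 (h1 : SVv) (z : Fin 5 → ℝ) : ‖vS z 1‖ ^ 2 = (1/28) * z 4 ^ 2 + (-1/14) * z 3 * z 4 + (1/28) * z 3 ^ 2 + (1/7) * z 2 ^ 2 + (1/14) * z 1 * z 2 + (1/7) * z 1 ^ 2 + (1/14) * z 0 * z 2 + (-1/14) * z 0 * z 1 + (-1/7) * z 0 ^ 2 + (1/112) * √2 * z 4 ^ 2 + (-1/56) * √2 * z 3 * z 4 + (1/112) * √2 * z 3 ^ 2 + (11/112) * √2 * z 2 ^ 2 + (1/56) * √2 * z 1 * z 2 + (11/112) * √2 * z 1 ^ 2 + (1/7) * √2 * z 0 * z 2 + (-1/7) * √2 * z 0 * z 1 + (3/14) * √2 * z 0 ^ 2 := by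
  rw [← real_inner_self_eq_norm_sq]
  show ⟪vv ((-3/14) * z 2 + (-1/7) * z 1 + (1/7) * z 0 + (-5/28) * √2 * z 2 + (-1/28) * √2 * z 1 + (-3/14) * √2 * z 0) ((-1/7) * z 2 + (-3/14) * z 1 + (-1/7) * z 0 + (-1/28) * √2 * z 2 + (-5/28) * √2 * z 1 + (3/14) * √2 * z 0) ((1/2) * z 2 + (-1/2) * z 1 + 2 * z 0 + (-1) * √2 * z 0) ((-1/14) * z 4 + (1/14) * z 3 + (-1/7) * √2 * z 4 + (1/7) * √2 * z 3), vv ((-3/14) * z 2 + (-1/7) * z 1 + (1/7) * z 0 + (-5/28) * √2 * z 2 + (-1/28) * √2 * z 1 + (-3/14) * √2 * z 0) ((-1/7) * z 2 + (-3/14) * z 1 + (-1/7) * z 0 + (-1/28) * √2 * z 2 + (-5/28) * √2 * z 1 + (3/14) * √2 * z 0) ((1/2) * z 2 + (-1/2) * z 1 + 2 * z 0 + (-1) * √2 * z 0) ((-1/14) * z 4 + (1/14) * z 3 + (-1/7) * √2 * z 4 + (1/7) * √2 * z 3)⟫ = _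
  rw [h1.1]
  linear_combination ((3/196) * z 4 ^ 2 + (-3/98) * z 3 * z 4 + (3/196) * z 3 ^ 2 + (-37/392) * z 2 ^ 2 + (-53/196) * z 1 * z 2 + (-37/392) * z 1 ^ 2 + (17/196) * z 0 * z 2 + (-17/196) * z 0 * z 1 + (-17/98) * z 0 ^ 2 + (-1/196) * √2 * z 4 ^ 2 + (1/98) * √2 * z 3 * z 4 + (-1/196) * √2 * z 3 ^ 2 + (-39/392) * √2 * z 2 ^ 2 + (-15/196) * √2 * z 1 * z 2 + (-39/392) * √2 * z 1 ^ 2 + (-9/49) * √2 * z 0 * z 2 + (9/49) * √2 * z 0 * z 1 + (-5/196) * √2 * z 0 ^ 2) * hs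

theorem nv2 (h1 : SVv) (z : Fin 5 → ℝ) : ‖vS z 2‖ ^ 2 = (1/28) * z 4 ^ 2 + (1/14) * z 3 * z 4 + (1/28) * z 3 ^ 2 + (1/7) * z 2 ^ 2 + (-1/14) * z 1 * z 2 + (1/7) * z 1 ^ 2 + (-1/14) * z 0 * z 2 + (-1/14) * z 0 * z 1 + (-1/7) * z 0 ^ 2 + (1/112) * √2 * z 4 ^ 2 + (1/56) * √2 * z 3 * z 4 + (1/112) * √2 * z 3 ^ 2 + (11/112) * √2 * z 2 ^ 2 + (-1/56) * √2 * z 1 * z 2 + (11/112) * √2 * z 1 ^ 2 + (-1/7) * √2 * z 0 * z 2 + (-1/7) * √2 * z 0 * z 1 + (3/14) * √2 * z 0 ^ 2 := by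
  rw [← real_inner_self_eq_norm_sq]
  show ⟪vv ((3/14) * z 2 + (-1/7) * z 1 + (1/7) * z 0 + (5/28) * √2 * z 2 + (-1/28) * √2 * z 1 + (-3/14) * √2 * z 0) ((-1/7) * z 2 + (3/14) * z 1 + (1/7) * z 0 + (-1/28) * √2 * z 2 + (5/28) * √2 * z 1 + (-3/14) * √2 * z 0) ((-1/2) * z 2 + (-1/2) * z 1 + 2 * z 0 + (-1) * √2 * z 0) ((1/14) * z 4 + (1/14) * z 3 + (1/7) * √2 * z 4 + (1/7) * √2 * z 3), vv ((3/14) * z 2 + (-1/7) * z 1 + (1/7) * z 0 + (5/28) * √2 * z 2 + (-1/28) * √2 * z 1 + (-3/14) * √2 * z 0) ((-1/7) * z 2 + (3/14) * z 1 + (1/7) * z 0 + (-1/28) * √2 * z 2 + (5/28) * √2 * z 1 + (-3/14) * √2 * z 0) ((-1/2) * z 2 + (-1/2) * z 1 + 2 * z 0 + (-1) * √2 * z 0) ((1/14) * z 4 + (1/14) * z 3 + (1/7) * √2 * z 4 + (1/7) * √2 * z 3)⟫ = _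
  rw [h1.1]
  linear_combination ((3/196) * z 4 ^ 2 + (3/98) * z 3 * z 4 + (3/196) * z 3 ^ 2 + (-37/392) * z 2 ^ 2 + (53/196) * z 1 * z 2 + (-37/392) * z 1 ^ 2 + (-17/196) * z 0 * z 2 + (-17/196) * z 0 * z 1 + (-17/98) * z 0 ^ 2 + (-1/196) * √2 * z 4 ^ 2 + (-1/98) * √2 * z 3 * z 4 + (-1/196) * √2 * z 3 ^ 2 + (-39/392) * √2 * z 2 ^ 2 + (15/196) * √2 * z 1 * z 2 + (-39/392) * √2 * z 1 ^ 2 + (9/49) * √2 * z 0 * z 2 + (9/49) * √2 * z 0 * z 1 + (-5/196) * √2 * z 0 ^ 2) * hs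

theorem nv3 (h1 : SVv) (z : Fin 5 → ℝ) : ‖vS z 3‖ ^ 2 = (1/28) * z 4 ^ 2 + (-1/14) * z 3 * z 4 + (1/28) * z 3 ^ 2 + (1/7) * z 2 ^ 2 + (1/14) * z 1 * z 2 + (1/7) * z 1 ^ 2 + (-1/14) * z 0 * z 2 + (1/14) * z 0 * z 1 + (-1/7) * z 0 ^ 2 + (1/112) * √2 * z 4 ^ 2 + (-1/56) * √2 * z 3 * z 4 + (1/112) * √2 * z 3 ^ 2 + (11/112) * √2 * z 2 ^ 2 + (1/56) * √2 * z 1 * z 2 + (11/112) * √2 * z 1 ^ 2 + (-1/7) * √2 * z 0 * z 2 + (1/7) * √2 * z 0 * z 1 + (3/14) * √2 * z 0 ^ 2 := by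
  rw [← real_inner_self_eq_norm_sq]
  show ⟪vv ((-3/14) * z 2 + (-1/7) * z 1 + (-1/7) * z 0 + (-5/28) * √2 * z 2 + (-1/28) * √2 * z 1 + (3/14) * √2 * z 0) ((-1/7) * z 2 + (-3/14) * z 1 + (1/7) * z 0 + (-1/28) * √2 * z 2 + (-5/28) * √2 * z 1 + (-3/14) * √2 * z 0) ((-1/2) * z 2 + (1/2) * z 1 + 2 * z 0 + (-1) * √2 * z 0) ((1/14) * z 4 + (-1/14) * z 3 + (1/7) * √2 * z 4 + (-1/7) * √2 * z 3), vv ((-3/14) * z 2 + (-1/7) * z 1 + (-1/7) * z 0 + (-5/28) * √2 * z 2 + (-1/28) * √2 * z 1 + (3/14) * √2 * z 0) ((-1/7) * z 2 + (-3/14) * z 1 + (1/7) * z 0 + (-1/28) * √2 * z 2 + (-5/28) * √2 * z 1 + (-3/14) * √2 * z 0) ((-1/2) * z 2 + (1/2) * z 1 + 2 * z 0 + (-1) * √2 * z 0) ((1/14) * z 4 + (-1/14) * z 3 + (1/7) * √2 * z 4 + (-1/7) * √2 * z 3)⟫ = _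
  rw [h1.1]
  linear_combination ((3/196) * z 4 ^ 2 + (-3/98) * z 3 * z 4 + (3/196) * z 3 ^ 2 + (-37/392) * z 2 ^ 2 + (-53/196) * z 1 * z 2 + (-37/392) * z 1 ^ 2 + (-17/196) * z 0 * z 2 + (17/196) * z 0 * z 1 + (-17/98) * z 0 ^ 2 + (-1/196) * √2 * z 4 ^ 2 + (1/98) * √2 * z 3 * z 4 + (-1/196) * √2 * z 3 ^ 2 + (-39/392) * √2 * z 2 ^ 2 + (-15/196) * √2 * z 1 * z 2 + (-39/392) * √2 * z 1 ^ 2 + (9/49) * √2 * z 0 * z 2 + (-9/49) * √2 * z 0 * z 1 + (-5/196) * √2 * z 0 ^ 2) * hs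

theorem nv4 (h1 : SVv) (z : Fin 5 → ℝ) : ‖vS z 4‖ ^ 2 = (1/14) * z 0 ^ 2 + (1/7) * √2 * z 0 ^ 2 := by
  rw [← real_inner_self_eq_norm_sq]
  show ⟪vv (0) (0) ((-1/2) * √2 * z 0) ((-2/7) * z 0 + (-1/14) * √2 * z 0), vv (0) (0) ((-1/2) * √2 * z 0) ((-2/7) * z 0 + (-1/14) * √2 * z 0)⟫ = _
  rw [h1.1]
  linear_combination ((-1/196) * z 0 ^ 2 + (3/49) * √2 * z 0 ^ 2) * hs

theorem nv5 (h1 : SVv) (z : Fin 5 → ℝ) : ‖vS z 5‖ ^ 2 = (1/14) * z 0 ^ 2 + (1/7) * √2 * z 0 ^ 2 := by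
  rw [← real_inner_self_eq_norm_sq]
  show ⟪vv (0) (0) ((-1/2) * √2 * z 0) ((2/7) * z 0 + (1/14) * √2 * z 0), vv (0) (0) ((-1/2) * √2 * z 0) ((2/7) * z 0 + (1/14) * √2 * z 0)⟫ = _
  rw [h1.1]
  linear_combination ((-1/196) * z 0 ^ 2 + (3/49) * √2 * z 0 ^ 2) * hs

theorem w00 : ww 0 0 = (2 + √2) / 8 := by
  simp [ww, ct]

theorem q00 (h1 : SVv) (z : Fin 5 → ℝ) : ww 0 0 * Qc (uS z) (vS z) 0 0 = (-1/448) * z 4 ^ 2 + (-1/224) * z 3 * z 4 + (-1/448) * z 3 ^ 2 + (-1/224) * z 2 ^ 2 + (-15/224) * z 1 * z 2 + (-1/112) * z 1 ^ 2 + (-11/224) * z 0 * z 2 + (5/224) * z 0 * z 1 + (-1/56) * z 0 ^ 2 + (-1/1792) * √2 * z 4 ^ 2 + (-1/896) * √2 * z 3 * z 4 + (-1/1792) * √2 * z 3 ^ 2 + (5/1792) * √2 * z 2 ^ 2 + (-43/896) * √2 * z 1 * z 2 + (-11/1792) * √2 * z 1 ^ 2 + (-1/224) * √2 * z 0 * z 2 + (3/224)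 * √2 * z 0 * z 1 + (3/112) * √2 * z 0 ^ 2 := by
  have h2 : ⟪uS z 0, vS z 0⟫ = (1/28) * z 2 ^ 2 + (-5/28) * z 1 * z 2 + (-11/28) * z 0 * z 2 + (1/28) * z 0 * z 1 + (-5/7) * z 0 ^ 2 + (1/14) * √2 * z 2 ^ 2 + (-3/28) * √2 * z 1 * z 2 + (3/14) * √2 * z 0 * z 2 + (1/14) * √2 * z 0 * z 1 + (4/7) * √2 * z 0 ^ 2 := by
    show ⟪vv ((-3/7) * z 0 + (1/7) * √2 * z 0) ((-3/7) * z 2 + (-5/14) * √2 * z 2) (2 * z 0 + (-1) * √2 * z 0) (0), vv ((3/14) * z 2 + (-1/7) * z 1 + (-1/7) * z 0 + (5/28) * √2 * z 2 + (-1/28) * √2 * z 1 + (3/14) * √2 * z 0) ((-1/7) * z 2 + (3/14) * z 1 + (-1/7) * z 0 + (-1/28) * √2 * z 2 + (5/28) * √2 * z 1 + (3/14) * √2 * z 0) ((1/2) * z 2 + (1/2) * z 1 + 2 * z 0 + (-1) * √2 * z 0) ((-1/14) * z 4 + (-1/14) * z 3 + (-1/7) * √2 * z 4 + (-1/7) * √2 * z 3)⟫ = _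
    rw [h1.1]
    linear_combination ((-53/392) * z 2 ^ 2 + (55/392) * z 1 * z 2 + (-47/392) * z 0 * z 2 + (-53/392) * z 0 * z 1 + (-25/49) * z 0 ^ 2 + (-15/392) * √2 * z 2 ^ 2 + (75/392) * √2 * z 1 * z 2 + (15/98) * √2 * z 0 * z 2 + (3/196) * √2 * z 0 * z 1 + (31/196) * √2 * z 0 ^ 2) * hs
  unfold Qc cs
  rw [w00, h2, nu0 h1, nv0 h1]
  linear_combination ((1/896) * z 4 ^ 2 + (1/448) * z 3 * z 4 + (1/896) * z 3 ^ 2 + (11/448) * z 2 ^ 2 + (-1/64) * z 1 * z 2 + (1/224) * z 1 ^ 2 + (13/448) * z 0 * z 2 + (5/448) * z 0 * z 1 + (1/16) * z 0 ^ 2 + (1/3584) * √2 * z 4 ^ 2 + (1/1792) * √2 * z 3 * z 4 + (1/3584) * √2 * z 3 ^ 2 + (5/512) * √2 * z 2 ^ 2 + (-1/1792) * √2 * z 1 * z 2 + (11/3584) * √2 * z 1 ^ 2 + (1/224) * √2 * z 0 * z 2 + (1/224) * √2 * z 0 * z 1 + (3/224) * √2 * z 0 ^ 2) * hs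

theorem q01 (z : Fin 5 → ℝ) : ww 0 1 * Qc (uS z) (vS z) 0 1 = 0 := by
  have h2 : ww 0 1 = 0 := by simp [ww, ct]
  rw [h2, zero_mul]

theorem q02 (z : Fin 5 → ℝ) : ww 0 2 * Qc (uS z) (vS z) 0 2 = 0 := by
  have h2 : ww 0 2 = 0 := by simp [ww, ct]
  rw [h2, zero_mul]

theorem w03 : ww 0 3 = (2 + √2) / 8 := by
  simp [ww, ct]

theorem q03 (h1 : SVv) (z : Fin 5 → ℝ) : ww 0 3 * Qc (uS z) (vS z) 0 3 = (-1/448) * z 4 ^ 2 + (1/224) * z 3 * z 4 + (-1/448) * z 3 ^ 2 + (-1/224) * z 2 ^ 2 + (15/224) * z 1 * z 2 + (-1/112) * z 1 ^ 2 + (11/224) * z 0 * z 2 + (5/224) * z 0 * z 1 + (-1/56) * z 0 ^ 2 + (-1/1792) * √2 * z 4 ^ 2 + (1/896) * √2 * z 3 * z 4 + (-1/1792) * √2 * z 3 ^ 2 + (5/1792) * √2 * z 2 ^ 2 + (43/896) * √2 * z 1 * z 2 + (-11/1792) * √2 * z 1 ^ 2 + (1/224) * √2 * z 0 * z 2 + (3/224)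 * √2 * z 0 * z 1 + (3/112) * √2 * z 0 ^ 2 := by
  have h2 : ⟪uS z 0, vS z 3⟫ = (1/28) * z 2 ^ 2 + (5/28) * z 1 * z 2 + (11/28) * z 0 * z 2 + (1/28) * z 0 * z 1 + (-5/7) * z 0 ^ 2 + (1/14) * √2 * z 2 ^ 2 + (3/28) * √2 * z 1 * z 2 + (-3/14) * √2 * z 0 * z 2 + (1/14) * √2 * z 0 * z 1 + (4/7) * √2 * z 0 ^ 2 := by
    show ⟪vv ((-3/7) * z 0 + (1/7) * √2 * z 0) ((-3/7) * z 2 + (-5/14) * √2 * z 2) (2 * z 0 + (-1) * √2 * z 0) (0), vv ((-3/14) * z 2 + (-1/7) * z 1 + (-1/7) * z 0 + (-5/28) * √2 * z 2 + (-1/28) * √2 * z 1 + (3/14) * √2 * z 0) ((-1/7) * z 2 + (-3/14) * z 1 + (1/7) * z 0 + (-1/28) * √2 * z 2 + (-5/28) * √2 * z 1 + (-3/14) * √2 * z 0) ((-1/2) * z 2 + (1/2) * z 1 + 2 * z 0 + (-1) * √2 * z 0) ((1/14) * z 4 + (-1/14) * z 3 + (1/7) * √2 * z 4 + (-1/7) * √2 * z 3)⟫ = _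
    rw [h1.1]
    linear_combination ((-53/392) * z 2 ^ 2 + (-55/392) * z 1 * z 2 + (47/392) * z 0 * z 2 + (-53/392) * z 0 * z 1 + (-25/49) * z 0 ^ 2 + (-15/392) * √2 * z 2 ^ 2 + (-75/392) * √2 * z 1 * z 2 + (-15/98) * √2 * z 0 * z 2 + (3/196) * √2 * z 0 * z 1 + (31/196) * √2 * z 0 ^ 2) * hs
  unfold Qc cs
  rw [w03, h2, nu0 h1, nv3 h1]
  linear_combination ((1/896) * z 4 ^ 2 + (-1/448) * z 3 * z 4 + (1/896) * z 3 ^ 2 + (11/448) * z 2 ^ 2 + (1/64) * z 1 * z 2 + (1/224) * z 1 ^ 2 + (-13/448) * z 0 * z 2 + (5/448) * z 0 * z 1 + (1/16) * z 0 ^ 2 + (1/3584) * √2 * z 4 ^ 2 + (-1/1792) * √2 * z 3 * z 4 + (1/3584) * √2 * z 3 ^ 2 + (5/512) * √2 * z 2 ^ 2 + (1/1792) * √2 * z 1 * z 2 + (11/3584) * √2 * z 1 ^ 2 + (-1/224) * √2 * z 0 * z 2 + (1/224) * √2 * z 0 * z 1 + (3/224) * √2 * z 0 ^ 2)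 * hs

theorem w04 : ww 0 4 = (1 + √2) / 4 := by
  simp [ww, ct]

theorem q04 (h1 : SVv) (z : Fin 5 → ℝ) : ww 0 4 * Qc (uS z) (vS z) 0 4 = (-3/112) * z 2 ^ 2 + (-5/112) * z 0 ^ 2 + (-5/224) * √2 * z 2 ^ 2 + (-13/224) * √2 * z 0 ^ 2 := by
  have h2 : ⟪uS z 0, vS z 4⟫ = (-1/2) * z 0 ^ 2 + (1/4) * √2 * z 0 ^ 2 := by
    show ⟪vv ((-3/7) * z 0 + (1/7) * √2 * z 0) ((-3/7) * z 2 + (-5/14) * √2 * z 2) (2 * z 0 + (-1) * √2 * z 0) (0), vv (0) (0) ((-1/2) * √2 * z 0) ((-2/7) * z 0 + (-1/14) * √2 * z 0)⟫ = _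
    rw [h1.1]
    linear_combination ((-1/4) * z 0 ^ 2 + (1/8) * √2 * z 0 ^ 2) * hs
  unfold Qc cs
  rw [w04, h2, nu0 h1, nv4 h1]
  linear_combination ((1/112) * z 2 ^ 2 + (1/28) * z 0 ^ 2 + (3/224) * √2 * z 2 ^ 2 + (5/224) * √2 * z 0 ^ 2) * hs

theorem w05 : ww 0 5 = (1 + √2) / 4 := by
  simp [ww, ct]

theorem q05 (h1 : SVv) (z : Fin 5 → ℝ) : ww 0 5 * Qc (uS z) (vS z) 0 5 = (-3/112) * z 2 ^ 2 + (-5/112) * z 0 ^ 2 + (-5/224) * √2 * z 2 ^ 2 + (-13/224) * √2 * z 0 ^ 2 := by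
  have h2 : ⟪uS z 0, vS z 5⟫ = (-1/2) * z 0 ^ 2 + (1/4) * √2 * z 0 ^ 2 := by
    show ⟪vv ((-3/7) * z 0 + (1/7) * √2 * z 0) ((-3/7) * z 2 + (-5/14) * √2 * z 2) (2 * z 0 + (-1) * √2 * z 0) (0), vv (0) (0) ((-1/2) * √2 * z 0) ((2/7) * z 0 + (1/14) * √2 * z 0)⟫ = _
    rw [h1.1]
    linear_combination ((-1/4) * z 0 ^ 2 + (1/8) * √2 * z 0 ^ 2) * hs
  unfold Qc cs
  rw [w05, h2, nu0 h1, nv5 h1]
  linear_combination ((1/112) * z 2 ^ 2 + (1/28) * z 0 ^ 2 + (3/224) * √2 * z 2 ^ 2 + (5/224) * √2 * z 0 ^ 2) * hs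

theorem w10 : ww 1 0 = (2 + √2) / 8 := by
  simp [ww, ct]

theorem q10 (h1 : SVv) (z : Fin 5 → ℝ) : ww 1 0 * Qc (uS z) (vS z) 1 0 = (-1/448) * z 4 ^ 2 + (-1/224) * z 3 * z 4 + (-1/448) * z 3 ^ 2 + (-1/112) * z 2 ^ 2 + (-15/224) * z 1 * z 2 + (-1/224) * z 1 ^ 2 + (5/224) * z 0 * z 2 + (-11/224) * z 0 * z 1 + (-1/56) * z 0 ^ 2 + (-1/1792) * √2 * z 4 ^ 2 + (-1/896) * √2 * z 3 * z 4 + (-1/1792) * √2 * z 3 ^ 2 + (-11/1792) * √2 * z 2 ^ 2 + (-43/896) * √2 * z 1 * z 2 + (5/1792) * √2 * z 1 ^ 2 + (3/224) * √2 * z 0 * z 2 + (-1/224) * √2 * z 0 * z 1 + (3/112) * √2 * z 0 ^ 2 := by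
  have h2 : ⟪uS z 1, vS z 0⟫ = (-5/28) * z 1 * z 2 + (1/28) * z 1 ^ 2 + (1/28) * z 0 * z 2 + (-11/28) * z 0 * z 1 + (-5/7) * z 0 ^ 2 + (-3/28) * √2 * z 1 * z 2 + (1/14) * √2 * z 1 ^ 2 + (1/14) * √2 * z 0 * z 2 + (3/14) * √2 * z 0 * z 1 + (4/7) * √2 * z 0 ^ 2 := by
    show ⟪vv ((-3/7) * z 1 + (-5/14) * √2 * z 1) ((-3/7) * z 0 + (1/7) * √2 * z 0) (2 * z 0 + (-1) * √2 * z 0) (0), vv ((3/14) * z 2 + (-1/7) * z 1 + (-1/7) * z 0 + (5/28) * √2 * z 2 + (-1/28) * √2 * z 1 + (3/14) * √2 * z 0) ((-1/7) * z 2 + (3/14) * z 1 + (-1/7) * z 0 + (-1/28) * √2 * z 2 + (5/28) * √2 * z 1 + (3/14) * √2 * z 0) ((1/2) * z 2 + (1/2) * z 1 + 2 * z 0 + (-1) * √2 * z 0) ((-1/14) * z 4 + (-1/14) * z 3 + (-1/7) * √2 * z 4 + (-1/7) * √2 * z 3)⟫ = _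
    rw [h1.1]
    linear_combination ((55/392) * z 1 * z 2 + (-53/392) * z 1 ^ 2 + (-53/392) * z 0 * z 2 + (-47/392) * z 0 * z 1 + (-25/49) * z 0 ^ 2 + (75/392) * √2 * z 1 * z 2 + (-15/392) * √2 * z 1 ^ 2 + (3/196) * √2 * z 0 * z 2 + (15/98) * √2 * z 0 * z 1 + (31/196) * √2 * z 0 ^ 2) * hs
  unfold Qc cs
  rw [w10, h2, nu1 h1, nv0 h1]
  linear_combination ((1/896) * z 4 ^ 2 + (1/448) * z 3 * z 4 + (1/896) * z 3 ^ 2 + (1/224) * z 2 ^ 2 + (-1/64) * z 1 * z 2 + (11/448) * z 1 ^ 2 + (5/448) * z 0 * z 2 + (13/448) * z 0 * z 1 + (1/16) * z 0 ^ 2 + (1/3584) * √2 * z 4 ^ 2 + (1/1792) * √2 * z 3 * z 4 + (1/3584) * √2 * z 3 ^ 2 + (11/3584) * √2 * z 2 ^ 2 + (-1/1792) * √2 * z 1 * z 2 + (5/512) * √2 * z 1 ^ 2 + (1/224) * √2 * z 0 * z 2 + (1/224) * √2 * z 0 * z 1 + (3/224) * √2 * z 0 ^ 2) * hs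

theorem w11 : ww 1 1 = (2 + √2) / 8 := by
  simp [ww, ct]

theorem q11 (h1 : SVv) (z : Fin 5 → ℝ) : ww 1 1 * Qc (uS z) (vS z) 1 1 = (-1/448) * z 4 ^ 2 + (1/224) * z 3 * z 4 + (-1/448) * z 3 ^ 2 + (-1/112) * z 2 ^ 2 + (15/224) * z 1 * z 2 + (-1/224) * z 1 ^ 2 + (5/224) * z 0 * z 2 + (11/224) * z 0 * z 1 + (-1/56) * z 0 ^ 2 + (-1/1792) * √2 * z 4 ^ 2 + (1/896) * √2 * z 3 * z 4 + (-1/1792) * √2 * z 3 ^ 2 + (-11/1792) * √2 * z 2 ^ 2 + (43/896) * √2 * z 1 * z 2 + (5/1792) * √2 * z 1 ^ 2 + (3/224) * √2 * z 0 * z 2 + (1/224) * √2 * z 0 * z 1 + (3/112) * √2 * z 0 ^ 2 := by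
  have h2 : ⟪uS z 1, vS z 1⟫ = (5/28) * z 1 * z 2 + (1/28) * z 1 ^ 2 + (1/28) * z 0 * z 2 + (11/28) * z 0 * z 1 + (-5/7) * z 0 ^ 2 + (3/28) * √2 * z 1 * z 2 + (1/14) * √2 * z 1 ^ 2 + (1/14) * √2 * z 0 * z 2 + (-3/14) * √2 * z 0 * z 1 + (4/7) * √2 * z 0 ^ 2 := by
    show ⟪vv ((-3/7) * z 1 + (-5/14) * √2 * z 1) ((-3/7) * z 0 + (1/7) * √2 * z 0) (2 * z 0 + (-1) * √2 * z 0) (0), vv ((-3/14) * z 2 + (-1/7) * z 1 + (1/7) * z 0 + (-5/28) * √2 * z 2 + (-1/28) * √2 * z 1 + (-3/14) * √2 * z 0) ((-1/7) * z 2 + (-3/14) * z 1 + (-1/7) * z 0 + (-1/28) * √2 * z 2 + (-5/28) * √2 * z 1 + (3/14) * √2 * z 0) ((1/2) * z 2 + (-1/2) * z 1 + 2 * z 0 + (-1) * √2 * z 0) ((-1/14) * z 4 + (1/14) * z 3 + (-1/7) * √2 * z 4 + (1/7) * √2 * z 3)⟫ = _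
    rw [h1.1]
    linear_combination ((-55/392) * z 1 * z 2 + (-53/392) * z 1 ^ 2 + (-53/392) * z 0 * z 2 + (47/392) * z 0 * z 1 + (-25/49) * z 0 ^ 2 + (-75/392) * √2 * z 1 * z 2 + (-15/392) * √2 * z 1 ^ 2 + (3/196) * √2 * z 0 * z 2 + (-15/98) * √2 * z 0 * z 1 + (31/196) * √2 * z 0 ^ 2) * hs
  unfold Qc cs
  rw [w11, h2, nu1 h1, nv1 h1]
  linear_combination ((1/896) * z 4 ^ 2 + (-1/448) * z 3 * z 4 + (1/896) * z 3 ^ 2 + (1/224) * z 2 ^ 2 + (1/64) * z 1 * z 2 + (11/448) * z 1 ^ 2 + (5/448) * z 0 * z 2 + (-13/448) * z 0 * z 1 + (1/16) * z 0 ^ 2 + (1/3584) * √2 * z 4 ^ 2 + (-1/1792) * √2 * z 3 * z 4 + (1/3584) * √2 * z 3 ^ 2 + (11/3584) * √2 * z 2 ^ 2 + (1/1792) * √2 * z 1 * z 2 + (5/512) * √2 * z 1 ^ 2 + (1/224) * √2 * z 0 * z 2 + (-1/224) * √2 * z 0 * z 1 + (3/224) * √2 * z 0 ^ 2)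 * hs

theorem q12 (z : Fin 5 → ℝ) : ww 1 2 * Qc (uS z) (vS z) 1 2 = 0 := by
  have h2 : ww 1 2 = 0 := by simp [ww, ct]
  rw [h2, zero_mul]

theorem q13 (z : Fin 5 → ℝ) : ww 1 3 * Qc (uS z) (vS z) 1 3 = 0 := by
  have h2 : ww 1 3 = 0 := by simp [ww, ct]
  rw [h2, zero_mul]

theorem w14 : ww 1 4 = (1 + √2) / 4 := by
  simp [ww, ct]

theorem q14 (h1 : SVv) (z : Fin 5 → ℝ) : ww 1 4 * Qc (uS z) (vS z) 1 4 = (-3/112) * z 1 ^ 2 + (-5/112) * z 0 ^ 2 + (-5/224) * √2 * z 1 ^ 2 + (-13/224) * √2 * z 0 ^ 2 := by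
  have h2 : ⟪uS z 1, vS z 4⟫ = (-1/2) * z 0 ^ 2 + (1/4) * √2 * z 0 ^ 2 := by
    show ⟪vv ((-3/7) * z 1 + (-5/14) * √2 * z 1) ((-3/7) * z 0 + (1/7) * √2 * z 0) (2 * z 0 + (-1) * √2 * z 0) (0), vv (0) (0) ((-1/2) * √2 * z 0) ((-2/7) * z 0 + (-1/14) * √2 * z 0)⟫ = _
    rw [h1.1]
    linear_combination ((-1/4) * z 0 ^ 2 + (1/8) * √2 * z 0 ^ 2) * hs
  unfold Qc cs
  rw [w14, h2, nu1 h1, nv4 h1]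
  linear_combination ((1/112) * z 1 ^ 2 + (1/28) * z 0 ^ 2 + (3/224) * √2 * z 1 ^ 2 + (5/224) * √2 * z 0 ^ 2) * hs

theorem w15 : ww 1 5 = (1 + √2) / 4 := by
  simp [ww, ct]

theorem q15 (h1 : SVv) (z : Fin 5 → ℝ) : ww 1 5 * Qc (uS z) (vS z) 1 5 = (-3/112) * z 1 ^ 2 + (-5/112) * z 0 ^ 2 + (-5/224) * √2 * z 1 ^ 2 + (-13/224) * √2 * z 0 ^ 2 := by
  have h2 : ⟪uS z 1, vS z 5⟫ = (-1/2) * z 0 ^ 2 + (1/4) * √2 * z 0 ^ 2 := by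
    show ⟪vv ((-3/7) * z 1 + (-5/14) * √2 * z 1) ((-3/7) * z 0 + (1/7) * √2 * z 0) (2 * z 0 + (-1) * √2 * z 0) (0), vv (0) (0) ((-1/2) * √2 * z 0) ((2/7) * z 0 + (1/14) * √2 * z 0)⟫ = _
    rw [h1.1]
    linear_combination ((-1/4) * z 0 ^ 2 + (1/8) * √2 * z 0 ^ 2) * hs
  unfold Qc cs
  rw [w15, h2, nu1 h1, nv5 h1]
  linear_combination ((1/112) * z 1 ^ 2 + (1/28) * z 0 ^ 2 + (3/224) * √2 * z 1 ^ 2 + (5/224) * √2 * z 0 ^ 2) * hs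

theorem q20 (z : Fin 5 → ℝ) : ww 2 0 * Qc (uS z) (vS z) 2 0 = 0 := by
  have h2 : ww 2 0 = 0 := by simp [ww, ct]
  rw [h2, zero_mul]

theorem w21 : ww 2 1 = (2 + √2) / 8 := by
  simp [ww, ct]

theorem q21 (h1 : SVv) (z : Fin 5 → ℝ) : ww 2 1 * Qc (uS z) (vS z) 2 1 = (-1/448) * z 4 ^ 2 + (1/224) * z 3 * z 4 + (-1/448) * z 3 ^ 2 + (-1/224) * z 2 ^ 2 + (15/224) * z 1 * z 2 + (-1/112) * z 1 ^ 2 + (-11/224) * z 0 * z 2 + (-5/224) * z 0 * z 1 + (-1/56) * z 0 ^ 2 + (-1/1792) * √2 * z 4 ^ 2 + (1/896) * √2 * z 3 * z 4 + (-1/1792) * √2 * z 3 ^ 2 + (5/1792) * √2 * z 2 ^ 2 + (43/896) * √2 * z 1 * z 2 + (-11/1792) * √2 * z 1 ^ 2 + (-1/224) * √2 * z 0 * z 2 + (-3/224) * √2 * z 0 * z 1 + (3/112) * √2 * z 0 ^ 2 := by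
  have h2 : ⟪uS z 2, vS z 1⟫ = (1/28) * z 2 ^ 2 + (5/28) * z 1 * z 2 + (-11/28) * z 0 * z 2 + (-1/28) * z 0 * z 1 + (-5/7) * z 0 ^ 2 + (1/14) * √2 * z 2 ^ 2 + (3/28) * √2 * z 1 * z 2 + (3/14) * √2 * z 0 * z 2 + (-1/14) * √2 * z 0 * z 1 + (4/7) * √2 * z 0 ^ 2 := by
    show ⟪vv ((3/7) * z 0 + (-1/7) * √2 * z 0) ((-3/7) * z 2 + (-5/14) * √2 * z 2) (2 * z 0 + (-1) * √2 * z 0) (0), vv ((-3/14) * z 2 + (-1/7) * z 1 + (1/7) * z 0 + (-5/28) * √2 * z 2 + (-1/28) * √2 * z 1 + (-3/14) * √2 * z 0) ((-1/7) * z 2 + (-3/14) * z 1 + (-1/7) * z 0 + (-1/28) * √2 * z 2 + (-5/28) * √2 * z 1 + (3/14) * √2 * z 0) ((1/2) * z 2 + (-1/2) * z 1 + 2 * z 0 + (-1) * √2 * z 0) ((-1/14) * z 4 + (1/14) * z 3 + (-1/7) * √2 * z 4 + (1/7) * √2 * z 3)⟫ = _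
    rw [h1.1]
    linear_combination ((-53/392) * z 2 ^ 2 + (-55/392) * z 1 * z 2 + (-47/392) * z 0 * z 2 + (53/392) * z 0 * z 1 + (-25/49) * z 0 ^ 2 + (-15/392) * √2 * z 2 ^ 2 + (-75/392) * √2 * z 1 * z 2 + (15/98) * √2 * z 0 * z 2 + (-3/196) * √2 * z 0 * z 1 + (31/196) * √2 * z 0 ^ 2) * hs
  unfold Qc cs
  rw [w21, h2, nu2 h1, nv1 h1]
  linear_combination ((1/896) * z 4 ^ 2 + (-1/448) * z 3 * z 4 + (1/896) * z 3 ^ 2 + (11/448) * z 2 ^ 2 + (1/64) * z 1 * z 2 + (1/224) * z 1 ^ 2 + (13/448) * z 0 * z 2 + (-5/448) * z 0 * z 1 + (1/16) * z 0 ^ 2 + (1/3584) * √2 * z 4 ^ 2 + (-1/1792) * √2 * z 3 * z 4 + (1/3584) * √2 * z 3 ^ 2 + (5/512) * √2 * z 2 ^ 2 + (1/1792) * √2 * z 1 * z 2 + (11/3584) * √2 * z 1 ^ 2 + (1/224) * √2 * z 0 * z 2 + (-1/224) * √2 * z 0 * z 1 + (3/224) * √2 * z 0 ^ 2)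 * hs

theorem w22 : ww 2 2 = (2 + √2) / 8 := by
  simp [ww, ct]

theorem q22 (h1 : SVv) (z : Fin 5 → ℝ) : ww 2 2 * Qc (uS z) (vS z) 2 2 = (-1/448) * z 4 ^ 2 + (-1/224) * z 3 * z 4 + (-1/448) * z 3 ^ 2 + (-1/224) * z 2 ^ 2 + (-15/224) * z 1 * z 2 + (-1/112) * z 1 ^ 2 + (11/224) * z 0 * z 2 + (-5/224) * z 0 * z 1 + (-1/56) * z 0 ^ 2 + (-1/1792) * √2 * z 4 ^ 2 + (-1/896) * √2 * z 3 * z 4 + (-1/1792) * √2 * z 3 ^ 2 + (5/1792) * √2 * z 2 ^ 2 + (-43/896) * √2 * z 1 * z 2 + (-11/1792) * √2 * z 1 ^ 2 + (1/224) * √2 * z 0 * z 2 + (-3/224) * √2 * z 0 * z 1 + (3/112) * √2 * z 0 ^ 2 := by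
  have h2 : ⟪uS z 2, vS z 2⟫ = (1/28) * z 2 ^ 2 + (-5/28) * z 1 * z 2 + (11/28) * z 0 * z 2 + (-1/28) * z 0 * z 1 + (-5/7) * z 0 ^ 2 + (1/14) * √2 * z 2 ^ 2 + (-3/28) * √2 * z 1 * z 2 + (-3/14) * √2 * z 0 * z 2 + (-1/14) * √2 * z 0 * z 1 + (4/7) * √2 * z 0 ^ 2 := by
    show ⟪vv ((3/7) * z 0 + (-1/7) * √2 * z 0) ((-3/7) * z 2 + (-5/14) * √2 * z 2) (2 * z 0 + (-1) * √2 * z 0) (0), vv ((3/14) * z 2 + (-1/7) * z 1 + (1/7) * z 0 + (5/28) * √2 * z 2 + (-1/28) * √2 * z 1 + (-3/14) * √2 * z 0) ((-1/7) * z 2 + (3/14) * z 1 + (1/7) * z 0 + (-1/28) * √2 * z 2 + (5/28) * √2 * z 1 + (-3/14) * √2 * z 0) ((-1/2) * z 2 + (-1/2) * z 1 + 2 * z 0 + (-1) * √2 * z 0) ((1/14) * z 4 + (1/14) * z 3 + (1/7) * √2 * z 4 + (1/7) * √2 * z 3)⟫ = _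
    rw [h1.1]
    linear_combination ((-53/392) * z 2 ^ 2 + (55/392) * z 1 * z 2 + (47/392) * z 0 * z 2 + (53/392) * z 0 * z 1 + (-25/49) * z 0 ^ 2 + (-15/392) * √2 * z 2 ^ 2 + (75/392) * √2 * z 1 * z 2 + (-15/98) * √2 * z 0 * z 2 + (-3/196) * √2 * z 0 * z 1 + (31/196) * √2 * z 0 ^ 2) * hs
  unfold Qc cs
  rw [w22, h2, nu2 h1, nv2 h1]
  linear_combination ((1/896) * z 4 ^ 2 + (1/448) * z 3 * z 4 + (1/896) * z 3 ^ 2 + (11/448) * z 2 ^ 2 + (-1/64) * z 1 * z 2 + (1/224) * z 1 ^ 2 + (-13/448) * z 0 * z 2 + (-5/448) * z 0 * z 1 + (1/16) * z 0 ^ 2 + (1/3584) * √2 * z 4 ^ 2 + (1/1792) * √2 * z 3 * z 4 + (1/3584) * √2 * z 3 ^ 2 + (5/512) * √2 * z 2 ^ 2 + (-1/1792) * √2 * z 1 * z 2 + (11/3584) * √2 * z 1 ^ 2 + (-1/224) * √2 * z 0 * z 2 + (-1/224) * √2 * z 0 * z 1 + (3/224) * √2 * z 0 ^ 2)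 * hs

theorem q23 (z : Fin 5 → ℝ) : ww 2 3 * Qc (uS z) (vS z) 2 3 = 0 := by
  have h2 : ww 2 3 = 0 := by simp [ww, ct]
  rw [h2, zero_mul]

theorem w24 : ww 2 4 = (1 + √2) / 4 := by
  simp [ww, ct]

theorem q24 (h1 : SVv) (z : Fin 5 → ℝ) : ww 2 4 * Qc (uS z) (vS z) 2 4 = (-3/112) * z 2 ^ 2 + (-5/112) * z 0 ^ 2 + (-5/224) * √2 * z 2 ^ 2 + (-13/224) * √2 * z 0 ^ 2 := by
  have h2 : ⟪uS z 2, vS z 4⟫ = (-1/2) * z 0 ^ 2 + (1/4) * √2 * z 0 ^ 2 := by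
    show ⟪vv ((3/7) * z 0 + (-1/7) * √2 * z 0) ((-3/7) * z 2 + (-5/14) * √2 * z 2) (2 * z 0 + (-1) * √2 * z 0) (0), vv (0) (0) ((-1/2) * √2 * z 0) ((-2/7) * z 0 + (-1/14) * √2 * z 0)⟫ = _
    rw [h1.1]
    linear_combination ((-1/4) * z 0 ^ 2 + (1/8) * √2 * z 0 ^ 2) * hs
  unfold Qc cs
  rw [w24, h2, nu2 h1, nv4 h1]
  linear_combination ((1/112) * z 2 ^ 2 + (1/28) * z 0 ^ 2 + (3/224) * √2 * z 2 ^ 2 + (5/224) * √2 * z 0 ^ 2) * hs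

theorem w25 : ww 2 5 = (1 + √2) / 4 := by
  simp [ww, ct]

theorem q25 (h1 : SVv) (z : Fin 5 → ℝ) : ww 2 5 * Qc (uS z) (vS z) 2 5 = (-3/112) * z 2 ^ 2 + (-5/112) * z 0 ^ 2 + (-5/224) * √2 * z 2 ^ 2 + (-13/224) * √2 * z 0 ^ 2 := by
  have h2 : ⟪uS z 2, vS z 5⟫ = (-1/2) * z 0 ^ 2 + (1/4) * √2 * z 0 ^ 2 := by
    show ⟪vv ((3/7) * z 0 + (-1/7) * √2 * z 0) ((-3/7) * z 2 + (-5/14) * √2 * z 2) (2 * z 0 + (-1) * √2 * z 0) (0), vv (0) (0) ((-1/2) * √2 * z 0) ((2/7) * z 0 + (1/14) * √2 * z 0)⟫ = _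
    rw [h1.1]
    linear_combination ((-1/4) * z 0 ^ 2 + (1/8) * √2 * z 0 ^ 2) * hs
  unfold Qc cs
  rw [w25, h2, nu2 h1, nv5 h1]
  linear_combination ((1/112) * z 2 ^ 2 + (1/28) * z 0 ^ 2 + (3/224) * √2 * z 2 ^ 2 + (5/224) * √2 * z 0 ^ 2) * hs

theorem q30 (z : Fin 5 → ℝ) : ww 3 0 * Qc (uS z) (vS z) 3 0 = 0 := by
  have h2 : ww 3 0 = 0 := by simp [ww, ct]
  rw [h2, zero_mul]

theorem q31 (z : Fin 5 → ℝ) : ww 3 1 * Qc (uS z) (vS z) 3 1 = 0 := by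
  have h2 : ww 3 1 = 0 := by simp [ww, ct]
  rw [h2, zero_mul]

theorem w32 : ww 3 2 = (2 + √2) / 8 := by
  simp [ww, ct]

theorem q32 (h1 : SVv) (z : Fin 5 → ℝ) : ww 3 2 * Qc (uS z) (vS z) 3 2 = (-1/448) * z 4 ^ 2 + (-1/224) * z 3 * z 4 + (-1/448) * z 3 ^ 2 + (-1/112) * z 2 ^ 2 + (-15/224) * z 1 * z 2 + (-1/224) * z 1 ^ 2 + (-5/224) * z 0 * z 2 + (11/224) * z 0 * z 1 + (-1/56) * z 0 ^ 2 + (-1/1792) * √2 * z 4 ^ 2 + (-1/896) * √2 * z 3 * z 4 + (-1/1792) * √2 * z 3 ^ 2 + (-11/1792) * √2 * z 2 ^ 2 + (-43/896) * √2 * z 1 * z 2 + (5/1792) * √2 * z 1 ^ 2 + (-3/224) * √2 * z 0 * z 2 + (1/224) * √2 * z 0 * z 1 + (3/112) * √2 * z 0 ^ 2 := by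
  have h2 : ⟪uS z 3, vS z 2⟫ = (-5/28) * z 1 * z 2 + (1/28) * z 1 ^ 2 + (-1/28) * z 0 * z 2 + (11/28) * z 0 * z 1 + (-5/7) * z 0 ^ 2 + (-3/28) * √2 * z 1 * z 2 + (1/14) * √2 * z 1 ^ 2 + (-1/14) * √2 * z 0 * z 2 + (-3/14) * √2 * z 0 * z 1 + (4/7) * √2 * z 0 ^ 2 := by
    show ⟪vv ((-3/7) * z 1 + (-5/14) * √2 * z 1) ((3/7) * z 0 + (-1/7) * √2 * z 0) (2 * z 0 + (-1) * √2 * z 0) (0), vv ((3/14) * z 2 + (-1/7) * z 1 + (1/7) * z 0 + (5/28) * √2 * z 2 + (-1/28) * √2 * z 1 + (-3/14) * √2 * z 0) ((-1/7) * z 2 + (3/14) * z 1 + (1/7) * z 0 + (-1/28) * √2 * z 2 + (5/28) * √2 * z 1 + (-3/14) * √2 * z 0) ((-1/2) * z 2 + (-1/2) * z 1 + 2 * z 0 + (-1) * √2 * z 0) ((1/14) * z 4 + (1/14) * z 3 + (1/7) * √2 * z 4 + (1/7) * √2 * z 3)⟫ = _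
    rw [h1.1]
    linear_combination ((55/392) * z 1 * z 2 + (-53/392) * z 1 ^ 2 + (53/392) * z 0 * z 2 + (47/392) * z 0 * z 1 + (-25/49) * z 0 ^ 2 + (75/392) * √2 * z 1 * z 2 + (-15/392) * √2 * z 1 ^ 2 + (-3/196) * √2 * z 0 * z 2 + (-15/98) * √2 * z 0 * z 1 + (31/196) * √2 * z 0 ^ 2) * hs
  unfold Qc cs
  rw [w32, h2, nu3 h1, nv2 h1]
  linear_combination ((1/896) * z 4 ^ 2 + (1/448) * z 3 * z 4 + (1/896) * z 3 ^ 2 + (1/224) * z 2 ^ 2 + (-1/64) * z 1 * z 2 + (11/448) * z 1 ^ 2 + (-5/448) * z 0 * z 2 + (-13/448) * z 0 * z 1 + (1/16) * z 0 ^ 2 + (1/3584) * √2 * z 4 ^ 2 + (1/1792) * √2 * z 3 * z 4 + (1/3584) * √2 * z 3 ^ 2 + (11/3584) * √2 * z 2 ^ 2 + (-1/1792) * √2 * z 1 * z 2 + (5/512) * √2 * z 1 ^ 2 + (-1/224) * √2 * z 0 * z 2 + (-1/224) * √2 * z 0 * z 1 + (3/224) * √2 * z 0 ^ 2)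 * hs

theorem w33 : ww 3 3 = (2 + √2) / 8 := by
  simp [ww, ct]

theorem q33 (h1 : SVv) (z : Fin 5 → ℝ) : ww 3 3 * Qc (uS z) (vS z) 3 3 = (-1/448) * z 4 ^ 2 + (1/224) * z 3 * z 4 + (-1/448) * z 3 ^ 2 + (-1/112) * z 2 ^ 2 + (15/224) * z 1 * z 2 + (-1/224) * z 1 ^ 2 + (-5/224) * z 0 * z 2 + (-11/224) * z 0 * z 1 + (-1/56) * z 0 ^ 2 + (-1/1792) * √2 * z 4 ^ 2 + (1/896) * √2 * z 3 * z 4 + (-1/1792) * √2 * z 3 ^ 2 + (-11/1792) * √2 * z 2 ^ 2 + (43/896) * √2 * z 1 * z 2 + (5/1792) * √2 * z 1 ^ 2 + (-3/224) * √2 * z 0 * z 2 + (-1/224) * √2 * z 0 * z 1 + (3/112) * √2 * z 0 ^ 2 := by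
  have h2 : ⟪uS z 3, vS z 3⟫ = (5/28) * z 1 * z 2 + (1/28) * z 1 ^ 2 + (-1/28) * z 0 * z 2 + (-11/28) * z 0 * z 1 + (-5/7) * z 0 ^ 2 + (3/28) * √2 * z 1 * z 2 + (1/14) * √2 * z 1 ^ 2 + (-1/14) * √2 * z 0 * z 2 + (3/14) * √2 * z 0 * z 1 + (4/7) * √2 * z 0 ^ 2 := by
    show ⟪vv ((-3/7) * z 1 + (-5/14) * √2 * z 1) ((3/7) * z 0 + (-1/7) * √2 * z 0) (2 * z 0 + (-1) * √2 * z 0) (0), vv ((-3/14) * z 2 + (-1/7) * z 1 + (-1/7) * z 0 + (-5/28) * √2 * z 2 + (-1/28) * √2 * z 1 + (3/14) * √2 * z 0) ((-1/7) * z 2 + (-3/14) * z 1 + (1/7) * z 0 + (-1/28) * √2 * z 2 + (-5/28) * √2 * z 1 + (-3/14) * √2 * z 0) ((-1/2) * z 2 + (1/2) * z 1 + 2 * z 0 + (-1) * √2 * z 0) ((1/14) * z 4 + (-1/14) * z 3 + (1/7) * √2 * z 4 + (-1/7) * √2 * z 3)⟫ = _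
    rw [h1.1]
    linear_combination ((-55/392) * z 1 * z 2 + (-53/392) * z 1 ^ 2 + (53/392) * z 0 * z 2 + (-47/392) * z 0 * z 1 + (-25/49) * z 0 ^ 2 + (-75/392) * √2 * z 1 * z 2 + (-15/392) * √2 * z 1 ^ 2 + (-3/196) * √2 * z 0 * z 2 + (15/98) * √2 * z 0 * z 1 + (31/196) * √2 * z 0 ^ 2) * hs
  unfold Qc cs
  rw [w33, h2, nu3 h1, nv3 h1]
  linear_combination ((1/896) * z 4 ^ 2 + (-1/448) * z 3 * z 4 + (1/896) * z 3 ^ 2 + (1/224) * z 2 ^ 2 + (1/64) * z 1 * z 2 + (11/448) * z 1 ^ 2 + (-5/448) * z 0 * z 2 + (13/448) * z 0 * z 1 + (1/16) * z 0 ^ 2 + (1/3584) * √2 * z 4 ^ 2 + (-1/1792) * √2 * z 3 * z 4 + (1/3584) * √2 * z 3 ^ 2 + (11/3584) * √2 * z 2 ^ 2 + (1/1792) * √2 * z 1 * z 2 + (5/512) * √2 * z 1 ^ 2 + (-1/224) * √2 * z 0 * z 2 + (1/224) * √2 * z 0 * z 1 + (3/224) * √2 * z 0 ^ 2)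 * hs

theorem w34 : ww 3 4 = (1 + √2) / 4 := by
  simp [ww, ct]

theorem q34 (h1 : SVv) (z : Fin 5 → ℝ) : ww 3 4 * Qc (uS z) (vS z) 3 4 = (-3/112) * z 1 ^ 2 + (-5/112) * z 0 ^ 2 + (-5/224) * √2 * z 1 ^ 2 + (-13/224) * √2 * z 0 ^ 2 := by
  have h2 : ⟪uS z 3, vS z 4⟫ = (-1/2) * z 0 ^ 2 + (1/4) * √2 * z 0 ^ 2 := by
    show ⟪vv ((-3/7) * z 1 + (-5/14) * √2 * z 1) ((3/7) * z 0 + (-1/7) * √2 * z 0) (2 * z 0 + (-1) * √2 * z 0) (0), vv (0) (0) ((-1/2) * √2 * z 0) ((-2/7) * z 0 + (-1/14) * √2 * z 0)⟫ = _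
    rw [h1.1]
    linear_combination ((-1/4) * z 0 ^ 2 + (1/8) * √2 * z 0 ^ 2) * hs
  unfold Qc cs
  rw [w34, h2, nu3 h1, nv4 h1]
  linear_combination ((1/112) * z 1 ^ 2 + (1/28) * z 0 ^ 2 + (3/224) * √2 * z 1 ^ 2 + (5/224) * √2 * z 0 ^ 2) * hs

theorem w35 : ww 3 5 = (1 + √2) / 4 := by
  simp [ww, ct]

theorem q35 (h1 : SVv) (z : Fin 5 → ℝ) : ww 3 5 * Qc (uS z) (vS z) 3 5 = (-3/112) * z 1 ^ 2 + (-5/112) * z 0 ^ 2 + (-5/224) * √2 * z 1 ^ 2 + (-13/224) * √2 * z 0 ^ 2 := by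
  have h2 : ⟪uS z 3, vS z 5⟫ = (-1/2) * z 0 ^ 2 + (1/4) * √2 * z 0 ^ 2 := by
    show ⟪vv ((-3/7) * z 1 + (-5/14) * √2 * z 1) ((3/7) * z 0 + (-1/7) * √2 * z 0) (2 * z 0 + (-1) * √2 * z 0) (0), vv (0) (0) ((-1/2) * √2 * z 0) ((2/7) * z 0 + (1/14) * √2 * z 0)⟫ = _
    rw [h1.1]
    linear_combination ((-1/4) * z 0 ^ 2 + (1/8) * √2 * z 0 ^ 2) * hs
  unfold Qc cs
  rw [w35, h2, nu3 h1, nv5 h1]
  linear_combination ((1/112) * z 1 ^ 2 + (1/28) * z 0 ^ 2 + (3/224) * √2 * z 1 ^ 2 + (5/224) * √2 * z 0 ^ 2) * hs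

theorem w40 : ww 4 0 = (1 + √2) / 4 := by
  simp [ww, ct]

theorem q40 (h1 : SVv) (z : Fin 5 → ℝ) : ww 4 0 * Qc (uS z) (vS z) 4 0 = (-1/224) * z 4 ^ 2 + (-1/448) * z 3 * z 4 + (-1/224) * z 3 ^ 2 + (-9/448) * z 2 * z 4 + (1/28) * z 2 * z 3 + (-13/448) * z 2 ^ 2 + (1/28) * z 1 * z 4 + (-9/448) * z 1 * z 3 + (33/448) * z 1 * z 2 + (-13/448) * z 1 ^ 2 + (9/224) * z 0 * z 4 + (9/224) * z 0 * z 3 + (-1/32) * z 0 * z 2 + (-1/32) * z 0 * z 1 + (-5/112) * z 0 ^ 2 + (-9/1792) * √2 * z 4 ^ 2 + (-1/224) * √2 * z 3 * z 4 + (-9/1792) * √2 * z 3 ^ 2 + (-15/896) * √2 * z 2 * z 4 + (11/448) * √2 * z 2 * z 3 + (-41/1792) * √2 * z 2 ^ 2 + (11/448) * √2 * z 1 * z 4 + (-15/896) * √2 * z 1 * z 3 + (3/56) * √2 * z 1 * z 2 + (-41/1792) * √2 * z 1 ^ 2 + (1/56) * √2 * z 0 * z 4 + (1/56) * √2 * z 0 * z 3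 + (-1/32) * √2 * z 0 * z 2 + (-1/32) * √2 * z 0 * z 1 + (-13/224) * √2 * z 0 ^ 2 := by
  have h2 : ⟪uS z 4, vS z 0⟫ = (-1/28) * z 2 * z 4 + (3/56) * z 2 * z 3 + (-1/28) * z 2 ^ 2 + (3/56) * z 1 * z 4 + (-1/28) * z 1 * z 3 + (3/28) * z 1 * z 2 + (-1/28) * z 1 ^ 2 + (-1/56) * z 0 * z 4 + (-1/56) * z 0 * z 3 + (-9/56) * z 0 * z 2 + (-9/56) * z 0 * z 1 + (-1/2) * z 0 ^ 2 + (-1/112) * √2 * z 2 * z 4 + (5/112) * √2 * z 2 * z 3 + (-1/112) * √2 * z 2 ^ 2 + (5/112) * √2 * z 1 * z 4 + (-1/112) * √2 * z 1 * z 3 + (5/56) * √2 * z 1 * z 2 + (-1/112) * √2 * z 1 ^ 2 + (5/56) * √2 * z 0 * z 4 + (5/56) * √2 * z 0 * z 3 + (3/56) * √2 * z 0 * z 2 + (3/56) * √2 * z 0 * z 1 + (1/4) * √2 * z 0 ^ 2 := by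
    show ⟪vv ((5/28) * z 3 + (5/28) * z 1 + (3/28) * √2 * z 3 + (3/28) * √2 * z 1) ((5/28) * z 4 + (5/28) * z 2 + (3/28) * √2 * z 4 + (3/28) * √2 * z 2) ((-1/2) * √2 * z 0) ((-2/7) * z 0 + (-1/14) * √2 * z 0), vv ((3/14) * z 2 + (-1/7) * z 1 + (-1/7) * z 0 + (5/28) * √2 * z 2 + (-1/28) * √2 * z 1 + (3/14) * √2 * z 0) ((-1/7) * z 2 + (3/14) * z 1 + (-1/7) * z 0 + (-1/28) * √2 * z 2 + (5/28) * √2 * z 1 + (3/14) * √2 * z 0) ((1/2) * z 2 + (1/2) * z 1 + 2 * z 0 + (-1) * √2 * z 0) ((-1/14) * z 4 + (-1/14) * z 3 + (-1/7) * √2 * z 4 + (-1/7) * √2 * z 3)⟫ = _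
    rw [h1.1]
    linear_combination ((9/196) * z 2 * z 4 + (-27/392) * z 2 * z 3 + (9/196) * z 2 ^ 2 + (-27/392) * z 1 * z 4 + (9/196) * z 1 * z 3 + (-27/196) * z 1 * z 2 + (9/196) * z 1 ^ 2 + (5/112) * z 0 * z 4 + (5/112) * z 0 * z 3 + (-13/784) * z 0 * z 2 + (-13/784) * z 0 * z 1 + (-1/4) * z 0 ^ 2 + (9/784) * √2 * z 2 * z 4 + (-45/784) * √2 * z 2 * z 3 + (9/784) * √2 * z 2 ^ 2 + (-45/784) * √2 * z 1 * z 4 + (9/784) * √2 * z 1 * z 3 + (-45/392) * √2 * z 1 * z 2 + (9/784) * √2 * z 1 ^ 2 + (-1/14) * √2 * z 0 * z 4 + (-1/14) * √2 * z 0 * z 3 + (-27/392) * √2 * z 0 * z 2 + (-27/392) * √2 * z 0 * z 1 + (1/8) * √2 * z 0 ^ 2) * hs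
  unfold Qc cs
  rw [w40, h2, nu4 h1, nv0 h1]
  linear_combination ((5/1792) * z 4 ^ 2 + (3/896) * z 3 * z 4 + (5/1792) * z 3 ^ 2 + (5/448) * z 2 * z 3 + (3/1792) * z 2 ^ 2 + (5/448) * z 1 * z 4 + (17/896) * z 1 * z 2 + (3/1792) * z 1 ^ 2 + (5/224) * z 0 * z 4 + (5/224) * z 0 * z 3 + (1/112) * z 0 * z 2 + (1/112) * z 0 * z 1 + (1/28) * z 0 ^ 2 + (1/448) * √2 * z 4 ^ 2 + (1/896) * √2 * z 3 * z 4 + (1/448) * √2 * z 3 ^ 2 + (3/896) * √2 * z 2 * z 4 + (1/128) * √2 * z 2 ^ 2 + (3/896) * √2 * z 1 * z 3 + (-1/896) * √2 * z 1 * z 2 + (1/128) * √2 * z 1 ^ 2 + (1/112) * √2 * z 0 * z 2 + (1/112) * √2 * z 0 * z 1 + (5/224) * √2 * z 0 ^ 2) * hs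

theorem w41 : ww 4 1 = (1 + √2) / 4 := by
  simp [ww, ct]

theorem q41 (h1 : SVv) (z : Fin 5 → ℝ) : ww 4 1 * Qc (uS z) (vS z) 4 1 = (-1/224) * z 4 ^ 2 + (1/448) * z 3 * z 4 + (-1/224) * z 3 ^ 2 + (-9/448) * z 2 * z 4 + (-1/28) * z 2 * z 3 + (-13/448) * z 2 ^ 2 + (-1/28) * z 1 * z 4 + (-9/448) * z 1 * z 3 + (-33/448) * z 1 * z 2 + (-13/448) * z 1 ^ 2 + (9/224) * z 0 * z 4 + (-9/224) * z 0 * z 3 + (-1/32) * z 0 * z 2 + (1/32) * z 0 * z 1 + (-5/112) * z 0 ^ 2 + (-9/1792) * √2 * z 4 ^ 2 + (1/224) * √2 * z 3 * z 4 + (-9/1792) * √2 * z 3 ^ 2 + (-15/896) * √2 * z 2 * z 4 + (-11/448) * √2 * z 2 * z 3 + (-41/1792) * √2 * z 2 ^ 2 + (-11/448) * √2 * z 1 * z 4 + (-15/896) * √2 * z 1 * z 3 + (-3/56) * √2 * z 1 * z 2 + (-41/1792) * √2 * z 1 ^ 2 + (1/56) * √2 * z 0 * z 4 + (-1/56) * √2 * z 0 *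 z 3 + (-1/32) * √2 * z 0 * z 2 + (1/32) * √2 * z 0 * z 1 + (-13/224) * √2 * z 0 ^ 2 := by
  have h2 : ⟪uS z 4, vS z 1⟫ = (-1/28) * z 2 * z 4 + (-3/56) * z 2 * z 3 + (-1/28) * z 2 ^ 2 + (-3/56) * z 1 * z 4 + (-1/28) * z 1 * z 3 + (-3/28) * z 1 * z 2 + (-1/28) * z 1 ^ 2 + (-1/56) * z 0 * z 4 + (1/56) * z 0 * z 3 + (-9/56) * z 0 * z 2 + (9/56) * z 0 * z 1 + (-1/2) * z 0 ^ 2 + (-1/112) * √2 * z 2 * z 4 + (-5/112) * √2 * z 2 * z 3 + (-1/112) * √2 * z 2 ^ 2 + (-5/112) * √2 * z 1 * z 4 + (-1/112) * √2 * z 1 * z 3 + (-5/56) * √2 * z 1 * z 2 + (-1/112) * √2 * z 1 ^ 2 + (5/56) * √2 * z 0 * z 4 + (-5/56) * √2 * z 0 * z 3 + (3/56) * √2 * z 0 * z 2 + (-3/56) * √2 * z 0 * z 1 + (1/4) * √2 * z 0 ^ 2 := by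
    show ⟪vv ((5/28) * z 3 + (5/28) * z 1 + (3/28) * √2 * z 3 + (3/28) * √2 * z 1) ((5/28) * z 4 + (5/28) * z 2 + (3/28) * √2 * z 4 + (3/28) * √2 * z 2) ((-1/2) * √2 * z 0) ((-2/7) * z 0 + (-1/14) * √2 * z 0), vv ((-3/14) * z 2 + (-1/7) * z 1 + (1/7) * z 0 + (-5/28) * √2 * z 2 + (-1/28) * √2 * z 1 + (-3/14) * √2 * z 0) ((-1/7) * z 2 + (-3/14) * z 1 + (-1/7) * z 0 + (-1/28) * √2 * z 2 + (-5/28) * √2 * z 1 + (3/14) * √2 * z 0) ((1/2) * z 2 + (-1/2) * z 1 + 2 * z 0 + (-1) * √2 * z 0) ((-1/14) * z 4 + (1/14) * z 3 + (-1/7) * √2 * z 4 + (1/7) * √2 * z 3)⟫ = _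
    rw [h1.1]
    linear_combination ((9/196) * z 2 * z 4 + (27/392) * z 2 * z 3 + (9/196) * z 2 ^ 2 + (27/392) * z 1 * z 4 + (9/196) * z 1 * z 3 + (27/196) * z 1 * z 2 + (9/196) * z 1 ^ 2 + (5/112) * z 0 * z 4 + (-5/112) * z 0 * z 3 + (-13/784) * z 0 * z 2 + (13/784) * z 0 * z 1 + (-1/4) * z 0 ^ 2 + (9/784) * √2 * z 2 * z 4 + (45/784) * √2 * z 2 * z 3 + (9/784) * √2 * z 2 ^ 2 + (45/784) * √2 * z 1 * z 4 + (9/784) * √2 * z 1 * z 3 + (45/392) * √2 * z 1 * z 2 + (9/784) * √2 * z 1 ^ 2 + (-1/14) * √2 * z 0 * z 4 + (1/14) * √2 * z 0 * z 3 + (-27/392) * √2 * z 0 * z 2 + (27/392) * √2 * z 0 * z 1 + (1/8) * √2 * z 0 ^ 2) * hs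
  unfold Qc cs
  rw [w41, h2, nu4 h1, nv1 h1]
  linear_combination ((5/1792) * z 4 ^ 2 + (-3/896) * z 3 * z 4 + (5/1792) * z 3 ^ 2 + (-5/448) * z 2 * z 3 + (3/1792) * z 2 ^ 2 + (-5/448) * z 1 * z 4 + (-17/896) * z 1 * z 2 + (3/1792) * z 1 ^ 2 + (5/224) * z 0 * z 4 + (-5/224) * z 0 * z 3 + (1/112) * z 0 * z 2 + (-1/112) * z 0 * z 1 + (1/28) * z 0 ^ 2 + (1/448) * √2 * z 4 ^ 2 + (-1/896) * √2 * z 3 * z 4 + (1/448) * √2 * z 3 ^ 2 + (3/896) * √2 * z 2 * z 4 + (1/128) * √2 * z 2 ^ 2 + (3/896) * √2 * z 1 * z 3 + (1/896) * √2 * z 1 * z 2 + (1/128) * √2 * z 1 ^ 2 + (1/112) * √2 * z 0 * z 2 + (-1/112) * √2 * z 0 * z 1 + (5/224) * √2 * z 0 ^ 2) * hs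

theorem w42 : ww 4 2 = (1 + √2) / 4 := by
  simp [ww, ct]

theorem q42 (h1 : SVv) (z : Fin 5 → ℝ) : ww 4 2 * Qc (uS z) (vS z) 4 2 = (-1/224) * z 4 ^ 2 + (-1/448) * z 3 * z 4 + (-1/224) * z 3 ^ 2 + (-9/448) * z 2 * z 4 + (1/28) * z 2 * z 3 + (-13/448) * z 2 ^ 2 + (1/28) * z 1 * z 4 + (-9/448) * z 1 * z 3 + (33/448) * z 1 * z 2 + (-13/448) * z 1 ^ 2 + (-9/224) * z 0 * z 4 + (-9/224) * z 0 * z 3 + (1/32) * z 0 * z 2 + (1/32) * z 0 * z 1 + (-5/112) * z 0 ^ 2 + (-9/1792) * √2 * z 4 ^ 2 + (-1/224) * √2 * z 3 * z 4 + (-9/1792) * √2 * z 3 ^ 2 + (-15/896) * √2 * z 2 * z 4 + (11/448) * √2 * z 2 * z 3 + (-41/1792) * √2 * z 2 ^ 2 + (11/448) * √2 * z 1 * z 4 + (-15/896) * √2 * z 1 * z 3 + (3/56) * √2 * z 1 * z 2 + (-41/1792) * √2 * z 1 ^ 2 + (-1/56) * √2 * z 0 * z 4 + (-1/56) * √2 * z 0 * z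 3 + (1/32) * √2 * z 0 * z 2 + (1/32) * √2 * z 0 * z 1 + (-13/224) * √2 * z 0 ^ 2 := by
  have h2 : ⟪uS z 4, vS z 2⟫ = (-1/28) * z 2 * z 4 + (3/56) * z 2 * z 3 + (-1/28) * z 2 ^ 2 + (3/56) * z 1 * z 4 + (-1/28) * z 1 * z 3 + (3/28) * z 1 * z 2 + (-1/28) * z 1 ^ 2 + (1/56) * z 0 * z 4 + (1/56) * z 0 * z 3 + (9/56) * z 0 * z 2 + (9/56) * z 0 * z 1 + (-1/2) * z 0 ^ 2 + (-1/112) * √2 * z 2 * z 4 + (5/112) * √2 * z 2 * z 3 + (-1/112) * √2 * z 2 ^ 2 + (5/112) * √2 * z 1 * z 4 + (-1/112) * √2 * z 1 * z 3 + (5/56) * √2 * z 1 * z 2 + (-1/112) * √2 * z 1 ^ 2 + (-5/56) * √2 * z 0 * z 4 + (-5/56) * √2 * z 0 * z 3 + (-3/56) * √2 * z 0 * z 2 + (-3/56) * √2 * z 0 * z 1 + (1/4) * √2 * z 0 ^ 2 := by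
    show ⟪vv ((5/28) * z 3 + (5/28) * z 1 + (3/28) * √2 * z 3 + (3/28) * √2 * z 1) ((5/28) * z 4 + (5/28) * z 2 + (3/28) * √2 * z 4 + (3/28) * √2 * z 2) ((-1/2) * √2 * z 0) ((-2/7) * z 0 + (-1/14) * √2 * z 0), vv ((3/14) * z 2 + (-1/7) * z 1 + (1/7) * z 0 + (5/28) * √2 * z 2 + (-1/28) * √2 * z 1 + (-3/14) * √2 * z 0) ((-1/7) * z 2 + (3/14) * z 1 + (1/7) * z 0 + (-1/28) * √2 * z 2 + (5/28) * √2 * z 1 + (-3/14) * √2 * z 0) ((-1/2) * z 2 + (-1/2) * z 1 + 2 * z 0 + (-1) * √2 * z 0) ((1/14) * z 4 + (1/14) * z 3 + (1/7) * √2 * z 4 + (1/7) * √2 * z 3)⟫ = _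
    rw [h1.1]
    linear_combination ((9/196) * z 2 * z 4 + (-27/392) * z 2 * z 3 + (9/196) * z 2 ^ 2 + (-27/392) * z 1 * z 4 + (9/196) * z 1 * z 3 + (-27/196) * z 1 * z 2 + (9/196) * z 1 ^ 2 + (-5/112) * z 0 * z 4 + (-5/112) * z 0 * z 3 + (13/784) * z 0 * z 2 + (13/784) * z 0 * z 1 + (-1/4) * z 0 ^ 2 + (9/784) * √2 * z 2 * z 4 + (-45/784) * √2 * z 2 * z 3 + (9/784) * √2 * z 2 ^ 2 + (-45/784) * √2 * z 1 * z 4 + (9/784) * √2 * z 1 * z 3 + (-45/392) * √2 * z 1 * z 2 + (9/784) * √2 * z 1 ^ 2 + (1/14) * √2 * z 0 * z 4 + (1/14) * √2 * z 0 * z 3 + (27/392) * √2 * z 0 * z 2 + (27/392) * √2 * z 0 * z 1 + (1/8) * √2 * z 0 ^ 2) * hs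
  unfold Qc cs
  rw [w42, h2, nu4 h1, nv2 h1]
  linear_combination ((5/1792) * z 4 ^ 2 + (3/896) * z 3 * z 4 + (5/1792) * z 3 ^ 2 + (5/448) * z 2 * z 3 + (3/1792) * z 2 ^ 2 + (5/448) * z 1 * z 4 + (17/896) * z 1 * z 2 + (3/1792) * z 1 ^ 2 + (-5/224) * z 0 * z 4 + (-5/224) * z 0 * z 3 + (-1/112) * z 0 * z 2 + (-1/112) * z 0 * z 1 + (1/28) * z 0 ^ 2 + (1/448) * √2 * z 4 ^ 2 + (1/896) * √2 * z 3 * z 4 + (1/448) * √2 * z 3 ^ 2 + (3/896) * √2 * z 2 * z 4 + (1/128) * √2 * z 2 ^ 2 + (3/896) * √2 * z 1 * z 3 + (-1/896) * √2 * z 1 * z 2 + (1/128) * √2 * z 1 ^ 2 + (-1/112) * √2 * z 0 * z 2 + (-1/112) * √2 * z 0 * z 1 + (5/224) * √2 * z 0 ^ 2) * hs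

theorem w43 : ww 4 3 = (1 + √2) / 4 := by
  simp [ww, ct]

theorem q43 (h1 : SVv) (z : Fin 5 → ℝ) : ww 4 3 * Qc (uS z) (vS z) 4 3 = (-1/224) * z 4 ^ 2 + (1/448) * z 3 * z 4 + (-1/224) * z 3 ^ 2 + (-9/448) * z 2 * z 4 + (-1/28) * z 2 * z 3 + (-13/448) * z 2 ^ 2 + (-1/28) * z 1 * z 4 + (-9/448) * z 1 * z 3 + (-33/448) * z 1 * z 2 + (-13/448) * z 1 ^ 2 + (-9/224) * z 0 * z 4 + (9/224) * z 0 * z 3 + (1/32) * z 0 * z 2 + (-1/32) * z 0 * z 1 + (-5/112) * z 0 ^ 2 + (-9/1792) * √2 * z 4 ^ 2 + (1/224) * √2 * z 3 * z 4 + (-9/1792) * √2 * z 3 ^ 2 + (-15/896) * √2 * z 2 * z 4 + (-11/448) * √2 * z 2 * z 3 + (-41/1792) * √2 * z 2 ^ 2 + (-11/448) * √2 * z 1 * z 4 + (-15/896) * √2 * z 1 * z 3 + (-3/56) * √2 * z 1 * z 2 + (-41/1792) * √2 * z 1 ^ 2 + (-1/56) * √2 * z 0 * z 4 + (1/56) * √2 * z 0 *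 z 3 + (1/32) * √2 * z 0 * z 2 + (-1/32) * √2 * z 0 * z 1 + (-13/224) * √2 * z 0 ^ 2 := by
  have h2 : ⟪uS z 4, vS z 3⟫ = (-1/28) * z 2 * z 4 + (-3/56) * z 2 * z 3 + (-1/28) * z 2 ^ 2 + (-3/56) * z 1 * z 4 + (-1/28) * z 1 * z 3 + (-3/28) * z 1 * z 2 + (-1/28) * z 1 ^ 2 + (1/56) * z 0 * z 4 + (-1/56) * z 0 * z 3 + (9/56) * z 0 * z 2 + (-9/56) * z 0 * z 1 + (-1/2) * z 0 ^ 2 + (-1/112) * √2 * z 2 * z 4 + (-5/112) * √2 * z 2 * z 3 + (-1/112) * √2 * z 2 ^ 2 + (-5/112) * √2 * z 1 * z 4 + (-1/112) * √2 * z 1 * z 3 + (-5/56) * √2 * z 1 * z 2 + (-1/112) * √2 * z 1 ^ 2 + (-5/56) * √2 * z 0 * z 4 + (5/56) * √2 * z 0 * z 3 + (-3/56) * √2 * z 0 * z 2 + (3/56) * √2 * z 0 * z 1 + (1/4) * √2 * z 0 ^ 2 := by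
    show ⟪vv ((5/28) * z 3 + (5/28) * z 1 + (3/28) * √2 * z 3 + (3/28) * √2 * z 1) ((5/28) * z 4 + (5/28) * z 2 + (3/28) * √2 * z 4 + (3/28) * √2 * z 2) ((-1/2) * √2 * z 0) ((-2/7) * z 0 + (-1/14) * √2 * z 0), vv ((-3/14) * z 2 + (-1/7) * z 1 + (-1/7) * z 0 + (-5/28) * √2 * z 2 + (-1/28) * √2 * z 1 + (3/14) * √2 * z 0) ((-1/7) * z 2 + (-3/14) * z 1 + (1/7) * z 0 + (-1/28) * √2 * z 2 + (-5/28) * √2 * z 1 + (-3/14) * √2 * z 0) ((-1/2) * z 2 + (1/2) * z 1 + 2 * z 0 + (-1) * √2 * z 0) ((1/14) * z 4 + (-1/14) * z 3 + (1/7) * √2 * z 4 + (-1/7) * √2 * z 3)⟫ = _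
    rw [h1.1]
    linear_combination ((9/196) * z 2 * z 4 + (27/392) * z 2 * z 3 + (9/196) * z 2 ^ 2 + (27/392) * z 1 * z 4 + (9/196) * z 1 * z 3 + (27/196) * z 1 * z 2 + (9/196) * z 1 ^ 2 + (-5/112) * z 0 * z 4 + (5/112) * z 0 * z 3 + (13/784) * z 0 * z 2 + (-13/784) * z 0 * z 1 + (-1/4) * z 0 ^ 2 + (9/784) * √2 * z 2 * z 4 + (45/784) * √2 * z 2 * z 3 + (9/784) * √2 * z 2 ^ 2 + (45/784) * √2 * z 1 * z 4 + (9/784) * √2 * z 1 * z 3 + (45/392) * √2 * z 1 * z 2 + (9/784) * √2 * z 1 ^ 2 + (1/14) * √2 * z 0 * z 4 + (-1/14) * √2 * z 0 * z 3 + (27/392) * √2 * z 0 * z 2 + (-27/392) * √2 * z 0 * z 1 + (1/8) * √2 * z 0 ^ 2) * hs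
  unfold Qc cs
  rw [w43, h2, nu4 h1, nv3 h1]
  linear_combination ((5/1792) * z 4 ^ 2 + (-3/896) * z 3 * z 4 + (5/1792) * z 3 ^ 2 + (-5/448) * z 2 * z 3 + (3/1792) * z 2 ^ 2 + (-5/448) * z 1 * z 4 + (-17/896) * z 1 * z 2 + (3/1792) * z 1 ^ 2 + (-5/224) * z 0 * z 4 + (5/224) * z 0 * z 3 + (-1/112) * z 0 * z 2 + (1/112) * z 0 * z 1 + (1/28) * z 0 ^ 2 + (1/448) * √2 * z 4 ^ 2 + (-1/896) * √2 * z 3 * z 4 + (1/448) * √2 * z 3 ^ 2 + (3/896) * √2 * z 2 * z 4 + (1/128) * √2 * z 2 ^ 2 + (3/896) * √2 * z 1 * z 3 + (1/896) * √2 * z 1 * z 2 + (1/128) * √2 * z 1 ^ 2 + (-1/112) * √2 * z 0 * z 2 + (1/112) * √2 * z 0 * z 1 + (5/224) * √2 * z 0 ^ 2) * hs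

theorem q44 (z : Fin 5 → ℝ) : ww 4 4 * Qc (uS z) (vS z) 4 4 = 0 := by
  have h2 : ww 4 4 = 0 := by simp [ww, ct]
  rw [h2, zero_mul]

theorem w45 : ww 4 5 = 1 := by
  simp [ww, ct]

theorem q45 (h1 : SVv) (z : Fin 5 → ℝ) : ww 4 5 * Qc (uS z) (vS z) 4 5 = (-1/112) * z 4 ^ 2 + (-1/112) * z 3 ^ 2 + (-1/56) * z 2 * z 4 + (-1/112) * z 2 ^ 2 + (-1/56) * z 1 * z 3 + (-1/112) * z 1 ^ 2 + (-1/448) * √2 * z 4 ^ 2 + (-1/448) * √2 * z 3 ^ 2 + (-1/224) * √2 * z 2 * z 4 + (-1/448) * √2 * z 2 ^ 2 + (-1/224) * √2 * z 1 * z 3 + (-1/448) * √2 * z 1 ^ 2 := by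
  have h2 : ⟪uS z 4, vS z 5⟫ = (-1/14) * z 0 ^ 2 + (3/28) * √2 * z 0 ^ 2 := by
    show ⟪vv ((5/28) * z 3 + (5/28) * z 1 + (3/28) * √2 * z 3 + (3/28) * √2 * z 1) ((5/28) * z 4 + (5/28) * z 2 + (3/28) * √2 * z 4 + (3/28) * √2 * z 2) ((-1/2) * √2 * z 0) ((-2/7) * z 0 + (-1/14) * √2 * z 0), vv (0) (0) ((-1/2) * √2 * z 0) ((2/7) * z 0 + (1/14) * √2 * z 0)⟫ = _
    rw [h1.1]
    linear_combination ((1/196) * z 0 ^ 2 + (25/392) * √2 * z 0 ^ 2) * hs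
  unfold Qc cs
  rw [w45, h2, nu4 h1, nv5 h1]
  linear_combination ((3/448) * z 4 ^ 2 + (3/448) * z 3 ^ 2 + (3/224) * z 2 * z 4 + (3/448) * z 2 ^ 2 + (3/224) * z 1 * z 3 + (3/448) * z 1 ^ 2 + (1/14) * z 0 ^ 2) * hs

theorem w50 : ww 5 0 = (1 + √2) / 4 := by
  simp [ww, ct]

theorem q50 (h1 : SVv) (z : Fin 5 → ℝ) : ww 5 0 * Qc (uS z) (vS z) 5 0 = (-1/224) * z 4 ^ 2 + (-1/448) * z 3 * z 4 + (-1/224) * z 3 ^ 2 + (9/448) * z 2 * z 4 + (-1/28) * z 2 * z 3 + (-13/448) * z 2 ^ 2 + (-1/28) * z 1 * z 4 + (9/448) * z 1 * z 3 + (33/448) * z 1 * z 2 + (-13/448) * z 1 ^ 2 + (-9/224) * z 0 * z 4 + (-9/224) * z 0 * z 3 + (-1/32) * z 0 * z 2 + (-1/32) * z 0 * z 1 + (-5/112) * z 0 ^ 2 + (-9/1792) * √2 * z 4 ^ 2 + (-1/224) * √2 * z 3 * z 4 + (-9/1792) * √2 * z 3 ^ 2 + (15/896) * √2 * z 2 * z 4 + (-11/448)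 * √2 * z 2 * z 3 + (-41/1792) * √2 * z 2 ^ 2 + (-11/448) * √2 * z 1 * z 4 + (15/896) * √2 * z 1 * z 3 + (3/56) * √2 * z 1 * z 2 + (-41/1792) * √2 * z 1 ^ 2 + (-1/56) * √2 * z 0 * z 4 + (-1/56) * √2 * z 0 * z 3 + (-1/32) * √2 * z 0 * z 2 + (-1/32) * √2 * z 0 * z 1 + (-13/224) * √2 * z 0 ^ 2 := by
  have h2 : ⟪uS z 5, vS z 0⟫ = (1/28) * z 2 * z 4 + (-3/56) * z 2 * z 3 + (-1/28) * z 2 ^ 2 + (-3/56) * z 1 * z 4 + (1/28) * z 1 * z 3 + (3/28) * z 1 * z 2 + (-1/28) * z 1 ^ 2 + (1/56) * z 0 * z 4 + (1/56) * z 0 * z 3 + (-9/56) * z 0 * z 2 + (-9/56) * z 0 * z 1 + (-1/2) * z 0 ^ 2 + (1/112) * √2 * z 2 * z 4 + (-5/112) * √2 * z 2 * z 3 + (-1/112) * √2 * z 2 ^ 2 + (-5/112) * √2 * z 1 * z 4 + (1/112) * √2 * z 1 * z 3 + (5/56) * √2 * z 1 * z 2 + (-1/112) * √2 * z 1 ^ 2 + (-5/56) * √2 * z 0 * z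 4 + (-5/56) * √2 * z 0 * z 3 + (3/56) * √2 * z 0 * z 2 + (3/56) * √2 * z 0 * z 1 + (1/4) * √2 * z 0 ^ 2 := by
    show ⟪vv ((-5/28) * z 3 + (5/28) * z 1 + (-3/28) * √2 * z 3 + (3/28) * √2 * z 1) ((-5/28) * z 4 + (5/28) * z 2 + (-3/28) * √2 * z 4 + (3/28) * √2 * z 2) ((-1/2) * √2 * z 0) ((2/7) * z 0 + (1/14) * √2 * z 0), vv ((3/14) * z 2 + (-1/7) * z 1 + (-1/7) * z 0 + (5/28) * √2 * z 2 + (-1/28) * √2 * z 1 + (3/14) * √2 * z 0) ((-1/7) * z 2 + (3/14) * z 1 + (-1/7) * z 0 + (-1/28) * √2 * z 2 + (5/28) * √2 * z 1 + (3/14) * √2 * z 0) ((1/2) * z 2 + (1/2) * z 1 + 2 * z 0 + (-1) * √2 * z 0) ((-1/14) * z 4 + (-1/14) * z 3 + (-1/7) * √2 * z 4 + (-1/7) * √2 * z 3)⟫ = _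
    rw [h1.1]
    linear_combination ((-9/196) * z 2 * z 4 + (27/392) * z 2 * z 3 + (9/196) * z 2 ^ 2 + (27/392) * z 1 * z 4 + (-9/196) * z 1 * z 3 + (-27/196) * z 1 * z 2 + (9/196) * z 1 ^ 2 + (-5/112) * z 0 * z 4 + (-5/112) * z 0 * z 3 + (-13/784) * z 0 * z 2 + (-13/784) * z 0 * z 1 + (-1/4) * z 0 ^ 2 + (-9/784) * √2 * z 2 * z 4 + (45/784) * √2 * z 2 * z 3 + (9/784) * √2 * z 2 ^ 2 + (45/784) * √2 * z 1 * z 4 + (-9/784) * √2 * z 1 * z 3 + (-45/392) * √2 * z 1 * z 2 + (9/784) * √2 * z 1 ^ 2 + (1/14) * √2 * z 0 * z 4 + (1/14) * √2 * z 0 * z 3 + (-27/392) * √2 * z 0 * z 2 + (-27/392) * √2 * z 0 * z 1 + (1/8) * √2 * z 0 ^ 2) * hs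
  unfold Qc cs
  rw [w50, h2, nu5 h1, nv0 h1]
  linear_combination ((5/1792) * z 4 ^ 2 + (3/896) * z 3 * z 4 + (5/1792) * z 3 ^ 2 + (-5/448) * z 2 * z 3 + (3/1792) * z 2 ^ 2 + (-5/448) * z 1 * z 4 + (17/896) * z 1 * z 2 + (3/1792) * z 1 ^ 2 + (-5/224) * z 0 * z 4 + (-5/224) * z 0 * z 3 + (1/112) * z 0 * z 2 + (1/112) * z 0 * z 1 + (1/28) * z 0 ^ 2 + (1/448) * √2 * z 4 ^ 2 + (1/896) * √2 * z 3 * z 4 + (1/448) * √2 * z 3 ^ 2 + (-3/896) * √2 * z 2 * z 4 + (1/128) * √2 * z 2 ^ 2 + (-3/896) * √2 * z 1 * z 3 + (-1/896) * √2 * z 1 * z 2 + (1/128) * √2 * z 1 ^ 2 + (1/112) * √2 * z 0 * z 2 + (1/112) * √2 * z 0 * z 1 + (5/224) * √2 * z 0 ^ 2) * hs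

theorem w51 : ww 5 1 = (1 + √2) / 4 := by
  simp [ww, ct]

theorem q51 (h1 : SVv) (z : Fin 5 → ℝ) : ww 5 1 * Qc (uS z) (vS z) 5 1 = (-1/224) * z 4 ^ 2 + (1/448) * z 3 * z 4 + (-1/224) * z 3 ^ 2 + (9/448) * z 2 * z 4 + (1/28) * z 2 * z 3 + (-13/448) * z 2 ^ 2 + (1/28) * z 1 * z 4 + (9/448) * z 1 * z 3 + (-33/448) * z 1 * z 2 + (-13/448) * z 1 ^ 2 + (-9/224) * z 0 * z 4 + (9/224) * z 0 * z 3 + (-1/32) * z 0 * z 2 + (1/32) * z 0 * z 1 + (-5/112) * z 0 ^ 2 + (-9/1792) * √2 * z 4 ^ 2 + (1/224) * √2 * z 3 * z 4 + (-9/1792) * √2 * z 3 ^ 2 + (15/896) * √2 * z 2 * z 4 + (11/448) * √2 * z 2 * z 3 + (-41/1792) * √2 * z 2 ^ 2 + (11/448) * √2 * z 1 * z 4 + (15/896) * √2 * z 1 * z 3 + (-3/56) * √2 * z 1 * z 2 + (-41/1792) * √2 * z 1 ^ 2 + (-1/56) * √2 * z 0 * z 4 + (1/56) * √2 * z 0 * z 3 + (-1/32)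 * √2 * z 0 * z 2 + (1/32) * √2 * z 0 * z 1 + (-13/224) * √2 * z 0 ^ 2 := by
  have h2 : ⟪uS z 5, vS z 1⟫ = (1/28) * z 2 * z 4 + (3/56) * z 2 * z 3 + (-1/28) * z 2 ^ 2 + (3/56) * z 1 * z 4 + (1/28) * z 1 * z 3 + (-3/28) * z 1 * z 2 + (-1/28) * z 1 ^ 2 + (1/56) * z 0 * z 4 + (-1/56) * z 0 * z 3 + (-9/56) * z 0 * z 2 + (9/56) * z 0 * z 1 + (-1/2) * z 0 ^ 2 + (1/112) * √2 * z 2 * z 4 + (5/112) * √2 * z 2 * z 3 + (-1/112) * √2 * z 2 ^ 2 + (5/112) * √2 * z 1 * z 4 + (1/112) * √2 * z 1 * z 3 + (-5/56) * √2 * z 1 * z 2 + (-1/112) * √2 * z 1 ^ 2 + (-5/56) * √2 * z 0 * z 4 + (5/56) * √2 * z 0 * z 3 + (3/56) * √2 * z 0 * z 2 + (-3/56) * √2 * z 0 * z 1 + (1/4) * √2 * z 0 ^ 2 := by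
    show ⟪vv ((-5/28) * z 3 + (5/28) * z 1 + (-3/28) * √2 * z 3 + (3/28) * √2 * z 1) ((-5/28) * z 4 + (5/28) * z 2 + (-3/28) * √2 * z 4 + (3/28) * √2 * z 2) ((-1/2) * √2 * z 0) ((2/7) * z 0 + (1/14) * √2 * z 0), vv ((-3/14) * z 2 + (-1/7) * z 1 + (1/7) * z 0 + (-5/28) * √2 * z 2 + (-1/28) * √2 * z 1 + (-3/14) * √2 * z 0) ((-1/7) * z 2 + (-3/14) * z 1 + (-1/7) * z 0 + (-1/28) * √2 * z 2 + (-5/28) * √2 * z 1 + (3/14) * √2 * z 0) ((1/2) * z 2 + (-1/2) * z 1 + 2 * z 0 + (-1) * √2 * z 0) ((-1/14) * z 4 + (1/14) * z 3 + (-1/7) * √2 * z 4 + (1/7) * √2 * z 3)⟫ = _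
    rw [h1.1]
    linear_combination ((-9/196) * z 2 * z 4 + (-27/392) * z 2 * z 3 + (9/196) * z 2 ^ 2 + (-27/392) * z 1 * z 4 + (-9/196) * z 1 * z 3 + (27/196) * z 1 * z 2 + (9/196) * z 1 ^ 2 + (-5/112) * z 0 * z 4 + (5/112) * z 0 * z 3 + (-13/784) * z 0 * z 2 + (13/784) * z 0 * z 1 + (-1/4) * z 0 ^ 2 + (-9/784) * √2 * z 2 * z 4 + (-45/784) * √2 * z 2 * z 3 + (9/784) * √2 * z 2 ^ 2 + (-45/784) * √2 * z 1 * z 4 + (-9/784) * √2 * z 1 * z 3 + (45/392) * √2 * z 1 * z 2 + (9/784) * √2 * z 1 ^ 2 + (1/14) * √2 * z 0 * z 4 + (-1/14) * √2 * z 0 * z 3 + (-27/392) * √2 * z 0 * z 2 + (27/392) * √2 * z 0 * z 1 + (1/8) * √2 * z 0 ^ 2) * hs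
  unfold Qc cs
  rw [w51, h2, nu5 h1, nv1 h1]
  linear_combination ((5/1792) * z 4 ^ 2 + (-3/896) * z 3 * z 4 + (5/1792) * z 3 ^ 2 + (5/448) * z 2 * z 3 + (3/1792) * z 2 ^ 2 + (5/448) * z 1 * z 4 + (-17/896) * z 1 * z 2 + (3/1792) * z 1 ^ 2 + (-5/224) * z 0 * z 4 + (5/224) * z 0 * z 3 + (1/112) * z 0 * z 2 + (-1/112) * z 0 * z 1 + (1/28) * z 0 ^ 2 + (1/448) * √2 * z 4 ^ 2 + (-1/896) * √2 * z 3 * z 4 + (1/448) * √2 * z 3 ^ 2 + (-3/896) * √2 * z 2 * z 4 + (1/128) * √2 * z 2 ^ 2 + (-3/896) * √2 * z 1 * z 3 + (1/896) * √2 * z 1 * z 2 + (1/128) * √2 * z 1 ^ 2 + (1/112) * √2 * z 0 * z 2 + (-1/112) * √2 * z 0 * z 1 + (5/224) * √2 * z 0 ^ 2) * hs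

theorem w52 : ww 5 2 = (1 + √2) / 4 := by
  simp [ww, ct]

theorem q52 (h1 : SVv) (z : Fin 5 → ℝ) : ww 5 2 * Qc (uS z) (vS z) 5 2 = (-1/224) * z 4 ^ 2 + (-1/448) * z 3 * z 4 + (-1/224) * z 3 ^ 2 + (9/448) * z 2 * z 4 + (-1/28) * z 2 * z 3 + (-13/448) * z 2 ^ 2 + (-1/28) * z 1 * z 4 + (9/448) * z 1 * z 3 + (33/448) * z 1 * z 2 + (-13/448) * z 1 ^ 2 + (9/224) * z 0 * z 4 + (9/224) * z 0 * z 3 + (1/32) * z 0 * z 2 + (1/32) * z 0 * z 1 + (-5/112) * z 0 ^ 2 + (-9/1792) * √2 * z 4 ^ 2 + (-1/224) * √2 * z 3 * z 4 + (-9/1792) * √2 * z 3 ^ 2 + (15/896) * √2 * z 2 * z 4 + (-11/448) * √2 * z 2 * z 3 + (-41/1792) * √2 * z 2 ^ 2 + (-11/448) * √2 * z 1 * z 4 + (15/896) * √2 * z 1 * z 3 + (3/56) * √2 * z 1 * z 2 + (-41/1792) * √2 * z 1 ^ 2 + (1/56) * √2 * z 0 * z 4 + (1/56) * √2 * z 0 * z 3 +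 (1/32) * √2 * z 0 * z 2 + (1/32) * √2 * z 0 * z 1 + (-13/224) * √2 * z 0 ^ 2 := by
  have h2 : ⟪uS z 5, vS z 2⟫ = (1/28) * z 2 * z 4 + (-3/56) * z 2 * z 3 + (-1/28) * z 2 ^ 2 + (-3/56) * z 1 * z 4 + (1/28) * z 1 * z 3 + (3/28) * z 1 * z 2 + (-1/28) * z 1 ^ 2 + (-1/56) * z 0 * z 4 + (-1/56) * z 0 * z 3 + (9/56) * z 0 * z 2 + (9/56) * z 0 * z 1 + (-1/2) * z 0 ^ 2 + (1/112) * √2 * z 2 * z 4 + (-5/112) * √2 * z 2 * z 3 + (-1/112) * √2 * z 2 ^ 2 + (-5/112) * √2 * z 1 * z 4 + (1/112) * √2 * z 1 * z 3 + (5/56) * √2 * z 1 * z 2 + (-1/112) * √2 * z 1 ^ 2 + (5/56) * √2 * z 0 * z 4 + (5/56) * √2 * z 0 * z 3 + (-3/56) * √2 * z 0 * z 2 + (-3/56) * √2 * z 0 * z 1 + (1/4) * √2 * z 0 ^ 2 := by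
    show ⟪vv ((-5/28) * z 3 + (5/28) * z 1 + (-3/28) * √2 * z 3 + (3/28) * √2 * z 1) ((-5/28) * z 4 + (5/28) * z 2 + (-3/28) * √2 * z 4 + (3/28) * √2 * z 2) ((-1/2) * √2 * z 0) ((2/7) * z 0 + (1/14) * √2 * z 0), vv ((3/14) * z 2 + (-1/7) * z 1 + (1/7) * z 0 + (5/28) * √2 * z 2 + (-1/28) * √2 * z 1 + (-3/14) * √2 * z 0) ((-1/7) * z 2 + (3/14) * z 1 + (1/7) * z 0 + (-1/28) * √2 * z 2 + (5/28) * √2 * z 1 + (-3/14) * √2 * z 0) ((-1/2) * z 2 + (-1/2) * z 1 + 2 * z 0 + (-1) * √2 * z 0) ((1/14) * z 4 + (1/14) * z 3 + (1/7) * √2 * z 4 + (1/7) * √2 * z 3)⟫ = _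
    rw [h1.1]
    linear_combination ((-9/196) * z 2 * z 4 + (27/392) * z 2 * z 3 + (9/196) * z 2 ^ 2 + (27/392) * z 1 * z 4 + (-9/196) * z 1 * z 3 + (-27/196) * z 1 * z 2 + (9/196) * z 1 ^ 2 + (5/112) * z 0 * z 4 + (5/112) * z 0 * z 3 + (13/784) * z 0 * z 2 + (13/784) * z 0 * z 1 + (-1/4) * z 0 ^ 2 + (-9/784) * √2 * z 2 * z 4 + (45/784) * √2 * z 2 * z 3 + (9/784) * √2 * z 2 ^ 2 + (45/784) * √2 * z 1 * z 4 + (-9/784) * √2 * z 1 * z 3 + (-45/392) * √2 * z 1 * z 2 + (9/784) * √2 * z 1 ^ 2 + (-1/14) * √2 * z 0 * z 4 + (-1/14) * √2 * z 0 * z 3 + (27/392) * √2 * z 0 * z 2 + (27/392) * √2 * z 0 * z 1 + (1/8) * √2 * z 0 ^ 2) * hs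
  unfold Qc cs
  rw [w52, h2, nu5 h1, nv2 h1]
  linear_combination ((5/1792) * z 4 ^ 2 + (3/896) * z 3 * z 4 + (5/1792) * z 3 ^ 2 + (-5/448) * z 2 * z 3 + (3/1792) * z 2 ^ 2 + (-5/448) * z 1 * z 4 + (17/896) * z 1 * z 2 + (3/1792) * z 1 ^ 2 + (5/224) * z 0 * z 4 + (5/224) * z 0 * z 3 + (-1/112) * z 0 * z 2 + (-1/112) * z 0 * z 1 + (1/28) * z 0 ^ 2 + (1/448) * √2 * z 4 ^ 2 + (1/896) * √2 * z 3 * z 4 + (1/448) * √2 * z 3 ^ 2 + (-3/896) * √2 * z 2 * z 4 + (1/128) * √2 * z 2 ^ 2 + (-3/896) * √2 * z 1 * z 3 + (-1/896) * √2 * z 1 * z 2 + (1/128) * √2 * z 1 ^ 2 + (-1/112) * √2 * z 0 * z 2 + (-1/112) * √2 * z 0 * z 1 + (5/224) * √2 * z 0 ^ 2) * hs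

theorem w53 : ww 5 3 = (1 + √2) / 4 := by
  simp [ww, ct]

theorem q53 (h1 : SVv) (z : Fin 5 → ℝ) : ww 5 3 * Qc (uS z) (vS z) 5 3 = (-1/224) * z 4 ^ 2 + (1/448) * z 3 * z 4 + (-1/224) * z 3 ^ 2 + (9/448) * z 2 * z 4 + (1/28) * z 2 * z 3 + (-13/448) * z 2 ^ 2 + (1/28) * z 1 * z 4 + (9/448) * z 1 * z 3 + (-33/448) * z 1 * z 2 + (-13/448) * z 1 ^ 2 + (9/224) * z 0 * z 4 + (-9/224) * z 0 * z 3 + (1/32) * z 0 * z 2 + (-1/32) * z 0 * z 1 + (-5/112) * z 0 ^ 2 + (-9/1792) * √2 * z 4 ^ 2 + (1/224) * √2 * z 3 * z 4 + (-9/1792) * √2 * z 3 ^ 2 + (15/896) * √2 * z 2 * z 4 + (11/448) * √2 * z 2 * z 3 + (-41/1792) * √2 * z 2 ^ 2 + (11/448) * √2 * z 1 * z 4 + (15/896) * √2 * z 1 * z 3 + (-3/56) * √2 * z 1 * z 2 + (-41/1792) * √2 * z 1 ^ 2 + (1/56) * √2 * z 0 * z 4 + (-1/56) * √2 * z 0 * z 3 + (1/32)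 * √2 * z 0 * z 2 + (-1/32) * √2 * z 0 * z 1 + (-13/224) * √2 * z 0 ^ 2 := by
  have h2 : ⟪uS z 5, vS z 3⟫ = (1/28) * z 2 * z 4 + (3/56) * z 2 * z 3 + (-1/28) * z 2 ^ 2 + (3/56) * z 1 * z 4 + (1/28) * z 1 * z 3 + (-3/28) * z 1 * z 2 + (-1/28) * z 1 ^ 2 + (-1/56) * z 0 * z 4 + (1/56) * z 0 * z 3 + (9/56) * z 0 * z 2 + (-9/56) * z 0 * z 1 + (-1/2) * z 0 ^ 2 + (1/112) * √2 * z 2 * z 4 + (5/112) * √2 * z 2 * z 3 + (-1/112) * √2 * z 2 ^ 2 + (5/112) * √2 * z 1 * z 4 + (1/112) * √2 * z 1 * z 3 + (-5/56) * √2 * z 1 * z 2 + (-1/112) * √2 * z 1 ^ 2 + (5/56) * √2 * z 0 * z 4 + (-5/56) * √2 * z 0 * z 3 + (-3/56) * √2 * z 0 * z 2 + (3/56) * √2 * z 0 * z 1 + (1/4) * √2 * z 0 ^ 2 := by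
    show ⟪vv ((-5/28) * z 3 + (5/28) * z 1 + (-3/28) * √2 * z 3 + (3/28) * √2 * z 1) ((-5/28) * z 4 + (5/28) * z 2 + (-3/28) * √2 * z 4 + (3/28) * √2 * z 2) ((-1/2) * √2 * z 0) ((2/7) * z 0 + (1/14) * √2 * z 0), vv ((-3/14) * z 2 + (-1/7) * z 1 + (-1/7) * z 0 + (-5/28) * √2 * z 2 + (-1/28) * √2 * z 1 + (3/14) * √2 * z 0) ((-1/7) * z 2 + (-3/14) * z 1 + (1/7) * z 0 + (-1/28) * √2 * z 2 + (-5/28) * √2 * z 1 + (-3/14) * √2 * z 0) ((-1/2) * z 2 + (1/2) * z 1 + 2 * z 0 + (-1) * √2 * z 0) ((1/14) * z 4 + (-1/14) * z 3 + (1/7) * √2 * z 4 + (-1/7) * √2 * z 3)⟫ = _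
    rw [h1.1]
    linear_combination ((-9/196) * z 2 * z 4 + (-27/392) * z 2 * z 3 + (9/196) * z 2 ^ 2 + (-27/392) * z 1 * z 4 + (-9/196) * z 1 * z 3 + (27/196) * z 1 * z 2 + (9/196) * z 1 ^ 2 + (5/112) * z 0 * z 4 + (-5/112) * z 0 * z 3 + (13/784) * z 0 * z 2 + (-13/784) * z 0 * z 1 + (-1/4) * z 0 ^ 2 + (-9/784) * √2 * z 2 * z 4 + (-45/784) * √2 * z 2 * z 3 + (9/784) * √2 * z 2 ^ 2 + (-45/784) * √2 * z 1 * z 4 + (-9/784) * √2 * z 1 * z 3 + (45/392) * √2 * z 1 * z 2 + (9/784) * √2 * z 1 ^ 2 + (-1/14) * √2 * z 0 * z 4 + (1/14) * √2 * z 0 * z 3 + (27/392) * √2 * z 0 * z 2 + (-27/392) * √2 * z 0 * z 1 + (1/8) * √2 * z 0 ^ 2) * hs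
  unfold Qc cs
  rw [w53, h2, nu5 h1, nv3 h1]
  linear_combination ((5/1792) * z 4 ^ 2 + (-3/896) * z 3 * z 4 + (5/1792) * z 3 ^ 2 + (5/448) * z 2 * z 3 + (3/1792) * z 2 ^ 2 + (5/448) * z 1 * z 4 + (-17/896) * z 1 * z 2 + (3/1792) * z 1 ^ 2 + (5/224) * z 0 * z 4 + (-5/224) * z 0 * z 3 + (-1/112) * z 0 * z 2 + (1/112) * z 0 * z 1 + (1/28) * z 0 ^ 2 + (1/448) * √2 * z 4 ^ 2 + (-1/896) * √2 * z 3 * z 4 + (1/448) * √2 * z 3 ^ 2 + (-3/896) * √2 * z 2 * z 4 + (1/128) * √2 * z 2 ^ 2 + (-3/896) * √2 * z 1 * z 3 + (1/896) * √2 * z 1 * z 2 + (1/128) * √2 * z 1 ^ 2 + (-1/112) * √2 * z 0 * z 2 + (1/112) * √2 * z 0 * z 1 + (5/224) * √2 * z 0 ^ 2) * hs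

theorem w54 : ww 5 4 = 1 := by
  simp [ww, ct]

theorem q54 (h1 : SVv) (z : Fin 5 → ℝ) : ww 5 4 * Qc (uS z) (vS z) 5 4 = (-1/112) * z 4 ^ 2 + (-1/112) * z 3 ^ 2 + (1/56) * z 2 * z 4 + (-1/112) * z 2 ^ 2 + (1/56) * z 1 * z 3 + (-1/112) * z 1 ^ 2 + (-1/448) * √2 * z 4 ^ 2 + (-1/448) * √2 * z 3 ^ 2 + (1/224) * √2 * z 2 * z 4 + (-1/448) * √2 * z 2 ^ 2 + (1/224) * √2 * z 1 * z 3 + (-1/448) * √2 * z 1 ^ 2 := by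
  have h2 : ⟪uS z 5, vS z 4⟫ = (-1/14) * z 0 ^ 2 + (3/28) * √2 * z 0 ^ 2 := by
    show ⟪vv ((-5/28) * z 3 + (5/28) * z 1 + (-3/28) * √2 * z 3 + (3/28) * √2 * z 1) ((-5/28) * z 4 + (5/28) * z 2 + (-3/28) * √2 * z 4 + (3/28) * √2 * z 2) ((-1/2) * √2 * z 0) ((2/7) * z 0 + (1/14) * √2 * z 0), vv (0) (0) ((-1/2) * √2 * z 0) ((-2/7) * z 0 + (-1/14) * √2 * z 0)⟫ = _
    rw [h1.1]
    linear_combination ((1/196) * z 0 ^ 2 + (25/392) * √2 * z 0 ^ 2) * hs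
  unfold Qc cs
  rw [w54, h2, nu5 h1, nv4 h1]
  linear_combination ((3/448) * z 4 ^ 2 + (3/448) * z 3 ^ 2 + (-3/224) * z 2 * z 4 + (3/448) * z 2 ^ 2 + (-3/224) * z 1 * z 3 + (3/448) * z 1 ^ 2 + (1/14) * z 0 ^ 2) * hs

theorem q55 (z : Fin 5 → ℝ) : ww 5 5 * Qc (uS z) (vS z) 5 5 = 0 := by
  have h2 : ww 5 5 = 0 := by simp [ww, ct]
  rw [h2, zero_mul]

end ShpAux

open ShpAux

theorem pShp (h1 : SVv) (_h2 : SStress) : SShp := by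
  have hadd : ∀ x0 x1 x2 x3 y0 y1 y2 y3 : ℝ, vv x0 x1 x2 x3 + vv y0 y1 y2 y3 =
      vv (x0 + y0) (x1 + y1) (x2 + y2) (x3 + y3) := by
    intro x0 x1 x2 x3 y0 y1 y2 y3
    have h := h1.2.2.1 1 x0 x1 x2 x3 y0 y1 y2 y3
    simpa only [one_smul, one_mul] using h
  have h0 : vv 0 0 0 0 = 0 := by
    have h := hadd 0 0 0 0 0 0 0 0
    simp only [add_zero] at h
    exact add_eq_left.mp h
  have hsm : ∀ a x0 x1 x2 x3 : ℝ, a • vv x0 x1 x2 x3 = vv (a * x0) (a * x1) (a * x2) (a * x3) := by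
    intro a x0 x1 x2 x3
    have h := h1.2.2.1 a x0 x1 x2 x3 0 0 0 0
    rw [h0] at h
    simpa only [add_zero] using h
  have hcg : ∀ x0 x1 x2 x3 y0 y1 y2 y3 : ℝ, x0 = y0 → x1 = y1 → x2 = y2 → x3 = y3 →
      vv x0 x1 x2 x3 = vv y0 y1 y2 y3 := by
    intro x0 x1 x2 x3 y0 y1 y2 y3 e0 e1 e2 e3
    rw [e0, e1, e2, e3]
  have uSadd : ∀ x y : Fin 5 → ℝ, uS (x + y) = uS x + uS y := by
    intro x y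
    funext i
    rw [Pi.add_apply]
    fin_cases i
    · refine Eq.trans ?_ (hadd _ _ _ _ _ _ _ _).symm
      refine hcg _ _ _ _ _ _ _ _ ?_ ?_ ?_ ?_ <;> first | (simp only [Pi.add_apply]; ring) | ring
    · refine Eq.trans ?_ (hadd _ _ _ _ _ _ _ _).symm
      refine hcg _ _ _ _ _ _ _ _ ?_ ?_ ?_ ?_ <;> first | (simp only [Pi.add_apply]; ring) | ring
    · refine Eq.trans ?_ (hadd _ _ _ _ _ _ _ _).symm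
      refine hcg _ _ _ _ _ _ _ _ ?_ ?_ ?_ ?_ <;> first | (simp only [Pi.add_apply]; ring) | ring
    · refine Eq.trans ?_ (hadd _ _ _ _ _ _ _ _).symm
      refine hcg _ _ _ _ _ _ _ _ ?_ ?_ ?_ ?_ <;> first | (simp only [Pi.add_apply]; ring) | ring
    · refine Eq.trans ?_ (hadd _ _ _ _ _ _ _ _).symm
      refine hcg _ _ _ _ _ _ _ _ ?_ ?_ ?_ ?_ <;> first | (simp only [Pi.add_apply]; ring) | ring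
    · refine Eq.trans ?_ (hadd _ _ _ _ _ _ _ _).symm
      refine hcg _ _ _ _ _ _ _ _ ?_ ?_ ?_ ?_ <;> first | (simp only [Pi.add_apply]; ring) | ring
  have uSsmul : ∀ (a : ℝ) (x : Fin 5 → ℝ), uS (a • x) = a • uS x := by
    intro a x
    funext i
    rw [Pi.smul_apply]
    fin_cases i
    · refine Eq.trans ?_ (hsm _ _ _ _ _).symm
      refine hcg _ _ _ _ _ _ _ _ ?_ ?_ ?_ ?_ <;>
        first | (simp only [Pi.smul_apply, smul_eq_mul]; ring) | ring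
    · refine Eq.trans ?_ (hsm _ _ _ _ _).symm
      refine hcg _ _ _ _ _ _ _ _ ?_ ?_ ?_ ?_ <;>
        first | (simp only [Pi.smul_apply, smul_eq_mul]; ring) | ring
    · refine Eq.trans ?_ (hsm _ _ _ _ _).symm
      refine hcg _ _ _ _ _ _ _ _ ?_ ?_ ?_ ?_ <;>
        first | (simp only [Pi.smul_apply, smul_eq_mul]; ring) | ring
    · refine Eq.trans ?_ (hsm _ _ _ _ _).symm
      refine hcg _ _ _ _ _ _ _ _ ?_ ?_ ?_ ?_ <;>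
        first | (simp only [Pi.smul_apply, smul_eq_mul]; ring) | ring
    · refine Eq.trans ?_ (hsm _ _ _ _ _).symm
      refine hcg _ _ _ _ _ _ _ _ ?_ ?_ ?_ ?_ <;>
        first | (simp only [Pi.smul_apply, smul_eq_mul]; ring) | ring
    · refine Eq.trans ?_ (hsm _ _ _ _ _).symm
      refine hcg _ _ _ _ _ _ _ _ ?_ ?_ ?_ ?_ <;>
        first | (simp only [Pi.smul_apply, smul_eq_mul]; ring) | ring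
  have vSadd : ∀ x y : Fin 5 → ℝ, vS (x + y) = vS x + vS y := by
    intro x y
    funext i
    rw [Pi.add_apply]
    fin_cases i
    · refine Eq.trans ?_ (hadd _ _ _ _ _ _ _ _).symm
      refine hcg _ _ _ _ _ _ _ _ ?_ ?_ ?_ ?_ <;> first | (simp only [Pi.add_apply]; ring) | ring
    · refine Eq.trans ?_ (hadd _ _ _ _ _ _ _ _).symm
      refine hcg _ _ _ _ _ _ _ _ ?_ ?_ ?_ ?_ <;> first | (simp only [Pi.add_apply]; ring) | ring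
    · refine Eq.trans ?_ (hadd _ _ _ _ _ _ _ _).symm
      refine hcg _ _ _ _ _ _ _ _ ?_ ?_ ?_ ?_ <;> first | (simp only [Pi.add_apply]; ring) | ring
    · refine Eq.trans ?_ (hadd _ _ _ _ _ _ _ _).symm
      refine hcg _ _ _ _ _ _ _ _ ?_ ?_ ?_ ?_ <;> first | (simp only [Pi.add_apply]; ring) | ring
    · refine Eq.trans ?_ (hadd _ _ _ _ _ _ _ _).symm
      refine hcg _ _ _ _ _ _ _ _ ?_ ?_ ?_ ?_ <;> first | (simp only [Pi.add_apply]; ring) | ring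
    · refine Eq.trans ?_ (hadd _ _ _ _ _ _ _ _).symm
      refine hcg _ _ _ _ _ _ _ _ ?_ ?_ ?_ ?_ <;> first | (simp only [Pi.add_apply]; ring) | ring
  have vSsmul : ∀ (a : ℝ) (x : Fin 5 → ℝ), vS (a • x) = a • vS x := by
    intro a x
    funext i
    rw [Pi.smul_apply]
    fin_cases i
    · refine Eq.trans ?_ (hsm _ _ _ _ _).symm
      refine hcg _ _ _ _ _ _ _ _ ?_ ?_ ?_ ?_ <;>
        first | (simp only [Pi.smul_apply, smul_eq_mul]; ring) | ring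
    · refine Eq.trans ?_ (hsm _ _ _ _ _).symm
      refine hcg _ _ _ _ _ _ _ _ ?_ ?_ ?_ ?_ <;>
        first | (simp only [Pi.smul_apply, smul_eq_mul]; ring) | ring
    · refine Eq.trans ?_ (hsm _ _ _ _ _).symm
      refine hcg _ _ _ _ _ _ _ _ ?_ ?_ ?_ ?_ <;>
        first | (simp only [Pi.smul_apply, smul_eq_mul]; ring) | ring
    · refine Eq.trans ?_ (hsm _ _ _ _ _).symm
      refine hcg _ _ _ _ _ _ _ _ ?_ ?_ ?_ ?_ <;>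
        first | (simp only [Pi.smul_apply, smul_eq_mul]; ring) | ring
    · refine Eq.trans ?_ (hsm _ _ _ _ _).symm
      refine hcg _ _ _ _ _ _ _ _ ?_ ?_ ?_ ?_ <;>
        first | (simp only [Pi.smul_apply, smul_eq_mul]; ring) | ring
    · refine Eq.trans ?_ (hsm _ _ _ _ _).symm
      refine hcg _ _ _ _ _ _ _ _ ?_ ?_ ?_ ?_ <;>
        first | (simp only [Pi.smul_apply, smul_eq_mul]; ring) | ring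
  refine ⟨{ toFun := fun z => (uS z, vS z)
            map_add' := fun x y => by rw [uSadd, vSadd]; rfl
            map_smul' := fun a x => by rw [uSsmul, vSsmul]; rfl }, ?_, ?_, ?_, ?_⟩
  · intro z
    refine ⟨fun i => ?_, fun i => ?_⟩
    · show ⟪aa i, uS z i⟫ = 0
      fin_cases i
      · exact ta0 h1 z
      · exact ta1 h1 z
      · exact ta2 h1 z
      · exact ta3 h1 z
      · exact ta4 h1 z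
      · exact ta5 h1 z
    · show ⟪bb i, vS z i⟫ = 0
      fin_cases i
      · exact tb0 h1 z
      · exact tb1 h1 z
      · exact tb2 h1 z
      · exact tb3 h1 z
      · exact tb4 h1 z
      · exact tb5 h1 z
  · intro z i j hij
    show Lc (uS z) (vS z) i j = 0
    fin_cases i <;> fin_cases j
    · exact lc00 h1 z
    · exact absurd hij (by decide)
    · exact absurd hij (by decide)
    · exact lc03 h1 z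
    · exact lc04 h1 z
    · exact lc05 h1 z
    · exact lc10 h1 z
    · exact lc11 h1 z
    · exact absurd hij (by decide)
    · exact absurd hij (by decide)
    · exact lc14 h1 z
    · exact lc15 h1 z
    · exact absurd hij (by decide)
    · exact lc21 h1 z
    · exact lc22 h1 z
    · exact absurd hij (by decide)
    · exact lc24 h1 z
    · exact lc25 h1 z
    · exact absurd hij (by decide)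
    · exact absurd hij (by decide)
    · exact lc32 h1 z
    · exact lc33 h1 z
    · exact lc34 h1 z
    · exact lc35 h1 z
    · exact lc40 h1 z
    · exact lc41 h1 z
    · exact lc42 h1 z
    · exact lc43 h1 z
    · exact absurd hij (by decide)
    · exact lc45 h1 z
    · exact lc50 h1 z
    · exact lc51 h1 z
    · exact lc52 h1 z
    · exact lc53 h1 z
    · exact lc54 h1 z
    · exact absurd hij (by decide)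
  · intro z
    show dz (uS z) = z
    funext k
    fin_cases k
    · show ⟪vv ((5/28) * z 3 + (5/28) * z 1 + (3/28) * √2 * z 3 + (3/28) * √2 * z 1) ((5/28) * z 4 + (5/28) * z 2 + (3/28) * √2 * z 4 + (3/28) * √2 * z 2) ((-1/2) * √2 * z 0) ((-2/7) * z 0 + (-1/14) * √2 * z 0), vv 0 0 (-1) (-1)⟫ + ⟪vv 0 0 (-1) 1, vv ((-5/28) * z 3 + (5/28) * z 1 + (-3/28) * √2 * z 3 + (3/28) * √2 * z 1) ((-5/28) * z 4 + (5/28) * z 2 + (-3/28) * √2 * z 4 + (3/28) * √2 * z 2) ((-1/2) * √2 * z 0) ((2/7) * z 0 + (1/14) * √2 * z 0)⟫ = z 0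
      rw [h1.1, h1.1]
      linear_combination ((3/14) * z 0) * hs
    · show ⟪vv ((5/28) * z 3 + (5/28) * z 1 + (3/28) * √2 * z 3 + (3/28) * √2 * z 1) ((5/28) * z 4 + (5/28) * z 2 + (3/28) * √2 * z 4 + (3/28) * √2 * z 2) ((-1/2) * √2 * z 0) ((-2/7) * z 0 + (-1/14) * √2 * z 0) + vv ((-5/28) * z 3 + (5/28) * z 1 + (-3/28) * √2 * z 3 + (3/28) * √2 * z 1) ((-5/28) * z 4 + (5/28) * z 2 + (-3/28) * √2 * z 4 + (3/28) * √2 * z 2) ((-1/2) * √2 * z 0) ((2/7) * z 0 + (1/14) * √2 * z 0), vv 1 0 (2 * √2 - 2) 0 - vv (-1) 0 (2 * √2 - 2) 0⟫ +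
        ⟪vv 0 0 (-1) 1 + vv 0 0 (-1) (-1), vv ((-3/7) * z 0 + (1/7) * √2 * z 0) ((-3/7) * z 2 + (-5/14) * √2 * z 2) (2 * z 0 + (-1) * √2 * z 0) (0) - vv ((3/7) * z 0 + (-1/7) * √2 * z 0) ((-3/7) * z 2 + (-5/14) * √2 * z 2) (2 * z 0 + (-1) * √2 * z 0) (0)⟫ = z 1
      rw [inner_add_left, inner_add_left, inner_sub_right, inner_sub_right, inner_sub_right, inner_sub_right]
      simp only [h1.1]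
      linear_combination ((-9/7) * z 1) * hs
    · show ⟪vv ((5/28) * z 3 + (5/28) * z 1 + (3/28) * √2 * z 3 + (3/28) * √2 * z 1) ((5/28) * z 4 + (5/28) * z 2 + (3/28) * √2 * z 4 + (3/28) * √2 * z 2) ((-1/2) * √2 * z 0) ((-2/7) * z 0 + (-1/14) * √2 * z 0) + vv ((-5/28) * z 3 + (5/28) * z 1 + (-3/28) * √2 * z 3 + (3/28) * √2 * z 1) ((-5/28) * z 4 + (5/28) * z 2 + (-3/28) * √2 * z 4 + (3/28) * √2 * z 2) ((-1/2) * √2 * z 0) ((2/7) * z 0 + (1/14) * √2 * z 0), vv 0 1 (2 * √2 - 2) 0 - vv 0 (-1) (2 * √2 - 2) 0⟫ +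
        ⟪vv 0 0 (-1) 1 + vv 0 0 (-1) (-1), vv ((-3/7) * z 1 + (-5/14) * √2 * z 1) ((-3/7) * z 0 + (1/7) * √2 * z 0) (2 * z 0 + (-1) * √2 * z 0) (0) - vv ((-3/7) * z 1 + (-5/14) * √2 * z 1) ((3/7) * z 0 + (-1/7) * √2 * z 0) (2 * z 0 + (-1) * √2 * z 0) (0)⟫ = z 2
      rw [inner_add_left, inner_add_left, inner_sub_right, inner_sub_right, inner_sub_right, inner_sub_right]
      simp only [h1.1]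
      linear_combination ((-9/7) * z 2) * hs
    · show ⟪vv ((5/28) * z 3 + (5/28) * z 1 + (3/28) * √2 * z 3 + (3/28) * √2 * z 1) ((5/28) * z 4 + (5/28) * z 2 + (3/28) * √2 * z 4 + (3/28) * √2 * z 2) ((-1/2) * √2 * z 0) ((-2/7) * z 0 + (-1/14) * √2 * z 0) - vv ((-5/28) * z 3 + (5/28) * z 1 + (-3/28) * √2 * z 3 + (3/28) * √2 * z 1) ((-5/28) * z 4 + (5/28) * z 2 + (-3/28) * √2 * z 4 + (3/28) * √2 * z 2) ((-1/2) * √2 * z 0) ((2/7) * z 0 + (1/14) * √2 * z 0), vv 1 0 (2 * √2 - 2) 0 - vv (-1) 0 (2 * √2 - 2) 0⟫ +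
        ⟪vv 0 0 (-1) 1 - vv 0 0 (-1) (-1), vv ((-3/7) * z 0 + (1/7) * √2 * z 0) ((-3/7) * z 2 + (-5/14) * √2 * z 2) (2 * z 0 + (-1) * √2 * z 0) (0) - vv ((3/7) * z 0 + (-1/7) * √2 * z 0) ((-3/7) * z 2 + (-5/14) * √2 * z 2) (2 * z 0 + (-1) * √2 * z 0) (0)⟫ = z 3
      rw [inner_sub_left, inner_sub_left, inner_sub_right, inner_sub_right, inner_sub_right, inner_sub_right]
      simp only [h1.1]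
      linear_combination ((-9/7) * z 3) * hs
    · show ⟪vv ((5/28) * z 3 + (5/28) * z 1 + (3/28) * √2 * z 3 + (3/28) * √2 * z 1) ((5/28) * z 4 + (5/28) * z 2 + (3/28) * √2 * z 4 + (3/28) * √2 * z 2) ((-1/2) * √2 * z 0) ((-2/7) * z 0 + (-1/14) * √2 * z 0) - vv ((-5/28) * z 3 + (5/28) * z 1 + (-3/28) * √2 * z 3 + (3/28) * √2 * z 1) ((-5/28) * z 4 + (5/28) * z 2 + (-3/28) * √2 * z 4 + (3/28) * √2 * z 2) ((-1/2) * √2 * z 0) ((2/7) * z 0 + (1/14) * √2 * z 0), vv 0 1 (2 * √2 - 2) 0 - vv 0 (-1) (2 * √2 - 2) 0⟫ +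
        ⟪vv 0 0 (-1) 1 - vv 0 0 (-1) (-1), vv ((-3/7) * z 1 + (-5/14) * √2 * z 1) ((-3/7) * z 0 + (1/7) * √2 * z 0) (2 * z 0 + (-1) * √2 * z 0) (0) - vv ((-3/7) * z 1 + (-5/14) * √2 * z 1) ((3/7) * z 0 + (-1/7) * √2 * z 0) (2 * z 0 + (-1) * √2 * z 0) (0)⟫ = z 4
      rw [inner_sub_left, inner_sub_left, inner_sub_right, inner_sub_right, inner_sub_right, inner_sub_right]
      simp only [h1.1]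
      linear_combination ((-9/7) * z 4) * hs
  · intro z
    show ∑ i, ∑ j, ww i j * Qc (uS z) (vS z) i j ≤ _
    have hsum : ∑ i, ∑ j, ww i j * Qc (uS z) (vS z) i j = ((-6/7) + (-5/7) * √2) * z 0 ^ 2 + ((-23/56) + (-65/224) * √2) * z 1 ^ 2 + ((-23/56) + (-65/224) * √2) * z 2 ^ 2 + ((-1/14) + (-11/224) * √2) * z 3 ^ 2 + ((-1/14) + (-11/224) * √2) * z 4 ^ 2 := by
      simp only [Fin.sum_univ_six]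
      rw [q00 h1 z, q01 z, q02 z, q03 h1 z, q04 h1 z, q05 h1 z, q10 h1 z, q11 h1 z, q12 z, q13 z, q14 h1 z, q15 h1 z, q20 z, q21 h1 z, q22 h1 z, q23 z, q24 h1 z, q25 h1 z, q30 z, q31 z, q32 h1 z, q33 h1 z, q34 h1 z, q35 h1 z, q40 h1 z, q41 h1 z, q42 h1 z, q43 h1 z, q44 z, q45 h1 z, q50 h1 z, q51 h1 z, q52 h1 z, q53 h1 z, q54 h1 z, q55 z]
      ring
    rw [hsum, Fin.sum_univ_five]
    have hs1 : (1.414 : ℝ) < √2 := by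
      rw [Real.lt_sqrt (by norm_num)]
      norm_num
    have hs2 : √2 < (1.415 : ℝ) := by
      rw [Real.sqrt_lt (by norm_num) (by norm_num)]
      norm_num
    have b0 : 0 ≤ (-(1 / 10) - ((-6/7) + (-5/7) * √2)) * z 0 ^ 2 :=
      mul_nonneg (by linarith) (sq_nonneg _)
    have b1 : 0 ≤ (-(1 / 10) - ((-23/56) + (-65/224) * √2)) * z 1 ^ 2 :=
      mul_nonneg (by linarith) (sq_nonneg _)
    have b2 : 0 ≤ (-(1 / 10) - ((-23/56) + (-65/224) * √2)) * z 2 ^ 2 :=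
      mul_nonneg (by linarith) (sq_nonneg _)
    have b3 : 0 ≤ (-(1 / 10) - ((-1/14) + (-11/224) * √2)) * z 3 ^ 2 :=
      mul_nonneg (by linarith) (sq_nonneg _)
    have b4 : 0 ≤ (-(1 / 10) - ((-1/14) + (-11/224) * √2)) * z 4 ^ 2 :=
      mul_nonneg (by linarith) (sq_nonneg _)
    linarith

end Pool.Agent.MPaafd8aB
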