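import Pool.Agent.Lib.MP_aafd8a_gt.B.SpecD

/-!
# MP_aafd8a_gt, block (B): the contacts span
-/

set_option autoImplicit false

open Topology RealInnerProductSpace

open scoped Classical

namespace Pool.Agent.MPaafd8aB

open Pool.Agent.MPaafd8a

private theorem spn_zero : vv 0 0 0 0 = 0 := by
  unfold vv
  ext i
  fin_cases i <;> simp

private theorem spn_sq : √2 * √2 = 2 := Real.mul_self_sqrt (by norm_num)

private theorem spn_lo : 1 < √2 := by
  rw [Real.lt_sqrt (by norm_num)]; norm_num

private theorem spn_hi : √2 < 3 / 2 := by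
  rw [Real.sqrt_lt' (by norm_num)]; norm_num

/-- cancel the positive coefficients -/
private theorem spn_cancel {x0 x1 x2 x3 : ℝ} (e0 : (5 - 3 * √2) * x0 = 0) (e1 : (5 - 3 * √2) * x1 = 0)
    (e2 : √2 / 4 * x2 = 0) (e3 : (1 - √2 / 4) * x3 = 0) : vv x0 x1 x2 x3 = 0 := by
  have h1 := spn_lo
  have h2 := spn_hi
  have h3 : (5 - 3 * √2) ≠ 0 := by linarith
  have h4 : √2 / 4 ≠ 0 := by positivity
  have h5 : (1 - √2 / 4) ≠ 0 := by linarith
  rw [(mul_eq_zero.1 e0).resolve_left h3, (mul_eq_zero.1 e1).resolve_left h3,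
    (mul_eq_zero.1 e2).resolve_left h4, (mul_eq_zero.1 e3).resolve_left h5]
  exact spn_zero

private theorem spn_xs {x : ℝ} (h : (√2 - 1) * x = 0) : x = 0 :=
  (mul_eq_zero.1 h).resolve_left (by have := spn_lo; linarith)

theorem pSpn (h1 : SVv) : SSpn := by
  obtain ⟨hin, hex, -, -⟩ := h1
  have hs := spn_sq
  have hlo := spn_lo
  have hhi := spn_hi
  constructor
  · intro i x h
    obtain ⟨x0, x1, x2, x3, rfl⟩ := hex x
    have b0 : ct i 0 = true → (5 - 3 * √2) * (x0 * (√2 / 2) + x1 * (√2 / 2)) +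
        √2 / 4 * (x2 * (2 - 2 * √2)) + (1 - √2 / 4) * (x3 * 0) = 0 := fun hc => by
      rw [← hin]; exact h 0 hc
    have b1 : ct i 1 = true → (5 - 3 * √2) * (x0 * (-(√2 / 2)) + x1 * (√2 / 2)) +
        √2 / 4 * (x2 * (2 - 2 * √2)) + (1 - √2 / 4) * (x3 * 0) = 0 := fun hc => by
      rw [← hin]; exact h 1 hc
    have b2 : ct i 2 = true → (5 - 3 * √2) * (x0 * (-(√2 / 2)) + x1 * (-(√2 / 2))) +
        √2 / 4 * (x2 * (2 - 2 * √2)) + (1 - √2 / 4) * (x3 * 0) = 0 := fun hc => by
      rw [← hin]; exact h 2 hc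
    have b3 : ct i 3 = true → (5 - 3 * √2) * (x0 * (√2 / 2) + x1 * (-(√2 / 2))) +
        √2 / 4 * (x2 * (2 - 2 * √2)) + (1 - √2 / 4) * (x3 * 0) = 0 := fun hc => by
      rw [← hin]; exact h 3 hc
    have b4 : ct i 4 = true → (5 - 3 * √2) * (x0 * 0 + x1 * 0) +
        √2 / 4 * (x2 * 1) + (1 - √2 / 4) * (x3 * (-1)) = 0 := fun hc => by
      rw [← hin]; exact h 4 hc
    have b5 : ct i 5 = true → (5 - 3 * √2) * (x0 * 0 + x1 * 0) +
        √2 / 4 * (x2 * 1) + (1 - √2 / 4) * (x3 * 1) = 0 := fun hc => by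
      rw [← hin]; exact h 5 hc
    have cs2 : ∀ y : ℝ, √2 * y = 0 → y = 0 := fun y hy =>
      (mul_eq_zero.1 hy).resolve_left (by positivity)
    fin_cases i
    · have e0 := b0 rfl
      have e3 := b3 rfl
      have e4 := b4 rfl
      have e5 := b5 rfl
      have f2 : √2 / 4 * x2 = 0 := by linear_combination (e4 + e5) / 2
      have f3 : (1 - √2 / 4) * x3 = 0 := by linear_combination (e5 - e4) / 2
      refine spn_cancel (cs2 _ ?_) (cs2 _ ?_) f2 f3
      · linear_combination e0 + e3 - 2 * (2 - 2 * √2) * f2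
      · linear_combination e0 - e3
    · have e0 := b0 rfl
      have e1 := b1 rfl
      have e4 := b4 rfl
      have e5 := b5 rfl
      have f2 : √2 / 4 * x2 = 0 := by linear_combination (e4 + e5) / 2
      have f3 : (1 - √2 / 4) * x3 = 0 := by linear_combination (e5 - e4) / 2
      refine spn_cancel (cs2 _ ?_) (cs2 _ ?_) f2 f3
      · linear_combination e0 - e1
      · linear_combination e0 + e1 - 2 * (2 - 2 * √2) * f2
    · have e1 := b1 rfl
      have e2 := b2 rfl
      have e4 := b4 rfl
      have e5 := b5 rfl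
      have f2 : √2 / 4 * x2 = 0 := by linear_combination (e4 + e5) / 2
      have f3 : (1 - √2 / 4) * x3 = 0 := by linear_combination (e5 - e4) / 2
      refine spn_cancel (cs2 _ ?_) (cs2 _ ?_) f2 f3
      · linear_combination -e1 - e2 + 2 * (2 - 2 * √2) * f2
      · linear_combination e1 - e2
    · have e2 := b2 rfl
      have e3 := b3 rfl
      have e4 := b4 rfl
      have e5 := b5 rfl
      have f2 : √2 / 4 * x2 = 0 := by linear_combination (e4 + e5) / 2
      have f3 : (1 - √2 / 4) * x3 = 0 := by linear_combination (e5 - e4) / 2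
      refine spn_cancel (cs2 _ ?_) (cs2 _ ?_) f2 f3
      · linear_combination e3 - e2
      · linear_combination -e2 - e3 + 2 * (2 - 2 * √2) * f2
    · have e0 := b0 rfl
      have e1 := b1 rfl
      have e2 := b2 rfl
      have e5 := b5 rfl
      have f2 : √2 / 4 * x2 = 0 := by
        apply spn_xs
        linear_combination -(e0 + e2) / 4
      refine spn_cancel (cs2 _ ?_) (cs2 _ ?_) f2 ?_
      · linear_combination e0 - e1
      · linear_combination e0 + e1 - 2 * (2 - 2 * √2) * f2
      · linear_combination e5 - f2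
    · have e0 := b0 rfl
      have e1 := b1 rfl
      have e2 := b2 rfl
      have e4 := b4 rfl
      have f2 : √2 / 4 * x2 = 0 := by
        apply spn_xs
        linear_combination -(e0 + e2) / 4
      refine spn_cancel (cs2 _ ?_) (cs2 _ ?_) f2 ?_
      · linear_combination e0 - e1
      · linear_combination e0 + e1 - 2 * (2 - 2 * √2) * f2
      · linear_combination f2 - e4
  · intro j x h
    obtain ⟨x0, x1, x2, x3, rfl⟩ := hex x
    have a0 : ct 0 j = true → (5 - 3 * √2) * (x0 * 1 + x1 * 0) +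
        √2 / 4 * (x2 * (2 * √2 - 2)) + (1 - √2 / 4) * (x3 * 0) = 0 := fun hc => by
      rw [← hin]; exact h 0 hc
    have a1 : ct 1 j = true → (5 - 3 * √2) * (x0 * 0 + x1 * 1) +
        √2 / 4 * (x2 * (2 * √2 - 2)) + (1 - √2 / 4) * (x3 * 0) = 0 := fun hc => by
      rw [← hin]; exact h 1 hc
    have a2 : ct 2 j = true → (5 - 3 * √2) * (x0 * (-1) + x1 * 0) +
        √2 / 4 * (x2 * (2 * √2 - 2)) + (1 - √2 / 4) * (x3 * 0) = 0 := fun hc => by
      rw [← hin]; exact h 2 hc
    have a3 : ct 3 j = true → (5 - 3 * √2) * (x0 * 0 + x1 * (-1)) +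
        √2 / 4 * (x2 * (2 * √2 - 2)) + (1 - √2 / 4) * (x3 * 0) = 0 := fun hc => by
      rw [← hin]; exact h 3 hc
    have a4 : ct 4 j = true → (5 - 3 * √2) * (x0 * 0 + x1 * 0) +
        √2 / 4 * (x2 * (-1)) + (1 - √2 / 4) * (x3 * 1) = 0 := fun hc => by
      rw [← hin]; exact h 4 hc
    have a5 : ct 5 j = true → (5 - 3 * √2) * (x0 * 0 + x1 * 0) +
        √2 / 4 * (x2 * (-1)) + (1 - √2 / 4) * (x3 * (-1)) = 0 := fun hc => by
      rw [← hin]; exact h 5 hc
    fin_cases j
    · have e0 := a0 rfl
      have e1 := a1 rfl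
      have e4 := a4 rfl
      have e5 := a5 rfl
      have f2 : √2 / 4 * x2 = 0 := by linear_combination -(e4 + e5) / 2
      have f3 : (1 - √2 / 4) * x3 = 0 := by linear_combination (e4 - e5) / 2
      refine spn_cancel ?_ ?_ f2 f3
      · linear_combination e0 - (2 * √2 - 2) * f2
      · linear_combination e1 - (2 * √2 - 2) * f2
    · have e1 := a1 rfl
      have e2 := a2 rfl
      have e4 := a4 rfl
      have e5 := a5 rfl
      have f2 : √2 / 4 * x2 = 0 := by linear_combination -(e4 + e5) / 2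
      have f3 : (1 - √2 / 4) * x3 = 0 := by linear_combination (e4 - e5) / 2
      refine spn_cancel ?_ ?_ f2 f3
      · linear_combination -e2 + (2 * √2 - 2) * f2
      · linear_combination e1 - (2 * √2 - 2) * f2
    · have e2 := a2 rfl
      have e3 := a3 rfl
      have e4 := a4 rfl
      have e5 := a5 rfl
      have f2 : √2 / 4 * x2 = 0 := by linear_combination -(e4 + e5) / 2
      have f3 : (1 - √2 / 4) * x3 = 0 := by linear_combination (e4 - e5) / 2
      refine spn_cancel ?_ ?_ f2 f3
      · linear_combination -e2 + (2 * √2 - 2) * f2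
      · linear_combination -e3 + (2 * √2 - 2) * f2
    · have e0 := a0 rfl
      have e3 := a3 rfl
      have e4 := a4 rfl
      have e5 := a5 rfl
      have f2 : √2 / 4 * x2 = 0 := by linear_combination -(e4 + e5) / 2
      have f3 : (1 - √2 / 4) * x3 = 0 := by linear_combination (e4 - e5) / 2
      refine spn_cancel ?_ ?_ f2 f3
      · linear_combination e0 - (2 * √2 - 2) * f2
      · linear_combination -e3 + (2 * √2 - 2) * f2
    · have e0 := a0 rfl
      have e1 := a1 rfl
      have e2 := a2 rfl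
      have e5 := a5 rfl
      have f2 : √2 / 4 * x2 = 0 := by
        apply spn_xs
        linear_combination (e0 + e2) / 4
      refine spn_cancel ?_ ?_ f2 ?_
      · linear_combination e0 - (2 * √2 - 2) * f2
      · linear_combination e1 - (2 * √2 - 2) * f2
      · linear_combination -e5 - f2
    · have e0 := a0 rfl
      have e1 := a1 rfl
      have e2 := a2 rfl
      have e4 := a4 rfl
      have f2 : √2 / 4 * x2 = 0 := by
        apply spn_xs
        linear_combination (e0 + e2) / 4
      refine spn_cancel ?_ ?_ f2 ?_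
      · linear_combination e0 - (2 * √2 - 2) * f2
      · linear_combination e1 - (2 * √2 - 2) * f2
      · linear_combination e4 + f2

end Pool.Agent.MPaafd8aB
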