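import Pool.Agent.Lib.MP_aafd8a_gt.B.SpecA

/-!
# MP_aafd8a_gt, block (B): points with small inner products are near the vertices
-/

set_option autoImplicit false

open Topology RealInnerProductSpace

open scoped Classical

namespace Pool.Agent.MPaafd8aB

open Pool.Agent.MPaafd8a

private theorem star_aux (a b : Fin 6 → Eu 3)
    (h : ∀ v : Eu 3, ‖v‖ = 1 → (∀ j, ⟪v, b j⟫ ≤ cs) → ∃ i, v = a i) (r : ℝ) (hr : 0 < r) :
    ∃ τ : ℝ, 0 < τ ∧ ∀ v : Sph 3, (∀ j, ⟪(v : Eu 3), b j⟫ ≤ cs + τ) → ∃ i, dist (v : Eu 3) (a i) < r := by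
  by_contra hcon
  push Not at hcon
  let Z : ℕ → Set (Sph 3) := fun n =>
    {v | (∀ j, ⟪(v : Eu 3), b j⟫ ≤ cs + 1 / ((n : ℝ) + 1)) ∧ ∀ i, r ≤ dist (v : Eu 3) (a i)}
  have hclosed : ∀ n, IsClosed (Z n) := by
    intro n
    have h1 : Z n = (⋂ j, {v : Sph 3 | ⟪(v : Eu 3), b j⟫ ≤ cs + 1 / ((n : ℝ) + 1)}) ∩
        ⋂ i, {v : Sph 3 | r ≤ dist (v : Eu 3) (a i)} := by
      ext v
      simp [Z]
    rw [h1]
    refine IsClosed.inter (isClosed_iInter fun j => ?_) (isClosed_iInter fun i => ?_)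
    · exact isClosed_le (by fun_prop) continuous_const
    · exact isClosed_le continuous_const (by fun_prop)
  have hne : ∀ n, (Z n).Nonempty := by
    intro n
    obtain ⟨v, hv1, hv2⟩ := hcon (1 / ((n : ℝ) + 1)) (by positivity)
    exact ⟨v, hv1, hv2⟩
  have hmono : ∀ n, Z (n + 1) ⊆ Z n := by
    intro n v hv
    refine ⟨fun j => ?_, hv.2⟩
    have h1 := hv.1 j
    have h2 : 1 / (((n + 1 : ℕ) : ℝ) + 1) ≤ 1 / ((n : ℝ) + 1) := by
      apply one_div_le_one_div_of_le (by positivity)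
      push_cast
      linarith
    linarith
  obtain ⟨v, hv⟩ := IsCompact.nonempty_iInter_of_sequence_nonempty_isCompact_isClosed Z hmono hne
    (hclosed 0).isCompact hclosed
  rw [Set.mem_iInter] at hv
  have h1 : ∀ j, ⟪(v : Eu 3), b j⟫ ≤ cs := by
    intro j
    refine le_of_forall_pos_le_add (fun ε hε => ?_)
    obtain ⟨n, hn⟩ := exists_nat_one_div_lt hε
    have h2 := (hv n).1 j
    linarith
  have h2 : ‖(v : Eu 3)‖ = 1 := by
    have := v.2
    rwa [mem_sphere_zero_iff_norm] at this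
  obtain ⟨i, hi⟩ := h v h2 h1
  have h3 := (hv 0).2 i
  rw [hi, dist_self] at h3
  linarith

theorem pStar (h1 : SPol) : SStar := by
  intro r hr
  obtain ⟨τ₁, hτ₁, H1⟩ := star_aux aa bb h1.1 r hr
  obtain ⟨τ₂, hτ₂, H2⟩ := star_aux bb aa h1.2 r hr
  refine ⟨min τ₁ τ₂, lt_min hτ₁ hτ₂, fun v hv => H1 v (fun j => ?_), fun v hv => H2 v (fun j => ?_)⟩
  · have h2 := hv j
    have h3 := min_le_left τ₁ τ₂
    linarith
  · have h2 := hv j
    have h3 := min_le_right τ₁ τ₂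
    linarith

end Pool.Agent.MPaafd8aB
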