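import Pool.Agent.Lib.MP_aafd8a_gt.B.SpecD

/-!
# MP_aafd8a_gt, block (B): the stress
-/

set_option autoImplicit false

open Topology RealInnerProductSpace

open scoped Classical

namespace Pool.Agent.MPaafd8aB

open Pool.Agent.MPaafd8a

namespace StressAux

theorem add_vv (h1 : SVv) (x0 x1 x2 x3 y0 y1 y2 y3 : ℝ) :
    vv x0 x1 x2 x3 + vv y0 y1 y2 y3 = vv (x0 + y0) (x1 + y1) (x2 + y2) (x3 + y3) := by
  have h := h1.2.2.1 1 x0 x1 x2 x3 y0 y1 y2 y3
  simpa using h

theorem zero_vv (h1 : SVv) : vv 0 0 0 0 = 0 := by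
  have h := h1.2.2.1 (-1) 0 0 0 0 0 0 0 0
  simpa using h.symm

theorem smul_vv (h1 : SVv) (a x0 x1 x2 x3 : ℝ) :
    a • vv x0 x1 x2 x3 = vv (a * x0) (a * x1) (a * x2) (a * x3) := by
  have h := h1.2.2.1 a x0 x1 x2 x3 0 0 0 0
  rw [zero_vv h1] at h
  simpa using h

theorem vv_congr {x0 x1 x2 x3 y0 y1 y2 y3 : ℝ} (h0 : x0 = y0) (h1 : x1 = y1) (h2 : x2 = y2)
    (h3 : x3 = y3) : vv x0 x1 x2 x3 = vv y0 y1 y2 y3 := by
  rw [h0, h1, h2, h3]

theorem sq2 : √2 * √2 = 2 := Real.mul_self_sqrt (by norm_num)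

theorem wwA : ∀ i j : Fin 6, (i : ℕ) < 4 → (j : ℕ) < 4 → ct i j = true → ww i j = (2 + √2) / 8 := by
  intro i j hi hj h
  simp [ww, h, hi, hj]

theorem sqrt_bounds : 1 < √2 ∧ √2 < 3 / 2 := by
  constructor
  · rw [show (1 : ℝ) = √1 by simp]
    exact Real.sqrt_lt_sqrt (by norm_num) (by norm_num)
  · rw [Real.sqrt_lt' (by norm_num)]
    norm_num

theorem ww_cases (i j : Fin 6) : (ct i j = false ∧ ww i j = 0) ∨
    (ct i j = true ∧ (ww i j = (2 + √2) / 8 ∨ ww i j = (1 + √2) / 4 ∨ ww i j = 1)) := by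
  cases h : ct i j
  · left
    exact ⟨rfl, by simp [ww, h]⟩
  · right
    refine ⟨rfl, ?_⟩
    by_cases h2 : (i : ℕ) < 4 ∧ (j : ℕ) < 4
    · left
      simp [ww, h, h2.1, h2.2]
    · right
      by_cases h3 : (i : ℕ) < 4 ∨ (j : ℕ) < 4
      · left
        simp only [ww, h]
        rw [if_neg (by simp), if_neg h2, if_pos h3]
      · right
        simp only [ww, h]
        rw [if_neg (by simp), if_neg h2, if_neg h3]

end StressAux

open StressAux

theorem pStress (h1 : SVv) (_h2 : SGram) : SStress := by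
  have hs := sq2
  obtain ⟨hlo, hhi⟩ := sqrt_bounds
  refine ⟨?_, ?_, ?_, ?_, ?_, ?_, ?_, ?_⟩
  · intro i
    fin_cases i <;>
      (simp [Fin.sum_univ_six, ww, ct, lam, aa, bb, smul_vv h1, add_vv h1]
       try apply vv_congr <;> nlinarith [hs])
  · intro j
    fin_cases j <;>
      (simp [Fin.sum_univ_six, ww, ct, lam, aa, bb, smul_vv h1, add_vv h1]
       try apply vv_congr <;> nlinarith [hs])
  · intro i
    fin_cases i <;>
      (simp [Fin.sum_univ_six, ww, ct, lam, cs]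
       nlinarith [hs])
  · intro j
    fin_cases j <;>
      (simp [Fin.sum_univ_six, ww, ct, lam, cs]
       nlinarith [hs])
  · intro i j h
    rcases ww_cases i j with ⟨h3, -⟩ | ⟨-, h3 | h3 | h3⟩
    · simp [h] at h3
    all_goals (rw [h3]; linarith)
  · intro i j h
    simp [ww, h]
  · intro i j
    rcases ww_cases i j with ⟨-, h3⟩ | ⟨-, h3 | h3 | h3⟩ <;> rw [h3] <;> constructor <;> linarith
  · intro i
    unfold lam
    split_ifs <;> constructor <;> linarith

end Pool.Agent.MPaafd8aB
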