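import Pool.Agent.Lib.MP_aafd8a_gt.B.SpecD

set_option autoImplicit false

open Topology RealInnerProductSpace

open scoped Classical

namespace Pool.Agent.MPaafd8aB

open Pool.Agent.MPaafd8a

namespace SurAux

/-- The matrices. -/
abbrev W : Type := Fin 6 → Fin 6 → ℝ

/-- The pairs of displacements. -/
abbrev P : Type := (Fin 6 → Eu 3) × (Fin 6 → Eu 3)

/-- The tangential displacements. -/
def T : Submodule ℝ P where
  carrier := {x | Tng x.1 x.2}
  add_mem' := by
    intro x y hx hy
    refine ⟨fun i => ?_, fun j => ?_⟩
    · change ⟪aa i, x.1 i + y.1 i⟫ = 0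
      rw [inner_add_right, hx.1 i, hy.1 i, add_zero]
    · change ⟪bb j, x.2 j + y.2 j⟫ = 0
      rw [inner_add_right, hx.2 j, hy.2 j, add_zero]
  zero_mem' := by
    refine ⟨fun i => ?_, fun j => ?_⟩
    · change ⟪aa i, (0 : Eu 3)⟫ = 0
      rw [inner_zero_right]
    · change ⟪bb j, (0 : Eu 3)⟫ = 0
      rw [inner_zero_right]
  smul_mem' := by
    intro c x hx
    refine ⟨fun i => ?_, fun j => ?_⟩
    · change ⟪aa i, c • x.1 i⟫ = 0
      rw [inner_smul_right, hx.1 i, mul_zero]
    · change ⟪bb j, c • x.2 j⟫ = 0
      rw [inner_smul_right, hx.2 j, mul_zero]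

/-- The contact values. -/
noncomputable def L : P →ₗ[ℝ] W where
  toFun x := fun i j => if ct i j = true then Lc x.1 x.2 i j else 0
  map_add' := by
    intro x y
    funext i j
    change (if ct i j = true then Lc (x.1 + y.1) (x.2 + y.2) i j else 0) =
      (if ct i j = true then Lc x.1 x.2 i j else 0) + (if ct i j = true then Lc y.1 y.2 i j else 0)
    split_ifs
    · simp only [Lc, Pi.add_apply, inner_add_left, inner_add_right]
      ring
    · rw [add_zero]
  map_smul' := by
    intro c x
    funext i j
    change (if ct i j = true then Lc (c • x.1) (c • x.2) i j else 0) =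
      c * (if ct i j = true then Lc x.1 x.2 i j else 0)
    split_ifs
    · simp only [Lc, Pi.smul_apply, real_inner_smul_left, real_inner_smul_right]
      ring
    · rw [mul_zero]

/-- The truncation. -/
noncomputable def m : W →ₗ[ℝ] W where
  toFun ρ := fun i j => if ct i j = true then ρ i j else 0
  map_add' := by
    intro x y
    funext i j
    change (if ct i j = true then x i j + y i j else 0) =
      (if ct i j = true then x i j else 0) + (if ct i j = true then y i j else 0)
    split_ifs
    · rfl
    · rw [add_zero]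
  map_smul' := by
    intro c x
    funext i j
    change (if ct i j = true then c * x i j else 0) = c * (if ct i j = true then x i j else 0)
    split_ifs
    · rfl
    · rw [mul_zero]

/-- The matrix units. -/
noncomputable def E (i j : Fin 6) : W := fun a b => if a = i ∧ b = j then 1 else 0

theorem fun_eq (f : W →ₗ[ℝ] ℝ) (σ : W) : f σ = ∑ i, ∑ j, σ i j * f (E i j) := by
  have h : σ = ∑ i, ∑ j, σ i j • E i j := by
    funext a b
    simp only [Finset.sum_apply, Pi.smul_apply, E, smul_eq_mul, ite_and, mul_ite, mul_one, mul_zero,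
      Finset.sum_ite_eq, Finset.mem_univ, if_true, Finset.sum_ite_irrel, Finset.sum_const_zero]
  conv_lhs => rw [h]
  rw [map_sum]
  refine Finset.sum_congr rfl fun i _ => ?_
  rw [map_sum]
  refine Finset.sum_congr rfl fun j _ => ?_
  rw [map_smul, smul_eq_mul]

theorem ww_zero (i j : Fin 6) (h : ct i j = false) : ww i j = 0 := by
  unfold ww
  rw [if_pos h]

theorem mem_range (h1 : SUnq) (ρ : W) (h0 : ∀ i j, ct i j = false → ρ i j = 0)
    (hρ : ∑ i, ∑ j, ww i j * ρ i j = 0) : ρ ∈ T.map L := by
  by_contra hn
  obtain ⟨f, hf, hf'⟩ := Submodule.exists_le_ker_of_notMem hn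
  have hf0 : ∀ x ∈ T, f (L x) = 0 := fun x hx => hf' (Submodule.mem_map_of_mem hx)
  obtain ⟨a, ha⟩ := h1 (fun i j => if ct i j = true then f (E i j) else 0) (by
      intro i j h
      simp [h]) (by
      intro i ξ hξ
      have hx : ((Pi.single i ξ, 0) : P) ∈ T := by
        refine ⟨fun a => ?_, fun b => ?_⟩
        · change ⟪aa a, (Pi.single i ξ : Fin 6 → Eu 3) a⟫ = 0
          by_cases h : a = i
          · subst h
            rw [Pi.single_eq_same, hξ]
          · rw [Pi.single_eq_of_ne h, inner_zero_right]
        · change ⟪bb b, (0 : Eu 3)⟫ = 0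
          rw [inner_zero_right]
      have e := hf0 _ hx
      rw [fun_eq, Finset.sum_eq_single i] at e
      · refine Eq.trans (Finset.sum_congr rfl fun j _ => ?_) e
        change (if ct i j = true then f (E i j) else 0) * ⟪ξ, bb j⟫ =
          (if ct i j = true then Lc (Pi.single i ξ) 0 i j else 0) * f (E i j)
        split_ifs
        · simp only [Lc, Pi.single_eq_same, Pi.zero_apply, inner_zero_right]
          ring
        · ring
      · intro b _ hb
        refine Finset.sum_eq_zero fun j _ => ?_
        change (if ct b j = true then Lc (Pi.single i ξ) 0 b j else 0) * f (E b j) = 0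
        simp only [Lc, Pi.single_eq_of_ne hb, Pi.zero_apply, inner_zero_right, inner_zero_left,
          add_zero, ite_self, zero_mul]
      · intro h
        exact absurd (Finset.mem_univ i) h) (by
      intro j ξ hξ
      have hx : ((0, Pi.single j ξ) : P) ∈ T := by
        refine ⟨fun a => ?_, fun b => ?_⟩
        · change ⟪aa a, (0 : Eu 3)⟫ = 0
          rw [inner_zero_right]
        · change ⟪bb b, (Pi.single j ξ : Fin 6 → Eu 3) b⟫ = 0
          by_cases h : b = j
          · subst h
            rw [Pi.single_eq_same, hξ]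
          · rw [Pi.single_eq_of_ne h, inner_zero_right]
      have e := hf0 _ hx
      rw [fun_eq] at e
      refine Eq.trans (Finset.sum_congr rfl fun i _ => ?_) e
      rw [Finset.sum_eq_single j]
      · change (if ct i j = true then f (E i j) else 0) * ⟪aa i, ξ⟫ =
          (if ct i j = true then Lc 0 (Pi.single j ξ) i j else 0) * f (E i j)
        split_ifs
        · simp only [Lc, Pi.single_eq_same, Pi.zero_apply, inner_zero_left]
          ring
        · ring
      · intro b _ hb
        change (if ct i b = true then Lc 0 (Pi.single j ξ) i b else 0) * f (E i b) = 0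
        simp only [Lc, Pi.single_eq_of_ne hb, Pi.zero_apply, inner_zero_right, inner_zero_left,
          add_zero, ite_self, zero_mul]
      · intro h
        exact absurd (Finset.mem_univ j) h)
  apply hf
  rw [fun_eq]
  have e : ∀ i j, ρ i j * f (E i j) = a * (ww i j * ρ i j) := by
    intro i j
    by_cases h : ct i j = true
    · have h2 := ha i j
      rw [if_pos h] at h2
      rw [h2]
      ring
    · have h' : ct i j = false := by simpa using h
      rw [h0 i j h']
      ring
  calc ∑ i, ∑ j, ρ i j * f (E i j) = ∑ i, ∑ j, a * (ww i j * ρ i j) :=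
        Finset.sum_congr rfl fun i _ => Finset.sum_congr rfl fun j _ => e i j
    _ = a * ∑ i, ∑ j, ww i j * ρ i j := by
        rw [Finset.mul_sum]
        exact Finset.sum_congr rfl fun i _ => (Finset.mul_sum _ _ _).symm
    _ = 0 := by rw [hρ, mul_zero]

end SurAux

open SurAux

theorem pSur (h1 : SUnq) : SSur := by
  obtain ⟨g, hg⟩ := (L.domRestrict T).rangeRestrict.exists_rightInverse_of_surjective
    (LinearMap.range_rangeRestrict _)
  obtain ⟨G, hG⟩ := LinearMap.exists_extend g
  refine ⟨T.subtype ∘ₗ G ∘ₗ m, fun ρ => (G (m ρ)).2, ?_⟩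
  intro ρ hρ i j hij
  have hm : ∀ a b, ct a b = false → m ρ a b = 0 := by
    intro a b h
    change (if ct a b = true then ρ a b else 0) = 0
    rw [h]
    rfl
  have hs : ∑ i, ∑ j, ww i j * m ρ i j = 0 := by
    rw [← hρ]
    refine Finset.sum_congr rfl fun a _ => Finset.sum_congr rfl fun b _ => ?_
    by_cases h : ct a b = true
    · change ww a b * (if ct a b = true then ρ a b else 0) = _
      rw [if_pos h]
    · have h' : ct a b = false := by simpa using h
      rw [ww_zero a b h', zero_mul, zero_mul]
  obtain ⟨x, hx, hx'⟩ := mem_range h1 (m ρ) hm hs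
  have hN : m ρ ∈ LinearMap.range (L.domRestrict T) := ⟨⟨x, hx⟩, hx'⟩
  have e1 : G (m ρ) = g ⟨m ρ, hN⟩ := by
    rw [← hG]
    rfl
  have e2 : (L.domRestrict T).rangeRestrict (g ⟨m ρ, hN⟩) = ⟨m ρ, hN⟩ := by
    have := congrArg (fun F => F ⟨m ρ, hN⟩) hg
    exact this
  have e3 : L (G (m ρ) : P) = m ρ := by
    rw [e1]
    exact congrArg Subtype.val e2
  have e4 := congrFun (congrFun e3 i) j
  have e5 : (if ct i j = true then Lc ((G (m ρ) : P)).1 ((G (m ρ) : P)).2 i j else 0) =
      (if ct i j = true then ρ i j else 0) := e4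
  rw [if_pos hij, if_pos hij] at e5
  exact e5

end Pool.Agent.MPaafd8aB
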