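import Pool.Agent.Lib.MP_aafd8a_gt.B.SpecP

/-!
# MP_aafd8a_gt, block (B): the normalisation inequality
-/

set_option autoImplicit false

open Topology RealInnerProductSpace

open scoped Classical

namespace Pool.Agent.MPaafd8aB

open Pool.Agent.MPaafd8a

private theorem nrm_coe (a : Eu 3) (h : a ≠ 0) : (nrm a : Eu 3) = ‖a‖⁻¹ • a := by
  unfold nrm
  rw [dif_neg h]

private theorem norm_sum_sq (a u : Eu 3) (ha : ‖a‖ = 1) (hau : ⟪a, u⟫ = 0) :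
    ‖a + u‖ ^ 2 = 1 + ‖u‖ ^ 2 := by
  rw [norm_add_sq_real, ha, hau]
  ring

/-- The estimate for `1 / √(1 + x)`. -/
private theorem inv_le (p x : ℝ) (hp : 0 < p) (hx : 0 ≤ x) (hx1 : x ≤ 1 / 4) (hpx : p ^ 2 = 1 + x) :
    p⁻¹ ≤ 1 - x / 2 + 3 * x ^ 2 / 8 := by
  have hP : 0 < 1 - x / 2 + 3 * x ^ 2 / 8 := by nlinarith [sq_nonneg x]
  have h1 : 1 ≤ (p * (1 - x / 2 + 3 * x ^ 2 / 8)) ^ 2 := by
    rw [mul_pow, hpx]
    have e : (1 + x) * (1 - x / 2 + 3 * x ^ 2 / 8) ^ 2 =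
        1 + x ^ 3 * (5 / 8 - 15 / 64 * x + 9 / 64 * x ^ 2) := by ring
    rw [e]
    have h2 : 0 ≤ x ^ 3 * (5 / 8 - 15 / 64 * x + 9 / 64 * x ^ 2) := by
      refine mul_nonneg (pow_nonneg hx 3) ?_
      nlinarith [sq_nonneg x]
    linarith
  have h3 : 1 ≤ p * (1 - x / 2 + 3 * x ^ 2 / 8) := by
    by_contra hc
    have hc' := not_le.1 hc
    have h4 : 0 < p * (1 - x / 2 + 3 * x ^ 2 / 8) := mul_pos hp hP
    nlinarith
  rw [inv_le_iff_one_le_mul₀ hp]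
  linarith

private theorem prod_le (x y P Q : ℝ) (hx : 0 ≤ x) (hx1 : x ≤ 1 / 4) (hy : 0 ≤ y)
    (hy1 : y ≤ 1 / 4) (hQ : 0 ≤ Q) (hPx : P ≤ 1 - x / 2 + 3 * x ^ 2 / 8)
    (hQy : Q ≤ 1 - y / 2 + 3 * y ^ 2 / 8) : P * Q ≤ 1 - (x + y) / 2 + (x + y) ^ 2 := by
  have h1 : P * Q ≤ (1 - x / 2 + 3 * x ^ 2 / 8) * (1 - y / 2 + 3 * y ^ 2 / 8) :=
    mul_le_mul hPx hQy hQ (by nlinarith [sq_nonneg x])
  refine h1.trans ?_
  have hxy : 0 ≤ x * y := mul_nonneg hx hy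
  have h2 : x ^ 2 * y ^ 2 ≤ x * y := by
    have : x ^ 2 * y ^ 2 = (x * y) * (x * y) := by ring
    rw [this]
    have h3 : x * y ≤ 1 := by nlinarith
    nlinarith
  have h4 : 0 ≤ x * y ^ 2 := mul_nonneg hx (sq_nonneg y)
  have h5 : 0 ≤ x ^ 2 * y := mul_nonneg (sq_nonneg x) hy
  nlinarith [sq_nonneg x, sq_nonneg y]

private theorem fin_le (c l m S N K : ℝ) (hN : N = c + l + m) (hN0 : 0 ≤ N) (hN3 : N ≤ 3)
    (hS : 0 ≤ S) (hK : K ≤ 1 - S / 2 + S ^ 2) :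
    K * N ≤ c + l + m - c * S / 2 + (|l| + |m|) * S + 3 * S ^ 2 := by
  have h1 : K * N ≤ (1 - S / 2 + S ^ 2) * N := mul_le_mul_of_nonneg_right hK hN0
  have h2 : S ^ 2 * N ≤ S ^ 2 * 3 := mul_le_mul_of_nonneg_left hN3 (sq_nonneg S)
  have h3 : -((l + m) * S / 2) ≤ (|l| + |m|) * S := by
    have h4 : -(l + m) / 2 ≤ |l| + |m| := by
      have := neg_abs_le l
      have := neg_abs_le m
      have := abs_nonneg l
      have := abs_nonneg m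
      linarith
    have h5 := mul_le_mul_of_nonneg_right h4 hS
    linarith
  have h6 : (1 - S / 2 + S ^ 2) * N = N - N * S / 2 + S ^ 2 * N := by ring
  have h7 : N * S / 2 = c * S / 2 + (l + m) * S / 2 := by
    rw [hN]
    ring
  linarith

theorem pTay : STay := by
  intro a b u v ha hb hau hbv hu hv hab hN
  have hx0 : 0 ≤ ‖u‖ ^ 2 := sq_nonneg _
  have hy0 : 0 ≤ ‖v‖ ^ 2 := sq_nonneg _
  have hx1 : ‖u‖ ^ 2 ≤ 1 / 4 := by nlinarith [norm_nonneg u]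
  have hy1 : ‖v‖ ^ 2 ≤ 1 / 4 := by nlinarith [norm_nonneg v]
  have hp2 := norm_sum_sq a u ha hau
  have hq2 := norm_sum_sq b v hb hbv
  have hp : 0 < ‖a + u‖ := by
    rcases (norm_nonneg (a + u)).eq_or_lt with h | h
    · rw [← h] at hp2
      nlinarith
    · exact h
  have hq : 0 < ‖b + v‖ := by
    rcases (norm_nonneg (b + v)).eq_or_lt with h | h
    · rw [← h] at hq2
      nlinarith
    · exact h
  have hau0 : a + u ≠ 0 := norm_pos_iff.1 hp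
  have hbv0 : b + v ≠ 0 := norm_pos_iff.1 hq
  have hK := prod_le (‖u‖ ^ 2) (‖v‖ ^ 2) ‖a + u‖⁻¹ ‖b + v‖⁻¹ hx0 hx1 hy0 hy1
    (inv_nonneg.2 hq.le) (inv_le _ _ hp hx0 hx1 hp2) (inv_le _ _ hq hy0 hy1 hq2)
  have hin : ⟪a + u, b + v⟫ = ⟪a, b⟫ + (⟪u, b⟫ + ⟪a, v⟫) + ⟪u, v⟫ := by
    rw [inner_add_left, inner_add_right, inner_add_right]
    ring
  rw [nrm_coe _ hau0, nrm_coe _ hbv0, real_inner_smul_left, real_inner_smul_right, ← mul_assoc, hin]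
  have hc1 : ⟪a, b⟫ ≤ 1 := by
    have := real_inner_le_norm a b
    rwa [ha, hb, one_mul] at this
  have hl1 : ⟪u, b⟫ ≤ 1 / 2 := by
    have := real_inner_le_norm u b
    rw [hb, mul_one] at this
    linarith
  have hl2 : ⟪a, v⟫ ≤ 1 / 2 := by
    have := real_inner_le_norm a v
    rw [ha, one_mul] at this
    linarith
  have hm1 : ⟪u, v⟫ ≤ 1 := by
    have := real_inner_le_norm u v
    nlinarith [norm_nonneg u, norm_nonneg v]
  exact fin_le _ _ _ _ _ _ rfl hN (by linarith) (by linarith) hK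

end Pool.Agent.MPaafd8aB
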