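import Pool.Agent.Lib.MP_aafd8a_gt.B.SpecP

/-!
# MP_aafd8a_gt, block (B): the hemisphere of pairs
-/

set_option autoImplicit false

open Topology RealInnerProductSpace

open scoped Classical

namespace Pool.Agent.MPaafd8aB

open Pool.Agent.MPaafd8a

namespace TopM

theorem ini_smul {D : ℕ} (c : ℝ) (u : Fin (D + 1) → ℝ) : ini (c • u) = c • ini u := rfl

theorem lst_smul {D : ℕ} (c : ℝ) (u : Fin (D + 1) → ℝ) : lst (c • u) = c * lst u := rfl

theorem eq_zero_of {D : ℕ} {u : Fin (D + 1) → ℝ} (h1 : ini u = 0) (h2 : lst u = 0) : u = 0 := by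
  funext i
  refine Fin.lastCases ?_ (fun j => ?_) i
  · exact h2
  · exact congrFun h1 j

theorem pos_of_geo {n : ℕ} {K : AbstractSimplicialComplex (Sph n)} (p : Geo K) {v : Sph n} (hv : v ∈ p.1.support) :
    0 < p.1 v := lt_of_le_of_ne (p.2.1 v) (Ne.symm (Finsupp.mem_support_iff.1 hv))

theorem exists_pos {n : ℕ} {K : AbstractSimplicialComplex (Sph n)} (p : Geo K) : ∃ v, 0 < p.1 v := by
  obtain ⟨v, hv⟩ := support_nonempty_of_sum p.2.2.1
  exact ⟨v, pos_of_geo p hv⟩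

theorem cpt2_mono {n : ℕ} {c c' : ℝ} (h : c ≤ c') {p q : Sph n →₀ ℝ} (hpq : Cpt2 c p q) : Cpt2 c' p q :=
  fun v w hv hw => (hpq v w hv hw).trans_le h

theorem cpt2_symm {n : ℕ} {c : ℝ} {p q : Sph n →₀ ℝ} (hpq : Cpt2 c p q) : Cpt2 c q p := by
  intro v w hv hw
  rw [real_inner_comm]
  exact hpq w v hw hv

theorem face {n : ℕ} {c : ℝ} (hc : -1 < c) {K K' : AbstractSimplicialComplex (Sph n)} (p : Geo K) (q : Geo K')
    (h : Cpt2 c p.1 q.1) : p.1.support ∈ capK n c hc := by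
  rw [mem_capK]
  obtain ⟨w, hw⟩ := exists_pos q
  exact ⟨support_nonempty_of_sum p.2.2.1, w, fun x hx => h x w (pos_of_geo p hx) hw⟩

/-- a point of the smaller complex as a point of the larger one -/
noncomputable def up (c c' : ℝ) (hc : -1 < c) (hc' : -1 < c') (h : c ≤ c') (a : Geo (capK 3 c hc)) :
    Geo (capK 3 c' hc') :=
  ⟨a.1, a.2.1, a.2.2.1, capFace_mono (mem_capK.1 a.2.2.2) h⟩

/-- the projection to the ball -/
theorem ball_of {D : ℕ} (x : CSph (D + 1)) (hx : 0 ≤ lst x.1) :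
    ∃ y : Ball D, ini x.1 = (‖ini x.1‖ + lst x.1) • y.1 := by
  have hn : 0 < ‖ini x.1‖ + lst x.1 := by
    rcases (add_nonneg (norm_nonneg (ini x.1)) hx).lt_or_eq with h | h
    · exact h
    · exfalso
      have h1 : ‖ini x.1‖ = 0 := by
        have := norm_nonneg (ini x.1)
        linarith
      have h2 : lst x.1 = 0 := by linarith
      have h3 : x.1 = 0 := eq_zero_of (norm_eq_zero.1 h1) h2
      have h4 := mem_sphere_zero_iff_norm.1 x.2
      rw [h3, norm_zero] at h4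
      exact zero_ne_one h4
  refine ⟨⟨(‖ini x.1‖ + lst x.1)⁻¹ • ini x.1, ?_⟩, ?_⟩
  · rw [mem_closedBall_zero_iff, norm_smul, norm_inv, Real.norm_eq_abs, abs_of_pos hn, inv_mul_le_iff₀ hn]
    linarith
  · show ini x.1 = (‖ini x.1‖ + lst x.1) • ((‖ini x.1‖ + lst x.1)⁻¹ • ini x.1)
    rw [smul_smul, mul_inv_cancel₀ hn.ne', one_smul]

/-- the direction of the first coordinates of a boundary point of the hemisphere -/
theorem dir_of {D : ℕ} (x : Fin (D + 1) → ℝ) (hx : ∑ i, |x i| = 1) (h0 : lst x = 0) :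
    ∃ s : CSph D, ini x = ‖ini x‖ • s.1 ∧ s.1 = ‖ini x‖⁻¹ • ini x ∧ 0 < ‖ini x‖ := by
  have hne : ini x ≠ 0 := by
    intro h
    rw [eq_zero_of h h0] at hx
    simp at hx
  have hn : 0 < ‖ini x‖ := norm_pos_iff.2 hne
  refine ⟨⟨‖ini x‖⁻¹ • ini x, ?_⟩, ?_, rfl, hn⟩
  · rw [mem_sphere_zero_iff_norm, norm_smul, norm_inv, norm_norm, inv_mul_cancel₀ hn.ne']
  · show ini x = ‖ini x‖ • (‖ini x‖⁻¹ • ini x)
    rw [smul_smul, mul_inv_cancel₀ hn.ne', one_smul]

end TopM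

open TopM in
theorem pTop (h1 : SSub) (h2 : SFil) (h3 : SNul) (h4 : SGl1) (h5 : SGl2) : STop := by
  intro cm cp hm hp hmp hC14 hC15 Φp Φq hΦ hΦ1
  -- the restrictions to the sphere
  let inc : C(CSph 15, Ball 15) :=
    ⟨fun s => ⟨s.1, Metric.sphere_subset_closedBall s.2⟩, by fun_prop⟩
  have hinc : ∀ s, Cpt2 cm (Φp (inc s)).1 (Φq (inc s)).1 := fun s => hΦ1 _ (mem_sphere_zero_iff_norm.1 s.2)
  obtain ⟨p, hpp⟩ := h1 (Sph 3) (capK 3 cp hp) (capK 3 cm hm) (CSph 15) (Φp.comp inc)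
    (fun s => face hm _ (Φq (inc s)) (hinc s))
  obtain ⟨q, hqq⟩ := h1 (Sph 3) (capK 3 cp hp) (capK 3 cm hm) (CSph 15) (Φq.comp inc)
    (fun s => face hm _ (Φp (inc s)) (cpt2_symm (hinc s)))
  have hcomp : ∀ s, Comp cm (p s) (q s) := by
    intro s v w hv hw
    rw [hpp] at hv
    rw [hqq] at hw
    exact hinc s v w hv hw
  -- the null homotopy in the small complex
  obtain ⟨a, ha⟩ := h3 (Geo (capK 3 cm hm)) 14 (hC14.2 14 le_rfl) p
  obtain ⟨b, F, G, hFG⟩ := h2 3 cm (capK 3 cm hm) (fun σ => mem_capK) (CSph 15) p q a hcomp ha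
  obtain ⟨F1, hF1⟩ := h1 (Sph 3) (capK 3 cm hm) (capK 3 cp hp) (unitInterval × CSph 15) F.toContinuousMap
    (fun x => mem_capK.2 (capFace_mono (mem_capK.1 (F.toContinuousMap x).2.2.2) hmp))
  obtain ⟨G1, hG1⟩ := h1 (Sph 3) (capK 3 cm hm) (capK 3 cp hp) (unitInterval × CSph 15) G.toContinuousMap
    (fun x => mem_capK.2 (capFace_mono (mem_capK.1 (G.toContinuousMap x).2.2.2) hmp))
  have hFG1 : ∀ z, Cpt2 cm (F1 z).1 (G1 z).1 := by
    rintro ⟨t, s⟩ v w hv hw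
    rw [hF1] at hv
    rw [hG1] at hw
    exact hFG t s v w hv hw
  -- the sphere of pairs
  obtain ⟨P, hP1, hP2⟩ := h4 (Geo (capK 3 cp hp) × Geo (capK 3 cp hp)) 15 (Φp.prodMk Φq) (F1.prodMk G1)
    (up cm cp hm hp hmp a, up cm cp hm hp hmp b) (by norm_num)
    (by
      intro s y hsy
      have hy : inc s = y := Subtype.ext hsy
      refine Prod.ext (Subtype.ext ?_) (Subtype.ext ?_)
      · show (F1 (0, s)).1 = (Φp y).1
        rw [hF1]
        have h6 : F.toContinuousMap (0, s) = p s := F.apply_zero s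
        rw [h6, hpp, ← hy]
        rfl
      · show (G1 (0, s)).1 = (Φq y).1
        rw [hG1]
        have h6 : G.toContinuousMap (0, s) = q s := G.apply_zero s
        rw [h6, hqq, ← hy]
        rfl)
    (by
      intro s
      refine Prod.ext (Subtype.ext ?_) (Subtype.ext ?_)
      · show (F1 (1, s)).1 = a.1
        rw [hF1]
        have h6 : F.toContinuousMap (1, s) = a := F.apply_one s
        rw [h6]
      · show (G1 (1, s)).1 = b.1
        rw [hG1]
        have h6 : G.toContinuousMap (1, s) = b := G.apply_one s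
        rw [h6])
  have hPlow : ∀ x : CSph 16, lst x.1 ≤ 0 → Cpt2 cm (P x).1.1 (P x).2.1 := by
    intro x hx
    obtain ⟨t, s, hts⟩ := hP2 x hx
    rw [hts]
    exact hFG1 (t, s)
  have hPall : ∀ x : CSph 16, Cpt2 cp (P x).1.1 (P x).2.1 := by
    intro x
    rcases le_total 0 (lst x.1) with hx | hx
    · obtain ⟨y, hy⟩ := ball_of (D := 15) x hx
      rw [hP1 x y hx hy]
      exact hΦ y
    · exact cpt2_mono hmp (hPlow x hx)
  -- the null homotopy in the large complex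
  let Pp : C(CSph 16, Geo (capK 3 cp hp)) := ⟨fun x => (P x).1, continuous_fst.comp P.continuous⟩
  let Pq : C(CSph 16, Geo (capK 3 cp hp)) := ⟨fun x => (P x).2, continuous_snd.comp P.continuous⟩
  obtain ⟨a2, ha2⟩ := h3 (Geo (capK 3 cp hp)) 15 (hC15.2 15 le_rfl) Pp
  obtain ⟨b2, F2, G2, hFG2⟩ := h2 3 cp (capK 3 cp hp) (fun σ => mem_capK) (CSph 16) Pp Pq a2 hPall ha2
  obtain ⟨H, hH1, hH2⟩ := h5 (Geo (capK 3 cp hp) × Geo (capK 3 cp hp)) 16
    (F2.toContinuousMap.prodMk G2.toContinuousMap) (a2, b2) (by norm_num)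
    (fun s => Prod.ext (F2.apply_one s) (G2.apply_one s))
  refine ⟨⟨fun x => (H x).1, continuous_fst.comp H.continuous⟩,
    ⟨fun x => (H x).2, continuous_snd.comp H.continuous⟩, ?_, ?_, ?_⟩
  · intro x
    obtain ⟨t, s, hts⟩ := hH2 x
    show Cpt2 cp (H x).1.1 (H x).2.1
    rw [hts]
    exact hFG2 t s
  · intro x y hx0 hx1 hxy
    obtain ⟨s, hs1, hs2, hs3⟩ := dir_of (D := 16) x.1 x.2.1 hx0
    have h6 : H x = P s := by
      rw [hH1 x s hx0 hs1]
      exact Prod.ext (F2.apply_zero s) (G2.apply_zero s)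
    have hinv : 0 < ‖ini x.1‖⁻¹ := inv_pos.2 hs3
    have h7 : lst s.1 = ‖ini x.1‖⁻¹ * lst (ini x.1) := by
      rw [hs2, lst_smul]
    have h8 : ini s.1 = ‖ini x.1‖⁻¹ • pr x.1 := by
      rw [hs2, ini_smul]
      rfl
    have h9 : ‖ini s.1‖ = ‖ini x.1‖⁻¹ * ‖pr x.1‖ := by
      rw [h8, norm_smul, Real.norm_eq_abs, abs_of_pos hinv]
    have h10 : P s = (Φp.prodMk Φq) y := by
      refine hP1 s y ?_ ?_
      · rw [h7]
        exact mul_nonneg hinv.le hx1
      · rw [h9, h7, ← mul_add, mul_smul, ← hxy, h8]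
    have h11 : H x = (Φp y, Φq y) := by
      rw [h6, h10]
      rfl
    exact ⟨congrArg Prod.fst h11, congrArg Prod.snd h11⟩
  · intro x hx0 hx1
    obtain ⟨s, hs1, hs2, hs3⟩ := dir_of (D := 16) x.1 x.2.1 hx0
    have h6 : H x = P s := by
      rw [hH1 x s hx0 hs1]
      exact Prod.ext (F2.apply_zero s) (G2.apply_zero s)
    have h7 : lst s.1 = ‖ini x.1‖⁻¹ * lst (ini x.1) := by
      rw [hs2, lst_smul]
    show Cpt2 cm (H x).1.1 (H x).2.1
    rw [h6]
    refine hPlow s ?_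
    rw [h7]
    exact mul_nonpos_of_nonneg_of_nonpos (inv_nonneg.2 hs3.le) hx1

end Pool.Agent.MPaafd8aB
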