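import Pool.Agent.Lib.MP_aafd8a_gt.B.SpecP

/-!
# MP_aafd8a_gt, block (B): truncated masses
-/

set_option autoImplicit false

namespace Pool.Agent.MPaafd8aB

namespace TruPf

theorem six_cast (y : Fin 5 → ℝ) (i : Fin 5) : six y i.castSucc = 1 / 6 + y i := by
  unfold six
  exact Fin.snoc_castSucc (α := fun _ => ℝ) _ _ _

theorem six_last (y : Fin 5 → ℝ) : six y (Fin.last 5) = 1 / 6 - ∑ i, y i := by
  unfold six
  exact Fin.snoc_last (α := fun _ => ℝ) _ _

theorem six_sum (y : Fin 5 → ℝ) : ∑ k, six y k = 1 := by
  rw [Fin.sum_univ_castSucc, six_last]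
  simp only [six_cast]
  rw [Finset.sum_add_distrib, Finset.sum_const, Finset.card_univ, Fintype.card_fin]
  norm_num

/-- The denominator. -/
noncomputable def den (y : Fin 5 → ℝ) : ℝ := ∑ k, max 0 (six y k - 1 / 12)

theorem sum_sub (y : Fin 5 → ℝ) : ∑ k, (six y k - 1 / 12) = 1 / 2 := by
  rw [Finset.sum_sub_distrib, six_sum, Finset.sum_const, Finset.card_univ, Fintype.card_fin]
  norm_num

theorem den_ge (y : Fin 5 → ℝ) : 1 / 2 ≤ den y := by
  rw [← sum_sub y]
  exact Finset.sum_le_sum fun k _ => le_max_right _ _

theorem den_pos (y : Fin 5 → ℝ) : 0 < den y := lt_of_lt_of_le (by norm_num) (den_ge y)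

theorem tru_eq (y : Fin 5 → ℝ) (i : Fin 6) : tru (six y) i = max 0 (six y i - 1 / 12) / den y := rfl

theorem tru_nonneg (y : Fin 5 → ℝ) (i : Fin 6) : 0 ≤ tru (six y) i := by
  rw [tru_eq]
  exact div_nonneg (le_max_left _ _) (den_pos y).le

theorem tru_sum (y : Fin 5 → ℝ) : ∑ i, tru (six y) i = 1 := by
  simp only [tru_eq]
  rw [← Finset.sum_div]
  exact div_self (den_pos y).ne'

theorem tru_zero (y : Fin 5 → ℝ) (i : Fin 6) (h : six y i ≤ 1 / 12) : tru (six y) i = 0 := by
  rw [tru_eq, max_eq_left (by linarith), zero_div]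

theorem tru_big (y : Fin 5 → ℝ) (h : ∀ k, 1 / 12 ≤ six y k) (i : Fin 6) :
    tru (six y) i - 1 / 6 = 2 * (six y i - 1 / 6) := by
  have e : den y = 1 / 2 := by
    rw [← sum_sub y]
    exact Finset.sum_congr rfl fun k _ => max_eq_right (by linarith [h k])
  rw [tru_eq, e, max_eq_right (by linarith [h i])]
  ring

theorem cont_six (k : Fin 6) : Continuous fun y : Fin 5 → ℝ => six y k := by
  induction k using Fin.lastCases with
  | last =>
    simp only [six_last]
    exact continuous_const.sub (continuous_finsetSum _ fun i _ => continuous_apply i)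
  | cast i =>
    simp only [six_cast]
    exact continuous_const.add (continuous_apply i)

theorem cont_tru (i : Fin 6) : Continuous fun y : Fin 5 → ℝ => tru (six y) i := by
  have h : ∀ k, Continuous fun y : Fin 5 → ℝ => max 0 (six y k - 1 / 12) := fun k =>
    continuous_const.max ((cont_six k).sub continuous_const)
  exact (h i).div (continuous_finsetSum _ fun k _ => h k) fun y => (den_pos y).ne'

end TruPf

open TruPf in
theorem pTru : STru := by
  refine ⟨tru_nonneg, tru_sum, cont_tru, ?_, ?_, ?_, ?_⟩
  · intro y i h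
    by_contra h1
    rw [tru_zero y i (not_lt.1 h1)] at h
    exact lt_irrefl _ h
  · intro y s hs h
    have h6 : ∀ k, tru (six y) k - 1 / 6 = -(s * (six y k - 1 / 6)) := by
      intro k
      induction k using Fin.lastCases with
      | cast i =>
        rw [h i, six_cast]
        ring
      | last =>
        have e1 : ∑ i : Fin 5, (tru (six y) i.castSucc - 1 / 6) = -(s * ∑ i, y i) := by
          rw [Finset.sum_congr rfl fun i _ => h i, Finset.sum_neg_distrib, Finset.mul_sum]
        have e2 := tru_sum y
        rw [Fin.sum_univ_castSucc] at e2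
        rw [Finset.sum_sub_distrib, Finset.sum_const, Finset.card_univ, Fintype.card_fin] at e1
        rw [six_last]
        have e3 : (5 : ℕ) • (1 / 6 : ℝ) = 5 / 6 := by norm_num
        rw [e3] at e1
        linarith
    have h7 : ∀ k, 1 / 12 ≤ six y k := by
      intro k
      by_contra h8
      have h9 := h6 k
      rw [tru_zero y k (not_le.1 h8).le] at h9
      nlinarith [not_le.1 h8]
    funext i
    have h8 := tru_big y h7 i.castSucc
    rw [h6, six_cast] at h8
    have h9 : (2 + s) * y i = 0 := by linarith
    rcases mul_eq_zero.1 h9 with h10 | h10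
    · exact absurd h10 (by linarith)
    · exact h10
  · intro y a ha h i
    have h5 : ∀ k, |six y k - 1 / 6| ≤ 5 * a := by
      have h0 : 0 ≤ a := (abs_nonneg _).trans (h 0)
      intro k
      induction k using Fin.lastCases with
      | cast i =>
        rw [six_cast, add_sub_cancel_left]
        linarith [h i]
      | last =>
        have e1 : |∑ i, y i| ≤ ∑ i : Fin 5, a :=
          (Finset.abs_sum_le_sum_abs _ _).trans (Finset.sum_le_sum fun i _ => h i)
        rw [Finset.sum_const, Finset.card_univ, Fintype.card_fin] at e1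
        have e2 : (5 : ℕ) • a = 5 * a := by
          rw [nsmul_eq_mul]
          norm_num
        rw [six_last, sub_sub_cancel_left, abs_neg, ← e2]
        exact e1
    have h7 : ∀ k, 1 / 12 ≤ six y k := by
      intro k
      have := (abs_le.1 (h5 k)).1
      linarith
    rw [tru_big y h7 i, abs_mul, abs_two]
    linarith [h5 i]
  · intro y i h
    by_contra h1
    push Not at h1
    rcases (abs_eq (by norm_num : (0 : ℝ) ≤ 1)).1 h with h2 | h2
    · have h3 := Finset.single_le_sum (f := six y) (fun k _ => h1 k) (Finset.mem_univ i.castSucc)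
      rw [six_sum, six_cast, h2] at h3
      norm_num at h3
    · have h3 := h1 i.castSucc
      rw [six_cast, h2] at h3
      norm_num at h3

end Pool.Agent.MPaafd8aB
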