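import Pool.Agent.Lib.MP_aafd8a_gt.B.SpecP

/-!
# MP_aafd8a_gt, block (B): uniform continuity in the distance `dl`
-/

set_option autoImplicit false

open Topology RealInnerProductSpace

open scoped Classical

namespace Pool.Agent.MPaafd8aB

open Pool.Agent.MPaafd8a

theorem pUC (h1 : SCrd) (h2 : SCpt) : SUC := by
  intro V K X _ _ h ε hε
  obtain ⟨T, hT⟩ := h2 V K (Set.range h) (isCompact_range h.continuous)
  have hcont : Continuous fun x : X => (fun v : T => (h x).1 v.1) :=
    continuous_pi fun v => (h1 V K v.1).comp h.continuous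
  have huc : UniformContinuous fun x : X => (fun v : T => (h x).1 v.1) :=
    CompactSpace.uniformContinuous_of_continuous hcont
  rw [Metric.uniformContinuous_iff] at huc
  have hc : (0 : ℝ) < (T.card : ℝ) + 1 := by positivity
  obtain ⟨δ, hδ, H⟩ := huc (ε / ((T.card : ℝ) + 1)) (by positivity)
  refine ⟨δ, hδ, fun x y hxy => ?_⟩
  have hd := H hxy
  have hsub : ((h x).1 - (h y).1).support ⊆ T := by
    intro v hv
    have h3 := Finsupp.support_sub hv
    rcases Finset.mem_union.mp h3 with h4 | h4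
    · exact hT (h x) ⟨x, rfl⟩ h4
    · exact hT (h y) ⟨y, rfl⟩ h4
  rw [Finsupp.sum_of_support_subset _ hsub _ (fun _ _ => abs_zero)]
  have hle : ∀ v ∈ T, |((h x).1 - (h y).1) v| ≤ ε / ((T.card : ℝ) + 1) := by
    intro v hv
    have h5 := (dist_pi_lt_iff (by positivity)).mp hd ⟨v, hv⟩
    rw [Real.dist_eq] at h5
    exact h5.le
  have hs := Finset.sum_le_sum hle
  rw [Finset.sum_const, nsmul_eq_mul] at hs
  refine lt_of_le_of_lt hs ?_
  rw [mul_div_assoc', div_lt_iff₀ hc]
  nlinarith

end Pool.Agent.MPaafd8aB
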