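import Pool.Agent.Lib.MP_aafd8a_gt.B.SpecT

/-!
# MP_aafd8a_gt, block (B): uniqueness on sets with `j + 1` points
-/

set_option autoImplicit false

open scoped Classical

namespace Pool.Agent.MPaafd8aB

theorem pUni : SUni := by
  intro X D j w S hcard hG l l' hl0 hl1 hlw hl0' hl1' hlw'
  by_contra hcon
  push Not at hcon
  obtain ⟨s0, hs0, hne⟩ := hcon
  -- the difference has a negative value
  have hsum : ∑ s ∈ S, (l' s - l s) = 0 := by
    rw [Finset.sum_sub_distrib, hl1, hl1', sub_self]
  have hneg : ∃ s ∈ S, l' s - l s < 0 := by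
    by_contra h
    push Not at h
    have h1 := (Finset.sum_eq_zero_iff_of_nonneg h).mp hsum s0 hs0
    exact hne (by linarith)
  set N : Finset X := S.filter fun s => l' s - l s < 0 with hN
  have hNne : N.Nonempty := by
    obtain ⟨s, hs, hs'⟩ := hneg
    exact ⟨s, Finset.mem_filter.mpr ⟨hs, hs'⟩⟩
  obtain ⟨a, haN, hmin⟩ := Finset.exists_min_image N (fun s => l s / (-(l' s - l s))) hNne
  obtain ⟨haS, ha⟩ := Finset.mem_filter.mp haN
  set t : ℝ := l a / (-(l' a - l a)) with ht
  have ht0 : 0 ≤ t := div_nonneg (hl0 a haS) (by linarith)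
  set m : X → ℝ := fun s => l s + t * (l' s - l s) with hm
  have hma : m a = 0 := by
    have h1 : -(l' a - l a) ≠ 0 := by linarith
    have h2 : t * (-(l' a - l a)) = l a := div_mul_cancel₀ _ h1
    simp only [hm]
    linarith
  have hm0 : ∀ s ∈ S, 0 ≤ m s := by
    intro s hs
    simp only [hm]
    by_cases h : l' s - l s < 0
    · have h1 := hmin s (Finset.mem_filter.mpr ⟨hs, h⟩)
      have h2 : 0 < -(l' s - l s) := by linarith
      have h3 : t * (-(l' s - l s)) ≤ l s := by
        rw [← le_div_iff₀ h2]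
        exact h1
      linarith
    · have h1 := mul_nonneg ht0 (not_lt.mp h)
      have h2 := hl0 s hs
      linarith
  have hmsum : ∀ v : X → ℝ, ∑ s ∈ S, m s * v s =
      ∑ s ∈ S, l s * v s + t * (∑ s ∈ S, l' s * v s - ∑ s ∈ S, l s * v s) := by
    intro v
    rw [← Finset.sum_sub_distrib, Finset.mul_sum, ← Finset.sum_add_distrib]
    refine Finset.sum_congr rfl fun s _ => ?_
    simp only [hm]
    ring
  have hm1 : ∑ s ∈ S, m s = 1 := by
    have h := hmsum fun _ => 1
    simp only [mul_one] at h
    rw [h, hl1, hl1']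
    ring
  refine hG (S.erase a) (Finset.erase_subset _ _) ?_ ⟨m, ?_, ?_, ?_⟩
  · rw [Finset.card_erase_of_mem haS, hcard]
    simp
  · exact fun s hs => hm0 s (Finset.mem_of_mem_erase hs)
  · have h := Finset.add_sum_erase S m haS
    rw [hma, zero_add, hm1] at h
    exact h
  · intro i hi
    have h := Finset.add_sum_erase S (fun s => m s * w s i) haS
    simp only [hma, zero_mul, zero_add] at h
    rw [h, hmsum fun s => w s i, hlw i hi, hlw' i hi]
    ring

end Pool.Agent.MPaafd8aB
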