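import Pool.Agent.Lib.MP_aafd8a_gt.B.SpecD

/-!
# MP_aafd8a_gt, block (B): uniqueness of the stress (`pUnq : SVv → SUnq`)
-/

set_option autoImplicit false

open Topology RealInnerProductSpace

namespace Pool.Agent.MPaafd8aB

open Pool.Agent.MPaafd8a

theorem pUnq : SVv → SUnq := by
  intro hVv t h0 h1 h2
  have hip := hVv.1
  have hs : √2 ^ 2 = 2 := Real.sq_sqrt (by norm_num)
  have ha0 : aa 0 = vv 1 0 (2 * √2 - 2) 0 := rfl
  have ha1 : aa 1 = vv 0 1 (2 * √2 - 2) 0 := rfl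
  have ha2 : aa 2 = vv (-1) 0 (2 * √2 - 2) 0 := rfl
  have ha3 : aa 3 = vv 0 (-1) (2 * √2 - 2) 0 := rfl
  have ha4 : aa 4 = vv 0 0 (-1) 1 := rfl
  have ha5 : aa 5 = vv 0 0 (-1) (-1) := rfl
  have hb0 : bb 0 = vv (√2 / 2) (√2 / 2) (2 - 2 * √2) 0 := rfl
  have hb1 : bb 1 = vv (-(√2 / 2)) (√2 / 2) (2 - 2 * √2) 0 := rfl
  have hb2 : bb 2 = vv (-(√2 / 2)) (-(√2 / 2)) (2 - 2 * √2) 0 := rfl
  have hb3 : bb 3 = vv (√2 / 2) (-(√2 / 2)) (2 - 2 * √2) 0 := rfl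
  have hb4 : bb 4 = vv 0 0 1 (-1) := rfl
  have hb5 : bb 5 = vv 0 0 1 1 := rfl
  have z01 : t 0 1 = 0 := h0 0 1 rfl
  have z02 : t 0 2 = 0 := h0 0 2 rfl
  have z12 : t 1 2 = 0 := h0 1 2 rfl
  have z13 : t 1 3 = 0 := h0 1 3 rfl
  have z20 : t 2 0 = 0 := h0 2 0 rfl
  have z23 : t 2 3 = 0 := h0 2 3 rfl
  have z30 : t 3 0 = 0 := h0 3 0 rfl
  have z31 : t 3 1 = 0 := h0 3 1 rfl
  have z44 : t 4 4 = 0 := h0 4 4 rfl
  have z55 : t 5 5 = 0 := h0 5 5 rfl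
  have r00 := h1 0 (vv (0) ((1)) (0) (0)) (by
    rw [ha0, hip]
    linear_combination (0) * hs)
  simp only [Fin.sum_univ_six, hb0, hb1, hb2, hb3, hb4, hb5, hip _ _ _ _ _ _ _ _, z01, z02] at r00
  have r01 := h1 0 (vv (0) (0) (0) ((1))) (by
    rw [ha0, hip]
    linear_combination (0) * hs)
  simp only [Fin.sum_univ_six, hb0, hb1, hb2, hb3, hb4, hb5, hip _ _ _ _ _ _ _ _, z01, z02] at r01
  have r02 := h1 0 (vv ((-1/2)*√2+(1/2)*√2^2) (0) ((-5)+(3)*√2) (0)) (by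
    rw [ha0, hip]
    linear_combination (0) * hs)
  simp only [Fin.sum_univ_six, hb0, hb1, hb2, hb3, hb4, hb5, hip _ _ _ _ _ _ _ _, z01, z02] at r02
  have r10 := h1 1 (vv ((-1)) (0) (0) (0)) (by
    rw [ha1, hip]
    linear_combination (0) * hs)
  simp only [Fin.sum_univ_six, hb0, hb1, hb2, hb3, hb4, hb5, hip _ _ _ _ _ _ _ _, z12, z13] at r10
  have r11 := h1 1 (vv (0) (0) (0) ((1))) (by
    rw [ha1, hip]
    linear_combination (0) * hs)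
  simp only [Fin.sum_univ_six, hb0, hb1, hb2, hb3, hb4, hb5, hip _ _ _ _ _ _ _ _, z12, z13] at r11
  have r12 := h1 1 (vv (0) ((-1/2)*√2+(1/2)*√2^2) ((-5)+(3)*√2) (0)) (by
    rw [ha1, hip]
    linear_combination (0) * hs)
  simp only [Fin.sum_univ_six, hb0, hb1, hb2, hb3, hb4, hb5, hip _ _ _ _ _ _ _ _, z12, z13] at r12
  have r20 := h1 2 (vv (0) ((-1)) (0) (0)) (by
    rw [ha2, hip]
    linear_combination (0) * hs)
  simp only [Fin.sum_univ_six, hb0, hb1, hb2, hb3, hb4, hb5, hip _ _ _ _ _ _ _ _, z20, z23] at r20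
  have r21 := h1 2 (vv (0) (0) (0) ((1))) (by
    rw [ha2, hip]
    linear_combination (0) * hs)
  simp only [Fin.sum_univ_six, hb0, hb1, hb2, hb3, hb4, hb5, hip _ _ _ _ _ _ _ _, z20, z23] at r21
  have r22 := h1 2 (vv ((1/2)*√2+(-1/2)*√2^2) (0) ((-5)+(3)*√2) (0)) (by
    rw [ha2, hip]
    linear_combination (0) * hs)
  simp only [Fin.sum_univ_six, hb0, hb1, hb2, hb3, hb4, hb5, hip _ _ _ _ _ _ _ _, z20, z23] at r22
  have r30 := h1 3 (vv ((1)) (0) (0) (0)) (by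
    rw [ha3, hip]
    linear_combination (0) * hs)
  simp only [Fin.sum_univ_six, hb0, hb1, hb2, hb3, hb4, hb5, hip _ _ _ _ _ _ _ _, z30, z31] at r30
  have r31 := h1 3 (vv (0) (0) (0) ((1))) (by
    rw [ha3, hip]
    linear_combination (0) * hs)
  simp only [Fin.sum_univ_six, hb0, hb1, hb2, hb3, hb4, hb5, hip _ _ _ _ _ _ _ _, z30, z31] at r31
  have r32 := h1 3 (vv (0) ((1/2)*√2+(-1/2)*√2^2) ((-5)+(3)*√2) (0)) (by
    rw [ha3, hip]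
    linear_combination (0) * hs)
  simp only [Fin.sum_univ_six, hb0, hb1, hb2, hb3, hb4, hb5, hip _ _ _ _ _ _ _ _, z30, z31] at r32
  have r40 := h1 4 (vv (0) (0) ((1)+(-1/4)*√2) ((1/4)*√2)) (by
    rw [ha4, hip]
    linear_combination (0) * hs)
  simp only [Fin.sum_univ_six, hb0, hb1, hb2, hb3, hb4, hb5, hip _ _ _ _ _ _ _ _, z44] at r40
  have r50 := h1 5 (vv (0) (0) ((1)+(-1/4)*√2) ((-1/4)*√2)) (by
    rw [ha5, hip]
    linear_combination (0) * hs)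
  simp only [Fin.sum_univ_six, hb0, hb1, hb2, hb3, hb4, hb5, hip _ _ _ _ _ _ _ _, z55] at r50
  have k00 := h2 0 (vv ((-1)) ((1)) (0) (0)) (by
    rw [hb0, hip]
    linear_combination (0) * hs)
  simp only [Fin.sum_univ_six, ha0, ha1, ha2, ha3, ha4, ha5, hip _ _ _ _ _ _ _ _, z20, z30] at k00
  have k01 := h2 0 (vv (0) (0) (0) ((1))) (by
    rw [hb0, hip]
    linear_combination (0) * hs)
  simp only [Fin.sum_univ_six, ha0, ha1, ha2, ha3, ha4, ha5, hip _ _ _ _ _ _ _ _, z20, z30] at k01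
  have k02 := h2 0 (vv ((-1/2)*√2+(1/2)*√2^2) ((-1/2)*√2+(1/2)*√2^2) ((5)*√2+(-3)*√2^2) (0)) (by
    rw [hb0, hip]
    linear_combination (0) * hs)
  simp only [Fin.sum_univ_six, ha0, ha1, ha2, ha3, ha4, ha5, hip _ _ _ _ _ _ _ _, z20, z30] at k02
  have k10 := h2 1 (vv ((-1)) ((-1)) (0) (0)) (by
    rw [hb1, hip]
    linear_combination (0) * hs)
  simp only [Fin.sum_univ_six, ha0, ha1, ha2, ha3, ha4, ha5, hip _ _ _ _ _ _ _ _, z01, z31] at k10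
  have k11 := h2 1 (vv (0) (0) (0) ((1))) (by
    rw [hb1, hip]
    linear_combination (0) * hs)
  simp only [Fin.sum_univ_six, ha0, ha1, ha2, ha3, ha4, ha5, hip _ _ _ _ _ _ _ _, z01, z31] at k11
  have k12 := h2 1 (vv ((1/2)*√2+(-1/2)*√2^2) ((-1/2)*√2+(1/2)*√2^2) ((5)*√2+(-3)*√2^2) (0)) (by
    rw [hb1, hip]
    linear_combination (0) * hs)
  simp only [Fin.sum_univ_six, ha0, ha1, ha2, ha3, ha4, ha5, hip _ _ _ _ _ _ _ _, z01, z31] at k12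
  have k20 := h2 2 (vv ((1)) ((-1)) (0) (0)) (by
    rw [hb2, hip]
    linear_combination (0) * hs)
  simp only [Fin.sum_univ_six, ha0, ha1, ha2, ha3, ha4, ha5, hip _ _ _ _ _ _ _ _, z02, z12] at k20
  have k21 := h2 2 (vv (0) (0) (0) ((1))) (by
    rw [hb2, hip]
    linear_combination (0) * hs)
  simp only [Fin.sum_univ_six, ha0, ha1, ha2, ha3, ha4, ha5, hip _ _ _ _ _ _ _ _, z02, z12] at k21
  have k22 := h2 2 (vv ((1/2)*√2+(-1/2)*√2^2) ((1/2)*√2+(-1/2)*√2^2) ((5)*√2+(-3)*√2^2) (0)) (by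
    rw [hb2, hip]
    linear_combination (0) * hs)
  simp only [Fin.sum_univ_six, ha0, ha1, ha2, ha3, ha4, ha5, hip _ _ _ _ _ _ _ _, z02, z12] at k22
  have k31 := h2 3 (vv (0) (0) (0) ((1))) (by
    rw [hb3, hip]
    linear_combination (0) * hs)
  simp only [Fin.sum_univ_six, ha0, ha1, ha2, ha3, ha4, ha5, hip _ _ _ _ _ _ _ _, z13, z23] at k31
  have k32 := h2 3 (vv ((-1/2)*√2+(1/2)*√2^2) ((1/2)*√2+(-1/2)*√2^2) ((5)*√2+(-3)*√2^2) (0)) (by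
    rw [hb3, hip]
    linear_combination (0) * hs)
  simp only [Fin.sum_univ_six, ha0, ha1, ha2, ha3, ha4, ha5, hip _ _ _ _ _ _ _ _, z13, z23] at k32
  refine ⟨4 * (2 - √2) * t 0 0, ?_⟩
  have w00 : ww 0 0 = (2 + √2) / 8 := by simp [ww, ct]
  have w01 : ww 0 1 = 0 := by simp [ww, ct]
  have w02 : ww 0 2 = 0 := by simp [ww, ct]
  have w03 : ww 0 3 = (2 + √2) / 8 := by simp [ww, ct]
  have w04 : ww 0 4 = (1 + √2) / 4 := by simp [ww, ct]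
  have w05 : ww 0 5 = (1 + √2) / 4 := by simp [ww, ct]
  have w10 : ww 1 0 = (2 + √2) / 8 := by simp [ww, ct]
  have w11 : ww 1 1 = (2 + √2) / 8 := by simp [ww, ct]
  have w12 : ww 1 2 = 0 := by simp [ww, ct]
  have w13 : ww 1 3 = 0 := by simp [ww, ct]
  have w14 : ww 1 4 = (1 + √2) / 4 := by simp [ww, ct]
  have w15 : ww 1 5 = (1 + √2) / 4 := by simp [ww, ct]
  have w20 : ww 2 0 = 0 := by simp [ww, ct]
  have w21 : ww 2 1 = (2 + √2) / 8 := by simp [ww, ct]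
  have w22 : ww 2 2 = (2 + √2) / 8 := by simp [ww, ct]
  have w23 : ww 2 3 = 0 := by simp [ww, ct]
  have w24 : ww 2 4 = (1 + √2) / 4 := by simp [ww, ct]
  have w25 : ww 2 5 = (1 + √2) / 4 := by simp [ww, ct]
  have w30 : ww 3 0 = 0 := by simp [ww, ct]
  have w31 : ww 3 1 = 0 := by simp [ww, ct]
  have w32 : ww 3 2 = (2 + √2) / 8 := by simp [ww, ct]
  have w33 : ww 3 3 = (2 + √2) / 8 := by simp [ww, ct]
  have w34 : ww 3 4 = (1 + √2) / 4 := by simp [ww, ct]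
  have w35 : ww 3 5 = (1 + √2) / 4 := by simp [ww, ct]
  have w40 : ww 4 0 = (1 + √2) / 4 := by simp [ww, ct]
  have w41 : ww 4 1 = (1 + √2) / 4 := by simp [ww, ct]
  have w42 : ww 4 2 = (1 + √2) / 4 := by simp [ww, ct]
  have w43 : ww 4 3 = (1 + √2) / 4 := by simp [ww, ct]
  have w44 : ww 4 4 = 0 := by simp [ww, ct]
  have w45 : ww 4 5 = 1 := by simp [ww, ct]
  have w50 : ww 5 0 = (1 + √2) / 4 := by simp [ww, ct]
  have w51 : ww 5 1 = (1 + √2) / 4 := by simp [ww, ct]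
  have w52 : ww 5 2 = (1 + √2) / 4 := by simp [ww, ct]
  have w53 : ww 5 3 = (1 + √2) / 4 := by simp [ww, ct]
  have w54 : ww 5 4 = 1 := by simp [ww, ct]
  have w55 : ww 5 5 = 0 := by simp [ww, ct]
  clear h0 h1 h2 hVv hip
  generalize √2 = s at *
  have f03 : t 0 3 = t 0 0 := by linear_combination (-6/7+(-5/7)*s) * r00 + (((1/2)+(-15/14)*s) * t 0 0 + ((-1/2)+(15/14)*s) * t 0 3) * hs
  have f10 : t 1 0 = t 0 0 := by linear_combination (5/7+(3/7)*s) * k00 + (((-9/7)) * t 0 0 + ((9/7)) * t 1 0) * hs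
  have f11 : t 1 1 = t 0 0 := by linear_combination (6/7+(5/7)*s) * r10 + (1) * f10 + (((1/2)+(-15/14)*s) * t 1 0 + ((-1/2)+(15/14)*s) * t 1 1) * hs
  have f21 : t 2 1 = t 0 0 := by linear_combination (5/7+(3/7)*s) * k10 + (1) * f11 + (((-9/7)) * t 1 1 + ((9/7)) * t 2 1) * hs
  have f22 : t 2 2 = t 0 0 := by linear_combination (6/7+(5/7)*s) * r20 + (1) * f21 + (((1/2)+(-15/14)*s) * t 2 1 + ((-1/2)+(15/14)*s) * t 2 2) * hs
  have f32 : t 3 2 = t 0 0 := by linear_combination (5/7+(3/7)*s) * k20 + (1) * f22 + (((-9/7)) * t 2 2 + ((9/7)) * t 3 2) * hs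
  have f33 : t 3 3 = t 0 0 := by linear_combination (6/7+(5/7)*s) * r30 + (1) * f32 + (((1/2)+(-15/14)*s) * t 3 2 + ((-1/2)+(15/14)*s) * t 3 3) * hs
  have f04 : t 0 4 = s * t 0 0 := by linear_combination (-4/7+(-1/7)*s) * r01 + (-6/7+(-5/7)*s) * r02 + (0+(1/2)*s) * f03 + (((37/28)*s+(-2/7)*s^2+(-15/28)*s^3) * t 0 0 + ((37/28)*s+(-2/7)*s^2+(-15/28)*s^3) * t 0 3 + ((-3/14)+(15/28)*s) * t 0 4 + ((-2/7)+(15/28)*s) * t 0 5) * hs
  have f14 : t 1 4 = s * t 0 0 := by linear_combination (-4/7+(-1/7)*s) * r11 + (-6/7+(-5/7)*s) * r12 + (0+(1/2)*s) * f10 + (0+(1/2)*s) * f11 + (((37/28)*s+(-2/7)*s^2+(-15/28)*s^3) * t 1 0 + ((37/28)*s+(-2/7)*s^2+(-15/28)*s^3) * t 1 1 + ((-3/14)+(15/28)*s) * t 1 4 + ((-2/7)+(15/28)*s) * t 1 5) * hs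
  have f24 : t 2 4 = s * t 0 0 := by linear_combination (-4/7+(-1/7)*s) * r21 + (-6/7+(-5/7)*s) * r22 + (0+(1/2)*s) * f21 + (0+(1/2)*s) * f22 + (((37/28)*s+(-2/7)*s^2+(-15/28)*s^3) * t 2 1 + ((37/28)*s+(-2/7)*s^2+(-15/28)*s^3) * t 2 2 + ((-3/14)+(15/28)*s) * t 2 4 + ((-2/7)+(15/28)*s) * t 2 5) * hs
  have f34 : t 3 4 = s * t 0 0 := by linear_combination (-4/7+(-1/7)*s) * r31 + (-6/7+(-5/7)*s) * r32 + (0+(1/2)*s) * f32 + (0+(1/2)*s) * f33 + (((37/28)*s+(-2/7)*s^2+(-15/28)*s^3) * t 3 2 + ((37/28)*s+(-2/7)*s^2+(-15/28)*s^3) * t 3 3 + ((-3/14)+(15/28)*s) * t 3 4 + ((-2/7)+(15/28)*s) * t 3 5) * hs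
  have f05 : t 0 5 = s * t 0 0 := by linear_combination (8/7+(2/7)*s) * r01 + (1) * f04 + (((-1/14)) * t 0 4 + ((1/14)) * t 0 5) * hs
  have f15 : t 1 5 = s * t 0 0 := by linear_combination (8/7+(2/7)*s) * r11 + (1) * f14 + (((-1/14)) * t 1 4 + ((1/14)) * t 1 5) * hs
  have f25 : t 2 5 = s * t 0 0 := by linear_combination (8/7+(2/7)*s) * r21 + (1) * f24 + (((-1/14)) * t 2 4 + ((1/14)) * t 2 5) * hs
  have f35 : t 3 5 = s * t 0 0 := by linear_combination (8/7+(2/7)*s) * r31 + (1) * f34 + (((-1/14)) * t 3 4 + ((1/14)) * t 3 5) * hs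
  have f40 : t 4 0 = s * t 0 0 := by linear_combination (4/7+(1/7)*s) * k01 + (-5/7+(-3/7)*s) * k02 + (0+(1/2)*s) * f10 + (((8/7)*s+(-9/14)*s^3) * t 0 0 + ((8/7)*s+(-9/14)*s^3) * t 1 0 + ((-3/14)+(9/28)*s^2) * t 4 0 + ((-2/7)+(9/28)*s^2) * t 5 0) * hs
  have f41 : t 4 1 = s * t 0 0 := by linear_combination (4/7+(1/7)*s) * k11 + (-5/7+(-3/7)*s) * k12 + (0+(1/2)*s) * f11 + (0+(1/2)*s) * f21 + (((8/7)*s+(-9/14)*s^3) * t 1 1 + ((8/7)*s+(-9/14)*s^3) * t 2 1 + ((-3/14)+(9/28)*s^2) * t 4 1 + ((-2/7)+(9/28)*s^2) * t 5 1) * hs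
  have f42 : t 4 2 = s * t 0 0 := by linear_combination (4/7+(1/7)*s) * k21 + (-5/7+(-3/7)*s) * k22 + (0+(1/2)*s) * f22 + (0+(1/2)*s) * f32 + (((8/7)*s+(-9/14)*s^3) * t 2 2 + ((8/7)*s+(-9/14)*s^3) * t 3 2 + ((-3/14)+(9/28)*s^2) * t 4 2 + ((-2/7)+(9/28)*s^2) * t 5 2) * hs
  have f43 : t 4 3 = s * t 0 0 := by linear_combination (4/7+(1/7)*s) * k31 + (-5/7+(-3/7)*s) * k32 + (0+(1/2)*s) * f03 + (0+(1/2)*s) * f33 + (((8/7)*s+(-9/14)*s^3) * t 0 3 + ((8/7)*s+(-9/14)*s^3) * t 3 3 + ((-3/14)+(9/28)*s^2) * t 4 3 + ((-2/7)+(9/28)*s^2) * t 5 3) * hs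
  have f50 : t 5 0 = s * t 0 0 := by linear_combination (-8/7+(-2/7)*s) * k01 + (1) * f40 + (((-1/14)) * t 4 0 + ((1/14)) * t 5 0) * hs
  have f51 : t 5 1 = s * t 0 0 := by linear_combination (-8/7+(-2/7)*s) * k11 + (1) * f41 + (((-1/14)) * t 4 1 + ((1/14)) * t 5 1) * hs
  have f52 : t 5 2 = s * t 0 0 := by linear_combination (-8/7+(-2/7)*s) * k21 + (1) * f42 + (((-1/14)) * t 4 2 + ((1/14)) * t 5 2) * hs
  have f53 : t 5 3 = s * t 0 0 := by linear_combination (-8/7+(-2/7)*s) * k31 + (1) * f43 + (((-1/14)) * t 4 3 + ((1/14)) * t 5 3) * hs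
  have f45 : t 4 5 = (8 - 4 * s) * t 0 0 := by linear_combination (4/7+(8/7)*s) * r40 + (-1+(1)*s) * f40 + (-1+(1)*s) * f41 + (-1+(1)*s) * f42 + (-1+(1)*s) * f43 + (((4)) * t 0 0 + ((-1/2)+(9/14)*s+(-1/7)*s^2) * t 4 0 + ((-1/2)+(9/14)*s+(-1/7)*s^2) * t 4 1 + ((-1/2)+(9/14)*s+(-1/7)*s^2) * t 4 2 + ((-1/2)+(9/14)*s+(-1/7)*s^2) * t 4 3 + ((-1/2)+(1/7)*s) * t 4 5) * hs
  have f54 : t 5 4 = (8 - 4 * s) * t 0 0 := by linear_combination (4/7+(8/7)*s) * r50 + (-1+(1)*s) * f50 + (-1+(1)*s) * f51 + (-1+(1)*s) * f52 + (-1+(1)*s) * f53 + (((4)) * t 0 0 + ((-1/2)+(9/14)*s+(-1/7)*s^2) * t 5 0 + ((-1/2)+(9/14)*s+(-1/7)*s^2) * t 5 1 + ((-1/2)+(9/14)*s+(-1/7)*s^2) * t 5 2 + ((-1/2)+(9/14)*s+(-1/7)*s^2) * t 5 3 + ((-1/2)+(1/7)*s) * t 5 4) * hs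
  have e00 : t 0 0 = 4 * (2 - s) * t 0 0 * ww 0 0 := by
    rw [w00]
    linear_combination (1 / 2 * t 0 0) * hs
  have e01 : t 0 1 = 4 * (2 - s) * t 0 0 * ww 0 1 := by
    rw [w01, z01, mul_zero]
  have e02 : t 0 2 = 4 * (2 - s) * t 0 0 * ww 0 2 := by
    rw [w02, z02, mul_zero]
  have e03 : t 0 3 = 4 * (2 - s) * t 0 0 * ww 0 3 := by
    rw [w03]
    linear_combination f03 + (1 / 2 * t 0 0) * hs
  have e04 : t 0 4 = 4 * (2 - s) * t 0 0 * ww 0 4 := by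
    rw [w04]
    linear_combination f04 + (t 0 0) * hs
  have e05 : t 0 5 = 4 * (2 - s) * t 0 0 * ww 0 5 := by
    rw [w05]
    linear_combination f05 + (t 0 0) * hs
  have e10 : t 1 0 = 4 * (2 - s) * t 0 0 * ww 1 0 := by
    rw [w10]
    linear_combination f10 + (1 / 2 * t 0 0) * hs
  have e11 : t 1 1 = 4 * (2 - s) * t 0 0 * ww 1 1 := by
    rw [w11]
    linear_combination f11 + (1 / 2 * t 0 0) * hs
  have e12 : t 1 2 = 4 * (2 - s) * t 0 0 * ww 1 2 := by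
    rw [w12, z12, mul_zero]
  have e13 : t 1 3 = 4 * (2 - s) * t 0 0 * ww 1 3 := by
    rw [w13, z13, mul_zero]
  have e14 : t 1 4 = 4 * (2 - s) * t 0 0 * ww 1 4 := by
    rw [w14]
    linear_combination f14 + (t 0 0) * hs
  have e15 : t 1 5 = 4 * (2 - s) * t 0 0 * ww 1 5 := by
    rw [w15]
    linear_combination f15 + (t 0 0) * hs
  have e20 : t 2 0 = 4 * (2 - s) * t 0 0 * ww 2 0 := by
    rw [w20, z20, mul_zero]
  have e21 : t 2 1 = 4 * (2 - s) * t 0 0 * ww 2 1 := by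
    rw [w21]
    linear_combination f21 + (1 / 2 * t 0 0) * hs
  have e22 : t 2 2 = 4 * (2 - s) * t 0 0 * ww 2 2 := by
    rw [w22]
    linear_combination f22 + (1 / 2 * t 0 0) * hs
  have e23 : t 2 3 = 4 * (2 - s) * t 0 0 * ww 2 3 := by
    rw [w23, z23, mul_zero]
  have e24 : t 2 4 = 4 * (2 - s) * t 0 0 * ww 2 4 := by
    rw [w24]
    linear_combination f24 + (t 0 0) * hs
  have e25 : t 2 5 = 4 * (2 - s) * t 0 0 * ww 2 5 := by
    rw [w25]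
    linear_combination f25 + (t 0 0) * hs
  have e30 : t 3 0 = 4 * (2 - s) * t 0 0 * ww 3 0 := by
    rw [w30, z30, mul_zero]
  have e31 : t 3 1 = 4 * (2 - s) * t 0 0 * ww 3 1 := by
    rw [w31, z31, mul_zero]
  have e32 : t 3 2 = 4 * (2 - s) * t 0 0 * ww 3 2 := by
    rw [w32]
    linear_combination f32 + (1 / 2 * t 0 0) * hs
  have e33 : t 3 3 = 4 * (2 - s) * t 0 0 * ww 3 3 := by
    rw [w33]
    linear_combination f33 + (1 / 2 * t 0 0) * hs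
  have e34 : t 3 4 = 4 * (2 - s) * t 0 0 * ww 3 4 := by
    rw [w34]
    linear_combination f34 + (t 0 0) * hs
  have e35 : t 3 5 = 4 * (2 - s) * t 0 0 * ww 3 5 := by
    rw [w35]
    linear_combination f35 + (t 0 0) * hs
  have e40 : t 4 0 = 4 * (2 - s) * t 0 0 * ww 4 0 := by
    rw [w40]
    linear_combination f40 + (t 0 0) * hs
  have e41 : t 4 1 = 4 * (2 - s) * t 0 0 * ww 4 1 := by
    rw [w41]
    linear_combination f41 + (t 0 0) * hs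
  have e42 : t 4 2 = 4 * (2 - s) * t 0 0 * ww 4 2 := by
    rw [w42]
    linear_combination f42 + (t 0 0) * hs
  have e43 : t 4 3 = 4 * (2 - s) * t 0 0 * ww 4 3 := by
    rw [w43]
    linear_combination f43 + (t 0 0) * hs
  have e44 : t 4 4 = 4 * (2 - s) * t 0 0 * ww 4 4 := by
    rw [w44, z44, mul_zero]
  have e45 : t 4 5 = 4 * (2 - s) * t 0 0 * ww 4 5 := by
    rw [w45]
    linear_combination f45 + 0 * hs
  have e50 : t 5 0 = 4 * (2 - s) * t 0 0 * ww 5 0 := by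
    rw [w50]
    linear_combination f50 + (t 0 0) * hs
  have e51 : t 5 1 = 4 * (2 - s) * t 0 0 * ww 5 1 := by
    rw [w51]
    linear_combination f51 + (t 0 0) * hs
  have e52 : t 5 2 = 4 * (2 - s) * t 0 0 * ww 5 2 := by
    rw [w52]
    linear_combination f52 + (t 0 0) * hs
  have e53 : t 5 3 = 4 * (2 - s) * t 0 0 * ww 5 3 := by
    rw [w53]
    linear_combination f53 + (t 0 0) * hs
  have e54 : t 5 4 = 4 * (2 - s) * t 0 0 * ww 5 4 := by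
    rw [w54]
    linear_combination f54 + 0 * hs
  have e55 : t 5 5 = 4 * (2 - s) * t 0 0 * ww 5 5 := by
    rw [w55, z55, mul_zero]
  intro i j
  fin_cases i <;> fin_cases j <;> assumption

end Pool.Agent.MPaafd8aB
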