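import Pool.Agent.Lib.MP_aafd8a_gt.B.SpecD

/-!
# MP_aafd8a_gt, block (B), module Vv: coordinates of `vv`
-/

set_option autoImplicit false

open Topology RealInnerProductSpace

namespace Pool.Agent.MPaafd8aB

open Pool.Agent.MPaafd8a

theorem pVv : SVv := by
  have h2 : √2 * √2 = (2 : ℝ) := Real.mul_self_sqrt (by norm_num)
  have h20 : (0 : ℝ) ≤ √2 := Real.sqrt_nonneg _
  have hlo : (0 : ℝ) < √2 := Real.sqrt_pos.2 (by norm_num)
  have hhi : √2 < 3 / 2 := by nlinarith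
  have ha : (0 : ℝ) < 5 - 3 * √2 := by linarith
  have hb : (0 : ℝ) < √2 / 4 := by linarith
  have hc : (0 : ℝ) < 1 - √2 / 4 := by linarith
  have sa : √(5 - 3 * √2) * √(5 - 3 * √2) = 5 - 3 * √2 := Real.mul_self_sqrt ha.le
  have sb : √(√2 / 4) * √(√2 / 4) = √2 / 4 := Real.mul_self_sqrt hb.le
  have sc : √(1 - √2 / 4) * √(1 - √2 / 4) = 1 - √2 / 4 := Real.mul_self_sqrt hc.le
  have pa : √(5 - 3 * √2) ≠ 0 := (Real.sqrt_pos.2 ha).ne'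
  have pb : √(√2 / 4) ≠ 0 := (Real.sqrt_pos.2 hb).ne'
  have pc : √(1 - √2 / 4) ≠ 0 := (Real.sqrt_pos.2 hc).ne'
  refine ⟨?_, ?_, ?_, ?_⟩
  · intro x0 x1 x2 x3 y0 y1 y2 y3
    have e : ⟪vv x0 x1 x2 x3, vv y0 y1 y2 y3⟫ =
        √(5 - 3 * √2) * y0 * (√(5 - 3 * √2) * x0) + √(5 - 3 * √2) * y1 * (√(5 - 3 * √2) * x1) +
        √(√2 / 4) * y2 * (√(√2 / 4) * x2) + √(1 - √2 / 4) * y3 * (√(1 - √2 / 4) * x3) := by
      rw [PiLp.inner_apply, Fin.sum_univ_four]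
      rfl
    rw [e]
    calc _ = (√(5 - 3 * √2) * √(5 - 3 * √2)) * (x0 * y0 + x1 * y1) +
          (√(√2 / 4) * √(√2 / 4)) * (x2 * y2) + (√(1 - √2 / 4) * √(1 - √2 / 4)) * (x3 * y3) := by
          ring
      _ = _ := by rw [sa, sb, sc]
  · intro v
    refine ⟨v 0 / √(5 - 3 * √2), v 1 / √(5 - 3 * √2), v 2 / √(√2 / 4), v 3 / √(1 - √2 / 4), ?_⟩
    ext i
    fin_cases i
    · change v 0 = √(5 - 3 * √2) * (v 0 / √(5 - 3 * √2))
      rw [mul_div_cancel₀ _ pa]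
    · change v 1 = √(5 - 3 * √2) * (v 1 / √(5 - 3 * √2))
      rw [mul_div_cancel₀ _ pa]
    · change v 2 = √(√2 / 4) * (v 2 / √(√2 / 4))
      rw [mul_div_cancel₀ _ pb]
    · change v 3 = √(1 - √2 / 4) * (v 3 / √(1 - √2 / 4))
      rw [mul_div_cancel₀ _ pc]
  · intro a x0 x1 x2 x3 y0 y1 y2 y3
    ext i
    fin_cases i
    · change a * (√(5 - 3 * √2) * x0) + √(5 - 3 * √2) * y0 = √(5 - 3 * √2) * (a * x0 + y0)
      ring
    · change a * (√(5 - 3 * √2) * x1) + √(5 - 3 * √2) * y1 = √(5 - 3 * √2) * (a * x1 + y1)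
      ring
    · change a * (√(√2 / 4) * x2) + √(√2 / 4) * y2 = √(√2 / 4) * (a * x2 + y2)
      ring
    · change a * (√(1 - √2 / 4) * x3) + √(1 - √2 / 4) * y3 = √(1 - √2 / 4) * (a * x3 + y3)
      ring
  · intro x0 x1 x2 x3 y0 y1 y2 y3 h
    have e0 : √(5 - 3 * √2) * x0 = √(5 - 3 * √2) * y0 := congrArg (fun v : Eu 3 => v 0) h
    have e1 : √(5 - 3 * √2) * x1 = √(5 - 3 * √2) * y1 := congrArg (fun v : Eu 3 => v 1) h
    have e2 : √(√2 / 4) * x2 = √(√2 / 4) * y2 := congrArg (fun v : Eu 3 => v 2) h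
    have e3 : √(1 - √2 / 4) * x3 = √(1 - √2 / 4) * y3 := congrArg (fun v : Eu 3 => v 3) h
    exact ⟨mul_left_cancel₀ pa e0, mul_left_cancel₀ pa e1, mul_left_cancel₀ pb e2,
      mul_left_cancel₀ pc e3⟩

end Pool.Agent.MPaafd8aB
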