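import Pool.Agent.Lib.BorsukUlam.Alg
import Pool.Agent.Lib.MP_aafd8a_gt.Crd
import Pool.Agent.Lib.MP_aafd8a_gt.Cont
import Pool.Agent.Lib.MP_aafd8a_gt.Cpt
import Pool.Agent.Lib.MP_aafd8a_gt.Mk
import Pool.Agent.Lib.MP_aafd8a_gt.Net
import Pool.Agent.Lib.MP_aafd8a_gt.Sub
import Pool.Agent.Lib.MP_aafd8a_gt.Lin
import Pool.Agent.Lib.MP_aafd8a_gt.Cut
import Pool.Agent.Lib.MP_aafd8a_gt.Fil
import Pool.Agent.Lib.MP_aafd8a_gt.Null
import Pool.Agent.Lib.MP_aafd8a_gt.B.Sm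
import Pool.Agent.Lib.MP_aafd8a_gt.B.Seg
import Pool.Agent.Lib.MP_aafd8a_gt.B.Uni
import Pool.Agent.Lib.MP_aafd8a_gt.B.HitTop
import Pool.Agent.Lib.MP_aafd8a_gt.B.HitStep
import Pool.Agent.Lib.MP_aafd8a_gt.B.DegO
import Pool.Agent.Lib.MP_aafd8a_gt.B.GenG
import Pool.Agent.Lib.MP_aafd8a_gt.B.Par
import Pool.Agent.Lib.MP_aafd8a_gt.B.Vv
import Pool.Agent.Lib.MP_aafd8a_gt.B.Gram
import Pool.Agent.Lib.MP_aafd8a_gt.B.Stress
import Pool.Agent.Lib.MP_aafd8a_gt.B.Ker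
import Pool.Agent.Lib.MP_aafd8a_gt.B.Unq
import Pool.Agent.Lib.MP_aafd8a_gt.B.Sur
import Pool.Agent.Lib.MP_aafd8a_gt.B.Shp
import Pool.Agent.Lib.MP_aafd8a_gt.B.Pol
import Pool.Agent.Lib.MP_aafd8a_gt.B.Spn
import Pool.Agent.Lib.MP_aafd8a_gt.B.LinC
import Pool.Agent.Lib.MP_aafd8a_gt.B.LA
import Pool.Agent.Lib.MP_aafd8a_gt.B.Ort
import Pool.Agent.Lib.MP_aafd8a_gt.B.Qa
import Pool.Agent.Lib.MP_aafd8a_gt.B.Q1
import Pool.Agent.Lib.MP_aafd8a_gt.B.Q2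
import Pool.Agent.Lib.MP_aafd8a_gt.B.Star
import Pool.Agent.Lib.MP_aafd8a_gt.B.Rel
import Pool.Agent.Lib.MP_aafd8a_gt.B.Lip
import Pool.Agent.Lib.MP_aafd8a_gt.B.Pers
import Pool.Agent.Lib.MP_aafd8a_gt.B.Low8
import Pool.Agent.Lib.MP_aafd8a_gt.B.G0
import Pool.Agent.Lib.MP_aafd8a_gt.B.Lb
import Pool.Agent.Lib.MP_aafd8a_gt.B.Tru
import Pool.Agent.Lib.MP_aafd8a_gt.B.Tay
import Pool.Agent.Lib.MP_aafd8a_gt.B.Exp
import Pool.Agent.Lib.MP_aafd8a_gt.B.Zz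
import Pool.Agent.Lib.MP_aafd8a_gt.B.Fam
import Pool.Agent.Lib.MP_aafd8a_gt.B.MkE
import Pool.Agent.Lib.MP_aafd8a_gt.B.Clu
import Pool.Agent.Lib.MP_aafd8a_gt.B.Phi
import Pool.Agent.Lib.MP_aafd8a_gt.B.Gl1
import Pool.Agent.Lib.MP_aafd8a_gt.B.Gl2
import Pool.Agent.Lib.MP_aafd8a_gt.B.UC
import Pool.Agent.Lib.MP_aafd8a_gt.B.Top
import Pool.Agent.Lib.MP_aafd8a_gt.B.BB

/-!
# MP_aafd8a_gt, block (B): local parity at the critical value `1 - 1 / √2` (`pB : SB`)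
-/

set_option autoImplicit false

namespace Pool.Agent.MPaafd8aB

open Pool.Agent.MPaafd8a

/-- Block (B). -/
theorem pB : Pool.Agent.MPaafd8a.SB := by
  have vv := pVv
  have gram := pGram vv
  have stress := pStress vv gram
  have ker := pKer vv
  have unq := pUnq vv
  have sur := pSur unq
  have shp := pShp vv stress
  have pol := pPol vv
  have spn := pSpn vv
  have linC := pLinC
  have la := pLA linC gram spn ker
  have qa := pQa gram stress spn linC la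
  have q1 := pQ1 qa pOrt
  have q2 := pQ2 q1
  have star := pStar pol
  have rel := pRel gram
  have pers := pPers gram q2 star
  have low8 := pLow8 gram q2
  have g0 := pG0 gram
  have lb := pLb gram
  have fam := pFam gram stress sur shp pTru (pExp pTay) (pZz gram)
  have clu := pClu (pMkE pCon) pNet
  have phi := pPhi gram lb pTru fam clu
  have sub := pSub pCrd pCon pCpt
  have fil := pFil (pLin pCrd pCon pCpt) (pCut pCrd pCpt (pMk pCon))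
  have top := pTop sub fil pNul pGl1 pGl2
  have par := pPar (pSm BU.pAlg) (pHitTop pSeg) (pDegO pUni (pHitStep pSeg)) pGenG
  exact pBB par rel pLip pers low8 g0 phi top (pUC pCrd pCpt)

end Pool.Agent.MPaafd8aB
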