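import Pool.Agent.Lib.MP_aafd8a_gt.B.DefsT

/-!
# MP_aafd8a_gt, block (B), combinatorial part: statements

GOAL (`SPar`): a parity theorem for vector valued functions which are only defined up to a finite group of linear maps. It replaces
the count modulo two of the zeros of a section of a (non orientable) vector bundle of rank `D` over a ball of dimension `D + 1`.

Conventions: every statement is a proposition `SName`; the module `Name.lean` (in this directory) proves `pName : SName` or, if the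
docstring says (from `SA`, `SB`), the implication `SA → SB → SName` (the other statements are hypotheses). Definitions: `DefsT.lean`
and `Lib/BorsukUlam/Defs.lean` (`BU.Ch`, `BU.bd`, `BU.push`, `BU.cone`, `BU.Sp`, `BU.Good`, `BU.ng`, `BU.map_mem_of_basis`,
`BU.eq_of_basis`, `BU.add_self_ch`). `BU.SAlg` is proved (`BU.pAlg` in `Lib/BorsukUlam/Alg.lean`). If decidability instances on
`Finset (Fin M → ℝ)` do not match, put `attribute [-instance] Fintype.decidablePiFintype` at the top of the file, as the files of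
`Lib/BorsukUlam` do.
-/

set_option autoImplicit false

open scoped Classical

namespace Pool.Agent.MPaafd8aB

/-! ## Chains -/

/-- **Fine hemispheres with supports** (from `BU.SAlg`; 350 lines, mostly a copy). PROOF. The modules `Sd.lean`, `Base.lean`, `Small.lean` of `Lib/BorsukUlam` prove `BU.SSmall`, the same statement without the information about the hemispheres. Copy them and carry one more property
through. (1) In `Sd.lean` the sets `T` of `Sd S` have all their points in `convexHull ℝ S`; so for every convex set `C` with `S ⊆ C` the chain `Sd S` is supported by sets `T ⊆ C` (`convexHull_min`). (2) In `Base.lean` the sets of `φ k` consist of points `e j` or `-e j`, `j ≤ k`, and if `j = k` only `e k` occurs (the cone point;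
`φ (k + 1) = cone (e (k + 1)) (φ k + push ng (φ k))`, and `φ k`, `push ng (φ k)` only have points `± e j`, `j ≤ k`). So all points of the sets of `φ k` lie in the convex set `C_k = {x | x j = 0 for j > k, 0 ≤ x k}`. (3) Iterate `Sd` as in `Small.lean`; the property `T ⊆ C_k` is preserved by (1). -/
def SSm : Prop :=
  ∀ (M : ℕ) (δ : ℝ), 0 < δ → ∃ φ : ℕ → BU.Ch (Fin M → ℝ), (∀ k < M, φ k ∈ BU.Sp (Fine M δ k)) ∧
    (0 < M → BU.bd (φ 0) = Finsupp.single ∅ 1) ∧
    ∀ k, k + 1 < M → BU.bd (φ (k + 1)) = φ k + BU.push BU.ng (φ k)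

/-! ## Convex combinations in general position -/

/-- **The solutions form a segment** (220 lines). Let `Z` be the set of all `l : X → ℝ` with `0 ≤ l s` for `s ∈ S`, `∑ s ∈ S, l s = 1` and `∑ s ∈ S, l s * w s i = 0` for all `i < j` (only the values on `S` matter). PROOF. (0) Every `l ∈ Z` is positive at at least `j + 1` points of `S` (otherwise the set `T` of these points has at most `j` elements and `Hit j w T`,
contradicting `GenH`). As `S` has `j + 2` elements, `l ∈ Z` has at most one zero on `S`. (1) There is `d : X → ℝ`, not zero on `S`, with `∑ s ∈ S, d s = 0`, `∑ s ∈ S, d s * w s i = 0` for `i < j`: `j + 1` linear equations in `j + 2` unknowns (`LinearMap.exists_ne_zero_of_finrank_lt`-style: a linear map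
`(S → ℝ) → (Option (Fin j) → ℝ)`, `LinearMap.ker_ne_bot_of_finrank_lt`; note `j ≤ D`). (2) Let `l ∈ Z` (it exists by `Hit j w S`). As the sum of `d` is zero, `d` has a positive and a negative value on `S`. Let `t⁺ = min {l s / (- d s) | s ∈ S, d s < 0}` and `t⁻ = min {l s / d s | s ∈ S, 0 < d s}`
(`Finset.exists_min_image`); `l⁺ = l + t⁺ d`, `l⁻ = l - t⁻ d` are in `Z`, `l⁺ a⁺ = 0` with `d a⁺ < 0`, `l⁻ a⁻ = 0` with `d a⁻ > 0`, so `a⁺ ≠ a⁻`, and all other values are positive by (0). (3) CLAIM: every `l' ∈ Z` is `(1 - t) l⁻ + t l⁺` on `S` for some `t ∈ [0, 1]`. Consider `d' = l' - l⁺` and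
`e = d' - (d' a⁺ / d a⁺) d`, so `e a⁺ = 0`, `e` satisfies the equations of (1). If `e` is not zero on `S` then (the sum is zero) it has a negative value, and with `t = min {l⁺ s / (- e s) | e s < 0}` the element `l⁺ + t e` of `Z` vanishes at `a⁺` and at another point: a contradiction to (0). So `e = 0` on `S`, `l' = l⁺ + c d`, hence `l'` is on
the line through `l⁻` and `l⁺` (`l⁺ - l⁻ = (t⁺ + t⁻) d`; if `t⁺ + t⁻ = 0` then `l⁺ = l⁻ = l` vanishes at `a⁺` and `a⁻`, a contradiction): `l' = (1 - t) l⁻ + t l⁺`; at `a⁺`: `0 ≤ l' a⁺ = (1 - t) l⁻ a⁺`, so `t ≤ 1`; at `a⁻`: `0 ≤ l' a⁻ = t l⁺ a⁻`, so `0 ≤ t`. -/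
def SSeg : Prop :=
  ∀ (X : Type) (D j : ℕ) (w : X → Fin D → ℝ) (S : Finset X), j ≤ D → S.card = j + 2 → GenH j w S → Hit j w S →
    ∃ (lp lm : X → ℝ) (ap am : X), ap ∈ S ∧ am ∈ S ∧ ap ≠ am ∧ lp ap = 0 ∧ lm am = 0 ∧
      (∀ s ∈ S, s ≠ ap → 0 < lp s) ∧ (∀ s ∈ S, s ≠ am → 0 < lm s) ∧ ∑ s ∈ S, lp s = 1 ∧ ∑ s ∈ S, lm s = 1 ∧
      (∀ i : Fin D, (i : ℕ) < j → ∑ s ∈ S, lp s * w s i = 0) ∧ (∀ i : Fin D, (i : ℕ) < j → ∑ s ∈ S, lm s * w s i = 0) ∧
      ∀ l : X → ℝ, (∀ s ∈ S, 0 ≤ l s) → ∑ s ∈ S, l s = 1 → (∀ i : Fin D, (i : ℕ) < j → ∑ s ∈ S, l s * w s i = 0) →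
        ∃ t : ℝ, 0 ≤ t ∧ t ≤ 1 ∧ ∀ s ∈ S, l s = (1 - t) * lm s + t * lp s

/-- **Uniqueness on small sets** (60 lines). PROOF. If `l ≠ l'` on `S` let `e = l' - l`: `∑ e = 0`, `∑ e w = 0` for the coordinates `< j`, not zero on `S`, so it has a negative value on `S`; with `t = min {l s / (- e s) | s ∈ S, e s < 0}` the combination `l + t e` is nonnegative, has sum `1`, hits, and vanishes at a point `a` of `S`; so `Hit j w (S.erase a)`
and `(S.erase a).card = j`, a contradiction to `GenH`. -/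
def SUni : Prop :=
  ∀ (X : Type) (D j : ℕ) (w : X → Fin D → ℝ) (S : Finset X), S.card = j + 1 → GenH j w S →
    ∀ l l' : X → ℝ, (∀ s ∈ S, 0 ≤ l s) → ∑ s ∈ S, l s = 1 → (∀ i : Fin D, (i : ℕ) < j → ∑ s ∈ S, l s * w s i = 0) →
      (∀ s ∈ S, 0 ≤ l' s) → ∑ s ∈ S, l' s = 1 → (∀ i : Fin D, (i : ℕ) < j → ∑ s ∈ S, l' s * w s i = 0) →
      ∀ s ∈ S, l s = l' s

/-- **Parity at the top** (from `SSeg`; 100 lines). PROOF. `j = D`. If `¬ Hit D w S` then no facet `S.erase a` hits (extend `l` by `0` at `a`), the sum is `0`. Otherwise let `lp, lm, ap, am` be as in `SSeg`. The facet `S.erase ap` hits (with `lp`), `S.erase am` hits (with `lm`). If `S.erase a` hits, with `l`, extend by `l a = 0`: by `SSeg` `l = (1 - t) lm + t lp` on `S`;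
at `a`: `0 = (1 - t) lm a + t lp a` with nonnegative terms; if `a ≠ ap, am` both `lm a, lp a > 0`, so `1 - t = t = 0`, a contradiction. So exactly the two facets of `ap ≠ am` hit and the sum is `1 + 1 = 0` in `ZMod 2` (`Finset.sum_ite`, `Finset.filter` = `{ap, am}`). -/
def SHitTop : Prop :=
  ∀ (X : Type) (D : ℕ) (w : X → Fin D → ℝ) (S : Finset X), S.card = D + 2 → GenH D w S →
    ∑ a ∈ S, (if Hit D w (S.erase a) then (1 : ZMod 2) else 0) = 0

/-- **Parity step** (from `SSeg`; 150 lines). PROOF. As in `SHitTop`. If `¬ Hit j w S` then no facet satisfies `HitS j w _ 1` and `¬ Hit (j + 1) w S`: both sides are `0`. Otherwise `lp, lm, ap, am` from `SSeg`. Let `i = ⟨j, _⟩ : Fin D` and for `l` put `y l = ∑ s ∈ S, l s * w s i`. `y lp ≠ 0`: otherwise `Hit (j + 1) w (S.erase ap)`, a set with `j + 1` elements,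
contradicting `GenH (j + 1) w S`; in the same way `y lm ≠ 0`. As in `SHitTop`, a facet `S.erase a` with `HitS j w (S.erase a) 1` has `a = ap` and `l = lp` on `S` (`t = 1` as `0 = l ap`... : `l` vanishes at `a`; for `a = ap`: `0 = (1 - t) lm ap`, `lm ap > 0`, so `t = 1`) or `a = am` and `l = lm`; so
`HitS j w (S.erase ap) 1 ↔ 0 < y lp`, `HitS j w (S.erase am) 1 ↔ 0 < y lm`, and the left side is `[0 < y lp] + [0 < y lm]`. `Hit (j + 1) w S` iff some `l = (1 - t) lm + t lp`, `t ∈ [0, 1]`, has `y l = (1 - t) y lm + t y lp = 0`, iff `y lp`, `y lm` have different signs (`t = y lm / (y lm - y lp)`). Check the four cases in `ZMod 2`. -/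
def SHitStep : Prop :=
  ∀ (X : Type) (D j : ℕ) (w : X → Fin D → ℝ) (S : Finset X), j < D → S.card = j + 2 → GenH j w S →
    GenH (j + 1) w S →
    ∑ a ∈ S, (if HitS j w (S.erase a) 1 then (1 : ZMod 2) else 0) = if Hit (j + 1) w S then 1 else 0

/-- **Odd on the equator implies odd count** (from `SUni`, `SHitStep`; 250 lines). Let `N_j(S)` mean `S.card = j + 1 ∧ Hit j w S` and `N_j^e(S)` mean `S.card = j + 1 ∧ HitS j w S e`, `e = 1, -1`. PROOF. CLAIM for `j ≤ D`, by induction: `cnt N_j (φ j) = 1`. `j = 0`: on sets with one element `{x}` (the support of `φ 0`, `BU.Sp`) `Hit 0` is true (`l = 1`), so on these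
`cnt N_0 (single {x} 1) = 1` = the coefficient of `∅` in `bd (single {x} 1)`; two linear maps which agree on the basis of `Sp` agree on `φ 0` (`BU.eq_of_basis`, with the linear map `c ↦ (BU.bd c) ∅`), and `(BU.bd (φ 0)) ∅ = 1`. STEP `j → j + 1`, `j < D`. (a) For a set `S` with property `P (j + 1)` (`card = j + 2`):
`cnt N_j^1 (bd S) = ∑ a ∈ S, [HitS j w (S.erase a) 1] = [Hit (j + 1) w S] = cnt N_(j+1) (single S 1)` (`SHitStep`), hence `cnt N_(j+1) (φ (j + 1)) = cnt N_j^1 (bd (φ (j + 1))) = cnt N_j^1 (φ j) + cnt N_j^1 (push ng (φ j))`. (b) For a set `S` with property `P j` (`card = j + 1`): `push ng (single S 1) = single (S.image ng) 1`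
(`ng` is injective) and `HitS j w (S.image ng) 1 ↔ HitS j w S (-1)`, because `w (-x) = - w x` for `x ∈ S` (`hodd`, as `j < D`): reindex the sums (`Finset.sum_image`; `l' x = l (-x)`). (c) `cnt N_j (single S 1) = cnt N_j^1 (single S 1) + cnt N_j^(-1) (single S 1)`: if `S` hits then the combination `l` is unique (`SUni`), its coordinate with index `j` is not
zero (`GenH (j + 1)`, `S.card = j + 1`), so exactly one of `HitS j w S 1`, `HitS j w S (-1)` holds; if `S` does not hit, none. So `cnt N_(j+1) (φ (j + 1)) = cnt N_j^1 (φ j) + cnt N_j^(-1) (φ j) = cnt N_j (φ j) = 1`. -/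
def SDegO : Prop :=
  ∀ (M D : ℕ) (P : ℕ → Finset (Fin M → ℝ) → Prop) (φ : ℕ → BU.Ch (Fin M → ℝ)) (w : (Fin M → ℝ) → Fin D → ℝ),
    (∀ k ≤ D, φ k ∈ BU.Sp (P k)) → (∀ k S, P k S → S.card = k + 1) →
    BU.bd (φ 0) = Finsupp.single ∅ 1 → (∀ k < D, BU.bd (φ (k + 1)) = φ k + BU.push BU.ng (φ k)) →
    (∀ k ≤ D, ∀ S, P k S → ∀ j ≤ D, GenH j w S) →
    (∀ k < D, ∀ S, P k S → ∀ x ∈ S, w (-x) = -w x) →
    cnt (fun S => S.card = D + 1 ∧ Hit D w S) (φ D) = 1

/-- **Generic values** (200 lines). Here `E x` means `∀ i : Fin M, D ≤ (i : ℕ) → x i = 0`. PROOF. Enlarge `Γ` by the identity. Claim by induction on the size of a set `R ⊆ V` which contains no pair `x, -x` of points (`x ≠ 0`): there is `w` with `‖w x - t x‖ < ε` for `x ∈ R` and (★) for every `T ⊆ R`, every `c` with `c x ∈ Γ` and every `j ≤ D` with `T.card ≤ j` the vectors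
`(fun i : Fin j => (c x (w x)) i)`, `x ∈ T`, (first `j` coordinates) are linearly independent (`LinearIndepOn`). STEP: add `x` to `R`. For every `j ≤ D` with `1 ≤ j`, every `T ⊆ R` with `T.card ≤ j - 1`, all choices `c` on `T` (only finitely many matter: functions from `R` to `Γ`) and `γ ∈ Γ` the set of the `v` such that the first `j` coordinates of `γ v` are in
the span of the `T.card` vectors of `T` is a proper subspace of `Fin D → ℝ`: the map `v ↦ first j coordinates of γ v` is surjective onto `Fin j → ℝ` and the span has dimension `≤ j - 1`. The complement of a proper subspace is open and dense (as in `GenV.lean` of `Lib/MP_aafd8a_gt`: proper subspaces have empty interior, closed in finite dimension), so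
`w x` can be chosen in the ball around `t x` outside these finitely many subspaces; then (★) holds for `R ∪ {x}` (`LinearIndepOn.insert`). END: let `R ⊆ V` contain all `x ∈ V` without `E x` and exactly one of `x, -x` for every `x ∈ V` with `E x` (for instance by a second induction over the pairs, or: choose a linear order on a finite type, or use
`Finset.exists_maximal` for the property of containing no pair), and define `w (-x) = - w x` for `x ∈ R` with `E x` (`-x ∈ V`, `t (-x) = - t x`, so `‖w (-x) - t (-x)‖ < ε`). GEN: let `S ⊆ V` contain no pair `x, -x`, `T ⊆ S`, `T.card ≤ j`, and suppose `Hit j (fun x => c x (w x)) T` with the coefficients `l`. Replace every `x ∈ T` which is not in `R` by `-x ∈ R`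
(and `w x` by `- w (-x)`): the first `j` coordinates of `∑ ± l x • c x (w _)` vanish, by (★) all `l x = 0`, contradicting `∑ l x = 1`. -/
def SGenG : Prop :=
  ∀ (M D : ℕ) (V : Finset (Fin M → ℝ)) (Γ : Finset ((Fin D → ℝ) ≃ₗ[ℝ] (Fin D → ℝ))) (t : (Fin M → ℝ) → Fin D → ℝ) (ε : ℝ),
    0 < ε → (∀ x ∈ V, x ≠ 0) →
    (∀ x ∈ V, (∀ i : Fin M, D ≤ (i : ℕ) → x i = 0) → -x ∈ V ∧ t (-x) = -t x) →
    ∃ w : (Fin M → ℝ) → Fin D → ℝ, (∀ x ∈ V, ‖w x - t x‖ < ε) ∧
      (∀ x ∈ V, (∀ i : Fin M, D ≤ (i : ℕ) → x i = 0) → w (-x) = -w x) ∧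
      ∀ (S : Finset (Fin M → ℝ)) (c : (Fin M → ℝ) → ((Fin D → ℝ) ≃ₗ[ℝ] (Fin D → ℝ))), S ⊆ V → (∀ x ∈ S, -x ∉ S) →
        (∀ x ∈ S, c x ∈ Γ ∨ c x = LinearEquiv.refl ℝ _) → ∀ j ≤ D, GenH j (fun x => c x (w x)) S

/-! ## The parity theorem -/

/-- **PARITY THEOREM** (from `SSm`, `SHitTop`, `SDegO`, `SGenG`; 300 lines). `G` is a type of frames; `Fr x g` means that the point `x` has the frame `g`, and then `kap x g` is a vector; two frames of `x` give vectors which differ by the linear map `γ g g'` (H1), with the cocycle condition (H2); finitely many maps occur. PROOF. `M = D + 2`. Let `Cγ ≥ 1` be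
such that `‖γ g g' v‖ ≤ Cγ ‖v‖` and `‖v‖ ≤ Cγ ‖γ g g' v‖` for all `g, g', v` (finite range; continuity of linear maps and of their inverses in finite dimension). `ν₂ > 0` with `ν₂ ≤ ‖(1 - t) • pr x + t • kB x‖` for `Bot x`, `a₀ ≤ ‖pr x‖`, `t ∈ [0, 1]`: compactness; the vector is not zero: for `t = 0` because `a₀ > 0`, for `t > 0` it would give
`kB x = - ((1 - t) / t) • pr x`, excluded by (H7). Let `ε > 0` be small: `4 Cγ ε (1 + Cγ) < min ν₂, min η₁, min ν` and `4 ε (1 + Cγ) < a₀` (all that is needed below). `δ > 0` from (H3) for `ε`, and `δ < δ₁`, `δ ≤ ε`, and `dist x y ≤ δ → ‖kB x - kB y‖ < ε` for `x, y` in the compact set `Bot` (Heine). `φ` from `SSm` for `M`, `δ / 2`. Let `V` be a finite set containing all points of all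
sets in the supports of `φ k`, `k ≤ D + 1`, and their negatives. BASE FRAMES AND TARGETS: `g_x = g₀` if `Bot x` or if `x` has no frame, otherwise `g_x` is some frame of `x`; `t x = pr x` if `Bot x`, else `t x = kap x g_x` if `x` has a frame, `0` otherwise. If `Bot x` and `x` has a frame then `g₀` is a frame of `x` (H5), so `g_x` is a frame of `x` whenever `x` has one.
EQUATOR: the points with `x i = 0` for `i ≥ D` and `∑ |x i| = 1` satisfy `Bot`, and so do their negatives, `t (-x) = - t x`. (For the hypotheses of `SGenG` for points of `V` outside the sphere: there are none, all points of `V` have `∑ |x i| = 1`, in particular `x ≠ 0`, by `BU.Good`.) `w` from `SGenG`, `Γ` = the range of `γ`. `val x g = γ g_x g (w x)`.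
`NF S` means `S.card = D + 1 ∧ ∃ g, (∀ x ∈ S, Fr x g) ∧ Hit D (fun x => val x g) S`. The sets occurring in the chains contain no pair `x, -x` (their points lie in one facet of the cross polytope and are not `0`; `BU.Good`).
(A) VALUES: if all points of `S` have the frame `g`: `‖val x g - kap x g‖ ≤ Cγ ε` for `x ∈ S`, not `Bot x` ((H1): `γ g_x g (kap x g_x) = kap x g`), and `‖val x g - γ g₀ g (pr x)‖ ≤ Cγ ε` if `Bot x`.
(B) CHANGE OF FRAME: if all `x ∈ S` have the frames `g, g'` then `val x g' = γ g g' (val x g)` ((H2) for `g_x, g, g'`), so `Hit D (val · g) S ↔ Hit D (val · g') S` (linear bijection; `Hit D` says that the combination is the zero vector).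
(C) If `NF S` with frame `g`, and `S` is small (distances `≤ δ / 2`, all points `Hem`), then there is a `g'` which is a frame of every `y` with `Hem y` and `dist x₀ y < δ₁`, for some `x₀ ∈ S`. Let `0 = ∑ l x • val x g`. CASE 1: no `Bot` point in `S`. Fix `x₀ ∈ S`: `‖kap x g - kap x₀ g‖ < ε` (H3), so `‖kap x₀ g‖ ≤ ε + Cγ ε < η₁` and (H4) applies. CASE 2: `x₀ ∈ S`, `Bot x₀`;
`kap x₀ g = γ g₀ g (kB x₀)` (H1, H5). With `τ` = the sum of the `l x` over the points without `Bot`: `‖γ g₀ g ((1 - τ) • pr x₀ + τ • kB x₀)‖ ≤ Cγ ε + ε + Cγ ε`, so `‖(1 - τ) • pr x₀ + τ • kB x₀‖ ≤ Cγ (2 Cγ ε + ε) < ν₂`, hence `‖pr x₀‖ < a₀`; by (H6) `g₀` is a frame of `x₀` and `‖kap x₀ g₀‖ = ‖kB x₀‖ < η₁`, (H4) applies.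
(D) `cnt NF (bd S) = 0` for every `S` in the support of `φ (D + 1)` (`card = D + 2`, small, `Hem`): if all points of `S` have a common frame `g` then by (B) `NF (S.erase a) ↔ Hit D (val · g) (S.erase a)` and `SHitTop` applies (`GenH D` by `SGenG` with `c x = γ g_x g`). Otherwise no facet has `NF`, by (C) (all points of `S` are at distance `< δ₁` from `x₀`). So
`0 = cnt NF (bd (φ (D + 1))) = cnt NF (φ D) + cnt NF (push ng (φ D))`. (E) For `S` in the support of `φ D` (all points `Bot`): `NF S ↔ Hit D w S`. `→`: by (B)-like linearity, `val x g = γ g₀ g (w x)` with the same `g₀` for all `x`. `←`: `0 = ∑ l x • w x` gives `‖pr x₀‖ ≤ 2 ε < a₀`, so by (H6), (H4) there is a common frame `g'`, `val x g' = γ g₀ g' (w x)`.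
So `cnt NF (φ D) = cnt (card = D + 1 ∧ Hit D w) (φ D) = 1` by `SDegO` (`P k S = Fine M (δ / 2) k S` and `S ⊆ V`; `GenH` by `SGenG` with `c x = refl`; for `k < D` the points of `S` are on the equator and in `V`). (F) `cnt NF (push ng (φ D)) = 0`: let `S = S₀.image ng`, `S₀` in the support of `φ D`; all points of `S` satisfy `Low`. Suppose `NF S` with `g`. If no point
is `Bot`: as in (C) `‖kap x₀ g‖ ≤ ε + Cγ ε < ν`, contradicting (H8). If `x₀ ∈ S` is `Bot`, then it is on the equator (`lst (ini x₀) = 0`) and by (C) `‖pr x₀‖ < a₀ < 1 / D`, but `1 = ∑ i, |x₀ i| = ∑ |pr x₀ i| ≤ D ‖pr x₀‖`: contradiction. Now (D) gives `0 = 1 + 0`. -/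
def SPar : Prop :=
  ∀ (D : ℕ), 1 ≤ D → ∀ (G : Type) (Fr : (Fin (D + 2) → ℝ) → G → Prop) (kap : (Fin (D + 2) → ℝ) → G → Fin D → ℝ)
    (γ : G → G → ((Fin D → ℝ) ≃ₗ[ℝ] (Fin D → ℝ))) (g₀ : G) (kB : (Fin (D + 2) → ℝ) → Fin D → ℝ) (η₁ δ₁ a₀ ν : ℝ),
    0 < η₁ → 0 < δ₁ → 0 < a₀ → a₀ < 1 / D → 0 < ν → (Set.range fun p : G × G => γ p.1 p.2).Finite →
    -- H1
    (∀ x g g', Fr x g → Fr x g' → kap x g' = γ g g' (kap x g)) →
    -- H2
    (∀ x g g' g'', Fr x g → Fr x g' → Fr x g'' → ∀ v, γ g' g'' (γ g g' v) = γ g g'' v) →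
    -- H3
    (∀ ε > 0, ∃ δ > 0, ∀ x y g, Hem x → Hem y → dist x y < δ → Fr x g → Fr y g → ‖kap x g - kap y g‖ < ε) →
    -- H4
    (∀ x g, Hem x → Fr x g → ‖kap x g‖ < η₁ → ∃ g', ∀ y, Hem y → dist x y < δ₁ → Fr y g') →
    -- H5
    ContinuousOn kB {x | Bot x} → (∀ x g, Bot x → Fr x g → Fr x g₀ ∧ kap x g₀ = kB x) →
    -- H6
    (∀ x, Bot x → ‖pr x‖ ≤ a₀ → Fr x g₀ ∧ ‖kB x‖ < η₁) →
    -- H7
    (∀ x (s : ℝ), Bot x → a₀ ≤ ‖pr x‖ → 0 ≤ s → kB x ≠ -(s • pr x)) →
    -- H8
    (∀ x g, Low x → Fr x g → ν ≤ ‖kap x g‖) →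
    False

end Pool.Agent.MPaafd8aB
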