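import Pool.Agent.Lib.MP_aafd8a_gt.Spec3
import Pool.Agent.Lib.MP_aafd8a_gt.B.SpecT

/-!
# MP_aafd8a_gt, block (B): definitions

`s = √2`, `cs = 1 - s / 2` is the critical value. `vv x0 x1 x2 x3` is the vector with weighted coordinates,
`⟪vv x, vv y⟫ = (5 - 3 s)(x0 y0 + x1 y1) + (s / 4) x2 y2 + (1 - s / 4) x3 y3`.

* `aa i`, `bb j` (`i, j : Fin 6`): the two dual double pyramids over a square, unit vectors with `⟪aa i, bb j⟫ = cs` for the 26
  contacts `ct i j` and `⟪aa i, bb j⟫ < 0` otherwise.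
* `ww i j`: the stress, `lam i`: `∑ j, ww i j • bb j = lam i • aa i`, `∑ i, ww i j • aa i = lam j • bb j`.
* `Lc u v i j = ⟪u i, bb j⟫ + ⟪aa i, v j⟫`: first variation of the contact values for the displacements `u`, `v`.
* `zz v`: five functions of the Gram matrix of `v : Fin 6 → Eu 3` which vanish for `v = aa`, `dz u` their derivative at `aa`.
* `Qs u v`: the second order form of the stress.
* `ms α p i`, `bc α p i`: mass and barycenter of the cluster with the label `i`, `α` a labelling of points.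
* `lbA r g v`, `lbB r g v`: the label of the point `v` for the frame `g`.
* `Frm r g p q`: `g` is a frame of the pair `(p, q)` of weights; `kp r g p q`: the vector of a framed pair.
* `dl p p'`: the distance of two weights.
-/

set_option autoImplicit false

open Topology RealInnerProductSpace

open scoped Classical

namespace Pool.Agent.MPaafd8aB

open Pool.Agent.MPaafd8a

/-- The critical value. -/
noncomputable def cs : ℝ := 1 - √2 / 2

/-- The vector with the weighted coordinates `x0, x1, x2, x3`. -/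
noncomputable def vv (x0 x1 x2 x3 : ℝ) : Eu 3 :=
  !₂[√(5 - 3 * √2) * x0, √(5 - 3 * √2) * x1, √(√2 / 4) * x2, √(1 - √2 / 4) * x3]

/-- The first double pyramid. -/
noncomputable def aa : Fin 6 → Eu 3 :=
  ![vv 1 0 (2 * √2 - 2) 0, vv 0 1 (2 * √2 - 2) 0, vv (-1) 0 (2 * √2 - 2) 0, vv 0 (-1) (2 * √2 - 2) 0,
    vv 0 0 (-1) 1, vv 0 0 (-1) (-1)]

/-- The second double pyramid. -/
noncomputable def bb : Fin 6 → Eu 3 :=
  ![vv (√2 / 2) (√2 / 2) (2 - 2 * √2) 0, vv (-(√2 / 2)) (√2 / 2) (2 - 2 * √2) 0,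
    vv (-(√2 / 2)) (-(√2 / 2)) (2 - 2 * √2) 0, vv (√2 / 2) (-(√2 / 2)) (2 - 2 * √2) 0,
    vv 0 0 1 (-1), vv 0 0 1 1]

/-- The contacts. -/
def ct : Fin 6 → Fin 6 → Bool :=
  ![![true, false, false, true, true, true], ![true, true, false, false, true, true],
    ![false, true, true, false, true, true], ![false, false, true, true, true, true],
    ![true, true, true, true, false, true], ![true, true, true, true, true, false]]

/-- The stress. -/
noncomputable def ww (i j : Fin 6) : ℝ :=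
  if ct i j = false then 0
  else if (i : ℕ) < 4 ∧ (j : ℕ) < 4 then (2 + √2) / 8
  else if (i : ℕ) < 4 ∨ (j : ℕ) < 4 then (1 + √2) / 4
  else 1

/-- The multipliers of the stress. -/
noncomputable def lam (i : Fin 6) : ℝ := if (i : ℕ) < 4 then (1 + √2) / 4 else 1

/-- The first variation of the contact values. -/
noncomputable def Lc (u v : Fin 6 → Eu 3) (i j : Fin 6) : ℝ := ⟪u i, bb j⟫ + ⟪aa i, v j⟫

/-- The second order form of the contact `i, j`. -/
noncomputable def Qc (u v : Fin 6 → Eu 3) (i j : Fin 6) : ℝ := ⟪u i, v j⟫ - cs * (‖u i‖ ^ 2 + ‖v j‖ ^ 2) / 2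

/-- Five functions of the Gram matrix. -/
noncomputable def zz (v : Fin 6 → Eu 3) : Fin 5 → ℝ :=
  ![⟪v 4, v 5⟫ + cs, ⟪v 4 + v 5, v 0 - v 2⟫, ⟪v 4 + v 5, v 1 - v 3⟫, ⟪v 4 - v 5, v 0 - v 2⟫, ⟪v 4 - v 5, v 1 - v 3⟫]

/-- The derivative of `zz` at `aa`. -/
noncomputable def dz (u : Fin 6 → Eu 3) : Fin 5 → ℝ :=
  ![⟪u 4, aa 5⟫ + ⟪aa 4, u 5⟫, ⟪u 4 + u 5, aa 0 - aa 2⟫ + ⟪aa 4 + aa 5, u 0 - u 2⟫,
    ⟪u 4 + u 5, aa 1 - aa 3⟫ + ⟪aa 4 + aa 5, u 1 - u 3⟫, ⟪u 4 - u 5, aa 0 - aa 2⟫ + ⟪aa 4 - aa 5, u 0 - u 2⟫,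
    ⟪u 4 - u 5, aa 1 - aa 3⟫ + ⟪aa 4 - aa 5, u 1 - u 3⟫]

/-- Tangential displacements. -/
def Tng (u v : Fin 6 → Eu 3) : Prop := (∀ i, ⟪aa i, u i⟫ = 0) ∧ ∀ j, ⟪bb j, v j⟫ = 0

/-- The linear isometries of the ambient space: the frames. -/
abbrev Iso3 : Type := Eu 3 ≃ₗᵢ[ℝ] Eu 3

/-- The mass of the cluster with the label `i`. -/
noncomputable def ms (α : Sph 3 → Fin 6) (p : Sph 3 →₀ ℝ) (i : Fin 6) : ℝ :=
  ∑ v ∈ p.support, if α v = i then p v else 0

/-- The barycenter of the cluster with the label `i`. -/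
noncomputable def bc (α : Sph 3 → Fin 6) (p : Sph 3 →₀ ℝ) (i : Fin 6) : Eu 3 :=
  (ms α p i)⁻¹ • ∑ v ∈ p.support, if α v = i then p v • (v : Eu 3) else 0

/-- The label of `v` in the frame `g`, first kind. -/
noncomputable def lbA (r : ℝ) (g : Iso3) (v : Sph 3) : Fin 6 :=
  if h : ∃ i, dist (v : Eu 3) (g (aa i)) < r then h.choose else 0

/-- The label of `v` in the frame `g`, second kind. -/
noncomputable def lbB (r : ℝ) (g : Iso3) (v : Sph 3) : Fin 6 :=
  if h : ∃ j, dist (v : Eu 3) (g (bb j)) < r then h.choose else 0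

/-- `g` is a frame of the pair `(p, q)`: the supports are near the points `g (aa i)`, `g (bb j)` and all clusters have masses
near `1 / 6`. -/
def Frm (r : ℝ) (g : Iso3) (p q : Sph 3 →₀ ℝ) : Prop :=
  (∀ v, 0 < p v → ∃ i, dist (v : Eu 3) (g (aa i)) < r) ∧ (∀ v, 0 < q v → ∃ j, dist (v : Eu 3) (g (bb j)) < r) ∧
    (∀ i, |ms (lbA r g) p i - 1 / 6| < 1 / 12) ∧ ∀ j, |ms (lbB r g) q j - 1 / 6| < 1 / 12

/-- Fifteen coordinates. -/
def mk15 (P Q Z : Fin 5 → ℝ) (k : Fin 15) : ℝ :=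
  if h : (k : ℕ) < 5 then P ⟨k, h⟩ else if h' : (k : ℕ) < 10 then Q ⟨(k : ℕ) - 5, by omega⟩ else Z ⟨(k : ℕ) - 10, by omega⟩

/-- The vector of a framed pair: five masses of `p`, five masses of `q` and the five functions `zz`. -/
noncomputable def kp (r : ℝ) (g : Iso3) (p q : Sph 3 →₀ ℝ) : Fin 15 → ℝ :=
  mk15 (fun i => ms (lbA r g) p i.castSucc - 1 / 6) (fun j => ms (lbB r g) q j.castSucc - 1 / 6)
    (zz (bc (lbA r g) p))

/-- The distance of two weights. -/
noncomputable def dl (p p' : Sph 3 →₀ ℝ) : ℝ := (p - p').sum fun _ a => |a|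

/-- The five coordinates number `0` to `4`. -/
def xP (x : Fin 15 → ℝ) (i : Fin 5) : ℝ := x ⟨i, by omega⟩

/-- The five coordinates number `5` to `9`. -/
def xQ (x : Fin 15 → ℝ) (i : Fin 5) : ℝ := x ⟨5 + i, by omega⟩

/-- The five coordinates number `10` to `14`. -/
def xZ (x : Fin 15 → ℝ) (i : Fin 5) : ℝ := x ⟨10 + i, by omega⟩

/-- Six numbers with sum one: `1 / 6 + y i` and the last one. -/
noncomputable def six (y : Fin 5 → ℝ) : Fin 6 → ℝ := Fin.snoc (fun i : Fin 5 => 1 / 6 + y i) (1 / 6 - ∑ i, y i)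

/-- The unit ball of the sup norm. -/
abbrev Ball (D : ℕ) : Type := Metric.closedBall (0 : Fin D → ℝ) 1

end Pool.Agent.MPaafd8aB
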