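import Pool.Agent.Lib.BorsukUlam.Spec

/-!
# MP_aafd8a_gt, block (B), combinatorial part: definitions

* `cnt Q`: the number modulo two of the sets of a chain which have the property `Q`.
* `Hit j w S`: some convex combination of the vectors `w s`, `s ∈ S`, has vanishing coordinates with index `< j`;
  `HitS j w S e`: moreover its coordinate with index `j` has the sign of `e`.
* `GenH j w S`: no subset of `S` with at most `j` elements hits in this sense.
* `Fine M δ k S`: `S` is `Good M δ (k + 1)` and lies in the `k`-th hemisphere `x_j = 0` for `j > k`, `x_k ≥ 0`.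
* `lst x`, `ini x`: last coordinate and the other coordinates.
* `Hem D`: the closed upper hemisphere of the sphere `∑ |x_i| = 1` in `Fin (D + 2) → ℝ`; `Bot x`, `Low x`: the upper and the
  lower half of its boundary sphere; `pr x`: the first `D` coordinates.
-/

set_option autoImplicit false

open scoped Classical

namespace Pool.Agent.MPaafd8aB

/-- The number modulo two of the sets of the chain with the property `Q`. -/
noncomputable def cnt {X : Type} (Q : Finset X → Prop) : BU.Ch X →ₗ[ZMod 2] ZMod 2 :=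
  Finsupp.linearCombination (ZMod 2) (fun S : Finset X => if Q S then (1 : ZMod 2) else 0)

theorem cnt_single {X : Type} (Q : Finset X → Prop) (S : Finset X) :
    cnt Q (Finsupp.single S (1 : ZMod 2)) = if Q S then 1 else 0 := by
  unfold cnt
  rw [Finsupp.linearCombination_single, one_smul]

/-- Some convex combination of the vectors has vanishing coordinates with index `< j`. -/
def Hit {X : Type} {D : ℕ} (j : ℕ) (w : X → Fin D → ℝ) (S : Finset X) : Prop :=
  ∃ l : X → ℝ, (∀ s ∈ S, 0 ≤ l s) ∧ ∑ s ∈ S, l s = 1 ∧ ∀ i : Fin D, (i : ℕ) < j → ∑ s ∈ S, l s * w s i = 0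

/-- Some convex combination of the vectors has vanishing coordinates with index `< j`, and its coordinate with index `j`
has the sign of `e`. -/
def HitS {X : Type} {D : ℕ} (j : ℕ) (w : X → Fin D → ℝ) (S : Finset X) (e : ℝ) : Prop :=
  ∃ l : X → ℝ, (∀ s ∈ S, 0 ≤ l s) ∧ ∑ s ∈ S, l s = 1 ∧ (∀ i : Fin D, (i : ℕ) < j → ∑ s ∈ S, l s * w s i = 0) ∧
    ∀ i : Fin D, (i : ℕ) = j → 0 < e * ∑ s ∈ S, l s * w s i

/-- No subset with at most `j` elements hits. -/
def GenH {X : Type} {D : ℕ} (j : ℕ) (w : X → Fin D → ℝ) (S : Finset X) : Prop :=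
  ∀ T : Finset X, T ⊆ S → T.card ≤ j → ¬ Hit j w T

/-- A fine set of `k + 1` points in the `k`-th hemisphere. -/
def Fine (M : ℕ) (δ : ℝ) (k : ℕ) (S : Finset (Fin M → ℝ)) : Prop :=
  BU.Good M δ (k + 1) S ∧ ∀ x ∈ S, (∀ j : Fin M, k < (j : ℕ) → x j = 0) ∧ ∀ j : Fin M, (j : ℕ) = k → 0 ≤ x j

/-- The last coordinate. -/
def lst {D : ℕ} (x : Fin (D + 1) → ℝ) : ℝ := x (Fin.last D)

/-- All coordinates but the last one. -/
def ini {D : ℕ} (x : Fin (D + 1) → ℝ) : Fin D → ℝ := fun i => x i.castSucc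

/-- The closed upper hemisphere. -/
def Hem {D : ℕ} (x : Fin (D + 2) → ℝ) : Prop := ∑ i, |x i| = 1 ∧ 0 ≤ lst x

/-- The upper half of the boundary sphere. -/
def Bot {D : ℕ} (x : Fin (D + 2) → ℝ) : Prop := ∑ i, |x i| = 1 ∧ lst x = 0 ∧ 0 ≤ lst (ini x)

/-- The lower half of the boundary sphere. -/
def Low {D : ℕ} (x : Fin (D + 2) → ℝ) : Prop := ∑ i, |x i| = 1 ∧ lst x = 0 ∧ lst (ini x) ≤ 0

/-- The first `D` coordinates. -/
def pr {D : ℕ} (x : Fin (D + 2) → ℝ) : Fin D → ℝ := ini (ini x)

end Pool.Agent.MPaafd8aB
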