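import Pool.Agent.Lib.MP_aafd8a_gt.B.SpecD

/-!
# MP_aafd8a_gt, block (B): infinitesimal rigidity (`pKer : SVv → SKer`)
-/

set_option autoImplicit false

open Topology RealInnerProductSpace

namespace Pool.Agent.MPaafd8aB

open Pool.Agent.MPaafd8a

namespace Ker

theorem vv_smul (a x0 x1 x2 x3 : ℝ) : a • vv x0 x1 x2 x3 = vv (a * x0) (a * x1) (a * x2) (a * x3) := by
  ext i
  fin_cases i <;> simp [vv] <;> ring

theorem vv_add (x0 x1 x2 x3 y0 y1 y2 y3 : ℝ) :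
    vv x0 x1 x2 x3 + vv y0 y1 y2 y3 = vv (x0 + y0) (x1 + y1) (x2 + y2) (x3 + y3) := by
  ext i
  fin_cases i <;> simp [vv] <;> ring

theorem vv_sub (x0 x1 x2 x3 y0 y1 y2 y3 : ℝ) :
    vv x0 x1 x2 x3 - vv y0 y1 y2 y3 = vv (x0 - y0) (x1 - y1) (x2 - y2) (x3 - y3) := by
  ext i
  fin_cases i <;> simp [vv] <;> ring

theorem vv_zero : vv 0 0 0 0 = 0 := by
  ext i
  fin_cases i <;> simp [vv]

/-- The skew operator of two vectors. -/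
noncomputable def wd (e f : Eu 3) : Eu 3 →L[ℝ] Eu 3 := (innerSL ℝ e).smulRight f - (innerSL ℝ f).smulRight e

theorem wd_apply (e f x : Eu 3) : wd e f x = ⟪e, x⟫ • f - ⟪f, x⟫ • e := rfl

theorem wd_skew (e f x y : Eu 3) : ⟪wd e f x, y⟫ = -⟪x, wd e f y⟫ := by
  rw [wd_apply, wd_apply, inner_sub_left, inner_sub_right, real_inner_smul_left, real_inner_smul_left,
    real_inner_smul_right, real_inner_smul_right, real_inner_comm x e, real_inner_comm x f, real_inner_comm y e,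
    real_inner_comm y f]
  ring

/-- The skew operator with six parameters. -/
noncomputable def KK (a b c d e f : ℝ) : Eu 3 →L[ℝ] Eu 3 :=
  a • wd (vv 0 1 0 0) (vv 1 0 0 0) + b • wd (vv 0 0 1 0) (vv 1 0 0 0) + c • wd (vv 0 0 0 1) (vv 1 0 0 0) +
    d • wd (vv 0 0 1 0) (vv 0 1 0 0) + e • wd (vv 0 0 0 1) (vv 0 1 0 0) + f • wd (vv 0 0 0 1) (vv 0 0 1 0)

theorem KK_apply (a b c d e f : ℝ) (x : Eu 3) : KK a b c d e f x =
    a • wd (vv 0 1 0 0) (vv 1 0 0 0) x + b • wd (vv 0 0 1 0) (vv 1 0 0 0) x + c • wd (vv 0 0 0 1) (vv 1 0 0 0) x +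
    d • wd (vv 0 0 1 0) (vv 0 1 0 0) x + e • wd (vv 0 0 0 1) (vv 0 1 0 0) x + f • wd (vv 0 0 0 1) (vv 0 0 1 0) x := rfl

theorem KK_skew (a b c d e f : ℝ) (x y : Eu 3) : ⟪KK a b c d e f x, y⟫ = -⟪x, KK a b c d e f y⟫ := by
  simp only [KK_apply, inner_add_left, inner_add_right, real_inner_smul_left, real_inner_smul_right]
  rw [wd_skew, wd_skew, wd_skew, wd_skew, wd_skew, wd_skew]
  ring

/-- The numbers of the inner product. -/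
def IP : Prop := ∀ x0 x1 x2 x3 y0 y1 y2 y3 : ℝ, ⟪vv x0 x1 x2 x3, vv y0 y1 y2 y3⟫ =
    (5 - 3 * √2) * (x0 * y0 + x1 * y1) + √2 / 4 * (x2 * y2) + (1 - √2 / 4) * (x3 * y3)

theorem KK_vv (hip : IP) (a b c d e f x0 x1 x2 x3 : ℝ) : KK a b c d e f (vv x0 x1 x2 x3) =
    vv (a * ((5 - 3 * √2) * x1) + b * (√2 / 4 * x2) + c * ((1 - √2 / 4) * x3))
      (-(a * ((5 - 3 * √2) * x0)) + d * (√2 / 4 * x2) + e * ((1 - √2 / 4) * x3))
      (-(b * ((5 - 3 * √2) * x0)) - d * ((5 - 3 * √2) * x1) + f * ((1 - √2 / 4) * x3))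
      (-(c * ((5 - 3 * √2) * x0)) - e * ((5 - 3 * √2) * x1) - f * (√2 / 4 * x2)) := by
  rw [KK_apply]
  simp only [wd_apply, hip _ _ _ _ _ _ _ _, vv_smul, vv_sub, vv_add]
  congr 1 <;> ring

theorem skew_self (K : Eu 3 →L[ℝ] Eu 3) (hK : ∀ x y, ⟪K x, y⟫ = -⟪x, K y⟫) (x : Eu 3) : ⟪x, K x⟫ = 0 := by
  have h := hK x x
  rw [real_inner_comm] at h
  linarith

theorem core (hip : IP) (U V : Fin 6 → Fin 4 → ℝ)
    (hA : ∀ i, ⟪aa i, vv (U i 0) (U i 1) (U i 2) (U i 3)⟫ = 0)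
    (hB : ∀ j, ⟪bb j, vv (V j 0) (V j 1) (V j 2) (V j 3)⟫ = 0)
    (hC : ∀ i j, ct i j = true →
      Lc (fun i => vv (U i 0) (U i 1) (U i 2) (U i 3)) (fun j => vv (V j 0) (V j 1) (V j 2) (V j 3)) i j = 0)
    (hZ : dz (fun i => vv (U i 0) (U i 1) (U i 2) (U i 3)) = 0)
    (u40 : U 4 0 = 0) (u41 : U 4 1 = 0) (u42 : U 4 2 = 0) (u50 : U 5 0 = 0) (u51 : U 5 1 = 0) (u01 : U 0 1 = 0) :
    (∀ i k, U i k = 0) ∧ ∀ j k, V j k = 0 := by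
  have ha0 : aa 0 = vv 1 0 (2 * √2 - 2) 0 := rfl
  have ha1 : aa 1 = vv 0 1 (2 * √2 - 2) 0 := rfl
  have ha2 : aa 2 = vv (-1) 0 (2 * √2 - 2) 0 := rfl
  have ha3 : aa 3 = vv 0 (-1) (2 * √2 - 2) 0 := rfl
  have ha4 : aa 4 = vv 0 0 (-1) 1 := rfl
  have ha5 : aa 5 = vv 0 0 (-1) (-1) := rfl
  have hb0 : bb 0 = vv (√2 / 2) (√2 / 2) (2 - 2 * √2) 0 := rfl
  have hb1 : bb 1 = vv (-(√2 / 2)) (√2 / 2) (2 - 2 * √2) 0 := rfl
  have hb2 : bb 2 = vv (-(√2 / 2)) (-(√2 / 2)) (2 - 2 * √2) 0 := rfl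
  have hb3 : bb 3 = vv (√2 / 2) (-(√2 / 2)) (2 - 2 * √2) 0 := rfl
  have hb4 : bb 4 = vv 0 0 1 (-1) := rfl
  have hb5 : bb 5 = vv 0 0 1 1 := rfl
  have tA0 := hA 0
  rw [ha0, hip] at tA0
  have tA1 := hA 1
  rw [ha1, hip] at tA1
  have tA2 := hA 2
  rw [ha2, hip] at tA2
  have tA3 := hA 3
  rw [ha3, hip] at tA3
  have tA4 := hA 4
  rw [ha4, hip] at tA4
  have tA5 := hA 5
  rw [ha5, hip] at tA5
  have tB0 := hB 0
  rw [hb0, hip] at tB0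
  have tB1 := hB 1
  rw [hb1, hip] at tB1
  have tB2 := hB 2
  rw [hb2, hip] at tB2
  have tB3 := hB 3
  rw [hb3, hip] at tB3
  have tB4 := hB 4
  rw [hb4, hip] at tB4
  have tB5 := hB 5
  rw [hb5, hip] at tB5
  have c00 := hC 0 0 rfl
  simp only [Lc] at c00
  rw [ha0, hb0, hip, hip] at c00
  have c03 := hC 0 3 rfl
  simp only [Lc] at c03
  rw [ha0, hb3, hip, hip] at c03
  have c04 := hC 0 4 rfl
  simp only [Lc] at c04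
  rw [ha0, hb4, hip, hip] at c04
  have c05 := hC 0 5 rfl
  simp only [Lc] at c05
  rw [ha0, hb5, hip, hip] at c05
  have c10 := hC 1 0 rfl
  simp only [Lc] at c10
  rw [ha1, hb0, hip, hip] at c10
  have c11 := hC 1 1 rfl
  simp only [Lc] at c11
  rw [ha1, hb1, hip, hip] at c11
  have c14 := hC 1 4 rfl
  simp only [Lc] at c14
  rw [ha1, hb4, hip, hip] at c14
  have c15 := hC 1 5 rfl
  simp only [Lc] at c15
  rw [ha1, hb5, hip, hip] at c15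
  have c21 := hC 2 1 rfl
  simp only [Lc] at c21
  rw [ha2, hb1, hip, hip] at c21
  have c22 := hC 2 2 rfl
  simp only [Lc] at c22
  rw [ha2, hb2, hip, hip] at c22
  have c24 := hC 2 4 rfl
  simp only [Lc] at c24
  rw [ha2, hb4, hip, hip] at c24
  have c25 := hC 2 5 rfl
  simp only [Lc] at c25
  rw [ha2, hb5, hip, hip] at c25
  have c32 := hC 3 2 rfl
  simp only [Lc] at c32
  rw [ha3, hb2, hip, hip] at c32
  have c33 := hC 3 3 rfl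
  simp only [Lc] at c33
  rw [ha3, hb3, hip, hip] at c33
  have c34 := hC 3 4 rfl
  simp only [Lc] at c34
  rw [ha3, hb4, hip, hip] at c34
  have c35 := hC 3 5 rfl
  simp only [Lc] at c35
  rw [ha3, hb5, hip, hip] at c35
  have c40 := hC 4 0 rfl
  simp only [Lc] at c40
  rw [ha4, hb0, hip, hip] at c40
  have c41 := hC 4 1 rfl
  simp only [Lc] at c41
  rw [ha4, hb1, hip, hip] at c41
  have c42 := hC 4 2 rfl
  simp only [Lc] at c42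
  rw [ha4, hb2, hip, hip] at c42
  have c43 := hC 4 3 rfl
  simp only [Lc] at c43
  rw [ha4, hb3, hip, hip] at c43
  have c45 := hC 4 5 rfl
  simp only [Lc] at c45
  rw [ha4, hb5, hip, hip] at c45
  have c50 := hC 5 0 rfl
  simp only [Lc] at c50
  rw [ha5, hb0, hip, hip] at c50
  have c51 := hC 5 1 rfl
  simp only [Lc] at c51
  rw [ha5, hb1, hip, hip] at c51
  have c52 := hC 5 2 rfl
  simp only [Lc] at c52
  rw [ha5, hb2, hip, hip] at c52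
  have c53 := hC 5 3 rfl
  simp only [Lc] at c53
  rw [ha5, hb3, hip, hip] at c53
  have c54 := hC 5 4 rfl
  simp only [Lc] at c54
  rw [ha5, hb4, hip, hip] at c54
  have z0 : ⟪vv (U 4 0) (U 4 1) (U 4 2) (U 4 3), aa 5⟫ + ⟪aa 4, vv (U 5 0) (U 5 1) (U 5 2) (U 5 3)⟫ = 0 := congrFun hZ 0
  simp only [ha5, ha4, hip _ _ _ _ _ _ _ _] at z0
  have z1 : ⟪vv (U 4 0) (U 4 1) (U 4 2) (U 4 3) + vv (U 5 0) (U 5 1) (U 5 2) (U 5 3), aa 0 - aa 2⟫ + ⟪aa 4 + aa 5, vv (U 0 0) (U 0 1) (U 0 2) (U 0 3) - vv (U 2 0) (U 2 1) (U 2 2) (U 2 3)⟫ = 0 := congrFun hZ 1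
  simp only [ha0, ha2, ha4, ha5, vv_add, vv_sub, hip _ _ _ _ _ _ _ _] at z1
  have z2 : ⟪vv (U 4 0) (U 4 1) (U 4 2) (U 4 3) + vv (U 5 0) (U 5 1) (U 5 2) (U 5 3), aa 1 - aa 3⟫ + ⟪aa 4 + aa 5, vv (U 1 0) (U 1 1) (U 1 2) (U 1 3) - vv (U 3 0) (U 3 1) (U 3 2) (U 3 3)⟫ = 0 := congrFun hZ 2
  simp only [ha1, ha3, ha4, ha5, vv_add, vv_sub, hip _ _ _ _ _ _ _ _] at z2
  have z3 : ⟪vv (U 4 0) (U 4 1) (U 4 2) (U 4 3) - vv (U 5 0) (U 5 1) (U 5 2) (U 5 3), aa 0 - aa 2⟫ + ⟪aa 4 - aa 5, vv (U 0 0) (U 0 1) (U 0 2) (U 0 3) - vv (U 2 0) (U 2 1) (U 2 2) (U 2 3)⟫ = 0 := congrFun hZ 3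
  simp only [ha0, ha2, ha4, ha5, vv_sub, hip _ _ _ _ _ _ _ _] at z3
  have z4 : ⟪vv (U 4 0) (U 4 1) (U 4 2) (U 4 3) - vv (U 5 0) (U 5 1) (U 5 2) (U 5 3), aa 1 - aa 3⟫ + ⟪aa 4 - aa 5, vv (U 1 0) (U 1 1) (U 1 2) (U 1 3) - vv (U 3 0) (U 3 1) (U 3 2) (U 3 3)⟫ = 0 := congrFun hZ 4
  simp only [ha1, ha3, ha4, ha5, vv_sub, hip _ _ _ _ _ _ _ _] at z4
  have hs : √2 ^ 2 = 2 := Real.sq_sqrt (by norm_num)
  generalize √2 = s at *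
  have u43 : U 4 3 = 0 := by linear_combination (8/7+(2/7)*s) * tA4 + (1/7+(2/7)*s) * u42 + (((1/14)) * U 4 2 + ((1/14)) * U 4 3) * hs
  have u52 : U 5 2 = 0 := by linear_combination (0+(-1)*s) * tA5 + (0+(-1)*s) * z0 + (-1/2) * u42 + (1/2+(-1)*s) * u43 + (((-1/4)) * U 4 2 + ((1/4)) * U 4 3 + ((-1/2)) * U 5 2) * hs
  have u53 : U 5 3 = 0 := by linear_combination (-8/7+(-2/7)*s) * tA5 + (-1/7+(-2/7)*s) * u52 + (((-1/14)) * U 5 2 + ((1/14)) * U 5 3) * hs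
  have v02 : V 0 2 = 0 := by linear_combination (0+(-1)*s) * c40 + (0+(-1)*s) * c50 + (5+(-3)*s) * u40 + (5+(-3)*s) * u41 + (1+(-1)*s) * u42 + (5+(-3)*s) * u50 + (5+(-3)*s) * u51 + (1+(-1)*s) * u52 + (((5/2)+(-3/2)*s) * U 4 0 + ((5/2)+(-3/2)*s) * U 4 1 + ((1/2)+(-1/2)*s) * U 4 2 + ((5/2)+(-3/2)*s) * U 5 0 + ((5/2)+(-3/2)*s) * U 5 1 + ((1/2)+(-1/2)*s) * U 5 2 + ((-1/2)) * V 0 2) * hs
  have v03 : V 0 3 = 0 := by linear_combination (8/7+(2/7)*s) * c40 + (2+(-2)*s) * u40 + (2+(-2)*s) * u41 + (6/7+(-2/7)*s) * u42 + (1/7+(2/7)*s) * v02 + (((1)+(3/7)*s) * U 4 0 + ((1)+(3/7)*s) * U 4 1 + ((3/7)+(1/7)*s) * U 4 2 + ((1/14)) * V 0 2 + ((1/14)) * V 0 3) * hs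
  have v12 : V 1 2 = 0 := by linear_combination (0+(-1)*s) * c41 + (0+(-1)*s) * c51 + (-5+(3)*s) * u40 + (5+(-3)*s) * u41 + (1+(-1)*s) * u42 + (-5+(3)*s) * u50 + (5+(-3)*s) * u51 + (1+(-1)*s) * u52 + (((-5/2)+(3/2)*s) * U 4 0 + ((5/2)+(-3/2)*s) * U 4 1 + ((1/2)+(-1/2)*s) * U 4 2 + ((-5/2)+(3/2)*s) * U 5 0 + ((5/2)+(-3/2)*s) * U 5 1 + ((1/2)+(-1/2)*s) * U 5 2 + ((-1/2)) * V 1 2) * hs
  have v13 : V 1 3 = 0 := by linear_combination (8/7+(2/7)*s) * c41 + (-2+(2)*s) * u40 + (2+(-2)*s) * u41 + (6/7+(-2/7)*s) * u42 + (1/7+(2/7)*s) * v12 + (((-1)+(-3/7)*s) * U 4 0 + ((1)+(3/7)*s) * U 4 1 + ((3/7)+(1/7)*s) * U 4 2 + ((1/14)) * V 1 2 + ((1/14)) * V 1 3) * hs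
  have v22 : V 2 2 = 0 := by linear_combination (0+(-1)*s) * c42 + (0+(-1)*s) * c52 + (-5+(3)*s) * u40 + (-5+(3)*s) * u41 + (1+(-1)*s) * u42 + (-5+(3)*s) * u50 + (-5+(3)*s) * u51 + (1+(-1)*s) * u52 + (((-5/2)+(3/2)*s) * U 4 0 + ((-5/2)+(3/2)*s) * U 4 1 + ((1/2)+(-1/2)*s) * U 4 2 + ((-5/2)+(3/2)*s) * U 5 0 + ((-5/2)+(3/2)*s) * U 5 1 + ((1/2)+(-1/2)*s) * U 5 2 + ((-1/2)) * V 2 2) * hs
  have v23 : V 2 3 = 0 := by linear_combination (8/7+(2/7)*s) * c42 + (-2+(2)*s) * u40 + (-2+(2)*s) * u41 + (6/7+(-2/7)*s) * u42 + (1/7+(2/7)*s) * v22 + (((-1)+(-3/7)*s) * U 4 0 + ((-1)+(-3/7)*s) * U 4 1 + ((3/7)+(1/7)*s) * U 4 2 + ((1/14)) * V 2 2 + ((1/14)) * V 2 3) * hs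
  have v32 : V 3 2 = 0 := by linear_combination (0+(-1)*s) * c43 + (0+(-1)*s) * c53 + (5+(-3)*s) * u40 + (-5+(3)*s) * u41 + (1+(-1)*s) * u42 + (5+(-3)*s) * u50 + (-5+(3)*s) * u51 + (1+(-1)*s) * u52 + (((5/2)+(-3/2)*s) * U 4 0 + ((-5/2)+(3/2)*s) * U 4 1 + ((1/2)+(-1/2)*s) * U 4 2 + ((5/2)+(-3/2)*s) * U 5 0 + ((-5/2)+(3/2)*s) * U 5 1 + ((1/2)+(-1/2)*s) * U 5 2 + ((-1/2)) * V 3 2) * hs
  have v33 : V 3 3 = 0 := by linear_combination (8/7+(2/7)*s) * c43 + (2+(-2)*s) * u40 + (-2+(2)*s) * u41 + (6/7+(-2/7)*s) * u42 + (1/7+(2/7)*s) * v32 + (((1)+(3/7)*s) * U 4 0 + ((-1)+(-3/7)*s) * U 4 1 + ((3/7)+(1/7)*s) * U 4 2 + ((1/14)) * V 3 2 + ((1/14)) * V 3 3) * hs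
  have v40 : V 4 0 = 0 := by linear_combination (5/14+(3/14)*s) * c04 + (-5/14+(-3/14)*s) * c24 + (5/28+(3/28)*s) * z1 + (5/28+(3/28)*s) * z3 + (-1) * u40 + (((9/7)) * U 4 0 + ((9/7)) * V 4 0) * hs
  have v41 : V 4 1 = 0 := by linear_combination (5/14+(3/14)*s) * c14 + (-5/14+(-3/14)*s) * c34 + (5/28+(3/28)*s) * z2 + (5/28+(3/28)*s) * z4 + (-1) * u41 + (((9/7)) * U 4 1 + ((9/7)) * V 4 1) * hs
  have v50 : V 5 0 = 0 := by linear_combination (5/14+(3/14)*s) * c05 + (-5/14+(-3/14)*s) * c25 + (5/28+(3/28)*s) * z1 + (-5/28+(-3/28)*s) * z3 + (-1) * u50 + (((9/7)) * U 5 0 + ((9/7)) * V 5 0) * hs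
  have v51 : V 5 1 = 0 := by linear_combination (5/14+(3/14)*s) * c15 + (-5/14+(-3/14)*s) * c35 + (5/28+(3/28)*s) * z2 + (-5/28+(-3/28)*s) * z4 + (-1) * u51 + (((9/7)) * U 5 1 + ((9/7)) * V 5 1) * hs
  have v52 : V 5 2 = 0 := by linear_combination (0+(1)*s) * tB5 + (0+(-1)*s) * c45 + (1/2) * u42 + (-1/2+(1)*s) * u43 + (((1/4)) * U 4 2 + ((-1/4)) * U 4 3 + ((-1/2)) * V 5 2) * hs
  have v53 : V 5 3 = 0 := by linear_combination (8/7+(2/7)*s) * tB5 + (-1/7+(-2/7)*s) * v52 + (((-1/14)) * V 5 2 + ((1/14)) * V 5 3) * hs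
  have v42 : V 4 2 = 0 := by linear_combination (0+(1)*s) * tB4 + (0+(-1)*s) * c54 + (1/2) * u52 + (1/2+(-1)*s) * u53 + (((1/4)) * U 5 2 + ((1/4)) * U 5 3 + ((-1/2)) * V 4 2) * hs
  have v43 : V 4 3 = 0 := by linear_combination (-8/7+(-2/7)*s) * tB4 + (1/7+(2/7)*s) * v42 + (((1/14)) * V 4 2 + ((1/14)) * V 4 3) * hs
  have u02 : U 0 2 = 0 := by linear_combination (0+(1)*s) * c04 + (0+(1)*s) * c05 + (6+(-5)*s) * v40 + (1+(-1)*s) * v42 + (6+(-5)*s) * v50 + (1+(-1)*s) * v52 + (((-1/2)) * U 0 2 + ((3)) * V 4 0 + ((1/2)+(-1/2)*s) * V 4 2 + ((3)) * V 5 0 + ((1/2)+(-1/2)*s) * V 5 2) * hs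
  have u03 : U 0 3 = 0 := by linear_combination (-8/7+(-2/7)*s) * c04 + (1/7+(2/7)*s) * u02 + (4+(-2)*s) * v40 + (6/7+(-2/7)*s) * v42 + (((1/14)) * U 0 2 + ((1/14)) * U 0 3 + ((-6/7)) * V 4 0 + ((3/7)+(1/7)*s) * V 4 2) * hs
  have u12 : U 1 2 = 0 := by linear_combination (0+(1)*s) * c14 + (0+(1)*s) * c15 + (6+(-5)*s) * v41 + (1+(-1)*s) * v42 + (6+(-5)*s) * v51 + (1+(-1)*s) * v52 + (((-1/2)) * U 1 2 + ((3)) * V 4 1 + ((1/2)+(-1/2)*s) * V 4 2 + ((3)) * V 5 1 + ((1/2)+(-1/2)*s) * V 5 2) * hs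
  have u13 : U 1 3 = 0 := by linear_combination (-8/7+(-2/7)*s) * c14 + (1/7+(2/7)*s) * u12 + (4+(-2)*s) * v41 + (6/7+(-2/7)*s) * v42 + (((1/14)) * U 1 2 + ((1/14)) * U 1 3 + ((-6/7)) * V 4 1 + ((3/7)+(1/7)*s) * V 4 2) * hs
  have u22 : U 2 2 = 0 := by linear_combination (0+(1)*s) * z1 + (1) * u02 + (12+(-10)*s) * u40 + (12+(-10)*s) * u50 + (((1/2)) * U 0 2 + ((-1/2)) * U 2 2 + ((6)) * U 4 0 + ((6)) * U 5 0) * hs
  have u23 : U 2 3 = 0 := by linear_combination (-8/7+(-2/7)*s) * c24 + (1/7+(2/7)*s) * u22 + (-4+(2)*s) * v40 + (6/7+(-2/7)*s) * v42 + (((1/14)) * U 2 2 + ((1/14)) * U 2 3 + ((6/7)) * V 4 0 + ((3/7)+(1/7)*s) * V 4 2) * hs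
  have u32 : U 3 2 = 0 := by linear_combination (0+(1)*s) * z2 + (1) * u12 + (12+(-10)*s) * u41 + (12+(-10)*s) * u51 + (((1/2)) * U 1 2 + ((-1/2)) * U 3 2 + ((6)) * U 4 1 + ((6)) * U 5 1) * hs
  have u33 : U 3 3 = 0 := by linear_combination (-8/7+(-2/7)*s) * c34 + (1/7+(2/7)*s) * u32 + (-4+(2)*s) * v41 + (6/7+(-2/7)*s) * v42 + (((1/14)) * U 3 2 + ((1/14)) * U 3 3 + ((6/7)) * V 4 1 + ((3/7)+(1/7)*s) * V 4 2) * hs
  have u00 : U 0 0 = 0 := by linear_combination (5/7+(3/7)*s) * tA0 + (-2/7+(-1/14)*s) * u02 + (((9/7)) * U 0 0 + ((-1/7)+(-3/14)*s) * U 0 2) * hs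
  have u11 : U 1 1 = 0 := by linear_combination (5/7+(3/7)*s) * tA1 + (-2/7+(-1/14)*s) * u12 + (((9/7)) * U 1 1 + ((-1/7)+(-3/14)*s) * U 1 2) * hs
  have u20 : U 2 0 = 0 := by linear_combination (-5/7+(-3/7)*s) * tA2 + (2/7+(1/14)*s) * u22 + (((9/7)) * U 2 0 + ((1/7)+(3/14)*s) * U 2 2) * hs
  have u31 : U 3 1 = 0 := by linear_combination (-5/7+(-3/7)*s) * tA3 + (2/7+(1/14)*s) * u32 + (((9/7)) * U 3 1 + ((1/7)+(3/14)*s) * U 3 2) * hs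
  have v00 : V 0 0 = 0 := by linear_combination (5/7+(3/7)*s) * c00 + (0+(-1/2)*s) * u00 + (0+(-1/2)*s) * u01 + (2/7+(1/14)*s) * u02 + (-2/7+(-1/14)*s) * v02 + (((9/14)*s) * U 0 0 + ((9/14)*s) * U 0 1 + ((1/7)+(3/14)*s) * U 0 2 + ((9/7)) * V 0 0 + ((-1/7)+(-3/14)*s) * V 0 2) * hs
  have v01 : V 0 1 = 0 := by linear_combination (6/7+(5/7)*s) * tB0 + (-1) * v00 + (1/7+(2/7)*s) * v02 + (((-1/2)+(15/14)*s) * V 0 0 + ((-1/2)+(15/14)*s) * V 0 1 + ((1/14)+(5/14)*s) * V 0 2) * hs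
  have v30 : V 3 0 = 0 := by linear_combination (5/7+(3/7)*s) * c03 + (0+(-1/2)*s) * u00 + (0+(1/2)*s) * u01 + (2/7+(1/14)*s) * u02 + (-2/7+(-1/14)*s) * v32 + (((9/14)*s) * U 0 0 + ((-9/14)*s) * U 0 1 + ((1/7)+(3/14)*s) * U 0 2 + ((9/7)) * V 3 0 + ((-1/7)+(-3/14)*s) * V 3 2) * hs
  have v31 : V 3 1 = 0 := by linear_combination (-6/7+(-5/7)*s) * tB3 + (1) * v30 + (-1/7+(-2/7)*s) * v32 + (((1/2)+(-15/14)*s) * V 3 0 + ((-1/2)+(15/14)*s) * V 3 1 + ((-1/14)+(-5/14)*s) * V 3 2) * hs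
  have u10 : U 1 0 = 0 := by linear_combination (6/7+(5/7)*s) * c10 + (-1) * u11 + (1/7+(2/7)*s) * u12 + (0+(-1)*s) * v01 + (-1/7+(-2/7)*s) * v02 + (((-1/2)+(15/14)*s) * U 1 0 + ((-1/2)+(15/14)*s) * U 1 1 + ((1/14)+(5/14)*s) * U 1 2 + ((15/7)) * V 0 1 + ((-1/14)+(-5/14)*s) * V 0 2) * hs
  have v11 : V 1 1 = 0 := by linear_combination (5/7+(3/7)*s) * c11 + (0+(1/2)*s) * u10 + (0+(-1/2)*s) * u11 + (2/7+(1/14)*s) * u12 + (-2/7+(-1/14)*s) * v12 + (((-9/14)*s) * U 1 0 + ((9/14)*s) * U 1 1 + ((1/7)+(3/14)*s) * U 1 2 + ((9/7)) * V 1 1 + ((-1/7)+(-3/14)*s) * V 1 2) * hs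
  have v10 : V 1 0 = 0 := by linear_combination (-6/7+(-5/7)*s) * tB1 + (1) * v11 + (-1/7+(-2/7)*s) * v12 + (((-1/2)+(15/14)*s) * V 1 0 + ((1/2)+(-15/14)*s) * V 1 1 + ((-1/14)+(-5/14)*s) * V 1 2) * hs
  have u21 : U 2 1 = 0 := by linear_combination (6/7+(5/7)*s) * c21 + (1) * u20 + (1/7+(2/7)*s) * u22 + (0+(1)*s) * v10 + (-1/7+(-2/7)*s) * v12 + (((1/2)+(-15/14)*s) * U 2 0 + ((-1/2)+(15/14)*s) * U 2 1 + ((1/14)+(5/14)*s) * U 2 2 + ((-15/7)) * V 1 0 + ((-1/14)+(-5/14)*s) * V 1 2) * hs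
  have v20 : V 2 0 = 0 := by linear_combination (-5/7+(-3/7)*s) * c22 + (0+(-1/2)*s) * u20 + (0+(-1/2)*s) * u21 + (-2/7+(-1/14)*s) * u22 + (2/7+(1/14)*s) * v22 + (((9/14)*s) * U 2 0 + ((9/14)*s) * U 2 1 + ((-1/7)+(-3/14)*s) * U 2 2 + ((9/7)) * V 2 0 + ((1/7)+(3/14)*s) * V 2 2) * hs
  have v21 : V 2 1 = 0 := by linear_combination (-6/7+(-5/7)*s) * tB2 + (-1) * v20 + (-1/7+(-2/7)*s) * v22 + (((-1/2)+(15/14)*s) * V 2 0 + ((-1/2)+(15/14)*s) * V 2 1 + ((-1/14)+(-5/14)*s) * V 2 2) * hs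
  have u30 : U 3 0 = 0 := by linear_combination (-6/7+(-5/7)*s) * c32 + (-1) * u31 + (-1/7+(-2/7)*s) * u32 + (0+(-1)*s) * v21 + (1/7+(2/7)*s) * v22 + (((-1/2)+(15/14)*s) * U 3 0 + ((-1/2)+(15/14)*s) * U 3 1 + ((-1/14)+(-5/14)*s) * U 3 2 + ((15/7)) * V 2 1 + ((1/14)+(5/14)*s) * V 2 2) * hs
  refine ⟨fun i k => ?_, fun j k => ?_⟩
  · fin_cases i <;> fin_cases k <;> assumption
  · fin_cases j <;> fin_cases k <;> assumption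

end Ker

theorem pKer : SVv → SKer := by
  intro hVv u v hT hL hD
  have hip : Ker.IP := hVv.1
  choose U0 U1 U2 U3 hU using fun i => hVv.2.1 (u i)
  choose V0 V1 V2 V3 hV using fun j => hVv.2.1 (v j)
  have hs0 : 0 < √2 := Real.sqrt_pos.2 (by norm_num)
  have hs : √2 ^ 2 = 2 := Real.sq_sqrt (by norm_num)
  have h53 : 5 - 3 * √2 ≠ 0 := by
    intro h
    nlinarith
  have h4 : √2 / 4 ≠ 0 := by positivity
  have h14 : 1 - √2 / 4 ≠ 0 := by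
    intro h
    nlinarith
  -- the parameters
  set b : ℝ := -(U0 4 + U0 5) / (2 * (√2 / 4)) with hb
  set c : ℝ := (U0 4 - U0 5) / (2 * (1 - √2 / 4)) with hc
  set d : ℝ := -(U1 4 + U1 5) / (2 * (√2 / 4)) with hd
  set e : ℝ := (U1 4 - U1 5) / (2 * (1 - √2 / 4)) with he
  set f : ℝ := U2 4 / (1 - √2 / 4) with hf
  set a : ℝ := (d * (√2 / 4) * (2 * √2 - 2) - U1 0) / (5 - 3 * √2) with ha
  set K := Ker.KK a b c d e f with hK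
  have hsk : ∀ x y, ⟪K x, y⟫ = -⟪x, K y⟫ := Ker.KK_skew a b c d e f
  have hself : ∀ x, ⟪x, K x⟫ = 0 := Ker.skew_self K hsk
  refine ⟨K, hsk, ?_⟩
  -- the difference
  choose A0 A1 A2 A3 hA using fun i => hVv.2.1 (u i - K (aa i))
  choose B0 B1 B2 B3 hB using fun j => hVv.2.1 (v j - K (bb j))
  let U : Fin 6 → Fin 4 → ℝ := fun i => ![A0 i, A1 i, A2 i, A3 i]
  let V : Fin 6 → Fin 4 → ℝ := fun j => ![B0 j, B1 j, B2 j, B3 j]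
  have hUe : (fun i => vv (U i 0) (U i 1) (U i 2) (U i 3)) = fun i => u i - K (aa i) := by
    funext i
    exact (hA i).symm
  have hVe : (fun j => vv (V j 0) (V j 1) (V j 2) (V j 3)) = fun j => v j - K (bb j) := by
    funext j
    exact (hB j).symm
  have hUi : ∀ i, vv (U i 0) (U i 1) (U i 2) (U i 3) = u i - K (aa i) := fun i => congrFun hUe i
  have hVi : ∀ j, vv (V j 0) (V j 1) (V j 2) (V j 3) = v j - K (bb j) := fun j => congrFun hVe j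
  have ha4 : aa 4 = vv 0 0 (-1) 1 := rfl
  have ha5 : aa 5 = vv 0 0 (-1) (-1) := rfl
  have ha0 : aa 0 = vv 1 0 (2 * √2 - 2) 0 := rfl
  have n4 := hA 4
  rw [hU 4, ha4, hK, Ker.KK_vv hip, Ker.vv_sub] at n4
  have n5 := hA 5
  rw [hU 5, ha5, hK, Ker.KK_vv hip, Ker.vv_sub] at n5
  have n0 := hA 0
  rw [hU 0, ha0, hK, Ker.KK_vv hip, Ker.vv_sub] at n0
  obtain ⟨n40, n41, n42, -⟩ := hVv.2.2.2 _ _ _ _ _ _ _ _ n4
  obtain ⟨n50, n51, -, -⟩ := hVv.2.2.2 _ _ _ _ _ _ _ _ n5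
  obtain ⟨-, n01, -, -⟩ := hVv.2.2.2 _ _ _ _ _ _ _ _ n0
  have eb : b * (√2 / 4) = -(U0 4 + U0 5) / 2 := by
    rw [hb]
    field_simp
  have ec : c * (1 - √2 / 4) = (U0 4 - U0 5) / 2 := by
    rw [hc, div_mul_eq_mul_div, div_eq_div_iff (mul_ne_zero two_ne_zero h14) two_ne_zero]
    ring
  have ed : d * (√2 / 4) = -(U1 4 + U1 5) / 2 := by
    rw [hd]
    field_simp
  have ee : e * (1 - √2 / 4) = (U1 4 - U1 5) / 2 := by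
    rw [he, div_mul_eq_mul_div, div_eq_div_iff (mul_ne_zero two_ne_zero h14) two_ne_zero]
    ring
  have ef : f * (1 - √2 / 4) = U2 4 := by
    rw [hf, div_mul_cancel₀ _ h14]
  have ea : a * (5 - 3 * √2) = d * (√2 / 4) * (2 * √2 - 2) - U1 0 := by
    rw [ha, div_mul_cancel₀ _ h53]
  have key := Ker.core hip U V ?_ ?_ ?_ ?_ ?_ ?_ ?_ ?_ ?_ ?_
  · refine ⟨fun i => ?_, fun j => ?_⟩
    · have h := hUi i
      rw [key.1, key.1, key.1, key.1, Ker.vv_zero] at h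
      exact sub_eq_zero.1 h.symm
    · have h := hVi j
      rw [key.2, key.2, key.2, key.2, Ker.vv_zero] at h
      exact sub_eq_zero.1 h.symm
  · intro i
    rw [hUi, inner_sub_right, hT.1 i, hself, sub_zero]
  · intro j
    rw [hVi, inner_sub_right, hT.2 j, hself, sub_zero]
  · intro i j hij
    rw [hUe, hVe]
    have h := hL i j hij
    simp only [Lc] at h ⊢
    rw [inner_sub_left, inner_sub_right, hsk (aa i) (bb j)]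
    linarith
  · rw [hUe]
    have hd' : ∀ x y : Eu 3, ⟪K x, y⟫ + ⟪x, K y⟫ = 0 := fun x y => by
      rw [hsk]
      ring
    funext k
    have h := congrFun hD k
    fin_cases k
    · change ⟪u 4, aa 5⟫ + ⟪aa 4, u 5⟫ = 0 at h
      change ⟪u 4 - K (aa 4), aa 5⟫ + ⟪aa 4, u 5 - K (aa 5)⟫ = 0
      rw [inner_sub_left, inner_sub_right]
      linarith [hd' (aa 4) (aa 5)]
    · change ⟪u 4 + u 5, aa 0 - aa 2⟫ + ⟪aa 4 + aa 5, u 0 - u 2⟫ = 0 at h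
      change ⟪u 4 - K (aa 4) + (u 5 - K (aa 5)), aa 0 - aa 2⟫ + ⟪aa 4 + aa 5, u 0 - K (aa 0) - (u 2 - K (aa 2))⟫ = 0
      have e1 : u 4 - K (aa 4) + (u 5 - K (aa 5)) = (u 4 + u 5) - K (aa 4 + aa 5) := by
        rw [map_add]
        abel
      have e2 : u 0 - K (aa 0) - (u 2 - K (aa 2)) = (u 0 - u 2) - K (aa 0 - aa 2) := by
        rw [map_sub]
        abel
      rw [e1, e2, inner_sub_left, inner_sub_right (aa 4 + aa 5)]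
      linarith [hd' (aa 4 + aa 5) (aa 0 - aa 2)]
    · change ⟪u 4 + u 5, aa 1 - aa 3⟫ + ⟪aa 4 + aa 5, u 1 - u 3⟫ = 0 at h
      change ⟪u 4 - K (aa 4) + (u 5 - K (aa 5)), aa 1 - aa 3⟫ + ⟪aa 4 + aa 5, u 1 - K (aa 1) - (u 3 - K (aa 3))⟫ = 0
      have e1 : u 4 - K (aa 4) + (u 5 - K (aa 5)) = (u 4 + u 5) - K (aa 4 + aa 5) := by
        rw [map_add]
        abel
      have e2 : u 1 - K (aa 1) - (u 3 - K (aa 3)) = (u 1 - u 3) - K (aa 1 - aa 3) := by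
        rw [map_sub]
        abel
      rw [e1, e2, inner_sub_left, inner_sub_right (aa 4 + aa 5)]
      linarith [hd' (aa 4 + aa 5) (aa 1 - aa 3)]
    · change ⟪u 4 - u 5, aa 0 - aa 2⟫ + ⟪aa 4 - aa 5, u 0 - u 2⟫ = 0 at h
      change ⟪u 4 - K (aa 4) - (u 5 - K (aa 5)), aa 0 - aa 2⟫ + ⟪aa 4 - aa 5, u 0 - K (aa 0) - (u 2 - K (aa 2))⟫ = 0
      have e1 : u 4 - K (aa 4) - (u 5 - K (aa 5)) = (u 4 - u 5) - K (aa 4 - aa 5) := by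
        rw [map_sub]
        abel
      have e2 : u 0 - K (aa 0) - (u 2 - K (aa 2)) = (u 0 - u 2) - K (aa 0 - aa 2) := by
        rw [map_sub]
        abel
      rw [e1, e2, inner_sub_left, inner_sub_right (aa 4 - aa 5)]
      linarith [hd' (aa 4 - aa 5) (aa 0 - aa 2)]
    · change ⟪u 4 - u 5, aa 1 - aa 3⟫ + ⟪aa 4 - aa 5, u 1 - u 3⟫ = 0 at h
      change ⟪u 4 - K (aa 4) - (u 5 - K (aa 5)), aa 1 - aa 3⟫ + ⟪aa 4 - aa 5, u 1 - K (aa 1) - (u 3 - K (aa 3))⟫ = 0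
      have e1 : u 4 - K (aa 4) - (u 5 - K (aa 5)) = (u 4 - u 5) - K (aa 4 - aa 5) := by
        rw [map_sub]
        abel
      have e2 : u 1 - K (aa 1) - (u 3 - K (aa 3)) = (u 1 - u 3) - K (aa 1 - aa 3) := by
        rw [map_sub]
        abel
      rw [e1, e2, inner_sub_left, inner_sub_right (aa 4 - aa 5)]
      linarith [hd' (aa 4 - aa 5) (aa 1 - aa 3)]
  · change A0 4 = 0
    rw [← n40]
    linear_combination eb - ec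
  · change A1 4 = 0
    rw [← n41]
    linear_combination ed - ee
  · change A2 4 = 0
    rw [← n42]
    linear_combination -ef
  · change A0 5 = 0
    rw [← n50]
    linear_combination eb + ec
  · change A1 5 = 0
    rw [← n51]
    linear_combination ed + ee
  · change A1 0 = 0
    rw [← n01]
    linear_combination ea

end Pool.Agent.MPaafd8aB
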