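import Pool.Agent.Lib.MP_aafd8a_gt.B.SpecA

/-!
# MP_aafd8a_gt, block (B): tight frames
-/

set_option autoImplicit false

open Topology RealInnerProductSpace

open scoped Classical

namespace Pool.Agent.MPaafd8aB

open Pool.Agent.MPaafd8a

theorem pQ2 (h1 : SQ1) : SQ2 := by
  obtain ⟨C₁, hC₁, ρ₁, hρ₁, H⟩ := h1
  have hC0 : 0 < C₁ := by linarith
  refine ⟨2 * C₁, by linarith, min ρ₁ (min 1 (1 / (4 * C₁))), by positivity, ?_⟩
  intro α β g p q ε η hp hq hε hη he hdp hdq hmp hmq hcpt hz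
  set ρ₀ : ℝ := min ρ₁ (min 1 (1 / (4 * C₁))) with hρ₀
  have hρ₀0 : 0 < ρ₀ := by positivity
  have hρ₀1 : ρ₀ ≤ 1 := (min_le_right _ _).trans (min_le_left _ _)
  have hρ₀2 : ρ₀ ≤ 1 / (4 * C₁) := (min_le_right _ _).trans (min_le_right _ _)
  have hρ₀3 : ρ₀ ≤ ρ₁ := min_le_left _ _
  have hC4 : C₁ * ρ₀ ≤ 1 / 4 := by
    have h := mul_le_mul_of_nonneg_left hρ₀2 hC0.le
    have h' : C₁ * (1 / (4 * C₁)) = 1 / 4 := by field_simp
    linarith
  set e : ℝ := η + ε with hedef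
  have he0 : 0 < e := by positivity
  have he1 : e ≤ 1 := by
    have : 1 * e ≤ 2 * C₁ * e := by
      apply mul_le_mul_of_nonneg_right _ he0.le
      linarith
    linarith
  have hε1 : ε ≤ 1 := by linarith
  have hη1 : η ≤ 1 := by linarith
  have claim : ∀ k : ℕ, ∃ g' : Iso3,
      (∀ v, 0 < p v → dist (v : Eu 3) (g' (aa (α v))) ≤
        min ρ₀ (4 / 3 * (C₁ * e) + ρ₀ / 4 ^ k)) ∧
      ∀ v, 0 < q v → dist (v : Eu 3) (g' (bb (β v))) ≤
        min ρ₀ (4 / 3 * (C₁ * e) + ρ₀ / 4 ^ k) := by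
    intro k
    induction k with
    | zero =>
      refine ⟨g, fun v hv => le_min (hdp v hv) ((hdp v hv).trans ?_),
        fun v hv => le_min (hdq v hv) ((hdq v hv).trans ?_)⟩
      all_goals
        have : 0 < C₁ * e := by positivity
        simp only [pow_zero, div_one]
        linarith
    | succ k ih =>
      obtain ⟨g₁, ha, hb⟩ := ih
      set R : ℝ := min ρ₀ (4 / 3 * (C₁ * e) + ρ₀ / 4 ^ k) with hR
      have hR0 : 0 ≤ R := by
        have : 0 < C₁ * e := by positivity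
        rw [hR]
        exact le_min hρ₀0.le (by positivity)
      have hR1 : R ≤ ρ₀ := min_le_left _ _
      have hR2 : R ≤ 4 / 3 * (C₁ * e) + ρ₀ / 4 ^ k := min_le_right _ _
      obtain ⟨g', ha', hb'⟩ := H α β g₁ p q R ε η hp hq hR0 (hR1.trans hρ₀3) hε.le hε1 hη hη1
        ha hb hmp hmq hcpt hz
      have h1 : C₁ * (η + ε + R ^ 2) ≤ C₁ * e + R / 4 := by
        have h2 : C₁ * R ≤ 1 / 4 := (mul_le_mul_of_nonneg_left hR1 hC0.le).trans hC4
        have h3 : C₁ * R * R ≤ 1 / 4 * R := mul_le_mul_of_nonneg_right h2 hR0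
        calc C₁ * (η + ε + R ^ 2) = C₁ * e + C₁ * R * R := by rw [hedef]; ring
          _ ≤ C₁ * e + 1 / 4 * R := by linarith
          _ = C₁ * e + R / 4 := by ring
      have h2 : C₁ * (η + ε + R ^ 2) ≤ min ρ₀ (4 / 3 * (C₁ * e) + ρ₀ / 4 ^ (k + 1)) := by
        refine le_min ?_ ?_
        · have : C₁ * e ≤ ρ₀ / 2 := by linarith
          linarith
        · refine h1.trans ?_
          have h4 : ρ₀ / 4 ^ (k + 1) = ρ₀ / 4 ^ k / 4 := by
            rw [pow_succ]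
            field_simp
          rw [h4]
          linarith
      exact ⟨g', fun v hv => (ha' v hv).trans h2, fun v hv => (hb' v hv).trans h2⟩
  obtain ⟨k, hk⟩ : ∃ k : ℕ, ρ₀ / 4 ^ k ≤ 2 / 3 * (C₁ * e) := by
    have hx : 0 < 2 / 3 * (C₁ * e) / ρ₀ := by positivity
    obtain ⟨k, hk⟩ := exists_pow_lt_of_lt_one hx (show (1 / 4 : ℝ) < 1 by norm_num)
    refine ⟨k, ?_⟩
    have h4 : ρ₀ / 4 ^ k = ρ₀ * (1 / 4) ^ k := by
      rw [one_div, inv_pow]
      rfl
    rw [h4]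
    rw [lt_div_iff₀ hρ₀0] at hk
    linarith
  obtain ⟨g', ha, hb⟩ := claim k
  have hfin : min ρ₀ (4 / 3 * (C₁ * e) + ρ₀ / 4 ^ k) ≤ 2 * C₁ * (η + ε) := by
    refine (min_le_right _ _).trans ?_
    rw [← hedef]
    linarith
  exact ⟨g', fun v hv => (ha v hv).trans hfin, fun v hv => (hb v hv).trans hfin⟩

end Pool.Agent.MPaafd8aB
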