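import Pool.Agent.Lib.MP_aafd8a_gt.B.SpecT

/-!
# MP_aafd8a_gt, block (B): fine hemispheres with supports
-/

set_option autoImplicit false

open scoped Classical

namespace Pool.Agent.MPaafd8aB

open Pool.Agent.BU

attribute [-instance] Fintype.decidablePiFintype

private noncomputable def SmS_bary {M : ℕ} (S : Finset (Fin M → ℝ)) : Fin M → ℝ := (S.card : ℝ)⁻¹ • ∑ x ∈ S, x

private noncomputable def SmS_N {M : ℕ} : ℕ → Finset (Fin M → ℝ) → Ch (Fin M → ℝ)
  | 0, _ => Finsupp.single ∅ 1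
  | n + 1, S => cone (SmS_bary S) (∑ a ∈ S, SmS_N n (S.erase a))

private noncomputable def SmS_L (M : ℕ) : Ch (Fin M → ℝ) →ₗ[ZMod 2] Ch (Fin M → ℝ) :=
  Finsupp.linearCombination (ZMod 2) (fun S : Finset (Fin M → ℝ) => SmS_N S.card S)

private theorem SmS_single {M : ℕ} (S : Finset (Fin M → ℝ)) :
    SmS_L M (Finsupp.single S (1 : ZMod 2)) = SmS_N S.card S := by
  unfold SmS_L
  rw [Finsupp.linearCombination_single, one_smul]

private theorem SmS_empty (M : ℕ) : SmS_L M (Finsupp.single ∅ (1 : ZMod 2)) = Finsupp.single ∅ 1 := by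
  rw [SmS_single, Finset.card_empty]
  rfl

private theorem SmS_bd {M : ℕ} (S : Finset (Fin M → ℝ)) :
    SmS_L M (bd (Finsupp.single S (1 : ZMod 2))) =
      ∑ a ∈ S, SmS_L M (Finsupp.single (S.erase a) (1 : ZMod 2)) := by
  rw [bd_single, map_sum]

private theorem SmS_step {M n : ℕ} (S : Finset (Fin M → ℝ)) (h : S.card = n + 1) :
    SmS_L M (Finsupp.single S (1 : ZMod 2)) =
      cone (SmS_bary S) (SmS_L M (bd (Finsupp.single S (1 : ZMod 2)))) := by
  rw [SmS_single, h, SmS_bd]
  show cone (SmS_bary S) (∑ a ∈ S, SmS_N n (S.erase a)) = _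
  congr 1
  apply Finset.sum_congr rfl
  intro a ha
  rw [SmS_single, Finset.card_erase_of_mem ha, h, Nat.add_sub_cancel]

private theorem SmS_comm (hA : BU.SAlg) {M : ℕ} : ∀ (n : ℕ) (S : Finset (Fin M → ℝ)), S.card = n →
    bd (SmS_L M (Finsupp.single S (1 : ZMod 2))) = SmS_L M (bd (Finsupp.single S (1 : ZMod 2))) := by
  obtain ⟨hA1, _, hA3, _, _⟩ := hA
  intro n
  induction n with
  | zero =>
    intro S hS
    rw [Finset.card_eq_zero] at hS
    rw [hS, SmS_empty, bd_single, Finset.sum_empty, map_zero]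
  | succ n ih =>
    intro S hS
    have h0 : bd (SmS_L M (bd (Finsupp.single S (1 : ZMod 2)))) = 0 := by
      have h1 : bd (SmS_L M (bd (Finsupp.single S (1 : ZMod 2)))) =
          SmS_L M (bd (bd (Finsupp.single S (1 : ZMod 2)))) := by
        rw [SmS_bd, map_sum, bd_single, map_sum, map_sum]
        apply Finset.sum_congr rfl
        intro a ha
        apply ih
        rw [Finset.card_erase_of_mem ha, hS, Nat.add_sub_cancel]
      rw [h1, hA1, map_zero]
    rw [SmS_step S hS, hA3, h0, map_zero, add_zero]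

private theorem SmS_ng_inj {M : ℕ} : Function.Injective (ng : (Fin M → ℝ) → (Fin M → ℝ)) := by
  intro x y h
  exact neg_injective h

private theorem SmS_push {M : ℕ} (S : Finset (Fin M → ℝ)) :
    push ng (Finsupp.single S (1 : ZMod 2)) = Finsupp.single (S.image ng) (1 : ZMod 2) := by
  rw [push_single, if_pos (Finset.card_image_of_injective S SmS_ng_inj)]

private theorem SmS_bary_ng {M : ℕ} (S : Finset (Fin M → ℝ)) : SmS_bary (S.image ng) = ng (SmS_bary S) := by
  unfold SmS_bary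
  rw [Finset.card_image_of_injective S SmS_ng_inj, Finset.sum_image (fun a _ b _ h => SmS_ng_inj h)]
  unfold ng
  rw [Finset.sum_neg_distrib, smul_neg]

private theorem SmS_ng (hA : BU.SAlg) {M : ℕ} : ∀ (n : ℕ) (S : Finset (Fin M → ℝ)), S.card = n →
    SmS_L M (push ng (Finsupp.single S (1 : ZMod 2))) =
      push ng (SmS_L M (Finsupp.single S (1 : ZMod 2))) := by
  obtain ⟨_, hA2, _, hA4, _⟩ := hA
  intro n
  induction n with
  | zero =>
    intro S hS
    rw [Finset.card_eq_zero] at hS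
    rw [hS, SmS_push, Finset.image_empty, SmS_empty, SmS_push, Finset.image_empty]
  | succ n ih =>
    intro S hS
    have h1 : (S.image ng).card = n + 1 := by
      rw [Finset.card_image_of_injective S SmS_ng_inj, hS]
    have h2 : SmS_L M (bd (Finsupp.single (S.image ng) (1 : ZMod 2))) =
        push ng (SmS_L M (bd (Finsupp.single S (1 : ZMod 2)))) := by
      rw [← SmS_push, hA2, bd_single, map_sum, map_sum, map_sum, map_sum]
      apply Finset.sum_congr rfl
      intro a ha
      apply ih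
      rw [Finset.card_erase_of_mem ha, hS, Nat.add_sub_cancel]
    rw [SmS_push, SmS_step _ h1, h2, SmS_bary_ng, ← hA4 _ ng SmS_ng_inj, ← SmS_step S hS]

/-- The barycenter is in the convex hull. -/
private theorem SmS_bary_mem {M : ℕ} {S : Finset (Fin M → ℝ)} {n : ℕ} (h : S.card = n + 1) :
    SmS_bary S ∈ convexHull ℝ (S : Set (Fin M → ℝ)) := by
  unfold SmS_bary
  rw [Finset.smul_sum]
  have hc : (0 : ℝ) < (S.card : ℝ) := by
    rw [h]
    positivity
  apply (convex_convexHull ℝ (S : Set (Fin M → ℝ))).sum_mem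
  · intro x _
    exact (inv_pos.2 hc).le
  · rw [Finset.sum_const, nsmul_eq_mul, mul_inv_cancel₀ hc.ne']
  · intro x hx
    exact subset_convexHull ℝ _ hx

/-- The distance of the barycenter to the points of the set. -/
private theorem SmS_bary_dist {M : ℕ} {S : Finset (Fin M → ℝ)} {n : ℕ} (h : S.card = n + 1) {δ : ℝ}
    (hd : ∀ x ∈ S, ∀ y ∈ S, dist x y ≤ δ) (x : Fin M → ℝ) (hx : x ∈ S) :
    dist x (SmS_bary S) ≤ (1 - 1 / ((n : ℝ) + 1)) * δ := by
  have hc : ((n : ℝ) + 1) ≠ 0 := by positivity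
  have e1 : x - SmS_bary S = ((n : ℝ) + 1)⁻¹ • ∑ z ∈ S, (x - z) := by
    unfold SmS_bary
    rw [Finset.sum_sub_distrib, Finset.sum_const, smul_sub, h]
    rw [← Nat.cast_smul_eq_nsmul ℝ, smul_smul]
    push_cast
    rw [inv_mul_cancel₀ hc, one_smul]
  rw [dist_eq_norm, e1, norm_smul, Real.norm_eq_abs, abs_of_pos (by positivity)]
  have e2 : ‖∑ z ∈ S, (x - z)‖ ≤ (n : ℝ) * δ := by
    rw [← Finset.add_sum_erase S _ hx, sub_self, zero_add]
    refine (norm_sum_le _ _).trans ?_
    have e3 : ∑ z ∈ S.erase x, ‖x - z‖ ≤ ∑ z ∈ S.erase x, δ := by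
      apply Finset.sum_le_sum
      intro z hz
      rw [← dist_eq_norm]
      exact hd x hx z (Finset.mem_erase.1 hz).2
    rw [Finset.sum_const, Finset.card_erase_of_mem hx, h, Nat.add_sub_cancel, nsmul_eq_mul] at e3
    exact e3
  have e4 : (1 - 1 / ((n : ℝ) + 1)) * δ = ((n : ℝ) + 1)⁻¹ * ((n : ℝ) * δ) := by
    field_simp
    ring
  rw [e4]
  exact mul_le_mul_of_nonneg_left e2 (by positivity)

/-- The support of the subdivision. -/
private theorem SmS_supp {M : ℕ} {δ θ : ℝ} {K : ℕ} (hδ : 0 ≤ δ) (hθ : θ = (1 - 1 / (K : ℝ)) * δ) :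
    ∀ (n : ℕ), n ≤ K → ∀ S : Finset (Fin M → ℝ), S.card = n → (∀ x ∈ S, ∀ y ∈ S, dist x y ≤ δ) →
      SmS_L M (Finsupp.single S (1 : ZMod 2)) ∈ Sp (fun T : Finset (Fin M → ℝ) => T.card = n ∧
        (∀ x ∈ T, x ∈ convexHull ℝ (S : Set (Fin M → ℝ))) ∧ ∀ x ∈ T, ∀ y ∈ T, dist x y ≤ θ) := by
  intro n
  induction n with
  | zero =>
    intro _ S hS _
    rw [Finset.card_eq_zero] at hS
    rw [hS, SmS_empty]
    apply single_mem_Sp
    refine ⟨rfl, ?_, ?_⟩
    · intro x hx
      exact absurd hx (Finset.notMem_empty x)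
    · intro x hx
      exact absurd hx (Finset.notMem_empty x)
  | succ n ih =>
    intro hn S hS hd
    rw [SmS_step S hS, SmS_bd]
    have h1 : ∑ a ∈ S, SmS_L M (Finsupp.single (S.erase a) (1 : ZMod 2)) ∈
        Sp (fun T : Finset (Fin M → ℝ) => T.card = n ∧
          (∀ x ∈ T, x ∈ convexHull ℝ (S : Set (Fin M → ℝ))) ∧ ∀ x ∈ T, ∀ y ∈ T, dist x y ≤ θ) := by
      apply Submodule.sum_mem
      intro a ha
      have h2 := ih (by omega) (S.erase a)
        (by rw [Finset.card_erase_of_mem ha, hS, Nat.add_sub_cancel])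
        (fun x hx y hy => hd x (Finset.mem_erase.1 hx).2 y (Finset.mem_erase.1 hy).2)
      refine Sp_mono ?_ h2
      rintro T ⟨hT1, hT2, hT3⟩
      refine ⟨hT1, fun x hx => ?_, hT3⟩
      exact convexHull_mono (Finset.coe_subset.2 (Finset.erase_subset a S)) (hT2 x hx)
    have hK : (0 : ℝ) < (n : ℝ) + 1 := by positivity
    have hKn : ((n : ℝ) + 1) ≤ K := by exact_mod_cast hn
    have hθ1 : (1 - 1 / ((n : ℝ) + 1)) * δ ≤ θ := by
      rw [hθ]
      apply mul_le_mul_of_nonneg_right _ hδ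
      have := one_div_le_one_div_of_le hK hKn
      linarith
    have hball : convexHull ℝ (S : Set (Fin M → ℝ)) ⊆ Metric.closedBall (SmS_bary S) θ := by
      apply convexHull_min _ (convex_closedBall _ _)
      intro x hx
      rw [Metric.mem_closedBall]
      exact (SmS_bary_dist hS hd x hx).trans hθ1
    have hθ0 : 0 ≤ θ := by
      have h3 := hball (SmS_bary_mem hS)
      rw [Metric.mem_closedBall, dist_self] at h3
      exact h3
    apply map_mem_of_basis (cone (SmS_bary S)) _ h1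
    rintro T ⟨hT1, hT2, hT3⟩
    rw [cone_single]
    split_ifs with hb
    · exact Submodule.zero_mem _
    · apply single_mem_Sp
      refine ⟨?_, ?_, ?_⟩
      · rw [Finset.card_insert_of_notMem hb, hT1]
      · intro x hx
        rcases Finset.mem_insert.1 hx with rfl | hx
        · exact SmS_bary_mem hS
        · exact hT2 x hx
      · intro x hx y hy
        rcases Finset.mem_insert.1 hx with rfl | hx
        · rcases Finset.mem_insert.1 hy with rfl | hy
          · rw [dist_self]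
            exact hθ0
          · rw [dist_comm]
            exact Metric.mem_closedBall.1 (hball (hT2 y hy))
        · rcases Finset.mem_insert.1 hy with rfl | hy
          · exact Metric.mem_closedBall.1 (hball (hT2 x hx))
          · exact hT3 x hx y hy


/-- subdivision with supports in a convex set -/
private theorem SmS_main : BU.SAlg →
  ∀ M : ℕ, ∃ Sd : Ch (Fin M → ℝ) →ₗ[ZMod 2] Ch (Fin M → ℝ),
    (∀ c, bd (Sd c) = Sd (bd c)) ∧ (∀ c, Sd (push ng c) = push ng (Sd c)) ∧
    Sd (Finsupp.single ∅ 1) = Finsupp.single ∅ 1 ∧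
    ∀ (K k : ℕ) (δ : ℝ) (C : Set (Fin M → ℝ)), Convex ℝ C → 1 ≤ k → k ≤ K → 0 ≤ δ →
      ∀ c ∈ Sp (fun S : Finset (Fin M → ℝ) => Good M δ k S ∧ ∀ x ∈ S, x ∈ C),
        Sd c ∈ Sp (fun S : Finset (Fin M → ℝ) => Good M ((1 - 1 / (K : ℝ)) * δ) k S ∧ ∀ x ∈ S, x ∈ C) := by
  intro hA M
  refine ⟨SmS_L M, ?_, ?_, SmS_empty M, ?_⟩
  · intro c
    exact eq_of_basis (P := fun _ : Finset (Fin M → ℝ) => True) (bd ∘ₗ SmS_L M) (SmS_L M ∘ₗ bd)
      (fun S _ => SmS_comm hA S.card S rfl) (mem_Sp_true c)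
  · intro c
    exact eq_of_basis (P := fun _ : Finset (Fin M → ℝ) => True) (SmS_L M ∘ₗ push ng) (push ng ∘ₗ SmS_L M)
      (fun S _ => SmS_ng hA S.card S rfl) (mem_Sp_true c)
  · intro K k δ C hC _ hk hδ c hc
    apply map_mem_of_basis (SmS_L M) _ hc
    rintro S ⟨⟨hS1, hS2, e, he, hSe⟩, hSC⟩
    refine Sp_mono ?_ (SmS_supp hδ rfl k hk S hS1 hS2)
    rintro T ⟨hT1, hT2, hT3⟩
    refine ⟨⟨hT1, hT3, e, he, ?_⟩, ?_⟩
    · have hconv : Convex ℝ {x : Fin M → ℝ | (∀ i, 0 ≤ e i * x i) ∧ ∑ i, e i * x i = 1} := by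
        rintro x ⟨hx1, hx2⟩ y ⟨hy1, hy2⟩ a b ha hb hab
        have e1 : ∀ i, e i * (a • x + b • y) i = a * (e i * x i) + b * (e i * y i) := by
          intro i
          rw [Pi.add_apply, Pi.smul_apply, Pi.smul_apply, smul_eq_mul, smul_eq_mul]
          ring
        refine ⟨fun i => ?_, ?_⟩
        · rw [e1]
          exact add_nonneg (mul_nonneg ha (hx1 i)) (mul_nonneg hb (hy1 i))
        · rw [Finset.sum_congr rfl (fun i _ => e1 i), Finset.sum_add_distrib, ← Finset.mul_sum,
            ← Finset.mul_sum, hx2, hy2, mul_one, mul_one, hab]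
      have hsub : convexHull ℝ (S : Set (Fin M → ℝ)) ⊆
          {x : Fin M → ℝ | (∀ i, 0 ≤ e i * x i) ∧ ∑ i, e i * x i = 1} :=
        convexHull_min (fun x hx => hSe x hx) hconv
      intro x hx
      exact hsub (hT2 x hx)
    · have hsub : convexHull ℝ (S : Set (Fin M → ℝ)) ⊆ C := convexHull_min (fun x hx => hSC x hx) hC
      intro x hx
      exact hsub (hT2 x hx)

/-- the unit vectors -/
private noncomputable def SmB_e (M : ℕ) (j : ℕ) : Fin M → ℝ := fun i => if (i : ℕ) = j then 1 else 0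

/-- the hemispheres -/
private noncomputable def SmB_phi (M : ℕ) : ℕ → Ch (Fin M → ℝ)
  | 0 => Finsupp.single {SmB_e M 0} 1
  | k + 1 => cone (SmB_e M (k + 1)) (SmB_phi M k + push ng (SmB_phi M k))

/-- sets of signed unit vectors -/
private def SmB_P (M k : ℕ) (S : Finset (Fin M → ℝ)) : Prop :=
  S.card = k + 1 ∧ (∀ x ∈ S, ∃ j ≤ k, x = SmB_e M j ∨ x = -SmB_e M j) ∧
    ∀ j ≤ k, ¬ (SmB_e M j ∈ S ∧ -SmB_e M j ∈ S)

private theorem SmB_ng_inj {M : ℕ} : Function.Injective (ng : (Fin M → ℝ) → (Fin M → ℝ)) := by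
  intro x y h
  exact neg_injective h

private theorem SmB_push {M : ℕ} (S : Finset (Fin M → ℝ)) :
    push ng (Finsupp.single S (1 : ZMod 2)) = Finsupp.single (S.image ng) (1 : ZMod 2) := by
  rw [push_single, if_pos (Finset.card_image_of_injective S SmB_ng_inj)]

private theorem SmB_ne {M j j' : ℕ} (hj : j < M) (h : j ≠ j') (s : ℝ) :
    SmB_e M j ≠ s • SmB_e M j' := by
  intro he
  have h1 := congrFun he ⟨j, hj⟩
  unfold SmB_e at h1
  simp [h] at h1

private theorem SmB_ne_neg {M j : ℕ} (hj : j < M) : SmB_e M j ≠ -SmB_e M j := by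
  intro he
  have h1 := congrFun he ⟨j, hj⟩
  unfold SmB_e at h1
  simp at h1
  linarith

private theorem SmB_ng (M k : ℕ) (S : Finset (Fin M → ℝ)) (h : SmB_P M k S) : SmB_P M k (S.image ng) := by
  refine ⟨?_, ?_, ?_⟩
  · rw [Finset.card_image_of_injective S SmB_ng_inj]
    exact h.1
  · intro x hx
    obtain ⟨y, hy, rfl⟩ := Finset.mem_image.1 hx
    obtain ⟨j, hj, hyj⟩ := h.2.1 y hy
    refine ⟨j, hj, ?_⟩
    unfold ng
    rcases hyj with rfl | rfl
    · exact Or.inr rfl
    · exact Or.inl (neg_neg _)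
  · rintro j hj ⟨h1, h2⟩
    obtain ⟨y, hy, hy1⟩ := Finset.mem_image.1 h1
    obtain ⟨z, hz, hz1⟩ := Finset.mem_image.1 h2
    unfold ng at hy1 hz1
    apply h.2.2 j hj
    have e1 : y = -SmB_e M j := by rw [← hy1, neg_neg]
    have e2 : z = SmB_e M j := neg_injective hz1
    rw [e1] at hy
    rw [e2] at hz
    exact ⟨hz, hy⟩

private theorem SmB_mem (M : ℕ) : ∀ k, k < M → SmB_phi M k ∈ Sp (SmB_P M k) := by
  intro k
  induction k with
  | zero =>
    intro hM
    apply single_mem_Sp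
    refine ⟨Finset.card_singleton _, ?_, ?_⟩
    · intro x hx
      exact ⟨0, le_refl _, Or.inl (Finset.mem_singleton.1 hx)⟩
    · rintro j hj ⟨_, h2⟩
      have hj0 : j = 0 := by omega
      rw [hj0, Finset.mem_singleton] at h2
      exact SmB_ne_neg hM h2.symm
  | succ k ih =>
    intro hM
    have h1 := ih (by omega)
    have h2 : push ng (SmB_phi M k) ∈ Sp (SmB_P M k) := by
      apply map_mem_of_basis (push ng) _ h1
      intro S hS
      rw [SmB_push]
      exact single_mem_Sp (SmB_ng M k S hS)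
    have h3 := (Sp (SmB_P M k)).add_mem h1 h2
    show cone (SmB_e M (k + 1)) (SmB_phi M k + push ng (SmB_phi M k)) ∈ _
    apply map_mem_of_basis (cone (SmB_e M (k + 1))) _ h3
    intro S hS
    rw [cone_single]
    split_ifs with hb
    · exact Submodule.zero_mem _
    · apply single_mem_Sp
      refine ⟨?_, ?_, ?_⟩
      · rw [Finset.card_insert_of_notMem hb, hS.1]
      · intro x hx
        rcases Finset.mem_insert.1 hx with rfl | hx
        · exact ⟨k + 1, le_refl _, Or.inl rfl⟩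
        · obtain ⟨j, hj, hxj⟩ := hS.2.1 x hx
          exact ⟨j, by omega, hxj⟩
      · rintro j hj ⟨h4, h5⟩
        rcases Nat.lt_or_ge j (k + 1) with hjk | hjk
        · apply hS.2.2 j (by omega)
          constructor
          · rcases Finset.mem_insert.1 h4 with h6 | h6
            · exfalso
              apply SmB_ne (M := M) (j := j) (j' := k + 1) (by omega) (by omega) 1
              rw [one_smul]
              exact h6
            · exact h6
          · rcases Finset.mem_insert.1 h5 with h6 | h6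
            · exfalso
              apply SmB_ne (M := M) (j := j) (j' := k + 1) (by omega) (by omega) (-1)
              rw [neg_one_smul, ← h6, neg_neg]
            · exact h6
        · have hjk' : j = k + 1 := by omega
          rw [hjk'] at h5
          rcases Finset.mem_insert.1 h5 with h6 | h6
          · exact SmB_ne_neg hM h6.symm
          · obtain ⟨i, hi, hxi⟩ := hS.2.1 _ h6
            rcases hxi with hxi | hxi
            · apply SmB_ne (M := M) (j := k + 1) (j' := i) hM (by omega) (-1)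
              rw [neg_one_smul, ← hxi, neg_neg]
            · apply SmB_ne (M := M) (j := k + 1) (j' := i) hM (by omega) 1
              rw [one_smul]
              exact neg_injective hxi

private theorem SmB_abs (M j : ℕ) (i : Fin M) : |SmB_e M j i| ≤ 1 := by
  unfold SmB_e
  split_ifs <;> simp

private theorem SmB_good {M k : ℕ} (hk : k < M) {S : Finset (Fin M → ℝ)} (h : SmB_P M k S) :
    Good M 2 (k + 1) S := by
  have habs : ∀ x ∈ S, ∀ i, |x i| ≤ 1 := by
    intro x hx i
    obtain ⟨j, _, rfl | rfl⟩ := h.2.1 x hx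
    · exact SmB_abs M j i
    · rw [Pi.neg_apply, abs_neg]
      exact SmB_abs M j i
  refine ⟨h.1, ?_, ?_⟩
  · intro x hx y hy
    rw [dist_pi_le_iff (by norm_num)]
    intro i
    rw [Real.dist_eq]
    have h1 := abs_sub (x i) (y i)
    have h2 := habs x hx i
    have h3 := habs y hy i
    linarith
  · refine ⟨fun i => if -SmB_e M i ∈ S then -1 else 1, ?_, ?_⟩
    · intro i
      dsimp only
      split_ifs
      · exact Or.inr rfl
      · exact Or.inl rfl
    · intro x hx
      obtain ⟨j, hj, hxj⟩ := h.2.1 x hx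
      have hjM : j < M := by omega
      have key : ∀ i : Fin M, (if -SmB_e M i ∈ S then (-1 : ℝ) else 1) * x i =
          if i = ⟨j, hjM⟩ then 1 else 0 := by
        intro i
        by_cases hij : i = ⟨j, hjM⟩
        · rw [if_pos hij, hij]
          dsimp only
          rcases hxj with rfl | rfl
          · rw [if_neg (fun h5 => h.2.2 j hj ⟨hx, h5⟩)]
            unfold SmB_e
            simp
          · rw [if_pos hx]
            unfold SmB_e
            simp
        · rw [if_neg hij]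
          have hij' : ¬ ((i : ℕ) = j) := fun h5 => hij (Fin.ext h5)
          have hx0 : x i = 0 := by
            rcases hxj with rfl | rfl
            · unfold SmB_e
              rw [if_neg hij']
            · rw [Pi.neg_apply]
              unfold SmB_e
              rw [if_neg hij', neg_zero]
          rw [hx0, mul_zero]
      constructor
      · intro i
        dsimp only
        rw [key i]
        split_ifs <;> norm_num
      · dsimp only
        rw [Finset.sum_congr rfl (fun i _ => key i), Finset.sum_ite_eq', if_pos (Finset.mem_univ _)]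


/-- the convex set of the hemisphere -/
private def SmH (M k : ℕ) : Set (Fin M → ℝ) :=
  {x | (∀ j : Fin M, k < (j : ℕ) → x j = 0) ∧ ∀ j : Fin M, (j : ℕ) = k → 0 ≤ x j}

private theorem SmH_convex (M k : ℕ) : Convex ℝ (SmH M k) := by
  rintro x ⟨hx1, hx2⟩ y ⟨hy1, hy2⟩ a b ha hb _
  refine ⟨fun j hj => ?_, fun j hj => ?_⟩
  · rw [Pi.add_apply, Pi.smul_apply, Pi.smul_apply, smul_eq_mul, smul_eq_mul, hx1 j hj, hy1 j hj]
    ring
  · rw [Pi.add_apply, Pi.smul_apply, Pi.smul_apply, smul_eq_mul, smul_eq_mul]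
    exact add_nonneg (mul_nonneg ha (hx2 j hj)) (mul_nonneg hb (hy2 j hj))

private theorem SmB_notmem {M k : ℕ} (hM : k + 1 < M) {S : Finset (Fin M → ℝ)} (hS : SmB_P M k S) :
    -SmB_e M (k + 1) ∉ S := by
  intro h6
  obtain ⟨i, hi, hxi⟩ := hS.2.1 _ h6
  rcases hxi with hxi | hxi
  · apply SmB_ne (M := M) (j := k + 1) (j' := i) hM (by omega) (-1)
    rw [neg_one_smul, ← hxi, neg_neg]
  · apply SmB_ne (M := M) (j := k + 1) (j' := i) hM (by omega) 1
    rw [one_smul]
    exact neg_injective hxi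

private theorem SmB_memQ (M : ℕ) : ∀ k, k < M →
    SmB_phi M k ∈ Sp (fun S : Finset (Fin M → ℝ) => SmB_P M k S ∧ -SmB_e M k ∉ S) := by
  intro k
  rcases k with _ | k
  · intro hM
    apply single_mem_Sp
    refine ⟨⟨Finset.card_singleton _, ?_, ?_⟩, ?_⟩
    · intro x hx
      exact ⟨0, le_refl _, Or.inl (Finset.mem_singleton.1 hx)⟩
    · rintro j hj ⟨_, h2⟩
      have hj0 : j = 0 := by omega
      rw [hj0, Finset.mem_singleton] at h2
      exact SmB_ne_neg hM h2.symm
    · intro h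
      exact SmB_ne_neg hM (Finset.mem_singleton.1 h).symm
  · intro hM
    have h1 := SmB_mem M k (by omega)
    have h2 : push ng (SmB_phi M k) ∈ Sp (SmB_P M k) := by
      apply map_mem_of_basis (push ng) _ h1
      intro S hS
      rw [SmB_push]
      exact single_mem_Sp (SmB_ng M k S hS)
    have h3 := (Sp (SmB_P M k)).add_mem h1 h2
    have h4 := SmB_mem M (k + 1) hM
    have h5 : SmB_phi M (k + 1) ∈ Sp (fun S : Finset (Fin M → ℝ) => -SmB_e M (k + 1) ∉ S) := by
      show cone (SmB_e M (k + 1)) (SmB_phi M k + push ng (SmB_phi M k)) ∈ _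
      apply map_mem_of_basis (cone (SmB_e M (k + 1))) _ h3
      intro S hS
      rw [cone_single]
      split_ifs with hb
      · exact Submodule.zero_mem _
      · apply single_mem_Sp
        intro h6
        rcases Finset.mem_insert.1 h6 with h7 | h7
        · exact SmB_ne_neg hM h7.symm
        · exact SmB_notmem hM hS h7
    unfold Sp at h4 h5 ⊢
    rw [Finsupp.mem_supported] at h4 h5 ⊢
    exact fun S hS => ⟨h4 hS, h5 hS⟩

private theorem SmB_hemi {M k : ℕ} (hk : k < M) {S : Finset (Fin M → ℝ)} (h : SmB_P M k S)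
    (h2 : -SmB_e M k ∉ S) : ∀ x ∈ S, x ∈ SmH M k := by
  intro x hx
  obtain ⟨j, hj, hxj⟩ := h.2.1 x hx
  have hv : ∀ i : Fin M, (i : ℕ) ≠ j → x i = 0 := by
    intro i hi
    rcases hxj with rfl | rfl
    · unfold SmB_e
      rw [if_neg hi]
    · rw [Pi.neg_apply]
      unfold SmB_e
      rw [if_neg hi, neg_zero]
  refine ⟨fun i hi => hv i (by omega), fun i hi => ?_⟩
  rcases Nat.lt_or_ge j k with hjk | hjk
  · rw [hv i (by omega)]
  · have hjk' : j = k := by omega
    rcases hxj with rfl | rfl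
    · unfold SmB_e
      split_ifs <;> norm_num
    · rw [hjk'] at hx
      exact absurd hx h2

private theorem SmB_main : BU.SAlg →
  ∀ M : ℕ, ∃ φ : ℕ → Ch (Fin M → ℝ),
    (∀ k < M, φ k ∈ Sp (fun S : Finset (Fin M → ℝ) => Good M 2 (k + 1) S ∧ ∀ x ∈ S, x ∈ SmH M k)) ∧
    (0 < M → bd (φ 0) = Finsupp.single ∅ 1) ∧
    ∀ k, k + 1 < M → bd (φ (k + 1)) = φ k + push ng (φ k) := by
  rintro ⟨_, hA2, hA3, _, hA5⟩ M
  have hng : ∀ x : Fin M → ℝ, ng (ng x) = x := fun x => neg_neg x
  have hb0 : bd (SmB_phi M 0) = Finsupp.single ∅ 1 := by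
    show bd (Finsupp.single {SmB_e M 0} 1) = _
    rw [bd_single, Finset.sum_singleton, Finset.erase_singleton]
  have hD : ∀ k, bd (SmB_phi M k + push ng (SmB_phi M k)) = 0 ∧
      bd (SmB_phi M (k + 1)) = SmB_phi M k + push ng (SmB_phi M k) := by
    intro k
    have hstep : ∀ k, bd (SmB_phi M k + push ng (SmB_phi M k)) = 0 →
        bd (SmB_phi M (k + 1)) = SmB_phi M k + push ng (SmB_phi M k) := by
      intro k h
      show bd (cone (SmB_e M (k + 1)) (SmB_phi M k + push ng (SmB_phi M k))) = _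
      rw [hA3, h, map_zero, add_zero]
    induction k with
    | zero =>
      have h0 : bd (SmB_phi M 0 + push ng (SmB_phi M 0)) = 0 := by
        rw [map_add, hA2, hb0, push_single, if_pos (by simp), Finset.image_empty, add_self_ch]
      exact ⟨h0, hstep 0 h0⟩
    | succ k ih =>
      have h1 : bd (SmB_phi M (k + 1) + push ng (SmB_phi M (k + 1))) = 0 := by
        rw [map_add, hA2, ih.2, map_add, hA5 _ ng hng]
        have e : SmB_phi M k + push ng (SmB_phi M k) + (push ng (SmB_phi M k) + SmB_phi M k) =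
            (SmB_phi M k + push ng (SmB_phi M k)) + (SmB_phi M k + push ng (SmB_phi M k)) := by
          rw [add_comm (push ng (SmB_phi M k)) (SmB_phi M k)]
        rw [e, add_self_ch]
      exact ⟨h1, hstep (k + 1) h1⟩
  refine ⟨SmB_phi M, ?_, fun _ => hb0, fun k _ => (hD k).2⟩
  intro k hk
  exact Sp_mono (fun S hS => ⟨SmB_good hk hS.1, SmB_hemi hk hS.1 hS.2⟩) (SmB_memQ M k hk)

private theorem SmP_pow {M : ℕ} (Sd : Ch (Fin M → ℝ) →ₗ[ZMod 2] Ch (Fin M → ℝ)) (n : ℕ) (c : Ch (Fin M → ℝ)) :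
    (Sd ^ (n + 1)) c = Sd ((Sd ^ n) c) := by
  rw [pow_succ', Module.End.mul_apply]

theorem pSm (h1 : BU.SAlg) : SSm := by
  intro M δ hδ
  rcases Nat.eq_zero_or_pos M with h0 | hM
  · subst h0
    exact ⟨fun _ => 0, fun k hk => absurd hk (Nat.not_lt_zero k), fun h => absurd h (Nat.lt_irrefl 0),
      fun k hk => absurd hk (Nat.not_lt_zero _)⟩
  obtain ⟨Sd, s1, s2, s3, s4⟩ := SmS_main h1 M
  obtain ⟨φ, f1, f2, f3⟩ := SmB_main h1 M
  have hM1 : (1 : ℝ) ≤ M := by exact_mod_cast hM
  have hM0 : (0 : ℝ) < M := by linarith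
  have hr0 : 0 ≤ 1 - 1 / (M : ℝ) := by
    have h1 : 1 / (M : ℝ) ≤ 1 := by
      rw [div_le_one hM0]
      exact hM1
    linarith
  have hr1 : 1 - 1 / (M : ℝ) < 1 := by
    have h1 : 0 < 1 / (M : ℝ) := by positivity
    linarith
  obtain ⟨n, hn⟩ := exists_pow_lt_of_lt_one (show (0 : ℝ) < δ / 2 by linarith) hr1
  have t1 : ∀ n : ℕ, ∀ c, bd ((Sd ^ n) c) = (Sd ^ n) (bd c) := by
    intro n
    induction n with
    | zero => intro c; simp
    | succ n ih =>
      intro c
      rw [SmP_pow, SmP_pow, s1, ih]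
  have t2 : ∀ n : ℕ, ∀ c, (Sd ^ n) (push ng c) = push ng ((Sd ^ n) c) := by
    intro n
    induction n with
    | zero => intro c; simp
    | succ n ih =>
      intro c
      rw [SmP_pow, SmP_pow, ih, s2]
  have t3 : ∀ n : ℕ, (Sd ^ n) (Finsupp.single ∅ 1) = Finsupp.single ∅ 1 := by
    intro n
    induction n with
    | zero => simp
    | succ n ih => rw [SmP_pow, ih, s3]
  have t4 : ∀ n : ℕ, ∀ k : ℕ, 1 ≤ k → k ≤ M → ∀ C : Set (Fin M → ℝ), Convex ℝ C →
      ∀ c ∈ Sp (fun S : Finset (Fin M → ℝ) => Good M 2 k S ∧ ∀ x ∈ S, x ∈ C),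
      (Sd ^ n) c ∈ Sp (fun S : Finset (Fin M → ℝ) =>
        Good M ((1 - 1 / (M : ℝ)) ^ n * 2) k S ∧ ∀ x ∈ S, x ∈ C) := by
    intro n
    induction n with
    | zero =>
      intro k _ _ C _ c hc
      rw [pow_zero, pow_zero, one_mul, Module.End.one_apply]
      exact hc
    | succ n ih =>
      intro k hk1 hk2 C hC c hc
      rw [SmP_pow]
      have h1 := s4 M k ((1 - 1 / (M : ℝ)) ^ n * 2) C hC hk1 hk2 (by positivity) _ (ih k hk1 hk2 C hC c hc)
      have h2 : (1 - 1 / (M : ℝ)) ^ (n + 1) * 2 = (1 - 1 / (M : ℝ)) * ((1 - 1 / (M : ℝ)) ^ n * 2) := by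
        rw [pow_succ]
        ring
      rw [h2]
      exact h1
  refine ⟨fun k => (Sd ^ n) (φ k), ?_, ?_, ?_⟩
  · intro k hk
    have h1 := t4 n (k + 1) (by omega) (by omega) (SmH M k) (SmH_convex M k) (φ k) (f1 k hk)
    refine Sp_mono (fun S hS => ?_) h1
    obtain ⟨⟨g1, g2, g3⟩, g4⟩ := hS
    refine ⟨⟨g1, fun x hx y hy => ?_, g3⟩, fun x hx => g4 x hx⟩
    have h2 := g2 x hx y hy
    linarith
  · intro h
    show bd ((Sd ^ n) (φ 0)) = _
    rw [t1, f2 h, t3]
  · intro k hk
    show bd ((Sd ^ n) (φ (k + 1))) = _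
    rw [t1, f3 k hk, map_add, t2]

end Pool.Agent.MPaafd8aB
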