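import Pool.Agent.Lib.MP_aafd8a_gt.B.SpecD

/-!
# MP_aafd8a_gt, block (B), analysis near the critical configuration: statements

Conventions: every statement is a proposition `SName`; the module `Name.lean` (in this directory) proves `pName : SName` or, if the
docstring says (from `SA`, `SB`), the implication `SA → SB → SName`. Definitions: `Defs.lean`. `Cpt2 c p q` (`Defs3.lean`): all inner
products of points of the two supports are `< c`; `Pw p`: `p` is a probability weight.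
-/

set_option autoImplicit false

open Topology RealInnerProductSpace

open scoped Classical

namespace Pool.Agent.MPaafd8aB

open Pool.Agent.MPaafd8a

/-! ## Linear algebra -/

/-- **Distance to the kernel** (60 lines). PROOF. Let `N = ker f` and `P` a linear projection onto `N` (`Submodule.exists_isCompl`), or: `f.rangeRestrict` is surjective and has a linear right inverse `s : range f → E` (`LinearMap.exists_rightInverse_of_surjective`); linear maps in finite dimension are bounded: `‖s y‖ ≤ C ‖y‖`. Take `k = x - s (f x)`. -/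
def SLinC : Prop :=
  ∀ (E F : Type) [NormedAddCommGroup E] [NormedSpace ℝ E] [FiniteDimensional ℝ E] [NormedAddCommGroup F] [NormedSpace ℝ F]
    (f : E →ₗ[ℝ] F), ∃ C : ℝ, 0 < C ∧ ∀ x, ∃ k, f k = 0 ∧ ‖x - k‖ ≤ C * ‖f x‖

/-- **Quantitative rigidity** (from `SLinC`, `SGram`, `SSpn`, `SKer`; 200 lines). PROOF. `SLinC` for the linear map `(u, v) ↦ (⟪aa i, u i⟫, ⟪bb j, v j⟫, if ct i j then Lc u v i j else 0, dz u)` from `(Fin 6 → Eu 3) × (Fin 6 → Eu 3)` to a product of function spaces (sup norms): `(u, v)` has a distance `≤ C₁ t` from some `(u', v')` in the kernel, and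
`u' = K aa`, `v' = K bb` with a skew `K` (`SKer`). BOUND for `K`: `‖K (aa i)‖ = ‖u' i‖ ≤ m + C₁ t`, and the vectors `aa i` span `Eu 3` (`SSpn`: the `aa i` with `ct i 0 = true` do), so `‖K‖ ≤ C₂ max_i ‖K (aa i)‖` (apply `SLinC` to the injective linear map `K ↦ (K (aa i))_i` on the finite dimensional space of continuous linear maps `Eu 3 →L[ℝ] Eu 3`). -/
def SLA : Prop :=
  ∃ C : ℝ, 1 ≤ C ∧ ∀ (u v : Fin 6 → Eu 3) (m t : ℝ), 0 ≤ t → (∀ i, ‖u i‖ ≤ m) → (∀ j, ‖v j‖ ≤ m) →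
    (∀ i, |⟪aa i, u i⟫| ≤ t) → (∀ j, |⟪bb j, v j⟫| ≤ t) → (∀ i j, ct i j = true → |Lc u v i j| ≤ t) →
    (∀ k, |dz u k| ≤ t) →
    ∃ K : Eu 3 →L[ℝ] Eu 3, (∀ x y, ⟪K x, y⟫ = -⟪x, K y⟫) ∧ ‖K‖ ≤ C * (m + t) ∧
      (∀ i, ‖u i - K (aa i)‖ ≤ C * t) ∧ ∀ j, ‖v j - K (bb j)‖ ≤ C * t

/-- **Isometries near the identity** (100 lines). PROOF (Cayley transform). Let `A = (1/2) K`. `⟪A y, y⟫ = 0`, so `‖y - A y‖ ^ 2 = ‖y‖ ^ 2 + ‖A y‖ ^ 2 = ‖y + A y‖ ^ 2`. So `1 - A` is injective, hence bijective (finite dimension), in the same way `1 + A`; `g = (1 + A) ∘ (1 - A)⁻¹` is a linear bijection which preserves norms: a `LinearIsometryEquiv`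
(`LinearIsometryEquiv.mk` with `LinearEquiv.ofBijective`...). For `x = y - A y`: `g x = y + A y`, `g x - x = 2 A y = K y`, `g x - x - K x = K (y - x) = K (A y)`, norm `≤ ‖K‖ * (‖K‖ / 2) * ‖y‖`, and `‖y‖ ≤ ‖y - A y‖ = ‖x‖`. -/
def SOrt : Prop :=
  ∀ K : Eu 3 →L[ℝ] Eu 3, (∀ x y, ⟪K x, y⟫ = -⟪x, K y⟫) →
    ∃ g : Iso3, ∀ x, ‖g x - (x + K x)‖ ≤ ‖K‖ ^ 2 * ‖x‖

/-! ## Pairs near the critical configuration -/

/-- **First estimate** (from `SGram`, `SStress`, `SSpn`, `SLinC`, `SLA`; 350 lines). `X`, `Y` are finite families of points near the `aa i`, `bb j` with convex weights on every cluster. PROOF. `ρ₀ = 1`. All constants `Cᵢ` are absolute. For `x, y` with the labels `i = α x`, `j = β y`, `ct i j = true`, let `l x y = ⟪U x, bb j⟫ + ⟪aa i, T y⟫`. As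
`⟪aa i, bb j⟫ = cs`: `⟪aa i + U x, bb j + T y⟫ = cs + l x y + ⟪U x, T y⟫`, so (1) `l x y ≤ ε + ρ ^ 2`. (2) `‖aa i + U x‖ = 1` gives `⟪aa i, U x⟫ = - ‖U x‖ ^ 2 / 2 ∈ [- ρ ^ 2 / 2, 0]`, the same for `T`. (3) Choose one point `x_i` with label `i` and one `y_j` with label `j` for every `i, j` (the clusters are not empty, their weights have sum one), with `x_i`, `y_j` a given pair
for one contact `(i₀, j₀)`. By `SStress` `∑ ww i j * l x_i y_j = ∑ lam i ⟪U x_i, aa i⟫ + ∑ lam j ⟪bb j, T y_j⟫ ≥ - 6 ρ ^ 2`; all other terms are `≤ ε + ρ ^ 2` with weights `≤ 1` and `ww i₀ j₀ ≥ 1/4`, so `l x_i₀ y_j₀ ≥ - C₁ (ε + ρ ^ 2)`. So `|l x y| ≤ C₁ (ε + ρ ^ 2)` always. (4) Means: `ū i = ∑ a x • U x` over the cluster `i`, `t̄ j`. `Lc ū t̄ i j` is a mean of the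
`l x y`, so `|Lc ū t̄ i j| ≤ C₁ (ε + ρ ^ 2)`; `|⟪aa i, ū i⟫| ≤ ρ ^ 2`, `‖ū i‖ ≤ ρ`. (5) `zz (aa + ū) k - dz ū k` is a sum of at most four inner products of two vectors `± ū i`, so `|dz ū k| ≤ η + 4 ρ ^ 2` (`zz aa = 0`). (6) `SLA` with `m = ρ`, `t = C₂ (η + ε + ρ ^ 2)`: `K` with `‖K‖ ≤ C₃ (ρ + η + ε)` (`ρ ^ 2 ≤ ρ`), `‖ū i - K (aa i)‖ ≤ C₃ (η + ε + ρ ^ 2)`, the same for `t̄`.
(7) Single points: for `x` with label `i` and a contact `j`: `⟪U x - ū i, bb j⟫ = (mean over y of l x y) - Lc ū t̄ i j` has absolute value `≤ 2 C₁ (ε + ρ ^ 2)`; the contacts of `i` span (`SSpn`), so `‖U x - ū i‖ ≤ C₄ (ε + ρ ^ 2)` (`SLinC` for the injective map `z ↦ (if ct i j then ⟪z, bb j⟫ else 0)_j`). The same for `T y`. -/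
def SQa : Prop :=
  ∃ C : ℝ, 1 ≤ C ∧ ∃ ρ₀ : ℝ, 0 < ρ₀ ∧ ∀ (X Y : Type) [Fintype X] [Fintype Y] (α : X → Fin 6) (β : Y → Fin 6)
    (U : X → Eu 3) (T : Y → Eu 3) (a : X → ℝ) (b : Y → ℝ) (ρ ε η : ℝ), 0 ≤ ρ → ρ ≤ ρ₀ → 0 ≤ ε → 0 ≤ η →
    (∀ x, ‖U x‖ ≤ ρ) → (∀ y, ‖T y‖ ≤ ρ) → (∀ x, ‖aa (α x) + U x‖ = 1) → (∀ y, ‖bb (β y) + T y‖ = 1) →
    (∀ x, 0 ≤ a x) → (∀ y, 0 ≤ b y) → (∀ i, ∑ x, (if α x = i then a x else 0) = 1) →
    (∀ j, ∑ y, (if β y = j then b y else 0) = 1) →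
    (∀ x y, ⟪aa (α x) + U x, bb (β y) + T y⟫ ≤ cs + ε) →
    (∀ k, |zz (fun i => aa i + ∑ x, if α x = i then a x • U x else 0) k| ≤ η) →
    ∃ K : Eu 3 →L[ℝ] Eu 3, (∀ x y, ⟪K x, y⟫ = -⟪x, K y⟫) ∧ ‖K‖ ≤ C * (ρ + ε + η) ∧
      (∀ x, ‖U x - K (aa (α x))‖ ≤ C * (η + ε + ρ ^ 2)) ∧ ∀ y, ‖T y - K (bb (β y))‖ ≤ C * (η + ε + ρ ^ 2)

/-- **One improvement step** (from `SQa`, `SOrt`; 200 lines). PROOF. Let `X` be the subtype of the points of `p.support` (for a probability weight these are the `v` with `0 < p v`), `U v = g⁻¹ v - aa (α v)` (`g.symm`), `a v = p v / ms α p (α v)`; `Y`, `T`, `b` in the same way with `q`, `bb`, `β`. `‖U v‖ = dist (v) (g (aa (α v))) ≤ ρ`, `aa (α v) + U v = g⁻¹ v` is a unit vector,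
inner products are preserved by `g`, and `g (aa i + ∑ a v • U v) = bc α p i`, so `zz` has the same value (it depends only on inner products). `K` from `SQa`, `g₁` from `SOrt`, `g' = g₁.trans g`: `‖v - g' (aa i)‖ = ‖aa i + U v - g₁ (aa i)‖ ≤ ‖U v - K (aa i)‖ + ‖K‖ ^ 2 ≤ C (η + ε + ρ ^ 2) + C ^ 2 (ρ + ε + η) ^ 2`, and
`(ρ + ε + η) ^ 2 ≤ 3 (ρ ^ 2 + ε ^ 2 + η ^ 2) ≤ 3 (ρ ^ 2 + ε + η)`. -/
def SQ1 : Prop :=
  ∃ C : ℝ, 1 ≤ C ∧ ∃ ρ₀ : ℝ, 0 < ρ₀ ∧ ∀ (α β : Sph 3 → Fin 6) (g : Iso3) (p q : Sph 3 →₀ ℝ) (ρ ε η : ℝ), Pw p → Pw q →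
    0 ≤ ρ → ρ ≤ ρ₀ → 0 ≤ ε → ε ≤ 1 → 0 ≤ η → η ≤ 1 →
    (∀ v, 0 < p v → dist (v : Eu 3) (g (aa (α v))) ≤ ρ) → (∀ v, 0 < q v → dist (v : Eu 3) (g (bb (β v))) ≤ ρ) →
    (∀ i, 0 < ms α p i) → (∀ j, 0 < ms β q j) → Cpt2 (cs + ε) p q → (∀ k, |zz (bc α p) k| ≤ η) →
    ∃ g' : Iso3, (∀ v, 0 < p v → dist (v : Eu 3) (g' (aa (α v))) ≤ C * (η + ε + ρ ^ 2)) ∧
      ∀ v, 0 < q v → dist (v : Eu 3) (g' (bb (β v))) ≤ C * (η + ε + ρ ^ 2)

/-- **Tight frames** (from `SQ1`; 120 lines). PROOF. Let `C₁, ρ₁` be the constants of `SQ1`; `C = 2 C₁`, `ρ₀ = min ρ₁ (min 1 (1 / (4 C₁)))`. Let `e = η + ε`, `0 < e`, `2 C₁ e ≤ ρ₀` (so `ε, η ≤ 1`). CLAIM by induction on `k`: some `g_k` has all distances `≤ (4/3) C₁ e + ρ₀ / 4 ^ k` and `≤ ρ₀`. `k = 0`: `g`. Step: with `ρ_k ≤ ρ₀` the step `SQ1` gives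
`C₁ (e + ρ_k ^ 2) ≤ C₁ e + ρ_k / 4` (`C₁ ρ_k ≤ 1 / 4`), which is `≤ (4/3) C₁ e + ρ₀ / 4 ^ (k + 1)` and `≤ ρ₀ / 2 + ρ₀ / 4`. Take `k` with `ρ₀ / 4 ^ k ≤ (2/3) C₁ e`. -/
def SQ2 : Prop :=
  ∃ C : ℝ, 1 ≤ C ∧ ∃ ρ₀ : ℝ, 0 < ρ₀ ∧ ∀ (α β : Sph 3 → Fin 6) (g : Iso3) (p q : Sph 3 →₀ ℝ) (ε η : ℝ), Pw p → Pw q →
    0 < ε → 0 ≤ η → C * (η + ε) ≤ ρ₀ →
    (∀ v, 0 < p v → dist (v : Eu 3) (g (aa (α v))) ≤ ρ₀) → (∀ v, 0 < q v → dist (v : Eu 3) (g (bb (β v))) ≤ ρ₀) →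
    (∀ i, 0 < ms α p i) → (∀ j, 0 < ms β q j) → Cpt2 (cs + ε) p q → (∀ k, |zz (bc α p) k| ≤ η) →
    ∃ g' : Iso3, (∀ v, 0 < p v → dist (v : Eu 3) (g' (aa (α v))) ≤ C * (η + ε)) ∧
      ∀ v, 0 < q v → dist (v : Eu 3) (g' (bb (β v))) ≤ C * (η + ε)

/-- **Points with small inner products are near the vertices** (from `SPol`; 80 lines). PROOF. First part (the second is the same): the set `Z = {v : Sph 3 | ∀ i, r ≤ dist v (aa i)}` is compact; the function `v ↦ max_j ⟪v, bb j⟫ - cs` (`Finset.sup'`) is continuous and positive on `Z` by `SPol`, so it has a positive minimum there (or `Z` is empty);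
let `τ` be smaller than the minimum. -/
def SStar : Prop :=
  ∀ r : ℝ, 0 < r → ∃ τ : ℝ, 0 < τ ∧ (∀ v : Sph 3, (∀ j, ⟪(v : Eu 3), bb j⟫ ≤ cs + τ) → ∃ i, dist (v : Eu 3) (aa i) < r) ∧
    ∀ v : Sph 3, (∀ i, ⟪(v : Eu 3), aa i⟫ ≤ cs + τ) → ∃ j, dist (v : Eu 3) (bb j) < r

/-- **Change of frames** (from `SGram`; 350 lines). PROOF. RELATION: `Rel g g' π π'` (`π, π' : Fin 6 → Fin 6`) means `dist (g (aa i)) (g' (aa (π i))) < 1/20` and `dist (g (bb j)) (g' (bb (π' j))) < 1/20` for all `i, j`. The pair `(π, π')` is unique (distances of different vertices are `> 1`). (a) If `g`, `g'` are frames of `(p, q)` then `Rel` holds for some `(π, π')` and the clusters correspond: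
`lbA r g v = i ↔ lbA r g' v = π i` for `v` in the support of `p`, `lbB` the same with `π'`. (Every cluster of `g` is nonempty, as its mass is `> 1/12`; a point `v` of it with `lbA r g v = i`, `lbA r g' v = k` gives `dist (g (aa i)) (g' (aa k)) < 2 r ≤ 1/50`; two points of the same cluster are at distance `< 2 r`, so they lie in the same cluster of `g'`.) `π` is injective (a common
value would give `dist (aa i) (aa k) < 1/10`). So `ms (lbA r g') p (π i) = ms (lbA r g) p i`, `bc (lbA r g') p (π i) = bc (lbA r g) p i`. (b) `π` preserves the Gram matrix: `|⟪aa i, aa k⟫ - ⟪aa (π i), aa (π k)⟫| ≤ 1/10` and different values among `1, 3 s - 4, - cs, 6 s - 9` differ by more than `1/5`. So `π` maps `{4, 5}` to itself (these are the vertices with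
inner product `- cs` with all the others) and opposite vertices of the square to opposite vertices. (c) LINEAR MAP for `(π, π')` on `Fin 15 → ℝ`: on the masses: `P' (π i) = P i` for the six numbers `P 0, .., P 4, P 5 = - ∑ P i` (sum zero), the same for `π'`; on the `Z` part a signed permutation: with `x_i = ⟪v 4 + v 5, v i⟫`, `y_i = ⟪v 4 - v 5, v i⟫` the numbers are
`(⟪v 4, v 5⟫ + cs, x_0 - x_2, x_1 - x_3, y_0 - y_2, y_1 - y_3)`; relabelling by `π` permutes the `x_i`, preserves the pairs `{0,2}`, `{1,3}`, and changes the sign of all `y_i` if `π` exchanges 4 and 5. Define the map for all `π` by the same formulas (identity if `π` is not of this kind); 16 cases `π 0 ∈ {0,1,2,3}`, `π 1` one of the two neighbours, `π 4 ∈ {4, 5}`.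
`γ g g'` = this map for the `(π, π')` with `Rel g g' π π'`, the identity if there is none: finitely many maps. The formula for `kp` follows from (a), (c) (`ms (lbA r g) p (Fin.last 5) - 1/6` is minus the sum of the other five, as the masses have sum `1`: every point of the support has a label, `Pw p`). (d) COCYCLE: for three frames of `(p, q)`: `π'' = π' ∘ π` by (a) applied to the labels of points,
and the linear maps of (c) compose (both sides agree: the maps are given by relabelling; for the `Z` part check it on all vectors by the explicit signed permutations, or define the `Z` part as the action on the ten numbers `x_i, y_i` modulo ...). Suggestion: represent the group of the 16 good `π` by the three bits (`π` swaps 4, 5; ...) or prove the composition law by `decide` on the signed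
permutation data (a function `Fin 5 → Fin 5 × Bool` computed from `π 0`, `π 1`, `π 4`). -/
def SRel : Prop :=
  ∃ γ : Iso3 → Iso3 → ((Fin 15 → ℝ) ≃ₗ[ℝ] (Fin 15 → ℝ)), (Set.range fun p : Iso3 × Iso3 => γ p.1 p.2).Finite ∧
    (∀ (r : ℝ) (g g' : Iso3) (p q : Sph 3 →₀ ℝ), 0 < r → r ≤ 1 / 100 → Pw p → Pw q → Frm r g p q → Frm r g' p q →
      kp r g' p q = γ g g' (kp r g p q)) ∧
    ∀ (r : ℝ) (g g' g'' : Iso3) (p q : Sph 3 →₀ ℝ), 0 < r → r ≤ 1 / 100 → Pw p → Pw q → Frm r g p q → Frm r g' p q →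
      Frm r g'' p q → ∀ v, γ g' g'' (γ g g' v) = γ g g'' v

/-- **Lipschitz estimate** (150 lines). PROOF. Masses: `|ms α p i - ms α p' i| ≤ dl p p'` for every labelling `α` (both are sums over the union of the supports). With `P = ms α p i`, `P' = ms α p' i`, both `> 1/12`, and `S, S'` the sums `∑ p v • v` over the cluster: `‖S - S'‖ ≤ dl p p'`, `‖S'‖ ≤ P'`, so
`‖bc α p i - bc α p' i‖ ≤ ‖S - S'‖ / P + |1/P - 1/P'| ‖S'‖ ≤ 24 dl p p'`; `‖bc‖ ≤ 1`. The functions `zz` are sums of inner products of vectors of norm `≤ 2`: differences `≤ 2 * 48 * 2 * dl p p'`. -/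
def SLip : Prop :=
  ∀ (r : ℝ) (g : Iso3) (p q p' q' : Sph 3 →₀ ℝ), Pw p → Pw q → Pw p' → Pw q' → Frm r g p q → Frm r g p' q' →
    ∀ k, |kp r g p q k - kp r g p' q' k| ≤ 1000 * (dl p p' + dl q q')

/-- **Persistence of frames** (from `SGram`, `SQ2`, `SStar`; 250 lines). PROOF. `C, ρ₀` from `SQ2`, `r₀ = min ρ₀ (1/100)`. For `r ≤ r₀` let `τ` be as in `SStar`; choose `η₁ = ε₁ > 0` with `C (η₁ + ε₁) ≤ min ρ₀ (min (τ / 4) (r / 2))`, `ε₁ ≤ τ / 4`, `η₁ ≤ 1/120`, and `d₁ = 1/30`. Let `α = lbA r g`, `β = lbB r g`: `SQ2` (the masses are positive, `|zz (bc α p) k| ≤ η₁` are the last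
five coordinates of `kp`) gives `g'` with all distances `≤ C (η₁ + ε₁) =: ρ₁ < r`, so `lbA r g' v = α v` on the support of `p` (the label is unique because the vertices have mutual distances `> 1`), `lbB r g' = β` on the support of `q`. Let `p', q'` be given. MASSES: `|ms (lbA r g') p' i - 1/6| ≤ dl p p' + |ms α p i - 1/6| ≤ d₁ + 5 η₁ < 1/12` (`i = 5`: the masses have sum `1`).
SUPPORTS: let `0 < p' v`. For every `j` there is a `y` with `β y = j`, `0 < q y`, `0 < q' y`: otherwise `dl q q' ≥ ms β q j > 1/12`. So `⟪v, y⟫ < cs + ε₁` and `dist y (g' (bb j)) ≤ ρ₁ ≤ τ / 4`, hence `⟪v, g' (bb j)⟫ ≤ cs + τ` for all `j`; `SStar` for the point `g'⁻¹ v` gives `i` with `dist v (g' (aa i)) < r`. The same for `q'`. -/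
def SPers : Prop :=
  ∃ r₀ : ℝ, 0 < r₀ ∧ r₀ ≤ 1 / 100 ∧ ∀ r : ℝ, 0 < r → r ≤ r₀ → ∃ η₁ ε₁ d₁ : ℝ, 0 < η₁ ∧ 0 < ε₁ ∧ 0 < d₁ ∧
    ∀ (g : Iso3) (p q : Sph 3 →₀ ℝ), Pw p → Pw q → Cpt2 (cs + ε₁) p q → Frm r g p q → (∀ k, |kp r g p q k| < η₁) →
      ∃ g' : Iso3, ∀ p' q' : Sph 3 →₀ ℝ, Pw p' → Pw q' → Cpt2 (cs + ε₁) p' q' → dl p p' < d₁ → dl q q' < d₁ →
        Frm r g' p' q'

/-- **No zeros below the critical value** (from `SGram`, `SQ2`; 120 lines). PROOF. `C, ρ₀` from `SQ2`, `r₀ = min ρ₀ (1/100)`, `ν = min (ρ₀ / (2 C)) ((cs - c) / (4 C))`. Suppose all `|kp r g p q k| < ν`. `SQ2` with `ε = η = ν` (`Cpt2 c` implies `Cpt2 (cs + ν)`, `C * (2 ν) ≤ ρ₀`) gives `g'` with all distances `≤ 2 C ν`. Choose `v` with the label `0` and `y` with the label `0`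
(masses positive; `ct 0 0 = true`): `⟪v, y⟫ ≥ ⟪g' (aa 0), g' (bb 0)⟫ - 4 C ν = cs - 4 C ν ≥ c`, contradicting `Cpt2 c p q`. -/
def SLow8 : Prop :=
  ∃ r₀ : ℝ, 0 < r₀ ∧ r₀ ≤ 1 / 100 ∧ ∀ r c : ℝ, 0 < r → r ≤ r₀ → c < cs → ∃ ν : ℝ, 0 < ν ∧
    ∀ (g : Iso3) (p q : Sph 3 →₀ ℝ), Pw p → Pw q → Cpt2 c p q → Frm r g p q → ∃ k, ν ≤ |kp r g p q k|

/-- **The standard frame** (from `SGram`; 200 lines). PROOF. As in (a) of `SRel`: two points of the support of `p` with the same standard label (nearest `aa k`) are at distance `< 2 r`, so they have the same `g`-label, and conversely; all six `g`-clusters are nonempty, so the six standard clusters are nonempty and there is a bijection `π` with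
`ms (lbA r refl) p k = ms (lbA r g) p (π k)`. The same for `q`. -/
def SG0 : Prop :=
  ∀ (r : ℝ) (g : Iso3) (p q : Sph 3 →₀ ℝ), 0 < r → r ≤ 1 / 100 → Pw p → Pw q →
    (∀ v, 0 < p v → ∃ i, dist (v : Eu 3) (aa i) < r) → (∀ v, 0 < q v → ∃ j, dist (v : Eu 3) (bb j) < r) →
    Frm r g p q → Frm r (LinearIsometryEquiv.refl ℝ (Eu 3)) p q

end Pool.Agent.MPaafd8aB
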