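import Pool.Agent.Lib.MP_aafd8a_gt.B.Defs

/-!
# MP_aafd8a_gt, block (B), the critical configuration: statements

Conventions: every statement is a proposition `SName`; the module `Name.lean` (in this directory) proves `pName : SName` or, if the
docstring says (from `SA`, `SB`), the implication `SA → SB → SName`. Definitions: `Defs.lean`.

Notation in the docstrings: `s = √2`, `α = 5 - 3 s = 0.757..`, `β = s / 4 = 0.353..`, `γ = 1 - s / 4 = 0.646..`, `x = 2 s - 2 = 0.828..`,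
`c = cs = 1 - s / 2 = 0.2928..`. All computations are in the field generated by `s` over the rationals.
-/

set_option autoImplicit false

open Topology RealInnerProductSpace

open scoped Classical

namespace Pool.Agent.MPaafd8aB

open Pool.Agent.MPaafd8a

/-- **Coordinates** (60 lines). PROOF. `EuclideanSpace.inner_eq_star_dotProduct` / `PiLp.inner_apply`, `Fin.sum_univ_four`; `√(5 - 3 √2) ^ 2 = 5 - 3 √2` because `3 √2 ≤ 5` (`18 ≤ 25`), in the same way for `√2 / 4` and `1 - √2 / 4`. Second part: divide the coordinates of `v` by the positive square roots.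
Third part: the map is linear (componentwise). -/
def SVv : Prop :=
  (∀ x0 x1 x2 x3 y0 y1 y2 y3 : ℝ, ⟪vv x0 x1 x2 x3, vv y0 y1 y2 y3⟫ =
    (5 - 3 * √2) * (x0 * y0 + x1 * y1) + √2 / 4 * (x2 * y2) + (1 - √2 / 4) * (x3 * y3)) ∧
  (∀ v : Eu 3, ∃ x0 x1 x2 x3 : ℝ, v = vv x0 x1 x2 x3) ∧
  (∀ a x0 x1 x2 x3 y0 y1 y2 y3 : ℝ, a • vv x0 x1 x2 x3 + vv y0 y1 y2 y3 =
    vv (a * x0 + y0) (a * x1 + y1) (a * x2 + y2) (a * x3 + y3)) ∧
  ∀ x0 x1 x2 x3 y0 y1 y2 y3 : ℝ, vv x0 x1 x2 x3 = vv y0 y1 y2 y3 → x0 = y0 ∧ x1 = y1 ∧ x2 = y2 ∧ x3 = y3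

/-- **Gram matrices** (from `SVv`; 150 lines). PROOF. `fin_cases i`, `fin_cases j`, `SVv`, `√2 ^ 2 = 2` (`nlinarith`, `linear_combination`). Values: `⟪aa i, bb j⟫ = cs` for contacts; `α (± s / 2 ± s / 2) - β x ^ 2 = - α s - β x ^ 2 = 7 - 11 s / 2 < - 3 / 4` for `i, j < 4` without contact, `-1` for `(4, 4)`, `(5, 5)`.
`⟪aa i, aa k⟫`: `3 s - 4` for neighbours in the square, `6 s - 9` for opposite vertices (`i + 2 = k` modulo `4`), `- cs` for `i < 4 ≤ k` and for `(4, 5)`; the same values for `bb`. Distances: `dist ^ 2 = 2 - 2 ⟪,⟫ > 1` as all the values are `< 1 / 2`. -/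
def SGram : Prop :=
  (∀ i, ‖aa i‖ = 1) ∧ (∀ j, ‖bb j‖ = 1) ∧ (∀ i j, ct i j = true → ⟪aa i, bb j⟫ = cs) ∧
  (∀ i j, ct i j = false → ⟪aa i, bb j⟫ ≤ -(1 / 2)) ∧ zz aa = 0 ∧
  (∀ i k, i ≠ k → 1 < dist (aa i) (aa k)) ∧ (∀ i k, i ≠ k → 1 < dist (bb i) (bb k)) ∧ 1 / 4 < cs ∧ cs < 1 / 3 ∧
  (⟪aa 0, aa 1⟫ = 3 * √2 - 4 ∧ ⟪aa 1, aa 2⟫ = 3 * √2 - 4 ∧ ⟪aa 2, aa 3⟫ = 3 * √2 - 4 ∧ ⟪aa 0, aa 3⟫ = 3 * √2 - 4) ∧
  (⟪aa 0, aa 2⟫ = 6 * √2 - 9 ∧ ⟪aa 1, aa 3⟫ = 6 * √2 - 9) ∧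
  (∀ i k : Fin 6, (i : ℕ) < k → 4 ≤ (k : ℕ) → ⟪aa i, aa k⟫ = -cs)

/-- **The stress** (from `SVv`, `SGram`; 150 lines). PROOF. First two parts: in coordinates (`fin_cases`, `Fin.sum_univ_six`, third part of `SVv`), for instance `i = 0`: `(2 + s)/8 (bb 0 + bb 3) + (1 + s)/4 (bb 4 + bb 5) = vv ((2 + s)/8 * s) 0 (-x (2 + s)/4 + (1 + s)/2) 0 = (1 + s)/4 • vv 1 0 x 0`.
Third part: the inner product of the first one with `aa i` (or directly). Last parts: `decide`-like case check, `0 < √2`. -/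
def SStress : Prop :=
  (∀ i, ∑ j, ww i j • bb j = lam i • aa i) ∧ (∀ j, ∑ i, ww i j • aa i = lam j • bb j) ∧
  (∀ i, lam i = cs * ∑ j, ww i j) ∧ (∀ j, lam j = cs * ∑ i, ww i j) ∧ (∀ i j, ct i j = true → 1 / 4 ≤ ww i j) ∧
  (∀ i j, ct i j = false → ww i j = 0) ∧ (∀ i j, 0 ≤ ww i j ∧ ww i j ≤ 1) ∧ ∀ i, 0 < lam i ∧ lam i ≤ 1

/-- **Infinitesimal rigidity** (from `SVv`; done by the keeper with a computer algebra certificate). PROOF. Write `u i = vv (U i 0) .. (U i 3)`, `v j = vv (V j 0) .. (V j 3)`. The hypotheses are 43 homogeneous linear equations for the 48 unknowns; the space of solutions has dimension `6`, it consists of the displacements of skew operators. `K` is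
`K (vv x0 x1 x2 x3) = vv (..)` with component `k` equal to `(∑ l, S k l * x l) / W k`, `W = (α, α, β, γ)`, `S` skew with entries read off from `u 4`, `u 5`, `u 0`. -/
def SKer : Prop :=
  ∀ u v : Fin 6 → Eu 3, Tng u v → (∀ i j, ct i j = true → Lc u v i j = 0) → dz u = 0 →
    ∃ K : Eu 3 →L[ℝ] Eu 3, (∀ x y, ⟪K x, y⟫ = -⟪x, K y⟫) ∧ (∀ i, u i = K (aa i)) ∧ ∀ j, v j = K (bb j)

/-- **Uniqueness of the stress** (from `SVv`; done by the keeper with a computer algebra certificate). -/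
def SUnq : Prop :=
  ∀ t : Fin 6 → Fin 6 → ℝ, (∀ i j, ct i j = false → t i j = 0) →
    (∀ i (ξ : Eu 3), ⟪aa i, ξ⟫ = 0 → ∑ j, t i j * ⟪ξ, bb j⟫ = 0) →
    (∀ j (ξ : Eu 3), ⟪bb j, ξ⟫ = 0 → ∑ i, t i j * ⟪aa i, ξ⟫ = 0) → ∃ a : ℝ, ∀ i j, t i j = a * ww i j

/-- **Prescribed first variations** (from `SUnq`; 180 lines). PROOF. Let `T` be the submodule of the pairs `(u, v)` with `Tng u v` and `L : T →ₗ (Fin 6 → Fin 6 → ℝ)`, `L (u, v) i j = if ct i j then Lc u v i j else 0`. CLAIM: every `ρ` with `∑ ∑ ww i j * ρ i j = 0` and `ρ i j = 0` outside the contacts is in the range of `L`. Otherwise there is a linear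
functional `f` on `Fin 6 → Fin 6 → ℝ` which vanishes on the range but not at `ρ` (`Submodule.exists_le_ker_of_lt_top`, or `Submodule.exists_dual_map_eq_bot_of_notMem`); `f σ = ∑ ∑ t' i j * σ i j`; put `t i j = t' i j` for contacts, `0` otherwise. Taking `(u, v)` with only one nonzero component `u i = ξ` (resp. `v j = ξ`) the hypotheses of `SUnq` follow, so `t = a ww`
and `f ρ = a ∑ ∑ ww i j * ρ i j = 0`, a contradiction. Then choose a linear section: the range `N` of `L` is a submodule, `L` restricted to its range has a linear right inverse (`LinearMap.exists_rightInverse_of_surjective` for `L.rangeRestrict`), extend it to the whole space by a projection (`LinearMap.exists_extend`) and precompose with `ρ ↦ (if ct then ρ else 0)`. -/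
def SSur : Prop :=
  ∃ R : (Fin 6 → Fin 6 → ℝ) →ₗ[ℝ] (Fin 6 → Eu 3) × (Fin 6 → Eu 3), (∀ ρ, Tng (R ρ).1 (R ρ).2) ∧
    ∀ ρ : Fin 6 → Fin 6 → ℝ, ∑ i, ∑ j, ww i j * ρ i j = 0 →
      ∀ i j, ct i j = true → Lc (R ρ).1 (R ρ).2 i j = ρ i j

/-- **Shape displacements** (from `SVv`, `SStress`; 300 lines). The second order form is negative on five directions. PROOF. `sh ζ = ∑ k, (ζ k / d k) • (U k, V k)` with `d = (4 - s, 2, 2, 2 - 4 s, 2 - 4 s)` and the following displacements (coordinates of `vv`).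
`U 0 = ((s-2, 0, 10-6s, 0), (0, s-2, 10-6s, 0), (2-s, 0, 10-6s, 0), (0, 2-s, 10-6s, 0), (0, 0, 1-2s, -1), (0, 0, 1-2s, 1))`,
`V 0 = ((s-1, s-1, 10-6s, 0), (1-s, s-1, 10-6s, 0), (1-s, 1-s, 10-6s, 0), (s-1, 1-s, 10-6s, 0), (0, 0, 1-2s, -1), (0, 0, 1-2s, 1))`.
With `k1 = -(6+5s)/7`, `k2 = (5+3s)/14`, `k3 = -(4+s)/14`, `k4 = (6+5s)/14`: `U 1 = (0, (k1,0,0,0), 0, (k1,0,0,0), (k2,0,0,0), (k2,0,0,0))`, `V 1 = ((k3,k4,1,0), (k3,-k4,-1,0), (k3,k4,-1,0), (k3,-k4,1,0), 0, 0)`;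
`U 2 = ((0,k1,0,0), 0, (0,k1,0,0), 0, (0,k2,0,0), (0,k2,0,0))`, `V 2 = ((k4,k3,1,0), (-k4,k3,1,0), (k4,k3,-1,0), (-k4,k3,-1,0), 0, 0)` (the image of `U 1`, `V 1` under the rotation by 90 degrees, `(x0, x1) ↦ (-x1, x0)` and the cyclic permutation of the square vertices: please check the signs with the computer).
With `g1 = -(1+s)/2`: `U 3 = (0, 0, 0, 0, (g1,0,0,0), (-g1,0,0,0))`, `V 3 = ((0,0,0,1), (0,0,0,-1), (0,0,0,-1), (0,0,0,1), 0, 0)`, and `U 4`, `V 4` the rotated ones, `U 4 = (0, 0, 0, 0, (0,g1,0,0), (0,-g1,0,0))`, `V 4 = ((0,0,0,1), (0,0,0,1), (0,0,0,-1), (0,0,0,-1), 0, 0)`. All are tangential, have `Lc = 0` on contacts, `dz (U k) = d k e_k`, and the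
form `Q (u, v) = ∑ ∑ ww i j * Qc u v i j = ∑ ∑ ww i j ⟪u i, v j⟫ - (1/2) ∑ lam i ‖u i‖^2 - (1/2) ∑ lam j ‖v j‖^2` (`SStress`) is diagonal in this basis with the values `(-4-6s, -(92+65s)/56, -(92+65s)/56, -(8+5s)/8, -(8+5s)/8)`; divided by `d k ^ 2` all are `< - 1 / 10`. -/
def SShp : Prop :=
  ∃ sh : (Fin 5 → ℝ) →ₗ[ℝ] (Fin 6 → Eu 3) × (Fin 6 → Eu 3), (∀ ζ, Tng (sh ζ).1 (sh ζ).2) ∧
    (∀ ζ i j, ct i j = true → Lc (sh ζ).1 (sh ζ).2 i j = 0) ∧ (∀ ζ, dz (sh ζ).1 = ζ) ∧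
    ∀ ζ, ∑ i, ∑ j, ww i j * Qc (sh ζ).1 (sh ζ).2 i j ≤ -(1 / 10 * ∑ k, ζ k ^ 2)

/-- **Duality of the two configurations** (from `SVv`; 200 lines). PROOF. (First part.) Let `v = vv x0 x1 x2 x3`. `j = 4, 5`: `β x2 - γ x3 ≤ c`, `β x2 + γ x3 ≤ c`, so `γ |x3| ≤ c - β x2`. `j < 4`: `(α s / 2)(± x0 ± x1) - β x x2 ≤ c` for all signs, so `(α s / 2)(|x0| + |x1|) ≤ c + β x x2`. Hence (`β x = c`) `-1 ≤ x2 ≤ x`. The norm:
`1 = α (x0^2 + x1^2) + β x2^2 + γ x3^2 ≤ α (|x0| + |x1|)^2 + β x2^2 + γ x3^2 ≤ 2 (c + c x2)^2 / α + β x2^2 + (c - β x2)^2 / γ =: f x2` (`α (s/2)^2 = α / 2`). `f` is a quadratic polynomial with positive leading coefficient and `f (-1) = f x = 1` (`c + β = γ`, `(c (1 + x))^2 = (5 s / 2 - 3)^2`, `2 (43 / 2 - 15 s) / (5 - 3 s) = 5 - 3 s`), so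
`f x2 = 1 + A (x2 + 1)(x2 - x)` with `A > 0` and `f x2 ≤ 1`; so `x2 = -1` or `x2 = x` and all inequalities are equalities. `x2 = -1`: `x0 = x1 = 0`, `γ |x3| = c + β = γ`, `x3 = ± 1`: `v = aa 4` or `aa 5`. `x2 = x`: `x3 = 0`, `(α s / 2)(|x0| + |x1|) = c (1 + x)`, that is `|x0| + |x1| = 1`, and `x0^2 + x1^2 = (|x0| + |x1|)^2`, so `x0 x1 = 0`: `v = aa i`, `i < 4`.
(Second part.) `⟪v, aa 4⟫, ⟪v, aa 5⟫ ≤ c`: `γ |x3| ≤ c + β x2`; `i < 4`: `α max (|x0|, |x1|) ≤ c - β x x2`; `1 = α (x0^2 + x1^2) + .. ≤ 2 α max^2 + β x2^2 + γ x3^2 ≤ f (- x2)`; equality at the end forces `|x0| = |x1|`. -/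
def SPol : Prop :=
  (∀ v : Eu 3, ‖v‖ = 1 → (∀ j, ⟪v, bb j⟫ ≤ cs) → ∃ i, v = aa i) ∧
  ∀ v : Eu 3, ‖v‖ = 1 → (∀ i, ⟪v, aa i⟫ ≤ cs) → ∃ j, v = bb j

/-- **Contacts span** (from `SVv`; 100 lines). PROOF. `x = vv x0 x1 x2 x3`. First part, `i < 4`: the contacts `bb 4`, `bb 5` give `β x2 ± γ x3 = 0`, so `x2 = x3 = 0`; the two contacts of the square give `± x0 ± x1 = 0` with the signs of two neighbours (`i = 0`: `x0 + x1 = 0`, `x0 - x1 = 0`), so `x0 = x1 = 0`. `i = 4`: the sum of the equations for `bb 0`, `bb 2` gives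
`x2 = 0`, then `x0 + x1 = 0`, `x0 - x1 = 0`, and `bb 5` gives `x3 = 0`; `i = 5` in the same way. Second part: `j < 4`: `aa 4`, `aa 5` give `x2 = x3 = 0`, the two neighbours give `x0 = x1 = 0` (each of them has one planar coordinate); `j = 4, 5` as before. -/
def SSpn : Prop :=
  (∀ i (x : Eu 3), (∀ j, ct i j = true → ⟪x, bb j⟫ = 0) → x = 0) ∧
  ∀ j (x : Eu 3), (∀ i, ct i j = true → ⟪x, aa i⟫ = 0) → x = 0

end Pool.Agent.MPaafd8aB
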