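import Pool.Agent.Lib.MP_aafd8a_gt.B.SpecA
import Pool.Agent.Lib.MP_aafd8a_gt_D.Frame

/-!
# MP_aafd8a_gt, block (B), the bottom family, topology and assembly: statements

Conventions: every statement is a proposition `SName`; the module `Name.lean` (in this directory) proves `pName : SName` or, if the
docstring says (from `SA`, `SB`), the implication `SA → SB → SName`. Definitions: `Defs.lean`. In this file `SCon`, `SCrd`, `SCpt`, `SNet`, `SSub`, `SFil`,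
`SNul` are the statements of `Lib/MP_aafd8a_gt` (`Spec.lean`, `Spec2.lean`, `Spec3.lean`), proved there; take them as hypotheses.

* `tru y`: the truncated masses of six numbers `y`.
* `nrm a`: the normalised vector as a point of the sphere.
-/

set_option autoImplicit false

open Topology RealInnerProductSpace

open scoped Classical

namespace Pool.Agent.MPaafd8aB

open Pool.Agent.MPaafd8a

/-- The truncated masses. -/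
noncomputable def tru (y : Fin 6 → ℝ) (i : Fin 6) : ℝ := max 0 (y i - 1 / 12) / ∑ k, max 0 (y k - 1 / 12)

/-- The normalised vector, a point of the sphere (the first unit vector if `a = 0`). -/
noncomputable def nrm (a : Eu 3) : Sph 3 :=
  if h : a = 0 then ⟨EuclideanSpace.single 0 1, by simp⟩
  else ⟨‖a‖⁻¹ • a, by
    rw [mem_sphere_zero_iff_norm, norm_smul, norm_inv, norm_norm, inv_mul_cancel₀ (norm_ne_zero_iff.2 h)]⟩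

/-! ## Labels, masses -/

/-- **Labels** (from `SGram`; 40 lines). PROOF. Let `dist v (g (aa i)) < r`. The number `k` chosen in the definition of `lbA r g v` satisfies `dist v (g (aa k)) < r`, so `dist (aa i) (aa k) = dist (g (aa i)) (g (aa k)) < 2 r ≤ 1 / 50`, and `SGram` gives `k = i`. -/
def SLb : Prop :=
  ∀ (r : ℝ) (g : Iso3) (v : Sph 3), r ≤ 1 / 100 →
    (∀ i, dist (v : Eu 3) (g (aa i)) < r → lbA r g v = i) ∧ ∀ j, dist (v : Eu 3) (g (bb j)) < r → lbB r g v = j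

/-- **Truncated masses** (120 lines). PROOF. `∑ k, six y k = 1` (`Fin.sum_univ_castSucc`, `Fin.snoc_castSucc`, `Fin.snoc_last`). The denominator is positive: `∑ k, (six y k - 1/12) = 1/2 > 0`, so some term is positive. If all `six y k ≥ 1/12` then the denominator is `1/2`, so `tru (six y) k - 1/6 = 2 (six y k - 1/6)`.
(a) Write `P k = six y k - 1/6` (sum zero over the six `k`), `t k = tru (six y) k - 1/6` (sum zero). `t = - s P` for the first five `k`, hence for all six. If `six y k < 1/12` for some `k` then `t k = - 1/6`, so `s * P k = 1/6 > 0`, but `P k < 0 ≤ s`: a contradiction. So all are `≥ 1/12` and `2 P k = - s P k`, `P k = 0`. (b) `|six y k - 1/6| ≤ 5 a ≤ 1/20`, so `t k = 2 P k`.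
(c) If `y i = -1` then `six y i.castSucc < 0`. If `y i = 1` the value is `7/6 > 1` and the sum of the six numbers is `1`, so another one is negative. -/
def STru : Prop :=
  (∀ y i, 0 ≤ tru (six y) i) ∧ (∀ y, ∑ i, tru (six y) i = 1) ∧ (∀ i, Continuous fun y : Fin 5 → ℝ => tru (six y) i) ∧
  (∀ y i, 0 < tru (six y) i → 1 / 12 < six y i) ∧
  (∀ (y : Fin 5 → ℝ) (s : ℝ), 0 ≤ s → (∀ i : Fin 5, tru (six y) i.castSucc - 1 / 6 = -(s * y i)) → y = 0) ∧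
  (∀ (y : Fin 5 → ℝ) (a : ℝ), a ≤ 1 / 100 → (∀ i, |y i| ≤ a) → ∀ i, |tru (six y) i - 1 / 6| ≤ 10 * a) ∧
  ∀ (y : Fin 5 → ℝ) (i : Fin 5), |y i| = 1 → ∃ k, six y k < 0

/-! ## The family -/

/-- **Normalisation** (70 lines). PROOF. `‖a + u‖ ^ 2 = 1 + x`, `x = ‖u‖ ^ 2 ≤ 1/4`, `‖b + v‖ ^ 2 = 1 + y`; the inner product of the normalised vectors is `(c + ℓ + m) / (√(1 + x) √(1 + y))`. `0 < 1 / √(1 + x) ≤ 1 - x / 2 + 3 x ^ 2 / 8` for `0 ≤ x` (`(1 + x) (1 - x/2 + 3x^2/8)^2 ≥ 1`: the difference is `x^3 (...) ≥ 0` for `x ≤ 1/4`), so the product of the two is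
`≤ 1 - (x + y)/2 + (x + y)^2`. Multiply by `c + ℓ + m`, `0 ≤ c + ℓ + m ≤ 3` (`|ℓ| ≤ ‖u‖ + ‖v‖ ≤ 1`). -/
def STay : Prop :=
  ∀ (a b u v : Eu 3), ‖a‖ = 1 → ‖b‖ = 1 → ⟪a, u⟫ = 0 → ⟪b, v⟫ = 0 → ‖u‖ ≤ 1 / 2 → ‖v‖ ≤ 1 / 2 → 0 ≤ ⟪a, b⟫ →
    0 ≤ ⟪a, b⟫ + (⟪u, b⟫ + ⟪a, v⟫) + ⟪u, v⟫ →
    ⟪(nrm (a + u) : Eu 3), (nrm (b + v) : Eu 3)⟫ ≤ ⟪a, b⟫ + (⟪u, b⟫ + ⟪a, v⟫) + ⟪u, v⟫ - ⟪a, b⟫ * (‖u‖ ^ 2 + ‖v‖ ^ 2) / 2 +
      (|⟪u, b⟫ + ⟪a, v⟫| + |⟪u, v⟫|) * (‖u‖ ^ 2 + ‖v‖ ^ 2) + 3 * (‖u‖ ^ 2 + ‖v‖ ^ 2) ^ 2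

/-- **Expansion of a contact** (from `STay`; 150 lines). `u = r • u1 + r ^ 2 • u2 + r ^ 3 • u3`, `v` in the same way; the first variation `ℓ(u, v) = ⟪u, b⟫ + ⟪a, v⟫` vanishes for `u1, v1`, is `A - q` for `u2, v2` where `q` is the second order form of `u1, v1`, and `- B` for `u3, v3`. PROOF. `r₁ = 1 / (6 M)`, so `‖u‖ ≤ 3 M r ≤ 1/2`. If the number
`N = ⟪a, b⟫ + ℓ + ⟪u, v⟫` is negative then so is the left side. Otherwise `STay`: `ℓ = r^2 (A - q) - r^3 B`; `⟪u, v⟫ = r^2 ⟪u1, v1⟫ + r^3 (⟪u1, v2⟫ + ⟪u2, v1⟫) + r^4 (...)`, `|⟪u1, v2⟫| ≤ M^2 z^3`; `‖u‖^2 = r^2 ‖u1‖^2 + 2 r^3 ⟪u1, u2⟫ + r^4 (...)`, `|⟪u1, u2⟫| ≤ M^2 z^3`; all the `(...)` are bounded by `10 M^2`. So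
`N - ⟪a, b⟫ (‖u‖^2 + ‖v‖^2)/2 ≤ ⟪a, b⟫ + r^2 A - r^3 B + 4 M^2 r^3 z^3 + 30 M^2 r^4`. The other two terms are `≤ C r^4` because `|ℓ|, |⟪u, v⟫|, ‖u‖^2, ‖v‖^2` are all `≤ 10 M^2 r^2` (`|q| ≤ 2 M^2`, `|A| ≤ M`, `|B| ≤ M`). -/
def SExp : Prop :=
  ∀ M : ℝ, 1 ≤ M → ∃ (C r₁ : ℝ), 1 ≤ C ∧ 0 < r₁ ∧ ∀ (a b u1 u2 u3 v1 v2 v3 : Eu 3) (r z A B : ℝ), 0 < r → r ≤ r₁ →
    0 ≤ z → z ≤ 1 → ‖a‖ = 1 → ‖b‖ = 1 → 0 ≤ ⟪a, b⟫ → ⟪a, u1⟫ = 0 → ⟪a, u2⟫ = 0 → ⟪a, u3⟫ = 0 → ⟪b, v1⟫ = 0 → ⟪b, v2⟫ = 0 →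
    ⟪b, v3⟫ = 0 → ‖u1‖ ≤ M * z → ‖v1‖ ≤ M * z → ‖u2‖ ≤ M * z ^ 2 → ‖v2‖ ≤ M * z ^ 2 → ‖u3‖ ≤ M → ‖v3‖ ≤ M → |A| ≤ M → |B| ≤ M →
    ⟪u1, b⟫ + ⟪a, v1⟫ = 0 → ⟪u2, b⟫ + ⟪a, v2⟫ = A - (⟪u1, v1⟫ - ⟪a, b⟫ * (‖u1‖ ^ 2 + ‖v1‖ ^ 2) / 2) → ⟪u3, b⟫ + ⟪a, v3⟫ = -B →
    ⟪(nrm (a + (r • u1 + r ^ 2 • u2 + r ^ 3 • u3)) : Eu 3), (nrm (b + (r • v1 + r ^ 2 • v2 + r ^ 3 • v3)) : Eu 3)⟫ ≤
      max 0 (⟪a, b⟫ + r ^ 2 * A - r ^ 3 * B + C * (r ^ 3 * z ^ 3 + r ^ 4))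

/-- **First order expansion of the shape coordinates** (from `SGram`; 100 lines). PROOF. With `X i = aa i + r • u i + e i`, `‖e i‖ ≤ M r^2`: every coordinate of `zz` is a sum of at most four inner products of two of the vectors `X i` (or minus them) and a constant; each of them is `⟪aa i, aa k⟫ + r (⟪u i, aa k⟫ + ⟪aa i, u k⟫) + R`, `|R| ≤ 2 M r^2 + r^2 M^2 + 2 M^2 r^3 + M^2 r^4`;
the constant terms give `zz aa = 0`, the linear terms `r * dz u`. -/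
def SZz : Prop :=
  ∀ M : ℝ, 1 ≤ M → ∃ C : ℝ, 1 ≤ C ∧ ∀ (r : ℝ) (X u : Fin 6 → Eu 3), 0 < r → r ≤ 1 → (∀ i, ‖u i‖ ≤ M) →
    (∀ i, ‖X i - aa i - r • u i‖ ≤ M * r ^ 2) → ∀ k, |zz X k - r * dz u k| ≤ C * r ^ 2

/-- **THE FAMILY** (from `SGram`, `SStress`, `SSur`, `SShp`, `STru`, `SExp`, `SZz`; 350 lines). For `x` in the ball let `P = six (xP x)`, `Q = six (xQ x)`, `ζ = xZ x`, `z = ‖ζ‖ ≤ 1`; `R` from `SSur`, `sh` from `SShp`, `W = ∑ ∑ ww i j` (`0 < W ≤ 36`; exact value `8 + 5 √2`). PROOF. `(u1, v1) = sh ζ`; `q i j = Qc u1 v1 i j`, `A = (∑ ∑ ww i j * q i j) / W ≤ - z^2 / 360`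
(`∑ ζ k ^ 2 ≥ z^2`); `(u2, v2) = R (fun i j => A - q i j)` (`∑ ∑ ww (A - q) = 0`); `f i j = max 0 (1/12 - P i) + max 0 (1/12 - Q j)`, `F = ∑ ∑ ww i j * f i j ≥ 0`, `(u3, v3) = R (fun i j => W * f i j - F)`. `Xf i x = nrm (aa i + (r • u1 i + r ^ 2 • u2 i + r ^ 3 • u3 i))`, `Yf j x = nrm (bb j + ...)`: continuous, the vectors have norm `≥ 1` (`‖a + u‖^2 = 1 + ‖u‖^2`
for `u ⊥ a`). BOUNDS: linear maps in finite dimension are bounded, `‖(u1, v1)‖ ≤ M z`, `|q| ≤ M z^2`, `‖(u2, v2)‖ ≤ M z^2`, `‖(u3, v3)‖ ≤ M` (`P`, `Q` are bounded on the ball) for a constant `M ≥ 1`; `C', r₁` from `SExp`. CONTACT `(i, j)` with `0 < tru P i`, `0 < tru Q j`: `P i, Q j > 1/12`, `f i j = 0`, so `Lc u3 v3 i j = - F`, and `SExp` with `B = F` gives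
`⟪Xf i x, Yf j x⟫ ≤ max 0 (cs + r^2 A - r^3 F + C' (r^3 z^3 + r^4))`. As `z^3 ≤ z^2`, `C' r ≤ 1/720`: `≤ max 0 (cs - r^2 z^2 / 720 - r^3 F + C' r^4) ≤ cs + C' r^4`. If `‖x‖ = 1`: some coordinate is `± 1`. (i) A coordinate of `ζ`: `z = 1`, the bound is `cs - r^2 / 720 + C' r^4 ≤ cs - r^3 / 96` for small `r`. (ii) A coordinate of `xP x`: `STru` gives `k` with `P k < 0`,
so `f k j ≥ 1/12`, and `k` has a contact `j`, `ww k j ≥ 1/4`: `F ≥ 1/48`, the bound is `cs - r^3 / 48 + C' r^4 ≤ cs - r^3 / 96`; the same for `xQ`. NOT A CONTACT: the inner product is `≤ - 1/2 + 8 M r < 0`. `c₀ = 1/96`. DISTANCE: `‖nrm (a + u) - a‖ ≤ 2 ‖u‖`. LAST: `SZz` with `u = u1`, `dz u1 = ζ`: `‖nrm (a + u) - (a + u)‖ = ‖a + u‖ - 1 ≤ ‖u‖^2`. -/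
def SFam : Prop :=
  ∃ C c₀ r₀ : ℝ, 1 ≤ C ∧ 0 < c₀ ∧ 0 < r₀ ∧ r₀ ≤ 1 ∧ ∀ r : ℝ, 0 < r → r ≤ r₀ → ∃ Xf Yf : Fin 6 → Ball 15 → Sph 3,
    (∀ i, Continuous (Xf i)) ∧ (∀ j, Continuous (Yf j)) ∧
    (∀ i x, dist (Xf i x : Eu 3) (aa i) ≤ C * r) ∧ (∀ j x, dist (Yf j x : Eu 3) (bb j) ≤ C * r) ∧
    (∀ x i j, 0 < tru (six (xP x.1)) i → 0 < tru (six (xQ x.1)) j → ⟪(Xf i x : Eu 3), (Yf j x : Eu 3)⟫ ≤ cs + C * r ^ 4) ∧
    (∀ x i j, ‖x.1‖ = 1 → 0 < tru (six (xP x.1)) i → 0 < tru (six (xQ x.1)) j →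
      ⟪(Xf i x : Eu 3), (Yf j x : Eu 3)⟫ ≤ cs - c₀ * r ^ 3) ∧
    ∀ x k, |zz (fun i => (Xf i x : Eu 3)) k - r * xZ x.1 k| ≤ C * r ^ 2

/-! ## Maps to the realization -/

/-- **Maps given by weights, exact coordinates** (from `SCon`; 60 lines, a copy of `Mk.lean` in `Lib/MP_aafd8a_gt`). -/
def SMkE : Prop :=
  ∀ (V : Type) (K : AbstractSimplicialComplex V) (X : Type) [TopologicalSpace X] (A : Type) [Fintype A]
    (p : A → X → ℝ) (u : A → V), (∀ a, Continuous (p a)) → (∀ a x, 0 ≤ p a x) → (∀ x, ∑ a, p a x = 1) →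
    (∀ x (σ : Finset V), σ.Nonempty → (∀ v ∈ σ, ∃ a, 0 < p a x ∧ u a = v) → σ ∈ K) →
    ∃ F : C(X, Geo K), ∀ x v, (F x).1 v = ∑ a, if u a = v then p a x else 0

/-- **Clusters** (from `SMkE`, `SNet`; 200 lines). Six moving points `Xf i x` with the masses `μ i x` are replaced by clusters of points of a fixed net. PROOF. `B, u, χ` from `SNet` for `θ`. `F` from `SMkE` for the index type `Fin 6 × B`, weights `μ i x * χ b (Xf i x)`, vertices `u b`; faces: if `0 < μ i x * χ b (Xf i x)` then `dist (u b) (Xf i x) < θ`, so for the witness `y`: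
`⟪u b, y⟫ < ⟪Xf i x, y⟫ + θ ≤ c`. `β i x = ∑ b, χ b (Xf i x) • (u b : Eu 3)`, a mean of points at distance `< θ` from `Xf i x`. COORDINATES `(F x).1 v = ∑ i, ∑ b, if u b = v then μ i x * χ b (Xf i x) else 0`; a term with `u b = v` which is not zero has `dist v (cc i) < r`, so `lb v = i`. MASSES: `ms lb (F x).1 i = ∑ v ∈ support, if lb v = i then (F x).1 v else 0`:
replace the support by the finite set of all `u b` (other terms vanish), exchange the sums: `= ∑ k, ∑ b, if lb (u b) = i then μ k x * χ b (Xf k x) else 0 = ∑ b, μ i x * χ b (Xf i x) = μ i x`. The sum of the vectors `(F x).1 v • v` over the cluster is `μ i x • β i x` in the same way. -/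
def SClu : Prop :=
  ∀ (r θ c : ℝ) (hc : -1 < c) (lb : Sph 3 → Fin 6) (cc : Fin 6 → Eu 3), 0 < θ →
    (∀ (v : Sph 3) i, dist (v : Eu 3) (cc i) < r → lb v = i) → ∀ (X : Type) [TopologicalSpace X] (Xf : Fin 6 → X → Sph 3)
    (μ : Fin 6 → X → ℝ), (∀ i, Continuous (Xf i)) → (∀ i, Continuous (μ i)) → (∀ i x, 0 ≤ μ i x) → (∀ x, ∑ i, μ i x = 1) →
    (∀ i x, dist (Xf i x : Eu 3) (cc i) + θ < r) →
    (∀ x, ∃ y : Sph 3, ∀ i, 0 < μ i x → ⟪(Xf i x : Eu 3), (y : Eu 3)⟫ ≤ c - θ) →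
    ∃ (F : C(X, Geo (capK 3 c hc))) (β : Fin 6 → X → Eu 3), (∀ i, Continuous (β i)) ∧
      (∀ i x, dist (β i x) (Xf i x) ≤ θ) ∧ (∀ x v, 0 < (F x).1 v → ∃ i, 0 < μ i x ∧ dist (v : Eu 3) (Xf i x) < θ) ∧
      (∀ x i, ms lb (F x).1 i = μ i x) ∧ ∀ x i, 0 < μ i x → bc lb (F x).1 i = β i x

/-- **THE BOTTOM** (from `SGram`, `SLb`, `STru`, `SFam`, `SClu`; 350 lines). PROOF. `C, c₀, r₀` from `SFam`; choose `ρ ≤ r₀` so small that `C ρ + ρ^4 < r`, `cs + (C + 5) ρ^4 < c₂`, `cs - c₀ ρ^3 / 2 > max c₁ 0`, `4 ρ < c₀` (so `cs - c₀ ρ^3 + 2 ρ^4 ≤ cs - c₀ ρ^3 / 2`), and `2 (C + 100) ρ < min a₀ η₁`. `Xf, Yf` from `SFam` for `ρ`. `θ = ρ^4`, `cp = cs + (C + 4) ρ^4`,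
`cm = cs - c₀ ρ^3 / 2 < cs`. MASSES `μ i x = tru (six (xP x.1)) i`, `μ' j x = tru (six (xQ x.1)) j` (`STru`; `xP`, `xQ` are continuous). `Φp, β` from `SClu` for `lb = lbA r refl`, `cc = aa` (`SLb`), `Xf`, `μ`, the witness is `Yf j x` for some `j` with `0 < μ' j x` (the sum is `1`); `Φq, β'` in the same way (`lbB`, `bb`, `Yf`, `μ'`; witness `Xf i x`).
(1), (2): if `0 < (Φp x).1 v`, `0 < (Φq x).1 w` then `v`, `w` are at distance `< θ` from `Xf i x`, `Yf j x` for active `i`, `j`, so `⟪v, w⟫ < ⟪Xf i x, Yf j x⟫ + 2 θ + θ^2 ...`: more simply `⟪v, w⟫ = ⟪Xf, Yf⟫ + ⟪v - Xf, Yf⟫ + ⟪v, w - Yf⟫ < ⟪Xf, Yf⟫ + 2 θ`. (3) clear. `kΦ x = mk15 (μ i.castSucc x - 1/6) (μ' j.castSucc x - 1/6) (zz (fun i => β i x))`, continuous.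
(4) If `refl` is a frame then all masses are positive, so `bc = β` for all `i` (`SClu`) and the formula is the definition of `kp`. (5) `‖x‖ ≤ 2 a₀`: `|μ i x - 1/6| ≤ 20 a₀ < min (η₁, 1/12)` (`STru`), and `refl` is a frame by (3); `|zz β k| ≤ |zz Xf k| + 20 θ ≤ ρ ‖x‖ + C ρ^2 + 20 ρ^4 < η₁` (every coordinate of `zz` is a sum of at most four inner products of vectors of
norm `≤ 1`, each changes by at most `2 θ`; `‖β i x‖ ≤ 1 + θ`). (6) Suppose `kΦ x = -(s • x)`. `STru` gives `xP x = 0`, `xQ x = 0`. Let `k` be a coordinate of `xZ x` with `|xZ x k| = ‖x‖ ≥ a₀`. `zz β k = - s xZ x k`, `|zz β k - ρ xZ x k| ≤ C ρ^2 + 20 ρ^4`, so `ρ a₀ ≤ (ρ + s) |xZ x k| ≤ (C + 20) ρ^2`: a contradiction. -/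
def SPhi : Prop :=
  ∀ r η₁ a₀ c₁ c₂ : ℝ, 0 < r → r ≤ 1 / 100 → 0 < η₁ → 0 < a₀ → 20 * a₀ < η₁ → a₀ ≤ 1 / 300 → c₁ < cs → cs < c₂ →
    ∃ (cm cp : ℝ) (hp : -1 < cp), c₁ < cm ∧ 0 < cm ∧ cm < cs ∧ cs < cp ∧ cp < c₂ ∧
    ∃ (Φp Φq : C(Ball 15, Geo (capK 3 cp hp))) (kΦ : C(Ball 15, Fin 15 → ℝ)),
      (∀ x, Cpt2 cp (Φp x).1 (Φq x).1) ∧ (∀ x, ‖x.1‖ = 1 → Cpt2 cm (Φp x).1 (Φq x).1) ∧
      (∀ x v, 0 < (Φp x).1 v → ∃ i, dist (v : Eu 3) (aa i) < r) ∧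
      (∀ x v, 0 < (Φq x).1 v → ∃ j, dist (v : Eu 3) (bb j) < r) ∧
      (∀ x, Frm r (LinearIsometryEquiv.refl ℝ (Eu 3)) (Φp x).1 (Φq x).1 →
        kp r (LinearIsometryEquiv.refl ℝ (Eu 3)) (Φp x).1 (Φq x).1 = kΦ x) ∧
      (∀ x, ‖x.1‖ ≤ 2 * a₀ → Frm r (LinearIsometryEquiv.refl ℝ (Eu 3)) (Φp x).1 (Φq x).1 ∧ ∀ k, |kΦ x k| < η₁) ∧
      ∀ x (s : ℝ), a₀ ≤ ‖x.1‖ → 0 ≤ s → kΦ x ≠ -(s • x.1)

/-! ## Topology -/

/-- **A ball and a homotopy give a sphere** (150 lines). Sup norms; for `x : CSph (D + 1)`: `max ‖ini x‖ |lst x| = 1`. PROOF. `n x = ‖ini x‖ + |lst x| ≥ 1`, `y x = (n x)⁻¹ • ini x`, `‖y x‖ ≤ 1`. `P x = Φ (y x)` if `0 ≤ lst x`; if `lst x ≤ 0`: `P x = F (2 - 2 ‖y x‖, ‖y x‖⁻¹ • y x)` for `1/2 ≤ ‖y x‖`, `P x = a` for `‖y x‖ ≤ 1/2`. Three closed sets which cover the sphere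
(`continuous_if_le` twice, or `LocallyFinite.continuous` / `ContinuousOn.union_of_isClosed`); agreement: `lst x = 0` implies `‖y x‖ = 1`, `F (0, y x) = Φ (y x)`; `‖y x‖ = 1/2`: `F (1, _) = a`. In the last case `a = F (1, s)` for some `s` (`CSph D` is nonempty because `1 ≤ D`). -/
def SGl1 : Prop :=
  ∀ (Y : Type) [TopologicalSpace Y] (D : ℕ) (Φ : C(Ball D, Y)) (F : C(unitInterval × CSph D, Y)) (a : Y), 1 ≤ D →
    (∀ (s : CSph D) (y : Ball D), s.1 = y.1 → F (0, s) = Φ y) → (∀ s, F (1, s) = a) →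
    ∃ P : C(CSph (D + 1), Y),
      (∀ (x : CSph (D + 1)) (y : Ball D), 0 ≤ lst x.1 → ini x.1 = (‖ini x.1‖ + lst x.1) • y.1 → P x = Φ y) ∧
      ∀ x : CSph (D + 1), lst x.1 ≤ 0 → ∃ (t : unitInterval) (s : CSph D), P x = F (t, s)

/-- **A null homotopy gives a map of the hemisphere** (120 lines). PROOF. For `x` in the hemisphere `‖ini x‖ + lst x > 0` (not both are zero because `∑ |x i| = 1`). Let `ρ x = ‖ini x‖ / (‖ini x‖ + lst x) ∈ [0, 1]`; `H x = G (2 - 2 ρ x, ‖ini x‖⁻¹ • ini x)` if `1/2 ≤ ρ x` (then `ini x ≠ 0`), `H x = a` if `ρ x ≤ 1/2`. -/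
def SGl2 : Prop :=
  ∀ (Y : Type) [TopologicalSpace Y] (D : ℕ) (G : C(unitInterval × CSph D, Y)) (a : Y), 1 ≤ D → (∀ s, G (1, s) = a) →
    ∃ H : C({x : Fin (D + 1) → ℝ // ∑ i, |x i| = 1 ∧ 0 ≤ lst x}, Y),
      (∀ x (s : CSph D), lst x.1 = 0 → ini x.1 = ‖ini x.1‖ • s.1 → H x = G (0, s)) ∧
      ∀ x, ∃ (t : unitInterval) (s : CSph D), H x = G (t, s)

/-- **Uniform continuity in the distance `dl`** (from `SCrd`, `SCpt`; 70 lines). PROOF. `T` a finite set containing all supports (`SCpt`, `isCompact_range`). `dl p p' = ∑ v ∈ T, |p v - p' v|` for weights with supports in `T` (`Finsupp.sum_of_support_subset`). The functions `x ↦ (h x).1 v` are uniformly continuous (`SCrd`, compact). -/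
def SUC : Prop :=
  ∀ (V : Type) (K : AbstractSimplicialComplex V) (X : Type) [MetricSpace X] [CompactSpace X] (h : C(X, Geo K)) (ε : ℝ), 0 < ε →
    ∃ δ : ℝ, 0 < δ ∧ ∀ x y, dist x y < δ → (((h x).1 - (h y).1).sum fun _ a => |a|) < ε

/-! ## Assembly -/

/-- **The hemisphere of pairs** (from `SCrd`, `SCpt`, `SCon`... : hypotheses `SSub`, `SFil`, `SNul`, `SGl1`, `SGl2`; 300 lines). PROOF. `K = capK 3 cm _`, `K' = capK 3 cp _`. (a) For `s : CSph 15` the supports of `Φp s`, `Φq s` are faces of `K`: a witness for the first one is any `w` with `0 < (Φq s).1 w` (`support_nonempty_of_sum`). `SSub` for the restrictions of `Φp`, `Φq` to `CSph 15`: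
`p, q : C(CSph 15, Geo K)` with the same coordinates, `Comp cm (p s) (q s)`. (b) `SNul` (`d = 14`, `ConnAtLeast 14`): `p` is homotopic to a constant map; `SFil` (hypothesis for `capK`: `mem_capK`): `PH cm p q (const a) (const b)` with the homotopies `F, F'`. `SSub` for the maps `F, F' : C(I × CSph 15, Geo K)`: `F₁, F₁' : C(I × CSph 15, Geo K')` with the same coordinates.
(c) `SGl1` for `Y = Geo K' × Geo K'`, `Φ = (Φp, Φq)`, `(F₁, F₁')` and the point `(a, b)` seen in `K'`: `P : C(CSph 16, Y)`. For all `x`: `Cpt2 cp (P x).1.1 (P x).2.1` (upper half: `Φ`; lower half: even `Cpt2 cm`, and `cm ≤ cp`). (d) `SNul` (`d = 15`, `ConnAtLeast 15`) for `x ↦ (P x).1`, `SFil`: `PH cp`; `SGl2` for the pair of homotopies `G`: `H`. For `x` with `Bot x`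
(`lst x = 0`, `0 ≤ lst (ini x)`): let `s = ‖ini x‖⁻¹ • ini x : CSph 16`, `H x = G (0, s) = P s = Φ y`, as `ini s = ‖ini x‖⁻¹ • pr x`, `lst s = ‖ini x‖⁻¹ * lst (ini x)`. For `Low x`: `H x = P s = (F₁, F₁')(t, s')`, which satisfies `Cpt2 cm`. Points of `Geo` are equal if the coordinates are (`Subtype.ext`). -/
def STop : Prop :=
  ∀ (cm cp : ℝ) (hm : -1 < cm) (hp : -1 < cp), cm ≤ cp → ConnAtLeast 14 (Geo (capK 3 cm hm)) →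
    ConnAtLeast 15 (Geo (capK 3 cp hp)) → ∀ Φp Φq : C(Ball 15, Geo (capK 3 cp hp)),
      (∀ x, Cpt2 cp (Φp x).1 (Φq x).1) → (∀ x, ‖x.1‖ = 1 → Cpt2 cm (Φp x).1 (Φq x).1) →
      ∃ Hp Hq : C({x : Fin 17 → ℝ // ∑ i, |x i| = 1 ∧ 0 ≤ lst x}, Geo (capK 3 cp hp)),
        (∀ x, Cpt2 cp (Hp x).1 (Hq x).1) ∧
        (∀ x (y : Ball 15), lst x.1 = 0 → 0 ≤ lst (ini x.1) → pr x.1 = (‖pr x.1‖ + lst (ini x.1)) • y.1 →
          Hp x = Φp y ∧ Hq x = Φq y) ∧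
        ∀ x, lst x.1 = 0 → lst (ini x.1) ≤ 0 → Cpt2 cm (Hp x).1 (Hq x).1

/-- **BLOCK (B)** (from `SPar`, `SRel`, `SLip`, `SPers`, `SLow8`, `SG0`, `SPhi`, `STop`, `SUC`; 300 lines). PROOF. `cst = cs` (`1 / √2 = √2 / 2`). `r` = the minimum of the `r₀` of `SPers` and of `SLow8`; `η₁, ε₁, d₁` from `SPers`; `a₀ = min (η₁ / 40) (1 / 300)`; `SPhi` for `r, η₁, a₀, c₁`, `c₂ = min (cs + ε₁) 1` (`cs < 1/3`). Suppose both connectivities; `Hp, Hq` from `STop`. Apply `SPar` with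
`D = 15`, `G = Iso3`, `Fr x g := ∃ h : ∑ i, |x i| = 1 ∧ 0 ≤ lst x, Frm r g (Hp ⟨x, h⟩).1 (Hq ⟨x, h⟩).1`, `kap x g := if h then kp r g (Hp ⟨x, h⟩).1 (Hq ⟨x, h⟩).1 else 0`, `g₀ = refl`, `γ` from `SRel`, `kB x = kΦ (y x)` with `y x = (‖pr x‖ + lst (ini x))⁻¹ • pr x` (for `Bot x`: the number `‖pr x‖ + lst (ini x)` is positive and `≤ 1`, because
`∑ |pr x i| + lst (ini x) = 1` and `‖pr x‖ ≤ ∑ |pr x i|`; to have a total function project to the ball), `δ₁` from `SUC` for `Hp`, `Hq` and `d₁` (the domain is a compact metric space), `ν` from `SLow8` for `cm`. H1, H2: `SRel` (`pw_of_geo`). H3: `SLip` and `SUC` (`‖kap x g - kap y g‖ ≤ 1000 (dl + dl)`, `pi_norm_lt_iff`). H4: `SPers` (`Cpt2 cp` implies `Cpt2 (cs + ε₁)`).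
H5: for `Bot x` the supports are those of `Φp (y x)`, `Φq (y x)`, near the `aa i`, `bb j`: `SG0`, then `kp = kΦ` by `SPhi`. H6: `‖pr x‖ ≤ a₀` gives `lst (ini x) ≥ 1 - 15 a₀ ≥ 1/2`, so `‖y x‖ ≤ 2 a₀`. H7: `‖y x‖ ≥ ‖pr x‖ ≥ a₀` and `kB x = -(s • pr x) = -((s (‖pr x‖ + lst (ini x))) • y x)` is excluded. H8: `SLow8` (`Cpt2 cm`), `|kp k| ≤ ‖kp‖` (`norm_le_pi_norm`). `a₀ < 1/15`. -/
def SBB : Prop := Pool.Agent.MPaafd8a.SB

end Pool.Agent.MPaafd8aB
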