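import Pool.Agent.Lib.MP_aafd8a_gt.B.SpecP

/-!
# MP_aafd8a_gt, block (B): first order expansion of the shape coordinates
-/

set_option autoImplicit false

open Topology RealInnerProductSpace

open scoped Classical

namespace Pool.Agent.MPaafd8aB

open Pool.Agent.MPaafd8a

namespace ZzAux

theorem expand (p p' a a' w w' : Eu 3) (r M : ℝ) (hM : 1 ≤ M) (hr : 0 < r) (hr1 : r ≤ 1)
    (ha : ‖a‖ ≤ 2) (ha' : ‖a'‖ ≤ 2) (hw : ‖w‖ ≤ 2 * M) (hw' : ‖w'‖ ≤ 2 * M)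
    (he : ‖p - a - r • w‖ ≤ 2 * M * r ^ 2) (he' : ‖p' - a' - r • w'‖ ≤ 2 * M * r ^ 2) :
    |⟪p, p'⟫ - ⟪a, a'⟫ - r * (⟪w, a'⟫ + ⟪a, w'⟫)| ≤ 24 * M ^ 2 * r ^ 2 := by
  obtain ⟨e, rfl⟩ : ∃ e, p = a + r • w + e := ⟨p - a - r • w, by abel⟩
  obtain ⟨e', rfl⟩ : ∃ e', p' = a' + r • w' + e' := ⟨p' - a' - r • w', by abel⟩
  have h1 : a + r • w + e - a - r • w = e := by abel
  have h2 : a' + r • w' + e' - a' - r • w' = e' := by abel
  rw [h1] at he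
  rw [h2] at he'
  have hr2 : r ^ 2 ≤ 1 := by nlinarith
  have hr20 : 0 < r ^ 2 := by positivity
  have key : ⟪a + r • w + e, a' + r • w' + e'⟫ - ⟪a, a'⟫ - r * (⟪w, a'⟫ + ⟪a, w'⟫) =
      r ^ 2 * ⟪w, w'⟫ + ⟪a + r • w, e'⟫ + ⟪e, a' + r • w' + e'⟫ := by
    have h3 : ⟪a + r • w + e, a' + r • w' + e'⟫ =
        ⟪a + r • w, a' + r • w'⟫ + ⟪a + r • w, e'⟫ + ⟪e, a' + r • w' + e'⟫ := by
      rw [inner_add_left (a + r • w) e, inner_add_right (a + r • w) (a' + r • w') e']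
    have h4 : ⟪a + r • w, a' + r • w'⟫ = ⟪a, a'⟫ + r * (⟪w, a'⟫ + ⟪a, w'⟫) + r ^ 2 * ⟪w, w'⟫ := by
      simp only [inner_add_left, inner_add_right, real_inner_smul_left, real_inner_smul_right]
      ring
    rw [h3, h4]
    ring
  rw [key]
  have n1 : ‖a + r • w‖ ≤ 4 * M := by
    have := norm_add_le a (r • w)
    rw [norm_smul, Real.norm_eq_abs, abs_of_pos hr] at this
    have h5 : r * ‖w‖ ≤ 1 * (2 * M) := mul_le_mul hr1 hw (norm_nonneg _) zero_le_one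
    linarith
  have n2 : ‖a' + r • w' + e'‖ ≤ 6 * M := by
    have h6 := norm_add_le (a' + r • w') e'
    have h7 := norm_add_le a' (r • w')
    rw [norm_smul, Real.norm_eq_abs, abs_of_pos hr] at h7
    have h5 : r * ‖w'‖ ≤ 1 * (2 * M) := mul_le_mul hr1 hw' (norm_nonneg _) zero_le_one
    have h8 : 2 * M * r ^ 2 ≤ 2 * M * 1 := mul_le_mul_of_nonneg_left hr2 (by linarith)
    linarith
  have b1 : |r ^ 2 * ⟪w, w'⟫| ≤ 4 * M ^ 2 * r ^ 2 := by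
    rw [abs_mul, abs_of_pos hr20]
    have h9 := abs_real_inner_le_norm w w'
    have h10 : ‖w‖ * ‖w'‖ ≤ (2 * M) * (2 * M) := mul_le_mul hw hw' (norm_nonneg _) (by linarith)
    nlinarith
  have b2 : |⟪a + r • w, e'⟫| ≤ 8 * M ^ 2 * r ^ 2 := by
    have h9 := abs_real_inner_le_norm (a + r • w) e'
    have h10 : ‖a + r • w‖ * ‖e'‖ ≤ (4 * M) * (2 * M * r ^ 2) :=
      mul_le_mul n1 he' (norm_nonneg _) (by linarith)
    nlinarith
  have b3 : |⟪e, a' + r • w' + e'⟫| ≤ 12 * M ^ 2 * r ^ 2 := by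
    have h9 := abs_real_inner_le_norm e (a' + r • w' + e')
    have h10 : ‖e‖ * ‖a' + r • w' + e'‖ ≤ (2 * M * r ^ 2) * (6 * M) :=
      mul_le_mul he n2 (norm_nonneg _) (by positivity)
    nlinarith
  have t1 := abs_add_le (r ^ 2 * ⟪w, w'⟫ + ⟪a + r • w, e'⟫) ⟪e, a' + r • w' + e'⟫
  have t2 := abs_add_le (r ^ 2 * ⟪w, w'⟫) ⟪a + r • w, e'⟫
  linarith

theorem sub_bound (x y : Eu 3) (K : ℝ) (hx : ‖x‖ ≤ K) (hy : ‖y‖ ≤ K) : ‖x - y‖ ≤ 2 * K := by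
  have := norm_sub_le x y
  linarith

theorem add_bound (x y : Eu 3) (K : ℝ) (hx : ‖x‖ ≤ K) (hy : ‖y‖ ≤ K) : ‖x + y‖ ≤ 2 * K := by
  have := norm_add_le x y
  linarith

end ZzAux

theorem pZz (h1 : SGram) : SZz := by
  intro M hM
  obtain ⟨hA, _, _, _, hz, _⟩ := h1
  refine ⟨24 * M ^ 2, by nlinarith, ?_⟩
  intro r X u hr hr1 hu hX
  have a1 : ∀ i j, ‖aa i + aa j‖ ≤ 2 := fun i j => by
    have := ZzAux.add_bound (aa i) (aa j) 1 (hA i).le (hA j).le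
    linarith
  have a2 : ∀ i j, ‖aa i - aa j‖ ≤ 2 := fun i j => by
    have := ZzAux.sub_bound (aa i) (aa j) 1 (hA i).le (hA j).le
    linarith
  have u1 : ∀ i j, ‖u i + u j‖ ≤ 2 * M := fun i j => ZzAux.add_bound (u i) (u j) M (hu i) (hu j)
  have u2 : ∀ i j, ‖u i - u j‖ ≤ 2 * M := fun i j => ZzAux.sub_bound (u i) (u j) M (hu i) (hu j)
  have x1 : ∀ i j, ‖(X i + X j) - (aa i + aa j) - r • (u i + u j)‖ ≤ 2 * M * r ^ 2 := fun i j => by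
    have := ZzAux.add_bound _ _ (M * r ^ 2) (hX i) (hX j)
    have e : (X i + X j) - (aa i + aa j) - r • (u i + u j) =
        (X i - aa i - r • u i) + (X j - aa j - r • u j) := by
      rw [smul_add]
      abel
    rw [e]
    linarith
  have x2 : ∀ i j, ‖(X i - X j) - (aa i - aa j) - r • (u i - u j)‖ ≤ 2 * M * r ^ 2 := fun i j => by
    have := ZzAux.sub_bound _ _ (M * r ^ 2) (hX i) (hX j)
    have e : (X i - X j) - (aa i - aa j) - r • (u i - u j) =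
        (X i - aa i - r • u i) - (X j - aa j - r • u j) := by
      rw [smul_sub]
      abel
    rw [e]
    linarith
  have z0 := congrFun hz 0
  have z1 := congrFun hz 1
  have z2 := congrFun hz 2
  have z3 := congrFun hz 3
  have z4 := congrFun hz 4
  have hM0 : 0 ≤ M * r ^ 2 := by positivity
  intro k
  fin_cases k
  · have h := ZzAux.expand (X 4) (X 5) (aa 4) (aa 5) (u 4) (u 5) r M hM hr hr1
      (by rw [hA]; norm_num) (by rw [hA]; norm_num) (by linarith [hu 4]) (by linarith [hu 5])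
      (by linarith [hX 4]) (by linarith [hX 5])
    have z0' : ⟪aa 4, aa 5⟫ + cs = 0 := z0
    show |(⟪X 4, X 5⟫ + cs) - r * (⟪u 4, aa 5⟫ + ⟪aa 4, u 5⟫)| ≤ _
    have e : (⟪X 4, X 5⟫ + cs) - r * (⟪u 4, aa 5⟫ + ⟪aa 4, u 5⟫) =
        ⟪X 4, X 5⟫ - ⟪aa 4, aa 5⟫ - r * (⟪u 4, aa 5⟫ + ⟪aa 4, u 5⟫) := by linarith
    rw [e]
    exact h
  · have h := ZzAux.expand (X 4 + X 5) (X 0 - X 2) (aa 4 + aa 5) (aa 0 - aa 2) (u 4 + u 5) (u 0 - u 2)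
      r M hM hr hr1 (a1 4 5) (a2 0 2) (u1 4 5) (u2 0 2) (x1 4 5) (x2 0 2)
    have z1' : ⟪aa 4 + aa 5, aa 0 - aa 2⟫ = 0 := z1
    rw [z1', sub_zero] at h
    exact h
  · have h := ZzAux.expand (X 4 + X 5) (X 1 - X 3) (aa 4 + aa 5) (aa 1 - aa 3) (u 4 + u 5) (u 1 - u 3)
      r M hM hr hr1 (a1 4 5) (a2 1 3) (u1 4 5) (u2 1 3) (x1 4 5) (x2 1 3)
    have z2' : ⟪aa 4 + aa 5, aa 1 - aa 3⟫ = 0 := z2
    rw [z2', sub_zero] at h
    exact h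
  · have h := ZzAux.expand (X 4 - X 5) (X 0 - X 2) (aa 4 - aa 5) (aa 0 - aa 2) (u 4 - u 5) (u 0 - u 2)
      r M hM hr hr1 (a2 4 5) (a2 0 2) (u2 4 5) (u2 0 2) (x2 4 5) (x2 0 2)
    have z3' : ⟪aa 4 - aa 5, aa 0 - aa 2⟫ = 0 := z3
    rw [z3', sub_zero] at h
    exact h
  · have h := ZzAux.expand (X 4 - X 5) (X 1 - X 3) (aa 4 - aa 5) (aa 1 - aa 3) (u 4 - u 5) (u 1 - u 3)
      r M hM hr hr1 (a2 4 5) (a2 1 3) (u2 4 5) (u2 1 3) (x2 4 5) (x2 1 3)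
    have z4' : ⟪aa 4 - aa 5, aa 1 - aa 3⟫ = 0 := z4
    rw [z4', sub_zero] at h
    exact h

end Pool.Agent.MPaafd8aB
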